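import Mathlib

/-!
# CF2: the numbers of the design

`T` is a set of nodes; the node `j + 1` is a child of the node `(unpair j).1`, the root is `0`.
Stage `n` is a gadget stage if `n % 7 = 6` (for the node `n / 7 + 1`), otherwise a window stage.
-/

namespace Pool.Agent.CF2

/-- The base parameter. -/
def MM : ℕ := 2 ^ 30

/-- The end of the main chain after the base. -/
def p0 : ℕ := 9 * 2 ^ 29

/-- The first level of the stage that starts with the main end `p` (and `z = p + 2 ^ 19`). -/
def GG (p : ℕ) : ℕ := p + (p + 2 ^ 19) + 2 ^ 22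

/-- Ups of a window. -/
def wU (p : ℕ) : List ℕ := (List.range 20).map fun i => GG p + 2 ^ (i + 1)

/-- Downs of a window. -/
def wD (p : ℕ) : List ℕ :=
  (p + (GG p + 2)) :: (p + 2 ^ 19 + (GG p + 4)) ::
    (List.range 18).map fun i => 2 * GG p + 2 ^ (i + 1) + 2 ^ (i + 3)

/-- The gadget numbers `B`, `C`, `Y`. -/
def gB (p : ℕ) : ℕ := GG p + 7 * (p / 10)

def gC (p ν : ℕ) : ℕ := GG p + 2 * ν

def gY (p ν : ℕ) : ℕ := gB p + ν

/-- Ups of a gadget. -/
def gU (p ν : ℕ) : List ℕ := [GG p, gC p ν, gB p, gY p ν - 1, gY p ν, gY p ν + 2 ^ 19]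

/-- Downs of a gadget. -/
def gD (p ν : ℕ) : List ℕ :=
  [p + GG p, p + 2 ^ 19 + gB p, GG p + gY p ν, gB p + gC p ν, gC p ν + (gY p ν - 1),
    (gY p ν - 1) + (gY p ν + 2 ^ 19)]

/-- Ups of the base. -/
def bU : List ℕ := [MM + 1, MM + 2, 3 * MM, p0 - 1, p0, p0 + 2 ^ 19]

/-- Downs of the base. -/
def bD : List ℕ := [MM + 3, 2 * MM + 3, MM + 2 + p0, 3 * MM + p0 - 1, 2 * p0 + 2 ^ 19 - 1]

open scoped Classical in
/-- The main end and the creation marks at the beginning of stage `n`. -/
noncomputable def stg (T : ℕ → Prop) : ℕ → ℕ × (ℕ → ℕ)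
  | 0 => (p0, fun _ => 3 * MM)
  | n + 1 =>
    if n % 7 = 6 then
      (gY (stg T n).1 (if T (n / 7 + 1) then (stg T n).2 (Nat.unpair (n / 7)).1 else MM + 2),
        Function.update (stg T n).2 (n / 7 + 1)
          (gC (stg T n).1 (if T (n / 7 + 1) then (stg T n).2 (Nat.unpair (n / 7)).1 else MM + 2)))
    else (GG (stg T n).1 + 2 ^ 19, (stg T n).2)

/-- The main end at the beginning of stage `n`. -/
noncomputable def P (T : ℕ → Prop) (n : ℕ) : ℕ := (stg T n).1

/-- The creation mark of the node `j`. -/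
noncomputable def mk (T : ℕ → Prop) (j : ℕ) : ℕ := (stg T (7 * j)).2 j

open scoped Classical in
/-- The number `ν` of the gadget at stage `n`. -/
noncomputable def nu (T : ℕ → Prop) (n : ℕ) : ℕ :=
  if T (n / 7 + 1) then mk T (Nat.unpair (n / 7)).1 else MM + 2

/-- Ups and downs of stage `n`. -/
noncomputable def U (T : ℕ → Prop) (n : ℕ) : List ℕ :=
  if n % 7 = 6 then gU (P T n) (nu T n) else wU (P T n)

noncomputable def D (T : ℕ → Prop) (n : ℕ) : List ℕ :=
  if n % 7 = 6 then gD (P T n) (nu T n) else wD (P T n)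

/-- Ups minus downs at the level `N`, in the base and in stage `k`. -/
def bc (N : ℕ) : ℤ := (bU.count N : ℤ) - bD.count N

noncomputable def sc (T : ℕ → Prop) (k N : ℕ) : ℤ := ((U T k).count N : ℤ) - (D T k).count N

/-- Ups minus downs at the level `N` in the base and the stages before `n`. -/
noncomputable def dlt (T : ℕ → Prop) (n N : ℕ) : ℤ := bc N + ∑ k ∈ Finset.range n, sc T k N

/-- Ups minus downs at the level `N`. -/
noncomputable def dl (T : ℕ → Prop) (N : ℕ) : ℤ := dlt T N N

/-- The slope. -/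
noncomputable def sl (T : ℕ → Prop) (N : ℕ) : ℤ := 1 + ∑ m ∈ Finset.range (N + 1), dl T m

/-- The function of the set `T` of nodes. -/
noncomputable def ff (T : ℕ → Prop) (n : ℕ) : ℤ := 1 + ∑ m ∈ Finset.range n, sl T m

noncomputable def FF (T : ℕ → Prop) (n : ℕ) : ℕ := (ff T n).toNat

/-! ### Growth -/

theorem P_zero (T : ℕ → Prop) : P T 0 = p0 := rfl

theorem stg_mk {T : ℕ → Prop} {j n : ℕ} (h : 7 * j ≤ n) : (stg T n).2 j = mk T j := by
  induction n, h using Nat.le_induction with
  | base => rfl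
  | succ n hn ih =>
    by_cases h6 : n % 7 = 6
    · have hj : j ≠ n / 7 + 1 := by omega
      rw [stg, if_pos h6]
      simp only [Function.update_of_ne hj]
      exact ih
    · rw [stg, if_neg h6]
      exact ih

theorem P_window {T : ℕ → Prop} {n : ℕ} (h : n % 7 ≠ 6) : P T (n + 1) = GG (P T n) + 2 ^ 19 := by
  unfold P
  rw [stg, if_neg h]

theorem seven_unpair (n : ℕ) : 7 * (Nat.unpair (n / 7)).1 ≤ n := by
  have := Nat.unpair_left_le (n / 7)
  omega

open scoped Classical in
theorem nu_eq (T : ℕ → Prop) (n : ℕ) :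
    (if T (n / 7 + 1) then (stg T n).2 (Nat.unpair (n / 7)).1 else MM + 2) = nu T n := by
  unfold nu
  rw [stg_mk (seven_unpair n)]

theorem P_gadget {T : ℕ → Prop} {n : ℕ} (h : n % 7 = 6) : P T (n + 1) = gY (P T n) (nu T n) := by
  unfold P
  rw [stg, if_pos h, nu_eq]

theorem mk_zero (T : ℕ → Prop) : mk T 0 = 3 * MM := rfl

theorem mk_succ (T : ℕ → Prop) (i : ℕ) :
    mk T (i + 1) = gC (P T (7 * i + 6)) (nu T (7 * i + 6)) := by
  unfold mk P
  have h6 : (7 * i + 6) % 7 = 6 := by omega
  have hi : (7 * i + 6) / 7 = i := by omega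
  rw [show 7 * (i + 1) = 7 * i + 6 + 1 by ring, stg, if_pos h6, nu_eq, hi]
  simp only [Function.update_self]

theorem P_lt_succ (T : ℕ → Prop) (n : ℕ) : P T n < P T (n + 1) := by
  by_cases h : n % 7 = 6
  · rw [P_gadget h]
    unfold gY gB GG
    omega
  · rw [P_window h]
    unfold GG
    omega

theorem P_mono (T : ℕ → Prop) : StrictMono (P T) := strictMono_nat_of_lt_succ (P_lt_succ T)

theorem P_ge (T : ℕ → Prop) (n : ℕ) : p0 + n ≤ P T n := by
  induction n with
  | zero => exact le_rfl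
  | succ n ih =>
    have := P_lt_succ T n
    omega

theorem mk_ge (T : ℕ → Prop) (j : ℕ) : 3 * MM ≤ mk T j := by
  cases j with
  | zero => exact le_rfl
  | succ i =>
    rw [mk_succ]
    have := P_ge T (7 * i + 6)
    unfold gC GG
    unfold p0 at this
    unfold MM
    omega

theorem nu_cases (T : ℕ → Prop) (n : ℕ) :
    nu T n = MM + 2 ∨ (T (n / 7 + 1) ∧ nu T n = mk T (Nat.unpair (n / 7)).1) := by
  unfold nu
  by_cases h : T (n / 7 + 1)
  · rw [if_pos h]
    exact Or.inr ⟨h, rfl⟩
  · rw [if_neg h]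
    exact Or.inl rfl

theorem nu_small_aux {T : ℕ → Prop} {n : ℕ} (h : n % 7 = 6)
    (hm : ∀ j, 7 * j ≤ n → 2 ^ (n % 7) * mk T j + 2 ^ 24 ≤ P T n) :
    50 * nu T n ≤ P T n ∧ 2 ^ 26 ≤ nu T n := by
  rw [h] at hm
  have h0 := hm 0 (by omega)
  rw [mk_zero] at h0
  rcases nu_cases T n with h1 | ⟨-, h1⟩
  · rw [h1]
    unfold MM at *
    constructor <;> omega
  · rw [h1]
    have h2 := hm _ (seven_unpair n)
    have h3 := mk_ge T (Nat.unpair (n / 7)).1
    unfold MM at *
    constructor <;> omega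

/-- The marks are small at the gadget stages. -/
theorem mk_le {T : ℕ → Prop} {j n : ℕ} (h : 7 * j ≤ n) : 2 ^ (n % 7) * mk T j + 2 ^ 24 ≤ P T n := by
  induction n generalizing j with
  | zero =>
    have hj : j = 0 := by omega
    subst hj
    rw [mk_zero, P_zero]
    unfold MM p0
    norm_num
  | succ n ih =>
    by_cases h6 : n % 7 = 6
    · have h7 : (n + 1) % 7 = 0 := by omega
      rw [h7, pow_zero, one_mul]
      by_cases hj : 7 * j ≤ n
      · have h1 := ih hj
        rw [h6] at h1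
        have h2 := P_lt_succ T n
        omega
      · have hj' : j = n / 7 + 1 := by omega
        have hn : 7 * (n / 7) + 6 = n := by omega
        subst hj'
        rw [mk_succ, hn, P_gadget h6]
        have h3 := nu_small_aux h6 (fun j hj => ih hj)
        have h4 := P_ge T n
        unfold p0 at h4
        unfold gC gY gB
        omega
    · have h7 : (n + 1) % 7 = n % 7 + 1 := by omega
      have hj : 7 * j ≤ n := by omega
      have h1 := ih hj
      rw [h7, pow_succ, P_window h6]
      unfold GG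
      generalize 2 ^ (n % 7) = u at *
      have h2 : u * 2 * mk T j = 2 * (u * mk T j) := by ring
      rw [h2]
      generalize u * mk T j = w at *
      omega

/-- The marks are far from each other. -/
theorem mk_far {T : ℕ → Prop} {i j : ℕ} (h : i < j) : 3 * mk T i + 2 ^ 24 ≤ mk T j := by
  obtain ⟨k, rfl⟩ : ∃ k, j = k + 1 := ⟨j - 1, by omega⟩
  rw [mk_succ]
  have h1 := mk_le (T := T) (j := i) (n := 7 * k + 6) (by omega)
  have h6 : (7 * k + 6) % 7 = 6 := by omega
  rw [h6] at h1
  unfold gC GG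
  omega

theorem nu_small {T : ℕ → Prop} {n : ℕ} (h : n % 7 = 6) :
    50 * nu T n ≤ P T n ∧ 2 ^ 26 ≤ nu T n := nu_small_aux h (fun _ hj => mk_le hj)

theorem mem_wU {p x : ℕ} (h : x ∈ wU p) : GG p + 2 ≤ x ∧ x ≤ GG p + 2 ^ 20 := by
  unfold wU at h
  obtain ⟨i, hi, rfl⟩ := List.mem_map.1 h
  have hi' := List.mem_range.1 hi
  have h1 : 2 ^ 1 ≤ 2 ^ (i + 1) := Nat.pow_le_pow_right (by norm_num) (by omega)
  have h2 : 2 ^ (i + 1) ≤ 2 ^ 20 := Nat.pow_le_pow_right (by norm_num) (by omega)
  constructor <;> omega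

theorem mem_wD {p x : ℕ} (hp : p0 ≤ p) (h : x ∈ wD p) :
    GG p + 2 ^ 20 < x ∧ x ≤ 2 * GG p + 2 ^ 18 + 2 ^ 20 := by
  unfold p0 at hp
  unfold wD at h
  rcases List.mem_cons.1 h with h | h
  · unfold GG at *
    constructor <;> omega
  rcases List.mem_cons.1 h with h | h
  · unfold GG at *
    constructor <;> omega
  obtain ⟨i, hi, rfl⟩ := List.mem_map.1 h
  have hi' := List.mem_range.1 hi
  have h1 : 2 ^ (i + 1) ≤ 2 ^ 18 := Nat.pow_le_pow_right (by norm_num) (by omega)
  have h2 : 2 ^ (i + 3) ≤ 2 ^ 20 := Nat.pow_le_pow_right (by norm_num) (by omega)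
  have h3 : 0 < 2 ^ (i + 1) := Nat.two_pow_pos _
  have h4 : 0 < 2 ^ (i + 3) := Nat.two_pow_pos _
  unfold GG at *
  generalize 2 ^ (i + 1) = u at *
  generalize 2 ^ (i + 3) = v at *
  constructor <;> omega

theorem GG_next (G : ℕ) : GG (G + 2 ^ 19) = 2 * G + 3 * 2 ^ 19 + 2 ^ 22 := by
  unfold GG
  ring

/-- The numbers of stage `n` lie between the first level of stage `n` and that of stage `n + 1`. -/
theorem U_range {T : ℕ → Prop} {n x : ℕ} (h : x ∈ U T n ∨ x ∈ D T n) :
    GG (P T n) ≤ x ∧ x < GG (P T (n + 1)) := by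
  have hp : p0 ≤ P T n := (Nat.le_add_right _ _).trans (P_ge T n)
  by_cases h6 : n % 7 = 6
  · rw [U, D, if_pos h6, if_pos h6] at h
    rw [P_gadget h6]
    obtain ⟨h1, h2⟩ := nu_small (T := T) h6
    generalize P T n = p at *
    generalize nu T n = v at *
    unfold p0 at hp
    rcases h with h | h
    · simp only [gU, List.mem_cons, List.not_mem_nil, or_false] at h
      unfold gC gY gB at *
      unfold GG at *
      omega
    · simp only [gD, List.mem_cons, List.not_mem_nil, or_false] at h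
      unfold gC gY gB at *
      unfold GG at *
      omega
  · rw [U, D, if_neg h6, if_neg h6] at h
    rw [P_window h6]
    rcases h with h | h
    · have h1 := mem_wU h
      rw [GG_next]
      omega
    · have h1 := mem_wD hp h
      rw [GG_next]
      omega

theorem bU_range {x : ℕ} (h : x ∈ bU ∨ x ∈ bD) : x < GG p0 := by
  simp only [bU, bD, List.mem_cons, List.not_mem_nil, or_false] at h
  unfold GG p0
  unfold p0 MM at h
  omega

theorem sc_zero {T : ℕ → Prop} {k n N : ℕ} (hk : n ≤ k) (h : N < GG (P T n)) : sc T k N = 0 := by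
  have h1 : GG (P T n) ≤ GG (P T k) := by
    have := (P_mono T).monotone hk
    unfold GG
    omega
  have h2 : N ∉ U T k := fun hx => by
    have := (U_range (Or.inl hx)).1
    omega
  have h3 : N ∉ D T k := fun hx => by
    have := (U_range (Or.inr hx)).1
    omega
  unfold sc
  rw [List.count_eq_zero.2 h2, List.count_eq_zero.2 h3]
  rfl

theorem dl_eq {T : ℕ → Prop} {n N : ℕ} (h : N < GG (P T n)) : dl T N = dlt T n N := by
  have hN : N < GG (P T N) := by
    have := P_ge T N
    unfold GG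
    omega
  have key : ∀ a b, a ≤ b → N < GG (P T a) →
      ∑ k ∈ Finset.range b, sc T k N = ∑ k ∈ Finset.range a, sc T k N := by
    intro a b hab ha
    symm
    refine Finset.sum_subset (Finset.range_mono hab) fun k _ hk => ?_
    exact sc_zero (not_lt.1 fun hlt => hk (Finset.mem_range.2 hlt)) ha
  unfold dl dlt
  rcases le_total n N with hle | hle
  · rw [key n N hle h]
  · rw [key N n hle hN]

/-! ### Values of the function -/

theorem sum_count_eq {L : List ℕ} {N : ℕ} (h : ∀ x ∈ L, x ≤ N) :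
    ∑ m ∈ Finset.range (N + 1), (L.count m : ℤ) = L.length := by
  have h1 : ∑ m ∈ Finset.range (N + 1), (L : Multiset ℕ).count m = Multiset.card (L : Multiset ℕ) :=
    Multiset.sum_count_eq_card (fun a ha => Finset.mem_range.2 (Nat.lt_succ_of_le (h a ha)))
  rw [Multiset.coe_card] at h1
  simp only [Multiset.coe_count] at h1
  exact_mod_cast h1

theorem count_zero_of_lt {L : List ℕ} {N m : ℕ} (h : ∀ x ∈ L, N < x) (hm : m ≤ N) :
    L.count m = 0 :=
  List.count_eq_zero.2 (fun hx => absurd (h m hx) (not_lt.2 hm))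

theorem count_zero_of_gt {L : List ℕ} {N : ℕ} (h : ∀ x ∈ L, x < N) : L.count N = 0 :=
  List.count_eq_zero.2 (fun hx => lt_irrefl _ (h N hx))

theorem U_window {T : ℕ → Prop} {n : ℕ} (h : n % 7 ≠ 6) : U T n = wU (P T n) := if_neg h

theorem D_window {T : ℕ → Prop} {n : ℕ} (h : n % 7 ≠ 6) : D T n = wD (P T n) := if_neg h

theorem length_U_eq (T : ℕ → Prop) (n : ℕ) : (U T n).length = (D T n).length := by
  by_cases h : n % 7 = 6
  · rw [U, D, if_pos h, if_pos h]
    simp only [gU, gD, List.length_cons, List.length_nil]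
  · rw [U, D, if_neg h, if_neg h]
    simp [wU, wD]

theorem GG_mono {p q : ℕ} (h : p ≤ q) : GG p ≤ GG q := by
  unfold GG
  omega

theorem p0_le (T : ℕ → Prop) (n : ℕ) : p0 ≤ P T n := (Nat.le_add_right _ _).trans (P_ge T n)

theorem sum_bc {N : ℕ} (h : GG p0 ≤ N) : ∑ m ∈ Finset.range (N + 1), bc m = 1 := by
  unfold bc
  rw [Finset.sum_sub_distrib, sum_count_eq (fun x hx => (bU_range (Or.inl hx)).le.trans h),
    sum_count_eq (fun x hx => (bU_range (Or.inr hx)).le.trans h)]
  rfl

theorem sum_sc_old {T : ℕ → Prop} {k n N : ℕ} (hk : k < n) (h : GG (P T n) ≤ N) :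
    ∑ m ∈ Finset.range (N + 1), sc T k m = 0 := by
  have h1 : GG (P T (k + 1)) ≤ N := (GG_mono ((P_mono T).monotone hk)).trans h
  unfold sc
  rw [Finset.sum_sub_distrib, sum_count_eq (fun x hx => (U_range (Or.inl hx)).2.le.trans h1),
    sum_count_eq (fun x hx => (U_range (Or.inr hx)).2.le.trans h1), length_U_eq, sub_self]

/-- The slope in stage `n`. -/
theorem sl_eq {T : ℕ → Prop} {n N : ℕ} (h1 : GG (P T n) ≤ N) (h2 : N < GG (P T (n + 1))) :
    sl T N = 2 + ∑ m ∈ Finset.range (N + 1), sc T n m := by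
  have h3 : ∑ m ∈ Finset.range (N + 1), dl T m
      = ∑ m ∈ Finset.range (N + 1), (bc m + ∑ k ∈ Finset.range (n + 1), sc T k m) := by
    refine Finset.sum_congr rfl fun m hm => ?_
    have hm' := Finset.mem_range.1 hm
    rw [dl_eq (T := T) (n := n + 1) (N := m) (by omega)]
    rfl
  unfold sl
  rw [h3, Finset.sum_add_distrib, sum_bc ((GG_mono (p0_le T n)).trans h1), Finset.sum_comm,
    Finset.sum_range_succ, Finset.sum_eq_zero (fun k hk => sum_sc_old (Finset.mem_range.1 hk) h1)]
  ring

theorem ff_second (T : ℕ → Prop) {N : ℕ} (h : 1 ≤ N) :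
    ff T (N + 1) - 2 * ff T N + ff T (N - 1) = dl T N := by
  obtain ⟨M, rfl⟩ : ∃ M, N = M + 1 := ⟨N - 1, by omega⟩
  rw [Nat.add_sub_cancel]
  unfold ff
  rw [Finset.sum_range_succ _ (M + 1), Finset.sum_range_succ _ M]
  have h1 : sl T (M + 1) = sl T M + dl T (M + 1) := by
    unfold sl
    rw [Finset.sum_range_succ _ (M + 1)]
    ring
  rw [h1]
  ring

theorem dl_small {T : ℕ → Prop} {N : ℕ} (h : N < GG p0) : dl T N = bc N := by
  rw [dl_eq (T := T) (n := 0) (N := N) h]
  simp [dlt]

theorem ff_base (T : ℕ → Prop) : (∀ n ≤ MM + 1, ff T n = n + 1) ∧ ff T (MM + 2) = MM + 4 ∧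
    ff T (MM + 3) = MM + 7 ∧ ff T (MM + 4) = MM + 9 := by
  have hG : ∀ N, N ≤ MM + 3 → N < GG p0 := by
    intro N hN
    unfold MM at hN
    unfold GG p0
    omega
  have hb0 : ∀ m, m ≤ MM → bc m = 0 := by
    intro m hm
    unfold MM at hm
    have h1 : m ∉ bU := by
      simp only [bU, MM, p0, List.mem_cons, List.not_mem_nil, or_false]
      omega
    have h2 : m ∉ bD := by
      simp only [bD, MM, p0, List.mem_cons, List.not_mem_nil, or_false]
      omega
    simp [bc, List.count_eq_zero.2 h1, List.count_eq_zero.2 h2]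
  have hb1 : bc (MM + 1) = 1 := by decide +kernel
  have hb2 : bc (MM + 2) = 1 := by decide +kernel
  have hb3 : bc (MM + 3) = -1 := by decide +kernel
  have hs0 : ∀ m, m ≤ MM → sl T m = 1 := by
    intro m hm
    unfold sl
    rw [Finset.sum_eq_zero (fun i hi => by
      have := Finset.mem_range.1 hi
      rw [dl_small (hG i (by omega)), hb0 i (by omega)])]
    rfl
  have hsucc : ∀ m, sl T (m + 1) = sl T m + dl T (m + 1) := by
    intro m
    unfold sl
    rw [Finset.sum_range_succ _ (m + 1)]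
    ring
  have hs1 : sl T (MM + 1) = 2 := by
    rw [hsucc, hs0 MM le_rfl, dl_small (hG _ (by omega)), hb1]
    rfl
  have hs2 : sl T (MM + 2) = 3 := by
    rw [hsucc, hs1, dl_small (hG _ (by omega)), hb2]
    rfl
  have hs3 : sl T (MM + 3) = 2 := by
    rw [hsucc, hs2, dl_small (hG _ (by omega)), hb3]
    rfl
  have hf0 : ∀ n ≤ MM + 1, ff T n = n + 1 := by
    intro n hn
    unfold ff
    rw [Finset.sum_congr rfl (fun i hi => hs0 i (by
      have := Finset.mem_range.1 hi
      omega))]
    simp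
    ring
  have hfs : ∀ n, ff T (n + 1) = ff T n + sl T n := by
    intro n
    unfold ff
    rw [Finset.sum_range_succ]
    ring
  have hf2 : ff T (MM + 2) = MM + 4 := by
    rw [hfs, hf0 _ le_rfl, hs1]
    push_cast
    ring
  have hf3 : ff T (MM + 3) = MM + 7 := by
    rw [hfs, hf2, hs2]
    ring
  refine ⟨hf0, hf2, hf3, ?_⟩
  rw [hfs, hf3, hs3]
  ring

/-- Slope two before a window, slope two at its last down. -/
theorem sl_window {T : ℕ → Prop} {n : ℕ} (h : n % 7 ≠ 6) :
    sl T (GG (P T n)) = 2 ∧ sl T (2 * GG (P T n) + 2 ^ 18 + 2 ^ 20) = 2 := by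
  have hp : p0 ≤ P T n := p0_le T n
  have hlast : 2 * GG (P T n) + 2 ^ 18 + 2 ^ 20 ∈ D T n := by
    rw [D_window h]
    unfold wD
    refine List.mem_cons_of_mem _ (List.mem_cons_of_mem _ (List.mem_map.2 ⟨17, ?_, rfl⟩))
    exact List.mem_range.2 (by norm_num)
  have hlt := (U_range (T := T) (n := n) (Or.inr hlast)).2
  constructor
  · rw [sl_eq le_rfl (by omega), Finset.sum_eq_zero, add_zero]
    intro m hm
    have hm' := Finset.mem_range.1 hm
    unfold sc
    rw [U_window h, D_window h, count_zero_of_lt (N := GG (P T n))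
      (fun x hx => by have := (mem_wU hx).1; omega) (by omega),
      count_zero_of_lt (N := GG (P T n))
      (fun x hx => by have := (mem_wD hp hx).1; omega) (by omega)]
    rfl
  · rw [sl_eq (by omega) hlt]
    have h0 : ∑ m ∈ Finset.range (2 * GG (P T n) + 2 ^ 18 + 2 ^ 20 + 1), sc T n m = 0 := by
      unfold sc
      rw [Finset.sum_sub_distrib, U_window h, D_window h,
        sum_count_eq (fun x hx => by have := (mem_wU hx).2; omega),
        sum_count_eq (fun x hx => (mem_wD hp hx).2)]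
      simp [wU, wD]
    rw [h0, add_zero]

theorem dl_window {T : ℕ → Prop} {n i : ℕ} (h : n % 7 ≠ 6) (h1 : 1 ≤ i) (h2 : i ≤ 20) :
    dl T (GG (P T n) + 2 ^ i) = 1 := by
  have hp : p0 ≤ P T n := p0_le T n
  have hpos : 0 < 2 ^ i := Nat.two_pow_pos i
  have hmem : GG (P T n) + 2 ^ i ∈ wU (P T n) := by
    unfold wU
    refine List.mem_map.2 ⟨i - 1, List.mem_range.2 (by omega), ?_⟩
    rw [Nat.sub_add_cancel h1]
  have hmem' : GG (P T n) + 2 ^ i ∈ U T n := by rw [U_window h]; exact hmem
  have hlt := (U_range (T := T) (n := n) (Or.inl hmem')).2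
  rw [dl_eq hlt]
  unfold dlt
  rw [Finset.sum_range_succ]
  have hG0 := GG_mono hp
  have hb : bc (GG (P T n) + 2 ^ i) = 0 := by
    unfold bc
    rw [count_zero_of_gt (fun x hx => by have := bU_range (Or.inl hx); omega),
      count_zero_of_gt (fun x hx => by have := bU_range (Or.inr hx); omega)]
    rfl
  have hold : ∑ k ∈ Finset.range n, sc T k (GG (P T n) + 2 ^ i) = 0 := by
    refine Finset.sum_eq_zero fun k hk => ?_
    have hk' := Finset.mem_range.1 hk
    have hm : GG (P T (k + 1)) ≤ GG (P T n) := GG_mono ((P_mono T).monotone hk')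
    unfold sc
    rw [count_zero_of_gt (fun x hx => by have := (U_range (Or.inl hx)).2; omega),
      count_zero_of_gt (fun x hx => by have := (U_range (Or.inr hx)).2; omega)]
    rfl
  have hnow : sc T n (GG (P T n) + 2 ^ i) = 1 := by
    unfold sc
    have hle := (mem_wU hmem).2
    rw [U_window h, D_window h, count_zero_of_lt (N := GG (P T n) + 2 ^ 20)
      (fun x hx => (mem_wD hp hx).1) hle]
    have hnd : (wU (P T n)).Nodup := by
      unfold wU
      refine List.Nodup.map ?_ List.nodup_range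
      intro a b hab
      have h3 : 2 ^ (a + 1) = 2 ^ (b + 1) := Nat.add_left_cancel hab
      have h4 := Nat.pow_right_injective (le_refl 2) h3
      omega
    rw [List.count_eq_one_of_mem hnd hmem]
    rfl
  rw [hb, hold, hnow]
  rfl

/-- Locality of the stages. -/
theorem stg_local {T T' : ℕ → Prop} {n : ℕ} (h : ∀ j ≤ n, T j ↔ T' j) :
    ∀ m, m ≤ n → stg T m = stg T' m := by
  intro m
  induction m with
  | zero => intro _; rfl
  | succ m ih =>
    intro hm
    have ih' := ih (by omega)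
    have hT : T (m / 7 + 1) ↔ T' (m / 7 + 1) := h _ (by omega)
    by_cases hc : T (m / 7 + 1)
    · simp only [stg, ih', if_pos hc, if_pos (hT.1 hc)]
    · simp only [stg, ih', if_neg hc, if_neg (fun h' => hc (hT.2 h'))]

/-- Locality. -/
theorem FF_local {T T' : ℕ → Prop} {n : ℕ} (h : ∀ j ≤ n, T j ↔ T' j) : FF T n = FF T' n := by
  have hs := stg_local h
  have hP : ∀ k, k ≤ n → P T k = P T' k := fun k hk => by
    unfold P
    rw [hs k hk]
  have hnu : ∀ k, k + 1 ≤ n → nu T k = nu T' k := by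
    intro k hk
    have hT : T (k / 7 + 1) ↔ T' (k / 7 + 1) := h _ (by omega)
    have hu : (Nat.unpair (k / 7)).1 ≤ k / 7 := Nat.unpair_left_le _
    have hmk : mk T (Nat.unpair (k / 7)).1 = mk T' (Nat.unpair (k / 7)).1 := by
      unfold mk
      rw [hs _ (by omega)]
    unfold nu
    rw [hmk]
    by_cases hc : T (k / 7 + 1)
    · rw [if_pos hc, if_pos (hT.1 hc)]
    · rw [if_neg hc, if_neg (fun h' => hc (hT.2 h'))]
  have hsc : ∀ k N, k + 1 ≤ n → sc T k N = sc T' k N := by
    intro k N hk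
    unfold sc U D
    rw [hP k (by omega), hnu k hk]
  have hdl : ∀ N, N ≤ n → dl T N = dl T' N := by
    intro N hN
    unfold dl dlt
    rw [Finset.sum_congr rfl (fun k hk => hsc k N (by
      have := Finset.mem_range.1 hk
      omega))]
  have hsl : ∀ N, N ≤ n → sl T N = sl T' N := by
    intro N hN
    unfold sl
    rw [Finset.sum_congr rfl (fun k hk => hdl k (by
      have := Finset.mem_range.1 hk
      omega))]
  unfold FF ff
  rw [Finset.sum_congr rfl (fun k hk => hsl k (by
    have := Finset.mem_range.1 hk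
    omega))]

end Pool.Agent.CF2
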