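import Pool.Agent.CF2.ST
import Pool.Agent.CF2.Num

/-!
# CF2: assembly, definitions
-/

namespace Pool.Agent.CF2

/-- The sums of the consecutive elements. -/
def lv (l : List ℕ) : List ℕ := List.zipWith (· + ·) l l.tail

/-- Runs minus links at the level `N`. -/
def bal (A Q : List ℕ) (N : ℕ) : ℤ := ((A ++ Q).count N : ℤ) - (lv A ++ lv Q).count N

/-- The balance of the design after `n` stages. -/
def Bal (T : ℕ → Prop) (n : ℕ) (A Q : List ℕ) : Prop :=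
  ∀ N, dlt T n N = bal A Q N - if N = MM + 3 then 1 else 0

/-- The numerical invariants of a state at the beginning of stage `n`. -/
structure Inv (T : ℕ → Prop) (n : ℕ) (A Q : List ℕ) (j : ℕ) : Prop where
  hA : ∃ s, A = s ++ [P T n]
  hv : ∃ s, Q = mk T j :: s
  hz : ∃ s, Q = s ++ [P T n + 2 ^ 19]
  bal : Bal T n A Q
  jn : 7 * j ≤ n
  Sa : 2 * (P T n + 2 ^ 19) + 2 ^ 24 ≤ (Q.sum - (P T n + 2 ^ 19)) + mk T j
  Sa7 : n % 7 ≠ 0 → 7 * (P T n + 2 ^ 19) ≤ Q.sum - (P T n + 2 ^ 19)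
  cs : ∀ s, s ≠ [] → s <:+ A → mk T j + s.sum ≠ GG (P T n) + 4
  last : n % 7 ≠ 0 → ∃ s a b, A = s ++ [a, b, P T n] ∧ a ≤ P T n ∧ b ≤ P T n ∧
    P T n ≤ a + 2 ^ 20 ∧ P T n ≤ b + 2 ^ 20

/-- A state of the world `g` at the beginning of stage `n`. -/
def Sta (T : ℕ → Prop) (g : ℕ → ℕ) (n : ℕ) (A Q : List ℕ) (j : ℕ) : Prop :=
  Inv T n A Q j ∧ (SN g A Q (P T n) (P T n + 2 ^ 19) (mk T j) ∨
    ∃ a, SR g A Q (P T n) (P T n + 2 ^ 19) (mk T j) a)

open scoped Classical in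
/-- What the complexity function gives about the run sequence `g`. -/
structure Wld (T : ℕ → Prop) (g : ℕ → ℕ) : Prop where
  gb : GB g
  low : ∀ t, MM + 1 ≤ g t
  m1 : MM + 1 ∈ Set.range g
  m2 : MM + 2 ∈ Set.range g
  m3 : MM + 3 ∉ Set.range g
  g0 : g 0 = MM + 1 ∨ g 0 = MM + 2
  once : ∀ t, g t = g 0 → t = 0
  le : ∀ N, MM + 3 < N → ((WS g N).ncard : ℤ) + dl T N =
    (SS g N).ncard + (if N ∈ Set.range g then 1 else 0)

/-- The nodes of the branch with the letters `a`. -/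
def nd (a : ℕ → ℕ) : ℕ → ℕ
  | 0 => 0
  | k + 1 => Nat.pair (nd a k) (a k) + 1

end Pool.Agent.CF2
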