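import Pool.Agent.CF2.Asm

/-!
# CF2: the balance of the design is preserved
-/

namespace Pool.Agent.CF2

theorem bal_lv_append (s : List ℕ) (a : ℕ) (m : List ℕ) :
    lv (s ++ a :: m) = lv (s ++ [a]) ++ lv (a :: m) := by
  induction s with
  | nil => simp [lv]
  | cons x s ih =>
    cases s with
    | nil =>
      simp [lv]
    | cons y s =>
      have e : ∀ l, lv (x :: y :: l) = (x + y) :: lv (y :: l) := fun l => rfl
      simp only [List.cons_append] at ih ⊢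
      rw [e, e, ih]
      rfl

theorem bal_lv_cons (x y : ℕ) (l : List ℕ) : lv (x :: y :: l) = (x + y) :: lv (y :: l) := rfl

theorem bal_lv_one (x : ℕ) : lv [x] = [] := rfl

theorem bal_dlt_succ (T : ℕ → Prop) (n N : ℕ) : dlt T (n + 1) N = dlt T n N + sc T n N := by
  unfold dlt
  rw [Finset.sum_range_succ]
  ring

theorem bal_zero (T : ℕ → Prop) :
    Bal T 0 [MM + 1, MM + 2, p0] [3 * MM, p0 - 1, p0 + 2 ^ 19] := by
  intro N
  unfold dlt bc bal bU bD
  simp only [Finset.range_zero, Finset.sum_empty, List.cons_append, List.nil_append,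
    bal_lv_cons, bal_lv_one, List.count_cons, List.count_nil, MM, p0, beq_iff_eq]
  norm_num
  simp only [eq_comm (a := N)]
  ring

theorem bal_window_U (p N : ℕ) : (wU p).count N = (odd10 (GG p)).count N + (even10 (GG p)).count N := by
  unfold wU odd10 even10
  simp only [List.range, List.range.loop, List.map, List.count_cons, List.count_nil, beq_iff_eq]
  norm_num
  ring

theorem bal_window_D (p N : ℕ) : (wD p).count N =
    (lv (p :: odd10 (GG p))).count N + (lv ((p + 2 ^ 19) :: even10 (GG p))).count N := by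
  unfold wD odd10 even10
  generalize GG p = G
  have e1 : lv [p, G + 2 ^ 1, G + 2 ^ 3, G + 2 ^ 5, G + 2 ^ 7, G + 2 ^ 9, G + 2 ^ 11, G + 2 ^ 13,
      G + 2 ^ 15, G + 2 ^ 17, G + 2 ^ 19] = (p + (G + 2)) ::
      ([0, 2, 4, 6, 8, 10, 12, 14, 16].map fun i => 2 * G + 2 ^ (i + 1) + 2 ^ (i + 3)) := by
    simp only [bal_lv_cons, bal_lv_one, List.map, List.cons.injEq, and_true]
    norm_num
    omega
  have e2 : lv [p + 2 ^ 19, G + 2 ^ 2, G + 2 ^ 4, G + 2 ^ 6, G + 2 ^ 8, G + 2 ^ 10, G + 2 ^ 12,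
      G + 2 ^ 14, G + 2 ^ 16, G + 2 ^ 18, G + 2 ^ 20] = (p + 2 ^ 19 + (G + 4)) ::
      ([1, 3, 5, 7, 9, 11, 13, 15, 17].map fun i => 2 * G + 2 ^ (i + 1) + 2 ^ (i + 3)) := by
    simp only [bal_lv_cons, bal_lv_one, List.map, List.cons.injEq, and_true]
    norm_num
    omega
  rw [e1, e2]
  simp only [List.range, List.range.loop, List.map, List.count_cons, List.count_nil]
  ring

theorem bal_window {T : ℕ → Prop} {n : ℕ} {A Q : List ℕ} (h : n % 7 ≠ 6)
    (hA : ∃ s, A = s ++ [P T n]) (hQ : ∃ s, Q = s ++ [P T n + 2 ^ 19]) (hb : Bal T n A Q) :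
    Bal T (n + 1) (A ++ odd10 (GG (P T n))) (Q ++ even10 (GG (P T n))) := by
  intro N
  have h1 := hb N
  obtain ⟨s, rfl⟩ := hA
  obtain ⟨t, rfl⟩ := hQ
  rw [bal_dlt_succ, h1]
  have hU : U T n = wU (P T n) := by unfold U; rw [if_neg h]
  have hD : D T n = wD (P T n) := by unfold D; rw [if_neg h]
  unfold sc
  rw [hU, hD, bal_window_U, bal_window_D]
  have e1 : s ++ [P T n] ++ odd10 (GG (P T n)) = s ++ P T n :: odd10 (GG (P T n)) := by simp
  have e2 : t ++ [P T n + 2 ^ 19] ++ even10 (GG (P T n)) =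
      t ++ (P T n + 2 ^ 19) :: even10 (GG (P T n)) := by simp
  unfold bal
  rw [e1, e2, bal_lv_append s (P T n) (odd10 (GG (P T n))),
    bal_lv_append t (P T n + 2 ^ 19) (even10 (GG (P T n)))]
  simp only [List.count_append, List.count_cons, List.count_nil]
  push_cast
  ring

theorem bal_keep {T : ℕ → Prop} {n : ℕ} {A Q : List ℕ} (h : n % 7 = 6)
    (hA : ∃ s, A = s ++ [P T n]) (hQ : ∃ s, Q = s ++ [P T n + 2 ^ 19]) (hb : Bal T n A Q) :
    Bal T (n + 1) (A ++ [GG (P T n), gY (P T n) (nu T n)])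
      (Q ++ [gB (P T n), gC (P T n) (nu T n), gY (P T n) (nu T n) - 1,
        gY (P T n) (nu T n) + 2 ^ 19]) := by
  intro N
  have h1 := hb N
  obtain ⟨s, rfl⟩ := hA
  obtain ⟨t, rfl⟩ := hQ
  rw [bal_dlt_succ, h1]
  have hU : U T n = gU (P T n) (nu T n) := by unfold U; rw [if_pos h]
  have hD : D T n = gD (P T n) (nu T n) := by unfold D; rw [if_pos h]
  unfold sc
  rw [hU, hD]
  unfold gU gD
  generalize gY (P T n) (nu T n) = Y
  generalize gC (P T n) (nu T n) = C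
  generalize gB (P T n) = B
  generalize GG (P T n) = G
  have e1 : s ++ [P T n] ++ [G, Y] = s ++ P T n :: [G, Y] := by simp
  have e2 : t ++ [P T n + 2 ^ 19] ++ [B, C, Y - 1, Y + 2 ^ 19] =
      t ++ (P T n + 2 ^ 19) :: [B, C, Y - 1, Y + 2 ^ 19] := by simp
  unfold bal
  rw [e1, e2, bal_lv_append s (P T n) [G, Y],
    bal_lv_append t (P T n + 2 ^ 19) [B, C, Y - 1, Y + 2 ^ 19]]
  simp only [List.count_append, bal_lv_cons, bal_lv_one, List.count_cons, List.count_nil]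
  push_cast
  ring

theorem bal_swap {T : ℕ → Prop} {n : ℕ} {A Q : List ℕ} (h : n % 7 = 6)
    (hA : ∃ s, A = s ++ [P T n]) (hQ : ∃ s, Q = s ++ [P T n + 2 ^ 19])
    (hv : ∃ s, Q = nu T n :: s) (hb : Bal T n A Q) :
    Bal T (n + 1)
      (A ++ [GG (P T n)] ++ Q ++ [gB (P T n), GG (P T n) + nu T n, gY (P T n) (nu T n)])
      [gC (P T n) (nu T n), gY (P T n) (nu T n) - 1, gY (P T n) (nu T n) + 2 ^ 19] := by
  intro N
  have h1 := hb N
  obtain ⟨s, rfl⟩ := hA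
  obtain ⟨t, ht⟩ := hQ
  obtain ⟨r, hr⟩ := hv
  rw [bal_dlt_succ, h1]
  have hU : U T n = gU (P T n) (nu T n) := by unfold U; rw [if_pos h]
  have hD : D T n = gD (P T n) (nu T n) := by unfold D; rw [if_pos h]
  unfold sc
  rw [hU, hD]
  unfold gU gD
  have hY : gY (P T n) (nu T n) = gB (P T n) + nu T n := rfl
  have hC : gC (P T n) (nu T n) = GG (P T n) + 2 * nu T n := rfl
  set Y := gY (P T n) (nu T n)
  set C := gC (P T n) (nu T n)
  set B := gB (P T n)
  set G := GG (P T n)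
  set ν := nu T n
  set p := P T n
  -- the links of the new main chain
  have e1 : lv (s ++ [p] ++ [G] ++ Q ++ [B, G + ν, Y]) =
      lv (s ++ [p]) ++ ([p + G, G + ν] ++ lv Q ++ [p + 2 ^ 19 + B, B + (G + ν), G + ν + Y]) := by
    have a1 : s ++ [p] ++ [G] ++ Q ++ [B, G + ν, Y] = s ++ p :: (G :: (Q ++ [B, G + ν, Y])) := by
      simp
    rw [a1, bal_lv_append s]
    congr 1
    have a2 : lv (p :: (G :: (Q ++ [B, G + ν, Y]))) =
        (p + G) :: (G + ν) :: lv (Q ++ [B, G + ν, Y]) := by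
      rw [hr]
      rfl
    have a3 : lv (Q ++ [B, G + ν, Y]) = lv Q ++ [p + 2 ^ 19 + B, B + (G + ν), G + ν + Y] := by
      have a4 : Q ++ [B, G + ν, Y] = t ++ (p + 2 ^ 19) :: [B, G + ν, Y] := by rw [ht]; simp
      rw [a4, bal_lv_append t, ← ht]
      rfl
    rw [a2, a3]
    simp
  have e2 : B + (G + ν) = G + Y := by omega
  have e3 : G + ν + Y = B + C := by omega
  unfold bal
  rw [e1, e2, e3]
  simp only [List.count_append, bal_lv_cons, bal_lv_one, List.count_cons, List.count_nil]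
  push_cast
  ring

theorem bal_GG (p : ℕ) : GG p = p + (p + 2 ^ 19) + 2 ^ 22 := rfl

theorem bal_gB (p : ℕ) : gB p = GG p + 7 * (p / 10) := rfl

theorem bal_gC (p ν : ℕ) : gC p ν = GG p + 2 * ν := rfl

theorem bal_gY (p ν : ℕ) : gY p ν = gB p + ν := rfl

/-- The initial numerical invariants. -/
theorem inv_zero (T : ℕ → Prop) :
    Inv T 0 [MM + 1, MM + 2, p0] [3 * MM, p0 - 1, p0 + 2 ^ 19] 0 := by
  have hP : P T 0 = p0 := P_zero T
  have hm : mk T 0 = 3 * MM := mk_zero T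
  refine ⟨⟨[MM + 1, MM + 2], by rw [hP]; rfl⟩, ⟨[p0 - 1, p0 + 2 ^ 19], by rw [hm]⟩,
    ⟨[3 * MM, p0 - 1], by rw [hP]; rfl⟩, bal_zero T, by omega, ?_, fun h => absurd rfl h, ?_,
    fun h => absurd rfl h⟩
  · rw [hP, hm]
    simp only [List.sum_cons, List.sum_nil, MM, p0]
    norm_num
  · intro s hs hsuf
    rw [hP, hm]
    rw [List.suffix_cons_iff, List.suffix_cons_iff, List.suffix_cons_iff, List.suffix_nil] at hsuf
    rcases hsuf with rfl | rfl | rfl | rfl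
    · simp only [List.sum_cons, List.sum_nil, MM, p0, GG]
      norm_num
    · simp only [List.sum_cons, List.sum_nil, MM, p0, GG]
      norm_num
    · simp only [List.sum_cons, List.sum_nil, MM, p0, GG]
      norm_num
    · exact absurd rfl hs

/-- Suffixes of a list with two known last elements. -/
theorem bal_suffix {l s : List ℕ} {a b : ℕ} (h : s <:+ l ++ [a, b]) (hs : s ≠ []) :
    s = [b] ∨ a + b ≤ s.sum := by
  obtain ⟨r, hr⟩ := h
  rcases List.eq_nil_or_concat s with rfl | ⟨s1, x, rfl⟩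
  · exact absurd rfl hs
  · rw [List.concat_eq_append] at hr ⊢
    have e1 : r ++ s1 ++ [x] = l ++ [a] ++ [b] := by simpa using hr
    obtain ⟨e2, e3⟩ := List.append_inj' e1 rfl
    simp only [List.cons.injEq, and_true] at e3
    subst e3
    rcases List.eq_nil_or_concat s1 with rfl | ⟨s2, y, rfl⟩
    · left; simp
    · right
      rw [List.concat_eq_append] at e2 ⊢
      have e4 : r ++ s2 ++ [y] = l ++ [a] := by simpa using e2
      obtain ⟨e5, e6⟩ := List.append_inj' e4 rfl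
      simp only [List.cons.injEq, and_true] at e6
      subst e6
      simp only [List.sum_append, List.sum_cons, List.sum_nil]
      omega

/-- Suffixes of a list with three known last elements. -/
theorem bal_suffix3 {l s : List ℕ} {a b c : ℕ} (h : s <:+ l ++ [a, b, c]) (hs : s ≠ []) :
    s = [c] ∨ s = [b, c] ∨ a + b + c ≤ s.sum := by
  obtain ⟨r, hr⟩ := h
  rcases List.eq_nil_or_concat s with rfl | ⟨s1, x, rfl⟩
  · exact absurd rfl hs
  · rw [List.concat_eq_append] at hr hs ⊢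
    have e1 : r ++ s1 ++ [x] = l ++ [a, b] ++ [c] := by simpa using hr
    obtain ⟨e2, e3⟩ := List.append_inj' e1 rfl
    simp only [List.cons.injEq, and_true] at e3
    subst e3
    by_cases h1 : s1 = []
    · left; simp [h1]
    · right
      rcases bal_suffix ⟨r, e2⟩ h1 with h2 | h2
      · left; simp [h2]
      · right
        simp only [List.sum_append, List.sum_cons, List.sum_nil]
        omega

theorem bal_sum10 (a b c d e f g h i j : ℕ) : [a, b, c, d, e, f, g, h, i, j].sum =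
    a + (b + (c + (d + (e + (f + (g + (h + (i + (j + 0))))))))) := by
  simp only [List.sum_cons, List.sum_nil]

theorem bal_sum4 (Q : List ℕ) (a b c d : ℕ) :
    (Q ++ [a, b, c, d]).sum = Q.sum + (a + (b + (c + (d + 0)))) := by
  simp only [List.sum_append, List.sum_cons, List.sum_nil]

theorem bal_sum3 (a b c : ℕ) : [a, b, c].sum = a + (b + (c + 0)) := by
  simp only [List.sum_cons, List.sum_nil]

theorem bal_sum2 (a b : ℕ) : [a, b].sum = a + b := by
  simp only [List.sum_cons, List.sum_nil, Nat.add_zero]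

theorem bal_sum1 (a : ℕ) : [a].sum = a := by
  simp only [List.sum_cons, List.sum_nil, Nat.add_zero]

theorem bal_even_sum (G : ℕ) : 9 * G + (G + 2 ^ 20) ≤ (even10 G).sum := by
  have e := bal_sum10 (G + 2 ^ 2) (G + 2 ^ 4) (G + 2 ^ 6) (G + 2 ^ 8) (G + 2 ^ 10) (G + 2 ^ 12)
    (G + 2 ^ 14) (G + 2 ^ 16) (G + 2 ^ 18) (G + 2 ^ 20)
  refine le_of_le_of_eq ?_ e.symm
  omega

section num
variable {K L P' G G' p m Qs S n x ν B C Y : ℕ}

theorem bal_w1 (hP : P' = G + K) (hG : G = p + (p + K) + 8 * K) (hp : 9 * (1024 * K) + n ≤ p)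
    (hS : Qs + (9 * G + (G + 2 * K)) ≤ S) : 2 * (P' + K) + 32 * K ≤ S - (P' + K) + m := by
  omega

theorem bal_w2 (hP : P' = G + K) (hG : G = p + (p + K) + 8 * K) (hp : 9 * (1024 * K) + n ≤ p)
    (hS : Qs + (9 * G + (G + 2 * K)) ≤ S) : 7 * (P' + K) ≤ S - (P' + K) := by
  omega

theorem bal_w3 (hP : P' = G + K) (hG : G = p + (p + K) + 8 * K) (hm : m ≤ p)
    (hG' : G' = P' + (P' + K) + 8 * K) : m + (G + K) ≠ G' + 4 := by
  omega

theorem bal_w4 (hP : P' = G + K) (hm : 3 * (2048 * K) ≤ m) (hK : 4 ≤ K)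
    (hG' : G' = P' + (P' + K) + 8 * K) (hS : G + L + (G + K) ≤ S) : m + S ≠ G' + 4 := by
  omega

theorem bal_k1 (hP : P' = Y) (hY : Y = B + ν) (hB : B = G + 7 * (p / 10)) (hC : C = G + 2 * ν)
    (hG : G = p + (p + K) + 8 * K) (hp : 9 * (1024 * K) + n ≤ p) (hK : 4 ≤ K)
    (h1 : 50 * ν ≤ p) (h7 : 7 * (p + K) ≤ Qs - (p + K))
    (hS : S = Qs + (B + (C + (Y - 1 + (Y + K + 0))))) :
    2 * (P' + K) + 32 * K ≤ S - (P' + K) + m := by
  omega

theorem bal_k2 (hP : P' = Y) (hY : Y = B + ν) (hB : B = G + 7 * (p / 10))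
    (hG : G = p + (p + K) + 8 * K) (hG' : G' = P' + (P' + K) + 8 * K) (hm : 2 ^ 6 * m + 32 * K ≤ p) :
    m + Y ≠ G' + 4 := by
  omega

theorem bal_k3 (hP : P' = Y) (hY : Y = B + ν) (hB : B = G + 7 * (p / 10))
    (hp : 9 * (1024 * K) + n ≤ p) (hK : 4 ≤ K)
    (hG' : G' = P' + (P' + K) + 8 * K) (hm : 2 ^ 6 * m + 32 * K ≤ p) :
    m + (G + Y) ≠ G' + 4 := by
  omega

theorem bal_k4 (hP : P' = Y) (hY : Y = B + ν) (hB : B = G + 7 * (p / 10))
    (hp : 9 * (1024 * K) + n ≤ p) (hK : 4 ≤ K) (h1 : 50 * ν ≤ p)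
    (hG' : G' = P' + (P' + K) + 8 * K) (hS : p + G + Y ≤ S) :
    m + S ≠ G' + 4 := by
  omega

theorem bal_s1 (hP : P' = Y) (hY : Y = B + ν) (hB : B = G + 7 * (p / 10)) (hC : C = G + 2 * ν)
    (hG : G = p + (p + K) + 8 * K) (hp : 9 * (1024 * K) + n ≤ p) (hK : 4 ≤ K)
    (h1 : 50 * ν ≤ p) (hm : m = C) (hS : S = C + (Y - 1 + (Y + K + 0))) :
    2 * (P' + K) + 32 * K ≤ S - (P' + K) + m := by
  omega

theorem bal_s2 (hP : P' = Y) (hY : Y = B + ν) (hB : B = G + 7 * (p / 10)) (hC : C = G + 2 * ν)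
    (hp : 9 * (1024 * K) + n ≤ p) (hK : 4 ≤ K) (h1 : 50 * ν ≤ p)
    (hG' : G' = P' + (P' + K) + 8 * K) (hm : m = C) : m + Y ≠ G' + 4 := by
  omega

theorem bal_s3 (hP : P' = Y) (hY : Y = B + ν) (hB : B = G + 7 * (p / 10)) (hC : C = G + 2 * ν)
    (hG : G = p + (p + K) + 8 * K) (hp : 9 * (1024 * K) + n ≤ p) (hK : 4 ≤ K) (h1 : 50 * ν ≤ p)
    (hG' : G' = P' + (P' + K) + 8 * K) (hm : m = C) (hS : G + ν + Y ≤ S) : m + S ≠ G' + 4 := by
  omega

end num

attribute [local irreducible] GG gB gC gY P mk nu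

theorem bal_P_ge (T : ℕ → Prop) (n : ℕ) : 9 * (1024 * 2 ^ 19) + n ≤ P T n := P_ge T n

theorem bal_mk_ge (T : ℕ → Prop) (j : ℕ) : 3 * (2048 * 2 ^ 19) ≤ mk T j := mk_ge T j

theorem bal_GG' (p : ℕ) : GG p = p + (p + 2 ^ 19) + 8 * 2 ^ 19 := bal_GG p

theorem bal_odd (A : List ℕ) (G x : ℕ) (h : x = G + 2 ^ 19) : A ++ odd10 G =
    (A ++ [G + 2 ^ 1, G + 2 ^ 3, G + 2 ^ 5, G + 2 ^ 7, G + 2 ^ 9, G + 2 ^ 11, G + 2 ^ 13,
      G + 2 ^ 15, G + 2 ^ 17]) ++ [x] := by
  subst h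
  rw [List.append_assoc]
  rfl

theorem bal_odd2 (A : List ℕ) (G : ℕ) : A ++ odd10 G =
    (A ++ [G + 2 ^ 1, G + 2 ^ 3, G + 2 ^ 5, G + 2 ^ 7, G + 2 ^ 9, G + 2 ^ 11, G + 2 ^ 13,
      G + 2 ^ 15]) ++ [G + 2 ^ 17, G + 2 ^ 19] := by
  rw [List.append_assoc]
  rfl

theorem bal_odd3 (A : List ℕ) (G x : ℕ) (h : x = G + 2 ^ 19) : A ++ odd10 G =
    (A ++ [G + 2 ^ 1, G + 2 ^ 3, G + 2 ^ 5, G + 2 ^ 7, G + 2 ^ 9, G + 2 ^ 11, G + 2 ^ 13]) ++
      [G + 2 ^ 15, G + 2 ^ 17, x] := by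
  subst h
  rw [List.append_assoc]
  rfl

theorem bal_even (A : List ℕ) (G x : ℕ) (h : x = G + 2 ^ 20) : A ++ even10 G =
    (A ++ [G + 2 ^ 2, G + 2 ^ 4, G + 2 ^ 6, G + 2 ^ 8, G + 2 ^ 10, G + 2 ^ 12, G + 2 ^ 14,
      G + 2 ^ 16, G + 2 ^ 18]) ++ [x] := by
  subst h
  rw [List.append_assoc]
  rfl

theorem inv_window {T : ℕ → Prop} {n j : ℕ} {A Q : List ℕ} (h : n % 7 ≠ 6)
    (hi : Inv T n A Q j) :
    Inv T (n + 1) (A ++ odd10 (GG (P T n))) (Q ++ even10 (GG (P T n))) j := by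
  have hP := P_window (T := T) h
  have hm := mk_le (T := T) hi.jn
  have hm2 := bal_mk_ge T j
  have hp := bal_P_ge T n
  have hm3 : mk T j ≤ P T n := by
    have : 1 * mk T j ≤ 2 ^ (n % 7) * mk T j := Nat.mul_le_mul_right _ Nat.one_le_two_pow
    omega
  have hG := bal_GG' (P T n)
  have hG' := bal_GG' (P T (n + 1))
  obtain ⟨s, hs⟩ := hi.hv
  have hS : Q.sum + (9 * GG (P T n) + (GG (P T n) + 2 * 2 ^ 19)) ≤
      (Q ++ even10 (GG (P T n))).sum := by
    have h1 : (Q ++ even10 (GG (P T n))).sum = Q.sum + (even10 (GG (P T n))).sum :=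
      List.sum_append
    exact le_of_le_of_eq (Nat.add_le_add_left (bal_even_sum _) _) h1.symm
  refine ⟨⟨_, bal_odd A _ _ hP⟩, ⟨s ++ even10 (GG (P T n)), by rw [hs]; rfl⟩,
    ⟨_, bal_even Q _ _ (by rw [hP]; exact Nat.add_assoc _ _ _)⟩,
    bal_window h hi.hA hi.hz hi.bal, ?_, bal_w1 hP hG hp hS, fun _ => bal_w2 hP hG hp hS, ?_, ?_⟩
  · exact hi.jn.trans (Nat.le_succ n)
  · intro t ht hsuf
    rw [bal_odd2] at hsuf
    rcases bal_suffix hsuf ht with h1 | h1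
    · subst h1
      rw [bal_sum1]
      exact bal_w3 hP hG hm3 hG'
    · exact bal_w4 hP hm2 (by norm_num) hG' h1
  · intro _
    refine ⟨_, _, _, bal_odd3 A _ _ hP, ?_, ?_, ?_, ?_⟩
    all_goals clear hS hs hi hG' hG hm2 hp hm3 hm; omega

theorem inv_keep {T : ℕ → Prop} {n j : ℕ} {A Q : List ℕ} (h : n % 7 = 6)
    (hi : Inv T n A Q j) :
    Inv T (n + 1) (A ++ [GG (P T n), gY (P T n) (nu T n)])
      (Q ++ [gB (P T n), gC (P T n) (nu T n), gY (P T n) (nu T n) - 1,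
        gY (P T n) (nu T n) + 2 ^ 19]) j := by
  have hP := P_gadget (T := T) h
  have hm := mk_le (T := T) hi.jn
  have hm2 := bal_mk_ge T j
  have hp := bal_P_ge T n
  obtain ⟨hn1, hn2⟩ := nu_small (T := T) h
  rw [h] at hm
  have hG := bal_GG' (P T n)
  have hG' := bal_GG' (P T (n + 1))
  have hY := bal_gY (P T n) (nu T n)
  have hC := bal_gC (P T n) (nu T n)
  have hB := bal_gB (P T n)
  have h7 := hi.Sa7 (by omega)
  obtain ⟨s, hs⟩ := hi.hv
  obtain ⟨r, hr⟩ := hi.hA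
  refine ⟨⟨A ++ [GG (P T n)], by rw [hP, List.append_assoc]; rfl⟩, ⟨s ++ [gB (P T n),
      gC (P T n) (nu T n), gY (P T n) (nu T n) - 1, gY (P T n) (nu T n) + 2 ^ 19],
      by rw [hs]; rfl⟩,
    ⟨Q ++ [gB (P T n), gC (P T n) (nu T n), gY (P T n) (nu T n) - 1],
      by rw [hP, List.append_assoc]; rfl⟩,
    bal_keep h hi.hA hi.hz hi.bal, hi.jn.trans (Nat.le_succ n),
    bal_k1 hP hY hB hC hG hp (by norm_num) hn1 h7 (bal_sum4 _ _ _ _ _), ?_, ?_, ?_⟩
  · intro h'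
    exact absurd (show (n + 1) % 7 = 0 by omega) h'
  · intro t ht hsuf
    have e : A ++ [GG (P T n), gY (P T n) (nu T n)] =
        r ++ [P T n, GG (P T n), gY (P T n) (nu T n)] := by rw [hr, List.append_assoc]; rfl
    rw [e] at hsuf
    rcases bal_suffix3 hsuf ht with h1 | h1 | h1
    · subst h1
      rw [bal_sum1]
      exact bal_k2 hP hY hB hG hG' hm
    · subst h1
      rw [bal_sum2]
      exact bal_k3 hP hY hB hp (by norm_num) hG' hm
    · exact bal_k4 hP hY hB hp (by norm_num) hn1 hG' h1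
  · intro h'
    exact absurd (show (n + 1) % 7 = 0 by omega) h'

theorem inv_swap {T : ℕ → Prop} {n j : ℕ} {A Q : List ℕ} (h : n % 7 = 6)
    (hi : Inv T n A Q j) (hv : mk T j = nu T n) :
    Inv T (n + 1)
      (A ++ [GG (P T n)] ++ Q ++ [gB (P T n), GG (P T n) + nu T n, gY (P T n) (nu T n)])
      [gC (P T n) (nu T n), gY (P T n) (nu T n) - 1, gY (P T n) (nu T n) + 2 ^ 19]
      (n / 7 + 1) := by
  have hP := P_gadget (T := T) h
  have hp := bal_P_ge T n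
  obtain ⟨hn1, hn2⟩ := nu_small (T := T) h
  have hG := bal_GG' (P T n)
  have hG' := bal_GG' (P T (n + 1))
  have hY := bal_gY (P T n) (nu T n)
  have hC := bal_gC (P T n) (nu T n)
  have hB := bal_gB (P T n)
  have hmk : mk T (n / 7 + 1) = gC (P T n) (nu T n) := by
    rw [mk_succ, show 7 * (n / 7) + 6 = n by omega]
  refine ⟨⟨A ++ [GG (P T n)] ++ Q ++ [gB (P T n), GG (P T n) + nu T n],
      by rw [hP, List.append_assoc _ [gB (P T n), GG (P T n) + nu T n]]; rfl⟩,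
    ⟨[gY (P T n) (nu T n) - 1, gY (P T n) (nu T n) + 2 ^ 19], by rw [hmk]⟩,
    ⟨[gC (P T n) (nu T n), gY (P T n) (nu T n) - 1], by rw [hP]; rfl⟩,
    bal_swap h hi.hA hi.hz (by rw [← hv]; exact hi.hv) hi.bal, by omega,
    bal_s1 hP hY hB hC hG hp (by norm_num) hn1 hmk (bal_sum3 _ _ _), ?_, ?_, ?_⟩
  · intro h'
    exact absurd (show (n + 1) % 7 = 0 by omega) h'
  · intro t ht hsuf
    have e : A ++ [GG (P T n)] ++ Q ++ [gB (P T n), GG (P T n) + nu T n, gY (P T n) (nu T n)] =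
        (A ++ [GG (P T n)] ++ Q ++ [gB (P T n)]) ++
          [GG (P T n) + nu T n, gY (P T n) (nu T n)] := by
      rw [List.append_assoc _ [gB (P T n)]]; rfl
    rw [e] at hsuf
    rcases bal_suffix hsuf ht with h1 | h1
    · subst h1
      rw [bal_sum1]
      exact bal_s2 hP hY hB hC hp (by norm_num) hn1 hG' hmk
    · exact bal_s3 hP hY hB hC hG hp (by norm_num) hn1 hG' hmk h1
  · intro h'
    exact absurd (show (n + 1) % 7 = 0 by omega) h'

end Pool.Agent.CF2
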