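import Pool.Agent.CF2.STEP

/-!
# CF2: the branch of a world
-/

namespace Pool.Agent.CF2

variable {T : ℕ → Prop} {g : ℕ → ℕ}

theorem Sta.pre {n j : ℕ} {A Q : List ℕ} (h : Sta T g n A Q j) :
    ∀ (k : ℕ) (h : k < A.length), g k = A[k] := by
  rcases h.2 with h | ⟨a, h⟩
  · exact h.pre
  · exact h.pre

theorem Sta.mk_mem {n j : ℕ} {A Q : List ℕ} (h : Sta T g n A Q j) :
    mk T j ∈ Set.range g ∧ mk T j ∉ A := by
  obtain ⟨s, hs⟩ := h.1.hv
  have hQ : mk T j ∈ Q := by rw [hs]; exact List.mem_cons_self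
  have key : (A ++ Q).Nodup → mk T j ∉ A := by
    intro hnd hA
    exact (List.nodup_append.1 hnd).2.2 _ hA _ hQ rfl
  rcases h.2 with h | ⟨a, h⟩
  · exact ⟨h.memQ _ hQ, key h.nd⟩
  · exact ⟨h.memQ _ hQ, key h.nd⟩

/-- A sequence of states. -/
theorem sta_seq (H : Wld T g) : ∃ f : ℕ → List ℕ × List ℕ × ℕ, (f 0).2.2 = 0 ∧
    (∀ n, Sta T g n (f n).1 (f n).2.1 (f n).2.2) ∧
    ∀ n, (f n).1 <+: (f (n + 1)).1 ∧ (f n).1.length < (f (n + 1)).1.length ∧
      ((f (n + 1)).2.2 = (f n).2.2 ∨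
        (T (f (n + 1)).2.2 ∧ ∃ a, (f (n + 1)).2.2 = Nat.pair (f n).2.2 a + 1)) := by
  have hs : ∀ (n : ℕ) (x : {x : List ℕ × List ℕ × ℕ // Sta T g n x.1 x.2.1 x.2.2}),
      ∃ y : {x : List ℕ × List ℕ × ℕ // Sta T g (n + 1) x.1 x.2.1 x.2.2},
        x.1.1 <+: y.1.1 ∧ x.1.1.length < y.1.1.length ∧
        (y.1.2.2 = x.1.2.2 ∨ (T y.1.2.2 ∧ ∃ a, y.1.2.2 = Nat.pair x.1.2.2 a + 1)) := by
    rintro n ⟨x, hx⟩
    obtain ⟨A', Q', j', h1, h2⟩ := sta_step H hx
    exact ⟨⟨(A', Q', j'), h1⟩, h2⟩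
  choose nx hnx using hs
  let F : ∀ n : ℕ, {x : List ℕ × List ℕ × ℕ // Sta T g n x.1 x.2.1 x.2.2} :=
    fun n => Nat.rec ⟨(_, _, 0), sta_zero H⟩ (fun n x => nx n x) n
  exact ⟨fun n => (F n).1, rfl, fun n => (F n).2, fun n => hnx n (F n)⟩

/-- **A word with the complexity of the design gives an infinite branch.** -/
theorem branch_of (H : Wld T g) : ∃ a : ℕ → ℕ, ∀ k, T (nd a (k + 1)) := by
  classical
  obtain ⟨f, f0, fs, fn⟩ := sta_seq H
  have hlen : ∀ n, n ≤ (f n).1.length := by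
    intro n
    induction n with
    | zero => exact Nat.zero_le _
    | succ n ih => have := (fn n).2.1; omega
  have hch : ∀ n, ∃ m, n < m ∧ (f m).2.2 ≠ (f n).2.2 := by
    intro n
    by_contra hno
    push Not at hno
    obtain ⟨⟨t, ht⟩, -⟩ := (fs n).mk_mem
    have hm := hno (n + t + 1) (by omega)
    obtain ⟨-, h2⟩ := (fs (n + t + 1)).mk_mem
    rw [hm] at h2
    have hl := hlen (n + t + 1)
    have h3 := (fs (n + t + 1)).pre t (by omega)
    apply h2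
    rw [← ht, h3]
    exact List.getElem_mem _
  let m : ℕ → ℕ := fun n => Nat.find (hch n)
  have hm1 : ∀ n, n < m n ∧ (f (m n)).2.2 ≠ (f n).2.2 := fun n => Nat.find_spec (hch n)
  have hm2 : ∀ n, (f (m n - 1)).2.2 = (f n).2.2 := by
    intro n
    by_cases h : n < m n - 1
    · by_contra hne
      exact Nat.find_min (hch n) (show m n - 1 < m n by have := (hm1 n).1; omega) ⟨h, hne⟩
    · have := (hm1 n).1
      rw [show m n - 1 = n by omega]
  have hm3 : ∀ n, T (f (m n)).2.2 ∧ ∃ a, (f (m n)).2.2 = Nat.pair (f n).2.2 a + 1 := by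
    intro n
    have h1 := fn (m n - 1)
    rw [show m n - 1 + 1 = m n by have := (hm1 n).1; omega, hm2 n] at h1
    rcases h1.2.2 with h | h
    · exact absurd h (hm1 n).2
    · exact h
  let ms : ℕ → ℕ := fun k => m^[k] 0
  have hms : ∀ k, ms (k + 1) = m (ms k) := fun k => Function.iterate_succ_apply' _ _ _
  choose ha a ha2 using hm3
  refine ⟨fun k => a (ms k), ?_⟩
  have hnd : ∀ k, nd (fun k => a (ms k)) k = (f (ms k)).2.2 := by
    intro k
    induction k with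
    | zero => exact f0.symm
    | succ k ih =>
      rw [nd, ih, hms k, ha2]
  intro k
  rw [hnd, hms]
  exact ha _

end Pool.Agent.CF2
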