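import Pool.Agent.CF2.Tools

/-!
# CF2: the base stage
-/

namespace Pool.Agent.CF2

/-- The defect of the base stage: `e1 = M + 1`, `e2 = M + 2`, `v0 = 3M`, `p0 = 9M/2`,
`Z1 = p0 - 1`, `z0 = p0 + 2^19`. -/
structure DB (d : ℕ → ℤ) (M p0 : ℕ) : Prop where
  up : ∀ N, N = 3 * M ∨ N + 1 = p0 ∨ N = p0 ∨ N = p0 + 2 ^ 19 → d N = 1
  dn : ∀ N, N = 2 * M + 3 ∨ N = M + 2 + p0 ∨ N + 1 = 3 * M + p0 ∨ N + 1 = 2 * p0 + 2 ^ 19 →
    d N = -1
  rest : ∀ N, M + 3 < N → N + 1 ≤ 2 * p0 + 2 ^ 19 →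
    ¬ (N = 3 * M ∨ N + 1 = p0 ∨ N = p0 ∨ N = p0 + 2 ^ 19) →
    ¬ (N = 2 * M + 3 ∨ N = M + 2 + p0 ∨ N + 1 = 3 * M + p0 ∨ N + 1 = 2 * p0 + 2 ^ 19) → d N = 0

/-- Result of the base stage. -/
structure Bo (g : ℕ → ℕ) (M p0 : ℕ) : Prop where
  only : ∀ y ∈ Set.range g, y ≤ p0 + 2 ^ 19 →
    y = M + 1 ∨ y = M + 2 ∨ y = 3 * M ∨ y + 1 = p0 ∨ y = p0 ∨ y = p0 + 2 ^ 19
  g0 : g 0 = M + 1
  e12 : Uq g (M + 1) (M + 2)
  e2p : Uq g (M + 2) p0
  dir : (Uq g (3 * M) (p0 - 1) ∧ Uq g (p0 - 1) (p0 + 2 ^ 19)) ∨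
    (Uq g (p0 - 1) (3 * M) ∧ Adj g (p0 + 2 ^ 19) (p0 - 1) ∧
      (∀ x, Adj g (p0 + 2 ^ 19) x → x = p0 - 1) ∧
      (∀ x, Adj g x (p0 - 1) → x = p0 + 2 ^ 19 ∨ x = p0) ∧
      (Adj g p0 (p0 - 1) → ∀ x, Adj g p0 x → x = p0 - 1))

section
variable {g : ℕ → ℕ} {M p0 hi : ℕ} {d : ℕ → ℤ}

theorem bas_adj_ex {x : ℕ} (h : x ∈ Set.range g) : ∃ y, Adj g x y := by
  obtain ⟨t, rfl⟩ := h
  exact ⟨_, t, rfl, rfl⟩

theorem Adj.ml {x y : ℕ} (h : Adj g x y) : x ∈ Set.range g := by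
  obtain ⟨t, h1, -⟩ := h
  exact ⟨t, h1⟩

theorem Adj.mr {x y : ℕ} (h : Adj g x y) : y ∈ Set.range g := by
  obtain ⟨t, -, h1⟩ := h
  exact ⟨t + 1, h1⟩

theorem Bi.ml {i σ j} (h : Bi g i σ j) : i ∈ Set.range g := by
  obtain ⟨t, h1, -⟩ := h.l1
  exact ⟨t, h1⟩

theorem Bi.mr {i σ j} (h : Bi g i σ j) : j ∈ Set.range g := by
  obtain ⟨t, -, h1⟩ := h.r1
  exact ⟨_, h1⟩

/-- Length of the words. -/
theorem bas_low (hlow : ∀ t, M + 1 ≤ g t) {i σ j} (h : Bi g i σ j) :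
    M + 1 ≤ i ∧ M + 1 ≤ j ∧ σ.length * (M + 1) ≤ σ.sum := by
  obtain ⟨t, ht⟩ := h.ml
  obtain ⟨t', ht'⟩ := h.mr
  refine ⟨ht ▸ hlow t, ht' ▸ hlow t', ?_⟩
  have h3 : ∀ x ∈ σ, M + 1 ≤ x := fun x hx => by
    obtain ⟨t, rfl⟩ := h.mem x hx
    exact hlow t
  have := List.card_nsmul_le_sum σ (M + 1) h3
  simpa using this

/-- Values below `2 M + 2`. -/
theorem bas_A (hlow : ∀ t, M + 1 ≤ g t) (hp0 : 2 * p0 = 9 * M)
    (h3 : M + 3 ∉ Set.range g) (hhi : 2 * p0 + 2 ^ 19 ≤ hi) (hd : DB d M p0)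
    (hl : RLE g (fun _ _ => False) d (M + 3) hi) {y : ℕ} (hy : y ∈ Set.range g)
    (hy2 : y < 2 * M + 2) : y = M + 1 ∨ y = M + 2 := by
  by_contra hc
  have h4 : M + 1 ≤ y := by
    obtain ⟨t, rfl⟩ := hy
    exact hlow t
  have h5 : y ≠ M + 3 := fun h => h3 (h ▸ hy)
  have hdy : d y = 0 := hd.rest y (by omega) (by omega) (by omega) (by omega)
  obtain ⟨i, σ, j, hw, hs, -⟩ := hl.val (N := y) (by omega) (by omega) hdy.le hy
  obtain ⟨k1, k2, k3⟩ := bas_low hlow hw.bi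
  omega

theorem bas_two {σ : List ℕ} {i j N : ℕ} (hlow : ∀ t, M + 1 ≤ g t) (h : Bi g i σ j)
    (hN : i + σ.sum + j = N) (hN2 : N < 3 * M + 3) : σ = [] := by
  obtain ⟨k1, k2, k3⟩ := bas_low hlow h
  cases σ with
  | nil => rfl
  | cons x σ =>
    simp only [List.length_cons] at k3
    have : 1 * (M + 1) ≤ (σ.length + 1) * (M + 1) := Nat.mul_le_mul_right _ (by omega)
    omega

/-- The first two runs. -/
theorem bas_B (hgb : GB g) (hlow : ∀ t, M + 1 ≤ g t) (hM : 2 ^ 24 ≤ M) (hp0 : 2 * p0 = 9 * M)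
    (h1 : M + 1 ∈ Set.range g) (h2 : M + 2 ∈ Set.range g) (h3 : M + 3 ∉ Set.range g)
    (hg0 : g 0 = M + 1 ∨ g 0 = M + 2) (hon : ∀ t, g t = g 0 → t = 0)
    (hhi : 2 * p0 + 2 ^ 19 ≤ hi) (hd : DB d M p0)
    (hl : RLE g (fun _ _ => False) d (M + 3) hi) :
    (g 0 = M + 1 ∧ g 1 = M + 2 ∨ g 0 = M + 2 ∧ g 1 = M + 1) ∧
      (∀ t, g t ≤ M + 2 → t ≤ 1) ∧ 2 * M + 3 ∉ Set.range g := by
  have hpos : ∀ t, 0 < g t := fun t => by have := hlow t; omega
  have hA : ∀ {y}, y ∈ Set.range g → y < 2 * M + 2 → y = M + 1 ∨ y = M + 2 :=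
    fun hy hy2 => bas_A hlow hp0 h3 hhi hd hl hy hy2
  have hno0 : ∀ x, ¬ Adj g x (g 0) := by
    rintro x ⟨t, -, ht⟩
    have := hon _ ht
    omega
  have hdn : d (2 * M + 3) = -1 := hd.dn _ (by omega)
  obtain ⟨i, σ, j, hw, hs, -⟩ := hl.down (N := 2 * M + 3) (by omega) (by omega) (by omega)
  rcases hg0 with hg0 | hg0
  · -- `g 0 = M + 1`
    have key : ∀ i σ j, Op g (fun _ _ => False) (2 * M + 3) i σ j → (i, σ, j) =
        (M + 1, [], M + 2) := by
      rintro i σ j ⟨hw, hs, -⟩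
      have hσ := bas_two hlow hw.bi hs (by omega)
      subst hσ
      have hw2 := (weak_iff hgb).1 hw
      obtain ⟨k1, k2, k3⟩ := bas_low hlow hw.bi
      simp only [List.sum_nil] at hs
      rcases Nat.lt_or_ge (M + 1) j with hj | hj
      · have : j = M + 2 := by omega
        have : i = M + 1 := by omega
        subst this; subst j; rfl
      · exfalso
        have : j = M + 1 := by omega
        rw [this, ← hg0] at hw2
        exact hno0 _ hw2.1
    have e := key i σ j ⟨hw, hs, fun h => h.2⟩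
    simp only [Prod.mk.injEq] at e
    obtain ⟨rfl, rfl, rfl⟩ := e
    obtain ⟨w1, w2, w3⟩ := (weak_iff hgb).1 hw
    have hdo := hl.down_only hpos (N := 2 * M + 3) (by omega) (by omega) hdn key
    have hg1 : g 1 = M + 2 := by
      obtain ⟨t, t1, t2⟩ := w1
      have := hon t (by rw [t1, hg0])
      subst this
      exact t2
    refine ⟨Or.inl ⟨hg0, hg1⟩, fun t ht => ?_, hdo.1⟩
    have := hlow t
    rcases Nat.eq_zero_or_pos t with h0 | h0
    · omega
    · have e1 : g t = M + 2 := by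
        by_contra hc
        have : t = 0 := hon t (by omega)
        omega
      have e2 : Adj g (g (t - 1)) (M + 2) := ⟨t - 1, rfl, by rw [Nat.sub_add_cancel h0, e1]⟩
      have e3 := w2 _ e2
      have e4 := hlow (t - 1)
      have := hon (t - 1) (by omega)
      omega
  · -- `g 0 = M + 2`
    have key : ∀ i σ j, Op g (fun _ _ => False) (2 * M + 3) i σ j → (i, σ, j) =
        (M + 2, [], M + 1) := by
      rintro i σ j ⟨hw, hs, -⟩
      have hσ := bas_two hlow hw.bi hs (by omega)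
      subst hσ
      have hw2 := (weak_iff hgb).1 hw
      obtain ⟨k1, k2, k3⟩ := bas_low hlow hw.bi
      simp only [List.sum_nil] at hs
      rcases Nat.lt_or_ge (M + 1) j with hj | hj
      · exfalso
        have : j = M + 2 := by omega
        rw [this, ← hg0] at hw2
        exact hno0 _ hw2.1
      · have : j = M + 1 := by omega
        have : i = M + 2 := by omega
        subst this; subst j; rfl
    have e := key i σ j ⟨hw, hs, fun h => h.2⟩
    simp only [Prod.mk.injEq] at e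
    obtain ⟨rfl, rfl, rfl⟩ := e
    obtain ⟨w1, w2, w3⟩ := (weak_iff hgb).1 hw
    have hdo := hl.down_only hpos (N := 2 * M + 3) (by omega) (by omega) hdn key
    have hg1 : g 1 = M + 1 := by
      obtain ⟨t, t1, t2⟩ := w1
      have := hon t (by rw [t1, hg0])
      subst this
      exact t2
    -- `M + 1` does not follow itself
    have hself : ¬ Adj g (M + 1) (M + 1) := by
      intro ha
      by_cases hb : ∃ x, M + 1 < x ∧ Adj g (M + 1) x
      · have hst : Strong g (M + 1) [] (M + 1) := (strong_iff hgb).2 ⟨ha, ⟨M + 2, by omega, w1⟩, hb⟩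
        have hd0 : d (2 * M + 2) = 0 := hd.rest _ (by omega) (by omega) (by omega) (by omega)
        obtain ⟨i, σ, j, hw, hs, -⟩ := hl.str hpos (N := 2 * M + 2) (by omega) (by omega) hd0.le hst
          (by simp only [List.sum_nil]; omega)
        have hσ := bas_two hlow hw.bi hs (by omega)
        subst hσ
        obtain ⟨k1, k2, k3⟩ := bas_low hlow hw.bi
        simp only [List.sum_nil] at hs
        have e1 : i = M + 1 := by omega
        have e2 : j = M + 1 := by omega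
        subst e1; subst e2
        have := ((weak_iff hgb).1 hw).2.1 _ w1
        omega
      · push Not at hb
        refine succ_closed hgb (F := {M + 1}) (B := M + 1) (by simp) ?_ (M + 1) rfl h1
        intro x hx y hy
        rw [Set.mem_singleton_iff] at hx ⊢
        subst hx
        by_contra hne
        have := hlow
        obtain ⟨t, ht⟩ := hy.mr
        have h5 := hlow t
        exact hb y (by omega) hy
    refine ⟨Or.inr ⟨hg0, hg1⟩, fun t ht => ?_, hdo.1⟩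
    have := hlow t
    rcases Nat.eq_zero_or_pos t with h0 | h0
    · omega
    · have e1 : g t = M + 1 := by
        by_contra hc
        have : t = 0 := hon t (by omega)
        omega
      have e2 : Adj g (g (t - 1)) (M + 1) := ⟨t - 1, rfl, by rw [Nat.sub_add_cancel h0, e1]⟩
      have e3 := w2 _ e2
      have e4 := hlow (t - 1)
      have e5 : g (t - 1) ≠ M + 1 := by
        intro h
        rw [h] at e2
        exact hself e2
      have := hon (t - 1) (by omega)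
      omega

/-- State after the first three runs. -/
structure BSt (g : ℕ → ℕ) (M : ℕ) : Prop where
  g01 : g 0 = M + 1 ∧ g 1 = M + 2 ∨ g 0 = M + 2 ∧ g 1 = M + 1
  early : ∀ t, g t ≤ M + 2 → t ≤ 1
  big : ∀ t, 2 ≤ t → 3 * M ≤ g t

theorem BSt.adj (hM : 2 ^ 24 ≤ M) (H : BSt g M) {x y : ℕ} (h : Adj g x y) :
    (x = g 0 ∧ y = g 1) ∨ (x = g 1 ∧ y = g 2) ∨ (3 * M ≤ x ∧ 3 * M ≤ y) := by
  obtain ⟨t, rfl, rfl⟩ := h
  match t with
  | 0 => exact Or.inl ⟨rfl, rfl⟩
  | 1 => exact Or.inr (Or.inl ⟨rfl, rfl⟩)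
  | t + 2 => exact Or.inr (Or.inr ⟨H.big _ (by omega), H.big _ (by omega)⟩)

theorem BSt.two_le (hM : 2 ^ 24 ≤ M) (H : BSt g M) {t : ℕ} (h : 3 * M ≤ g t) : 2 ≤ t := by
  by_contra hc
  rcases H.g01 with ⟨h0, h1⟩ | ⟨h0, h1⟩
  · rcases (show t = 0 ∨ t = 1 by omega) with rfl | rfl <;> omega
  · rcases (show t = 0 ∨ t = 1 by omega) with rfl | rfl <;> omega

/-- Inner words. -/
theorem BSt.inner (hM : 2 ^ 24 ≤ M) (H : BSt g M) {i x : ℕ} {σ : List ℕ} {j : ℕ}
    (h : Bi g i (x :: σ) j) : ((i = g 1 ∧ x = g 2) ∨ 3 * M ≤ i) ∧ 3 * M ≤ x ∧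
      (∀ y ∈ σ, 3 * M ≤ y) ∧ 3 * M ≤ j := by
  obtain ⟨ha, y, hy, hay⟩ := h.head
  have hx : 3 * M ≤ x := by
    rcases H.adj hM ha with ⟨a1, a2⟩ | ⟨a1, a2⟩ | ⟨a1, a2⟩
    · rcases H.adj hM hay with ⟨b1, b2⟩ | ⟨b1, b2⟩ | ⟨b1, b2⟩
      · omega
      · rw [b2]; exact H.big 2 le_rfl
      · exact b2
    · rw [a2]; exact H.big 2 le_rfl
    · exact a2
  obtain ⟨t, t1, t2⟩ := h.l1
  obtain ⟨t', t1', t2'⟩ := h.r1
  have ht : 2 ≤ t + 1 := H.two_le hM (by rw [t2.head]; exact hx)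
  have ht' : 2 ≤ t' := H.two_le hM (by rw [t1'.head]; exact hx)
  refine ⟨?_, hx, ?_, ?_⟩
  · rcases H.adj hM ha with ⟨a1, a2⟩ | ⟨a1, a2⟩ | ⟨a1, a2⟩
    · exfalso
      rcases H.g01 with ⟨h0, h1⟩ | ⟨h0, h1⟩ <;> omega
    · exact Or.inl ⟨a1, a2⟩
    · exact Or.inr a1
  · intro y hy
    obtain ⟨k, hk, rfl⟩ := List.mem_iff_getElem.mp hy
    rw [← t2.tail k hk]
    exact H.big _ (by omega)
  · rw [← t2']
    exact H.big _ (by omega)

theorem BSt.inner_low (hM : 2 ^ 24 ≤ M) (H : BSt g M) {i x : ℕ} {σ : List ℕ} {j : ℕ}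
    (h : Bi g i (x :: σ) j) : 7 * M + 1 ≤ i + (x :: σ).sum + j := by
  obtain ⟨h1, h2, h3, h4⟩ := H.inner hM h
  have h5 : M + 1 ≤ i := by
    rcases h1 with ⟨h1, -⟩ | h1
    · rcases H.g01 with ⟨h0, h1⟩ | ⟨h0, h1⟩ <;> omega
    · omega
  rw [List.sum_cons]
  omega

/-- All words below `6 M` other than the first link. -/
theorem BSt.low (hM : 2 ^ 24 ≤ M) (H : BSt g M) {i : ℕ} {σ : List ℕ} {j N : ℕ}
    (h : Bi g i σ j) (ha : σ = [] → Adj g i j) (hs : i + σ.sum + j = N) (hN : N < 6 * M)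
    (hN2 : N ≠ 2 * M + 3) : i = g 1 ∧ σ = [] ∧ j = g 2 ∧ g 1 + g 2 = N := by
  cases σ with
  | cons x σ =>
    have := H.inner_low hM h
    omega
  | nil =>
    simp only [List.sum_nil] at hs
    rcases H.adj hM (ha rfl) with ⟨a1, a2⟩ | ⟨a1, a2⟩ | ⟨a1, a2⟩
    · exfalso
      rcases H.g01 with ⟨h0, h1⟩ | ⟨h0, h1⟩ <;> omega
    · exact ⟨a1, rfl, a2, by omega⟩
    · omega

theorem bas_C (hlow : ∀ t, M + 1 ≤ g t) (hM : 2 ^ 24 ≤ M) (hp0 : 2 * p0 = 9 * M)
    (h3 : M + 3 ∉ Set.range g) (hhi : 2 * p0 + 2 ^ 19 ≤ hi) (hd : DB d M p0)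
    (hl : RLE g (fun _ _ => False) d (M + 3) hi)
    (hB1 : g 0 = M + 1 ∧ g 1 = M + 2 ∨ g 0 = M + 2 ∧ g 1 = M + 1)
    (hB2 : ∀ t, g t ≤ M + 2 → t ≤ 1) (hB3 : 2 * M + 3 ∉ Set.range g) (hgb : GB g) :
    BSt g M := by
  refine ⟨hB1, hB2, fun t ht => ?_⟩
  by_contra hc
  have hA : ∀ {y}, y ∈ Set.range g → y < 2 * M + 2 → y = M + 1 ∨ y = M + 2 :=
    fun hy hy2 => bas_A hlow hp0 h3 hhi hd hl hy hy2
  have h4 : ¬ g t ≤ M + 2 := fun h => by have := hB2 t h; omega
  have h5 : 2 * M + 2 ≤ g t := by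
    by_contra h
    have := hA ⟨t, rfl⟩ (not_le.1 h)
    omega
  have h6 : g t ≠ 2 * M + 3 := fun h => hB3 ⟨t, h⟩
  have hdy : d (g t) = 0 := hd.rest _ (by omega) (by omega) (by omega) (by omega)
  obtain ⟨i, σ, j, hw, hs, -⟩ := hl.val (N := g t) (by omega) (by omega) hdy.le ⟨t, rfl⟩
  have hσ := bas_two hlow hw.bi hs (by omega)
  subst hσ
  obtain ⟨k1, k2, k3⟩ := bas_low hlow hw.bi
  simp only [List.sum_nil] at hs
  have hi' : i ≤ M + 2 := by
    by_contra h
    have : 2 * M + 2 ≤ i := by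
      by_contra h'
      have := hA hw.bi.ml (not_le.1 h')
      omega
    omega
  have hj' : j ≤ M + 2 := by
    by_contra h
    have : 2 * M + 2 ≤ j := by
      by_contra h'
      have := hA hw.bi.mr (not_le.1 h')
      omega
    omega
  obtain ⟨s, s1, s2⟩ := ((weak_iff hgb).1 hw).1
  have := hB2 (s + 1) (by omega)
  have hs0 : s = 0 := by omega
  subst hs0
  simp only [Nat.zero_add] at s2
  rcases hB1 with ⟨q1, q2⟩ | ⟨q1, q2⟩ <;> omega

theorem weak_adj (hgb : GB g) {i σ j} (h : Weak g i σ j) (hσ : σ = []) : Adj g i j := by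
  subst hσ
  exact ((weak_iff hgb).1 h).1

theorem strong_adj (hgb : GB g) {i σ j} (h : Strong g i σ j) (hσ : σ = []) : Adj g i j := by
  subst hσ
  exact ((strong_iff hgb).1 h).1

/-- An up level below `6 M` different from `g 1 + g 2` is a value. -/
theorem BSt.up (hgb : GB g) (hlow : ∀ t, M + 1 ≤ g t) (hM : 2 ^ 24 ≤ M) (hp0 : 2 * p0 = 9 * M)
    (hhi : 2 * p0 + 2 ^ 19 ≤ hi) (hl : RLE g (fun _ _ => False) d (M + 3) hi) (H : BSt g M)
    {N : ℕ} (h1 : 3 * M ≤ N) (h2 : N < 6 * M) (hdN : d N = 1) (h : g 1 + g 2 ≠ N) :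
    N ∈ Set.range g := by
  have hpos : ∀ t, 0 < g t := fun t => by have := hlow t; omega
  rcases hl.up hpos (N := N) (by omega) (by omega) hdN (fun i σ j ho =>
    h (H.low hM ho.1.bi (weak_adj hgb ho.1) ho.2.1 h2 (by omega)).2.2.2) with h5 | ⟨-, i, σ, j, h5, h6⟩
  · exact h5.1
  · exact absurd (H.low hM h5.bi (strong_adj hgb h5) h6 h2 (by omega)).2.2.2 h

theorem BSt.vals (hgb : GB g) (hM : 2 ^ 24 ≤ M) (hp0 : 2 * p0 = 9 * M)
    (hhi : 2 * p0 + 2 ^ 19 ≤ hi) (hd : DB d M p0)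
    (hl : RLE g (fun _ _ => False) d (M + 3) hi) (H : BSt g M) {y : ℕ} (hy : y ∈ Set.range g)
    (h1 : 3 * M < y) (h2 : y < 6 * M) :
    y + 1 = p0 ∨ y = p0 ∨ y = p0 + 2 ^ 19 ∨ g 1 + g 2 = y := by
  by_contra hc
  have hdy : d y ≤ 0 := by
    by_cases hdn : y = 2 * M + 3 ∨ y = M + 2 + p0 ∨ y + 1 = 3 * M + p0 ∨ y + 1 = 2 * p0 + 2 ^ 19
    · have := hd.dn y hdn
      omega
    · exact (hd.rest y (by omega) (by omega) (by omega) hdn).le
  obtain ⟨i, σ, j, hw, hs, -⟩ := hl.val (N := y) (by omega) (by omega) hdy hy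
  have := (H.low hM hw.bi (weak_adj hgb hw) hs h2 (by omega)).2.2.2
  omega

theorem bas_H (hgb : GB g) (hlow : ∀ t, M + 1 ≤ g t) (hM : 2 ^ 24 ≤ M) (hp0 : 2 * p0 = 9 * M)
    (hhi : 2 * p0 + 2 ^ 19 ≤ hi) (hd : DB d M p0)
    (hl : RLE g (fun _ _ => False) d (M + 3) hi) (H : BSt g M) :
    g 0 = M + 1 ∧ g 1 = M + 2 ∧ g 2 = p0 ∧ (∀ x, Adj g x p0 → x ≤ M + 2) ∧
      M + 2 + p0 ∉ Set.range g ∧ 3 * M ∈ Set.range g ∧ p0 - 1 ∈ Set.range g ∧
      p0 + 2 ^ 19 ∈ Set.range g := by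
  have hpos : ∀ t, 0 < g t := fun t => by have := hlow t; omega
  have hg2 := H.big 2 le_rfl
  have hg1 := hlow 1
  have hG0 : g 2 = 3 * M ∨ g 2 + 1 = p0 ∨ g 2 = p0 ∨ g 2 = p0 + 2 ^ 19 ∨ 6 * M ≤ g 2 := by
    by_contra hc
    have := H.vals hgb hM hp0 hhi hd hl ⟨2, rfl⟩ (by omega) (by omega)
    omega
  have hg1' : g 1 ≤ M + 2 := by rcases H.g01 with ⟨q1, q2⟩ | ⟨q1, q2⟩ <;> omega
  have v1 : 3 * M ∈ Set.range g :=
    H.up hgb hlow hM hp0 hhi hl le_rfl (by omega) (hd.up _ (by omega)) (by omega)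
  have v2 : p0 - 1 ∈ Set.range g :=
    H.up hgb hlow hM hp0 hhi hl (by omega) (by omega) (hd.up _ (by omega)) (by omega)
  have v3 : p0 + 2 ^ 19 ∈ Set.range g :=
    H.up hgb hlow hM hp0 hhi hl (by omega) (by omega) (hd.up _ (by omega)) (by omega)
  have hdn : d (M + 2 + p0) = -1 := hd.dn _ (by omega)
  obtain ⟨i, σ, j, hw, hs, -⟩ := hl.down (N := M + 2 + p0) (by omega) (by omega) (by omega)
  obtain ⟨r1, r2, r3, r4⟩ := H.low hM hw.bi (weak_adj hgb hw) hs (by omega) (by omega)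
  have e : g 0 = M + 1 ∧ g 1 = M + 2 ∧ g 2 = p0 := by
    rcases H.g01 with ⟨q1, q2⟩ | ⟨q1, q2⟩
    · exact ⟨q1, q2, by omega⟩
    · exfalso
      omega
  obtain ⟨e0, e1, e2⟩ := e
  subst r2
  have hw2 := (weak_iff hgb).1 hw
  rw [r1, r3, e1, e2] at hw2
  have hdo := hl.down_only hpos (N := M + 2 + p0) (by omega) (by omega) hdn
    (w := (g 1, [], g 2)) (fun i σ j ho => by
      obtain ⟨r1, r2, r3, -⟩ := H.low hM ho.1.bi (weak_adj hgb ho.1) ho.2.1 (by omega) (by omega)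
      rw [r1, r2, r3])
  exact ⟨e0, e1, e2, fun x hx => hw2.2.1 x hx, hdo.1, v1, v2, v3⟩

/-- The whole state before the decision. -/
structure BT (g : ℕ → ℕ) (M p0 : ℕ) : Prop where
  g0 : g 0 = M + 1
  a12 : Adj g (M + 1) (M + 2)
  a2p : Adj g (M + 2) p0
  v : 3 * M ∈ Set.range g
  Z : p0 - 1 ∈ Set.range g
  z0 : p0 + 2 ^ 19 ∈ Set.range g
  rng : ∀ y ∈ Set.range g, y < 6 * M →
    y = M + 1 ∨ y = M + 2 ∨ y = 3 * M ∨ y + 1 = p0 ∨ y = p0 ∨ y = p0 + 2 ^ 19
  adj : ∀ x y, Adj g x y → (x = M + 1 ∧ y = M + 2) ∨ (x = M + 2 ∧ y = p0) ∨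
    ((x = 3 * M ∨ x + 1 = p0 ∨ x = p0 ∨ x = p0 + 2 ^ 19 ∨ 6 * M ≤ x) ∧
      (y = 3 * M ∨ y + 1 = p0 ∨ y = p0 + 2 ^ 19 ∨ 6 * M ≤ y))
  once : ∀ t, g t = p0 → t = 2
  inner : ∀ i x σ j, Bi g i (x :: σ) j → i + (x :: σ).sum + j = 9 * M ∨
    10 * M ≤ i + (x :: σ).sum + j

theorem bas_T (hgb : GB g) (hlow : ∀ t, M + 1 ≤ g t) (hM : 2 ^ 24 ≤ M) (hp0 : 2 * p0 = 9 * M)
    (hhi : 2 * p0 + 2 ^ 19 ≤ hi) (hd : DB d M p0)
    (hl : RLE g (fun _ _ => False) d (M + 3) hi) (H : BSt g M) : BT g M p0 := by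
  obtain ⟨e0, e1, e2, hp, hn, v1, v2, v3⟩ := bas_H hgb hlow hM hp0 hhi hd hl H
  have rng : ∀ y ∈ Set.range g, y < 6 * M →
    y = M + 1 ∨ y = M + 2 ∨ y = 3 * M ∨ y + 1 = p0 ∨ y = p0 ∨ y = p0 + 2 ^ 19 := by
    intro y hy hy2
    obtain ⟨t, rfl⟩ := hy
    rcases Nat.lt_or_ge t 2 with ht | ht
    · rcases (show t = 0 ∨ t = 1 by omega) with rfl | rfl <;> omega
    · have h1 := H.big t ht
      by_contra hc
      have h2 := H.vals hgb hM hp0 hhi hd hl ⟨t, rfl⟩ (by omega) hy2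
      have h3 : g t = M + 2 + p0 := by omega
      exact hn ⟨t, h3⟩
  have adj : ∀ x y, Adj g x y → (x = M + 1 ∧ y = M + 2) ∨ (x = M + 2 ∧ y = p0) ∨
      ((x = 3 * M ∨ x + 1 = p0 ∨ x = p0 ∨ x = p0 + 2 ^ 19 ∨ 6 * M ≤ x) ∧
      (y = 3 * M ∨ y + 1 = p0 ∨ y = p0 + 2 ^ 19 ∨ 6 * M ≤ y)) := by
    intro x y hxy
    rcases H.adj hM hxy with ⟨a1, a2⟩ | ⟨a1, a2⟩ | ⟨a1, a2⟩
    · left; omega
    · right; left; omega
    · right; right
      have hy : y ≠ p0 := by
        rintro rfl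
        have := hp x hxy
        omega
      constructor
      · by_contra hc
        have := rng x hxy.ml (by omega)
        omega
      · by_contra hc
        have := rng y hxy.mr (by omega)
        omega
  refine ⟨e0, ⟨0, e0, e1⟩, ⟨1, e1, e2⟩, v1, v2, v3, rng, adj, ?_, ?_⟩
  · intro t ht
    have h2 : 2 ≤ t := H.two_le hM (by omega)
    have h3 : Adj g (g (t - 1)) p0 := ⟨t - 1, rfl, by rw [Nat.sub_add_cancel (by omega), ht]⟩
    have h4 := H.early (t - 1) (hp _ h3)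
    omega
  · intro i x σ j hb
    obtain ⟨h1, h2, h3, h4⟩ := H.inner hM hb
    have hi' : 3 * M ≤ i := by
      rcases h1 with ⟨h1, h1'⟩ | h1
      · exfalso
        obtain ⟨-, y, hy, hay⟩ := hb.head
        rw [h1', e2] at hay
        have := hp _ hay
        omega
      · exact h1
    have q1 : i = 3 * M ∨ p0 ≤ i + 1 := by
      by_contra hc
      have := rng i hb.ml (by omega)
      omega
    have q2 : x = 3 * M ∨ p0 ≤ x + 1 := by
      by_contra hc
      have := rng x (hb.mem x (by simp)) (by omega)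
      omega
    have q3 : j = 3 * M ∨ p0 ≤ j + 1 := by
      by_contra hc
      have := rng j hb.mr (by omega)
      omega
    rw [List.sum_cons]
    cases σ with
    | nil =>
      simp only [List.sum_nil]
      omega
    | cons y σ =>
      have := h3 y (by simp)
      rw [List.sum_cons]
      omega

/-- Words of level below `10 M` other than `9 M` are links. -/
theorem BT.nil (T : BT g M p0) {i σ j N} (h : Bi g i σ j) (hN : i + σ.sum + j = N)
    (h1 : N < 10 * M) (h2 : N ≠ 9 * M) : σ = [] := by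
  cases σ with
  | nil => rfl
  | cons x σ =>
    have := T.inner i x σ j h
    omega

theorem bas_dir (hgb : GB g) (hlow : ∀ t, M + 1 ≤ g t) (hM : 2 ^ 24 ≤ M) (hp0 : 2 * p0 = 9 * M)
    (hhi : 2 * p0 + 2 ^ 19 ≤ hi) (hd : DB d M p0)
    (hl : RLE g (fun _ _ => False) d (M + 3) hi) (T : BT g M p0) :
    (Uq g (3 * M) (p0 - 1) ∧ Uq g (p0 - 1) (p0 + 2 ^ 19)) ∨
    (Uq g (p0 - 1) (3 * M) ∧ Adj g (p0 + 2 ^ 19) (p0 - 1) ∧
      (∀ x, Adj g (p0 + 2 ^ 19) x → x = p0 - 1) ∧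
      (∀ x, Adj g x (p0 - 1) → x = p0 + 2 ^ 19 ∨ x = p0) ∧
      (Adj g p0 (p0 - 1) → ∀ x, Adj g p0 x → x = p0 - 1)) := by
  have hpos : ∀ t, 0 < g t := fun t => by have := hlow t; omega
  -- no word `(v ; ; v)` that is weak or strong
  have hvw : ¬ Weak g (3 * M) [] (3 * M) := by
    intro hw
    obtain ⟨w1, w2, w3⟩ := (weak_iff hgb).1 hw
    refine succ_closed hgb (F := {3 * M}) (B := 3 * M) (by simp) ?_ (3 * M) rfl T.v
    intro x hx y hy
    rw [Set.mem_singleton_iff] at hx ⊢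
    subst hx
    have := w3 y hy
    have := T.adj _ _ hy
    omega
  have hvs : ¬ Strong g (3 * M) [] (3 * M) := by
    intro hst
    have hd0 : d (6 * M) = 0 := hd.rest _ (by omega) (by omega) (by omega) (by omega)
    obtain ⟨i, σ, j, hw, hs, -⟩ := hl.str hpos (N := 6 * M) (by omega) (by omega) hd0.le hst
      (by simp only [List.sum_nil]; omega)
    have hσ := T.nil hw.bi hs (by omega) (by omega)
    subst hσ
    simp only [List.sum_nil] at hs
    have := T.adj _ _ (weak_adj hgb hw rfl)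
    have e1 : i = 3 * M := by omega
    have e2 : j = 3 * M := by omega
    subst e1; subst e2
    exact hvw hw
  -- the level `v + Z1`
  have hop : ∀ i σ j, Op g (fun _ _ => False) (3 * M + (p0 - 1)) i σ j →
      σ = [] ∧ ((i = 3 * M ∧ j = p0 - 1) ∨ (i = p0 - 1 ∧ j = 3 * M)) := by
    rintro i σ j ⟨hw, hs, -⟩
    have hσ := T.nil hw.bi hs (by omega) (by omega)
    subst hσ
    simp only [List.sum_nil] at hs
    have := T.adj _ _ (weak_adj hgb hw rfl)
    exact ⟨rfl, by omega⟩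
  have hdn : d (3 * M + (p0 - 1)) = -1 := hd.dn _ (by omega)
  -- the value `y = 6 M - 1 + 2 ^ 19` is not taken
  have hy : 6 * M + 2 ^ 19 - 1 ∉ Set.range g := by
    intro hy
    have hd0 : d (6 * M + 2 ^ 19 - 1) = 0 := hd.rest _ (by omega) (by omega) (by omega) (by omega)
    obtain ⟨i, σ, j, hw, hs, -⟩ := hl.val (by omega) (by omega) hd0.le hy
    have hσ := T.nil hw.bi hs (by omega) (by omega)
    subst hσ
    simp only [List.sum_nil] at hs
    have := T.adj _ _ (weak_adj hgb hw rfl)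
    omega
  -- the level `Z1 + z0`
  have hdn2 : d (2 * p0 + 2 ^ 19 - 1) = -1 := hd.dn _ (by omega)
  have hop2 : ∃ i j, Weak g i [] j ∧
      ((i = p0 - 1 ∧ j = p0 + 2 ^ 19) ∨ (i = p0 + 2 ^ 19 ∧ j = p0 - 1)) := by
    obtain ⟨i, σ, j, hw, hs, -⟩ := hl.down (N := 2 * p0 + 2 ^ 19 - 1) (by omega) (by omega)
      (by omega)
    have hσ := T.nil hw.bi hs (by omega) (by omega)
    subst hσ
    simp only [List.sum_nil] at hs
    have h1 := T.adj _ _ (weak_adj hgb hw rfl)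
    have h2 : i ≠ 6 * M + 2 ^ 19 - 1 := fun h => hy (h ▸ hw.bi.ml)
    have h3 : j ≠ 6 * M + 2 ^ 19 - 1 := fun h => hy (h ▸ hw.bi.mr)
    exact ⟨i, j, hw, by omega⟩
  obtain ⟨w, hw1⟩ : ∃ w : ℕ × List ℕ × ℕ, ∀ i σ j,
      Op g (fun _ _ => False) (3 * M + (p0 - 1)) i σ j → (i, σ, j) = w := by
    by_cases hA : Weak g (3 * M) [] (p0 - 1)
    · refine ⟨(3 * M, [], p0 - 1), ?_⟩
      intro i σ j ho
      obtain ⟨rfl, ⟨rfl, rfl⟩ | ⟨rfl, rfl⟩⟩ := hop i σ j ho
      · rfl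
      · exfalso
        obtain ⟨w1, w2, w3⟩ := (weak_iff hgb).1 hA
        obtain ⟨w1', w2', w3'⟩ := (weak_iff hgb).1 ho.1
        refine succ_closed hgb (F := {3 * M, p0 - 1}) (B := p0) (by
          rintro x (rfl | rfl) <;> omega) ?_ (3 * M) (by simp) T.v
        rintro x (rfl | rfl) y hy
        · have := w3 y hy
          have := T.adj _ _ hy
          have : y = 3 * M ∨ y = p0 - 1 := by omega
          simpa using this
        · have := w3' y hy
          have := T.adj _ _ hy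
          have : y = 3 * M ∨ y = p0 - 1 := by omega
          simpa using this
    · refine ⟨(p0 - 1, [], 3 * M), ?_⟩
      intro i σ j ho
      obtain ⟨rfl, ⟨rfl, rfl⟩ | ⟨rfl, rfl⟩⟩ := hop i σ j ho
      · exact absurd ho.1 hA
      · rfl
  obtain ⟨-, hnos⟩ := hl.down_only hpos (N := 3 * M + (p0 - 1)) (by omega) (by omega) hdn hw1
  obtain ⟨i, σ, j, ho⟩ := hl.down (N := 3 * M + (p0 - 1)) (by omega) (by omega) (by omega)
  obtain ⟨hσ, hij⟩ := hop i σ j ho
  subst hσ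
  obtain ⟨k1, k2, k3⟩ := (weak_iff hgb).1 ho.1
  rcases hij with ⟨rfl, rfl⟩ | ⟨rfl, rfl⟩
  · -- state N
    left
    have hnotw : ¬ Weak g (p0 - 1) [] (3 * M) := by
      intro hw'
      have e1 := hw1 _ _ _ ho
      have e2 := hw1 _ _ _ (⟨hw', by simp only [List.sum_nil]; omega, fun h => h.2⟩ :
        Op g (fun _ _ => False) (3 * M + (p0 - 1)) (p0 - 1) [] (3 * M))
      have := e1.trans e2.symm
      simp only [Prod.mk.injEq] at this
      omega
    have hnots : ¬ Strong g (p0 - 1) [] (3 * M) := by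
      intro hs
      exact hnos _ _ _ hs (by simp only [List.sum_nil]; omega)
    have hpZ : ∀ x, Adj g x (p0 - 1) → x = 3 * M := by
      intro x hx
      have := k2 x hx
      have := T.adj _ _ hx
      omega
    have hvv : ¬ Adj g (3 * M) (3 * M) := by
      intro hvv
      have hno : ∀ x, Adj g x (3 * M) → x ≤ 3 * M := by
        intro x hx
        by_contra hc
        exact hvs ((strong_iff hgb).2 ⟨hvv, ⟨x, by omega, hx⟩, ⟨p0 - 1, by omega, k1⟩⟩)
      refine pred_closed (g := g) (F := {3 * M}) (by simp only [Set.mem_singleton_iff, T.g0]; omega) ?_ (3 * M) rfl T.v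
      intro x hx y hy
      rw [Set.mem_singleton_iff] at hx ⊢
      subst hx
      have := hno y hy
      have := T.adj _ _ hy
      omega
    have hsv : ∀ x, Adj g (3 * M) x → x = p0 - 1 := by
      intro x hx
      have h1 := k3 x hx
      have h2 := T.adj _ _ hx
      have h3 : x ≠ 3 * M := by
        rintro rfl
        exact hvv hx
      omega
    have hZv : ¬ Adj g (p0 - 1) (3 * M) := by
      intro hZv
      by_cases hA : ∃ x, p0 - 1 < x ∧ Adj g x (3 * M)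
      · by_cases hB : ∃ y, 3 * M < y ∧ Adj g (p0 - 1) y
        · exact hnots ((strong_iff hgb).2 ⟨hZv, hA, hB⟩)
        · -- all successors of `Z1` are `v`
          push Not at hB
          refine succ_closed hgb (F := {3 * M, p0 - 1}) (B := p0) (by
            rintro x (rfl | rfl) <;> omega) ?_ (3 * M) (by simp) T.v
          rintro x (rfl | rfl) y hy
          · have := hsv y hy
            simp [this]
          · have h1 : ¬ 3 * M < y := fun h => hB y h hy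
            have := T.adj _ _ hy
            have : y = 3 * M := by omega
            simp [this]
      · push Not at hA
        refine pred_closed (g := g) (F := {3 * M, p0 - 1}) (by
          simp only [Set.mem_insert_iff, Set.mem_singleton_iff, T.g0]; omega) ?_ (3 * M) (by simp) T.v
        rintro x (rfl | rfl) y hy
        · have h1 : ¬ p0 - 1 < y := fun h => hA y h hy
          have := T.adj _ _ hy
          have : y = 3 * M ∨ y = p0 - 1 := by omega
          simpa using this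
        · have := hpZ y hy
          simp [this]
    obtain ⟨i, j, hw2, ⟨rfl, rfl⟩ | ⟨rfl, rfl⟩⟩ := hop2
    · obtain ⟨m1, m2, m3⟩ := (weak_iff hgb).1 hw2
      refine ⟨⟨k1, hsv, hpZ⟩, ⟨m1, ?_, ?_⟩⟩
      · intro x hx
        have h1 := m3 x hx
        have h2 := T.adj _ _ hx
        have h3 : x ≠ 3 * M := by
          rintro rfl
          exact hZv hx
        have h4 : x ≠ p0 - 1 := by
          rintro rfl
          have := hpZ _ hx
          omega
        omega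
      · intro x hx
        have h1 := m2 x hx
        have h2 := T.adj _ _ hx
        have h3 : x ≠ 3 * M := by
          rintro rfl
          have := hsv _ hx
          omega
        omega
    · exfalso
      have := hpZ _ (weak_adj hgb hw2 rfl)
      omega
  · -- state R
    right
    have hnotw : ¬ Weak g (3 * M) [] (p0 - 1) := by
      intro hw'
      have e1 := hw1 _ _ _ ho
      have e2 := hw1 _ _ _ (⟨hw', by simp only [List.sum_nil]; omega, fun h => h.2⟩ :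
        Op g (fun _ _ => False) (3 * M + (p0 - 1)) (3 * M) [] (p0 - 1))
      have := e1.trans e2.symm
      simp only [Prod.mk.injEq] at this
      omega
    have hnots : ¬ Strong g (3 * M) [] (p0 - 1) := by
      intro hs
      exact hnos _ _ _ hs (by simp only [List.sum_nil]; omega)
    have hsZ : ∀ x, Adj g (p0 - 1) x → x = 3 * M := by
      intro x hx
      have := k3 x hx
      have := T.adj _ _ hx
      omega
    have hvv : ¬ Adj g (3 * M) (3 * M) := by
      intro hvv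
      have hno : ∀ x, Adj g (3 * M) x → x ≤ 3 * M := by
        intro x hx
        by_contra hc
        exact hvs ((strong_iff hgb).2 ⟨hvv, ⟨p0 - 1, by omega, k1⟩, ⟨x, by omega, hx⟩⟩)
      refine succ_closed hgb (F := {3 * M}) (B := 3 * M) (by simp) ?_ (3 * M) rfl T.v
      intro x hx y hy
      rw [Set.mem_singleton_iff] at hx ⊢
      subst hx
      have := hno y hy
      have := T.adj _ _ hy
      omega
    have hpv : ∀ x, Adj g x (3 * M) → x = p0 - 1 := by
      intro x hx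
      have h1 := k2 x hx
      have h2 := T.adj _ _ hx
      have h3 : x ≠ 3 * M := by
        rintro rfl
        exact hvv hx
      omega
    have hvZ : ¬ Adj g (3 * M) (p0 - 1) := by
      intro hvZ
      by_cases hA : ∃ x, 3 * M < x ∧ Adj g x (p0 - 1)
      · by_cases hB : ∃ y, p0 - 1 < y ∧ Adj g (3 * M) y
        · exact hnots ((strong_iff hgb).2 ⟨hvZ, hA, hB⟩)
        · push Not at hB
          refine succ_closed hgb (F := {3 * M, p0 - 1}) (B := p0) (by
            rintro x (rfl | rfl) <;> omega) ?_ (3 * M) (by simp) T.v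
          rintro x (rfl | rfl) y hy
          · have h1 : ¬ p0 - 1 < y := fun h => hB y h hy
            have := T.adj _ _ hy
            have : y = 3 * M ∨ y = p0 - 1 := by omega
            simpa using this
          · have := hsZ y hy
            simp [this]
      · push Not at hA
        refine pred_closed (g := g) (F := {3 * M, p0 - 1}) (by
          simp only [Set.mem_insert_iff, Set.mem_singleton_iff, T.g0]; omega) ?_ (3 * M) (by simp) T.v
        rintro x (rfl | rfl) y hy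
        · have := hpv y hy
          simp [this]
        · have h1 : ¬ 3 * M < y := fun h => hA y h hy
          have := T.adj _ _ hy
          have : y = 3 * M := by omega
          simp [this]
    obtain ⟨i, j, hw2, ⟨rfl, rfl⟩ | ⟨rfl, rfl⟩⟩ := hop2
    · exfalso
      have := hsZ _ (weak_adj hgb hw2 rfl)
      omega
    · obtain ⟨m1, m2, m3⟩ := (weak_iff hgb).1 hw2
      refine ⟨⟨k1, hsZ, hpv⟩, m1, ?_, ?_, ?_⟩
      · intro x hx
        have h1 := m3 x hx
        have h2 := T.adj _ _ hx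
        have h3 : x ≠ 3 * M := by
          rintro rfl
          have := hpv _ hx
          omega
        omega
      · intro x hx
        have h1 := m2 x hx
        have h2 := T.adj _ _ hx
        have h3 : x ≠ 3 * M := by
          rintro rfl
          exact hvZ hx
        have h4 : x ≠ p0 - 1 := by
          rintro rfl
          have := hsZ _ hx
          omega
        omega
      · rintro ⟨t, t1, t2⟩ x ⟨s, s1, s2⟩
        have e1 := T.once t t1
        have e2 := T.once s s1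
        rw [← s2, ← t2, e1, e2]

end

/-- **Base stage.** -/
theorem base_stage {g : ℕ → ℕ} {M p0 hi : ℕ} {d : ℕ → ℤ} (hgb : GB g)
    (hlow : ∀ t, M + 1 ≤ g t) (hM : 2 ^ 24 ≤ M) (hp0 : 2 * p0 = 9 * M)
    (h1 : M + 1 ∈ Set.range g) (h2 : M + 2 ∈ Set.range g) (h3 : M + 3 ∉ Set.range g)
    (hg0 : g 0 = M + 1 ∨ g 0 = M + 2) (hon : ∀ t, g t = g 0 → t = 0)
    (hhi : 2 * p0 + 2 ^ 19 ≤ hi) (hd : DB d M p0)
    (hl : RLE g (fun _ _ => False) d (M + 3) hi) : Bo g M p0 := by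
  obtain ⟨hB1, hB2, hB3⟩ := bas_B hgb hlow hM hp0 h1 h2 h3 hg0 hon hhi hd hl
  have H := bas_C hlow hM hp0 h3 hhi hd hl hB1 hB2 hB3 hgb
  have T := bas_T hgb hlow hM hp0 hhi hd hl H
  refine ⟨fun y hy hy2 => T.rng y hy (by omega), T.g0, ⟨T.a12, ?_, ?_⟩, ⟨T.a2p, ?_, ?_⟩,
    bas_dir hgb hlow hM hp0 hhi hd hl T⟩
  · intro x hx
    have := T.adj _ _ hx
    omega
  · intro x hx
    have := T.adj _ _ hx
    omega
  · intro x hx
    have := T.adj _ _ hx
    omega
  · intro x hx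
    have := T.adj _ _ hx
    omega

end Pool.Agent.CF2
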