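import Pool.Agent.CF2.Suff

/-!
# The base of the decoding: two consecutive increases of the slope force long runs
-/

namespace Pool.Agent.CF2

open Pool.Agent.Helper79.CF

/-- A complete run of `j` letters `a` after the letter at `i`. -/
def IsRun (u : ℕ → Bool) (a : Bool) (i j : ℕ) : Prop :=
  u i = !a ∧ (∀ r < j, u (i + 1 + r) = a) ∧ u (i + 1 + j) = !a

/-- `w` occurs in `u` at some place `i ≥ k`. -/
def Occ (u : ℕ → Bool) (k n : ℕ) (w : Fin n → Bool) : Prop := ∃ i, k ≤ i ∧ ∀ j : Fin n, u (i + j) = w j

theorem base_rs_iff {u : ℕ → Bool} {n : ℕ} {w : Fin n → Bool} :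
    w ∈ RS u n false true ↔ ∀ c, ∃ i, (∀ j : Fin n, u (i + j) = w j) ∧ u (i + n) = c := by
  unfold RS
  rw [Set.mem_ofPred_eq, mem_snoc, mem_snoc]
  constructor
  · rintro ⟨h1, h2⟩ c
    cases c
    · exact h1
    · exact h2
  · intro h
    exact ⟨h false, h true⟩

/-- Suffixes of right special words are right special. -/
theorem base_rs_suffix {u : ℕ → Bool} {n : ℕ} {w : Fin (n + 1) → Bool}
    (h : w ∈ RS u (n + 1) false true) : (fun j : Fin n => w j.succ) ∈ RS u n false true := by
  rw [base_rs_iff] at h ⊢
  intro c
  obtain ⟨i, h1, h2⟩ := h c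
  refine ⟨i + 1, fun j => ?_, ?_⟩
  · have := h1 j.succ
    rw [Fin.val_succ] at this
    rw [← this]; congr 1; omega
  · rw [← h2]; congr 1; omega

theorem base_cons_tail {n : ℕ} (w : Fin (n + 1) → Bool) :
    w = Fin.cons (w 0) (fun j : Fin n => w j.succ) := by
  funext j
  refine Fin.cases ?_ (fun j => ?_) j
  · simp
  · simp

/-- If there is no right special word of length `m` then the complexity is constant from `m` on. -/
theorem base_const {u : ℕ → Bool} {m : ℕ} (h : complexity u (m + 1) = complexity u m) (k : ℕ) :
    complexity u (m + k) = complexity u m := by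
  have h0 : RS u m false true = ∅ := by
    have := complexity_succ u m
    rw [← Set.ncard_eq_zero (Set.toFinite _)]
    omega
  have h1 : ∀ k, RS u (m + k) false true = ∅ := by
    intro k
    induction k with
    | zero => exact h0
    | succ k ih =>
      rw [Set.eq_empty_iff_forall_notMem]
      intro w hw
      have := base_rs_suffix (n := m + k) hw
      rw [ih] at this
      exact this
  induction k with
  | zero => rfl
  | succ k ih =>
    rw [show m + (k + 1) = m + k + 1 by omega, complexity_succ, h1 k, Set.ncard_empty, ih, Nat.add_zero]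

/-- Morse-Hedlund: if the complexity is at most `n` at some `n` then it is at most `n` for all
larger arguments. -/
theorem base_mh {u : ℕ → Bool} {n : ℕ} (h : complexity u n ≤ n) (k : ℕ) :
    complexity u (n + k) ≤ n := by
  have h0 : complexity u 0 = 1 := by
    unfold complexity
    rw [Set.ncard_eq_one]
    refine ⟨fun j => Fin.elim0 j, ?_⟩
    ext w
    simp only [Set.mem_singleton_iff]
    constructor
    · intro _
      funext j
      exact Fin.elim0 j
    · rintro rfl
      exact ⟨0, funext fun j => Fin.elim0 j⟩
  have hm : ∃ m, m < n ∧ complexity u (m + 1) = complexity u m := by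
    by_contra hne
    push Not at hne
    have : ∀ m ≤ n, m + 1 ≤ complexity u m := by
      intro m
      induction m with
      | zero => intro _; omega
      | succ m ih =>
        intro hm
        have h1 := ih (by omega)
        have h2 := hne m (by omega)
        have h3 := complexity_succ u m
        omega
    have := this n le_rfl
    omega
  obtain ⟨m, hm1, hm2⟩ := hm
  have e1 := base_const hm2 (n - m)
  have e2 := base_const hm2 (n - m + k)
  rw [show m + (n - m) = n by omega] at e1
  rw [show m + (n - m + k) = n + k by omega] at e2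
  omega

/-- The shifted word. -/
def shift (u : ℕ → Bool) : ℕ → Bool := fun n => u (n + 1)

theorem base_shift_subset (u : ℕ → Bool) (n : ℕ) : factors (shift u) n ⊆ factors u n := by
  rintro _ ⟨i, rfl⟩
  refine ⟨i + 1, ?_⟩
  funext j
  show u _ = u _
  congr 1; omega

theorem base_shift_insert (u : ℕ → Bool) (n : ℕ) :
    factors u n ⊆ insert (fun j : Fin n => u j) (factors (shift u) n) := by
  rintro _ ⟨i, rfl⟩
  rcases Nat.eq_zero_or_pos i with rfl | hi
  · left
    funext j
    simp
  · right
    refine ⟨i - 1, ?_⟩
    funext j
    show u _ = u _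
    congr 1; omega

/-- If the complexity is `n + 1` at `n` and large later then the prefix of length `n` occurs again. -/
theorem base_recur {u : ℕ → Bool} {n k : ℕ} (h : complexity u n = n + 1)
    (hk : n + 1 < complexity u (n + k)) : Occ u 1 n fun j => u j := by
  by_contra hno
  have hnot : (fun j : Fin n => u j) ∉ factors (shift u) n := by
    rintro ⟨i, hi⟩
    apply hno
    refine ⟨i + 1, by omega, fun j => ?_⟩
    have := congrFun hi j
    simp only [shift] at this
    show u (i + 1 + j) = u j
    rw [← this]; congr 1; omega
  have h1 : complexity (shift u) n ≤ n := by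
    have hlt : factors (shift u) n ⊂ factors u n := by
      refine ⟨base_shift_subset u n, fun hsub => hnot (hsub ⟨0, ?_⟩)⟩
      funext j
      simp
    have := Set.ncard_lt_ncard hlt (Set.toFinite _)
    unfold complexity at h ⊢
    omega
  have h2 := base_mh h1 k
  have h3 : complexity u (n + k) ≤ complexity (shift u) (n + k) + 1 := by
    unfold complexity
    refine (Set.ncard_le_ncard (base_shift_insert u (n + k)) (Set.toFinite _)).trans ?_
    exact Set.ncard_insert_le _ _
  omega

/-- At most one left special word of length `n`. -/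
theorem base_ls_unique {u : ℕ → Bool} {n : ℕ} (h : complexity u (n + 1) = complexity u n + 1)
    (hr : Occ u 1 n fun j => u j) {w w' : Fin n → Bool}
    (hw : ∀ c, (Fin.cons c w : Fin (n + 1) → Bool) ∈ factors u (n + 1))
    (hw' : ∀ c, (Fin.cons c w' : Fin (n + 1) → Bool) ∈ factors u (n + 1)) : w = w' := by
  classical
  by_contra hne
  -- every factor has a left extension
  have hl : ∀ z ∈ factors u n, ∃ c, (Fin.cons c z : Fin (n + 1) → Bool) ∈ factors u (n + 1) := by
    rintro _ ⟨i, rfl⟩
    have key : ∀ i, 1 ≤ i → (Fin.cons (u (i - 1)) (fun j : Fin n => u (i + j)) :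
        Fin (n + 1) → Bool) ∈ factors u (n + 1) := by
      intro i hi
      refine ⟨i - 1, ?_⟩
      funext j
      refine Fin.cases ?_ (fun j => ?_) j
      · simp
      · simp only [Fin.val_succ, Fin.cons_succ]
        congr 1; omega
    rcases Nat.eq_zero_or_pos i with rfl | hi
    · obtain ⟨i', hi', hj⟩ := hr
      refine ⟨u (i' - 1), ?_⟩
      have := key i' hi'
      have e : ((fun (i : ℕ) (j : Fin n) => u (i + j)) 0) = fun j : Fin n => u (i' + j) := by
        funext j
        show u (0 + j) = u (i' + j)
        rw [hj j, zero_add]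
      rw [e]
      exact this
    · exact ⟨_, key i hi⟩
  choose! c hc using hl
  set F : Set (Fin n → Bool) := factors u n
  let f : (Fin n → Bool) → (Fin (n + 1) → Bool) := fun z => Fin.cons (c z) z
  have hfi : Function.Injective f := by
    intro z z' h
    have := congrArg (fun x : Fin (n + 1) → Bool => fun j : Fin n => x j.succ) h
    simpa [f] using this
  have hmem : ∀ w : Fin n → Bool, (∀ c, (Fin.cons c w : Fin (n + 1) → Bool) ∈ factors u (n + 1)) →
      w ∈ F := by
    intro w hw
    obtain ⟨i, hi⟩ := hw true
    refine ⟨i + 1, ?_⟩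
    funext j
    have := congrFun hi j.succ
    simp only [Fin.val_succ, Fin.cons_succ] at this
    show u (i + 1 + j) = w j
    rw [← this]; congr 1; omega
  have hsub : insert (Fin.cons (!(c w)) w : Fin (n + 1) → Bool)
      (insert (Fin.cons (!(c w')) w' : Fin (n + 1) → Bool) (f '' F)) ⊆ factors u (n + 1) := by
    rintro z (rfl | rfl | ⟨x, hx, rfl⟩)
    · exact hw _
    · exact hw' _
    · exact hc x hx
  have hn1 : (Fin.cons (!(c w')) w' : Fin (n + 1) → Bool) ∉ f '' F := by
    rintro ⟨x, hx, h⟩
    have e : x = w' := by
      have := congrArg (fun x : Fin (n + 1) → Bool => fun j : Fin n => x j.succ) h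
      simpa [f] using this
    subst e
    have := congrFun h 0
    simp [f] at this
  have hn2 : (Fin.cons (!(c w)) w : Fin (n + 1) → Bool) ∉
      insert (Fin.cons (!(c w')) w' : Fin (n + 1) → Bool) (f '' F) := by
    rintro (h | ⟨x, hx, h⟩)
    · have := congrArg (fun x : Fin (n + 1) → Bool => fun j : Fin n => x j.succ) h
      exact hne (by simpa using this)
    · have e : x = w := by
        have := congrArg (fun x : Fin (n + 1) → Bool => fun j : Fin n => x j.succ) h
        simpa [f] using this
      subst e
      have := congrFun h 0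
      simp [f] at this
  have h1 := Set.ncard_le_ncard hsub (Set.toFinite _)
  rw [Set.ncard_insert_of_notMem hn2 (Set.toFinite _),
    Set.ncard_insert_of_notMem hn1 (Set.toFinite _), Set.ncard_image_of_injective _ hfi] at h1
  have hF : F.ncard = (factors u n).ncard := rfl
  unfold complexity at h
  omega

/-- **Base lemma.** -/
theorem base {u : ℕ → Bool} {M : ℕ} (h1 : ∀ n ≤ M + 1, complexity u n = n + 1)
    (h2 : complexity u (M + 2) = M + 4) (h3 : complexity u (M + 3) = M + 7) :
    ∃ a : Bool, (∀ i j, IsRun u a i j → M ≤ j) ∧ (∃ i, IsRun u a i M) ∧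
      ∃ i, IsRun u a i (M + 1) := by
  classical
  -- right special words
  have c0 : ∀ n ≤ M, (RS u n false true).ncard = 1 := by
    intro n hn
    have := complexity_succ u n
    rw [h1 n (by omega), h1 (n + 1) (by omega)] at this
    omega
  have c1 : (RS u (M + 1) false true).ncard = 2 := by
    have := complexity_succ u (M + 1)
    rw [h1 (M + 1) le_rfl, show M + 1 + 1 = M + 2 from rfl, h2] at this
    omega
  have c2 : (RS u (M + 2) false true).ncard = 3 := by
    have := complexity_succ u (M + 2)
    rw [h2, show M + 2 + 1 = M + 3 from rfl, h3] at this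
    omega
  obtain ⟨z0, hz0⟩ := Set.ncard_eq_one.1 (c0 M le_rfl)
  have hsub1 : RS u (M + 1) false true ⊆
      {Fin.cons false z0, Fin.cons true z0} := by
    intro w hw
    have h := base_rs_suffix hw
    rw [hz0, Set.mem_singleton_iff] at h
    have hc := base_cons_tail w
    rw [h] at hc
    rcases Bool.eq_false_or_eq_true (w 0) with h0 | h0
    · right; rw [hc, h0]; rfl
    · left; rw [hc, h0]
  have hne1 : (Fin.cons false z0 : Fin (M + 1) → Bool) ≠ Fin.cons true z0 := by
    intro h
    have := congrFun h 0
    simp at this
  have heq1 : RS u (M + 1) false true = {Fin.cons false z0, Fin.cons true z0} := by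
    apply Set.eq_of_subset_of_ncard_le hsub1
    rw [c1, Set.ncard_pair hne1]
  have hz0c : ∀ c, (Fin.cons c z0 : Fin (M + 1) → Bool) ∈ RS u (M + 1) false true := by
    intro c
    rw [heq1]
    cases c
    · left; rfl
    · right; rfl
  -- some `x z0` has two right special left extensions
  have hex : ∃ x : Bool, ∀ c, (Fin.cons c (Fin.cons x z0 : Fin (M + 1) → Bool) :
      Fin (M + 2) → Bool) ∈ RS u (M + 2) false true := by
    by_contra hno
    push Not at hno
    obtain ⟨d0, hd0⟩ := hno false
    obtain ⟨d1, hd1⟩ := hno true
    have hsub2 : RS u (M + 2) false true ⊆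
        {Fin.cons (!d0) (Fin.cons false z0 : Fin (M + 1) → Bool),
          Fin.cons (!d1) (Fin.cons true z0 : Fin (M + 1) → Bool)} := by
      intro w hw
      have h := base_rs_suffix (n := M + 1) hw
      rw [heq1] at h
      have hc := base_cons_tail (n := M + 1) w
      rcases h with h | h
      · left
        rw [h] at hc
        have : w 0 = !d0 := by
          by_contra hne
          have : w 0 = d0 := by
            revert hne
            generalize w 0 = e
            cases e <;> cases d0 <;> simp
          rw [this] at hc
          rw [hc] at hw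
          exact hd0 hw
        rw [hc, this]
      · right
        rw [Set.mem_singleton_iff] at h
        rw [h] at hc
        have : w 0 = !d1 := by
          by_contra hne
          have : w 0 = d1 := by
            revert hne
            generalize w 0 = e
            cases e <;> cases d1 <;> simp
          rw [this] at hc
          rw [hc] at hw
          exact hd1 hw
        rw [hc, this]
        rfl
    have := Set.ncard_le_ncard hsub2 (Set.toFinite _)
    have h4 := Set.ncard_insert_le (Fin.cons (!d0) (Fin.cons false z0 : Fin (M + 1) → Bool) :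
      Fin (M + 2) → Bool) {Fin.cons (!d1) (Fin.cons true z0 : Fin (M + 1) → Bool)}
    rw [Set.ncard_singleton] at h4
    omega
  obtain ⟨x, hx⟩ := hex
  -- the prefix of length `M` of `x z0` is left special
  have hrec : Occ u 1 M fun j => u j := by
    refine base_recur (k := 2) (h1 M (by omega)) ?_
    rw [h2]; omega
  have hcomp : complexity u (M + 1) = complexity u M + 1 := by
    rw [h1 _ le_rfl, h1 M (by omega)]
  have hfac : ∀ {n : ℕ} {w : Fin n → Bool}, w ∈ RS u n false true → w ∈ factors u n := by
    intro n w hw
    obtain ⟨i, hi, _⟩ := (base_rs_iff.1 hw) true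
    exact ⟨i, funext hi⟩
  have hpre : ∀ c, (Fin.cons c (fun j : Fin M => (Fin.cons x z0 : Fin (M + 1) → Bool) j.castSucc) :
      Fin (M + 1) → Bool) ∈ factors u (M + 1) := by
    intro c
    obtain ⟨i, hi⟩ := hfac (hx c)
    refine ⟨i, ?_⟩
    funext j
    have h5 := congrFun hi (Fin.castSucc j)
    simp only [Fin.val_castSucc] at h5
    simp only []
    rw [h5]
    refine Fin.cases ?_ (fun j => ?_) j
    · simp
    · rw [← Fin.succ_castSucc]
      simp
  have heq : (fun j : Fin M => (Fin.cons x z0 : Fin (M + 1) → Bool) j.castSucc) = z0 :=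
    base_ls_unique hcomp hrec hpre (fun c => hfac (hz0c c))
  -- so `z0` is constant
  have hz : ∀ (k : ℕ) (hk : k < M), z0 ⟨k, hk⟩ = x := by
    intro k
    induction k with
    | zero =>
      intro hk
      have := congrFun heq ⟨0, hk⟩
      rw [← this]
      rfl
    | succ k ih =>
      intro hk
      have := congrFun heq ⟨k + 1, hk⟩
      rw [← this, ← ih (by omega)]
      rfl
  refine ⟨x, ?_, ?_, ?_⟩
  · -- short runs
    rintro i j ⟨r1, r2, r3⟩
    by_contra hlt
    push Not at hlt
    -- `b a^j` is right special
    have hA : (fun k : Fin (j + 1) => if (k : ℕ) = 0 then !x else x) ∈ RS u (j + 1) false true := by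
      rw [base_rs_iff]
      have hb : ∃ i, (∀ k : Fin (j + 1), u (i + k) = if (k : ℕ) = 0 then !x else x) ∧
          u (i + (j + 1)) = !x := by
        refine ⟨i, fun k => ?_, ?_⟩
        · split_ifs with hk
          · rw [hk]; exact r1
          · have := r2 (k - 1) (by have := k.2; omega)
            rw [← this]; congr 1; omega
        · rw [← r3]; congr 1; omega
      have ha : ∃ i, (∀ k : Fin (j + 1), u (i + k) = if (k : ℕ) = 0 then !x else x) ∧
          u (i + (j + 1)) = x := by
        obtain ⟨i', hi', _⟩ := (base_rs_iff.1 (hz0c (!x))) true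
        refine ⟨i', fun k => ?_, ?_⟩
        · have hk2 := k.2
          have h6 := hi' ⟨k, by omega⟩
          simp only [] at h6
          rw [h6]
          split_ifs with hk
          · have : (⟨k, by omega⟩ : Fin (M + 1)) = 0 := Fin.ext hk
            rw [this]; simp
          · have : (⟨k, by omega⟩ : Fin (M + 1)) = Fin.succ ⟨k - 1, by omega⟩ := by
              apply Fin.ext; simp; omega
            rw [this, Fin.cons_succ]
            exact hz _ _
        · have h6 := hi' ⟨j + 1, by omega⟩
          simp only [] at h6
          rw [h6]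
          have : (⟨j + 1, by omega⟩ : Fin (M + 1)) = Fin.succ ⟨j, by omega⟩ := by
            apply Fin.ext; simp
          rw [this, Fin.cons_succ]
          exact hz _ _
      intro c
      by_cases hc : c = x
      · rw [hc]; exact ha
      · have : c = !x := by cases h5 : c <;> cases h6 : x <;> simp_all
        rw [this]; exact hb
    have hB : (fun _ : Fin (j + 1) => x) ∈ RS u (j + 1) false true := by
      rw [base_rs_iff]
      intro c
      have hM : z0 ∈ RS u M false true := by rw [hz0]; rfl
      obtain ⟨i', hi', hi2⟩ := (base_rs_iff.1 hM) c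
      refine ⟨i' + (M - (j + 1)), fun k => ?_, ?_⟩
      · have hk := k.2
        have h6 := hi' ⟨M - (j + 1) + k, by omega⟩
        rw [hz] at h6
        rw [← h6]; congr 1; simp only []; omega
      · rw [← hi2]; congr 1; omega
    have h7 := c0 (j + 1) (by omega)
    obtain ⟨w, hw⟩ := Set.ncard_eq_one.1 h7
    rw [hw] at hA hB
    have h8 := (Set.mem_singleton_iff.1 hA).trans (Set.mem_singleton_iff.1 hB).symm
    have := congrFun h8 0
    simp at this
  · obtain ⟨i, hi1, hi2⟩ := (base_rs_iff.1 (hz0c (!x))) (!x)
    refine ⟨i, ?_, fun r hr => ?_, ?_⟩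
    · have := hi1 0
      simpa using this
    · have := hi1 (Fin.succ ⟨r, hr⟩)
      rw [Fin.cons_succ, hz] at this
      rw [← this]; congr 1; simp; omega
    · rw [← hi2]; congr 1; omega
  · obtain ⟨i, hi1, hi2⟩ := (base_rs_iff.1 (hx (!x))) (!x)
    refine ⟨i, ?_, fun r hr => ?_, ?_⟩
    · have := hi1 0
      simpa using this
    · have h9 := hi1 (Fin.succ ⟨r, hr⟩)
      rw [Fin.cons_succ] at h9
      have h10 : (Fin.cons x z0 : Fin (M + 1) → Bool) ⟨r, hr⟩ = x := by
        rcases Nat.eq_zero_or_pos r with rfl | h0
        · rfl
        · have : (⟨r, hr⟩ : Fin (M + 1)) = Fin.succ ⟨r - 1, by omega⟩ := by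
            apply Fin.ext; simp; omega
          rw [this, Fin.cons_succ]
          exact hz _ _
      rw [h10] at h9
      rw [← h9]; congr 1; simp; omega
    · rw [← hi2]; congr 1; omega

end Pool.Agent.CF2
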