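import Mathlib

/-!
# CF2: combinatorics of the run sequence

All run lengths are written in tilde form (number of letters `a` plus one), so
`u = blk y = a^(y 0 - 1) b a^(y 1 - 1) b ...`, `g t = y (t + 1)`, and the word
`a^(i-1) b a^(σ_1 - 1) b ... b a^(σ_m - 1) b a^(j-1)`, written `(i ; σ ; j)`, has length
`i + σ.sum + j - 1`.
-/

namespace Pool.Agent.CF2

/-- `j` follows `i` directly in `g`. -/
def Adj (g : ℕ → ℕ) (i j : ℕ) : Prop := ∃ t, g t = i ∧ g (t + 1) = j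

/-- The list `σ` stands in `g` from place `t` on. -/
def Seg (g : ℕ → ℕ) (t : ℕ) (σ : List ℕ) : Prop :=
  ∀ (k : ℕ) (h : k < σ.length), g (t + k) = σ[k]

/-- `(i ; σ ; j)` with both ends exact. -/
def BB (g : ℕ → ℕ) (i : ℕ) (σ : List ℕ) (j : ℕ) : Prop :=
  ∃ t, g t = i ∧ Seg g (t + 1) σ ∧ g (t + 1 + σ.length) = j

/-- `(i ; σ ; j)`, left end longer, right end exact. -/
def AB (g : ℕ → ℕ) (i : ℕ) (σ : List ℕ) (j : ℕ) : Prop :=
  ∃ t, i < g t ∧ Seg g (t + 1) σ ∧ g (t + 1 + σ.length) = j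

/-- `(i ; σ ; j)`, left end exact, right end longer. -/
def BA (g : ℕ → ℕ) (i : ℕ) (σ : List ℕ) (j : ℕ) : Prop :=
  ∃ t, g t = i ∧ Seg g (t + 1) σ ∧ j < g (t + 1 + σ.length)

/-- `(i ; σ ; j)`, both ends longer. -/
def AA (g : ℕ → ℕ) (i : ℕ) (σ : List ℕ) (j : ℕ) : Prop :=
  ∃ t, i < g t ∧ Seg g (t + 1) σ ∧ j < g (t + 1 + σ.length)

/-- All four extensions. -/
def Strong (g : ℕ → ℕ) (i : ℕ) (σ : List ℕ) (j : ℕ) : Prop :=
  BB g i σ j ∧ AB g i σ j ∧ BA g i σ j ∧ AA g i σ j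

/-- Left special and right special, but only two extensions. -/
def Weak (g : ℕ → ℕ) (i : ℕ) (σ : List ℕ) (j : ℕ) : Prop :=
  (BB g i σ j ∧ AA g i σ j ∧ ¬ AB g i σ j ∧ ¬ BA g i σ j) ∨
  (AB g i σ j ∧ BA g i σ j ∧ ¬ AA g i σ j ∧ ¬ BB g i σ j)

/-- The strong words of level `N`. -/
def SS (g : ℕ → ℕ) (N : ℕ) : Set (ℕ × List ℕ × ℕ) :=
  {w | Strong g w.1 w.2.1 w.2.2 ∧ w.1 + w.2.1.sum + w.2.2 = N}

/-- The weak words of level `N`. -/
def WS (g : ℕ → ℕ) (N : ℕ) : Set (ℕ × List ℕ × ℕ) :=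
  {w | Weak g w.1 w.2.1 w.2.2 ∧ w.1 + w.2.1.sum + w.2.2 = N}

/-- The weak words of level `N` other than the two-run words `(i ; ; j)` with `old i j`. -/
def OW (g : ℕ → ℕ) (old : ℕ → ℕ → Prop) (N : ℕ) : Set (ℕ × List ℕ × ℕ) :=
  {w | Weak g w.1 w.2.1 w.2.2 ∧ w.1 + w.2.1.sum + w.2.2 = N ∧ ¬ (w.2.1 = [] ∧ old w.1 w.2.2)}

open scoped Classical in
/-- The level equation with defect `d`, for the levels strictly between `lo` and `hi`. -/
def RLE (g : ℕ → ℕ) (old : ℕ → ℕ → Prop) (d : ℕ → ℤ) (lo hi : ℕ) : Prop :=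
  ∀ N, lo < N → N < hi → ((OW g old N).ncard : ℤ) + d N =
    (SS g N).ncard + (if N ∈ Set.range g then 1 else 0)

/-- Arbitrarily long runs stand side by side. -/
def GB (g : ℕ → ℕ) : Prop := ∀ N, ∃ t, N ≤ g t ∧ N ≤ g (t + 1)

/-- The link from `a` to `b` is the only one out of `a` and the only one into `b`. -/
structure Uq (g : ℕ → ℕ) (a b : ℕ) : Prop where
  adj : Adj g a b
  out : ∀ x, Adj g a x → x = b
  inn : ∀ x, Adj g x b → x = a

/-- What a word `(i ; σ ; j)` satisfies if it is left special and right special. -/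
structure Bi (g : ℕ → ℕ) (i : ℕ) (σ : List ℕ) (j : ℕ) : Prop where
  l1 : ∃ t, g t = i ∧ Seg g (t + 1) σ
  l2 : ∃ t, i < g t ∧ Seg g (t + 1) σ
  r1 : ∃ t, Seg g t σ ∧ g (t + σ.length) = j
  r2 : ∃ t, Seg g t σ ∧ j < g (t + σ.length)

end Pool.Agent.CF2
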