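import Pool.Agent.CF2.Struct
import Pool.Agent.CF2.Defs

/-!
# The base and the windows: from complexity values to a block word
-/

namespace Pool.Agent.CF2

open Pool.Agent.Helper79.CF

/-- The window `(G, n')` with the increases at `S`: slope two at `G`, at least twenty increases of
the slope soon after, and again slope two at `n'`. -/
structure Win (f : ℕ → ℕ) (G n' : ℕ) (S : Finset ℕ) : Prop where
  s1 : f (G + 1) = f G + 2
  s2 : f (n' + 1) = f n' + 2
  n1 : n' ≤ 2 * G + 2 ^ 21
  c : 20 ≤ S.card
  S1 : ∀ x ∈ S, G ≤ x ∧ x + 1 ≤ n' ∧ x ≤ G + 2 ^ 21 ∧ 2 * f (x + 1) < f (x + 2) + f x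

/-- Exchanging the two letters does not change the complexity. -/
theorem complexity_not (u : ℕ → Bool) (n : ℕ) : complexity (fun i => !u i) n = complexity u n := by
  have h : factors (fun i => !u i) n = (fun w : Fin n → Bool => fun j => !w j) '' factors u n := by
    ext w
    constructor
    · rintro ⟨i, rfl⟩
      exact ⟨_, ⟨i, rfl⟩, rfl⟩
    · rintro ⟨_, ⟨i, rfl⟩, rfl⟩
      exact ⟨i, rfl⟩
  unfold complexity
  rw [h]
  apply Set.ncard_image_of_injective
  intro w w' hw
  funext j
  have := congrFun hw j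
  simpa using this

theorem complexity_mono (u : ℕ → Bool) : Monotone (complexity u) :=
  monotone_nat_of_le_succ fun n => by rw [complexity_succ]; omega

theorem ncard_slope {u : ℕ → Bool} {n k : ℕ} (h : complexity u (n + 1) = complexity u n + k) :
    (RS u n false true).ncard = k := by
  have := complexity_succ u n
  omega

/-- If the complexity is unbounded then both letters occur arbitrarily late. -/
theorem inf_true {u : ℕ → Bool} (hunb : ∀ N, ∃ G, N ≤ G ∧ complexity u (G + 1) = complexity u G + 2) :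
    ∀ N, ∃ i, N ≤ i ∧ u i = true := by
  by_contra hno
  push Not at hno
  obtain ⟨N, hN⟩ := hno
  have hN' : ∀ i, N ≤ i → u i = false := fun i hi => by
    have := hN i hi
    simpa using this
  -- the complexity is at most N + 1
  have hle : ∀ n, complexity u n ≤ N + 1 := by
    intro n
    have hsub : factors u n ⊆ (fun i : ℕ => fun j : Fin n => u (i + j)) '' (Finset.range (N + 1)) := by
      rintro _ ⟨i, rfl⟩
      rcases Nat.lt_or_ge i (N + 1) with h | h
      · exact ⟨i, by simpa using h, rfl⟩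
      · refine ⟨N, by simp, ?_⟩
        funext j
        simp only
        rw [hN' _ (by omega), hN' _ (by omega)]
    have h1 := Set.ncard_le_ncard hsub (Set.toFinite _)
    have h2 := Set.ncard_image_le (f := fun i : ℕ => fun j : Fin n => u (i + j))
      (Finset.finite_toSet (Finset.range (N + 1)))
    rw [Set.ncard_coe_finset, Finset.card_range] at h2
    exact h1.trans h2
  -- but it increases
  have hgr : ∀ k : ℕ, ∃ n, k ≤ complexity u n := by
    intro k
    induction k with
    | zero => exact ⟨0, Nat.zero_le _⟩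
    | succ k ih =>
      obtain ⟨n, hn⟩ := ih
      obtain ⟨G, hG, hG2⟩ := hunb n
      have := complexity_mono u hG
      exact ⟨G + 1, by omega⟩
  obtain ⟨n, hn⟩ := hgr (N + 2)
  have := hle n
  omega

/-- The core of the statement, when the letter with the long runs is `false`. -/
theorem basew_core {u : ℕ → Bool} {M : ℕ} (hM : 2 ^ 21 ≤ M)
    (h1 : ∀ n ≤ M + 1, complexity u n = n + 1) (h2 : complexity u (M + 2) = M + 4)
    (h3 : complexity u (M + 3) = M + 7) (h4 : complexity u (M + 4) = M + 9)
    (hw : ∀ N, ∃ G n' S, N ≤ G ∧ Win (complexity u) G n' S)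
    (hr1 : ∀ i j, IsRun u false i j → M ≤ j) (hr2 : ∃ i, IsRun u false i M)
    (hr3 : ∃ i, IsRun u false i (M + 1)) :
    ∃ y g : ℕ → ℕ, u = blk y ∧ (∀ t, 0 < y t) ∧ (∀ t, y (t + 1) = g t) ∧
      (y 0 = 2 ∧ g 0 = M + 1 ∨ y 0 = 1 ∧ g 0 = M + 2) ∧ (∀ t, g t = g 0 → t = 0) ∧
      (∀ t, M + 1 ≤ g t) ∧ (∃ t, g t = M + 1) ∧ (∃ t, g t = M + 2) ∧
      M + 3 ∉ Set.range g ∧ GB g := by
  classical
  have hinf : ∀ N, ∃ i, N ≤ i ∧ u i = true := inf_true fun N => by
    obtain ⟨G, n', S, h5, h6⟩ := hw N
    exact ⟨G, h5, h6.s1⟩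
  -- the letters b are far apart
  have hfar : Far u M := by
    -- consecutive ones
    have key : ∀ i j, i < j → u i = true → u j = true → (∀ r, i < r → r < j → u r = false) →
        i + M < j := by
      intro i j hij hi hj hb
      have h5 : IsRun u false i (j - i - 1) := by
        refine ⟨by simpa using hi, fun r hr => hb _ (by omega) (by omega), ?_⟩
        rw [show i + 1 + (j - i - 1) = j by omega]
        simpa using hj
      have := hr1 _ _ h5
      omega
    intro i j
    induction j using Nat.strong_induction_on with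
    | _ j ih =>
      intro hij hi hj
      by_cases hb : ∀ r, i < r → r < j → u r = false
      · exact key i j hij hi hj hb
      · push Not at hb
        obtain ⟨r, h5, h6, h7⟩ := hb
        have := ih r h6 h5 hi (by simpa using h7)
        omega
  obtain ⟨y, hy, rfl⟩ := exists_blk hinf
  obtain ⟨N0, hN0⟩ := exists_rs_pos (blk y)
  -- unbounded runs
  have hstr : ∀ {G n' : ℕ} {S : Finset ℕ}, 2 ^ 22 ≤ G → Win (complexity (blk y)) G n' S →
      14 ≤ (S.filter fun x => RSB (blk y) x).card := by
    intro G n' S hG hW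
    have h5 := window_strong (S := S.filter fun x => ¬ RSB (blk y) x) (T := 2 ^ 21) (G := G)
      hfar hM (by omega) (ncard_slope hW.s1) (fun x hx => by
        rw [Finset.mem_filter] at hx
        obtain ⟨h6, h7, h8, h9⟩ := hW.S1 x hx.1
        refine ⟨h6, h8, ?_⟩
        have e1 := complexity_succ (blk y) x
        have e2 := complexity_succ (blk y) (x + 1)
        rw [show x + 1 + 1 = x + 2 from rfl] at e2
        omega) (fun x hx => (Finset.mem_filter.1 hx).2)
    have h6 := Finset.card_filter_add_card_filter_not (s := S) (fun x => RSB (blk y) x)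
    have := hW.c
    omega
  have hP1 : ∀ N, ∃ i, ∀ r < N, blk y (i + r) = false := by
    intro N
    obtain ⟨G, n', S, h5, h6⟩ := hw (N + 2 ^ 22)
    have h7 := hstr (by omega) h6
    obtain ⟨x, hx⟩ := Finset.card_pos.1 (show 0 < (S.filter fun x => RSB (blk y) x).card by omega)
    rw [Finset.mem_filter] at hx
    obtain ⟨i, _, h8, _⟩ := hx.2 true
    have := (h6.S1 x hx.1).1
    exact ⟨i + 1, fun r hr => h8 r (by omega)⟩
  -- GB
  have hGB : ∀ N, ∃ t, 1 ≤ t ∧ N ≤ y t ∧ N ≤ y (t + 1) := by
    intro N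
    obtain ⟨G, n', S, h5, h6⟩ := hw (N + 2 ^ 22 + N0 + y 0)
    have h7 := hstr (by omega) h6
    by_contra hno
    have h8 := window_gb (u := blk y) (T := 2 ^ 21) (G := G) (n' := n') hfar hM (by omega)
      (ncard_slope h6.s1) (ncard_slope h6.s2) (fun n hn => hN0 n (by omega))
      (S.filter fun x => RSB (blk y) x) (fun x hx => by
        rw [Finset.mem_filter] at hx
        obtain ⟨h6, h7, h8, h9⟩ := h6.S1 x hx.1
        exact ⟨h6, h7⟩) h6.n1 (fun x hx => (Finset.mem_filter.1 hx).2) hP1 hinf (by
        rintro ⟨i, k1, k2, k3⟩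
        apply hno
        -- the word a^G b a^G in terms of blocks
        have k4 := (occ_iff hy (b := G + 1) (by omega) [] (G + 1) i (by omega) (by simp)).1 (by
          intro r hr
          simp only [List.sum_nil] at hr
          simp only [pat]
          rcases Nat.lt_trichotomy r G with h | h | h
          · rw [k1 r h]; symm; simp; omega
          · rw [h, k2]; symm; simp
          · have := k3 (r - G - 1) (by omega)
            rw [show i + G + 1 + (r - G - 1) = i + r by omega] at this
            rw [this]; symm; simp; omega)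
        obtain ⟨t, k5, k6, _, k7⟩ := k4
        simp only [List.length_nil, add_zero] at k7
        refine ⟨t, ?_, by omega, by omega⟩
        rcases Nat.eq_zero_or_pos t with rfl | ht
        · omega
        · exact ht)
    omega
  have hunb : ∀ N, ∃ t, 1 ≤ t ∧ N < y t := by
    intro N
    obtain ⟨t, h5, h6, _⟩ := hGB (N + 1)
    exact ⟨t, h5, h6⟩
  -- complete blocks are long
  have hlong : ∀ t, 1 ≤ t → M + 1 ≤ y t := by
    intro t ht
    obtain ⟨s, rfl⟩ : ∃ s, t = s + 1 := ⟨t - 1, by omega⟩
    have e1 : blk y (psum y (s + 1) - 1) = true := by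
      rw [blk_true]
      refine ⟨s, ?_⟩
      have := hy s
      have := psum_succ y s
      omega
    have e2 : blk y (psum y (s + 2) - 1) = true := by
      rw [blk_true]
      refine ⟨s + 1, ?_⟩
      have := hy (s + 1)
      have := psum_succ y (s + 1)
      rw [show s + 1 + 1 = s + 2 from rfl] at this ⊢
      omega
    have e3 := psum_succ y (s + 1)
    have e4 := psum_succ y s
    have := hy s
    have := hy (s + 1)
    rw [show s + 1 + 1 = s + 2 from rfl] at e3
    have := hfar _ _ (by omega) e1 e2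
    omega
  -- the two values
  have hval : ∀ j, (∃ i, IsRun (blk y) false i j) → VV y (j + 1) := by
    rintro j ⟨i, k1, k2, k3⟩
    have k1' : blk y i = true := by simpa using k1
    have k3' : blk y (i + 1 + j) = true := by simpa using k3
    obtain ⟨s, hs⟩ := blk_true.1 k1'
    refine ⟨s + 1, by omega, ?_⟩
    have e3 := psum_succ y (s + 1)
    have hp := hy (s + 1)
    rcases Nat.lt_trichotomy (y (s + 1)) (j + 1) with h | h | h
    · exfalso
      have e1 : blk y (psum y (s + 2) - 1) = true := by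
        rw [blk_true]
        refine ⟨s + 1, ?_⟩
        rw [show s + 1 + 1 = s + 2 from rfl] at e3 ⊢
        omega
      rw [show s + 1 + 1 = s + 2 from rfl] at e3
      have := k2 (psum y (s + 2) - 1 - (i + 1)) (by omega)
      rw [show i + 1 + (psum y (s + 2) - 1 - (i + 1)) = psum y (s + 2) - 1 by omega, e1] at this
      simp at this
    · exact h
    · exfalso
      have := blk_mid hy (s + 1) (i + 1 + j) (by omega) (by omega)
      rw [k3'] at this
      simp at this
  have hv1 : VV y (M + 1) := hval _ hr2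
  have hv2 : VV y (M + 2) := hval _ hr3
  have hVlong : ∀ x, VV y x → M + 1 ≤ x := by
    rintro x ⟨t, k1, rfl⟩
    exact hlong t k1
  -- no strong shapes below 2M + 2
  have hSt : ∀ N, 1 ≤ N → N ≤ M + 3 → (StSet y N) = ∅ := by
    intro N hN1 hN2
    rw [Set.eq_empty_iff_forall_notMem]
    rintro ⟨a, m⟩ ⟨p1, p2, p3, p4⟩
    simp only at p1 p2 p3 p4
    obtain ⟨_, ⟨⟨t, k1, k2, k3⟩, _⟩⟩ := p4
    have k4 := hlong (t + 1) (by omega)
    have k5 := hlong (t + 1 + (a :: m).length) (by omega)
    have k6 := k2.1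
    omega
  -- weak shapes below M + 3
  have hWk : ∀ N, 1 ≤ N → N ≤ M + 3 → ∀ a m, (a, m) ∈ WkSet y N →
      m = [] ∧ M + 1 ≤ N - a ∧ 1 ≤ a ∧ WkS y a [] (N - a) := by
    rintro N hN1 hN2 a m ⟨p1, p2, p3, p4⟩
    simp only at p1 p2 p3 p4
    obtain ⟨⟨⟨t, k1, k2, k3⟩, _⟩, _⟩ := id p4
    have k5 := hlong (t + 1 + m.length) (by omega)
    have hm : m = [] := by
      cases m with
      | nil => rfl
      | cons x m =>
        exfalso
        have k6 := k2.1
        have k7 := hlong (t + 1) (by omega)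
        simp only [List.sum_cons] at p3 k3
        omega
    subst hm
    simp only [List.sum_nil, Nat.sub_zero] at p4 k3 p3
    exact ⟨rfl, by omega, p1, p4⟩
  -- slopes
  have hs1 : slope y (M + 1) = 2 := by
    have e := h1 (M + 1) le_rfl
    have := complexity_succ (blk y) (M + 1)
    rw [show M + 1 + 1 = M + 2 from rfl] at this
    unfold slope; omega
  have hs2 : slope y (M + 2) = 3 := by
    have := complexity_succ (blk y) (M + 2)
    rw [show M + 2 + 1 = M + 3 from rfl] at this
    unfold slope; omega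
  have hs3 : slope y (M + 3) = 2 := by
    have := complexity_succ (blk y) (M + 3)
    rw [show M + 3 + 1 = M + 4 from rfl] at this
    unfold slope; omega
  have hl2 := level_identity hy hunb (M + 1)
  have hl3 := level_identity hy hunb (M + 2)
  have hgb2 : ∀ b, ∃ t, 1 ≤ t ∧ b < y t ∧ b < y (t + 1) := by
    intro b
    obtain ⟨t, k1, k2, k3⟩ := hGB (b + 1)
    exact ⟨t, k1, k2, k3⟩
  -- what a weak shape says
  have hwk : ∀ a b, a ≤ M → M + 1 ≤ b → WkS y a [] b → y 0 = a ∧ y 1 = b ∧ ∀ t, 2 ≤ t → y t ≠ b := by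
    intro a b ha hb hwab
    obtain ⟨⟨⟨t, k1, _, k3⟩, _⟩, k4, _⟩ := hwab
    simp only [List.length_nil, add_zero] at k3
    have key : ∀ t, a + 1 ≤ y t → y (t + 1) ≠ b := by
      intro t ht he
      apply k4
      obtain ⟨s, s1, s2, s3⟩ := hgb2 b
      refine ⟨⟨t, ht, trivial, by simpa using he⟩, ⟨s, ?_, trivial, by simpa using s3⟩⟩
      have := hlong s s1
      omega
    have key2 : ∀ t, 1 ≤ t → y (t + 1) ≠ b := by
      intro t ht
      have := hlong t ht
      exact key t (by omega)
    have ht0 : t = 0 := by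
      by_contra hne
      exact key2 t (by omega) k3
    subst ht0
    refine ⟨?_, k3, ?_⟩
    · by_contra hne
      exact key 0 (by omega) k3
    · intro t ht
      obtain ⟨s, rfl⟩ : ∃ s, t = s + 1 := ⟨t - 1, by omega⟩
      exact key2 s (by omega)
  have hfin : ∃ a m, (a, m) ∈ WkSet y (M + 3) := by
    have h5 : (WkSet y (M + 3)).ncard ≠ 0 := by
      unfold slope at hs2 hs3
      rw [show M + 2 + 1 = M + 3 from rfl, hSt (M + 3) (by omega) le_rfl, Set.ncard_empty] at hl3
      split_ifs at hl3 <;> omega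
    obtain ⟨⟨a, m⟩, h6⟩ := Set.nonempty_of_ncard_ne_zero h5
    exact ⟨a, m, h6⟩
  obtain ⟨a, m, ham⟩ := hfin
  obtain ⟨rfl, p2, p3, p4⟩ := hWk (M + 3) (by omega) le_rfl a m ham
  obtain ⟨q1, q2, q3⟩ := hwk a (M + 3 - a) (by omega) p2 p4
  -- no run `M + 3`
  have hnv : ¬ VV y (M + 3) := by
    intro hv
    have hsub : WkSet y (M + 3) ⊆ {(a, [])} := by
      rintro ⟨a', m'⟩ ham'
      obtain ⟨rfl, p2', p3', p4'⟩ := hWk (M + 3) (by omega) le_rfl a' m' ham'
      obtain ⟨q1', _, _⟩ := hwk a' (M + 3 - a') (by omega) p2' p4'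
      rw [Set.mem_singleton_iff, ← q1', q1]
    have hc := Set.ncard_le_ncard hsub (Set.toFinite _)
    rw [Set.ncard_singleton] at hc
    unfold slope at hs2 hs3
    rw [show M + 2 + 1 = M + 3 from rfl, hSt (M + 3) (by omega) le_rfl, Set.ncard_empty,
      if_pos hv] at hl3
    omega
  refine ⟨y, fun t => y (t + 1), rfl, hy, fun t => rfl, ?_, ?_, fun t => hlong _ (by omega), ?_, ?_,
    ?_, ?_⟩
  · have : a = 1 ∨ a = 2 := by omega
    rcases this with rfl | rfl
    · right; exact ⟨q1, by simpa using q2⟩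
    · left; exact ⟨q1, by simpa using q2⟩
  · intro t ht
    by_contra hne
    exact q3 (t + 1) (by omega) (by rw [← q2]; simpa using ht)
  · obtain ⟨t, k1, k2⟩ := hv1
    exact ⟨t - 1, by simp only; rw [Nat.sub_add_cancel k1]; exact k2⟩
  · obtain ⟨t, k1, k2⟩ := hv2
    exact ⟨t - 1, by simp only; rw [Nat.sub_add_cancel k1]; exact k2⟩
  · rintro ⟨t, ht⟩
    exact hnv ⟨t + 1, by omega, ht⟩
  · intro N
    obtain ⟨t, k1, k2, k3⟩ := hGB N
    refine ⟨t - 1, ?_, ?_⟩
    · simp only; rw [Nat.sub_add_cancel k1]; exact k2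
    · simp only; rw [Nat.sub_add_cancel k1]; exact k3

/-- **Base.** The complexity values of the base and of the windows make `u`, up to an exchange of
the letters, a block word whose first block `y 0` and whose further blocks `g` are as in the
design. -/
theorem basew {u : ℕ → Bool} {M : ℕ} (hM : 2 ^ 21 ≤ M)
    (h1 : ∀ n ≤ M + 1, complexity u n = n + 1) (h2 : complexity u (M + 2) = M + 4)
    (h3 : complexity u (M + 3) = M + 7) (h4 : complexity u (M + 4) = M + 9)
    (hw : ∀ N, ∃ G n' S, N ≤ G ∧ Win (complexity u) G n' S) :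
    ∃ y g : ℕ → ℕ, (u = blk y ∨ u = fun i => !blk y i) ∧ (∀ t, 0 < y t) ∧
      (∀ t, y (t + 1) = g t) ∧
      (y 0 = 2 ∧ g 0 = M + 1 ∨ y 0 = 1 ∧ g 0 = M + 2) ∧ (∀ t, g t = g 0 → t = 0) ∧
      (∀ t, M + 1 ≤ g t) ∧ (∃ t, g t = M + 1) ∧ (∃ t, g t = M + 2) ∧
      M + 3 ∉ Set.range g ∧ GB g := by
  obtain ⟨a, ha1, ha2, ha3⟩ := base h1 h2 h3
  cases a with
  | false =>
    obtain ⟨y, g, e, k⟩ := basew_core hM h1 h2 h3 h4 hw ha1 ha2 ha3
    exact ⟨y, g, Or.inl e, k⟩
  | true =>
    have hrun : ∀ i j, IsRun (fun i => !u i) false i j ↔ IsRun u true i j := by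
      intro i j
      simp [IsRun]
    have hc : complexity (fun i => !u i) = complexity u := funext (complexity_not u)
    obtain ⟨y, g, e, k⟩ := basew_core (u := fun i => !u i) hM (by rw [hc]; exact h1)
      (by rw [hc]; exact h2) (by rw [hc]; exact h3) (by rw [hc]; exact h4) (by rw [hc]; exact hw)
      (fun i j h => ha1 i j ((hrun i j).1 h)) (by
        obtain ⟨i, hi⟩ := ha2
        exact ⟨i, (hrun i _).2 hi⟩) (by
        obtain ⟨i, hi⟩ := ha3
        exact ⟨i, (hrun i _).2 hi⟩)
    refine ⟨y, g, Or.inr ?_, k⟩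
    funext i
    have := congrFun e i
    rw [← this, Bool.not_not]

end Pool.Agent.CF2
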