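import Pool.Agent.CF2.Num

/-!
# CF2: the slope is at most 22, and the function is at most `22 n + 1`
-/

namespace Pool.Agent.CF2

theorem sum_count_le (L : List ℕ) (N : ℕ) :
    ∑ m ∈ Finset.range (N + 1), (L.count m : ℤ) ≤ L.length := by
  have h1 : ∑ m ∈ Finset.range (N + 1), (L.filter (fun x => decide (x ≤ N))).count m
      = (L.filter (fun x => decide (x ≤ N))).length := by
    have := sum_count_eq (L := L.filter (fun x => decide (x ≤ N))) (N := N)
      (fun x hx => by simpa using (List.mem_filter.1 hx).2)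
    exact_mod_cast this
  have h2 : ∑ m ∈ Finset.range (N + 1), L.count m
      = ∑ m ∈ Finset.range (N + 1), (L.filter (fun x => decide (x ≤ N))).count m := by
    refine Finset.sum_congr rfl fun m hm => ?_
    have hm' := Finset.mem_range.1 hm
    rw [List.count_filter (by simp; omega)]
  have h3 : ∑ m ∈ Finset.range (N + 1), L.count m ≤ L.length := by
    rw [h2, h1]
    exact List.length_filter_le _ _
  exact_mod_cast h3

theorem length_U_le (T : ℕ → Prop) (n : ℕ) : (U T n).length ≤ 20 := by
  by_cases h : n % 7 = 6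
  · rw [U, if_pos h]
    simp [gU]
  · rw [U, if_neg h]
    simp [wU]

theorem sum_sc_le (T : ℕ → Prop) (n N : ℕ) :
    ∑ m ∈ Finset.range (N + 1), sc T n m ≤ 20 := by
  unfold sc
  rw [Finset.sum_sub_distrib]
  have h1 := sum_count_le (U T n) N
  have h2 : (0 : ℤ) ≤ ∑ m ∈ Finset.range (N + 1), ((D T n).count m : ℤ) :=
    Finset.sum_nonneg fun m _ => Int.natCast_nonneg _
  have h3 : ((U T n).length : ℤ) ≤ 20 := by exact_mod_cast length_U_le T n
  linarith

theorem sum_bc_le (N : ℕ) : ∑ m ∈ Finset.range (N + 1), bc m ≤ 6 := by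
  unfold bc
  rw [Finset.sum_sub_distrib]
  have h1 := sum_count_le bU N
  have h2 : (0 : ℤ) ≤ ∑ m ∈ Finset.range (N + 1), (bD.count m : ℤ) :=
    Finset.sum_nonneg fun m _ => Int.natCast_nonneg _
  have h3 : (bU.length : ℤ) = 6 := rfl
  linarith

/-- The stage of a level. -/
theorem exists_stage (T : ℕ → Prop) {N : ℕ} (h : GG p0 ≤ N) :
    ∃ n, GG (P T n) ≤ N ∧ N < GG (P T (n + 1)) := by
  classical
  have hex : ∃ m, N < GG (P T m) := by
    refine ⟨N, ?_⟩
    have h1 := P_ge T N
    have h2 : 0 < p0 := by unfold p0; norm_num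
    unfold GG
    omega
  obtain ⟨n, hn⟩ : ∃ n, Nat.find hex = n + 1 := by
    refine Nat.exists_eq_succ_of_ne_zero fun h0 => ?_
    have h1 := Nat.find_spec hex
    rw [h0, P_zero] at h1
    omega
  refine ⟨n, ?_, ?_⟩
  · exact not_lt.1 (Nat.find_min hex (by omega))
  · have := Nat.find_spec hex
    rwa [hn] at this

/-- The slope is at most 22. -/
theorem sl_le (T : ℕ → Prop) (N : ℕ) : sl T N ≤ 22 := by
  by_cases h : N < GG p0
  · unfold sl
    rw [Finset.sum_congr rfl (fun m hm => dl_small (T := T) (N := m) (by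
      have := Finset.mem_range.1 hm
      omega))]
    have := sum_bc_le N
    linarith
  · obtain ⟨n, h1, h2⟩ := exists_stage T (not_lt.1 h)
    rw [sl_eq h1 h2]
    have := sum_sc_le T n N
    linarith

theorem ff_le (T : ℕ → Prop) (n : ℕ) : ff T n ≤ 22 * n + 1 := by
  unfold ff
  have h : ∑ m ∈ Finset.range n, sl T m ≤ ∑ _m ∈ Finset.range n, (22 : ℤ) :=
    Finset.sum_le_sum fun m _ => sl_le T m
  rw [Finset.sum_const, Finset.card_range, nsmul_eq_mul] at h
  linarith

/-- The function grows at most linearly. -/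
theorem FF_le (T : ℕ → Prop) (n : ℕ) : FF T n ≤ 22 * n + 1 := by
  have h := ff_le T n
  unfold FF
  rw [Int.toNat_le]
  push_cast
  exact h

end Pool.Agent.CF2
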