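import Pool.Agent.CF2.Suff
import Pool.Agent.CF2.BAL

/-!
# CF2: an infinite branch gives a word
-/

namespace Pool.Agent.CF2

open Pool.Agent.Helper79.CF

/-! ### The numerical states along the branch -/

/-- The states along the branch `a`: the list `A`, the list `Q` and the index in the branch. -/
noncomputable def sst (T : ℕ → Prop) (a : ℕ → ℕ) : ℕ → List ℕ × List ℕ × ℕ
  | 0 => ([MM + 1, MM + 2, p0], [3 * MM, p0 - 1, p0 + 2 ^ 19], 0)
  | n + 1 =>
    if n % 7 = 6 then
      if n / 7 + 1 = nd a ((sst T a n).2.2 + 1) then
        ((sst T a n).1 ++ [GG (P T n)] ++ (sst T a n).2.1 ++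
            [gB (P T n), GG (P T n) + nu T n, gY (P T n) (nu T n)],
          [gC (P T n) (nu T n), gY (P T n) (nu T n) - 1, gY (P T n) (nu T n) + 2 ^ 19],
          (sst T a n).2.2 + 1)
      else ((sst T a n).1 ++ [GG (P T n), gY (P T n) (nu T n)],
        (sst T a n).2.1 ++ [gB (P T n), gC (P T n) (nu T n), gY (P T n) (nu T n) - 1,
          gY (P T n) (nu T n) + 2 ^ 19], (sst T a n).2.2)
    else ((sst T a n).1 ++ odd10 (GG (P T n)), (sst T a n).2.1 ++ even10 (GG (P T n)),
      (sst T a n).2.2)

theorem nd_lt (a : ℕ → ℕ) (k : ℕ) : nd a k < nd a (k + 1) := by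
  have h := Nat.left_le_pair (nd a k) (a k)
  show nd a k < Nat.pair (nd a k) (a k) + 1
  omega

theorem nd_mono (a : ℕ → ℕ) : StrictMono (nd a) := strictMono_nat_of_lt_succ (nd_lt a)

theorem nd_ge (a : ℕ → ℕ) (k : ℕ) : k ≤ nd a k := (nd_mono a).le_apply

/-- What is known about a numerical state. -/
structure Gst (T : ℕ → Prop) (a : ℕ → ℕ) (n : ℕ) (A Q : List ℕ) (k : ℕ) : Prop where
  inv : Inv T n A Q (nd a k)
  nodup : (A ++ Q).Nodup
  low : ∀ x ∈ A ++ Q, MM + 1 ≤ x
  high : ∀ x ∈ A ++ Q, x ≤ P T n + 2 ^ 19
  k1 : 7 * nd a k ≤ n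
  k2 : n < 7 * nd a (k + 1)
  len : n + 3 ≤ A.length
  head : ∃ s, A = (MM + 1) :: s

theorem suf_nodup {A A' : List ℕ} {z : ℕ} (h1 : A.Nodup) (h2 : ∀ x ∈ A, x ≤ z)
    (h3 : A'.Nodup) (h4 : ∀ x ∈ A', z < x) : (A ++ A').Nodup := by
  rw [List.nodup_append]
  refine ⟨h1, h3, fun x hx y hy hxy => ?_⟩
  have := h2 x hx
  have := h4 y hy
  omega

theorem suf_perm (A Q R S : List ℕ) : List.Perm ((A ++ R) ++ (Q ++ S)) ((A ++ Q) ++ (R ++ S)) := by
  rw [← Multiset.coe_eq_coe]
  simp only [← Multiset.coe_add]
  abel

theorem suf_perm2 (A Q R S : List ℕ) (g : ℕ) :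
    List.Perm ((A ++ [g] ++ Q ++ R) ++ S) ((A ++ Q) ++ ([g] ++ R ++ S)) := by
  rw [← Multiset.coe_eq_coe]
  simp only [← Multiset.coe_add]
  abel

theorem suf_odd {G x : ℕ} (h : x ∈ odd10 G) : G < x ∧ x ≤ G + 2 ^ 19 := by
  simp only [odd10, List.mem_cons, List.not_mem_nil, or_false] at h
  norm_num at h ⊢
  omega

theorem suf_even {G x : ℕ} (h : x ∈ even10 G) : G < x ∧ x ≤ G + 2 ^ 20 := by
  simp only [even10, List.mem_cons, List.not_mem_nil, or_false] at h
  norm_num at h ⊢
  omega

theorem suf_oe (G : ℕ) : (odd10 G ++ even10 G).Nodup := by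
  simp [odd10, even10]

theorem gst_zero (T : ℕ → Prop) (a : ℕ → ℕ) :
    Gst T a 0 (sst T a 0).1 (sst T a 0).2.1 (sst T a 0).2.2 := by
  have hM : MM = 2 ^ 30 := rfl
  have hp : p0 = 9 * 2 ^ 29 := rfl
  refine ⟨inv_zero T, ?_, ?_, ?_, by simp [sst, nd], ?_, by simp [sst], ⟨_, rfl⟩⟩
  · simp only [sst, List.cons_append, List.nil_append, List.nodup_cons, List.mem_cons,
      List.not_mem_nil, or_false, not_or, List.nodup_nil, not_false_eq_true, and_true]
    omega
  · intro x hx
    simp only [sst, List.cons_append, List.nil_append, List.mem_cons, List.not_mem_nil,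
      or_false] at hx
    omega
  · intro x hx
    rw [P_zero]
    simp only [sst, List.cons_append, List.nil_append, List.mem_cons, List.not_mem_nil,
      or_false] at hx
    omega
  · have h1 := nd_ge a 1
    show 0 < 7 * nd a 1
    omega

/-- The new numbers of a gadget. -/
theorem suf_gadget {T : ℕ → Prop} {n : ℕ} (h6 : n % 7 = 6) :
    P T n + 2 ^ 19 < GG (P T n) ∧ GG (P T n) < GG (P T n) + nu T n ∧
    GG (P T n) + nu T n < gC (P T n) (nu T n) ∧ gC (P T n) (nu T n) < gB (P T n) ∧
    gB (P T n) < gY (P T n) (nu T n) - 1 ∧ gY (P T n) (nu T n) - 1 < gY (P T n) (nu T n) := by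
  obtain ⟨h1, h2⟩ := nu_small (T := T) h6
  have hP := p0_le T n
  have hp : p0 = 9 * 2 ^ 29 := rfl
  have hB : gB (P T n) = GG (P T n) + 7 * (P T n / 10) := rfl
  have hC : gC (P T n) (nu T n) = GG (P T n) + 2 * nu T n := rfl
  have hY : gY (P T n) (nu T n) = gB (P T n) + nu T n := rfl
  have hG : GG (P T n) = P T n + (P T n + 2 ^ 19) + 2 ^ 22 := rfl
  refine ⟨?_, ?_, ?_, ?_, ?_, ?_⟩ <;> omega

theorem gst_succ {T : ℕ → Prop} {a : ℕ → ℕ} (ha : ∀ k, T (nd a (k + 1))) {n : ℕ}
    (h : Gst T a n (sst T a n).1 (sst T a n).2.1 (sst T a n).2.2) :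
    Gst T a (n + 1) (sst T a (n + 1)).1 (sst T a (n + 1)).2.1 (sst T a (n + 1)).2.2 := by
  have hP := p0_le T n
  have hp : p0 = 9 * 2 ^ 29 := rfl
  have hM : MM = 2 ^ 30 := rfl
  have hG : GG (P T n) = P T n + (P T n + 2 ^ 19) + 2 ^ 22 := rfl
  have hlt := P_lt_succ T n
  rcases h with ⟨inv, nodup, low, high, k1, k2, len, head⟩
  by_cases h6 : n % 7 = 6
  · obtain ⟨g1, g2, g3, g4, g5, g6⟩ := suf_gadget (T := T) h6
    have hPs := P_gadget (T := T) h6
    by_cases hs : n / 7 + 1 = nd a ((sst T a n).2.2 + 1)
    · -- swap
      have e : sst T a (n + 1) = ((sst T a n).1 ++ [GG (P T n)] ++ (sst T a n).2.1 ++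
            [gB (P T n), GG (P T n) + nu T n, gY (P T n) (nu T n)],
          [gC (P T n) (nu T n), gY (P T n) (nu T n) - 1, gY (P T n) (nu T n) + 2 ^ 19],
          (sst T a n).2.2 + 1) := by
        rw [sst, if_pos h6, if_pos hs]
      rw [e]
      simp only
      generalize (sst T a n).1 = A at *
      generalize (sst T a n).2.1 = Q at *
      generalize (sst T a n).2.2 = k at *
      have hnu : mk T (nd a k) = nu T n := by
        have h1 : T (n / 7 + 1) := by rw [hs]; exact ha k
        have h2 : n / 7 = Nat.pair (nd a k) (a k) := by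
          have : n / 7 + 1 = Nat.pair (nd a k) (a k) + 1 := hs
          omega
        unfold nu
        rw [if_pos h1, h2, Nat.unpair_pair]
      have hmem : ∀ x ∈ (A ++ [GG (P T n)] ++ Q ++
          [gB (P T n), GG (P T n) + nu T n, gY (P T n) (nu T n)]) ++
          [gC (P T n) (nu T n), gY (P T n) (nu T n) - 1, gY (P T n) (nu T n) + 2 ^ 19],
          x ∈ A ++ Q ∨ (P T n + 2 ^ 19 < x ∧ x ≤ gY (P T n) (nu T n) + 2 ^ 19) := by
        intro x hx
        simp only [List.mem_append, List.mem_cons, List.not_mem_nil, or_false] at hx ⊢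
        by_cases hA : x ∈ A
        · exact Or.inl (Or.inl hA)
        by_cases hQ : x ∈ Q
        · exact Or.inl (Or.inr hQ)
        simp only [hA, hQ, false_or, or_false] at hx
        right
        omega
      refine ⟨?_, ?_, ?_, ?_, ?_, ?_, ?_, ?_⟩
      · rw [← hs]
        exact inv_swap h6 inv hnu
      · rw [(suf_perm2 A Q _ _ _).nodup_iff]
        refine suf_nodup nodup high ?_ ?_
        · simp only [List.cons_append, List.nil_append, List.nodup_cons, List.mem_cons,
            List.not_mem_nil, or_false, not_or, List.nodup_nil, not_false_eq_true, and_true]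
          omega
        · intro x hx
          simp only [List.cons_append, List.nil_append, List.mem_cons,
            List.not_mem_nil, or_false] at hx
          omega
      · intro x hx
        rcases hmem x hx with h | h
        · exact low x h
        · omega
      · intro x hx
        rw [hPs]
        rcases hmem x hx with h | h
        · have := high x h
          omega
        · exact h.2
      · omega
      · have := nd_lt a (k + 1)
        omega
      · simp only [List.length_append, List.length_cons, List.length_nil]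
        omega
      · obtain ⟨s, rfl⟩ := head
        exact ⟨_, by simp only [List.cons_append]; rfl⟩
    · -- keep
      have e : sst T a (n + 1) = ((sst T a n).1 ++ [GG (P T n), gY (P T n) (nu T n)],
        (sst T a n).2.1 ++ [gB (P T n), gC (P T n) (nu T n), gY (P T n) (nu T n) - 1,
          gY (P T n) (nu T n) + 2 ^ 19], (sst T a n).2.2) := by
        rw [sst, if_pos h6, if_neg hs]
      rw [e]
      simp only
      generalize (sst T a n).1 = A at *
      generalize (sst T a n).2.1 = Q at *
      generalize (sst T a n).2.2 = k at *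
      have hmem : ∀ x ∈ (A ++ [GG (P T n), gY (P T n) (nu T n)]) ++ (Q ++
          [gB (P T n), gC (P T n) (nu T n), gY (P T n) (nu T n) - 1,
          gY (P T n) (nu T n) + 2 ^ 19]),
          x ∈ A ++ Q ∨ (P T n + 2 ^ 19 < x ∧ x ≤ gY (P T n) (nu T n) + 2 ^ 19) := by
        intro x hx
        simp only [List.mem_append, List.mem_cons, List.not_mem_nil, or_false] at hx ⊢
        by_cases hA : x ∈ A
        · exact Or.inl (Or.inl hA)
        by_cases hQ : x ∈ Q
        · exact Or.inl (Or.inr hQ)
        simp only [hA, hQ, false_or] at hx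
        right
        omega
      refine ⟨?_, ?_, ?_, ?_, ?_, ?_, ?_, ?_⟩
      · exact inv_keep h6 inv
      · rw [(suf_perm A Q _ _).nodup_iff]
        refine suf_nodup nodup high ?_ ?_
        · simp only [List.cons_append, List.nil_append, List.nodup_cons, List.mem_cons,
            List.not_mem_nil, or_false, not_or, List.nodup_nil, not_false_eq_true, and_true]
          omega
        · intro x hx
          simp only [List.cons_append, List.nil_append, List.mem_cons,
            List.not_mem_nil, or_false] at hx
          omega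
      · intro x hx
        rcases hmem x hx with h | h
        · exact low x h
        · omega
      · intro x hx
        rw [hPs]
        rcases hmem x hx with h | h
        · have := high x h
          omega
        · exact h.2
      · omega
      · omega
      · simp only [List.length_append, List.length_cons, List.length_nil]
        omega
      · obtain ⟨s, rfl⟩ := head
        exact ⟨_, by simp only [List.cons_append]; rfl⟩
  · -- window
    have e : sst T a (n + 1) = ((sst T a n).1 ++ odd10 (GG (P T n)),
        (sst T a n).2.1 ++ even10 (GG (P T n)), (sst T a n).2.2) := by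
      rw [sst, if_neg h6]
    rw [e]
    simp only
    generalize (sst T a n).1 = A at *
    generalize (sst T a n).2.1 = Q at *
    generalize (sst T a n).2.2 = k at *
    have hPs := P_window (T := T) h6
    have hmem : ∀ x ∈ (A ++ odd10 (GG (P T n))) ++ (Q ++ even10 (GG (P T n))),
        x ∈ A ++ Q ∨ (GG (P T n) < x ∧ x ≤ GG (P T n) + 2 ^ 20) := by
      intro x hx
      simp only [List.mem_append] at hx ⊢
      rcases hx with (hx | hx) | (hx | hx)
      · exact Or.inl (Or.inl hx)
      · have := suf_odd hx
        right
        omega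
      · exact Or.inl (Or.inr hx)
      · exact Or.inr (suf_even hx)
    refine ⟨inv_window h6 inv, ?_, ?_, ?_, by omega, by omega, ?_, ?_⟩
    · rw [(suf_perm A Q _ _).nodup_iff]
      refine suf_nodup nodup high (suf_oe _) ?_
      intro x hx
      rcases List.mem_append.1 hx with h | h
      · have := suf_odd h
        omega
      · have := suf_even h
        omega
    · intro x hx
      rcases hmem x hx with h | h
      · exact low x h
      · omega
    · intro x hx
      rw [hPs]
      rcases hmem x hx with h | h
      · have := high x h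
        omega
      · omega
    · simp only [List.length_append, odd10, List.length_cons, List.length_nil]
      omega
    · obtain ⟨s, rfl⟩ := head
      exact ⟨_, by simp only [List.cons_append]; rfl⟩

theorem gst {T : ℕ → Prop} {a : ℕ → ℕ} (ha : ∀ k, T (nd a (k + 1))) (n : ℕ) :
    Gst T a n (sst T a n).1 (sst T a n).2.1 (sst T a n).2.2 := by
  induction n with
  | zero => exact gst_zero T a
  | succ n ih => exact gst_succ ha ih

theorem sst_prefix (T : ℕ → Prop) (a : ℕ → ℕ) (n : ℕ) :
    ∃ R, (sst T a (n + 1)).1 = (sst T a n).1 ++ R ∧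
      ∀ x ∈ R ++ (sst T a (n + 1)).2.1, x ∈ (sst T a n).2.1 ∨ P T n < x := by
  have hG : GG (P T n) = P T n + (P T n + 2 ^ 19) + 2 ^ 22 := rfl
  by_cases h6 : n % 7 = 6
  · obtain ⟨g1, g2, g3, g4, g5, g6⟩ := suf_gadget (T := T) h6
    by_cases hs : n / 7 + 1 = nd a ((sst T a n).2.2 + 1)
    · rw [sst, if_pos h6, if_pos hs]
      refine ⟨[GG (P T n)] ++ (sst T a n).2.1 ++
        [gB (P T n), GG (P T n) + nu T n, gY (P T n) (nu T n)], by simp, ?_⟩
      intro x hx
      simp only [List.mem_append, List.mem_cons, List.not_mem_nil, or_false] at hx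
      by_cases hQ : x ∈ (sst T a n).2.1
      · exact Or.inl hQ
      · simp only [hQ, or_false] at hx
        right
        omega
    · rw [sst, if_pos h6, if_neg hs]
      refine ⟨[GG (P T n), gY (P T n) (nu T n)], rfl, ?_⟩
      intro x hx
      simp only [List.mem_append, List.mem_cons, List.not_mem_nil, or_false] at hx
      by_cases hQ : x ∈ (sst T a n).2.1
      · exact Or.inl hQ
      · simp only [hQ, false_or] at hx
        right
        omega
  · rw [sst, if_neg h6]
    refine ⟨odd10 (GG (P T n)), rfl, ?_⟩
    intro x hx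
    simp only [List.mem_append] at hx
    rcases hx with hx | hx | hx
    · have := suf_odd hx
      right
      omega
    · exact Or.inl hx
    · have := suf_even hx
      right
      omega

/-- Once all pending runs are larger than `N`, all later runs are. -/
theorem sst_later {T : ℕ → Prop} {a : ℕ → ℕ} {m N : ℕ} (hN : N ≤ P T m)
    (hQ : ∀ x ∈ (sst T a m).2.1, N < x) {n : ℕ} (h : m ≤ n) :
    ∃ R, (sst T a n).1 = (sst T a m).1 ++ R ∧ ∀ x ∈ R ++ (sst T a n).2.1, N < x := by
  induction n, h using Nat.le_induction with
  | base => exact ⟨[], by simp, by simpa using hQ⟩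
  | succ n hn ih =>
    obtain ⟨R, h1, h2⟩ := ih
    obtain ⟨R', h3, h4⟩ := sst_prefix T a n
    refine ⟨R ++ R', by rw [h3, h1, List.append_assoc], ?_⟩
    have hPm : P T m ≤ P T n := (P_mono T).monotone hn
    intro x hx
    rw [List.append_assoc, List.mem_append] at hx
    rcases hx with hx | hx
    · exact h2 x (List.mem_append.2 (Or.inl hx))
    · rcases h4 x hx with h | h
      · exact h2 x (List.mem_append.2 (Or.inr h))
      · omega

/-- There are late stages with only large pending runs. -/
theorem sst_swap {T : ℕ → Prop} {a : ℕ → ℕ} (ha : ∀ k, T (nd a (k + 1))) (N : ℕ) :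
    ∃ m, N ≤ P T m ∧ ∀ x ∈ (sst T a m).2.1, N < x := by
  set n := 7 * nd a (N + 1) - 1 with hn
  have h1 := nd_ge a (N + 1)
  have h2 := gst ha n
  have hk : (sst T a n).2.2 = N := by
    have h3 := h2.k1
    have h4 := h2.k2
    by_contra hne
    rcases Nat.lt_or_gt_of_ne hne with h5 | h5
    · have := (nd_mono a).monotone (show (sst T a n).2.2 + 1 ≤ N by omega)
      have := nd_lt a N
      omega
    · have := (nd_mono a).monotone (show N + 1 ≤ (sst T a n).2.2 by omega)
      omega
  have h6 : n % 7 = 6 := by omega
  have hs : n / 7 + 1 = nd a ((sst T a n).2.2 + 1) := by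
    rw [hk]
    omega
  obtain ⟨g1, g2, g3, g4, g5, g6⟩ := suf_gadget (T := T) h6
  have hPn := P_ge T n
  have hlt := P_lt_succ T n
  refine ⟨n + 1, by omega, ?_⟩
  rw [sst, if_pos h6, if_pos hs]
  intro x hx
  simp only [List.mem_cons, List.not_mem_nil, or_false] at hx
  omega

/-! ### Counting -/

theorem suf_count (K : List ℕ) (N : ℕ) :
    ∑ m ∈ Finset.range (N + 1), (K.count m : ℤ) = (K.countP (fun x => decide (x ≤ N)) : ℕ) := by
  induction K with
  | nil => simp
  | cons b K ih =>
    rw [List.countP_cons]
    simp only [List.count_cons]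
    push_cast
    rw [Finset.sum_add_distrib, ih]
    congr 1
    by_cases hb : b ≤ N
    · rw [if_pos (by simpa using hb)]
      rw [Finset.sum_eq_single b]
      · simp
      · intro m _ hm
        rw [if_neg (by simpa using Ne.symm hm)]
      · intro hb'
        exact absurd (Finset.mem_range.2 (by omega)) hb'
    · rw [if_neg (by simpa using hb)]
      refine Finset.sum_eq_zero fun m hm => ?_
      have := Finset.mem_range.1 hm
      rw [if_neg (by simp; omega)]

theorem suf_sum (L : List ℕ) (p : ℕ → Bool) :
    (∑ t ∈ Finset.range L.length, if p (L.getD t 0) then (1 : ℤ) else 0) = (L.countP p : ℕ) := by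
  induction L with
  | nil => simp
  | cons b L ih =>
    rw [List.length_cons, Finset.sum_range_succ', List.countP_cons]
    simp only [List.getD_cons_succ, List.getD_cons_zero]
    rw [ih]
    push_cast
    rfl

theorem lv_getD : ∀ (L : List ℕ) (b t : ℕ), t < L.length →
    (lv (b :: L)).getD t 0 = (b :: L).getD t 0 + L.getD t 0
  | [], b, t, h => by simp at h
  | c :: L, b, 0, _ => by simp [lv]
  | c :: L, b, t + 1, h => by
    have e : lv (b :: c :: L) = (b + c) :: lv (c :: L) := by simp [lv]
    rw [e, List.getD_cons_succ, List.getD_cons_succ, List.getD_cons_succ]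
    exact lv_getD L c t (by simpa using h)

theorem lv_length (b : ℕ) (L : List ℕ) : (lv (b :: L)).length = L.length := by
  simp [lv]

theorem lv_gt {L : List ℕ} {N : ℕ} (h : ∀ x ∈ L, N < x) : ∀ x ∈ lv L, N < x := by
  intro x hx
  cases L with
  | nil => simp [lv] at hx
  | cons b L =>
    obtain ⟨t, ht, rfl⟩ := List.getElem_of_mem hx
    have ht' : t < L.length := by rw [lv_length] at ht; exact ht
    have e := lv_getD L b t ht'
    rw [List.getD_eq_getElem _ _ ht, List.getD_eq_getElem _ _ (show t < (b :: L).length by
      simp only [List.length_cons]; omega)] at e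
    have := h _ (List.getElem_mem (show t < (b :: L).length by
      simp only [List.length_cons]; omega))
    omega

/-- **Sufficiency.** -/
theorem suff {T : ℕ → Prop} {a : ℕ → ℕ} (h : ∀ k, T (nd a (k + 1))) :
    ∃ y : ℕ → ℕ, ∀ n, complexity (blk y) n = FF T n := by
  classical
  -- the block lengths
  set y : ℕ → ℕ := fun t => match t with
    | 0 => 2
    | t + 1 => (sst T a t).1.getD t 0 with hydef
  have hpre : ∀ m n, m ≤ n → ∃ R, (sst T a n).1 = (sst T a m).1 ++ R := by
    intro m n hmn
    induction n, hmn using Nat.le_induction with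
    | base => exact ⟨[], by simp⟩
    | succ n hn ih =>
      obtain ⟨R, h1⟩ := ih
      obtain ⟨R', h3, -⟩ := sst_prefix T a n
      exact ⟨R ++ R', by rw [h3, h1, List.append_assoc]⟩
  have hgetD : ∀ (L R : List ℕ) (t : ℕ), t < L.length → (L ++ R).getD t 0 = L.getD t 0 := by
    intro L R t ht
    rw [List.getD_eq_getElem?_getD, List.getD_eq_getElem?_getD, List.getElem?_append_left ht]
  have hy : ∀ n t, t < (sst T a n).1.length → y (t + 1) = (sst T a n).1.getD t 0 := by
    intro n t ht
    have hlt : t < (sst T a t).1.length := by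
      have := (gst h t).len
      omega
    show (sst T a t).1.getD t 0 = _
    rcases le_total n t with hnt | hnt
    · obtain ⟨R, hR⟩ := hpre n t hnt
      rw [hR, hgetD _ _ _ ht]
    · obtain ⟨R, hR⟩ := hpre t n hnt
      rw [hR, hgetD _ _ _ hlt]
  have hymem : ∀ n t, t < (sst T a n).1.length → y (t + 1) ∈ (sst T a n).1 := by
    intro n t ht
    rw [hy n t ht, List.getD_eq_getElem _ _ ht]
    exact List.getElem_mem ht
  have hlen : ∀ t, t < (sst T a t).1.length := fun t => by
    have := (gst h t).len
    omega
  have hpos : ∀ t, 0 < y t := by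
    intro t
    cases t with
    | zero => exact Nat.succ_pos 1
    | succ t =>
      have := (gst h t).low _ (List.mem_append.2 (Or.inl (hymem t t (hlen t))))
      omega
  have hinj : ∀ s t, y (s + 1) = y (t + 1) → s = t := by
    intro s t hst
    have hs : s < (sst T a (max s t)).1.length := by
      have := (gst h (max s t)).len
      have := le_max_left s t
      omega
    have ht : t < (sst T a (max s t)).1.length := by
      have := (gst h (max s t)).len
      have := le_max_right s t
      omega
    rw [hy _ s hs, hy _ t ht, List.getD_eq_getElem _ _ hs, List.getD_eq_getElem _ _ ht] at hst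
    have hnd : (sst T a (max s t)).1.Nodup :=
      ((List.nodup_append.1 (gst h (max s t)).nodup)).1
    exact (List.Nodup.getElem_inj_iff hnd).1 hst
  have hfin : ∀ N, {t | y (t + 1) ≤ N}.Finite := by
    intro N
    refine Set.Finite.of_finite_image ((Set.finite_le_nat N).subset ?_)
      (f := fun t => y (t + 1)) ?_
    · rintro _ ⟨t, ht, rfl⟩
      exact ht
    · intro s _ t _ hst
      exact hinj s t hst
  have hLL : ∀ N, ∃ t, N < y t ∧ N < y (t + 1) := by
    intro N
    obtain ⟨B, hB⟩ := (hfin N).bddAbove
    refine ⟨B + 2, ?_, ?_⟩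
    · by_contra hc
      have := hB (show B + 1 ∈ {t | y (t + 1) ≤ N} from not_lt.1 hc)
      omega
    · by_contra hc
      have := hB (show B + 2 ∈ {t | y (t + 1) ≤ N} from not_lt.1 hc)
      omega
  have hslope : ∀ N, (1 + ({t | y (t + 1) ≤ N ∧ N < y (t + 1) + y t}.ncard : ℤ)) = sl T N := by
    intro N
    obtain ⟨m, hm1, hm2⟩ := sst_swap h N
    have hg := gst h m
    have hlate : ∀ t, (sst T a m).1.length ≤ t → N < y (t + 1) := by
      intro t ht
      obtain ⟨R, hR, hR2⟩ := sst_later hm1 hm2 (le_max_left m t)
      have ht2 : t < (sst T a (max m t)).1.length := by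
        have := (gst h (max m t)).len
        have := le_max_right m t
        omega
      have h1 := hy (max m t) t ht2
      rw [hR, List.getD_eq_getElem?_getD, List.getElem?_append_right ht] at h1
      have h3 : t - (sst T a m).1.length < R.length := by
        rw [hR, List.length_append] at ht2
        omega
      rw [List.getElem?_eq_getElem h3, Option.getD_some] at h1
      rw [h1]
      exact hR2 _ (List.mem_append.2 (Or.inl (List.getElem_mem h3)))
    obtain ⟨s, hs⟩ := hg.head
    have hbal := hg.inv.bal
    have hyL : ∀ t, t < (sst T a m).1.length → y (t + 1) = (sst T a m).1.getD t 0 := hy m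
    generalize hL : (sst T a m).1 = L at *
    generalize (sst T a m).2.1 = Q at *
    -- the set as a finset
    have hset : {t | y (t + 1) ≤ N ∧ N < y (t + 1) + y t} =
        ((Finset.range L.length).filter (fun t => y (t + 1) ≤ N ∧ N < y (t + 1) + y t) :
          Finset ℕ) := by
      ext t
      simp only [Set.mem_ofPred_eq, Finset.coe_filter, Finset.mem_range]
      constructor
      · rintro ⟨h1, h2⟩
        refine ⟨?_, h1, h2⟩
        by_contra hc
        have := hlate t (not_lt.1 hc)
        omega
      · rintro ⟨_, h1, h2⟩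
        exact ⟨h1, h2⟩
    rw [hset, Set.ncard_coe_finset, Finset.card_filter]
    push_cast
    have hterm : ∀ t ∈ Finset.range L.length,
        (if y (t + 1) ≤ N ∧ N < y (t + 1) + y t then (1 : ℤ) else 0) =
        (if decide (L.getD t 0 ≤ N) then (1 : ℤ) else 0) -
        (if decide ((lv (2 :: L)).getD t 0 ≤ N) then (1 : ℤ) else 0) := by
      intro t ht
      have ht' := Finset.mem_range.1 ht
      have h1 := hyL t ht'
      have h2 : (lv (2 :: L)).getD t 0 = y t + y (t + 1) := by
        rw [lv_getD L 2 t ht', h1]
        congr 1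
        cases t with
        | zero => rfl
        | succ t =>
          rw [List.getD_cons_succ]
          exact (hyL t (by omega)).symm
      rw [h2, ← h1]
      simp only [decide_eq_true_eq]
      by_cases c1 : y (t + 1) ≤ N
      · by_cases c2 : y t + y (t + 1) ≤ N
        · rw [if_neg (by omega), if_pos c1, if_pos c2]
          ring
        · rw [if_pos (by omega), if_pos c1, if_neg c2]
          ring
      · rw [if_neg (by omega), if_neg c1, if_neg (by omega)]
        ring
    rw [Finset.sum_congr rfl hterm, Finset.sum_sub_distrib,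
      suf_sum L (fun x => decide (x ≤ N))]
    have h4 : (∑ t ∈ Finset.range L.length,
        if decide ((lv (2 :: L)).getD t 0 ≤ N) then (1 : ℤ) else 0) =
        ((lv (2 :: L)).countP (fun x => decide (x ≤ N)) : ℕ) := by
      rw [← suf_sum (lv (2 :: L)) (fun x => decide (x ≤ N)), lv_length]
    rw [h4, ← suf_count, ← suf_count]
    unfold sl
    have hdl : ∀ j ∈ Finset.range (N + 1), dl T j =
        (L.count j : ℤ) - ((lv (2 :: L)).count j : ℤ) := by
      intro j hj
      have hj' := Finset.mem_range.1 hj
      have hGm : GG (P T m) = P T m + (P T m + 2 ^ 19) + 2 ^ 22 := rfl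
      rw [dl_eq (n := m) (by omega), hbal j]
      unfold bal
      have h5 : Q.count j = 0 := count_zero_of_lt hm2 (by omega)
      have h6 : (lv Q).count j = 0 := count_zero_of_lt (lv_gt hm2) (by omega)
      rw [List.count_append, List.count_append, h5, h6]
      have h7 : (lv (2 :: L)).count j = (lv L).count j + if j = MM + 3 then 1 else 0 := by
        rw [hs]
        have e : lv (2 :: (MM + 1) :: s) = (2 + (MM + 1)) :: lv ((MM + 1) :: s) := by simp [lv]
        rw [e, List.count_cons]
        congr 1
        by_cases hc : j = MM + 3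
        · rw [if_pos hc, if_pos (by simp; omega)]
        · rw [if_neg hc, if_neg (by simp; omega)]
      rw [h7]
      push_cast
      ring
    rw [Finset.sum_congr rfl hdl, Finset.sum_sub_distrib]
  have hff : ∀ n, (complexity (blk y) n : ℤ) = ff T n := by
    intro n
    induction n with
    | zero =>
      have h0 : complexity (blk y) 0 = 1 := by
        unfold complexity factors
        have : (Set.range fun i : ℕ => fun j : Fin 0 => blk y (i + j)) = {Fin.elim0} := by
          ext w
          simp only [Set.mem_range, Set.mem_singleton_iff]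
          constructor
          · intro _
            exact Subsingleton.elim _ _
          · rintro rfl
            exact ⟨0, Subsingleton.elim _ _⟩
        rw [this, Set.ncard_singleton]
      rw [h0]
      simp [ff]
    | succ n ih =>
      rw [slope_blk hpos hinj hLL n]
      have h1 := hslope n
      unfold ff at ih ⊢
      rw [Finset.sum_range_succ]
      push_cast
      rw [ih, ← h1]
      ring
  refine ⟨y, fun n => ?_⟩
  unfold FF
  rw [← hff n, Int.toNat_natCast]

end Pool.Agent.CF2
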