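import Pool.Agent.CFX.BOR
import Pool.Agent.CF2.Asm

/-!
# CF2: a local reduction of the infinite branch problem shows that a set is complete among the
analytic sets, and not Borel
-/

namespace Pool.Agent.CF2

open MeasureTheory Pool.Agent.Helper79.CF

/-- the finite sequence of a node -/
def tseq : ℕ → List ℕ
  | 0 => []
  | j + 1 => tseq (Nat.unpair j).1 ++ [(Nat.unpair j).2]
termination_by j => j
decreasing_by exact Nat.lt_succ_of_le (Nat.unpair_left_le j)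

theorem tseq_zero : tseq 0 = [] := by
  rw [tseq]

theorem tseq_succ (j : ℕ) : tseq (j + 1) = tseq (Nat.unpair j).1 ++ [(Nat.unpair j).2] := by
  rw [tseq]

theorem tseq_length (j : ℕ) : (tseq j).length ≤ j := by
  induction j using Nat.strong_induction_on with
  | _ j ih =>
    rcases j with _ | j
    · rw [tseq_zero]; rfl
    · rw [tseq_succ, List.length_append, List.length_singleton]
      have h1 := Nat.unpair_left_le j
      have h2 := ih (Nat.unpair j).1 (Nat.lt_succ_of_le h1)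
      omega

theorem tseq_nd (a : ℕ → ℕ) (k : ℕ) : tseq (nd a k) = List.ofFn fun i : Fin k => a i := by
  induction k with
  | zero => rw [nd, tseq_zero]; rfl
  | succ k ih =>
    rw [nd, tseq_succ, Nat.unpair_pair, ih, List.ofFn_succ']
    simp [List.concat_eq_append]

theorem tree_iff {f : (ℕ → ℕ) → (ℕ → ℕ)} (hf : Continuous f) (z : ℕ → ℕ) :
    (∃ a : ℕ → ℕ, ∀ k, borT f z (tseq (nd a (k + 1)))) ↔ z ∈ Set.range f := by
  constructor
  · rintro ⟨a, ha⟩
    refine ⟨a, funext fun n => ?_⟩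
    obtain ⟨N, hN⟩ := bor_local (fun w' => f w' n) ((continuous_apply n).comp hf) a
    obtain ⟨w', h1, h2⟩ := ha (max N n)
    have hlen : (tseq (nd a (max N n + 1))).length = max N n + 1 := by
      rw [tseq_nd, List.length_ofFn]
    have h4 : f w' n = f a n := hN w' fun i hi => by
      have hi' : i < (tseq (nd a (max N n + 1))).length := by omega
      rw [h1 i hi']
      simp only [tseq_nd, List.getElem_ofFn]
    rw [← h4]
    exact h2 n (by omega)
  · rintro ⟨w, rfl⟩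
    refine ⟨w, fun k => ⟨w, fun i hi => ?_, fun i hi => rfl⟩⟩
    simp only [tseq_nd, List.getElem_ofFn]

theorem tree_aux (S : Set (ℕ → ℕ)) (F : (ℕ → Prop) → ℕ → ℕ)
    (hF : ∀ T, F T ∈ S ↔ ∃ a : ℕ → ℕ, ∀ k, T (nd a (k + 1)))
    (hloc : ∀ (T T' : ℕ → Prop) (n : ℕ), (∀ j ≤ n, (T j ↔ T' j)) → F T n = F T' n)
    (R : Set (ℕ → ℕ)) (hR : AnalyticSet R) : ∃ Φ : (ℕ → ℕ) → ℕ → ℕ,
      (∀ z z' n, (∀ i < n, z i = z' i) → Φ z n = Φ z' n) ∧ (∀ z, ∃ T, Φ z = F T) ∧
        Φ ⁻¹' S = R := by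
  rw [AnalyticSet] at hR
  rcases hR with rfl | ⟨f, hf, rfl⟩
  · refine ⟨fun _ => F fun _ => False, fun _ _ _ _ => rfl, fun _ => ⟨_, rfl⟩, ?_⟩
    ext z
    rw [Set.mem_preimage, hF]
    constructor
    · rintro ⟨a, ha⟩
      exact (ha 0).elim
    · intro h
      exact absurd h (Set.notMem_empty _)
  · refine ⟨fun z => F fun j => borT f z (tseq j), fun z z' n h => hloc _ _ n fun j hj => ?_,
      fun _ => ⟨_, rfl⟩, ?_⟩
    · exact borT_congr fun i hi => h i (by have := tseq_length j; omega)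
    · ext z
      rw [Set.mem_preimage, hF, tree_iff hf]

theorem complete_tree (S : Set (ℕ → ℕ)) (F : (ℕ → Prop) → ℕ → ℕ)
    (hF : ∀ T, F T ∈ S ↔ ∃ a : ℕ → ℕ, ∀ k, T (nd a (k + 1)))
    (hloc : ∀ (T T' : ℕ → Prop) (n : ℕ), (∀ j ≤ n, (T j ↔ T' j)) → F T n = F T' n) :
    (∀ R : Set (ℕ → ℕ), AnalyticSet R → ∃ Φ : (ℕ → ℕ) → ℕ → ℕ, Continuous Φ ∧
        (∀ z, ∃ T, Φ z = F T) ∧ Φ ⁻¹' S = R) ∧
      ¬ @MeasurableSet (ℕ → ℕ) (borel (ℕ → ℕ)) S := by
  refine ⟨fun R hR => ?_, fun hS => ?_⟩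
  · obtain ⟨Φ, h1, h2⟩ := tree_aux S F hF hloc R hR
    exact ⟨Φ, bor_continuous Φ h1, h2⟩
  · have hS' : MeasurableSet S := by
      rw [BorelSpace.measurable_eq (α := ℕ → ℕ)]
      exact hS
    obtain ⟨Φ, h1, -, h2⟩ := tree_aux S F hF hloc Sᶜ hS'.compl.analyticSet
    obtain ⟨z, hz⟩ := bor_fixed Φ h1
    have h3 : z ∈ S ↔ z ∈ Sᶜ := by
      conv_lhs => rw [← hz]
      rw [← h2]
      rfl
    by_cases h : z ∈ S
    · exact (h3.1 h) h
    · exact h (h3.2 h)

end Pool.Agent.CF2
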