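import Pool.Agent.CF2.Window

/-!
# Shapes of the factors of a block word and the level identity
-/

namespace Pool.Agent.CF2

open Pool.Agent.Helper79.CF

/-- The pattern `a^(a-1) b a^(x-1) b ... b a a a ...` given by `a` and the list of complete blocks. -/
def pat : ℕ → List ℕ → ℕ → Bool
  | a, [], r => decide (r + 1 = a)
  | a, x :: m, r => decide (r + 1 = a) || (decide (a ≤ r) && pat x m (r - a))

/-- The blocks from `t` on are those of `m`. -/
def Mid (y : ℕ → ℕ) : ℕ → List ℕ → Prop
  | _, [] => True
  | t, x :: m => y t = x ∧ Mid y (t + 1) m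

theorem mid_psum {y : ℕ → ℕ} : ∀ {m : List ℕ} {t : ℕ}, Mid y t m →
    psum y (t + m.length) = psum y t + m.sum
  | [], t, _ => by simp
  | x :: m, t, h => by
    have := mid_psum (t := t + 1) h.2
    rw [psum_succ, h.1] at this
    simp only [List.length_cons, List.sum_cons]
    rw [show t + (m.length + 1) = t + 1 + m.length by omega, this]
    omega

theorem pat_lt {a r : ℕ} (m : List ℕ) (h : r + 1 < a) : pat a m r = false := by
  cases m with
  | nil => simp only [pat, decide_eq_false_iff_not]; omega
  | cons x m =>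
    simp only [pat, Bool.or_eq_false_iff, Bool.and_eq_false_iff, decide_eq_false_iff_not]
    exact ⟨by omega, Or.inl (by omega)⟩

theorem pat_eq {a r : ℕ} (m : List ℕ) (h : r + 1 = a) : pat a m r = true := by
  cases m <;> simp [pat, h]

theorem pat_nil_gt {a r : ℕ} (h : a ≤ r) : pat a [] r = false := by
  simp only [pat, decide_eq_false_iff_not]; omega

theorem pat_cons_gt {a x r : ℕ} (m : List ℕ) (h : a ≤ r) : pat a (x :: m) r = pat x m (r - a) := by
  simp only [pat]
  rw [show decide (r + 1 = a) = false from decide_eq_false (by omega),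
    show decide (a ≤ r) = true from decide_eq_true h]
  simp

theorem first_block {y : ℕ → ℕ} (hy : ∀ t, 0 < y t) {t q a : ℕ} (h : q + a = psum y (t + 1))
    (h1 : ∀ r, r + 1 < a → blk y (q + r) = false) : a ≤ y t := by
  by_contra hlt
  rw [psum_succ] at h
  have ht : 0 < t := by
    rcases Nat.eq_zero_or_pos t with rfl | ht
    · simp [psum] at h; omega
    · exact ht
  have e : psum y t = psum y (t - 1) + y (t - 1) := by
    rw [← psum_succ, Nat.sub_add_cancel ht]
  have hp := hy (t - 1)
  have hp' := hy t
  have h2 := blk_end hy (t - 1) (psum y t - 1) (by omega)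
  rw [show psum y t - 1 = q + (psum y t - 1 - q) by omega, h1 _ (by omega)] at h2
  simp at h2

/-- **Occurrences of a shape.** -/
theorem occ_iff {y : ℕ → ℕ} (hy : ∀ t, 0 < y t) {b : ℕ} (hb : 1 ≤ b) :
    ∀ (m : List ℕ) (a q : ℕ), 1 ≤ a → (∀ x ∈ m, 1 ≤ x) →
      ((∀ r < a + m.sum + b - 1, blk y (q + r) = pat a m r) ↔
        ∃ t, q + a = psum y (t + 1) ∧ a ≤ y t ∧ Mid y (t + 1) m ∧ b ≤ y (t + 1 + m.length))
  | [], a, q, ha, _ => by
    simp only [List.sum_nil, add_zero, Mid, true_and, List.length_nil]
    constructor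
    · intro h
      have h1 := h (a - 1) (by omega)
      rw [pat_eq [] (by omega)] at h1
      obtain ⟨t, ht⟩ := blk_true.1 h1
      have ht' : q + a = psum y (t + 1) := by omega
      refine ⟨t, ht', first_block hy ht' fun r hr => ?_, ?_⟩
      · rw [h r (by omega), pat_lt [] hr]
      · by_contra hlt
        have hp := hy (t + 1)
        have h2 := blk_end hy (t + 1) (psum y (t + 1) + y (t + 1) - 1) (by omega)
        rw [show psum y (t + 1) + y (t + 1) - 1 = q + (a + y (t + 1) - 1) by omega,
          h _ (by omega), pat_nil_gt (by omega)] at h2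
        simp at h2
    · rintro ⟨t, h1, h2, h3⟩ r hr
      have e := psum_succ y t
      rcases lt_trichotomy (r + 1) a with h | h | h
      · rw [pat_lt [] h]
        exact blk_mid hy t _ (by omega) (by omega)
      · rw [pat_eq [] h]
        exact blk_end hy t _ (by omega)
      · rw [pat_nil_gt (by omega)]
        exact blk_mid hy (t + 1) _ (by omega) (by omega)
  | x :: m, a, q, ha, hx => by
    have hx1 : 1 ≤ x := hx x (by simp)
    have ih := occ_iff hy hb m x (q + a) hx1 fun z hz => hx z (by simp [hz])
    have hm := psum_strictMono hy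
    constructor
    · intro h
      have h1 := h (a - 1) (by simp only [List.sum_cons]; omega)
      rw [pat_eq _ (by omega)] at h1
      obtain ⟨t, ht⟩ := blk_true.1 h1
      have ht' : q + a = psum y (t + 1) := by omega
      obtain ⟨t', k1, k2, k3, k4⟩ := ih.1 fun r hr => by
        have := h (a + r) (by simp only [List.sum_cons]; omega)
        rw [pat_cons_gt m (by omega), show a + r - a = r by omega] at this
        rw [← this]; congr 1; omega
      have e := psum_succ y t'
      have hlt : t < t' := by
        by_contra hle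
        have := hm.monotone (show t' + 1 ≤ t + 1 by omega)
        omega
      have hle : t' ≤ t + 1 := by
        by_contra hgt
        have := hm (show t + 1 < t' by omega)
        omega
      have htt : t' = t + 1 := by omega
      subst htt
      refine ⟨t, ht', first_block hy ht' fun r hr => ?_, ⟨by omega, k3⟩, ?_⟩
      · rw [h r (by simp only [List.sum_cons]; omega), pat_lt _ hr]
      · rw [List.length_cons, show t + 1 + (m.length + 1) = t + 1 + 1 + m.length by omega]
        exact k4
    · rintro ⟨t, h1, h2, h3, h4⟩ r hr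
      have e := psum_succ y t
      have e' := psum_succ y (t + 1)
      have k1 := h3.1
      rcases lt_trichotomy (r + 1) a with h | h | h
      · rw [pat_lt _ h]
        exact blk_mid hy t _ (by omega) (by omega)
      · rw [pat_eq _ h]
        exact blk_end hy t _ (by omega)
      · rw [pat_cons_gt m (by omega)]
        have := ih.2 ⟨t + 1, by omega, by omega, h3.2, by
          rw [List.length_cons, show t + 1 + (m.length + 1) = t + 1 + 1 + m.length by omega] at h4
          exact h4⟩ (r - a) (by simp only [List.sum_cons] at hr; omega)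
        rw [← this]; congr 1; omega

/-- The letter after an occurrence. -/
theorem occ_next {y : ℕ → ℕ} (hy : ∀ t, 0 < y t) {a b q t : ℕ} {m : List ℕ} (hb : 1 ≤ b)
    (h1 : q + a = psum y (t + 1)) (h2 : Mid y (t + 1) m) (h3 : b ≤ y (t + 1 + m.length)) :
    blk y (q + (a + m.sum + b - 1)) = decide (y (t + 1 + m.length) = b) := by
  have e := mid_psum h2
  rcases Nat.lt_or_ge b (y (t + 1 + m.length)) with h | h
  · rw [decide_eq_false (by omega)]
    exact blk_mid hy (t + 1 + m.length) _ (by omega) (by omega)
  · rw [decide_eq_true (by omega)]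
    exact blk_end hy (t + 1 + m.length) _ (by omega)

theorem pat_inj : ∀ (m m' : List ℕ) (a a' n : ℕ), 1 ≤ a → 1 ≤ a' → (∀ x ∈ m, 1 ≤ x) →
    (∀ x ∈ m', 1 ≤ x) → a + m.sum ≤ n → a' + m'.sum ≤ n →
    (∀ r < n, pat a m r = pat a' m' r) → a = a' ∧ m = m' := by
  have hfirst : ∀ (m m' : List ℕ) (a a' n : ℕ), 1 ≤ a → a + m.sum ≤ n →
      (∀ r < n, pat a m r = pat a' m' r) → ¬ a < a' := by
    intro m m' a a' n ha hn h hlt
    have := h (a - 1) (by omega)
    rw [pat_eq m (by omega), pat_lt m' (by omega)] at this
    simp at this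
  intro m
  induction m with
  | nil =>
    intro m' a a' n ha ha' _ hm' hn hn' h
    have h1 := hfirst _ _ a a' n ha hn h
    have h2 := hfirst _ _ a' a n ha' hn' fun r hr => (h r hr).symm
    have e : a = a' := by omega
    subst e
    refine ⟨rfl, ?_⟩
    cases m' with
    | nil => rfl
    | cons x m' =>
      exfalso
      have hx : 1 ≤ x := hm' x (by simp)
      simp only [List.sum_cons] at hn'
      have := h (a + x - 1) (by omega)
      rw [pat_nil_gt (by omega), pat_cons_gt m' (by omega), pat_eq m' (by omega)] at this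
      simp at this
  | cons x m ih =>
    intro m' a a' n ha ha' hm hm' hn hn' h
    have h1 := hfirst _ _ a a' n ha hn h
    have h2 := hfirst _ _ a' a n ha' hn' fun r hr => (h r hr).symm
    have e : a = a' := by omega
    subst e
    refine ⟨rfl, ?_⟩
    have hx : 1 ≤ x := hm x (by simp)
    simp only [List.sum_cons] at hn
    cases m' with
    | nil =>
      exfalso
      have := h (a + x - 1) (by omega)
      rw [pat_nil_gt (by omega), pat_cons_gt m (by omega), pat_eq m (by omega)] at this
      simp at this
    | cons x' m' =>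
      have hx' : 1 ≤ x' := hm' x' (by simp)
      simp only [List.sum_cons] at hn'
      obtain ⟨e1, e2⟩ := ih m' x x' (n - a) hx hx' (fun z hz => hm z (by simp [hz]))
        (fun z hz => hm' z (by simp [hz])) (by omega) (by omega) fun r hr => by
          have := h (a + r) (by omega)
          rw [pat_cons_gt m (by omega), pat_cons_gt m' (by omega),
            show a + r - a = r by omega] at this
          exact this
      rw [e1, e2]

/-- The word of length `n` of shape `(a, m)`. -/
def sw (n a : ℕ) (m : List ℕ) : Fin n → Bool := fun j => pat a m j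

theorem sw_cons_false (n a : ℕ) (ha : 1 ≤ a) (m : List ℕ) :
    (Fin.cons false (sw n a m) : Fin (n + 1) → Bool) = sw (n + 1) (a + 1) m := by
  funext j
  refine Fin.cases ?_ (fun j => ?_) j
  · simp only [Fin.cons_zero, sw, Fin.val_zero]
    rw [pat_lt m (by omega)]
  · simp only [Fin.cons_succ, sw, Fin.val_succ]
    cases m with
    | nil => simp only [pat]; congr 1; simp
    | cons x m =>
      simp only [pat]
      rw [show decide ((j : ℕ) + 1 + 1 = a + 1) = decide ((j : ℕ) + 1 = a) by simp,
        show decide (a + 1 ≤ (j : ℕ) + 1) = decide (a ≤ (j : ℕ)) by simp,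
        show (j : ℕ) + 1 - (a + 1) = (j : ℕ) - a by omega]

theorem sw_cons_true (n a : ℕ) (m : List ℕ) :
    (Fin.cons true (sw n a m) : Fin (n + 1) → Bool) = sw (n + 1) 1 (a :: m) := by
  funext j
  refine Fin.cases ?_ (fun j => ?_) j
  · simp only [Fin.cons_zero, sw, Fin.val_zero]
    rw [pat_eq _ (by omega)]
  · simp only [Fin.cons_succ, sw, Fin.val_succ]
    rw [pat_cons_gt m (by omega)]
    simp

/-- Every word of length `n` with a letter `b` occurring in `blk y` has a shape. -/
theorem decode {y : ℕ → ℕ} (hy : ∀ t, 0 < y t) {n q r : ℕ} (hr : r < n)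
    (h : blk y (q + r) = true) :
    ∃ a m, 1 ≤ a ∧ (∀ x ∈ m, 1 ≤ x) ∧ a + m.sum ≤ n ∧ wd (blk y) n q = sw n a m := by
  classical
  have hm := psum_strictMono hy
  have h0 : psum y 0 = 0 := by simp [psum]
  -- first block end after `q`
  have hex0 : ∃ t, q < psum y (t + 1) := ⟨q, by
    have := hm.id_le (q + 1)
    simp only [id] at this
    omega⟩
  set t0 := Nat.find hex0 with ht0
  have ha1 := Nat.find_spec hex0
  rw [← ht0] at ha1
  have ha2 : psum y t0 ≤ q := by
    rcases Nat.eq_zero_or_pos t0 with h1 | h1
    · rw [h1, h0]; omega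
    · have := Nat.find_min hex0 (show t0 - 1 < t0 by omega)
      rw [Nat.sub_add_cancel h1] at this
      omega
  have hex1 : ∃ t, q + n < psum y (t + 1) := ⟨q + n, by
    have := hm.id_le (q + n + 1)
    simp only [id] at this
    omega⟩
  set t1 := Nat.find hex1 with ht1
  have hb1 := Nat.find_spec hex1
  rw [← ht1] at hb1
  have hb2 : psum y t1 ≤ q + n := by
    rcases Nat.eq_zero_or_pos t1 with h1 | h1
    · rw [h1, h0]; omega
    · have := Nat.find_min hex1 (show t1 - 1 < t1 by omega)
      rw [Nat.sub_add_cancel h1] at this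
      omega
  have ht01 : t0 < t1 := by
    by_contra hle
    obtain ⟨s, hs⟩ := blk_true.1 h
    have hts : t0 ≤ s := by
      by_contra hlt
      have := hm.monotone (show s + 1 ≤ t0 by omega)
      omega
    have := hm.monotone (show t1 + 1 ≤ s + 1 by omega)
    omega
  have hlist : ∀ (k t : ℕ), Mid y t ((List.range' t k).map y) ∧
      ((List.range' t k).map y).sum + psum y t = psum y (t + k) ∧
      (∀ x ∈ (List.range' t k).map y, 1 ≤ x) := by
    intro k
    induction k with
    | zero => intro t; simp [Mid]
    | succ k ih =>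
      intro t
      obtain ⟨i1, i2, i3⟩ := ih (t + 1)
      rw [List.range'_succ]
      simp only [List.map_cons, List.sum_cons, Mid, true_and]
      refine ⟨i1, ?_, ?_⟩
      · rw [show t + (k + 1) = t + 1 + k by omega, ← i2, psum_succ]; omega
      · intro x hx
        rw [List.mem_cons] at hx
        rcases hx with rfl | hx
        · exact hy t
        · exact i3 x hx
  obtain ⟨i1, i2, i3⟩ := hlist (t1 - t0 - 1) (t0 + 1)
  set m := (List.range' (t0 + 1) (t1 - t0 - 1)).map y with hmdef
  have hlen : m.length = t1 - t0 - 1 := by simp [hmdef]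
  rw [show t0 + 1 + (t1 - t0 - 1) = t1 by omega] at i2
  have e0 := psum_succ y t0
  have e1 := psum_succ y t1
  refine ⟨psum y (t0 + 1) - q, m, by omega, i3, by omega, ?_⟩
  have hocc := (occ_iff hy (b := q + n + 1 - psum y t1) (by omega) m (psum y (t0 + 1) - q) q
    (by omega) i3).2 ⟨t0, by omega, by omega, i1, by
      rw [hlen, show t0 + 1 + (t1 - t0 - 1) = t1 by omega]; omega⟩
  funext j
  exact hocc j (by have := j.2; omega)

/-- The condition for the word of shape `(a, m, b)` to be right special. -/
def RSs (y : ℕ → ℕ) (a : ℕ) (m : List ℕ) (b : ℕ) : Prop :=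
  (∃ t, a ≤ y t ∧ Mid y (t + 1) m ∧ y (t + 1 + m.length) = b) ∧
    ∃ t, a ≤ y t ∧ Mid y (t + 1) m ∧ b < y (t + 1 + m.length)

theorem sw_mem_RS {y : ℕ → ℕ} (hy : ∀ t, 0 < y t) {n a b : ℕ} {m : List ℕ} (ha : 1 ≤ a)
    (hm : ∀ x ∈ m, 1 ≤ x) (hb : 1 ≤ b) (hn : a + m.sum + b = n + 1) :
    sw n a m ∈ RS (blk y) n false true ↔ RSs y a m b := by
  have key : ∀ c, (∃ q, wd (blk y) n q = sw n a m ∧ blk y (q + n) = c) ↔
      ∃ t, a ≤ y t ∧ Mid y (t + 1) m ∧ b ≤ y (t + 1 + m.length) ∧
        decide (y (t + 1 + m.length) = b) = c := by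
    intro c
    constructor
    · rintro ⟨q, h1, h2⟩
      obtain ⟨t, k1, k2, k3, k4⟩ := (occ_iff hy hb m a q ha hm).1 fun r hr =>
        congrFun h1 ⟨r, by omega⟩
      refine ⟨t, k2, k3, k4, ?_⟩
      rw [← occ_next hy hb k1 k3 k4, ← h2]
      congr 1; omega
    · rintro ⟨t, k2, k3, k4, k5⟩
      have e := psum_succ y t
      have k1 : psum y (t + 1) - a + a = psum y (t + 1) := by omega
      refine ⟨psum y (t + 1) - a, ?_, ?_⟩
      · funext j
        exact (occ_iff hy hb m a _ ha hm).2 ⟨t, k1, k2, k3, k4⟩ j (by have := j.2; omega)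
      · rw [← k5, ← occ_next hy hb k1 k3 k4]
        congr 1; omega
  rw [mem_RS]
  constructor
  · intro h
    constructor
    · obtain ⟨t, h1, h2, h3, h4⟩ := (key true).1 (h true)
      exact ⟨t, h1, h2, of_decide_eq_true h4⟩
    · obtain ⟨t, h1, h2, h3, h4⟩ := (key false).1 (h false)
      exact ⟨t, h1, h2, by have := of_decide_eq_false h4; omega⟩
  · rintro ⟨⟨t, h1, h2, h3⟩, ⟨t', h1', h2', h3'⟩⟩ c
    rw [key]
    cases c
    · exact ⟨t', h1', h2', h3'.le, decide_eq_false (by omega)⟩
    · exact ⟨t, h1, h2, h3.ge, decide_eq_true h3⟩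

/-- Words both of whose left extensions are right special. -/
def StW (u : ℕ → Bool) (n : ℕ) : Set (Fin n → Bool) :=
  {w | ∀ c, (Fin.cons c w : Fin (n + 1) → Bool) ∈ RS u (n + 1) false true}

/-- Right special words neither of whose left extensions is right special. -/
def WkW (u : ℕ → Bool) (n : ℕ) : Set (Fin n → Bool) :=
  {w | w ∈ RS u n false true ∧
    ∀ c, (Fin.cons c w : Fin (n + 1) → Bool) ∉ RS u (n + 1) false true}

theorem word_identity (u : ℕ → Bool) (n : ℕ) :
    (RS u (n + 1) false true).ncard + (WkW u n).ncard =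
      (RS u n false true).ncard + (StW u n).ncard := by
  classical
  let T : Bool → Set (Fin n → Bool) := fun c =>
    {w | (Fin.cons c w : Fin (n + 1) → Bool) ∈ RS u (n + 1) false true}
  have tail : ∀ (x y : Bool) (z z' : Fin n → Bool),
      (Fin.cons x z : Fin (n + 1) → Bool) = Fin.cons y z' → z = z' := by
    intro x y z z' h
    have := congrArg (fun x : Fin (n + 1) → Bool => fun j : Fin n => x j.succ) h
    simpa using this
  have hinj : ∀ c, Function.Injective
      (fun w : Fin n → Bool => (Fin.cons c w : Fin (n + 1) → Bool)) :=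
    fun c z z' h => tail _ _ _ _ h
  have h1 : RS u (n + 1) false true =
      (fun w : Fin n → Bool => (Fin.cons false w : Fin (n + 1) → Bool)) '' T false ∪
      (fun w : Fin n → Bool => (Fin.cons true w : Fin (n + 1) → Bool)) '' T true := by
    ext w
    constructor
    · intro hw
      have h2 := base_cons_tail w
      rcases Bool.eq_false_or_eq_true (w 0) with h | h
      · right
        rw [h] at h2
        exact ⟨_, by show _ ∈ RS u (n + 1) false true; rw [← h2]; exact hw, h2.symm⟩
      · left
        rw [h] at h2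
        exact ⟨_, by show _ ∈ RS u (n + 1) false true; rw [← h2]; exact hw, h2.symm⟩
    · rintro (⟨z, hz, rfl⟩ | ⟨z, hz, rfl⟩)
      · exact hz
      · exact hz
  have h2 : Disjoint
      ((fun w : Fin n → Bool => (Fin.cons false w : Fin (n + 1) → Bool)) '' T false)
      ((fun w : Fin n → Bool => (Fin.cons true w : Fin (n + 1) → Bool)) '' T true) := by
    rw [Set.disjoint_left]
    rintro _ ⟨z, _, rfl⟩ ⟨z', _, h⟩
    have := congrFun h 0
    simp at this
  have h3 := Set.ncard_union_eq h2 (Set.toFinite _) (Set.toFinite _)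
  rw [← h1, Set.ncard_image_of_injective _ (hinj _), Set.ncard_image_of_injective _ (hinj _)] at h3
  have h4 := Set.ncard_union_add_ncard_inter (T false) (T true) (Set.toFinite _) (Set.toFinite _)
  have h5 : T false ∩ T true = StW u n := by
    ext w
    constructor
    · rintro ⟨k1, k2⟩ c
      cases c
      · exact k1
      · exact k2
    · intro h
      exact ⟨h false, h true⟩
  have h6 : RS u n false true = (T false ∪ T true) ∪ WkW u n := by
    ext w
    constructor
    · intro hw
      by_cases h : w ∈ T false ∪ T true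
      · left; exact h
      · right
        refine ⟨hw, fun c hc => h ?_⟩
        cases c
        · left; exact hc
        · right; exact hc
    · rintro ((h | h) | h)
      · have := base_rs_suffix h
        simpa using this
      · have := base_rs_suffix h
        simpa using this
      · exact h.1
  have h7 : Disjoint (T false ∪ T true) (WkW u n) := by
    rw [Set.disjoint_left]
    rintro w (h | h) k
    · exact k.2 false h
    · exact k.2 true h
  have h8 := Set.ncard_union_eq h7 (Set.toFinite _) (Set.toFinite _)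
  rw [← h6] at h8
  rw [h5] at h4
  omega

/-- Strong shapes. -/
def StS (y : ℕ → ℕ) (a : ℕ) (m : List ℕ) (b : ℕ) : Prop :=
  RSs y (a + 1) m b ∧ RSs y 1 (a :: m) b

/-- Weak shapes. -/
def WkS (y : ℕ → ℕ) (a : ℕ) (m : List ℕ) (b : ℕ) : Prop :=
  RSs y a m b ∧ ¬ RSs y (a + 1) m b ∧ ¬ RSs y 1 (a :: m) b

/-- The strong shapes of level `N`. -/
def StSet (y : ℕ → ℕ) (N : ℕ) : Set (ℕ × List ℕ) :=
  {p | 1 ≤ p.1 ∧ (∀ x ∈ p.2, 1 ≤ x) ∧ p.1 + p.2.sum < N ∧ StS y p.1 p.2 (N - p.1 - p.2.sum)}

/-- The weak shapes of level `N`. -/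
def WkSet (y : ℕ → ℕ) (N : ℕ) : Set (ℕ × List ℕ) :=
  {p | 1 ≤ p.1 ∧ (∀ x ∈ p.2, 1 ≤ x) ∧ p.1 + p.2.sum < N ∧ WkS y p.1 p.2 (N - p.1 - p.2.sum)}

/-- `x` is a complete block after the first one. -/
def VV (y : ℕ → ℕ) (x : ℕ) : Prop := ∃ t, 1 ≤ t ∧ y t = x

theorem sw_injOn (n : ℕ) : Set.InjOn (fun p : ℕ × List ℕ => sw n p.1 p.2)
    {p | 1 ≤ p.1 ∧ (∀ x ∈ p.2, 1 ≤ x) ∧ p.1 + p.2.sum < n + 1} := by
  rintro ⟨a, m⟩ ⟨h1, h2, h3⟩ ⟨a', m'⟩ ⟨h1', h2', h3'⟩ h
  obtain ⟨e1, e2⟩ := pat_inj m m' a a' n h1 h1' h2 h2' (by simpa using Nat.lt_succ_iff.1 h3)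
    (by simpa using Nat.lt_succ_iff.1 h3') fun r hr => congrFun h ⟨r, hr⟩
  rw [e1, e2]

theorem StSet_injOn (y : ℕ → ℕ) (n : ℕ) :
    Set.InjOn (fun p : ℕ × List ℕ => sw n p.1 p.2) (StSet y (n + 1)) :=
  (sw_injOn n).mono (by
    intro p hp
    exact ⟨hp.1, hp.2.1, hp.2.2.1⟩)

theorem WkSet_injOn (y : ℕ → ℕ) (n : ℕ) :
    Set.InjOn (fun p : ℕ × List ℕ => sw n p.1 p.2) (WkSet y (n + 1)) :=
  (sw_injOn n).mono (by
    intro p hp
    exact ⟨hp.1, hp.2.1, hp.2.2.1⟩)

theorem StSet_finite (y : ℕ → ℕ) (n : ℕ) : (StSet y (n + 1)).Finite :=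
  Set.Finite.of_finite_image (Set.toFinite _) (StSet_injOn y n)

theorem WkSet_finite (y : ℕ → ℕ) (n : ℕ) : (WkSet y (n + 1)).Finite :=
  Set.Finite.of_finite_image (Set.toFinite _) (WkSet_injOn y n)

theorem sw_ne_const {n a : ℕ} {m : List ℕ} (ha : 1 ≤ a) (h : a + m.sum < n + 1) :
    sw n a m ≠ fun _ => false := by
  intro he
  have := congrFun he ⟨a - 1, by omega⟩
  simp only [sw] at this
  rw [pat_eq m (by omega)] at this
  simp at this

theorem RS_decode {y : ℕ → ℕ} (hy : ∀ t, 0 < y t) {n : ℕ} {w : Fin n → Bool}
    (h : w ∈ RS (blk y) n false true) : w = (fun _ => false) ∨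
      ∃ a m, 1 ≤ a ∧ (∀ x ∈ m, 1 ≤ x) ∧ a + m.sum < n + 1 ∧ w = sw n a m := by
  obtain ⟨q, h1, _⟩ := mem_RS.1 h true
  by_cases hr : ∃ r : Fin n, blk y (q + r) = true
  · obtain ⟨r, hr⟩ := hr
    right
    obtain ⟨a, m, k1, k2, k3, k4⟩ := decode hy r.2 hr
    exact ⟨a, m, k1, k2, by omega, by rw [← h1, k4]⟩
  · left
    push Not at hr
    rw [← h1]
    funext r
    exact Bool.eq_false_iff.2 (hr r)

open scoped Classical in
/-- **Level identity.** -/
theorem level_identity {y : ℕ → ℕ} (hy : ∀ t, 0 < y t) (hunb : ∀ N, ∃ t, 1 ≤ t ∧ N < y t)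
    (n : ℕ) : (RS (blk y) (n + 1) false true).ncard + (WkSet y (n + 1)).ncard =
      (RS (blk y) n false true).ncard + (StSet y (n + 1)).ncard +
        (if VV y (n + 1) then 1 else 0) := by
  have hP1 : ∀ N, ∃ i, ∀ r < N, blk y (i + r) = false := by
    intro N
    obtain ⟨t, _, ht⟩ := hunb N
    exact ⟨psum y t, fun r hr => blk_mid hy t _ (by omega) (by omega)⟩
  have hinf : ∀ N, ∃ i, N ≤ i ∧ blk y i = true := by
    intro N
    have := (psum_strictMono hy).id_le (N + 1)
    simp only [id] at this
    exact ⟨psum y (N + 1) - 1, by omega, blk_true.2 ⟨N, by omega⟩⟩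
  -- weak words
  have hW : WkW (blk y) n = (fun p : ℕ × List ℕ => sw n p.1 p.2) '' WkSet y (n + 1) := by
    ext w
    constructor
    · rintro ⟨h1, h2⟩
      rcases RS_decode hy h1 with rfl | ⟨a, m, k1, k2, k3, rfl⟩
      · exfalso
        apply h2 false
        have := pow_RS hP1 hinf (n + 1)
        convert this using 1
        funext j
        refine Fin.cases ?_ (fun j => ?_) j <;> simp
      · refine ⟨(a, m), ⟨k1, k2, k3, ?_⟩, rfl⟩
        simp only
        refine ⟨?_, fun h => h2 false ?_, fun h => h2 true ?_⟩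
        · exact (sw_mem_RS hy k1 k2 (by omega) (by omega)).1 h1
        · rw [sw_cons_false n a k1 m]
          exact (sw_mem_RS hy (by omega) k2 (by omega) (by omega)).2 h
        · rw [sw_cons_true n a m]
          exact (sw_mem_RS hy le_rfl (by
            intro x hx
            rw [List.mem_cons] at hx
            rcases hx with rfl | hx
            · exact k1
            · exact k2 x hx) (by omega) (by simp only [List.sum_cons]; omega)).2 h
    · rintro ⟨⟨a, m⟩, ⟨k1, k2, k3, k4, k5, k6⟩, rfl⟩
      simp only at k1 k2 k3 k4 k5 k6 ⊢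
      refine ⟨(sw_mem_RS hy k1 k2 (by omega) (by omega)).2 k4, fun c hc => ?_⟩
      cases c
      · rw [sw_cons_false n a k1 m] at hc
        exact k5 ((sw_mem_RS hy (by omega) k2 (by omega) (by omega)).1 hc)
      · rw [sw_cons_true n a m] at hc
        exact k6 ((sw_mem_RS hy le_rfl (by
          intro x hx
          rw [List.mem_cons] at hx
          rcases hx with rfl | hx
          · exact k1
          · exact k2 x hx) (by omega) (by simp only [List.sum_cons]; omega)).1 hc)
  -- strong words
  have hS : StW (blk y) n = (fun p : ℕ × List ℕ => sw n p.1 p.2) '' StSet y (n + 1) ∪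
      (if VV y (n + 1) then {fun _ => false} else ∅) := by
    ext w
    constructor
    · intro h
      have h1 : w ∈ RS (blk y) n false true := by
        have := base_rs_suffix (h true)
        simpa using this
      rcases RS_decode hy h1 with rfl | ⟨a, m, k1, k2, k3, rfl⟩
      · right
        have h2 : sw (n + 1) 1 [] ∈ RS (blk y) (n + 1) false true := by
          have := h true
          convert this using 1
          funext j
          refine Fin.cases ?_ (fun j => ?_) j
          · simp [sw, pat]
          · simp [sw, pat]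
        have h3 := (sw_mem_RS hy le_rfl (by simp) (b := n + 1) (by omega)
          (by simp only [List.sum_nil]; omega)).1 h2
        obtain ⟨⟨t, _, _, ht⟩, _⟩ := h3
        rw [if_pos ⟨t + 1, by omega, by simpa using ht⟩]
        rfl
      · left
        refine ⟨(a, m), ⟨k1, k2, k3, ?_⟩, rfl⟩
        simp only
        constructor
        · have := h false
          rw [sw_cons_false n a k1 m] at this
          exact (sw_mem_RS hy (by omega) k2 (by omega) (by omega)).1 this
        · have := h true
          rw [sw_cons_true n a m] at this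
          exact (sw_mem_RS hy le_rfl (by
            intro x hx
            rw [List.mem_cons] at hx
            rcases hx with rfl | hx
            · exact k1
            · exact k2 x hx) (by omega) (by simp only [List.sum_cons]; omega)).1 this
    · rintro (⟨⟨a, m⟩, ⟨k1, k2, k3, k4, k5⟩, rfl⟩ | h)
      · simp only at k1 k2 k3 k4 k5 ⊢
        intro c
        cases c
        · rw [sw_cons_false n a k1 m]
          exact (sw_mem_RS hy (by omega) k2 (by omega) (by omega)).2 k4
        · rw [sw_cons_true n a m]
          exact (sw_mem_RS hy le_rfl (by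
            intro x hx
            rw [List.mem_cons] at hx
            rcases hx with rfl | hx
            · exact k1
            · exact k2 x hx) (by omega) (by simp only [List.sum_cons]; omega)).2 k5
      · by_cases hV : VV y (n + 1)
        · rw [if_pos hV, Set.mem_singleton_iff] at h
          subst h
          intro c
          cases c
          · have := pow_RS hP1 hinf (n + 1)
            convert this using 1
            funext j
            refine Fin.cases ?_ (fun j => ?_) j <;> simp
          · have h2 : sw (n + 1) 1 [] ∈ RS (blk y) (n + 1) false true := by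
              rw [sw_mem_RS hy le_rfl (by simp) (b := n + 1) (by omega)
                (by simp only [List.sum_nil]; omega)]
              obtain ⟨t, ht1, ht2⟩ := hV
              obtain ⟨t', ht1', ht2'⟩ := hunb (n + 1)
              refine ⟨⟨t - 1, hy _, trivial, ?_⟩, ⟨t' - 1, hy _, trivial, ?_⟩⟩
              · simp only [List.length_nil, add_zero]
                rw [Nat.sub_add_cancel ht1]
                exact ht2
              · simp only [List.length_nil, add_zero]
                rw [Nat.sub_add_cancel ht1']
                exact ht2'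
            convert h2 using 1
            funext j
            refine Fin.cases ?_ (fun j => ?_) j
            · simp [sw, pat]
            · simp [sw, pat]
        · rw [if_neg hV] at h
          exact absurd h (Set.notMem_empty _)
  have e1 : (WkW (blk y) n).ncard = (WkSet y (n + 1)).ncard := by
    rw [hW]
    exact (WkSet_injOn y n).ncard_image
  have e2 : (StW (blk y) n).ncard = (StSet y (n + 1)).ncard + (if VV y (n + 1) then 1 else 0) := by
    rw [hS]
    have hd : Disjoint ((fun p : ℕ × List ℕ => sw n p.1 p.2) '' StSet y (n + 1))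
        (if VV y (n + 1) then {fun _ => false} else ∅ : Set (Fin n → Bool)) := by
      rw [Set.disjoint_left]
      rintro _ ⟨⟨a, m⟩, hp, rfl⟩ h
      by_cases hV : VV y (n + 1)
      · rw [if_pos hV, Set.mem_singleton_iff] at h
        exact sw_ne_const hp.1 hp.2.2.1 h
      · rw [if_neg hV] at h
        exact absurd h (Set.notMem_empty _)
    rw [Set.ncard_union_eq hd (Set.toFinite _) (Set.toFinite _),
      (StSet_injOn y n).ncard_image]
    congr 1
    by_cases hV : VV y (n + 1)
    · rw [if_pos hV, if_pos hV, Set.ncard_singleton]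
    · rw [if_neg hV, if_neg hV, Set.ncard_empty]
  have := word_identity (blk y) n
  rw [e1, e2] at this
  omega

end Pool.Agent.CF2
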