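import Pool.Agent.CF2.Defs
import Pool.Agent.CF2.Shape

/-!
# CF2: the level equation
-/

namespace Pool.Agent.CF2

open Pool.Agent.Helper79.CF

theorem mid_iff {y : ℕ → ℕ} : ∀ {m : List ℕ} {t : ℕ},
    Mid y t m ↔ ∀ (k : ℕ) (h : k < m.length), y (t + k) = m[k]
  | [], t => by simp [Mid]
  | x :: m, t => by
    rw [Mid, mid_iff]
    constructor
    · rintro ⟨h1, h2⟩ k hk
      cases k with
      | zero => simpa using h1
      | succ k =>
        have := h2 k (by simpa using hk)
        rw [show t + (k + 1) = t + 1 + k by omega, this]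
        rfl
    · intro h
      refine ⟨h 0 (by simp), fun k hk => ?_⟩
      have := h (k + 1) (by simpa using hk)
      rw [show t + 1 + k = t + (k + 1) by omega, this]
      rfl

section
variable {y g : ℕ → ℕ} {R : ℕ}

theorem mid_seg (hy : ∀ t, y (t + 1) = g t) {m : List ℕ} {t : ℕ} :
    Mid y (t + 1) m ↔ Seg g t m := by
  rw [mid_iff]
  unfold Seg
  have : ∀ k, y (t + 1 + k) = g (t + k) := fun k => by
    rw [show t + 1 + k = t + k + 1 by omega, hy]
  simp only [this]

theorem lev_next (hy : ∀ t, y (t + 1) = g t) (t k : ℕ) : y (t + 1 + 1 + k) = g (t + 1 + k) := by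
  rw [show t + 1 + 1 + k = t + 1 + k + 1 by omega, hy]

/-- Right special words with a long first run. -/
theorem lev_RSs (hy0 : y 0 = R) (hy : ∀ t, y (t + 1) = g t) {a b : ℕ} {m : List ℕ}
    (ha : R < a) : RSs y a m b ↔ (BB g a m b ∨ AB g a m b) ∧ (BA g a m b ∨ AA g a m b) := by
  have key : ∀ (P : ℕ → Prop), (∃ t, a ≤ y t ∧ Mid y (t + 1) m ∧ P (y (t + 1 + m.length))) ↔
      (∃ t, g t = a ∧ Seg g (t + 1) m ∧ P (g (t + 1 + m.length))) ∨
      ∃ t, a < g t ∧ Seg g (t + 1) m ∧ P (g (t + 1 + m.length)) := by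
    intro P
    constructor
    · rintro ⟨t, h1, h2, h3⟩
      cases t with
      | zero => omega
      | succ t =>
        rw [mid_seg hy] at h2
        rw [lev_next hy] at h3
        rw [hy] at h1
        rcases Nat.lt_or_ge a (g t) with h | h
        · exact Or.inr ⟨t, h, h2, h3⟩
        · exact Or.inl ⟨t, by omega, h2, h3⟩
    · rintro (⟨t, h1, h2, h3⟩ | ⟨t, h1, h2, h3⟩)
      · exact ⟨t + 1, by rw [hy]; omega, (mid_seg hy).2 h2, by rw [lev_next hy]; exact h3⟩
      · exact ⟨t + 1, by rw [hy]; omega, (mid_seg hy).2 h2, by rw [lev_next hy]; exact h3⟩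
  exact and_congr (key fun z => z = b) (key fun z => b < z)

theorem lev_cons (hpos : ∀ t, 0 < y t) (hy : ∀ t, y (t + 1) = g t) {a b : ℕ} {m : List ℕ} :
    RSs y 1 (a :: m) b ↔ BB g a m b ∧ BA g a m b := by
  have key : ∀ (P : ℕ → Prop),
      (∃ t, 1 ≤ y t ∧ Mid y (t + 1) (a :: m) ∧ P (y (t + 1 + (a :: m).length))) ↔
      ∃ t, g t = a ∧ Seg g (t + 1) m ∧ P (g (t + 1 + m.length)) := by
    intro P
    have hl : ∀ t, t + 1 + (a :: m).length = t + 1 + 1 + m.length := by
      intro t; rw [List.length_cons]; omega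
    constructor
    · rintro ⟨t, _, h2, h3⟩
      rw [hl, lev_next hy] at h3
      refine ⟨t, by rw [← hy]; exact h2.1, (mid_seg hy).1 h2.2, h3⟩
    · rintro ⟨t, h1, h2, h3⟩
      exact ⟨t, hpos t, ⟨by rw [hy]; exact h1, (mid_seg hy).2 h2⟩, by rw [hl, lev_next hy]; exact h3⟩
  exact and_congr (key fun z => z = b) (key fun z => b < z)

theorem lev_strong (hpos : ∀ t, 0 < y t) (hy0 : y 0 = R) (hy : ∀ t, y (t + 1) = g t)
    (hRg : ∀ t, R < g t) {a b : ℕ} {m : List ℕ} : StS y a m b ↔ Strong g a m b := by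
  unfold StS Strong
  rw [lev_cons hpos hy]
  constructor
  · rintro ⟨h1, h2, h3⟩
    have ha : R < a := by
      obtain ⟨t, ht, _⟩ := h2
      have := hRg t; omega
    rw [lev_RSs hy0 hy (by omega)] at h1
    have e1 : AB g a m b := by
      rcases h1.1 with ⟨t, k1, k2, k3⟩ | ⟨t, k1, k2, k3⟩
      · exact ⟨t, by omega, k2, k3⟩
      · exact ⟨t, by omega, k2, k3⟩
    have e2 : AA g a m b := by
      rcases h1.2 with ⟨t, k1, k2, k3⟩ | ⟨t, k1, k2, k3⟩
      · exact ⟨t, by omega, k2, k3⟩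
      · exact ⟨t, by omega, k2, k3⟩
    exact ⟨h2, e1, h3, e2⟩
  · rintro ⟨h1, h2, h3, h4⟩
    have ha : R < a := by
      obtain ⟨t, ht, _⟩ := h1
      have := hRg t; omega
    refine ⟨?_, h1, h3⟩
    rw [lev_RSs hy0 hy (by omega)]
    obtain ⟨t, k1, k2, k3⟩ := h2
    obtain ⟨t', k1', k2', k3'⟩ := h4
    constructor
    · rcases Nat.lt_or_ge (a + 1) (g t) with h | h
      · exact Or.inr ⟨t, h, k2, k3⟩
      · exact Or.inl ⟨t, by omega, k2, k3⟩
    · rcases Nat.lt_or_ge (a + 1) (g t') with h | h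
      · exact Or.inr ⟨t', h, k2', k3'⟩
      · exact Or.inl ⟨t', by omega, k2', k3'⟩

theorem lev_weak (hpos : ∀ t, 0 < y t) (hy0 : y 0 = R) (hy : ∀ t, y (t + 1) = g t)
    {a b : ℕ} {m : List ℕ} (ha : R < a) : WkS y a m b ↔ Weak g a m b := by
  unfold WkS Weak
  rw [lev_cons hpos hy, lev_RSs hy0 hy ha, lev_RSs hy0 hy (show R < a + 1 by omega)]
  have e1 : (BB g (a + 1) m b ∨ AB g (a + 1) m b) ↔ AB g a m b := by
    constructor
    · rintro (⟨t, k1, k2, k3⟩ | ⟨t, k1, k2, k3⟩)
      · exact ⟨t, by omega, k2, k3⟩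
      · exact ⟨t, by omega, k2, k3⟩
    · rintro ⟨t, k1, k2, k3⟩
      rcases Nat.lt_or_ge (a + 1) (g t) with h | h
      · exact Or.inr ⟨t, h, k2, k3⟩
      · exact Or.inl ⟨t, by omega, k2, k3⟩
  have e2 : (BA g (a + 1) m b ∨ AA g (a + 1) m b) ↔ AA g a m b := by
    constructor
    · rintro (⟨t, k1, k2, k3⟩ | ⟨t, k1, k2, k3⟩)
      · exact ⟨t, by omega, k2, k3⟩
      · exact ⟨t, by omega, k2, k3⟩
    · rintro ⟨t, k1, k2, k3⟩
      rcases Nat.lt_or_ge (a + 1) (g t) with h | h
      · exact Or.inr ⟨t, h, k2, k3⟩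
      · exact Or.inl ⟨t, by omega, k2, k3⟩
  rw [e1, e2]
  tauto

/-- No weak shape with a short first run beyond the level `R + g 0`. -/
theorem lev_short (hy0 : y 0 = R) (hy : ∀ t, y (t + 1) = g t) (hRg : ∀ t, R < g t)
    (h1 : ∀ t, g t = g 0 → t = 0) (hp : ∀ n, ∃ t, n ≤ g t) {a b : ℕ} {m : List ℕ} (ha : a ≤ R)
    (hw : WkS y a m b) : a + m.sum + b = R + g 0 := by
  obtain ⟨⟨⟨t, k1, k2, k3⟩, ⟨t', k1', k2', k3'⟩⟩, h2, _⟩ := hw
  have hfar : ∀ t, 1 ≤ t → R < y t := by
    intro t ht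
    rw [show t = t - 1 + 1 by omega, hy]
    exact hRg _
  have ha0 : a = R := by
    by_contra hne
    have hkey : ∀ t, a ≤ y t → a + 1 ≤ y t := by
      intro t hat
      rcases Nat.eq_zero_or_pos t with rfl | ht
      · omega
      · have := hfar t ht; omega
    exact h2 ⟨⟨t, hkey t k1, k2, k3⟩, ⟨t', hkey t' k1', k2', k3'⟩⟩
  have hkey : ∀ t, 1 ≤ t → a + 1 ≤ y t := fun t ht => by have := hfar t ht; omega
  have h0 : ¬ (1 ≤ t ∧ 1 ≤ t') := by
    rintro ⟨q1, q2⟩
    exact h2 ⟨⟨t, hkey t q1, k2, k3⟩, ⟨t', hkey t' q2, k2', k3'⟩⟩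
  have hone : ∀ s, y (s + 1) = y 1 → s = 0 := by
    intro s hs
    rw [hy, show (1 : ℕ) = 0 + 1 from rfl, hy] at hs
    exact h1 s hs
  have hm : m = [] := by
    cases m with
    | nil => rfl
    | cons x m =>
      exfalso
      have e1 := k2.1
      have e2 := k2'.1
      have e3 : t = 0 ∧ t' = 0 := by
        rcases Nat.eq_zero_or_pos t with r1 | r1
        · refine ⟨r1, ?_⟩
          rw [r1] at e1
          exact hone t' (by rw [e2]; exact e1.symm)
        · have r2 : t' = 0 := by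
            by_contra hne
            exact h0 ⟨r1, by omega⟩
          exfalso
          rw [r2] at e2
          have := hone t (by rw [e1]; exact e2.symm)
          omega
      rw [e3.1] at k3
      rw [e3.2] at k3'
      omega
  subst hm
  simp only [List.length_nil, add_zero, List.sum_nil] at k3 k3' ⊢
  rcases Nat.eq_zero_or_pos t with r1 | r1
  · rw [r1, hy] at k3
    omega
  · exfalso
    obtain ⟨s, hs⟩ := hp (max (b + 1) (g 0 + 1))
    have hs0 : s ≠ 0 := by
      rintro rfl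
      omega
    refine h2 ⟨⟨t, hkey t r1, trivial, by simpa using k3⟩, ⟨s, hkey s (by omega), trivial, ?_⟩⟩
    simp only [List.length_nil, add_zero]
    rw [hy]
    omega

end

open scoped Classical in
/-- **Level equation.** Beyond the longest recurrent prefix, the second difference of the complexity
is `[N is a run] + #strong - #weak`. -/
theorem level {y g : ℕ → ℕ} {R : ℕ} (hR : 0 < R) (hy0 : y 0 = R) (hy : ∀ t, y (t + 1) = g t)
    (hRg : ∀ t, R < g t) (h1 : ∀ t, g t = g 0 → t = 0) (hp : ∀ n, ∃ t, n ≤ g t)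
    {N : ℕ} (hN : R + g 0 < N) :
    complexity (blk y) (N + 1) + complexity (blk y) (N - 1) + (WS g N).ncard =
      2 * complexity (blk y) N + (SS g N).ncard + (if N ∈ Set.range g then 1 else 0) := by
  have hpos : ∀ t, 0 < y t := by
    intro t
    cases t with
    | zero => omega
    | succ t => rw [hy]; have := hRg t; omega
  have hunb : ∀ n, ∃ t, 1 ≤ t ∧ n < y t := by
    intro n
    obtain ⟨t, ht⟩ := hp (n + 1)
    exact ⟨t + 1, by omega, by rw [hy]; omega⟩
  obtain ⟨n, rfl⟩ : ∃ n, N = n + 1 := ⟨N - 1, by omega⟩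
  have hid := level_identity hpos hunb n
  have hV : VV y (n + 1) ↔ n + 1 ∈ Set.range g := by
    constructor
    · rintro ⟨t, ht1, ht2⟩
      exact ⟨t - 1, by rw [← hy, Nat.sub_add_cancel ht1]; exact ht2⟩
    · rintro ⟨t, ht⟩
      exact ⟨t + 1, by omega, by rw [hy]; exact ht⟩
  have hseg : ∀ {t : ℕ} {m : List ℕ}, Seg g t m → ∀ x ∈ m, 1 ≤ x := by
    intro t m hs x hx
    obtain ⟨k, hk, rfl⟩ := List.getElem_of_mem hx
    rw [← hs k hk]
    have := hRg (t + k); omega
  have hlen : Function.Injective (fun p : ℕ × List ℕ => (p.1, p.2, n + 1 - p.1 - p.2.sum)) := by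
    rintro ⟨a, m⟩ ⟨a', m'⟩ h
    simp only [Prod.mk.injEq] at h
    rw [h.1, h.2.1]
  have hS : SS g (n + 1) =
      (fun p : ℕ × List ℕ => (p.1, p.2, n + 1 - p.1 - p.2.sum)) '' StSet y (n + 1) := by
    ext ⟨a, m, b⟩
    constructor
    · rintro ⟨h2, h3⟩
      simp only at h2 h3
      have ha : R < a := by
        obtain ⟨t, ht, _⟩ := h2.1
        have := hRg t; omega
      have hb : R < b := by
        obtain ⟨t, _, _, ht⟩ := h2.1
        have := hRg (t + 1 + m.length); omega
      refine ⟨(a, m), ⟨by simp only; omega, ?_, by simp only; omega, ?_⟩, ?_⟩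
      · obtain ⟨t, _, ht, _⟩ := h2.1
        exact hseg ht
      · simp only
        rw [show n + 1 - a - m.sum = b by omega]
        exact (lev_strong hpos hy0 hy hRg).2 h2
      · simp only [Prod.mk.injEq, true_and]
        omega
    · rintro ⟨⟨a', m'⟩, ⟨k1, k2, k3, k4⟩, he⟩
      simp only at k1 k2 k3 k4
      simp only [Prod.mk.injEq] at he
      obtain ⟨rfl, rfl, rfl⟩ := he
      refine ⟨(lev_strong hpos hy0 hy hRg).1 k4, ?_⟩
      simp only
      omega
  have hW : WS g (n + 1) =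
      (fun p : ℕ × List ℕ => (p.1, p.2, n + 1 - p.1 - p.2.sum)) '' WkSet y (n + 1) := by
    ext ⟨a, m, b⟩
    constructor
    · rintro ⟨h2, h3⟩
      simp only at h2 h3
      have hab : R < a ∧ R < b ∧ ∃ t, Seg g t m := by
        rcases h2 with ⟨⟨t, t1, t2, t3⟩, _⟩ | ⟨⟨t, t1, t2, t3⟩, ⟨t', t1', _⟩, _⟩
        · have h5 := hRg t
          have h6 := hRg (t + 1 + m.length)
          exact ⟨by omega, by omega, _, t2⟩
        · have h5 := hRg t'
          have h6 := hRg (t + 1 + m.length)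
          exact ⟨by omega, by omega, _, t2⟩
      obtain ⟨ha, hb, t, ht⟩ := hab
      refine ⟨(a, m), ⟨by simp only; omega, hseg ht, by simp only; omega, ?_⟩, ?_⟩
      · simp only
        rw [show n + 1 - a - m.sum = b by omega]
        exact (lev_weak hpos hy0 hy ha).2 h2
      · simp only [Prod.mk.injEq, true_and]
        omega
    · rintro ⟨⟨a', m'⟩, ⟨k1, k2, k3, k4⟩, he⟩
      simp only at k1 k2 k3 k4
      simp only [Prod.mk.injEq] at he
      obtain ⟨rfl, rfl, rfl⟩ := he
      have ha : R < a' := by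
        by_contra hle
        have := lev_short hy0 hy hRg h1 hp (by omega) k4
        omega
      refine ⟨(lev_weak hpos hy0 hy ha).1 k4, ?_⟩
      simp only
      omega
  rw [hS, hW, Set.ncard_image_of_injective _ hlen, Set.ncard_image_of_injective _ hlen]
  have c1 := complexity_succ (blk y) (n + 1)
  have c2 := complexity_succ (blk y) n
  have hVc : (if VV y (n + 1) then 1 else 0) = (if n + 1 ∈ Set.range g then 1 else 0) := by
    by_cases h : n + 1 ∈ Set.range g
    · rw [if_pos h, if_pos (hV.2 h)]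
    · rw [if_neg h, if_neg fun k => h (hV.1 k)]
  rw [hVc] at hid
  rw [show n + 1 - 1 = n by omega, c1, c2]
  omega

end Pool.Agent.CF2
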