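import Pool.Agent.CF2.BaseW
import Pool.Agent.CF2.Lev
import Pool.Agent.CF2.Asm

/-!
# CF2: from the word to the run sequence
-/

namespace Pool.Agent.CF2

open Pool.Agent.Helper79.CF

theorem wld_pos (u : ℕ → Bool) (n : ℕ) : 1 ≤ complexity u n := by
  unfold complexity
  have h : (factors u n).Nonempty := ⟨_, ⟨0, rfl⟩⟩
  exact (Set.ncard_pos (Set.toFinite _)).mpr h

theorem wld_ff {T : ℕ → Prop} {u : ℕ → Bool} (h : ∀ n, complexity u n = FF T n) (n : ℕ) :
    ff T n = complexity u n := by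
  have h1 := wld_pos u n
  rw [h n] at h1 ⊢
  unfold FF at h1 ⊢
  omega

theorem wld_slope (T : ℕ → Prop) (n : ℕ) : ff T (n + 1) = ff T n + sl T n := by
  unfold ff
  rw [Finset.sum_range_succ]
  ring

theorem wld_nums (G i : ℕ) (hi : i < 20) : 1 ≤ 2 ^ (i + 1) ∧ 2 ^ (i + 1) ≤ 2 ^ 20 ∧
    G ≤ G + 2 ^ (i + 1) - 1 ∧ G + 2 ^ (i + 1) - 1 + 1 ≤ 2 * G + 2 ^ 18 + 2 ^ 20 ∧
    G + 2 ^ (i + 1) - 1 ≤ G + 2 ^ 21 := by
  have h1 : 1 ≤ 2 ^ (i + 1) := Nat.one_le_two_pow
  have h2 : 2 ^ (i + 1) ≤ 2 ^ 20 := Nat.pow_le_pow_right (by norm_num) (by omega)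
  have h3 : (2 : ℕ) ^ 20 ≤ 2 ^ 21 := Nat.pow_le_pow_right (by norm_num) (by norm_num)
  generalize 2 ^ (i + 1) = a at *
  generalize (2 : ℕ) ^ 18 = b at *
  generalize (2 : ℕ) ^ 20 = c at *
  generalize (2 : ℕ) ^ 21 = d at *
  omega

theorem wld_card (G : ℕ) : 20 ≤ ((Finset.range 20).image fun i => G + 2 ^ (i + 1) - 1).card := by
  rw [Finset.card_image_of_injOn, Finset.card_range]
  intro i _ j _ hij
  simp only at hij
  have hi : 1 ≤ 2 ^ (i + 1) := Nat.one_le_two_pow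
  have hj : 1 ≤ 2 ^ (j + 1) := Nat.one_le_two_pow
  have h3 : 2 ^ (i + 1) = 2 ^ (j + 1) := by omega
  have h4 := Nat.pow_right_injective (le_refl 2) h3
  omega

theorem wld_win_aux {f : ℕ → ℕ} {F s d : ℕ → ℤ} (G : ℕ) (hff : ∀ n, F n = f n)
    (hs : ∀ n, F (n + 1) = F n + s n)
    (hd : ∀ N, 1 ≤ N → F (N + 1) - 2 * F N + F (N - 1) = d N) (h1 : s G = 2)
    (h2 : s (2 * G + 2 ^ 18 + 2 ^ 20) = 2)
    (h3 : ∀ i, 1 ≤ i → i ≤ 20 → d (G + 2 ^ i) = 1) :
    Win f G (2 * G + 2 ^ 18 + 2 ^ 20) ((Finset.range 20).image fun i => G + 2 ^ (i + 1) - 1) := by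
  constructor
  · have e := hs G
    rw [hff, hff, h1] at e
    exact_mod_cast e
  · have e := hs (2 * G + 2 ^ 18 + 2 ^ 20)
    rw [hff, hff, h2] at e
    exact_mod_cast e
  · have : (2 : ℕ) ^ 18 + 2 ^ 20 ≤ 2 ^ 21 := by norm_num
    rw [add_assoc]
    exact Nat.add_le_add_left this _
  · exact wld_card G
  · intro x hx
    rw [Finset.mem_image] at hx
    obtain ⟨i, hi, rfl⟩ := hx
    rw [Finset.mem_range] at hi
    obtain ⟨k1, k2, k3, k4, k5⟩ := wld_nums G i hi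
    refine ⟨k3, k4, k5, ?_⟩
    have hd1 := h3 (i + 1) (by omega) (by omega)
    have hs1 := hd (G + 2 ^ (i + 1)) (by omega)
    rw [hd1, hff, hff, hff] at hs1
    have e1 : G + 2 ^ (i + 1) - 1 + 1 = G + 2 ^ (i + 1) := by omega
    have e2 : G + 2 ^ (i + 1) - 1 + 2 = G + 2 ^ (i + 1) + 1 := by omega
    rw [e1, e2]
    omega

theorem wld_win {T : ℕ → Prop} {u : ℕ → Bool} (h : ∀ n, complexity u n = FF T n) (N : ℕ) :
    ∃ G n' S, N ≤ G ∧ Win (complexity u) G n' S := by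
  have h7 : (7 * N) % 7 ≠ 6 := by omega
  obtain ⟨h1, h2⟩ := sl_window (T := T) h7
  have h3 := fun i => dl_window (T := T) (i := i) h7
  have hG : N ≤ GG (P T (7 * N)) := by
    have h8 := P_ge T (7 * N)
    have h9 : P T (7 * N) ≤ GG (P T (7 * N)) := by
      unfold GG
      rw [add_assoc]
      exact Nat.le_add_right _ _
    exact le_trans (by omega) (h8.trans h9)
  generalize GG (P T (7 * N)) = G at *
  exact ⟨G, _, _, hG, wld_win_aux G (wld_ff h) (wld_slope T) (fun N => ff_second T (N := N))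
    h1 h2 h3⟩

theorem wld_of {T : ℕ → Prop} {u : ℕ → Bool} (h : ∀ n, complexity u n = FF T n) :
    ∃ g, Wld T g := by
  classical
  have hff := wld_ff h
  obtain ⟨b1, b2, b3, b4⟩ := ff_base T
  have hM : 2 ^ 21 ≤ MM := by
    unfold MM
    exact Nat.pow_le_pow_right (by norm_num) (by norm_num)
  obtain ⟨y, g, hu, hpos, hy, h0, h1, hlow, hm1, hm2, hm3, hgb⟩ := basew (u := u) (M := MM) hM
    (fun n hn => by
      have := b1 n hn
      rw [hff] at this
      exact_mod_cast this)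
    (by rw [hff] at b2; exact_mod_cast b2) (by rw [hff] at b3; exact_mod_cast b3)
    (by rw [hff] at b4; exact_mod_cast b4) (wld_win h)
  have hc : ∀ n, complexity (blk y) n = complexity u n := by
    intro n
    rcases hu with hu | hu
    · rw [hu]
    · rw [hu, complexity_not]
  refine ⟨g, hgb, hlow, hm1, hm2, hm3, ?_, h1, ?_⟩
  · rcases h0 with h0 | h0
    · exact Or.inl h0.2
    · exact Or.inr h0.2
  · intro N hN
    have hR : 0 < y 0 ∧ y 0 ≤ 2 ∧ y 0 + g 0 = MM + 3 := by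
      rcases h0 with h0 | h0 <;> omega
    have hl := level (R := y 0) hR.1 rfl hy (fun t => by have := hlow t; omega) h1
      (fun n => by
        obtain ⟨t, ht, _⟩ := hgb n
        exact ⟨t, ht⟩) (N := N) (by omega)
    have hs := ff_second T (N := N) (by omega)
    rw [hff, hff, hff, ← hc, ← hc, ← hc] at hs
    split_ifs at hl ⊢ with hr
    · omega
    · omega

end Pool.Agent.CF2
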