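import Pool.Agent.CF2.BRA
import Pool.Agent.CF2.WLD
import Pool.Agent.CF2.SUF
import Pool.Agent.CF2.TREE
import Pool.Agent.CF2.NUMB
import Pool.Agent.CFX.EMB
import Pool.Agent.CFX.ANA

/-!
# CF2: the theorem for all alphabets with at least two letters
-/

namespace Pool.Agent.CF2

open MeasureTheory Pool.Agent.Helper79.CF

/-- **Correctness of the design.** -/
theorem FF_iff (T : ℕ → Prop) :
    (∃ u : ℕ → Bool, complexity u = FF T) ↔ ∃ a : ℕ → ℕ, ∀ k, T (nd a (k + 1)) := by
  constructor
  · rintro ⟨u, hu⟩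
    obtain ⟨g, hg⟩ := wld_of fun n => congrFun hu n
    exact branch_of hg
  · rintro ⟨a, ha⟩
    obtain ⟨y, hy⟩ := suff ha
    exact ⟨blk y, funext hy⟩

theorem FF_one (T : ℕ → Prop) : FF T 1 = 2 := by
  unfold FF
  have h := (ff_base T).1 1 (by unfold MM; norm_num)
  rw [h]
  rfl

/-- Letters do not matter. -/
theorem range_iff (A : Type*) [Fintype A] (hA : 2 ≤ Fintype.card A) (T : ℕ → Prop) :
    FF T ∈ Set.range (complexity : (ℕ → A) → ℕ → ℕ) ↔ ∃ u : ℕ → Bool, complexity u = FF T := by
  classical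
  constructor
  · rintro ⟨u, hu⟩
    have h1 : (Set.range u).ncard = 2 := by
      rw [← emb_one, hu, FF_one]
    obtain ⟨a, b, hab, hr⟩ := Set.ncard_eq_two.1 h1
    refine ⟨fun i => decide (u i = a), ?_⟩
    rw [← hu]
    refine complexity_comp (fun x => decide (x = a)) u ?_
    rw [hr]
    intro x hx y hy hxy
    simp only [Set.mem_insert_iff, Set.mem_singleton_iff] at hx hy
    simp only at hxy
    rcases hx with rfl | rfl <;> rcases hy with rfl | rfl
    · rfl
    · simp [Ne.symm hab] at hxy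
    · simp [Ne.symm hab] at hxy
    · rfl
  · rintro ⟨u, hu⟩
    have hcard : Fintype.card Bool ≤ Fintype.card A := by simpa using hA
    obtain ⟨e⟩ := Function.Embedding.nonempty_of_card_le hcard
    exact ⟨fun i => e (u i), (complexity_comp e u e.injective.injOn).trans hu⟩

/-- **Theorem.** For every finite alphabet with at least two letters the set of the complexity
functions of the infinite words is a complete analytic set, already inside the set of the functions
with `f n ≤ 22 * n + 1`: every analytic set is the inverse image under a continuous map with values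
there, and no Borel set contains the same functions of this kind. -/
theorem final (A : Type*) [Fintype A] (hA : 2 ≤ Fintype.card A) :
    AnalyticSet (Set.range (complexity : (ℕ → A) → ℕ → ℕ)) ∧
      (∀ S : Set (ℕ → ℕ), AnalyticSet S → ∃ Φ : (ℕ → ℕ) → ℕ → ℕ, Continuous Φ ∧
        (∀ z n, Φ z n ≤ 22 * n + 1) ∧
        Φ ⁻¹' Set.range (complexity : (ℕ → A) → ℕ → ℕ) = S) ∧
      ∀ B : Set (ℕ → ℕ), @MeasurableSet (ℕ → ℕ) (borel (ℕ → ℕ)) B →
        ∃ f : ℕ → ℕ, (∀ n, f n ≤ 22 * n + 1) ∧
          ¬ (f ∈ B ↔ f ∈ Set.range (complexity : (ℕ → A) → ℕ → ℕ)) := by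
  have hT := fun T => (range_iff A hA T).trans (FF_iff T)
  refine ⟨analytic_range A, fun S hS => ?_, fun B hB => ?_⟩
  · obtain ⟨Φ, h1, h2, h3⟩ := (complete_tree _ FF hT fun _ _ _ h => FF_local h).1 S hS
    refine ⟨Φ, h1, fun z n => ?_, h3⟩
    obtain ⟨T, hz⟩ := h2 z
    rw [hz]
    exact FF_le T n
  · by_contra hno
    push Not at hno
    -- the functions of linear growth in `B`
    have hL : IsClosed {f : ℕ → ℕ | ∀ n, f n ≤ 22 * n + 1} := by
      have h1 : {f : ℕ → ℕ | ∀ n, f n ≤ 22 * n + 1} = ⋂ n, {f : ℕ → ℕ | f n ≤ 22 * n + 1} := by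
        ext f; simp
      rw [h1]
      exact isClosed_iInter fun n => isClosed_le (continuous_apply n) continuous_const
    have hBL : @MeasurableSet (ℕ → ℕ) (borel (ℕ → ℕ)) (B ∩ {f | ∀ n, f n ≤ 22 * n + 1}) := by
      rw [← BorelSpace.measurable_eq (α := ℕ → ℕ)] at hB ⊢
      exact hB.inter hL.measurableSet
    refine (complete_tree (B ∩ {f | ∀ n, f n ≤ 22 * n + 1}) FF (fun T => ?_)
      fun _ _ _ h => FF_local h).2 hBL
    rw [← hT, ← hno _ (FF_le T)]
    exact ⟨fun h => h.1, fun h => ⟨h, FF_le T⟩⟩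

end Pool.Agent.CF2
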