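import Pool.Agent.CF2.WN

/-!
# CF2: gadget stage, state N, first half
-/

namespace Pool.Agent.CF2

/-- The hypotheses of the gadget stage in state N. -/
structure G1H (g : ℕ → ℕ) (old : ℕ → ℕ → Prop) (p z v ν X C B Y Z1 Z2 Bd hi : ℕ) (Q : Set ℕ)
    (d : ℕ → ℤ) : Prop where
  gb : GB g
  pos : ∀ t, 0 < g t
  I : NI g old p z v Bd Q
  P : GP p z v ν X C B Y Z1 Z2
  bd : Z1 + Z2 < Bd
  hi1 : Z1 + Z2 < hi
  dg : DG d p z X C B Y Z1 Z2
  l : RLE g old d z hi

section

variable {g : ℕ → ℕ} {old : ℕ → ℕ → Prop} {p z v ν X C B Y Z1 Z2 Bd hi : ℕ} {Q : Set ℕ}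
  {d : ℕ → ℤ}

/-- (1) -/
theorem G1H.one (h : G1H g old p z v ν X C B Y Z1 Z2 Bd hi Q d) (hzv : Adj g z v) :
    Adj g p v := by
  obtain ⟨hgb, hpos, hI, hP, hBd, hhi, hd, hl⟩ := h
  obtain ⟨hz, hX, hC, hB1, hB2, hY, hZ1, hZ2, hv, hn, hv', hn', g1, g2, g3⟩ := hP
  by_contra hpv
  obtain ⟨b, hb1, hb2⟩ := hI.z_big hgb
  by_cases hA : ∃ x, z < x ∧ Adj g x v
  · have hs : Strong g z [] v := (strong_iff hgb).2 ⟨hzv, hA, b, by omega, hb2⟩
    have hN : z + ([] : List ℕ).sum + v = z + v := by simp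
    have hd0 := hd.rest (z + v) (by omega) (by omega) (by omega) (by omega)
    obtain ⟨i, σ, j, ho⟩ := hl.str hpos (by omega) (by omega) hd0.le hs hN
    obtain ⟨h1, h2, h3, h4, h5⟩ := hI.op hgb ho (by omega)
    rcases h5 with ⟨rfl, h6, h7, h8, h9⟩ | ⟨S, x, w, h6, h7, h8, h9, h10, h11, h12, _⟩
    · rcases h1 with rfl | rfl | h1
      · omega
      · have : j = v := by omega
        subst this
        obtain ⟨x, hx1, hx2⟩ := hA
        have := h8 x hx2
        omega
      · omega
    · omega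
  · push Not at hA
    refine hI.z_only fun x hx => ?_
    rcases hI.pred_v hx with h | h | h
    · subst h; exact absurd hx hpv
    · rw [h]; exact hI.Qz
    · exact absurd hx (hA x h)

/-- (2a) -/
theorem G1H.twoA (h : G1H g old p z v ν X C B Y Z1 Z2 Bd hi Q d) (hpv : Adj g p v)
    (hno : ∀ x, Adj g x v → x ≤ p) : False := by
  obtain ⟨hgb, hpos, hI, hP, hBd, hhi, hd, hl⟩ := h
  obtain ⟨hz, hX, hC, hB1, hB2, hY, hZ1, hZ2, hv, hn, hv', hn', g1, g2, g3⟩ := hP
  have hpz := hI.pz
  have hpo : ∀ x, Adj g p x → x = v := fun x hx => succ_of_once hI.once hx hpv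
  have hpr : ∀ x, Adj g x v → x = p := by
    intro x hx
    have := hno x hx
    rcases hI.pred_v hx with h | h | h <;> omega
  have hzv : ¬ Adj g z v := fun h => by have := hpr z h; omega
  have hwk : Weak g p [] v := (weak_iff hgb).2 ⟨hpv, hno, fun x hx => (hpo x hx).le⟩
  have hop : Op g old (p + v) p [] v := op_of_weak hwk rfl (hI.old_pv v)
  have hd0 : ∀ N, z < N → N < X → d N = 0 := fun N h1 h2 =>
    hd.rest N h1 (by omega) (by omega) (by omega)
  -- the value `p + v`
  have hh : p + v ∈ Set.range g := by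
    refine hl.zero_only hpos (N := p + v) (w := (p, [], v)) (by omega) (by omega)
      (hd0 _ (by omega) (by omega)) (fun i σ j ho => ?_) (fun i σ j hs hN => ?_) hop
    · obtain ⟨h1, h2, h3, h4, h5⟩ := hI.op hgb ho (by omega)
      rcases h5 with ⟨rfl, h6, h7, h8, h9⟩ | ⟨S, x, w, h6, h7, h8, h9, h10, h11, h12, _⟩
      · rcases h1 with rfl | rfl | h1
        · have : j = v := by omega
          rw [this]
        · omega
        · omega
      · omega
    · obtain ⟨h1, h2, h3, h4, h5⟩ := hI.st hgb hs hN (by omega)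
      rcases h5 with ⟨rfl, h6, h7, ⟨x, hx1, hx2⟩, h9⟩ | ⟨S, x, w, h6, h7, h8, h9, h10, h11, h12, _⟩
      · rcases h1 with rfl | rfl | h1
        · have : j = v := by omega
          subst this
          have := hpr x hx2
          omega
        · omega
        · omega
      · omega
  -- it is the only one below `X`
  have honly : ∀ y ∈ Set.range g, z < y → y < X → y = p + v := by
    intro y
    induction y using Nat.strong_induction_on with
    | _ y ih =>
      intro hy1 hy2 hy3
      by_contra hne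
      obtain ⟨i, σ, j, ho⟩ := hl.val (by omega) (by omega) (hd0 _ hy2 hy3).le hy1
      obtain ⟨h1, h2, h3, h4, h5⟩ := hI.op hgb ho (by omega)
      rcases h5 with ⟨rfl, h6, h7, h8, h9⟩ | ⟨S, x, w, h6, h7, h8, h9, h10, h11, h12, _⟩
      · rcases h1 with rfl | rfl | h1
        · have := hpo j h7
          omega
        · rcases h2 with rfl | h2
          · exact hzv h7
          · have := ih j (by omega) h4 h2 (by omega)
            omega
        · have e1 := ih i (by omega) h3 h1 (by omega)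
          rcases h2 with rfl | h2
          · have := hpr i h7
            omega
          · have := ih j (by omega) h4 h2 (by omega)
            omega
      · omega
  -- the level of the first down
  have hge : ∀ y ∈ Set.range g, z < y → p + v ≤ y := by
    intro y hy1 hy2
    rcases Nat.lt_or_ge y X with h | h
    · rw [honly y hy1 hy2 h]
    · omega
  obtain ⟨i, σ, j, ho⟩ := hl.down (N := p + X) (by omega) (by omega)
    (by rw [hd.dn (p + X) (by simp)]; norm_num)
  obtain ⟨h1, h2, h3, h4, h5⟩ := hI.op hgb ho (by omega)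
  rcases h5 with ⟨rfl, h6, h7, h8, h9⟩ | ⟨S, x, w, h6, h7, h8, h9, h10, h11, h12, h13, h14, _⟩
  · rcases h1 with rfl | rfl | h1
    · have := hpo j h7
      omega
    · rcases h2 with rfl | h2
      · exact hzv h7
      · have := honly j h4 h2 (by omega)
        omega
    · rcases h2 with rfl | h2
      · have := hpr i h7
        omega
      · have e1 := hge i h3 h1
        have e2 := hge j h4 h2
        have e3 := honly i h3 h1 (by omega)
        have e4 := honly j h4 h2 (by omega)
        rw [e3, e4] at h7 h9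
        refine succ_closed hgb (F := {p + v}) (B := p + v) (by simp) ?_ (p + v) rfl hh
        intro x hx y hy
        rw [Set.mem_singleton_iff] at hx
        subst hx
        have e5 := h9 y hy
        rcases Nat.lt_or_ge z y with e6 | e6
        · exact honly y hy.right e6 (by omega)
        · exfalso
          rcases hI.toj _ _ hy e6 with e7 | e7
          · rw [e7] at hy
            have := hpr _ hy
            omega
          · exact hI.old_big (Or.inl (by omega)) e7
  · have hjv : z < j := by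
      rcases h2 with rfl | h2
      · have := hpr w h14.1
        omega
      · exact h2
    have e1 := hge j h4 hjv
    have e2 := hge x h7 h8
    rcases h1 with rfl | rfl | h1
    · have := hpo x h13.1
      omega
    · omega
    · have e3 := hge i h3 h1
      omega

/-- (2b) -/
theorem G1H.twoB (h : G1H g old p z v ν X C B Y Z1 Z2 Bd hi Q d) (hpv : Adj g p v)
    (hno : ∃ x, p < x ∧ Adj g x v) : False := by
  obtain ⟨hgb, hpos, hI, hP, hBd, hhi, hd, hl⟩ := h
  obtain ⟨hz, hX, hC, hB1, hB2, hY, hZ1, hZ2, hv, hn, hv', hn', g1, g2, g3⟩ := hP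
  have hpz := hI.pz
  have hpo : ∀ x, Adj g p x → x = v := fun x hx => succ_of_once hI.once hx hpv
  obtain ⟨b, hb1, hb2⟩ := hI.z_big hgb
  obtain ⟨c, hc1, hc2⟩ := hno
  have hd0 : ∀ N, z < N → N < X → d N = 0 := fun N h1 h2 =>
    hd.rest N h1 (by omega) (by omega) (by omega)
  -- no value below `X`
  have hemp : ∀ y ∈ Set.range g, z < y → X ≤ y := by
    intro y
    induction y using Nat.strong_induction_on with
    | _ y ih =>
      intro hy1 hy2
      by_contra hy3
      obtain ⟨i, σ, j, ho⟩ := hl.val (by omega) (by omega) (hd0 _ hy2 (by omega)).le hy1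
      obtain ⟨h1, h2, h3, h4, h5⟩ := hI.op hgb ho (by omega)
      rcases h5 with ⟨rfl, h6, h7, h8, h9⟩ | ⟨S, x, w, h6, h7, h8, h9, h10, h11, h12, _⟩
      · rcases h1 with rfl | rfl | h1
        · have := hpo j h7
          subst this
          have := h8 c hc2
          omega
        · rcases h2 with rfl | h2
          · have := h9 b hb2
            omega
          · have := ih j (by omega) h4 h2
            omega
        · have e1 := ih i (by omega) h3 h1
          omega
      · omega
  -- the first down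
  have hy : ∃ y ∈ Set.range g, y + v = p + X ∧ Adj g y v ∧ ∀ x, Adj g x v → x ≤ y := by
    obtain ⟨i, σ, j, ho⟩ := hl.down (N := p + X) (by omega) (by omega)
      (by rw [hd.dn (p + X) (by simp)]; norm_num)
    obtain ⟨h1, h2, h3, h4, h5⟩ := hI.op hgb ho (by omega)
    rcases h5 with ⟨rfl, h6, h7, h8, h9⟩ | ⟨S, x, w, h6, h7, h8, h9, h10, h11, h12, h13, h14, _⟩
    · rcases h1 with rfl | rfl | h1
      · have := hpo j h7
        omega
      · rcases h2 with rfl | h2
        · have := h9 b hb2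
          omega
        · have := hemp j h4 h2
          omega
      · rcases h2 with rfl | h2
        · exact ⟨i, h3, h6, h7, h8⟩
        · have := hemp j h4 h2
          have := hemp i h3 h1
          omega
    · have e2 := hemp x h7 h8
      rcases h1 with rfl | rfl | h1
      · have := hpo x h13.1
        omega
      · omega
      · have e3 := hemp i h3 h1
        omega
  obtain ⟨y, hy1, hy2, hy3, hy4⟩ := hy
  obtain ⟨i, σ, j, ho⟩ := hl.val (N := y) (by omega) (by omega)
    (hd.rest y (by omega) (by omega) (by omega) (by omega)).le hy1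
  obtain ⟨h1, h2, h3, h4, h5⟩ := hI.op hgb ho (by omega)
  rcases h5 with ⟨rfl, h6, h7, h8, h9⟩ | ⟨S, x, w, h6, h7, h8, h9, h10, h11, h12, h13, h14, _⟩
  · rcases h1 with rfl | rfl | h1
    · have := hpo j h7
      subst this
      have := h8 c hc2
      omega
    · rcases h2 with rfl | h2
      · have := h9 b hb2
        omega
      · have := hemp j h4 h2
        omega
    · rcases h2 with rfl | h2
      · have := h8 y hy3
        omega
      · have := hemp j h4 h2
        have := hemp i h3 h1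
        omega
  · have e2 := hemp x h7 h8
    rcases h1 with rfl | rfl | h1
    · have := hpo x h13.1
      omega
    · omega
    · have e3 := hemp i h3 h1
      omega

/-- (2) -/
theorem G1H.two (h : G1H g old p z v ν X C B Y Z1 Z2 Bd hi Q d) : ¬ Adj g p v := by
  intro hpv
  by_cases h' : ∃ x, p < x ∧ Adj g x v
  · exact h.twoB hpv h'
  · push Not at h'
    refine h.twoA hpv fun x hx => ?_
    by_contra hc
    exact h' x (by omega) hx

theorem G1H.zv (h : G1H g old p z v ν X C B Y Z1 Z2 Bd hi Q d) : ¬ Adj g z v :=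
  fun hx => h.two (h.one hx)

theorem G1H.sp (h : G1H g old p z v ν X C B Y Z1 Z2 Bd hi Q d) {x : ℕ} (hx : Adj g p x) :
    z < x := by
  rcases h.I.succ_p hx with h1 | h1
  · rw [h1] at hx; exact absurd hx h.two
  · exact h1

theorem G1H.sz (h : G1H g old p z v ν X C B Y Z1 Z2 Bd hi Q d) {x : ℕ} (hx : Adj g z x) :
    z < x := by
  rcases h.I.succ_z hx with h1 | h1
  · rw [h1] at hx; exact absurd hx h.zv
  · exact h1

theorem G1H.gap (h : G1H g old p z v ν X C B Y Z1 Z2 Bd hi Q d) :
    ∀ y ∈ Set.range g, z < y → X ≤ y := by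
  obtain ⟨hz, hX, hC, hB1, hB2, hY, hZ1, hZ2, hv, hn, hv', hn', g1, g2, g3⟩ := h.P
  have hbd := h.bd
  have hhi := h.hi1
  intro y
  induction y using Nat.strong_induction_on with
  | _ y ih =>
    intro hy1 hy2
    by_contra hy3
    obtain ⟨i, σ, j, ho⟩ := h.l.val (by omega) (by omega)
      (h.dg.rest y hy2 (by omega) (by omega) (by omega)).le hy1
    obtain ⟨h1, h2, h3, h4, h5⟩ := h.I.op h.gb ho (by omega)
    rcases h5 with ⟨rfl, h6, h7, h8, h9⟩ | ⟨S, x, w, h6, h7, h8, h9, h10, h11, h12, _⟩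
    · rcases h1 with rfl | rfl | h1
      · have := ih j (by omega) h4 (h.sp h7)
        omega
      · have := ih j (by omega) h4 (h.sz h7)
        omega
      · have e1 := ih i (by omega) h3 h1
        omega
    · omega

theorem G1H.pv (h : G1H g old p z v ν X C B Y Z1 Z2 Bd hi Q d) {x : ℕ} (hx : Adj g x v) :
    X ≤ x := by
  rcases h.I.pred_v hx with h1 | h1 | h1
  · rw [h1] at hx; exact absurd hx h.two
  · rw [h1] at hx; exact absurd hx h.zv
  · exact h.gap x hx.left h1

theorem G1H.spX (h : G1H g old p z v ν X C B Y Z1 Z2 Bd hi Q d) {x : ℕ} (hx : Adj g p x) :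
    X ≤ x := h.gap x hx.right (h.sp hx)

theorem G1H.szX (h : G1H g old p z v ν X C B Y Z1 Z2 Bd hi Q d) {x : ℕ} (hx : Adj g z x) :
    X ≤ x := h.gap x hx.right (h.sz hx)

/-- Open words below `p + X` -/
theorem G1H.opl (h : G1H g old p z v ν X C B Y Z1 Z2 Bd hi Q d) {N i σ j}
    (ho : Op g old N i σ j) (hN : N < p + X) : σ = [] ∧ j = v ∧ i + v = N ∧ X ≤ i ∧ Adj g i v ∧
      (∀ x, Adj g x v → x ≤ i) := by
  obtain ⟨hz, hX, hC, hB1, hB2, hY, hZ1, hZ2, hv, hn, hv', hn', g1, g2, g3⟩ := h.P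
  have hbd := h.bd
  have hpz := h.I.pz
  obtain ⟨h1, h2, h3, h4, h5⟩ := h.I.op h.gb ho (by omega)
  rcases h5 with ⟨rfl, h6, h7, h8, h9⟩ | ⟨S, x, w, h6, h7, h8, h9, h10, h11, h12, _⟩
  · rcases h1 with rfl | rfl | h1
    · have := h.spX h7
      omega
    · have := h.szX h7
      omega
    · have e1 := h.gap i h3 h1
      rcases h2 with rfl | h2
      · exact ⟨rfl, rfl, h6, e1, h7, h8⟩
      · have e2 := h.gap j h4 h2
        omega
  · have e1 := h.gap x h7 h8
    omega

/-- Strong words below `p + X` -/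
theorem G1H.stl (h : G1H g old p z v ν X C B Y Z1 Z2 Bd hi Q d) {N i σ j}
    (hs : Strong g i σ j) (hN0 : i + σ.sum + j = N) (hN : N < p + X) :
    σ = [] ∧ j = v ∧ i + v = N ∧ X ≤ i ∧ Adj g i v ∧ (∃ x, i < x ∧ Adj g x v) := by
  obtain ⟨hz, hX, hC, hB1, hB2, hY, hZ1, hZ2, hv, hn, hv', hn', g1, g2, g3⟩ := h.P
  have hbd := h.bd
  have hpz := h.I.pz
  obtain ⟨h1, h2, h3, h4, h5⟩ := h.I.st h.gb hs hN0 (by omega)
  rcases h5 with ⟨rfl, h6, h7, h8, h9⟩ | ⟨S, x, w, h6, h7, h8, h9, h10, h11, h12, _⟩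
  · rcases h1 with rfl | rfl | h1
    · have := h.spX h7
      omega
    · have := h.szX h7
      omega
    · have e1 := h.gap i h3 h1
      rcases h2 with rfl | h2
      · exact ⟨rfl, rfl, h6, e1, h7, h8⟩
      · have e2 := h.gap j h4 h2
        omega
  · have e1 := h.gap x h7 h8
    omega

/-- `X` is a run. -/
theorem G1H.mX (h : G1H g old p z v ν X C B Y Z1 Z2 Bd hi Q d) : X ∈ Set.range g := by
  obtain ⟨hz, hX, hC, hB1, hB2, hY, hZ1, hZ2, hv, hn, hv', hn', g1, g2, g3⟩ := h.P
  have hbd := h.bd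
  have hhi := h.hi1
  rcases h.l.up h.pos (N := X) (by omega) (by omega) (h.dg.up X (by simp))
    (fun i σ j ho => by have := h.opl ho (by omega); omega) with h1 | ⟨_, i, σ, j, h2, h3⟩
  · exact h1.1
  · have := h.stl h2 h3 (by omega)
    omega

/-- A predecessor of `v` which is not an up is excluded. -/
theorem G1H.nov (h : G1H g old p z v ν X C B Y Z1 Z2 Bd hi Q d) {u : ℕ} (h1 : X ≤ u)
    (h2 : u < p + X) (hu : Adj g u v) : u = X ∨ u = C ∨ u = B ∨ u = Z1 ∨ u = Y ∨ u = Z2 := by
  obtain ⟨hz, hX, hC, hB1, hB2, hY, hZ1, hZ2, hv, hn, hv', hn', g1, g2, g3⟩ := h.P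
  have hbd := h.bd
  have hhi := h.hi1
  by_contra hno
  obtain ⟨i, σ, j, ho⟩ := h.l.val (N := u) (by omega) (by omega)
    (h.dg.rest u (by omega) (by omega) hno (by omega)).le hu.left
  obtain ⟨k1, k2, k3, k4, k5, k6⟩ := h.opl ho (by omega)
  have := k6 u hu
  omega

theorem G1H.bl (h : G1H g old p z v ν X C B Y Z1 Z2 Bd hi Q d) :
    ∀ y ∈ Set.range g, X ≤ y → y < p + X →
    (y = X ∨ y = C ∨ y = B ∨ y = Z1 ∨ y = Y ∨ y = Z2) ∨
    ∃ u, (u = X ∨ u = C ∨ u = B ∨ u = Z1 ∨ u = Y ∨ u = Z2) ∧ y = u + v ∧ Weak g u [] v := by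
  obtain ⟨hz, hX, hC, hB1, hB2, hY, hZ1, hZ2, hv, hn, hv', hn', g1, g2, g3⟩ := h.P
  have hbd := h.bd
  have hhi := h.hi1
  intro y hy h1 h2
  by_contra hno
  push Not at hno
  obtain ⟨hno1, hno2⟩ := hno
  obtain ⟨i, σ, j, ho⟩ := h.l.val (N := y) (by omega) (by omega)
    (h.dg.rest y (by omega) (by omega) (by omega) (by omega)).le hy
  obtain ⟨k1, k2, k3, k4, k5, k6⟩ := h.opl ho h2
  subst k1
  subst k2
  exact hno2 i (h.nov k4 (by omega) k5) k3.symm ho.1

/-- The ups. -/
theorem G1H.ups (h : G1H g old p z v ν X C B Y Z1 Z2 Bd hi Q d) {U : ℕ}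
    (hU : U = C ∨ U = B ∨ U = Z1 ∨ U = Y ∨ U = Z2) :
    U ∈ Set.range g ∨ (U = Y ∧ v = ν ∧ Strong g B [] v) := by
  obtain ⟨hz, hX, hC, hB1, hB2, hY, hZ1, hZ2, hv, hn, hv', hn', g1, g2, g3⟩ := h.P
  have hbd := h.bd
  have hhi := h.hi1
  have hlt : U < p + X := by omega
  have hup := h.dg.up U (by omega)
  rcases h.l.up h.pos (N := U) (by omega) (by omega) hup (fun i σ j ho => by
      obtain ⟨k1, k2, k3, k4, k5, k6⟩ := h.opl ho hlt
      obtain ⟨i', σ', j', hs, hs2⟩ := h.l.up_weak h.pos (N := U) (by omega) (by omega) hup ho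
      obtain ⟨l1, l2, l3, l4, l5, x, hx1, hx2⟩ := h.stl hs hs2 hlt
      have := k6 x hx2
      omega) with h1 | ⟨_, i, σ, j, h2, h3⟩
  · exact Or.inl h1.1
  · right
    obtain ⟨l1, l2, l3, l4, l5, x, hx1, hx2⟩ := h.stl h2 h3 hlt
    have := h.nov l4 (by omega) l5
    subst l1
    subst l2
    have e1 : i = B ∧ U = Y ∧ j = ν := by omega
    obtain ⟨rfl, rfl, rfl⟩ := e1
    exact ⟨rfl, rfl, h2⟩

/-- The first down. -/
theorem G1H.d1 (h : G1H g old p z v ν X C B Y Z1 Z2 Bd hi Q d) :
    Uq g p X ∧ p + X ∉ Set.range g := by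
  obtain ⟨hz, hX, hC, hB1, hB2, hY, hZ1, hZ2, hv, hn, hv', hn', g1, g2, g3⟩ := h.P
  have hbd := h.bd
  have hhi := h.hi1
  have hpz := h.I.pz
  have hw : ∀ i σ j, Op g old (p + X) i σ j → (i, σ, j) = ((p, [], X) : ℕ × List ℕ × ℕ) := by
    intro i σ j ho
    obtain ⟨h1, h2, h3, h4, h5⟩ := h.I.op h.gb ho (by omega)
    rcases h5 with ⟨rfl, h6, h7, h8, h9⟩ | ⟨S, x, w, h6, h7, h8, h9, h10, h11, h12, _⟩
    · rcases h1 with rfl | rfl | h1
      · have : j = X := by omega
        rw [this]
      · have := h.szX h7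
        omega
      · have e1 := h.gap i h3 h1
        rcases h2 with rfl | h2
        · exfalso
          obtain ⟨i', σ', j', ho'⟩ := h.l.val (N := i) (by omega) (by omega)
            (h.dg.rest i (by omega) (by omega) (by omega) (by omega)).le h7.left
          obtain ⟨k1, k2, k3, k4, k5, k6⟩ := h.opl ho' (by omega)
          have := k6 i h7
          omega
        · have e2 := h.gap j h4 h2
          omega
    · have e1 := h.gap x h7 h8
      omega
  obtain ⟨i, σ, j, ho⟩ := h.l.down (N := p + X) (by omega) (by omega)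
    (by rw [h.dg.dn (p + X) (by simp)]; norm_num)
  have e := hw i σ j ho
  simp only [Prod.mk.injEq] at e
  obtain ⟨rfl, rfl, rfl⟩ := e
  obtain ⟨k1, k2, k3⟩ := (weak_iff h.gb).1 ho.1
  refine ⟨⟨k1, fun x hx => succ_of_once h.I.once hx k1, fun x hx => ?_⟩, ?_⟩
  · have e1 := k2 x hx
    rcases h.I.fromi x _ hx (by omega) with e2 | e2 | e2
    · exact e2
    · omega
    · exact absurd e2 (h.I.old_big (Or.inr (by omega)))
  · exact (h.l.down_only h.pos (N := i + j) (by omega) (by omega)
      (h.dg.dn (i + j) (by simp)) hw).1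

/-- Nothing between `C + v` and `B`. -/
theorem G1H.cb (h : G1H g old p z v ν X C B Y Z1 Z2 Bd hi Q d) {y : ℕ} (hy : y ∈ Set.range g)
    (h1 : C + v < y) (h2 : y < B) : False := by
  obtain ⟨hz, hX, hC, hB1, hB2, hY, hZ1, hZ2, hv, hn, hv', hn', g1, g2, g3⟩ := h.P
  rcases h.bl y hy (by omega) (by omega) with h3 | ⟨u, h3, rfl, h4⟩
  · omega
  · omega

/-- The second down. -/
theorem G1H.d2 (h : G1H g old p z v ν X C B Y Z1 Z2 Bd hi Q d) :
    Weak g z [] B ∧ (∀ x, Adj g x B → x = z) ∧ z + B ∉ Set.range g := by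
  obtain ⟨hz, hX, hC, hB1, hB2, hY, hZ1, hZ2, hv, hn, hv', hn', g1, g2, g3⟩ := h.P
  have hbd := h.bd
  have hhi := h.hi1
  have hpz := h.I.pz
  have hpX := h.d1.1
  have hw : ∀ i σ j, Op g old (z + B) i σ j → (i, σ, j) = ((z, [], B) : ℕ × List ℕ × ℕ) := by
    intro i σ j ho
    obtain ⟨h1, h2, h3, h4, h5⟩ := h.I.op h.gb ho (by omega)
    rcases h1 with rfl | rfl | h1
    · have := (h.I.op_p h.gb hpX (by omega) ho).2.2
      omega
    · rcases h5 with ⟨rfl, h6, h7, h8, h9⟩ | ⟨S, x, w, h6, h7, h8, h9, h10, h11, h12, h13, h14, h15⟩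
      · have : j = B := by omega
        rw [this]
      · exfalso
        have e1 := h.gap x h7 h8
        have e2 := h.gap w h9 h10
        rcases h2 with rfl | h2
        · rcases h15 with ⟨rfl, rfl⟩ | h15
          · exact h.cb h7 (by omega) (by omega)
          · omega
        · have e3 := h.gap j h4 h2
          omega
    · have e0 := h.gap i h3 h1
      rcases h5 with ⟨rfl, h6, h7, h8, h9⟩ | ⟨S, x, w, h6, h7, h8, h9, h10, h11, h12, h13, h14, h15⟩
      · rcases h2 with rfl | h2
        · exfalso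
          obtain ⟨i', σ', j', ho'⟩ := h.l.val (N := i) (by omega) (by omega)
            (h.dg.rest i (by omega) (by omega) (by omega) (by omega)).le h7.left
          obtain ⟨k1, k2, k3, k4, k5⟩ := h.I.op h.gb ho' (by omega)
          rcases k1 with rfl | rfl | k1
          · have := (h.I.op_p h.gb hpX (by omega) ho').2.2
            omega
          · rcases k5 with ⟨rfl, l6, l7, l8, l9⟩ |
              ⟨S, x, w, l6, l7, l8, l9, l10, l11, l12, l13, l14, l15⟩
            · have := h.szX l7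
              exact h.cb l7.right (by omega) (by omega)
            · have e1 := h.gap x l7 l8
              have e2 := h.gap w l9 l10
              rcases k2 with rfl | k2
              · rcases l15 with ⟨rfl, rfl⟩ | l15
                · exact h.cb l7 (by omega) (by omega)
                · omega
              · have e3 := h.gap j' k4 k2
                omega
          · have e5 := h.gap i' k3 k1
            rcases k5 with ⟨rfl, l6, l7, l8, l9⟩ |
              ⟨S, x, w, l6, l7, l8, l9, l10, l11, l12, l13, l14, l15⟩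
            · rcases k2 with rfl | k2
              · have := l8 i h7
                omega
              · have e3 := h.gap j' k4 k2
                omega
            · have e1 := h.gap x l7 l8
              omega
        · have e3 := h.gap j h4 h2
          omega
      · have e1 := h.gap x h7 h8
        omega
  obtain ⟨i, σ, j, ho⟩ := h.l.down (N := z + B) (by omega) (by omega)
    (by rw [h.dg.dn (z + B) (by simp)]; norm_num)
  have e := hw i σ j ho
  simp only [Prod.mk.injEq] at e
  obtain ⟨rfl, rfl, rfl⟩ := e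
  obtain ⟨k1, k2, k3⟩ := (weak_iff h.gb).1 ho.1
  refine ⟨ho.1, fun x hx => ?_, ?_⟩
  · have e1 := k2 x hx
    rcases h.I.fromi x _ hx (by omega) with e2 | e2 | e2
    · exfalso
      rw [e2] at hx
      have := hpX.out _ hx
      omega
    · exact e2
    · exact absurd e2 (h.I.old_big (Or.inr (by omega)))
  · exact (h.l.down_only h.pos (N := i + j) (by omega) (by omega)
      (h.dg.dn (i + j) (by simp)) hw).1

end

/-- **Gadget stage, state N, up to the second down.** -/
theorem GN1 {g : ℕ → ℕ} {old : ℕ → ℕ → Prop} {p z v ν X C B Y Z1 Z2 Bd hi : ℕ} {Q : Set ℕ}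
    {d : ℕ → ℤ} (hgb : GB g) (hpos : ∀ t, 0 < g t) (hI : NI g old p z v Bd Q)
    (hP : GP p z v ν X C B Y Z1 Z2) (hBd : Z1 + Z2 < Bd) (hhi : Z1 + Z2 < hi)
    (hd : DG d p z X C B Y Z1 Z2) (hl : RLE g old d z hi) : GNc g p z v ν X C B Y Z1 Z2 := by
  have h : G1H g old p z v ν X C B Y Z1 Z2 Bd hi Q d := ⟨hgb, hpos, hI, hP, hBd, hhi, hd, hl⟩
  obtain ⟨hz, hX, hC, hB1, hB2, hY, hZ1, hZ2, hv, hn, hv', hn', g1, g2, g3⟩ := hP
  refine ⟨h.gap, fun x hx => h.pv hx, h.mX, ?_, ?_, ?_, ?_, ?_, h.bl, h.d1.1, h.d1.2, h.d2.1,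
    h.d2.2.1, h.d2.2.2⟩
  · rcases h.ups (U := C) (by simp) with h1 | ⟨h1, _⟩
    · exact h1
    · omega
  · rcases h.ups (U := B) (by simp) with h1 | ⟨h1, _⟩
    · exact h1
    · omega
  · rcases h.ups (U := Z1) (by simp) with h1 | ⟨h1, _⟩
    · exact h1
    · omega
  · rcases h.ups (U := Z2) (by simp) with h1 | ⟨h1, _⟩
    · exact h1
    · omega
  · rcases h.ups (U := Y) (by simp) with h1 | ⟨_, h1⟩
    · exact Or.inl h1
    · exact Or.inr h1

end Pool.Agent.CF2
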