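import Pool.Agent.CF2.WN

/-!
# CF2: gadget stage, state N, KEEP
-/

namespace Pool.Agent.CF2

/-- The hypotheses of the gadget stage in state N after its first half, case KEEP. -/
structure G2H (g : ℕ → ℕ) (old : ℕ → ℕ → Prop) (p z v ν X C B Y Z1 Z2 Bd hi : ℕ) (Q : Set ℕ)
    (d : ℕ → ℤ) : Prop where
  gb : GB g
  pos : ∀ t, 0 < g t
  I : NI g old p z v Bd Q
  P : GP p z v ν X C B Y Z1 Z2
  bd : Z1 + Z2 < Bd
  hi1 : Z1 + Z2 < hi
  dg : DG d p z X C B Y Z1 Z2
  l : RLE g old d z hi
  c : GNc g p z v ν X C B Y Z1 Z2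
  nXv : ¬ Adj g X v

section

variable {g : ℕ → ℕ} {old : ℕ → ℕ → Prop} {p z v ν X C B Y Z1 Z2 Bd hi : ℕ} {Q : Set ℕ}
  {d : ℕ → ℤ}

theorem G2H.onceX (h : G2H g old p z v ν X C B Y Z1 Z2 Bd hi Q d) :
    ∀ s t, g s = X → g t = X → s = t := by
  have := h.P.hX
  have := h.I.g0
  exact once_of_uq h.I.once h.c.pX (by omega)

/-- The values of the middle range. -/
theorem G2H.vals (h : G2H g old p z v ν X C B Y Z1 Z2 Bd hi Q d) {y : ℕ}
    (hy : y ∈ Set.range g) (h1 : X ≤ y) (h2 : y < p + X) :
    (y = X ∨ y = C ∨ y = B ∨ y = Z1 ∨ y = Y ∨ y = Z2) ∨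
    ∃ u, (u = C ∨ u = B ∨ u = Z1 ∨ u = Y ∨ u = Z2) ∧ y = u + v ∧ Adj g u v ∧
      (∀ x, Adj g x v → x ≤ u) := by
  rcases h.c.bl y hy h1 h2 with h3 | ⟨u, h3, h4, h5⟩
  · exact Or.inl h3
  · obtain ⟨k1, k2, k3⟩ := (weak_iff h.gb).1 h5
    rcases h3 with rfl | h3
    · exact absurd k1 h.nXv
    · exact Or.inr ⟨u, h3, h4, k1, k2⟩

/-- Predecessors of `v` in the middle range are ups. -/
theorem G2H.nov (h : G2H g old p z v ν X C B Y Z1 Z2 Bd hi Q d) {u : ℕ} (h1 : X ≤ u)
    (h2 : u < p + X) (hu : Adj g u v) : u = C ∨ u = B ∨ u = Z1 ∨ u = Y ∨ u = Z2 := by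
  have hv := h.P.hv
  rcases h.vals hu.left h1 h2 with (h3 | h3) | ⟨w, h3, h4, h5, h6⟩
  · rw [h3] at hu
    exact absurd hu h.nXv
  · exact h3
  · have := h6 u hu
    omega

/-- Successors of `z`. -/
theorem G2H.sz (h : G2H g old p z v ν X C B Y Z1 Z2 Bd hi Q d) {x : ℕ} (hx : Adj g z x) :
    C ≤ x ∧ x ≤ B := by
  have h1 := ((weak_iff h.gb).1 h.c.zB).2.2 x hx
  obtain ⟨hz, hX, hC, hB1, hB2, hY, hZ1, hZ2, hv, hn, hv', hn', g1, g2, g3⟩ := h.P
  have hpz := h.I.pz
  refine ⟨?_, h1⟩
  rcases h.I.succ_z hx with h2 | h2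
  · exfalso
    rw [h2] at hx
    have := h.c.pv _ hx
    omega
  · have h3 := h.c.gap x hx.right h2
    by_contra hlt
    rcases h.vals hx.right h3 (by omega) with (h4 | h4) | ⟨u, h4, h5, h6, h7⟩
    · rw [h4] at hx
      have := h.c.pX.inn _ hx
      omega
    · omega
    · omega

/-- The runs above `z` are `X` or at least `C`. -/
theorem G2H.geC (h : G2H g old p z v ν X C B Y Z1 Z2 Bd hi Q d) {y : ℕ}
    (hy : y ∈ Set.range g) (h1 : z < y) : y = X ∨ C ≤ y := by
  obtain ⟨hz, hX, hC, hB1, hB2, hY, hZ1, hZ2, hv, hn, hv', hn', g1, g2, g3⟩ := h.P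
  by_contra hno
  have h2 := h.c.gap y hy h1
  rcases h.vals hy h2 (by omega) with h3 | ⟨u, h3, h4, _, _⟩ <;> omega

/-- The open words between the second and the fifth down. -/
theorem G2H.opc (h : G2H g old p z v ν X C B Y Z1 Z2 Bd hi Q d) {N i σ j}
    (ho : Op g old N i σ j) (h1 : z + B < N) (h2 : N ≤ C + Z1) :
    (σ = [] ∧ X ≤ i ∧ C ≤ j ∧ j ≠ B ∧ i + j = N ∧ i ∈ Set.range g ∧ j ∈ Set.range g ∧
      Adj g i j ∧ (∀ x, Adj g x j → x ≤ i) ∧ (∀ x, Adj g i x → x ≤ j)) ∨
    (σ = [] ∧ j = v ∧ X ≤ i ∧ i + v = N ∧ Adj g i v ∧ (∀ x, Adj g x v → x ≤ i)) ∨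
    (∃ x, i + x + v = N ∧ X ≤ i ∧ i ∈ Set.range g ∧ (x = C ∨ x = Z1 ∨ x = Y ∨ x = Z2) ∧
      Adj g i x ∧ (∃ y, i < y ∧ Adj g y x) ∧ Adj g x v) := by
  obtain ⟨hz, hX, hC, hB1, hB2, hY, hZ1, hZ2, hv, hn, hv', hn', g1, g2, g3⟩ := h.P
  have hbd := h.bd
  have hpz := h.I.pz
  obtain ⟨k1, k2, k3, k4, k5⟩ := h.I.op h.gb ho (by omega)
  rcases k1 with rfl | rfl | k1
  · exfalso
    have := (h.I.op_p h.gb h.c.pX (by omega) ho).2.2
    omega
  · exfalso
    rcases k5 with ⟨rfl, l6, l7, l8, l9⟩ |
      ⟨S, x, w, l6, l7, l8, l9, l10, l11, l12, l13, l14, l15⟩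
    · have := h.sz l7
      omega
    · have e1 := h.sz l13.1
      have e2 := h.c.gap w l9 l10
      have e3 : x ≠ B := by
        rintro rfl
        obtain ⟨y, hy1, hy2⟩ := l13.2
        have := h.c.Bz y hy2
        omega
      rcases k2 with rfl | k2
      · rcases l15 with ⟨rfl, rfl⟩ | l15
        · rcases h.vals l7 (by omega) (by omega) with m1 | ⟨u, m1, m2, _, _⟩ <;> omega
        · omega
      · have e4 := h.c.gap j k4 k2
        omega
  · have e0 := h.c.gap i k3 k1
    rcases k5 with ⟨rfl, l6, l7, l8, l9⟩ |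
      ⟨S, x, w, l6, l7, l8, l9, l10, l11, l12, l13, l14, l15⟩
    · rcases k2 with rfl | k2
      · exact Or.inr (Or.inl ⟨rfl, rfl, e0, l6, l7, l8⟩)
      · left
        refine ⟨rfl, e0, ?_, ?_, l6, k3, k4, l7, l8, l9⟩
        · rcases h.geC k4 k2 with m1 | m1
          · exfalso
            rw [m1] at l7
            have := h.c.pX.inn _ l7
            omega
          · exact m1
        · rintro rfl
          have := h.c.Bz i l7
          omega
    · have e1 := h.c.gap x l7 l8
      have e2 := h.c.gap w l9 l10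
      rcases k2 with rfl | k2
      · rcases l15 with ⟨rfl, rfl⟩ | l15
        · right
          right
          have e3 : S ≠ B := by
            rintro rfl
            have := h.c.Bz i l13.1
            omega
          have e4 := h.nov e1 (by omega) l14.1
          exact ⟨S, l6, e0, k3, by omega, l13.1, l13.2, l14.1⟩
        · omega
      · have e4 := h.c.gap j k4 k2
        omega

theorem G2H.d3 (h : G2H g old p z v ν X C B Y Z1 Z2 Bd hi Q d) :
    Uq g X Y ∧ X + Y ∉ Set.range g := by
  obtain ⟨hz, hX, hC, hB1, hB2, hY, hZ1, hZ2, hv, hn, hv', hn', g1, g2, g3⟩ := h.P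
  have hbd := h.bd
  have hhi := h.hi1
  have hw : ∀ i σ j, Op g old (X + Y) i σ j → (i, σ, j) = ((X, [], Y) : ℕ × List ℕ × ℕ) := by
    intro i σ j ho
    rcases h.opc ho (by omega) (by omega) with ⟨rfl, k1, k2, k3, k4, k5, k6, k7, k8, k9⟩ |
      ⟨rfl, rfl, k3, k4, k5, k6⟩ | ⟨x, k1, k2, k3, k4, k5, k6, k7⟩
    · by_cases hiX : i = X
      · have : j = Y := by omega
        rw [hiX, this]
      · exfalso
        have m1 := h.geC k5 (by omega)
        rcases Nat.lt_or_ge i (p + X) with m2 | m2
        · rcases h.vals k5 k1 m2 with n1 | ⟨u, n1, n2, _, _⟩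
          · rcases h.vals k6 (by omega) (by omega) with n3 | ⟨u', n3, n4, _, _⟩ <;> omega
          · rcases h.vals k6 (by omega) (by omega) with n3 | ⟨u', n3, n4, _, _⟩ <;> omega
        · omega
    · exfalso
      have hy1 : d i = 0 := h.dg.rest i (by omega) (by omega) (by omega) (by omega)
      obtain ⟨i', σ', j', ho'⟩ := h.l.val (N := i) (by omega) (by omega) hy1.le k5.left
      rcases h.opc ho' (by omega) (by omega) with ⟨rfl, l1, l2, l3, l4, l5, l6, l7, l8, l9⟩ |
        ⟨rfl, rfl, l3, l4, l5, l6⟩ | ⟨x, l1, l2, l3, l4, l5, l6, l7⟩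
      · rcases h.vals l5 l1 (by omega) with n1 | ⟨u, n1, n2, n5, n6⟩
        · rcases h.vals l6 (by omega) (by omega) with n3 | ⟨u', n3, n4, n7, n8⟩
          · omega
          · have := n8 i k5
            omega
        · have := n6 i k5
          omega
      · have := l6 i k5
        omega
      · rcases h.vals l3 l2 (by omega) with n1 | ⟨u, n1, n2, n5, n6⟩
        · omega
        · have := n6 i k5
          omega
    · exfalso
      rcases h.vals k3 k2 (by omega) with n1 | ⟨u, n1, n2, n5, n6⟩
      · omega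
      · omega
  obtain ⟨i, σ, j, ho⟩ := h.l.down (N := X + Y) (by omega) (by omega)
    (by rw [h.dg.dn (X + Y) (by simp)]; norm_num)
  have e := hw i σ j ho
  simp only [Prod.mk.injEq] at e
  obtain ⟨rfl, rfl, rfl⟩ := e
  obtain ⟨k1, k2, k3⟩ := (weak_iff h.gb).1 ho.1
  refine ⟨⟨k1, fun x hx => succ_of_once h.onceX hx k1, fun x hx => ?_⟩, ?_⟩
  · have e1 := k2 x hx
    rcases Nat.lt_or_ge z x with e3 | e3
    · have := h.c.gap x hx.left e3
      omega
    · rcases h.I.fromi x _ hx e3 with e2 | e2 | e2
      · exfalso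
        rw [e2] at hx
        have := h.c.pX.out _ hx
        omega
      · exfalso
        rw [e2] at hx
        have := h.sz hx
        omega
      · exact absurd e2 (h.I.old_big (Or.inr (by omega)))
  · exact (h.l.down_only h.pos (N := i + j) (by omega) (by omega)
      (h.dg.dn (i + j) (by simp)) hw).1

theorem G2H.d4 (h : G2H g old p z v ν X C B Y Z1 Z2 Bd hi Q d) :
    Weak g B [] C ∧ B + C ∉ Set.range g := by
  obtain ⟨hz, hX, hC, hB1, hB2, hY, hZ1, hZ2, hv, hn, hv', hn', g1, g2, g3⟩ := h.P
  have hbd := h.bd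
  have hhi := h.hi1
  obtain ⟨hXY, hD3⟩ := h.d3
  have hw : ∀ i σ j, Op g old (B + C) i σ j → (i, σ, j) = ((B, [], C) : ℕ × List ℕ × ℕ) := by
    intro i σ j ho
    rcases h.opc ho (by omega) (by omega) with ⟨rfl, k1, k2, k3, k4, k5, k6, k7, k8, k9⟩ |
      ⟨rfl, rfl, k3, k4, k5, k6⟩ | ⟨x, k1, k2, k3, k4, k5, k6, k7⟩
    · have hiX : i ≠ X := by
        rintro rfl
        have := hXY.out j k7
        omega
      have m1 := h.geC k5 (by omega)
      rcases Nat.lt_or_ge i B with m2 | m2
      · exfalso
        rcases h.vals k5 k1 (by omega) with n1 | ⟨u, n1, n2, _, _⟩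
        · rcases h.vals k6 (by omega) (by omega) with n3 | ⟨u', n3, n4, _, _⟩ <;> omega
        · rcases h.vals k6 (by omega) (by omega) with n3 | ⟨u', n3, n4, _, _⟩ <;> omega
      · have e1 : i = B := by omega
        have e2 : j = C := by omega
        rw [e1, e2]
    · exfalso
      have hvn : j ≠ ν := by
        rintro rfl
        have : i = X + Y := by omega
        rw [this] at k5
        exact hD3 k5.left
      have hy1 : d i = 0 := h.dg.rest i (by omega) (by omega) (by omega) (by omega)
      obtain ⟨i', σ', j', ho'⟩ := h.l.val (N := i) (by omega) (by omega) hy1.le k5.left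
      rcases h.opc ho' (by omega) (by omega) with ⟨rfl, l1, l2, l3, l4, l5, l6, l7, l8, l9⟩ |
        ⟨rfl, rfl, l3, l4, l5, l6⟩ | ⟨x, l1, l2, l3, l4, l5, l6, l7⟩
      · have hiX : i' ≠ X := by
          rintro rfl
          have := hXY.out _ l7
          omega
        have m1 := h.geC l5 (by omega)
        rcases h.vals l5 l1 (by omega) with n1 | ⟨u, n1, n2, n5, n6⟩
        · rcases h.vals l6 (by omega) (by omega) with n3 | ⟨u', n3, n4, n7, n8⟩
          · omega
          · have := n8 i k5
            omega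
        · have := n6 i k5
          omega
      · have := l6 i k5
        omega
      · have hiX : i' ≠ X := by
          rintro rfl
          have := hXY.out _ l5
          subst this
          obtain ⟨y, hy1, hy2⟩ := l6
          have := hXY.inn y hy2
          omega
        have hxY : x ≠ Y := by
          rintro rfl
          have := hXY.inn _ l5
          omega
        have m1 := h.geC l3 (by omega)
        rcases h.vals l3 l2 (by omega) with n1 | ⟨u, n1, n2, n5, n6⟩
        · omega
        · have := n6 i k5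
          omega
    · exfalso
      have hiX : i ≠ X := by
        rintro rfl
        have := hXY.out _ k5
        subst this
        obtain ⟨y, hy1, hy2⟩ := k6
        have := hXY.inn y hy2
        omega
      have hxY : x ≠ Y := by
        rintro rfl
        have := hXY.inn _ k5
        omega
      have m1 := h.geC k3 (by omega)
      rcases h.vals k3 k2 (by omega) with n1 | ⟨u, n1, n2, n5, n6⟩
      · omega
      · omega
  obtain ⟨i, σ, j, ho⟩ := h.l.down (N := B + C) (by omega) (by omega)
    (by rw [h.dg.dn (B + C) (by simp)]; norm_num)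
  have e := hw i σ j ho
  simp only [Prod.mk.injEq] at e
  obtain ⟨rfl, rfl, rfl⟩ := e
  refine ⟨ho.1, ?_⟩
  exact (h.l.down_only h.pos (N := i + j) (by omega) (by omega)
    (h.dg.dn (i + j) (by simp)) hw).1

theorem G2H.nzC (h : G2H g old p z v ν X C B Y Z1 Z2 Bd hi Q d) : ¬ Adj g z C := by
  intro hzC
  obtain ⟨hz, hX, hC, hB1, hB2, hY, hZ1, hZ2, hv, hn, hv', hn', g1, g2, g3⟩ := h.P
  have hbd := h.bd
  have hhi := h.hi1
  have hvp := h.I.vp
  obtain ⟨hXY, hD3⟩ := h.d3
  obtain ⟨hBC, hCB, hBS⟩ := (weak_iff h.gb).1 h.d4.1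
  obtain ⟨hzB, hBz, hzS⟩ := (weak_iff h.gb).1 h.c.zB
  have hs : Strong g z [] C := (strong_iff h.gb).2 ⟨hzC, ⟨B, by omega, hBC⟩, B, by omega, hzB⟩
  -- words below `z + B` starting with `z`
  have hzz : ∀ N σ j, N ≤ z + C → z + C ≤ N + v → Op g old N z σ j → j ≤ B ∧ σ = [] ∧ N = z + j ∧
      Adj g z j ∧ ∀ x, Adj g x j → x ≤ z := by
    intro N σ j hN1 hN2 ho
    obtain ⟨k1, k2, k3, k4, k5⟩ := h.I.op h.gb ho (by omega)
    rcases k5 with ⟨rfl, l6, l7, l8, l9⟩ |
      ⟨S, x, w, l6, l7, l8, l9, l10, l11, l12, l13, l14, l15⟩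
    · have := h.sz l7
      exact ⟨by omega, rfl, l6.symm, l7, l8⟩
    · exfalso
      have e1 := h.sz l13.1
      have e2 := h.c.gap w l9 l10
      rcases k2 with rfl | k2
      · rcases l15 with ⟨rfl, rfl⟩ | l15
        · omega
        · omega
      · have e4 := h.c.gap j k4 k2
        omega
  obtain ⟨i, σ, j, ho⟩ := h.l.str h.pos (N := z + C) (by omega) (by omega)
    (h.dg.rest (z + C) (by omega) (by omega) (by omega) (by omega)).le hs (by simp)
  obtain ⟨k1, k2, k3, k4, k5⟩ := h.I.op h.gb ho (by omega)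
  rcases k1 with rfl | rfl | k1
  · have := (h.I.op_p h.gb h.c.pX (by omega) ho).2.2
    omega
  · obtain ⟨l1, l2, l3, l4, l5⟩ := hzz _ _ _ (by omega) (by omega) ho
    have : j = C := by omega
    subst this
    have := l5 B hBC
    omega
  · have e0 := h.c.gap i k3 k1
    rcases k5 with ⟨rfl, l6, l7, l8, l9⟩ |
      ⟨S, x, w, l6, l7, l8, l9, l10, l11, l12, l13, l14, l15⟩
    · rcases k2 with rfl | k2
      · have hiD1 : i ≠ p + X := by
          rintro rfl
          exact h.c.D1 k3
        have hgt : p + X < i := by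
          by_contra hc
          have := h.nov e0 (by omega) l7
          omega
        obtain ⟨i', σ', j', ho'⟩ := h.l.val (N := i) (by omega) (by omega)
          (h.dg.rest i (by omega) (by omega) (by omega) (by omega)).le k3
        obtain ⟨m1, m2, m3, m4, m5⟩ := h.I.op h.gb ho' (by omega)
        rcases m1 with rfl | rfl | m1
        · have := (h.I.op_p h.gb h.c.pX (by omega) ho').2.2
          omega
        · obtain ⟨n1, n2, n3, n4, n5⟩ := hzz _ _ _ (by omega) (by omega) ho'
          have := h.sz n4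
          omega
        · have e1 := h.c.gap i' m3 m1
          rcases m5 with ⟨rfl, n6, n7, n8, n9⟩ |
            ⟨S, x, w, n6, n7, n8, n9, n10, n11, n12, n13, n14, n15⟩
          · rcases m2 with rfl | m2
            · have := n8 i l7
              omega
            · have := h.c.gap j' m4 m2
              omega
          · have := h.c.gap x n7 n8
            omega
      · have := h.c.gap j k4 k2
        omega
    · have e1 := h.c.gap x l7 l8
      omega


theorem G2H.d5 (h : G2H g old p z v ν X C B Y Z1 Z2 Bd hi Q d) :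
    Weak g C [] Z1 ∧ C + Z1 ∉ Set.range g := by
  obtain ⟨hz, hX, hC, hB1, hB2, hY, hZ1, hZ2, hv, hn, hv', hn', g1, g2, g3⟩ := h.P
  have hbd := h.bd
  have hhi := h.hi1
  obtain ⟨hXY, hD3⟩ := h.d3
  obtain ⟨hBCw, hD4⟩ := h.d4
  obtain ⟨hBC, hCB, hBS⟩ := (weak_iff h.gb).1 hBCw
  have hw : ∀ i σ j, Op g old (C + Z1) i σ j → (i, σ, j) = ((C, [], Z1) : ℕ × List ℕ × ℕ) := by
    intro i σ j ho
    rcases h.opc ho (by omega) (by omega) with ⟨rfl, k1, k2, k3, k4, k5, k6, k7, k8, k9⟩ |
      ⟨rfl, rfl, k3, k4, k5, k6⟩ | ⟨x, k1, k2, k3, k4, k5, k6, k7⟩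
    · have hiX : i ≠ X := by
        rintro rfl
        have := hXY.out j k7
        omega
      have hjY : j ≠ Y := by
        rintro rfl
        have := hXY.inn i k7
        omega
      have hiB : i = B → False := by
        rintro rfl
        have := hBS j k7
        omega
      have hjC : j = C → i = B := by
        rintro rfl
        have := k8 B hBC
        have := hCB i k7
        omega
      have m1 := h.geC k5 (by omega)
      rcases h.vals k5 k1 (by omega) with n1 | ⟨u, n1, n2, n5, n6⟩
      · rcases h.vals k6 (by omega) (by omega) with n3 | ⟨u', n3, n4, n7, n8⟩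
        · have e1 : i = C := by omega
          have e2 : j = Z1 := by omega
          rw [e1, e2]
        · exfalso
          omega
      · exfalso
        rcases h.vals k6 (by omega) (by omega) with n3 | ⟨u', n3, n4, n7, n8⟩
        · omega
        · have e1 := n6 u' n7
          have e2 := n8 u n5
          omega
    · exfalso
      have hvn : i ≠ B + C := by
        rintro rfl
        exact hD4 k5.left
      have hvn' : i ≠ X + Y := by
        rintro rfl
        exact hD3 k5.left
      have hy1 : d i = 0 := h.dg.rest i (by omega) (by omega) (by omega) (by omega)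
      obtain ⟨i', σ', j', ho'⟩ := h.l.val (N := i) (by omega) (by omega) hy1.le k5.left
      rcases h.opc ho' (by omega) (by omega) with ⟨rfl, l1, l2, l3, l4, l5, l6, l7, l8, l9⟩ |
        ⟨rfl, rfl, l3, l4, l5, l6⟩ | ⟨x, l1, l2, l3, l4, l5, l6, l7⟩
      · have hiX : i' ≠ X := by
          rintro rfl
          have := hXY.out _ l7
          omega
        have hjY : j' ≠ Y := by
          rintro rfl
          have := hXY.inn _ l7
          omega
        have hiB : i' = B → j' = C := by
          rintro rfl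
          have := hBS _ l7
          have := l9 C hBC
          omega
        have hjC : j' = C → i' = B := by
          rintro rfl
          have := l8 B hBC
          have := hCB _ l7
          omega
        have m1 := h.geC l5 (by omega)
        rcases h.vals l5 l1 (by omega) with n1 | ⟨u, n1, n2, n5, n6⟩
        · rcases h.vals l6 (by omega) (by omega) with n3 | ⟨u', n3, n4, n7, n8⟩
          · omega
          · have := n8 i k5
            omega
        · have := n6 i k5
          omega
      · have := l6 i k5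
        omega
      · have hiX : i' ≠ X := by
          rintro rfl
          have := hXY.out _ l5
          subst this
          obtain ⟨y, hy1, hy2⟩ := l6
          have := hXY.inn y hy2
          omega
        have hxY : x ≠ Y := by
          rintro rfl
          have := hXY.inn _ l5
          omega
        have m1 := h.geC l3 (by omega)
        rcases h.vals l3 l2 (by omega) with n1 | ⟨u, n1, n2, n5, n6⟩
        · have hxC : x = C → i' < B := by
            rintro rfl
            obtain ⟨y, hy1, hy2⟩ := l6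
            have := hCB y hy2
            omega
          omega
        · have := n6 i k5
          omega
    · exfalso
      have hiX : i ≠ X := by
        rintro rfl
        have := hXY.out _ k5
        subst this
        obtain ⟨y, hy1, hy2⟩ := k6
        have := hXY.inn y hy2
        omega
      have hxY : x ≠ Y := by
        rintro rfl
        have := hXY.inn _ k5
        omega
      have hxC : x = C → i < B := by
        rintro rfl
        obtain ⟨y, hy1, hy2⟩ := k6
        have := hCB y hy2
        omega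
      have m1 := h.geC k3 (by omega)
      rcases h.vals k3 k2 (by omega) with n1 | ⟨u, n1, n2, n5, n6⟩
      · omega
      · omega
  obtain ⟨i, σ, j, ho⟩ := h.l.down (N := C + Z1) (by omega) (by omega)
    (by rw [h.dg.dn (C + Z1) (by simp)]; norm_num)
  have e := hw i σ j ho
  simp only [Prod.mk.injEq] at e
  obtain ⟨rfl, rfl, rfl⟩ := e
  refine ⟨ho.1, ?_⟩
  exact (h.l.down_only h.pos (N := i + j) (by omega) (by omega)
    (h.dg.dn (i + j) (by simp)) hw).1

/-- The values up to `Z2`, first version. -/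
theorem G2H.vals2 (h : G2H g old p z v ν X C B Y Z1 Z2 Bd hi Q d) {y : ℕ}
    (hy : y ∈ Set.range g) (h1 : X ≤ y) (h2 : y < p + X) :
    (y = X ∨ y = C ∨ y = B ∨ y = Z1 ∨ y = Y ∨ y = Z2) ∨
    ∃ u, (u = B ∨ u = Z1 ∨ u = Y ∨ u = Z2) ∧ y = u + v ∧ Adj g u v ∧
      (∀ x, Adj g x v → x ≤ u) ∧ (∀ x, Adj g u x → x ≤ v) := by
  rcases h.c.bl y hy h1 h2 with h3 | ⟨u, h3, h4, h5⟩
  · exact Or.inl h3
  · obtain ⟨k1, k2, k3⟩ := (weak_iff h.gb).1 h5
    have hvp := h.I.vp
    have hpz := h.I.pz
    have hZ1 := h.P.hZ1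
    have hY := h.P.hY
    have hB := h.P.hB2
    have hX := h.P.hX
    rcases h3 with rfl | rfl | h3
    · exact absurd k1 h.nXv
    · have := k3 Z1 ((weak_iff h.gb).1 h.d5.1).1
      omega
    · exact Or.inr ⟨u, h3, h4, k1, k2, k3⟩

theorem G2H.uzB (h : G2H g old p z v ν X C B Y Z1 Z2 Bd hi Q d) : Uq g z B := by
  obtain ⟨hz, hX, hC, hB1, hB2, hY, hZ1, hZ2, hv, hn, hv', hn', g1, g2, g3⟩ := h.P
  obtain ⟨hzB, hBz, hzS⟩ := (weak_iff h.gb).1 h.c.zB
  refine ⟨hzB, fun x hx => ?_, h.c.Bz⟩
  have h1 := h.sz hx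
  rcases h.vals2 hx.right (by omega) (by omega) with h2 | ⟨u, h2, h3, _, _, _⟩
  · have hxC : x ≠ C := by
      rintro rfl
      exact h.nzC hx
    omega
  · omega

/-- Strong words between the second and the fifth down at levels without an up. -/
theorem G2H.stv (h : G2H g old p z v ν X C B Y Z1 Z2 Bd hi Q d) {u : ℕ} (hu : Adj g u v)
    (h1 : u = C ∨ u = B ∨ u = Z1) (h2 : ∃ x, u < x ∧ Adj g x v) (h3 : ∃ x, v < x ∧ Adj g u x)
    (h4 : u = B → Y ∈ Set.range g) : False := by
  obtain ⟨hz, hX, hC, hB1, hB2, hY, hZ1, hZ2, hv, hn, hv', hn', g1, g2, g3⟩ := h.P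
  have hbd := h.bd
  have hhi := h.hi1
  have hpz := h.I.pz
  have hs : Strong g u [] v := (strong_iff h.gb).2 ⟨hu, h2, h3⟩
  -- the open word of this level
  have key : ∃ i σ j, Op g old (u + v) i σ j := by
    by_cases hup : u + v = Y
    · have h5 := h.l (u + v) (by omega) (by omega)
      have h6 := ncard_pos_of_strong h.pos hs (N := u + v) (by simp)
      rw [h.dg.up (u + v) (by omega)] at h5
      refine exists_op_of_ncard ?_
      rw [if_pos (by rw [hup]; exact h4 (by omega))] at h5
      omega
    · exact h.l.str h.pos (N := u + v) (by omega) (by omega)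
        (h.dg.rest (u + v) (by omega) (by omega) (by omega) (by omega)).le hs (by simp)
  obtain ⟨i, σ, j, ho⟩ := key
  obtain ⟨k1, k2, k3, k4, k5⟩ := h.I.op h.gb ho (by omega)
  rcases k1 with rfl | rfl | k1
  · have := (h.I.op_p h.gb h.c.pX (by omega) ho).2.2
    omega
  · have := (h.I.op_z h.gb h.uzB (by omega) ho).2.2
    omega
  · have e0 := h.c.gap i k3 k1
    rcases k5 with ⟨rfl, l6, l7, l8, l9⟩ |
      ⟨S, x, w, l6, l7, l8, l9, l10, l11, l12, l13, l14, l15⟩
    · rcases k2 with rfl | k2
      · obtain ⟨x, hx1, hx2⟩ := h2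
        have := l8 x hx2
        omega
      · have := h.c.gap j k4 k2
        omega
    · have e1 := h.c.gap x l7 l8
      omega

/-- The links `B → C → Z1`. -/
theorem G2H.uBC (h : G2H g old p z v ν X C B Y Z1 Z2 Bd hi Q d) : Uq g B C ∧ Uq g C Z1 := by
  obtain ⟨hz, hX, hC, hB1, hB2, hY, hZ1, hZ2, hv, hn, hv', hn', g1, g2, g3⟩ := h.P
  have hbd := h.bd
  have hhi := h.hi1
  have hvp := h.I.vp
  have hpz := h.I.pz
  have hg0 := h.I.g0
  obtain ⟨hXY, hD3⟩ := h.d3
  obtain ⟨hBCw, hD4⟩ := h.d4
  obtain ⟨hBC, hCB, hBS⟩ := (weak_iff h.gb).1 hBCw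
  obtain ⟨hCZ, hZC, hCS⟩ := (weak_iff h.gb).1 h.d5.1
  have hzB := h.uzB
  have hYm : Y ∈ Set.range g := hXY.adj.right
  -- not `C → C`
  have nCC : ¬ Adj g C C := by
    intro hCC
    have hs : Strong g C [] C := (strong_iff h.gb).2 ⟨hCC, ⟨B, by omega, hBC⟩, Z1, by omega, hCZ⟩
    obtain ⟨i, σ, j, ho⟩ := h.l.str h.pos (N := C + C) (by omega) (by omega)
      (h.dg.rest (C + C) (by omega) (by omega) (by omega) (by omega)).le hs (by simp)
    rcases h.opc ho (by omega) (by omega) with ⟨rfl, k1, k2, k3, k4, k5, k6, k7, k8, k9⟩ |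
      ⟨rfl, rfl, k3, k4, k5, k6⟩ | ⟨x, k1, k2, k3, k4, k5, k6, k7⟩
    · have hiX : i ≠ X := by
        rintro rfl
        have := hXY.out j k7
        omega
      have m1 := h.geC k5 (by omega)
      have e1 : i = C := by omega
      have e2 : j = C := by omega
      rw [e1, e2] at k8
      have := k8 B hBC
      omega
    · obtain ⟨i', σ', j', ho'⟩ := h.l.val (N := i) (by omega) (by omega)
        (h.dg.rest i (by omega) (by omega) (by omega) (by omega)).le k5.left
      rcases h.opc ho' (by omega) (by omega) with ⟨rfl, l1, l2, l3, l4, l5, l6, l7, l8, l9⟩ |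
        ⟨rfl, rfl, l3, l4, l5, l6⟩ | ⟨x, l1, l2, l3, l4, l5, l6, l7⟩
      · have hiX : i' ≠ X := by
          rintro rfl
          have := hXY.out _ l7
          omega
        have m1 := h.geC l5 (by omega)
        omega
      · have := l6 i k5
        omega
      · have hiX : i' ≠ X := by
          rintro rfl
          have := hXY.out _ l5
          omega
        have m1 := h.geC l3 (by omega)
        omega
    · have hiX : i ≠ X := by
        rintro rfl
        have := hXY.out _ k5
        omega
      have m1 := h.geC k3 (by omega)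
      omega
  -- predecessors in the lower range
  have prd : ∀ x y, Adj g x y → z < y → y ≠ X → y ≠ B → y ≠ Y → x ≤ C ∨ x ≤ B →
      x = C ∨ x = B := by
    intro x y hx h1 h2 h3 h4 h5
    rcases Nat.lt_or_ge z x with h6 | h6
    · have h7 := h.c.gap x hx.left h6
      rcases h.vals2 hx.left h7 (by omega) with h8 | ⟨u, h8, h9, _, _, _⟩
      · have hxX : x ≠ X := by
          rintro rfl
          exact h4 (hXY.out y hx)
        omega
      · omega
    · exfalso
      rcases h.I.fromi x _ hx h6 with e2 | e2 | e2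
      · rw [e2] at hx
        exact h2 (h.c.pX.out _ hx)
      · rw [e2] at hx
        exact h3 (hzB.out _ hx)
      · exact absurd e2 (h.I.old_big (Or.inr h1))
  have pC : ∀ x, Adj g x C → x = B := by
    intro x hx
    have h1 := hCB x hx
    rcases prd x C hx (by omega) (by omega) (by omega) (by omega) (Or.inr h1) with h2 | h2
    · rw [h2] at hx
      exact absurd hx nCC
    · exact h2
  -- predecessors of `v`
  have pvd : ∀ x, Adj g x v → x ≤ B → x = C ∨ x = B := by
    intro x hx h1
    have h2 := h.c.pv x hx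
    rcases h.vals2 hx.left h2 (by omega) with h8 | ⟨u, h8, h9, _, _, _⟩
    · have hxX : x ≠ X := by
        rintro rfl
        exact h.nXv hx
      omega
    · omega
  have closed : ∀ F : Set ℕ, (∀ x ∈ F, z < x) → (∀ x ∈ F, ∀ y, Adj g y x → y ∈ Q ∪ F) →
      (∀ x, Adj g x v → x ∈ F) → False := by
    intro F h1 h2 h3
    refine pred_closed (F := Q ∪ F) ?_ ?_ v (Or.inl h.I.Qv) h.I.mv
    · rintro (h4 | h4)
      · exact h.I.Qg h4
      · have := h1 _ h4
        omega
    · rintro x (hx | hx) y hy
      · by_cases hxv : x = v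
        · subst hxv
          exact Or.inr (h3 y hy)
        · exact Or.inl (h.I.Qp x hx hxv y hy)
      · exact h2 x hx y hy
  have nBv : ¬ Adj g B v := by
    intro hBv
    have h1 : ∀ x, Adj g x v → x ≤ B := by
      by_contra hc
      push Not at hc
      obtain ⟨x, hx1, hx2⟩ := hc
      exact h.stv hBv (by simp) ⟨x, hx2, hx1⟩ ⟨C, by omega, hBC⟩ (fun _ => hYm)
    have nCv : ¬ Adj g C v := by
      intro hCv
      exact h.stv hCv (by simp) ⟨B, by omega, hBv⟩ ⟨Z1, by omega, hCZ⟩ (fun hh => by omega)
    refine closed {B} ?_ ?_ ?_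
    · intro x hx
      rw [Set.mem_singleton_iff] at hx
      omega
    · intro x hx y hy
      rw [Set.mem_singleton_iff] at hx
      subst hx
      rw [hzB.inn y hy]
      exact Or.inl h.I.Qz
    · intro x hx
      rcases pvd x hx (h1 x hx) with h2 | h2
      · rw [h2] at hx
        exact absurd hx nCv
      · exact h2
  have uBC : Uq g B C := by
    refine ⟨hBC, fun x hx => ?_, pC⟩
    have h1 := hBS x hx
    rcases Nat.lt_or_ge z x with h6 | h6
    · rcases h.geC hx.right h6 with h7 | h7
      · rw [h7] at hx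
        have := h.c.pX.inn _ hx
        omega
      · omega
    · rcases h.I.toj _ _ hx h6 with e3 | e3
      · rw [e3] at hx
        exact absurd hx nBv
      · exact absurd e3 (h.I.old_big (Or.inl (by omega)))
  have nCv : ¬ Adj g C v := by
    intro hCv
    have h1 : ∀ x, Adj g x v → x ≤ C := by
      by_contra hc
      push Not at hc
      obtain ⟨x, hx1, hx2⟩ := hc
      exact h.stv hCv (by simp) ⟨x, hx2, hx1⟩ ⟨Z1, by omega, hCZ⟩ (fun hh => by omega)
    refine closed {B, C} ?_ ?_ ?_
    · intro x hx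
      simp only [Set.mem_insert_iff, Set.mem_singleton_iff] at hx
      omega
    · intro x hx y hy
      simp only [Set.mem_insert_iff, Set.mem_singleton_iff] at hx
      rcases hx with rfl | rfl
      · rw [hzB.inn y hy]
        exact Or.inl h.I.Qz
      · rw [pC y hy]
        exact Or.inr (by simp)
    · intro x hx
      rcases pvd x hx (by have := h1 x hx; omega) with h2 | h2
      · rw [h2]; simp
      · rw [h2]; simp
  refine ⟨uBC, hCZ, fun x hx => ?_, fun x hx => ?_⟩
  · have h1 := hCS x hx
    rcases Nat.lt_or_ge z x with h6 | h6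
    · have h7 := h.c.gap x hx.right h6
      rcases h.vals2 hx.right h7 (by omega) with h8 | ⟨u, h8, h9, h10, _, _⟩
      · rcases h8 with h8 | h8 | h8 | h8 | h8 | h8
        · rw [h8] at hx
          have := h.c.pX.inn _ hx
          omega
        · rw [h8] at hx
          exact absurd hx nCC
        · rw [h8] at hx
          have := hzB.inn _ hx
          omega
        · exact h8
        · omega
        · omega
      · have hu : u ≠ B := by
          rintro rfl
          exact nBv h10
        omega
    · rcases h.I.toj _ _ hx h6 with e3 | e3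
      · rw [e3] at hx
        exact absurd hx nCv
      · exact absurd e3 (h.I.old_big (Or.inl (by omega)))
  · have h1 := hZC x hx
    rcases prd x Z1 hx (by omega) (by omega) (by omega) (by omega) (Or.inl h1) with h2 | h2
    · exact h2
    · rw [h2] at hx
      have := uBC.out _ hx
      omega


theorem G2H.d6 (h : G2H g old p z v ν X C B Y Z1 Z2 Bd hi Q d) : Weak g Z1 [] Z2 := by
  obtain ⟨hz, hX, hC, hB1, hB2, hY, hZ1, hZ2, hv, hn, hv', hn', g1, g2, g3⟩ := h.P
  have hbd := h.bd
  have hhi := h.hi1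
  have hpz := h.I.pz
  obtain ⟨hXY, hD3⟩ := h.d3
  obtain ⟨hBC, hCZ⟩ := h.uBC
  have hzB := h.uzB
  -- words of these levels
  have key : ∀ N i σ j, Op g old N i σ j → (N = Z1 + Z2 ∨ N + v = Z1 + Z2) →
      (σ = [] ∧ j = v ∧ X ≤ i ∧ i + v = N ∧ Adj g i v ∧ (∀ x, Adj g x v → x ≤ i)) ∨
      (σ = [] ∧ i + j = N ∧ Z1 ≤ i ∧ Z1 < j ∧ j ≠ Y ∧ i ∈ Set.range g ∧ j ∈ Set.range g) := by
    intro N i σ j ho hN
    obtain ⟨k1, k2, k3, k4, k5⟩ := h.I.op h.gb ho (by omega)
    -- large values
    have big : ∀ y ∈ Set.range g, z < y → y ≠ X → y ≠ C → y ≠ B → Z1 ≤ y := by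
      intro y hy h1 h2 h3 h4
      have h5 := h.c.gap y hy h1
      by_contra hc
      rcases h.vals2 hy h5 (by omega) with h8 | ⟨u, h8, h9, h10, _, _⟩
      · omega
      · have hu : u ≠ B := by
          rintro rfl
          have := hBC.out _ h10
          omega
        omega
    have bigj : ∀ x y, Adj g x y → z < x → z < y → y ≠ Z1 → x ≠ X → x ≠ C → x ≠ B →
        Z1 < y ∧ y ≠ Y := by
      intro x y hx h1 h2 h3 h4 h5 h6
      have e1 : y ≠ X := by
        rintro rfl
        have := h.c.pX.inn _ hx
        omega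
      have e2 : y ≠ C := by
        rintro rfl
        exact h6 (hBC.inn _ hx)
      have e3 : y ≠ B := by
        rintro rfl
        have := hzB.inn _ hx
        omega
      have e4 : y ≠ Y := by
        rintro rfl
        exact h4 (hXY.inn _ hx)
      have := big y hx.right h2 e1 e2 e3
      omega
    rcases k1 with rfl | rfl | k1
    · have := (h.I.op_p h.gb h.c.pX (by omega) ho).2.2
      omega
    · have := (h.I.op_z h.gb hzB (by omega) ho).2.2
      omega
    · have e0 := h.c.gap i k3 k1
      rcases k5 with ⟨rfl, l6, l7, l8, l9⟩ |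
        ⟨S, x, w, l6, l7, l8, l9, l10, l11, l12, l13, l14, l15⟩
      · rcases k2 with rfl | k2
        · exact Or.inl ⟨rfl, rfl, e0, l6, l7, l8⟩
        · right
          have iX : i ≠ X := by
            rintro rfl
            have := hXY.out _ l7
            omega
          have iC : i ≠ C := by
            rintro rfl
            have := hCZ.out _ l7
            omega
          have iB : i ≠ B := by
            rintro rfl
            have := hBC.out _ l7
            omega
          have jZ : j ≠ Z1 := by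
            rintro rfl
            exact iC (hCZ.inn _ l7)
          have e1 := big i k3 k1 iX iC iB
          have e2 := bigj i j l7 k1 k2 jZ iX iC iB
          exact ⟨rfl, l6, e1, e2.1, e2.2, k3, k4⟩
      · exfalso
        obtain ⟨m1, y, m2, m3⟩ := l13
        have iX : i ≠ X := by
          rintro rfl
          have := hXY.out _ m1
          subst this
          have := hXY.inn _ m3
          omega
        have iC : i ≠ C := by
          rintro rfl
          have := hCZ.out _ m1
          subst this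
          have := hCZ.inn _ m3
          omega
        have iB : i ≠ B := by
          rintro rfl
          have := hBC.out _ m1
          subst this
          have := hBC.inn _ m3
          omega
        have xZ : x ≠ Z1 := by
          rintro rfl
          exact iC (hCZ.inn _ m1)
        have e1 := big i k3 k1 iX iC iB
        have e2 := bigj i x m1 k1 l8 xZ iX iC iB
        rcases k2 with rfl | k2 <;> omega
  obtain ⟨i, σ, j, ho⟩ := h.l.down (N := Z1 + Z2) (by omega) (by omega)
    (by rw [h.dg.dn (Z1 + Z2) (by simp)]; norm_num)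
  rcases key _ _ _ _ ho (Or.inl rfl) with ⟨rfl, rfl, k3, k4, k5, k6⟩ |
    ⟨rfl, k1, k2, k3, k4, k5, k6⟩
  · exfalso
    have hD5 := h.d5.2
    have hiD : i ≠ C + Z1 := by
      rintro rfl
      exact hD5 k5.left
    obtain ⟨i', σ', j', ho'⟩ := h.l.val (N := i) (by omega) (by omega)
      (h.dg.rest i (by omega) (by omega) (by omega) (by omega)).le k5.left
    rcases key _ _ _ _ ho' (Or.inr k4) with ⟨rfl, rfl, l3, l4, l5, l6⟩ |
      ⟨rfl, l1, l2, l3, l4, l5, l6⟩
    · have := l6 i k5
      omega
    · omega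
  · have e1 : i < p + X := by omega
    have e2 : j < p + X := by omega
    rcases h.vals2 k6 (by omega) e2 with h8 | ⟨u, h8, h9, _, _, _⟩
    · have e3 : i = Z1 := by omega
      have e4 : j = Z2 := by omega
      rw [← e3, ← e4]
      exact ho.1
    · exfalso
      rcases h.vals2 k5 (by omega) e1 with h10 | ⟨u', h10, h11, _, _, _⟩
      · omega
      · omega


end

/-- **Gadget stage, state N, the case KEEP.** -/
theorem GN2 {g : ℕ → ℕ} {old : ℕ → ℕ → Prop} {p z v ν X C B Y Z1 Z2 Bd hi : ℕ} {Q : Set ℕ}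
    {d : ℕ → ℤ} (hgb : GB g) (hpos : ∀ t, 0 < g t) (hI : NI g old p z v Bd Q)
    (hP : GP p z v ν X C B Y Z1 Z2) (hBd : Z1 + Z2 < Bd) (hhi : Z1 + Z2 < hi)
    (hd : DG d p z X C B Y Z1 Z2) (hl : RLE g old d z hi) (hc : GNc g p z v ν X C B Y Z1 Z2)
    (hXv : ¬ Adj g X v) : GNk g p z X C B Y Z1 Z2 := by
  have h : G2H g old p z v ν X C B Y Z1 Z2 Bd hi Q d :=
    ⟨hgb, hpos, hI, hP, hBd, hhi, hd, hl, hc, hXv⟩
  obtain ⟨hz, hX, hC, hB1, hB2, hY, hZ1, hZ2, hv, hn, hv', hn', g1, g2, g3⟩ := hP
  have hvp := hI.vp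
  have hpz := hI.pz
  have hg0 := hI.g0
  obtain ⟨hXY, hD3⟩ := h.d3
  obtain ⟨hBC, hCZ⟩ := h.uBC
  have hzB := h.uzB
  obtain ⟨hZZ, hZp, hZs⟩ := (weak_iff hgb).1 h.d6
  -- small values
  have only : ∀ y ∈ Set.range g, z < y → y ≤ Z2 →
      y = X ∨ y = C ∨ y = B ∨ y = Z1 ∨ y = Y ∨ y = Z2 := by
    intro y hy h1 h2
    have h5 := hc.gap y hy h1
    rcases h.vals2 hy h5 (by omega) with h8 | ⟨u, h8, h9, h10, _, _⟩
    · exact h8
    · have hu : u ≠ B := by
        rintro rfl
        have := hBC.out _ h10
        omega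
      omega
  have pred : ∀ x y, Adj g x y → z < y → y ≠ X → y ≠ B → y ≠ C → y ≠ Z1 → y ≠ Y → x ≤ Z1 →
      x = Z1 := by
    intro x y hx h1 h2 h3 h4 h5 h6 h7
    rcases Nat.lt_or_ge z x with h8 | h8
    · rcases only x hx.left h8 (by omega) with h9 | h9 | h9 | h9 | h9 | h9
      · rw [h9] at hx
        exact absurd (hXY.out y hx) h6
      · rw [h9] at hx
        exact absurd (hCZ.out y hx) h5
      · rw [h9] at hx
        exact absurd (hBC.out y hx) h4
      · exact h9
      · omega
      · omega
    · exfalso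
      rcases hI.fromi x _ hx h8 with e2 | e2 | e2
      · rw [e2] at hx
        exact h2 (hc.pX.out _ hx)
      · rw [e2] at hx
        exact h3 (hzB.out _ hx)
      · exact absurd e2 (hI.old_big (Or.inr h1))
  have nZv : ¬ Adj g Z1 v := by
    intro hZv
    have h1 : ∀ x, Adj g x v → x ≤ Z1 := by
      by_contra hno
      push Not at hno
      obtain ⟨x, hx1, hx2⟩ := hno
      exact h.stv hZv (by simp) ⟨x, hx2, hx1⟩ ⟨Z2, by omega, hZZ⟩ (fun hh => by omega)
    have h2 : ∀ x, Adj g x v → x = Z1 := by
      intro x hx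
      have h3 := hc.pv x hx
      rcases only x hx.left (by omega) (by have := h1 x hx; omega) with h9 | h9 | h9 | h9 | h9 | h9
      · rw [h9] at hx
        exact absurd hx hXv
      · rw [h9] at hx
        have := hCZ.out _ hx
        omega
      · rw [h9] at hx
        have := hBC.out _ hx
        omega
      · exact h9
      · have := h1 x hx
        omega
      · have := h1 x hx
        omega
    refine pred_closed (F := Q ∪ {B, C, Z1}) ?_ ?_ v (Or.inl hI.Qv) hI.mv
    · rintro (h4 | h4)
      · exact hI.Qg h4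
      · simp only [Set.mem_insert_iff, Set.mem_singleton_iff] at h4
        omega
    · rintro x (hx | hx) y hy
      · by_cases hxv : x = v
        · subst hxv
          rw [h2 y hy]
          exact Or.inr (by simp)
        · exact Or.inl (hI.Qp x hx hxv y hy)
      · simp only [Set.mem_insert_iff, Set.mem_singleton_iff] at hx
        rcases hx with rfl | rfl | rfl
        · rw [hzB.inn y hy]
          exact Or.inl hI.Qz
        · rw [hBC.inn y hy]
          exact Or.inr (by simp)
        · rw [hCZ.inn y hy]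
          exact Or.inr (by simp)
  refine ⟨only, hc.pX, hXY, hzB, hBC, hCZ, hZZ, fun x hx => ?_, fun x hx => ?_⟩
  · have h1 := hZs x hx
    rcases Nat.lt_or_ge z x with h6 | h6
    · rcases only x hx.right h6 h1 with h9 | h9 | h9 | h9 | h9 | h9
      · rw [h9] at hx
        have := hc.pX.inn _ hx
        omega
      · rw [h9] at hx
        have := hBC.inn _ hx
        omega
      · rw [h9] at hx
        have := hzB.inn _ hx
        omega
      · rw [h9] at hx
        have := hCZ.inn _ hx
        omega
      · rw [h9] at hx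
        have := hXY.inn _ hx
        omega
      · exact h9
    · rcases hI.toj _ _ hx h6 with e3 | e3
      · rw [e3] at hx
        exact absurd hx nZv
      · exact absurd e3 (hI.old_big (Or.inl (by omega)))
  · exact pred x Z2 hx (by omega) (by omega) (by omega) (by omega) (by omega) (by omega) (hZp x hx)

end Pool.Agent.CF2
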