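import Pool.Agent.CF2.WN

/-!
# CF2: gadget stage, state N, SWAP
-/

namespace Pool.Agent.CF2

/-- The hypotheses of the gadget stage in state N after its first half. -/
structure G3H (g : ℕ → ℕ) (old : ℕ → ℕ → Prop) (p z v ν X C B Y Z1 Z2 Bd hi : ℕ) (Q : Set ℕ)
    (d : ℕ → ℤ) : Prop where
  gb : GB g
  pos : ∀ t, 0 < g t
  I : NI g old p z v Bd Q
  P : GP p z v ν X C B Y Z1 Z2
  bd : Z1 + Z2 < Bd
  hi1 : Z1 + Z2 < hi
  dg : DG d p z X C B Y Z1 Z2
  l : RLE g old d z hi
  c : GNc g p z v ν X C B Y Z1 Z2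
  Xv : Adj g X v

section

variable {g : ℕ → ℕ} {old : ℕ → ℕ → Prop} {p z v ν X C B Y Z1 Z2 Bd hi : ℕ} {Q : Set ℕ}
  {d : ℕ → ℤ}

theorem DG.nonpos (h : DG d p z X C B Y Z1 Z2) {N : ℕ} (h0 : z < N) (h1 : N ≤ Z1 + Z2)
    (h2 : ¬ (N = X ∨ N = C ∨ N = B ∨ N = Z1 ∨ N = Y ∨ N = Z2)) : d N ≤ 0 := by
  by_cases h3 : N = p + X ∨ N = z + B ∨ N = X + Y ∨ N = B + C ∨ N = C + Z1 ∨ N = Z1 + Z2
  · rw [h.dn N h3]; norm_num
  · rw [h.rest N h0 h1 h2 h3]

theorem G3H.onceX (h : G3H g old p z v ν X C B Y Z1 Z2 Bd hi Q d) :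
    ∀ s t, g s = X → g t = X → s = t := by
  have := h.P.hX
  have := h.I.g0
  exact once_of_uq h.I.once h.c.pX (by omega)

theorem G3H.sX (h : G3H g old p z v ν X C B Y Z1 Z2 Bd hi Q d) {x : ℕ} (hx : Adj g X x) :
    x = v := succ_of_once h.onceX hx h.Xv

theorem G3H.sz (h : G3H g old p z v ν X C B Y Z1 Z2 Bd hi Q d) {x : ℕ} (hx : Adj g z x) :
    X ≤ x ∧ x ≤ B := by
  have h1 := ((weak_iff h.gb).1 h.c.zB).2.2 x hx
  refine ⟨?_, h1⟩
  rcases h.I.succ_z hx with h2 | h2
  · exfalso
    rw [h2] at hx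
    have := h.c.pv _ hx
    have := h.P.hX
    omega
  · exact h.c.gap x hx.right h2

/-- (i) the only predecessor of `v` is `X` -/
theorem G3H.pv (h : G3H g old p z v ν X C B Y Z1 Z2 Bd hi Q d) {x : ℕ} (hx : Adj g x v) :
    x = X := by
  have hXle := h.c.pv x hx
  by_contra hne
  obtain ⟨hz, hX, hC, hB1, hB2, hY, hZ1, hZ2, hv, hn, hv', hn', g1, g2, g3⟩ := h.P
  have hbd := h.bd
  have hhi := h.hi1
  have hnoX : ¬ Weak g X [] v := fun hw => by
    have := ((weak_iff h.gb).1 hw).2.1 x hx
    omega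
  -- values
  have hval : ∀ y ∈ Set.range g, X < y → y < B → C ≤ y ∧ y ≤ C + v := by
    intro y hy h1 h2
    rcases h.c.bl y hy (by omega) (by omega) with h3 | ⟨u, h3, rfl, h4⟩
    · omega
    · rcases h3 with rfl | h3
      · exact absurd h4 hnoX
      · omega
  have hgap := h.c.gap
  -- words
  have aux : ∀ N i σ j, N < Bd → (N = X + Y ∨ N + v = X + Y) → Op g old N i σ j →
      i + v = N ∧ Adj g i v ∧ ∀ x, Adj g x v → x ≤ i := by
    intro N i σ j hN hNN ho
    obtain ⟨h1, h2, h3, h4, h5⟩ := h.I.op h.gb ho hN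
    rcases h1 with rfl | rfl | h1
    · have := (h.I.op_p h.gb h.c.pX (by omega) ho).2.2
      omega
    · exfalso
      rcases h5 with ⟨rfl, h6, h7, h8, h9⟩ | ⟨S, x, w, h6, h7, h8, h9, h10, h11, h12, h13, h14, h15⟩
      · have := h.sz h7
        omega
      · have e1 := h.sz h13.1
        have e2 : x ≠ X := by
          rintro rfl
          obtain ⟨y, hy1, hy2⟩ := h13.2
          have := h.c.pX.inn y hy2
          omega
        have e3 : x ≠ B := by
          rintro rfl
          obtain ⟨y, hy1, hy2⟩ := h13.2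
          have := h.c.Bz y hy2
          omega
        have e4 := hval x h7 (by omega) (by omega)
        have e5 := hgap w h9 h10
        rcases h2 with rfl | h2
        · omega
        · have := hgap j h4 h2
          omega
    · have e0 := hgap i h3 h1
      rcases h5 with ⟨rfl, h6, h7, h8, h9⟩ | ⟨S, x, w, h6, h7, h8, h9, h10, h11, h12, h13, h14, h15⟩
      · rcases h2 with rfl | h2
        · exact ⟨h6, h7, h8⟩
        · exfalso
          have e1 := hgap j h4 h2
          have e2 : i ≠ X := by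
            rintro rfl
            have := h.sX h7
            omega
          have e3 : j ≠ X := by
            rintro rfl
            have := h.c.pX.inn i h7
            omega
          have e4 : j ≠ B := by
            rintro rfl
            have := h.c.Bz i h7
            omega
          rcases Nat.lt_or_ge i B with k | k
          · have k1 := hval i h3 (by omega) k
            rcases Nat.lt_or_ge j B with k' | k'
            · have k2 := hval j h4 (by omega) k'
              omega
            · omega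
          · rcases Nat.lt_or_ge j B with k' | k'
            · have k2 := hval j h4 (by omega) k'
              omega
            · omega
      · exfalso
        have e5 := hgap w h9 h10
        have e1 := hgap x h7 h8
        rcases h2 with rfl | h2
        · have e2 : i ≠ X := by
            rintro rfl
            have := h.sX h13.1
            omega
          have e3 : x ≠ X := by
            rintro rfl
            have := h.c.pX.inn i h13.1
            omega
          have e4 : x ≠ B := by
            rintro rfl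
            have := h.c.Bz i h13.1
            omega
          rcases h15 with ⟨rfl, rfl⟩ | h15
          · rcases Nat.lt_or_ge i B with k | k
            · have k1 := hval i h3 (by omega) k
              rcases Nat.lt_or_ge S B with k' | k'
              · have k2 := hval S h7 (by omega) k'
                omega
              · omega
            · rcases Nat.lt_or_ge S B with k' | k'
              · have k2 := hval S h7 (by omega) k'
                omega
              · omega
          · omega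
        · have := hgap j h4 h2
          omega
  obtain ⟨i, σ, j, ho⟩ := h.l.down (N := X + Y) (by omega) (by omega)
    (by rw [h.dg.dn (X + Y) (by simp)]; norm_num)
  obtain ⟨k1, k2, k3⟩ := aux _ i σ j (by omega) (Or.inl rfl) ho
  obtain ⟨i', σ', j', ho'⟩ := h.l.val (N := i) (by omega) (by omega)
    (h.dg.nonpos (by omega) (by omega) (by omega)) k2.left
  obtain ⟨k1', k2', k3'⟩ := aux _ i' σ' j' (by omega) (Or.inr k1) ho'
  have := k3' i k2
  omega

/-- The link `X → v`. -/
theorem G3H.uXv (h : G3H g old p z v ν X C B Y Z1 Z2 Bd hi Q d) : Uq g X v :=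
  ⟨h.Xv, fun _ hx => h.sX hx, fun _ hx => h.pv hx⟩

/-- The link `z → B`. -/
theorem G3H.uzB (h : G3H g old p z v ν X C B Y Z1 Z2 Bd hi Q d) : Uq g z B ∧
    ∀ s t, g s = B → g t = B → s = t := by
  have hv : ∀ s t, g s = v → g t = v → s = t :=
    once_of_uq h.onceX h.uXv (fun e => h.I.Qg (by rw [e]; exact h.I.Qv))
  have hz := h.I.oncez hv
  have hzB := ((weak_iff h.gb).1 h.c.zB).1
  have hu : Uq g z B := ⟨hzB, fun x hx => succ_of_once hz hx hzB, fun x hx => h.c.Bz x hx⟩
  refine ⟨hu, once_of_uq hz hu ?_⟩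
  have := h.I.g0
  have := h.P.hX
  have := h.P.hB2
  omega

/-- The run `X + v`. -/
theorem G3H.mS (h : G3H g old p z v ν X C B Y Z1 Z2 Bd hi Q d) : X + v ∈ Set.range g := by
  obtain ⟨hz, hX, hC, hB1, hB2, hY, hZ1, hZ2, hv, hn, hv', hn', g1, g2, g3⟩ := h.P
  have hbd := h.bd
  have hhi := h.hi1
  have hw : Weak g X [] v := h.uXv.weak h.gb
  refine h.l.zero_only h.pos (N := X + v) (w := (X, [], v)) (by omega) (by omega)
    (h.dg.rest _ (by omega) (by omega) (by omega) (by omega)) (fun i σ j ho => ?_)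
    (fun i σ j hs hN => ?_) (op_of_weak hw rfl (h.I.old_v X))
  · obtain ⟨h1, h2, h3, h4, h5⟩ := h.I.op h.gb ho (by omega)
    rcases h1 with rfl | rfl | h1
    · have := (h.I.op_p h.gb h.c.pX (by omega) ho).2.2
      omega
    · have := (h.I.op_z h.gb h.uzB.1 (by omega) ho).2.2
      omega
    · have e0 := h.c.gap i h3 h1
      rcases h5 with ⟨rfl, h6, h7, h8, h9⟩ | ⟨S, x, w, h6, h7, h8, h9, h10, h11, h12, h13, h14, h15⟩
      · rcases h2 with rfl | h2
        · have : i = X := by omega
          rw [this]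
        · have := h.c.gap j h4 h2
          omega
      · have := h.c.gap x h7 h8
        omega
  · obtain ⟨h1, h2, h3, h4, h5⟩ := h.I.st h.gb hs hN (by omega)
    rcases h5 with ⟨rfl, h6, h7, ⟨x, hx1, hx2⟩, h9⟩ |
      ⟨S, x, w, h6, h7, h8, h9, h10, h11, h12, h13, h14, h15⟩
    · rcases h1 with rfl | rfl | h1
      · have := h.c.pX.out j h7
        omega
      · have := h.sz h7
        omega
      · have e0 := h.c.gap i h3 h1
        rcases h2 with rfl | h2
        · have := h.pv hx2
          omega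
        · have := h.c.gap j h4 h2
          omega
    · have := h.c.gap x h7 h8
      omega

/-- `Y` is a run. -/
theorem G3H.mY (h : G3H g old p z v ν X C B Y Z1 Z2 Bd hi Q d) : Y ∈ Set.range g := by
  rcases h.c.mY with h1 | ⟨_, h1⟩
  · exact h1
  · exfalso
    have h2 := h.pv ((strong_iff h.gb).1 h1).1
    have := h.P.hB2
    have := h.P.hv'
    have := h.P.hv
    omega

/-- The runs below `2 X`. -/
theorem G3H.vals (h : G3H g old p z v ν X C B Y Z1 Z2 Bd hi Q d) {y : ℕ}
    (hy : y ∈ Set.range g) (h1 : z < y) (h2 : y < 2 * X) :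
    y = X ∨ y = C ∨ y = X + v ∨ y = B ∨ y = Z1 ∨ y = Y ∨ y = Z2 := by
  have h3 := h.c.gap y hy h1
  rcases Nat.lt_or_ge y (p + X) with h4 | h4
  · rcases h.c.bl y hy h3 h4 with h5 | ⟨u, h5, rfl, h6⟩
    · omega
    · have := h.pv ((weak_iff h.gb).1 h6).1
      omega
  · exfalso
    by_cases e1 : y = p + X
    · rw [e1] at hy; exact h.c.D1 hy
    by_cases e2 : y = z + B
    · rw [e2] at hy; exact h.c.D2 hy
    obtain ⟨hz, hX, hC, hB1, hB2, hY, hZ1, hZ2, hv, hn, hv', hn', g1, g2, g3⟩ := h.P
    have hbd := h.bd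
    have hhi := h.hi1
    obtain ⟨i, σ, j, ho⟩ := h.l.val (by omega) (by omega)
      (h.dg.nonpos (N := y) (by omega) (by omega) (by omega)) hy
    obtain ⟨h1', h2', h3', h4', h5⟩ := h.I.op h.gb ho (by omega)
    rcases h1' with rfl | rfl | h1'
    · have := (h.I.op_p h.gb h.c.pX (by omega) ho).2.2
      omega
    · have := (h.I.op_z h.gb h.uzB.1 (by omega) ho).2.2
      omega
    · have e0 := h.c.gap i h3' h1'
      rcases h5 with ⟨rfl, h6, h7, h8, h9⟩ | ⟨S, x, w, h6, h7, h8, h9, h10, h11, h12, h13, h14, h15⟩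
      · rcases h2' with rfl | h2'
        · have := h.pv h7
          omega
        · have := h.c.gap j h4' h2'
          omega
      · have := h.c.gap x h7 h8
        omega

/-- The runs from which the words are made. -/
def Six (X C v B Z1 Y Z2 i : ℕ) : Prop :=
  i = C ∨ i = X + v ∨ i = B ∨ i = Z1 ∨ i = Y ∨ i = Z2

/-- Links between new runs. -/
theorem G3H.adj (h : G3H g old p z v ν X C B Y Z1 Z2 Bd hi Q d) {i j : ℕ} (ha : Adj g i j)
    (hi' : z < i) (hj : z < j) (hiX : i < 2 * X) (hjX : j < 2 * X) :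
    Six X C v B Z1 Y Z2 i ∧ Six X C v B Z1 Y Z2 j := by
  have hiX' : i ≠ X := by
    rintro rfl
    have := h.sX ha
    have := h.I.vp
    have := h.I.pz
    omega
  have hjX' : j ≠ X := by
    rintro rfl
    have := h.c.pX.inn i ha
    have := h.I.pz
    omega
  have h1 := h.vals ha.left hi' hiX
  have h2 := h.vals ha.right hj hjX
  unfold Six
  omega

/-- The successors of a new run. -/
theorem G3H.succ (h : G3H g old p z v ν X C B Y Z1 Z2 Bd hi Q d) {i j : ℕ} (ha : Adj g i j)
    (hi' : z < i) (hiX : i ≠ X) : z < j ∧ j ≠ X ∧ j ≠ B := by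
  have hvp := h.I.vp
  have hpz := h.I.pz
  have hX := h.P.hX
  have hjX' : j ≠ X := by
    rintro rfl
    have := h.c.pX.inn i ha
    omega
  have hjB' : j ≠ B := by
    rintro rfl
    have := h.c.Bz i ha
    omega
  refine ⟨?_, hjX', hjB'⟩
  by_contra hc
  rcases h.I.toj i j ha (by omega) with h1 | h1
  · subst h1
    exact hiX (h.pv ha)
  · exact h.I.old_big (Or.inl hi') h1

/-- The predecessors of a new run. -/
theorem G3H.pred (h : G3H g old p z v ν X C B Y Z1 Z2 Bd hi Q d) {i j : ℕ} (ha : Adj g i j)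
    (hj : z < j) (hjX : j ≠ X) (hjB : j ≠ B) : z < i ∧ i ≠ X := by
  have hvp := h.I.vp
  have hpz := h.I.pz
  constructor
  · by_contra hc
    rcases h.I.fromi i j ha (by omega) with h1 | h1 | h1
    · rw [h1] at ha; exact hjX (h.c.pX.out j ha)
    · rw [h1] at ha; exact hjB (h.uzB.1.out j ha)
    · exact h.I.old_big (Or.inr hj) h1
  · rintro rfl
    have := h.sX ha
    omega

/-- The open words of high level. -/
theorem G3H.op (h : G3H g old p z v ν X C B Y Z1 Z2 Bd hi Q d) {N i σ j}
    (ho : Op g old N i σ j) (hN1 : z + B < N) (hN2 : N ≤ Z1 + Z2) :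
    i + j = N ∧ σ = [] ∧ Adj g i j ∧ (∀ x, Adj g x j → x ≤ i) ∧ (∀ x, Adj g i x → x ≤ j) ∧
      Six X C v B Z1 Y Z2 i ∧ Six X C v B Z1 Y Z2 j ∧ j ≠ B := by
  obtain ⟨hz, hX, hC, hB1, hB2, hY, hZ1, hZ2, hv, hn, hv', hn', g1, g2, g3⟩ := h.P
  have hbd := h.bd
  obtain ⟨h1, h2, h3, h4, h5⟩ := h.I.op h.gb ho (by omega)
  rcases h1 with rfl | rfl | h1
  · have := (h.I.op_p h.gb h.c.pX (by omega) ho).2.2
    omega
  · have := (h.I.op_z h.gb h.uzB.1 (by omega) ho).2.2
    omega
  · have e0 := h.c.gap i h3 h1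
    rcases h5 with ⟨rfl, h6, h7, h8, h9⟩ | ⟨S, x, w, h6, h7, h8, h9, h10, h11, h12, h13, h14, h15⟩
    · rcases h2 with rfl | h2
      · have := h.pv h7
        omega
      · have e1 := h.c.gap j h4 h2
        have hjB : j ≠ B := by
          rintro rfl
          have := h.c.Bz i h7
          omega
        obtain ⟨k1, k2⟩ := h.adj h7 h1 h2 (by omega) (by omega)
        exact ⟨h6, rfl, h7, h8, h9, k1, k2, hjB⟩
    · exfalso
      have e1 := h.c.gap x h7 h8
      have e2 := h.c.gap w h9 h10
      rcases h2 with rfl | h2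
      · have := h.pv h14.1
        obtain ⟨y, hy1, hy2⟩ := h14.2
        rw [this] at hy2
        have := h.sX hy2
        omega
      · have := h.c.gap j h4 h2
        omega

/-- A strong word of high level has an open partner. -/
theorem G3H.str (h : G3H g old p z v ν X C B Y Z1 Z2 Bd hi Q d) {i j : ℕ}
    (ha : Adj g i j) (hp : ∃ x, i < x ∧ Adj g x j) (hs : ∃ x, j < x ∧ Adj g i x)
    (hN1 : z + B < i + j) (hN2 : i + j ≤ Z1 + Z2) :
    ∃ i' j', i' + j' = i + j ∧ Adj g i' j' ∧ (∀ x, Adj g x j' → x ≤ i') ∧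
      (∀ x, Adj g i' x → x ≤ j') ∧ Six X C v B Z1 Y Z2 i' ∧ Six X C v B Z1 Y Z2 j' ∧ j' ≠ B := by
  have hst : Strong g i [] j := (strong_iff h.gb).2 ⟨ha, hp, hs⟩
  have hhi := h.hi1
  obtain ⟨hz, hX, hC, hB1, hB2, hY, hZ1, hZ2, hv, hn, hv', hn', g1, g2, g3⟩ := h.P
  obtain ⟨i', σ, j', ho⟩ := h.l.str h.pos (N := i + j) (by omega) (by omega)
    (h.dg.nonpos (by omega) hN2 (by omega)) hst (by simp)
  obtain ⟨k1, k2, k3, k4, k5, k6, k7, k8⟩ := h.op ho hN1 hN2
  exact ⟨i', j', k1, k3, k4, k5, k6, k7, k8⟩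

/-- What is known after the third and the fourth down. -/
structure G3F (g : ℕ → ℕ) (v ν X B Y : ℕ) : Prop where
  vn : v = ν
  BS : Adj g B (X + v)
  sB : ∀ x, Adj g B x → x = X + v
  pS : ∀ x, Adj g x (X + v) → x ≤ B
  SY : Adj g (X + v) Y
  sS : ∀ x, Adj g (X + v) x → x ≤ Y
  pY : ∀ x, Adj g x Y → x ≤ X + v

/-- (j), (k) -/
theorem G3H.fin (h : G3H g old p z v ν X C B Y Z1 Z2 Bd hi Q d) : G3F g v ν X B Y := by
  have hhi := h.hi1
  have hbd := h.bd
  obtain ⟨hz, hX, hC, hB1, hB2, hY, hZ1, hZ2, hv, hn, hv', hn', g1, g2, g3⟩ := h.P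
  obtain ⟨i, σ, j, ho⟩ := h.l.down (N := X + Y) (by omega) (by omega)
    (by rw [h.dg.dn (X + Y) (by simp)]; norm_num)
  obtain ⟨k1, k2, k3, k4, k5, k6, k7, k8⟩ := h.op ho (by omega) (by omega)
  have e : v = ν ∧ i = B ∧ j = X + v := by
    unfold Six at k6 k7
    omega
  obtain ⟨rfl, rfl, rfl⟩ := e
  have hsB : ∀ x, Adj g i x → x = X + v := fun x hx => succ_of_once h.uzB.2 hx k3
  obtain ⟨i', σ', j', ho'⟩ := h.l.down (N := i + C) (by omega) (by omega)
    (by rw [h.dg.dn (i + C) (by simp)]; norm_num)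
  obtain ⟨l1, l2, l3, l4, l5, l6, l7, l8⟩ := h.op ho' (by omega) (by omega)
  have e : (i' = X + v ∧ j' = Y) ∨ (i' = i ∧ j' = C) ∨ (i' = Y ∧ j' = X + v) := by
    unfold Six at l6 l7
    omega
  rcases e with ⟨rfl, rfl⟩ | ⟨rfl, rfl⟩ | ⟨rfl, rfl⟩
  · exact ⟨rfl, k3, hsB, k4, l3, l5, l4⟩
  · exfalso
    have := hsB _ l3
    omega
  · exfalso
    have := k4 _ l3
    omega

end

/-- **Gadget stage, state N, the case SWAP.** -/
theorem GN3 {g : ℕ → ℕ} {old : ℕ → ℕ → Prop} {p z v ν X C B Y Z1 Z2 Bd hi : ℕ} {Q : Set ℕ}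
    {d : ℕ → ℤ} (hgb : GB g) (hpos : ∀ t, 0 < g t) (hI : NI g old p z v Bd Q)
    (hP : GP p z v ν X C B Y Z1 Z2) (hBd : Z1 + Z2 < Bd) (hhi : Z1 + Z2 < hi)
    (hd : DG d p z X C B Y Z1 Z2) (hl : RLE g old d z hi) (hc : GNc g p z v ν X C B Y Z1 Z2)
    (hXv : Adj g X v) : GNs g p z v ν X C B Y Z1 Z2 := by
  have h : G3H g old p z v ν X C B Y Z1 Z2 Bd hi Q d :=
    ⟨hgb, hpos, hI, hP, hBd, hhi, hd, hl, hc, hXv⟩
  have F := h.fin
  obtain ⟨hz, hX, hC, hB1, hB2, hY, hZ1, hZ2, hv, hn, hv', hn', g1, g2, g3⟩ := h.P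
  have hvn := F.vn
  subst hvn
  have hzB := h.uzB
  have hvp := hI.vp
  have hg0 := hI.g0
  -- the open words of the last two downs
  have l5 : ∀ i σ j, Op g old (C + Z1) i σ j →
      (i = C ∧ j = Z1 ∨ i = Z1 ∧ j = C) ∧ σ = [] ∧ Adj g i j ∧ (∀ x, Adj g x j → x ≤ i) ∧
        (∀ x, Adj g i x → x ≤ j) := by
    intro i σ j ho
    obtain ⟨l1, l2, l3, l4, l5, l6, l7, l8⟩ := h.op ho (by omega) (by omega)
    unfold Six at l6 l7
    exact ⟨by omega, l2, l3, l4, l5⟩
  have l6 : ∀ i σ j, Op g old (Z1 + Z2) i σ j →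
      (i = Z1 ∧ j = Z2 ∨ i = Z2 ∧ j = Z1) ∧ σ = [] ∧ Adj g i j ∧ (∀ x, Adj g x j → x ≤ i) ∧
        (∀ x, Adj g i x → x ≤ j) := by
    intro i σ j ho
    obtain ⟨l1, l2, l3, l4, l5, l6, l7, l8⟩ := h.op ho (by omega) (by omega)
    unfold Six at l6 l7
    exact ⟨by omega, l2, l3, l4, l5⟩
  -- successors and predecessors of new runs
  have su : ∀ i j, Adj g i j → z < i → i ≠ X → j < 2 * X →
      j = C ∨ j = X + v ∨ j = Z1 ∨ j = Y ∨ j = Z2 := by
    intro i j ha h1 h2 h3
    obtain ⟨k1, k2, k3⟩ := h.succ ha h1 h2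
    have := h.vals ha.right k1 h3
    omega
  have pr : ∀ i j, Adj g i j → z < j → j ≠ X → j ≠ B → i < 2 * X →
      i = C ∨ i = X + v ∨ i = B ∨ i = Z1 ∨ i = Y ∨ i = Z2 := by
    intro i j ha h1 h2 h3 h4
    obtain ⟨k1, k2⟩ := h.pred ha h1 h2 h3
    have := h.vals ha.left k1 h4
    omega
  -- no strong words `(C ; S)`, `(S ; C)` when certain links exist
  have s2C : ¬ ((∃ x, C < x ∧ Adj g x C) ∧ (∃ x, C < x ∧ Adj g C x) ∧ Adj g C C) := by
    rintro ⟨h1, h2, h3⟩
    obtain ⟨i, j, k1, k2, k3, k4, k5, k6, k7⟩ := h.str h3 h1 h2 (by omega) (by omega)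
    unfold Six at k5 k6
    have : i = C ∧ j = C := by omega
    obtain ⟨rfl, rfl⟩ := this
    obtain ⟨x, hx1, hx2⟩ := h2
    have := k4 x hx2
    omega
  have s2S : ¬ Adj g (X + v) (X + v) := by
    intro h3
    obtain ⟨i, j, k1, k2, k3, k4, k5, k6, k7⟩ := h.str h3 ⟨B, by omega, F.BS⟩ ⟨Y, by omega, F.SY⟩
      (by omega) (by omega)
    unfold Six at k5 k6
    have : i = X + v ∧ j = X + v := by omega
    obtain ⟨rfl, rfl⟩ := this
    have := k4 Y F.SY
    omega
  have hpS : ∀ x, Adj g x (X + v) → x = B ∨ x = C := by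
    intro x hx
    have h1 := F.pS x hx
    have h2 := pr x _ hx (by omega) (by omega) (by omega) (by omega)
    rcases h2 with h2 | h2 | h2 | h2 | h2 | h2
    · exact Or.inr h2
    · rw [h2] at hx; exact absurd hx s2S
    · exact Or.inl h2
    · omega
    · omega
    · omega
  -- if `C → S` and `C → ` something larger then `(C ; S)` is strong
  have sCS : Adj g C (X + v) → (∃ x, X + v < x ∧ Adj g C x) → (Adj g (X + v) C ∧
      (∀ x, Adj g x C → x ≤ X + v) ∧ ∀ x, Adj g (X + v) x → x ≤ C) := by
    intro h1 h2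
    obtain ⟨i, j, k1, k2, k3, k4, k5, k6, k7⟩ := h.str h1 ⟨B, by omega, F.BS⟩ h2
      (by omega) (by omega)
    unfold Six at k5 k6
    have : i = C ∧ j = X + v ∨ i = X + v ∧ j = C := by omega
    rcases this with ⟨rfl, rfl⟩ | ⟨rfl, rfl⟩
    · exfalso
      have := k3 B F.BS
      omega
    · exact ⟨k2, k3, k4⟩
  have sCS' : ¬ (Adj g C (X + v) ∧ ∃ x, X + v < x ∧ Adj g C x) := by
    rintro ⟨h1, h2⟩
    have := (sCS h1 h2).2.2 Y F.SY
    omega
  have hpY : ∀ x, Adj g x Y → x = X + v := by
    intro x hx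
    have h1 := F.pY x hx
    have h2 := pr x _ hx (by omega) (by omega) (by omega) (by omega)
    omega
  obtain ⟨i5, σ5, j5, ho5⟩ := h.l.down (N := C + Z1) (by omega) (by omega)
    (by rw [h.dg.dn (C + Z1) (by simp)]; norm_num)
  obtain ⟨i6, σ6, j6, ho6⟩ := h.l.down (N := Z1 + Z2) (by omega) (by omega)
    (by rw [h.dg.dn (Z1 + Z2) (by simp)]; norm_num)
  obtain ⟨a5, _, b5, c5, d5⟩ := l5 _ _ _ ho5
  obtain ⟨a6, _, b6, c6, d6⟩ := l6 _ _ _ ho6
  -- not both words of level `C + Z1`
  have notboth : ¬ ((Adj g C Z1 ∧ (∀ x, Adj g x Z1 → x ≤ C) ∧ ∀ x, Adj g C x → x ≤ Z1) ∧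
      (Adj g Z1 C ∧ (∀ x, Adj g x C → x ≤ Z1) ∧ ∀ x, Adj g Z1 x → x ≤ C)) := by
    rintro ⟨⟨m1, m2, m3⟩, m4, m5, m6⟩
    have q1 : ∀ x, Adj g Z1 x → x = C := by
      intro x hx
      have h1 := m6 x hx
      have h2 := su _ _ hx (by omega) (by omega) (by omega)
      rcases h2 with h2 | h2 | h2 | h2 | h2
      · exact h2
      · rw [h2] at hx
        have := F.pS _ hx
        omega
      · omega
      · omega
      · omega
    have q2 : ∀ x, Adj g C x → x = Z1 := by
      intro x hx
      have h1 := m3 x hx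
      have h2 := su _ _ hx (by omega) (by omega) (by omega)
      rcases h2 with h2 | h2 | h2 | h2 | h2
      · rw [h2] at hx
        exact absurd ⟨⟨Z1, by omega, m4⟩, ⟨Z1, by omega, m1⟩, hx⟩ s2C
      · rw [h2] at hx
        exact absurd ⟨hx, Z1, by omega, m1⟩ sCS'
      · exact h2
      · omega
      · omega
    refine succ_closed hgb (F := {C, Z1}) (B := Z1) ?_ ?_ C (by simp) m1.left
    · intro x hx
      simp only [Set.mem_insert_iff, Set.mem_singleton_iff] at hx
      omega
    · intro x hx y hy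
      simp only [Set.mem_insert_iff, Set.mem_singleton_iff] at hx ⊢
      rcases hx with rfl | rfl
      · exact Or.inr (q2 y hy)
      · exact Or.inl (q1 y hy)
  have honly : ∀ y ∈ Set.range g, z < y → y ≤ Z2 →
      y = X ∨ y = C ∨ y = B ∨ y = Z1 ∨ y = Y ∨ y = Z2 ∨ y = X + v := by
    intro y h1 h2 h3
    have := h.vals h1 h2 (by omega)
    omega
  -- the two directions
  rcases a5 with ⟨rfl, rfl⟩ | ⟨rfl, rfl⟩
  · -- N
    rcases a6 with ⟨_, rfl⟩ | ⟨rfl, _⟩
    swap
    · exfalso
      have := c5 _ (by rwa [show j6 = j5 by assumption] at b6)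
      omega
    have e6 : i6 = j5 := by assumption
    subst e6
    -- nothing strong at level `C + Z1`
    have hd5 := (hl.down_only hpos (N := i5 + i6) (by omega) (by omega)
      (h.dg.dn (i5 + i6) (by simp)) (w := (i5, [], i6)) (fun i σ j ho => by
        obtain ⟨m1, m2, m3, m4, m5⟩ := l5 i σ j ho
        rcases m1 with ⟨rfl, rfl⟩ | ⟨rfl, rfl⟩
        · rw [m2]
        · exact absurd ⟨⟨b5, c5, d5⟩, m3, m4, m5⟩ notboth)).2
    have nCS : ¬ Adj g i5 (X + v) := fun hx => sCS' ⟨hx, i6, by omega, b5⟩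
    have pS : ∀ x, Adj g x (X + v) → x = B := by
      intro x hx
      rcases hpS x hx with h1 | h1
      · exact h1
      · rw [h1] at hx; exact absurd hx nCS
    have uBS : Uq g B (X + v) := ⟨F.BS, F.sB, pS⟩
    have oS := once_of_uq hzB.2 uBS (by omega)
    have sS : ∀ x, Adj g (X + v) x → x = Y := fun x hx => succ_of_once oS hx F.SY
    have nCC : ¬ Adj g i5 i5 := by
      intro hx
      have h1 : ∀ x, Adj g x i5 → x ≤ i5 := by
        by_contra hc
        push Not at hc
        obtain ⟨x, hx1, hx2⟩ := hc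
        exact s2C ⟨⟨x, hx2, hx1⟩, ⟨i6, by omega, b5⟩, hx⟩
      refine pred_closed (F := {i5}) (by simp; omega) ?_ i5 rfl b5.left
      intro x hx y hy
      rw [Set.mem_singleton_iff] at hx ⊢
      subst hx
      have h2 := h1 y hy
      have h3 := pr _ _ hy (by omega) (by omega) (by omega) (by omega)
      rcases h3 with h3 | h3 | h3 | h3 | h3 | h3
      · exact h3
      · rw [h3] at hy
        have := sS _ hy
        omega
      · omega
      · omega
      · omega
      · omega
    have sC : ∀ x, Adj g i5 x → x = i6 := by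
      intro x hx
      have h1 := d5 x hx
      have h2 := su _ _ hx (by omega) (by omega) (by omega)
      rcases h2 with h2 | h2 | h2 | h2 | h2
      · rw [h2] at hx; exact absurd hx nCC
      · rw [h2] at hx; exact absurd hx nCS
      · exact h2
      · omega
      · omega
    have pZ1 : ∀ x, Adj g x i6 → x = i5 := by
      intro x hx
      have h1 := c5 x hx
      have h2 := pr _ _ hx (by omega) (by omega) (by omega) (by omega)
      rcases h2 with h2 | h2 | h2 | h2 | h2 | h2
      · exact h2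
      · rw [h2] at hx
        have := sS _ hx
        omega
      · omega
      · omega
      · omega
      · omega
    have nZC : ¬ Adj g i6 i5 := by
      intro hx
      have h1 : ∀ x, Adj g x i5 → x ≤ i6 := by
        by_contra hc
        push Not at hc
        obtain ⟨x, hx1, hx2⟩ := hc
        refine hd5 i6 [] i5 ((strong_iff hgb).2 ⟨hx, ⟨x, hx2, hx1⟩, j6, by omega, b6⟩) ?_
        simp; omega
      refine pred_closed (F := {i5, i6}) (by simp; omega) ?_ i5 (by simp) b5.left
      intro x hx y hy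
      simp only [Set.mem_insert_iff, Set.mem_singleton_iff] at hx ⊢
      rcases hx with rfl | rfl
      · have h2 := h1 y hy
        have h3 := pr _ _ hy (by omega) (by omega) (by omega) (by omega)
        rcases h3 with h3 | h3 | h3 | h3 | h3 | h3
        · exact Or.inl h3
        · rw [h3] at hy
          have := sS _ hy
          omega
        · rw [h3] at hy
          have := F.sB _ hy
          omega
        · exact Or.inr (by omega)
        · omega
        · omega
      · exact Or.inl (pZ1 y hy)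
    have sZ1 : ∀ x, Adj g i6 x → x = j6 := by
      intro x hx
      have h1 := d6 x hx
      have h2 := su _ _ hx (by omega) (by omega) (by omega)
      rcases h2 with h2 | h2 | h2 | h2 | h2
      · rw [h2] at hx; exact absurd hx nZC
      · rw [h2] at hx
        have := pS _ hx
        omega
      · have h3 : x = i6 := by omega
        rw [h3] at hx
        have := pZ1 _ hx
        omega
      · rw [h2] at hx
        have := hpY _ hx
        omega
      · exact h2
    have pZ2 : ∀ x, Adj g x j6 → x = i6 := by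
      intro x hx
      have h1 := c6 x hx
      have h2 := pr _ _ hx (by omega) (by omega) (by omega) (by omega)
      rcases h2 with h2 | h2 | h2 | h2 | h2 | h2
      · rw [h2] at hx
        have := sC _ hx
        omega
      · rw [h2] at hx
        have := sS _ hx
        omega
      · rw [h2] at hx
        have := F.sB _ hx
        omega
      · omega
      · omega
      · omega
    exact ⟨rfl, honly, hc.pX, h.uXv, hzB.1, ⟨F.SY, sS, hpY⟩,
      Or.inl ⟨uBS, ⟨b5, sC, pZ1⟩, ⟨b6, sZ1, pZ2⟩⟩⟩
  · -- R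
    rcases a6 with ⟨e6, f6⟩ | ⟨e6, f6⟩
    · exfalso
      rw [e6] at b6
      have := d5 _ b6
      omega
    subst f6
    subst e6
    have hd5 := (hl.down_only hpos (N := j5 + j6) (by omega) (by omega)
      (h.dg.dn (j5 + j6) (by simp)) (w := (j6, [], j5)) (fun i σ j ho => by
        obtain ⟨m1, m2, m3, m4, m5⟩ := l5 i σ j ho
        rcases m1 with ⟨rfl, rfl⟩ | ⟨rfl, rfl⟩
        · exact absurd ⟨⟨m3, m4, m5⟩, b5, c5, d5⟩ notboth
        · rw [m2])).2
    have CS : Adj g j5 (X + v) → ∀ x, Adj g j5 x → x = X + v := by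
      intro h1 x hx
      by_contra hne
      have h3 : ¬ X + v < x := fun h4 => sCS' ⟨h1, x, h4, hx⟩
      have h2 := su _ _ hx (by omega) (by omega) (by omega)
      omega
    have sS : ∀ x, Adj g (X + v) x → x = Y := by
      intro x hx
      have h1 := F.sS x hx
      have h2 := su _ _ hx (by omega) (by omega) (by omega)
      rcases h2 with h2 | h2 | h2 | h2 | h2
      · exfalso
        rw [h2] at hx
        obtain ⟨i, j, k1, k2, k3, k4, k5, k6, k7⟩ := h.str hx ⟨j6, by omega, b5⟩
          ⟨Y, by omega, F.SY⟩ (by omega) (by omega)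
        unfold Six at k5 k6
        have : i = j5 ∧ j = X + v ∨ i = X + v ∧ j = j5 := by omega
        rcases this with ⟨rfl, rfl⟩ | ⟨rfl, rfl⟩
        · have := k3 B F.BS
          omega
        · have := k4 Y F.SY
          omega
      · rw [h2] at hx; exact absurd hx s2S
      · exfalso
        rw [h2] at hx
        obtain ⟨i, j, k1, k2, k3, k4, k5, k6, k7⟩ := h.str hx ⟨i6, by omega, b6⟩
          ⟨Y, by omega, F.SY⟩ (by omega) (by omega)
        unfold Six at k5 k6
        have : i = j6 ∧ j = X + v ∨ i = X + v ∧ j = j6 := by omega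
        rcases this with ⟨rfl, rfl⟩ | ⟨rfl, rfl⟩
        · have := F.pS _ k2
          omega
        · have := k4 Y F.SY
          omega
      · exact h2
      · omega
    have sZ1 : ∀ x, Adj g j6 x → x = j5 := by
      intro x hx
      have h1 := d5 x hx
      have h2 := su _ _ hx (by omega) (by omega) (by omega)
      rcases h2 with h2 | h2 | h2 | h2 | h2
      · exact h2
      · rw [h2] at hx
        have := F.pS _ hx
        omega
      · omega
      · omega
      · omega
    have nCC : ¬ Adj g j5 j5 := by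
      intro hx
      have h1 : ∀ x, Adj g j5 x → x ≤ j5 := by
        by_contra hc
        push Not at hc
        obtain ⟨x, hx1, hx2⟩ := hc
        exact s2C ⟨⟨j6, by omega, b5⟩, ⟨x, hx2, hx1⟩, hx⟩
      refine succ_closed hgb (F := {j5}) (B := j5) (by simp) ?_ j5 rfl b5.right
      intro x hx' y hy
      rw [Set.mem_singleton_iff] at hx' ⊢
      subst hx'
      have h2 := h1 y hy
      have h3 := su _ _ hy (by omega) (by omega) (by omega)
      rcases h3 with h3 | h3 | h3 | h3 | h3
      · exact h3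
      · rw [h3] at hy
        have := CS hy _ hx
        omega
      · omega
      · omega
      · omega
    have pC : ∀ x, Adj g x j5 → x = j6 := by
      intro x hx
      have h1 := c5 x hx
      have h2 := pr _ _ hx (by omega) (by omega) (by omega) (by omega)
      rcases h2 with h2 | h2 | h2 | h2 | h2 | h2
      · rw [h2] at hx; exact absurd hx nCC
      · rw [h2] at hx
        have := sS _ hx
        omega
      · rw [h2] at hx
        have := F.sB _ hx
        omega
      · exact h2
      · omega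
      · omega
    have nCZ : ¬ Adj g j5 j6 := by
      intro hx
      have h1 : ∀ x, Adj g j5 x → x ≤ j6 := by
        by_contra hc
        push Not at hc
        obtain ⟨x, hx1, hx2⟩ := hc
        refine hd5 j5 [] j6 ((strong_iff hgb).2 ⟨hx, ⟨i6, by omega, b6⟩, x, hx2, hx1⟩) ?_
        simp
      refine succ_closed hgb (F := {j5, j6}) (B := j6) ?_ ?_ j5 (by simp) b5.right
      · intro x hx
        simp only [Set.mem_insert_iff, Set.mem_singleton_iff] at hx
        omega
      · intro x hx' y hy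
        simp only [Set.mem_insert_iff, Set.mem_singleton_iff] at hx' ⊢
        rcases hx' with rfl | rfl
        · have h2 := h1 y hy
          have h3 := su _ _ hy (by omega) (by omega) (by omega)
          rcases h3 with h3 | h3 | h3 | h3 | h3
          · exact Or.inl h3
          · rw [h3] at hy
            have := CS hy _ hx
            omega
          · exact Or.inr h3
          · omega
          · omega
        · exact Or.inl (sZ1 y hy)
    have YZ : Adj g Y j6 → ∀ x, Adj g Y x → x = j6 := by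
      intro hx
      have h1 : ∀ x, Adj g Y x → x ≤ j6 := by
        by_contra hc
        push Not at hc
        obtain ⟨x, hx1, hx2⟩ := hc
        obtain ⟨i, j, k1, k2, k3, k4, k5, k6, k7⟩ := h.str hx ⟨i6, by omega, b6⟩
          ⟨x, hx2, hx1⟩ (by omega) (by omega)
        unfold Six at k5 k6
        have : i = Y ∧ j = j6 ∨ i = j6 ∧ j = Y := by omega
        rcases this with ⟨rfl, rfl⟩ | ⟨rfl, rfl⟩
        · have := k4 x hx1
          omega
        · have := hpY _ k2
          omega
      intro x hx'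
      have h2 := h1 x hx'
      have h3 := su _ _ hx' (by omega) (by omega) (by omega)
      rcases h3 with h3 | h3 | h3 | h3 | h3
      · rw [h3] at hx'
        have := pC _ hx'
        omega
      · rw [h3] at hx'
        have := hpS _ hx'
        omega
      · exact h3
      · omega
      · omega
    have pZ1 : ∀ x, Adj g x j6 → x = i6 ∨ x = Y := by
      intro x hx
      have h1 := c6 x hx
      have h2 := pr _ _ hx (by omega) (by omega) (by omega) (by omega)
      rcases h2 with h2 | h2 | h2 | h2 | h2 | h2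
      · rw [h2] at hx; exact absurd hx nCZ
      · rw [h2] at hx
        have := sS _ hx
        omega
      · rw [h2] at hx
        have := F.sB _ hx
        omega
      · rw [h2] at hx
        have := sZ1 _ hx
        omega
      · exact Or.inr h2
      · exact Or.inl h2
    have sZ2 : ∀ x, Adj g i6 x → x = j6 := by
      intro x hx
      have h1 := d6 x hx
      have h2 := su _ _ hx (by omega) (by omega) (by omega)
      rcases h2 with h2 | h2 | h2 | h2 | h2
      · rw [h2] at hx
        have := pC _ hx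
        omega
      · rw [h2] at hx
        have := hpS _ hx
        omega
      · exact h2
      · omega
      · omega
    exact ⟨rfl, honly, hc.pX, h.uXv, hzB.1, ⟨F.SY, sS, hpY⟩,
      Or.inr ⟨F.BS, F.sB, hpS, CS, ⟨b5, sZ1, pC⟩, b6, sZ2, pZ1, YZ⟩⟩

end Pool.Agent.CF2
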