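import Pool.Agent.CF2.GRe

/-!
# CF2: gadget stage, state R
-/

namespace Pool.Agent.CF2

/-- **Gadget stage, state R.** -/
theorem GR {g : ℕ → ℕ} {old : ℕ → ℕ → Prop} {p z v a sg Sa ν X C B Y Z1 Z2 hi : ℕ} {Q : Set ℕ}
    {d : ℕ → ℤ} (hgb : GB g) (hpos : ∀ t, 0 < g t) (hI : RI g old p z v a sg Sa Q)
    (hP : GP p z v ν X C B Y Z1 Z2) (hS : 7 * z ≤ Sa) (hhi : Z1 + Z2 < hi)
    (hsg : sg = p ∨ (2 * p ≤ sg + 2 ^ 24 ∧ sg ≤ 2 * p) ∨ 3 * p ≤ sg + 2 ^ 24)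
    (hd : DG d p z X C B Y Z1 Z2) (hl : RLE g old d z hi) :
    GRo g p z v X C B Y Z1 Z2 ∧ ¬ Adj g p a := by
  have c : RC g old p z v a sg Sa ν X C B Y Z1 Z2 hi Q d := ⟨hgb, hpos, hI, hP, hS, hhi, hsg, hd, hl⟩
  exact ⟨c.out, c.s2⟩

end Pool.Agent.CF2
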