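import Pool.Agent.CF2.If

/-!
# CF2: gadget stage, state R, part a: classification of words and the first steps
-/

namespace Pool.Agent.CF2

/-- Hypotheses of the gadget stage in state R. -/
structure RC (g : ℕ → ℕ) (old : ℕ → ℕ → Prop) (p z v a sg Sa ν X C B Y Z1 Z2 hi : ℕ) (Q : Set ℕ)
    (d : ℕ → ℤ) : Prop where
  hgb : GB g
  hpos : ∀ t, 0 < g t
  hI : RI g old p z v a sg Sa Q
  hP : GP p z v ν X C B Y Z1 Z2
  hS : 7 * z ≤ Sa
  hhi : Z1 + Z2 < hi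
  hsg : sg = p ∨ (2 * p ≤ sg + 2 ^ 24 ∧ sg ≤ 2 * p) ∨ 3 * p ≤ sg + 2 ^ 24
  hd : DG d p z X C B Y Z1 Z2
  hl : RLE g old d z hi

/-- The numbers, without the separation conditions. -/
structure NM (p z v ν X C B Y Z1 Z2 : ℕ) : Prop where
  z0 : z = p + 524288
  X0 : X = 2 * p + 4718592
  C0 : C = X + 2 * ν
  B1 : 10 * B ≤ 10 * X + 7 * p
  B2 : 10 * X + 7 * p ≤ 10 * B + 70
  Y0 : Y = B + ν
  Z10 : Z1 + 1 = Y
  Z20 : Z2 = Y + 524288
  v0 : 67108864 ≤ v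
  n0 : 67108864 ≤ ν
  v1 : 50 * v ≤ p
  n1 : 50 * ν ≤ p

theorem GP.nm {p z v ν X C B Y Z1 Z2 : ℕ} (h : GP p z v ν X C B Y Z1 Z2) :
    NM p z v ν X C B Y Z1 Z2 := by
  obtain ⟨hz, hX, hC, hB1, hB2, hY, hZ1, hZ2, hv, hn, hv', hn', -, -, -⟩ := h
  norm_num at hz hX hC hB1 hB2 hY hZ1 hZ2 hv hn hv' hn'
  exact ⟨hz, by omega, hC, hB1, hB2, hY, hZ1, hZ2, hv, hn, hv', hn'⟩

/-- Separation conditions in numerals. -/
theorem GP.sep {p z v ν X C B Y Z1 Z2 : ℕ} (h : GP p z v ν X C B Y Z1 Z2) :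
    (v = ν ∨ v + 16777216 ≤ ν ∨ ν + 16777216 ≤ v) ∧
    (v + 16777216 ≤ 2 * ν ∨ 2 * ν + 16777216 ≤ v) ∧
    (ν + 16777216 ≤ 2 * v ∨ 2 * v + 16777216 ≤ ν) := by
  obtain ⟨-, -, -, -, -, -, -, -, -, -, -, -, g1, g2, g3⟩ := h
  norm_num at g1 g2 g3
  exact ⟨g1, g2, g3⟩

/-- Weak or strong words of level `N`, not old. -/
def Wd (g : ℕ → ℕ) (old : ℕ → ℕ → Prop) (N i : ℕ) (σ : List ℕ) (j : ℕ) : Prop :=
  (Weak g i σ j ∨ Strong g i σ j) ∧ i + σ.sum + j = N ∧ ¬ (σ = [] ∧ old i j)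

theorem Op.wd {g : ℕ → ℕ} {old : ℕ → ℕ → Prop} {N i : ℕ} {σ : List ℕ} {j : ℕ}
    (h : Op g old N i σ j) : Wd g old N i σ j := ⟨Or.inl h.1, h.2.1, h.2.2⟩

/-- Kinds of words of level `N` when there is no value strictly between `z` and `M`. -/
inductive Cl (g : ℕ → ℕ) (p z v sg M N i : ℕ) (σ : List ℕ) (j : ℕ) : Prop
  | two : σ = [] → Adj g i j → (i = p ∨ i = v ∨ M ≤ i) → (j = z ∨ M ≤ j) → i + j = N →
      Cl g p z v sg M N i σ j
  | fa (x x' : ℕ) : (i = p ∨ i = v ∨ M ≤ i) → (j = z ∨ M ≤ j) → M ≤ x → M ≤ x' → Adj g i x →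
      (∃ y, i < y ∧ Adj g y x) → Adj g x' j → (∃ y, j < y ∧ Adj g x' y) →
      (σ = [x] ∧ x' = x ∧ i + x + j = N ∨ i + x + x' + j ≤ N) → Cl g p z v sg M N i σ j
  | fb0 : i = v → (∃ m, Adj g v m ∧ m < z) → (j = z ∨ M ≤ j) → v + sg + j = N → Adj g p j →
      (∃ y, j < y ∧ Adj g p y) → Cl g p z v sg M N i σ j
  | fb1 (x x' : ℕ) : i = v → (∃ m, Adj g v m ∧ m < z) → (j = z ∨ M ≤ j) → M ≤ x → M ≤ x' →
      Adj g p x → Adj g x' j → (∃ y, j < y ∧ Adj g x' y) →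
      (x' = x ∧ v + sg + x + j = N ∨ v + sg + x + x' + j ≤ N) → Cl g p z v sg M N i σ j

theorem Adj.l {g : ℕ → ℕ} {i j : ℕ} (h : Adj g i j) : i ∈ Set.range g := by
  obtain ⟨t, h1, -⟩ := h
  exact ⟨t, h1⟩

theorem Adj.r {g : ℕ → ℕ} {i j : ℕ} (h : Adj g i j) : j ∈ Set.range g := by
  obtain ⟨t, -, h1⟩ := h
  exact ⟨t + 1, h1⟩

theorem wmax {g : ℕ → ℕ} (hgb : GB g) {i j y : ℕ} (h : Weak g i [] j) (ha : Adj g i y) : y ≤ j :=
  ((weak_iff hgb).1 h).2.2 y ha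

theorem wpre {g : ℕ → ℕ} (hgb : GB g) {i j x : ℕ} (h : Weak g i [] j) (ha : Adj g x j) : x ≤ i :=
  ((weak_iff hgb).1 h).2.1 x ha

theorem wadj {g : ℕ → ℕ} (hgb : GB g) {i j : ℕ} (h : Weak g i [] j) : Adj g i j :=
  ((weak_iff hgb).1 h).1

theorem mkstrong {g : ℕ → ℕ} (hgb : GB g) {i j x y : ℕ} (h : Adj g i j) (hx : i < x)
    (hxj : Adj g x j) (hy : j < y) (hiy : Adj g i y) : Strong g i [] j :=
  (strong_iff hgb).2 ⟨h, ⟨x, hx, hxj⟩, ⟨y, hy, hiy⟩⟩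

theorem not_weak_strong {g : ℕ → ℕ} (hgb : GB g) {i j : ℕ} (h : Weak g i [] j)
    (hs : Strong g i [] j) : False := by
  obtain ⟨-, ⟨x, hx, hxj⟩, -⟩ := (strong_iff hgb).1 hs
  have := wpre hgb h hxj
  omega

section
variable {g : ℕ → ℕ} {old : ℕ → ℕ → Prop} {p z v a sg Sa ν X C B Y Z1 Z2 hi : ℕ} {Q : Set ℕ}
  {d : ℕ → ℤ}

theorem RC.succ_p (c : RC g old p z v a sg Sa ν X C B Y Z1 Z2 hi Q d) (hpa : ¬ Adj g p a) {j : ℕ}
    (h : Adj g p j) : z ≤ j := by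
  by_contra hj
  rcases c.hI.toj p j h (by omega) with h1 | h1 | h1
  · exact (c.hI.oldi _ _ h1).2.1 rfl
  · have := c.hI.vp
    omega
  · exact hpa (h1.2 ▸ h)

theorem RC.pred_old (c : RC g old p z v a sg Sa ν X C B Y Z1 Z2 hi Q d) {i j : ℕ}
    (h : Adj g i j) (hj : z ≤ j) (hi : i ≤ z) : i = p ∨ i = v := by
  rcases c.hI.fromi i j h hi with h1 | h1 | h1
  · exact Or.inl h1
  · exact Or.inr h1
  · have := c.hI.oldj _ _ h1
    omega

theorem RC.succ_big (c : RC g old p z v a sg Sa ν X C B Y Z1 Z2 hi Q d) {i j : ℕ}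
    (h : Adj g i j) (hi : z < i) : z ≤ j := by
  by_contra hj
  have h2 := c.hI.vp
  have h3 := c.hI.pz
  rcases c.hI.toj i j h (by omega) with h1 | h1 | h1
  · have := c.hI.oldi _ _ h1
    omega
  · omega
  · omega

theorem RC.two (c : RC g old p z v a sg Sa ν X C B Y Z1 Z2 hi Q d) {i j : ℕ}
    (h : Weak g i [] j ∨ Strong g i [] j) (ho : ¬ old i j) :
    Adj g i j ∧ (i = p ∨ i = v ∨ z < i) ∧ z ≤ j := by
  have hadj : Adj g i j := by
    rcases h with h | h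
    · exact wadj c.hgb h
    · exact ((strong_iff c.hgb).1 h).1
  refine ⟨hadj, ?_, ?_⟩
  · by_cases hi : i ≤ z
    · rcases c.hI.fromi i j hadj hi with h1 | h1 | h1
      · exact Or.inl h1
      · exact Or.inr (Or.inl h1)
      · exact absurd h1 ho
    · exact Or.inr (Or.inr (by omega))
  · by_contra hj
    rcases c.hI.toj i j hadj (by omega) with h1 | ⟨h1, h2⟩ | ⟨h1, h2⟩
    · exact ho h1
    · subst h1
      rcases h with h | h
      · exact c.hI.leakw j hadj (by omega) h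
      · obtain ⟨-, -, x, hx, hx2⟩ := (strong_iff c.hgb).1 h
        have := c.hI.leak1 j hadj (by omega) x hx2
        omega
    · subst h1 h2
      rcases h with h | h
      · exact c.hI.lpw hadj h
      · obtain ⟨-, -, x, hx, hx2⟩ := (strong_iff c.hgb).1 h
        have := c.hI.lp1 hadj x hx2
        omega

theorem RC.str_wd (c : RC g old p z v a sg Sa ν X C B Y Z1 Z2 hi Q d) {N i : ℕ} {σ : List ℕ}
    {j : ℕ} (h : Strong g i σ j) (hN : i + σ.sum + j = N) : Wd g old N i σ j := by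
  refine ⟨Or.inr h, hN, ?_⟩
  rintro ⟨rfl, h1⟩
  exact c.hI.olds _ _ h1 h

theorem RC.cl (c : RC g old p z v a sg Sa ν X C B Y Z1 Z2 hi Q d) {M N i : ℕ} {σ : List ℕ} {j : ℕ}
    (gap : ∀ y ∈ Set.range g, z < y → M ≤ y) (hN : N ≤ Z1 + Z2) (h : Wd g old N i σ j) :
    Cl g p z v sg M N i σ j := by
  obtain ⟨h1, h2, h3⟩ := h
  have nm := c.hP.nm
  have hS := c.hS
  by_cases hσ : σ = []
  · subst hσ
    obtain ⟨hadj, hi, hj⟩ := c.two h1 (fun ho => h3 ⟨rfl, ho⟩)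
    refine Cl.two rfl hadj ?_ ?_ (by simpa using h2)
    · rcases hi with hi | hi | hi
      · exact Or.inl hi
      · exact Or.inr (Or.inl hi)
      · exact Or.inr (Or.inr (gap i hadj.l hi))
    · rcases hj.eq_or_lt with hj | hj
      · exact Or.inl hj.symm
      · exact Or.inr (gap j hadj.r hj)
  · have hbi : Bi g i σ j := by
      rcases h1 with h1 | h1
      · exact h1.bi
      · exact h1.bi
    have hlev : i + σ.sum + j < p + Sa + v := by
      obtain ⟨hz, hX, hC, hB1, hB2, hY, hZ1, hZ2, hv, hn, hv', hn'⟩ := nm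
      omega
    have hjV : j ∈ Set.range g := by
      obtain ⟨t, -, ht⟩ := hbi.r1
      exact ⟨_, ht⟩
    rcases c.hI.forms1 i σ j hσ hbi hlev with hA | hB
    · obtain ⟨hA1, hA2, hA3⟩ := hA
      obtain ⟨x, τ, rfl⟩ := List.exists_cons_of_ne_nil hσ
      obtain ⟨hd1, hd2⟩ := hbi.head
      have hix : i = p ∨ i = v ∨ M ≤ i := by
        rcases hA2 with hi | hi | hi
        · exact Or.inl hi
        · exact Or.inr (Or.inl hi)
        · exact Or.inr (Or.inr (gap i hd1.l hi))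
      have hjx : j = z ∨ M ≤ j := by
        rcases hA3 with hj | hj
        · exact Or.inl hj
        · exact Or.inr (gap j hjV hj)
      have hx : M ≤ x := gap x hd1.r (hA1 x (by simp))
      by_cases hτ : τ = []
      · subst hτ
        obtain ⟨hl1, hl2⟩ := Bi.last (σ := []) (x := x) (by simpa using hbi)
        exact Cl.fa x x hix hjx hx hx hd1 hd2 hl1 hl2 (Or.inl ⟨rfl, rfl, by simpa using h2⟩)
      · obtain ⟨ρ, x', hρ⟩ : ∃ ρ x', τ = ρ ++ [x'] :=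
          ⟨τ.dropLast, τ.getLast hτ, (List.dropLast_append_getLast hτ).symm⟩
        obtain ⟨hl1, hl2⟩ := Bi.last (σ := x :: ρ) (x := x') (by simpa [hρ] using hbi)
        have hx' : M ≤ x' := gap x' hl1.l (hA1 x' (by simp [hρ]))
        refine Cl.fa x x' hix hjx hx hx' hd1 hd2 hl1 hl2 (Or.inr ?_)
        have h4 : (x :: τ).sum = x + (ρ.sum + x') := by simp [hρ]
        omega
    · obtain ⟨rfl, hm, hj, σ', hs1, hs2, hs3, hs4, hs5⟩ := hB
      have hjx : j = z ∨ M ≤ j := by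
        rcases hj with hj | hj
        · exact Or.inl hj
        · exact Or.inr (gap j hjV hj)
      by_cases hσ' : σ' = []
      · subst hσ'
        obtain ⟨h5, h6⟩ := hs3 rfl
        refine Cl.fb0 rfl hm hjx ?_ h5 h6
        simp only [List.sum_nil, Nat.add_zero] at hs2
        omega
      · obtain ⟨x, τ, rfl⟩ := List.exists_cons_of_ne_nil hσ'
        have hpx := hs4 x τ rfl
        have hx : M ≤ x := gap x hpx.r (hs1 x (by simp))
        by_cases hτ : τ = []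
        · subst hτ
          obtain ⟨hl1, hl2⟩ := hs5 x [] (by simp)
          refine Cl.fb1 x x rfl hm hjx hx hx hpx hl1 hl2 (Or.inl ⟨rfl, ?_⟩)
          simp only [List.sum_cons, List.sum_nil, Nat.add_zero] at hs2
          omega
        · obtain ⟨ρ, x', hρ⟩ : ∃ ρ x', τ = ρ ++ [x'] :=
            ⟨τ.dropLast, τ.getLast hτ, (List.dropLast_append_getLast hτ).symm⟩
          obtain ⟨hl1, hl2⟩ := hs5 x' (x :: ρ) (by simp [hρ])
          have hx' : M ≤ x' := gap x' hl1.l (hs1 x' (by simp [hρ]))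
          refine Cl.fb1 x x' rfl hm hjx hx hx' hpx hl1 hl2 (Or.inr ?_)
          have h4 : (x :: τ).sum = x + (ρ.sum + x') := by simp [hρ]
          omega

/-- A value that is not an up has an open word. -/
theorem RC.le (c : RC g old p z v a sg Sa ν X C B Y Z1 Z2 hi Q d) {N : ℕ} (hV : N ∈ Set.range g)
    (h1 : z < N) (h2 : N ≤ Z1 + Z2) (h3 : ¬ (N = X ∨ N = C ∨ N = B ∨ N = Z1 ∨ N = Y ∨ N = Z2)) :
    ∃ i σ j, Op g old N i σ j := by
  refine c.hl.val h1 (lt_of_le_of_lt h2 c.hhi) ?_ hV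
  by_cases h4 : N = p + X ∨ N = z + B ∨ N = X + Y ∨ N = B + C ∨ N = C + Z1 ∨ N = Z1 + Z2
  · rw [c.hd.dn N h4]
    decide
  · rw [c.hd.rest N h1 h2 h3 h4]

/-- A strong word at a level which is not an up has a partner. -/
theorem RC.st (c : RC g old p z v a sg Sa ν X C B Y Z1 Z2 hi Q d) {N i : ℕ} {σ : List ℕ} {j : ℕ}
    (hs : Strong g i σ j) (hN : i + σ.sum + j = N)
    (h1 : z < N) (h2 : N ≤ Z1 + Z2) (h3 : ¬ (N = X ∨ N = C ∨ N = B ∨ N = Z1 ∨ N = Y ∨ N = Z2)) :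
    ∃ i σ j, Op g old N i σ j := by
  refine c.hl.str c.hpos h1 (lt_of_le_of_lt h2 c.hhi) ?_ hs hN
  by_cases h4 : N = p + X ∨ N = z + B ∨ N = X + Y ∨ N = B + C ∨ N = C + Z1 ∨ N = Z1 + Z2
  · rw [c.hd.dn N h4]
    decide
  · rw [c.hd.rest N h1 h2 h3 h4]

/-- Step (1). -/
theorem RC.s1 (c : RC g old p z v a sg Sa ν X C B Y Z1 Z2 hi Q d) (h : Adj g v z) :
    (∀ m, Adj g v m → z ≤ m) ∧ ∃ j, z < j ∧ Adj g v j := by
  have h1 : ∀ m, Adj g v m → z ≤ m := by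
    intro m hm
    by_contra hc
    have := c.hI.leak1 m hm (by omega) z h
    omega
  refine ⟨h1, ?_⟩
  by_contra hc
  push Not at hc
  refine succ_closed c.hgb c.hI.Qle ?_ v c.hI.Qv c.hI.mv
  intro x hx y hy
  by_cases hxv : x = v
  · subst hxv
    have h2 := h1 y hy
    by_cases h3 : z < y
    · exact absurd hy (hc y h3)
    · rw [show y = z by omega]
      exact c.hI.Qz
  · exact c.hI.Qs x hx hxv y hy

theorem RC.nwvz (c : RC g old p z v a sg Sa ν X C B Y Z1 Z2 hi Q d) : ¬ Weak g v [] z := by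
  intro h
  obtain ⟨-, j, hj, hj2⟩ := c.s1 (wadj c.hgb h)
  have := wmax c.hgb h hj2
  omega

/-- Words below the first value above `z`. -/
theorem RC.bw (c : RC g old p z v a sg Sa ν X C B Y Z1 Z2 hi Q d) {N i : ℕ} {σ : List ℕ} {j : ℕ}
    (gap : ∀ y ∈ Set.range g, z < y → N ≤ y) (hN : N ≤ Z1 + Z2) (h : Wd g old N i σ j) :
    (σ = [] ∧ i = p ∧ j = z) ∨ (σ = [] ∧ i = v ∧ j = z) ∨
      (N = v + sg + z ∧ Adj g p z ∧ ∃ y, z < y ∧ Adj g p y) := by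
  have nm := c.hP.nm
  have hz := nm.z0
  have hv := nm.v0
  rcases c.cl gap hN h with ⟨h1, h2, h3, h4, h5⟩ | ⟨x, x', h1, h2, h3, h4, h5, h6, h7, h8, h9⟩ |
    ⟨h1, h2, h3, h4, h5, h6⟩ | ⟨x, x', h1, h2, h3, h4, h5, h6, h7, h8, h9⟩
  · subst h1
    have h6 : 0 < i := by obtain ⟨t, ht⟩ := h2.l; rw [← ht]; exact c.hpos t
    have hj : j = z := by
      rcases h4 with h4 | h4
      · exact h4
      · omega
    rcases h3 with h3 | h3 | h3
    · exact Or.inl ⟨rfl, h3, hj⟩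
    · exact Or.inr (Or.inl ⟨rfl, h3, hj⟩)
    · omega
  · have h10 : 0 < i := by obtain ⟨t, ht⟩ := h5.l; rw [← ht]; exact c.hpos t
    rcases h9 with ⟨-, -, h9⟩ | h9 <;> omega
  · have hj : j = z := by
      rcases h3 with h3 | h3
      · exact h3
      · omega
    subst hj
    exact Or.inr (Or.inr ⟨h4.symm, h5, h6⟩)
  · rcases h9 with ⟨-, h9⟩ | h9 <;> omega

end

end Pool.Agent.CF2
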