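import Pool.Agent.CF2.GRa

/-!
# CF2: gadget stage, state R, part b: steps (2) to (5)
-/

namespace Pool.Agent.CF2

section
variable {g : ℕ → ℕ} {old : ℕ → ℕ → Prop} {p z v a sg Sa ν X C B Y Z1 Z2 hi : ℕ} {Q : Set ℕ}
  {d : ℕ → ℤ}

/-- No value strictly between `z` and `M` if every word below `M` is excluded. -/
theorem RC.gap_of (c : RC g old p z v a sg Sa ν X C B Y Z1 Z2 hi Q d) {M : ℕ} (hM : M ≤ X)
    (h1 : ∀ N, z < N → N < M → ¬ (N = p + z ∧ Weak g p [] z))
    (h2 : ∀ N, z < N → N < M → ¬ (N = v + sg + z ∧ Adj g p z ∧ ∃ y, z < y ∧ Adj g p y)) :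
    ∀ y ∈ Set.range g, z < y → M ≤ y := by
  have nm := c.hP.nm
  obtain ⟨hz, hX, hC, hB1, hB2, hY, hZ1, hZ2, hv, hn, hv', hn'⟩ := nm
  intro y
  induction y using Nat.strong_induction_on with
  | _ y ih =>
    intro hy hzy
    by_contra hyM
    obtain ⟨i, σ, j, ho⟩ := c.le hy hzy (by omega) (by omega)
    have gap : ∀ y' ∈ Set.range g, z < y' → y ≤ y' := by
      intro y' hy' hzy'
      by_contra hc
      have := ih y' (by omega) hy' hzy'
      omega
    rcases c.bw gap (by omega) ho.wd with ⟨h3, h4, h5⟩ | ⟨h3, h4, h5⟩ | h3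
    · subst h3 h4 h5
      have h6 := ho.2.1
      simp only [List.sum_nil] at h6
      exact h1 y hzy (by omega) ⟨by omega, ho.1⟩
    · subst h3 h4 h5
      exact c.nwvz ho.1
    · exact h2 y hzy (by omega) h3

/-- The first down is impossible if `p` has no successor above `z`. -/
theorem RC.d1 (c : RC g old p z v a sg Sa ν X C B Y Z1 Z2 hi Q d) {M : ℕ} (hM : p + z ≤ M)
    (gap : ∀ y ∈ Set.range g, z < y → M ≤ y) (hp : ∀ x, Adj g p x → x ≤ z)
    (hz' : ∀ i, Adj g i z → z < i → X ≤ i) : False := by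
  have nm := c.hP.nm
  obtain ⟨hz, hX, hC, hB1, hB2, hY, hZ1, hZ2, hv, hn, hv', hn'⟩ := nm
  obtain ⟨i, σ, j, ho⟩ := c.hl.down (N := p + X) (by omega) (by have := c.hhi; omega)
    (by rw [c.hd.dn (p + X) (Or.inl rfl)]; decide)
  have hcl := c.cl gap (by omega) ho.wd
  have key : σ = [] ∧ i = v ∧ v + j = p + X := by
    rcases hcl with ⟨h1, h2, h3, h4, h5⟩ | ⟨x, x', h1, h2, h3, h4, h5, h6, h7, h8, h9⟩ |
      ⟨h1, h2, h3, h4, h5, h6⟩ | ⟨x, x', h1, h2, h3, h4, h5, h6, h7, h8, h9⟩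
    · rcases h3 with h3 | h3 | h3
      · subst h3
        have := hp j h2
        omega
      · exact ⟨h1, h3, by omega⟩
      · exfalso
        rcases h4 with h4 | h4
        · subst h4
          have := hz' i h2 (by omega)
          omega
        · omega
    · exfalso
      rcases h9 with ⟨-, -, h9⟩ | h9 <;> omega
    · obtain ⟨y, hy1, hy2⟩ := h6
      have := hp y hy2
      omega
    · have := hp x h6
      omega
  obtain ⟨rfl, rfl, hj⟩ := key
  have hvj := wadj c.hgb ho.1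
  obtain ⟨i', σ', j', ho'⟩ := c.le hvj.r (by omega) (by omega) (by omega)
  rcases c.cl gap (by omega) ho'.wd with ⟨h1, h2, h3, h4, h5⟩ |
    ⟨x, x', h1, h2, h3, h4, h5, h6, h7, h8, h9⟩ |
    ⟨h1, h2, h3, h4, h5, h6⟩ | ⟨x, x', h1, h2, h3, h4, h5, h6, h7, h8, h9⟩
  · rcases h3 with h3 | h3 | h3
    · subst h3
      have := hp j' h2
      omega
    · subst h1 h3
      have := wmax c.hgb ho'.1 hvj
      omega
    · rcases h4 with h4 | h4
      · subst h4
        have := hz' i' h2 (by omega)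
        omega
      · omega
  · rcases h9 with ⟨-, -, h9⟩ | h9 <;> omega
  · obtain ⟨y, hy1, hy2⟩ := h6
    have := hp y hy2
    omega
  · have := hp x h6
    omega

/-- Step (2). -/
theorem RC.s2 (c : RC g old p z v a sg Sa ν X C B Y Z1 Z2 hi Q d) : ¬ Adj g p a := by
  intro hpa
  have nm := c.hP.nm
  obtain ⟨hz, hX, hC, hB1, hB2, hY, hZ1, hZ2, hv, hn, hv', hn'⟩ := nm
  have h1 := c.hI.lp1 hpa
  have haz := c.hI.az
  have hpz : ¬ Adj g p z := fun h => by
    have := h1 z h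
    omega
  have gap := c.gap_of (M := X) le_rfl (fun N _ _ h => hpz (wadj c.hgb h.2))
    (fun N _ _ h => hpz h.2.1)
  exact c.d1 (by omega) gap (fun x hx => by rw [h1 x hx]; omega)
    (fun i hi hzi => gap i hi.l hzi)

/-- Step (3). -/
theorem RC.s3 (c : RC g old p z v a sg Sa ν X C B Y Z1 Z2 hi Q d) : ¬ Adj g v z := by
  intro hvz
  have nm := c.hP.nm
  obtain ⟨hz, hX, hC, hB1, hB2, hY, hZ1, hZ2, hv, hn, hv', hn'⟩ := nm
  obtain ⟨hnl, j, hj, hvj⟩ := c.s1 hvz
  have hpa := c.s2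
  by_cases hA : ∃ i, v < i ∧ Adj g i z
  · obtain ⟨i, hvi, hiz⟩ := hA
    have hs := mkstrong c.hgb hvz hvi hiz hj hvj
    obtain ⟨i', σ', j', ho⟩ := c.st hs (N := v + z) (by simp) (by omega) (by omega) (by omega)
    have gap : ∀ y ∈ Set.range g, z < y → z + 1 ≤ y := fun y _ h => h
    rcases c.cl gap (by omega) ho.wd with ⟨h1, h2, h3, h4, h5⟩ |
      ⟨x, x', h1, h2, h3, h4, h5, h6, h7, h8, h9⟩ |
      ⟨h1, h2, h3, h4, h5, h6⟩ | ⟨x, x', h1, h2, h3, h4, h5, h6, h7, h8, h9⟩
    · subst h1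
      rcases h3 with h3 | h3 | h3
      · omega
      · subst h3
        have h6 : j' = z := by omega
        subst h6
        exact c.nwvz ho.1
      · omega
    · rcases h9 with ⟨-, -, h9⟩ | h9 <;> omega
    · obtain ⟨m, hm, hmz⟩ := h2
      have := hnl m hm
      omega
    · obtain ⟨m, hm, hmz⟩ := h2
      have := hnl m hm
      omega
  · push Not at hA
    refine pred_closed c.hI.Qg ?_ z c.hI.Qz c.hI.mz
    intro x hx y hy
    by_cases hxz : x = z
    · subst hxz
      have h1 : y ≤ v := by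
        by_contra hc
        exact hA y (by omega) hy
      rcases c.pred_old hy le_rfl (by omega) with h2 | h2
      · omega
      · rw [h2]
        exact c.hI.Qv
    · rcases c.hI.Qp x hx hxz y hy with h1 | ⟨h1, h2⟩
      · exact h1
      · subst h1 h2
        exact absurd hy hpa

/-- Step (4). -/
theorem RC.s4 (c : RC g old p z v a sg Sa ν X C B Y Z1 Z2 hi Q d) : ¬ Adj g p z := by
  intro hpz
  have nm := c.hP.nm
  obtain ⟨hz, hX, hC, hB1, hB2, hY, hZ1, hZ2, hv, hn, hv', hn'⟩ := nm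
  have hpsg := c.hI.psg
  have hpa := c.s2
  have hvz := c.s3
  have gap0 := c.gap_of (M := p + z) (by omega) (fun N h1 h2 h => by omega)
    (fun N h1 h2 h => by omega)
  have gapX : ¬ Weak g p [] z → ∀ y ∈ Set.range g, z < y → X ≤ y := fun hw =>
    c.gap_of (M := X) le_rfl (fun N _ _ h => hw h.2) (fun N _ h2 h => by omega)
  by_cases hbig : ∃ j, z < j ∧ Adj g p j
  · obtain ⟨j₀, hj₀, hpj₀⟩ := hbig
    have hw : ¬ Weak g p [] z := fun h => by
      have := wmax c.hgb h hpj₀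
      omega
    have gap := gapX hw
    have hpz' : ∀ i, Adj g i z → i = p := by
      intro i hi
      by_cases hip : p < i
      · exfalso
        have hs := mkstrong c.hgb hpz hip hi hj₀ hpj₀
        obtain ⟨i', σ', j', ho⟩ := c.st hs (N := p + z) (by simp) (by omega) (by omega) (by omega)
        rcases c.bw (fun y hy hzy => gap0 y hy hzy) (by omega) ho.wd with
          ⟨h3, h4, h5⟩ | ⟨h3, h4, h5⟩ | h3
        · subst h3 h4 h5
          exact hw ho.1
        · subst h3 h4 h5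
          exact c.nwvz ho.1
        · omega
      · rcases c.pred_old hi le_rfl (by omega) with h | h
        · exact h
        · subst h
          exact absurd hi hvz
    have hleak : ∃ m, Adj g v m ∧ m < z := by
      by_contra hc
      push Not at hc
      obtain ⟨s, hs1, hs2⟩ := hpz
      obtain ⟨t, ht1, ht2⟩ := hpj₀
      have := c.hI.once hc s t hs1 ht1
      subst this
      omega
    obtain ⟨m, hm, hmz⟩ := hleak
    have hsv := c.hI.leak1 m hm hmz
    have hsg := c.hsg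
    norm_num at hsg
    -- no word at the relevant levels below `p + X`
    have hno : ∀ N, N = B + 524288 ∨ (sg = p ∧ N + v = B + 524288) → N ∈ Set.range g → False := by
      intro N hN hNV
      obtain ⟨i', σ', j', ho⟩ := c.le hNV (by omega) (by omega) (by omega)
      rcases c.cl gap (by omega) ho.wd with ⟨h1, h2, h3, h4, h5⟩ |
        ⟨x, x', h1, h2, h3, h4, h5, h6, h7, h8, h9⟩ |
        ⟨h1, h2, h3, h4, h5, h6⟩ | ⟨x, x', h1, h2, h3, h4, h5, h6, h7, h8, h9⟩
      · rcases h3 with h3 | h3 | h3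
        · omega
        · subst h3
          have := hsv j' h2
          omega
        · rcases h4 with h4 | h4
          · subst h4
            have := hpz' i' h2
            omega
          · omega
      · rcases h1 with h1 | h1 | h1
        · rcases h9 with ⟨-, -, h9⟩ | h9 <;> omega
        · subst h1
          have := hsv x h5
          omega
        · rcases h9 with ⟨-, -, h9⟩ | h9 <;> omega
      · omega
      · rcases h9 with ⟨-, h9⟩ | h9 <;> omega
    obtain ⟨i, σ, j, ho⟩ := c.hl.down (N := z + B) (by omega) (by have := c.hhi; omega)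
      (by rw [c.hd.dn (z + B) (Or.inr (Or.inl rfl))]; decide)
    rcases c.cl gap (by omega) ho.wd with ⟨h1, h2, h3, h4, h5⟩ |
      ⟨x, x', h1, h2, h3, h4, h5, h6, h7, h8, h9⟩ |
      ⟨h1, h2, h3, h4, h5, h6⟩ | ⟨x, x', h1, h2, h3, h4, h5, h6, h7, h8, h9⟩
    · rcases h3 with h3 | h3 | h3
      · exact hno j (Or.inl (by omega)) h2.r
      · subst h3
        have := hsv j h2
        omega
      · rcases h4 with h4 | h4
        · subst h4
          have := hpz' i h2
          omega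
        · omega
    · rcases h1 with h1 | h1 | h1
      · rcases h2 with h2 | h2
        · subst h2
          have := hpz' x' h7
          omega
        · rcases h9 with ⟨-, -, h9⟩ | h9 <;> omega
      · subst h1
        have := hsv x h5
        omega
      · rcases h9 with ⟨-, -, h9⟩ | h9 <;> omega
    · rcases h3 with h3 | h3
      · omega
      · rcases hsg with h7 | h7 | h7
        · exact hno j (Or.inr ⟨h7, by omega⟩) h5.r
        · omega
        · omega
    · rcases h9 with ⟨-, h9⟩ | h9 <;> omega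
  · push Not at hbig
    have hp : ∀ x, Adj g p x → x ≤ z := by
      intro x hx
      by_contra hc
      exact hbig x (by omega) hx
    by_cases hw : Weak g p [] z
    · refine c.d1 le_rfl gap0 hp ?_
      intro i hi hzi
      have := wpre c.hgb hw hi
      omega
    · have gap := gapX hw
      exact c.d1 (by omega) gap hp (fun i hi hzi => gap i hi.l hzi)

/-- Step (5): the gap. -/
theorem RC.gap (c : RC g old p z v a sg Sa ν X C B Y Z1 Z2 hi Q d) :
    ∀ y ∈ Set.range g, z < y → X ≤ y :=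
  c.gap_of (M := X) le_rfl (fun _ _ _ h => c.s4 (wadj c.hgb h.2)) (fun _ _ _ h => c.s4 h.2.1)

theorem RC.pz (c : RC g old p z v a sg Sa ν X C B Y Z1 Z2 hi Q d) {i : ℕ} (h : Adj g i z) :
    X ≤ i := by
  by_cases hi : i ≤ z
  · rcases c.pred_old h le_rfl hi with h1 | h1
    · subst h1
      exact absurd h c.s4
    · subst h1
      exact absurd h c.s3
  · exact c.gap i h.l (by omega)

theorem RC.sp (c : RC g old p z v a sg Sa ν X C B Y Z1 Z2 hi Q d) {j : ℕ} (h : Adj g p j) :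
    X ≤ j := by
  have h1 := c.succ_p c.s2 h
  rcases h1.eq_or_lt with h2 | h2
  · subst h2
    exact absurd h c.s4
  · exact c.gap j h.r h2

/-- Successors of `v` that are not leaks. -/
theorem RC.sv (c : RC g old p z v a sg Sa ν X C B Y Z1 Z2 hi Q d) {j : ℕ} (h : Adj g v j)
    (hj : z ≤ j) : X ≤ j := by
  rcases hj.eq_or_lt with h2 | h2
  · subst h2
    exact absurd h c.s3
  · exact c.gap j h.r h2

/-- Words below `p + X`. -/
theorem RC.L5 (c : RC g old p z v a sg Sa ν X C B Y Z1 Z2 hi Q d) {N i : ℕ} {σ : List ℕ} {j : ℕ}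
    (hN : N < p + X) (h : Wd g old N i σ j) : σ = [] ∧ v = i ∧ X ≤ j ∧ v + j = N := by
  have nm := c.hP.nm
  have hpsg := c.hI.psg
  obtain ⟨hz, hX, hC, hB1, hB2, hY, hZ1, hZ2, hv, hn, hv', hn'⟩ := nm
  rcases c.cl c.gap (by omega) h with ⟨h1, h2, h3, h4, h5⟩ |
    ⟨x, x', h1, h2, h3, h4, h5, h6, h7, h8, h9⟩ |
    ⟨h1, h2, h3, h4, h5, h6⟩ | ⟨x, x', h1, h2, h3, h4, h5, h6, h7, h8, h9⟩
  · rcases h3 with h3 | h3 | h3
    · subst h3
      have := c.sp h2
      omega
    · subst h3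
      have := c.sv h2 (by omega)
      exact ⟨h1, rfl, this, h5⟩
    · omega
  · rcases h9 with ⟨-, -, h9⟩ | h9 <;> omega
  · have := c.sp h5
    omega
  · rcases h9 with ⟨-, h9⟩ | h9 <;> omega

theorem RC.mX (c : RC g old p z v a sg Sa ν X C B Y Z1 Z2 hi Q d) : X ∈ Set.range g := by
  have nm := c.hP.nm
  obtain ⟨hz, hX, hC, hB1, hB2, hY, hZ1, hZ2, hv, hn, hv', hn'⟩ := nm
  rcases c.hl.up c.hpos (N := X) (by omega) (by have := c.hhi; omega) (c.hd.up X (Or.inl rfl))
    (fun i σ j ho => by have := c.L5 (by omega) ho.wd; omega) with ⟨h1, -⟩ | ⟨-, i, σ, j, h1, h2⟩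
  · exact h1
  · have := c.L5 (by omega) (c.str_wd h1 h2)
    omega

/-- Values between `X` and `p + X` that are not ups. -/
theorem RC.bl (c : RC g old p z v a sg Sa ν X C B Y Z1 Z2 hi Q d) {y : ℕ} (hy : y ∈ Set.range g)
    (h1 : X ≤ y) (h2 : y < p + X) :
    (y = X ∨ y = C ∨ y = B ∨ y = Z1 ∨ y = Y ∨ y = Z2) ∨
      ∃ u, (u = X ∨ u = C ∨ u = B ∨ u = Z1 ∨ u = Y ∨ u = Z2) ∧ y = v + u ∧ Weak g v [] u := by
  have nm := c.hP.nm
  obtain ⟨hz, hX, hC, hB1, hB2, hY, hZ1, hZ2, hv, hn, hv', hn'⟩ := nm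
  by_cases h3 : y = X ∨ y = C ∨ y = B ∨ y = Z1 ∨ y = Y ∨ y = Z2
  · exact Or.inl h3
  right
  obtain ⟨i, σ, u, ho⟩ := c.le hy (by omega) (by omega) h3
  obtain ⟨rfl, rfl, h4, h5⟩ := c.L5 h2 ho.wd
  refine ⟨u, ?_, h5.symm, ho.1⟩
  by_contra h6
  have hvu := wadj c.hgb ho.1
  obtain ⟨i', σ', u', ho'⟩ := c.le hvu.r (by omega) (by omega) h6
  obtain ⟨rfl, rfl, h7, h8⟩ := c.L5 (by omega) ho'.wd
  have := wmax c.hgb ho'.1 hvu
  omega

/-- The ups. -/
theorem RC.upv (c : RC g old p z v a sg Sa ν X C B Y Z1 Z2 hi Q d) {U : ℕ}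
    (hU : U = C ∨ U = B ∨ U = Z1 ∨ U = Y ∨ U = Z2) :
    U ∈ Set.range g ∨ (U = Y ∧ v = ν ∧ Strong g v [] B) := by
  have nm := c.hP.nm
  obtain ⟨hz, hX, hC, hB1, hB2, hY, hZ1, hZ2, hv, hn, hv', hn'⟩ := nm
  obtain ⟨g1, g2, g3⟩ := c.hP.sep
  have hd1 : d U = 1 := c.hd.up U (by tauto)
  have hno : ∀ i σ j, ¬ Op g old U i σ j := by
    intro i σ j ho
    obtain ⟨i', σ', j', hs, hs2⟩ := c.hl.up_weak c.hpos (N := U) (by omega)
      (by have := c.hhi; omega) hd1 ho
    obtain ⟨rfl, rfl, h4, h5⟩ := c.L5 (by omega) ho.wd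
    obtain ⟨rfl, rfl, h6, h7⟩ := c.L5 (by omega) (c.str_wd hs hs2)
    have : j' = j := by omega
    subst this
    exact not_weak_strong c.hgb ho.1 hs
  rcases c.hl.up c.hpos (N := U) (by omega) (by have := c.hhi; omega) hd1 hno with
    ⟨h1, -⟩ | ⟨-, i, σ, u, h1, h2⟩
  · exact Or.inl h1
  · obtain ⟨rfl, rfl, h4, h5⟩ := c.L5 (by omega) (c.str_wd h1 h2)
    have hvu := ((strong_iff c.hgb).1 h1).1
    have hu : u = X ∨ u = C ∨ u = B ∨ u = Z1 ∨ u = Y ∨ u = Z2 := by
      rcases c.bl hvu.r h4 (by omega) with h6 | ⟨u', h6, h7, h8⟩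
      · exact h6
      · have := wmax c.hgb h8 hvu
        omega
    right
    have h6 : U = Y ∧ v = ν ∧ u = B := by omega
    obtain ⟨h7, h8, h9⟩ := h6
    subst h9
    exact ⟨h7, h8, h1⟩

end

end Pool.Agent.CF2
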