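import Pool.Agent.CF2.GRb

/-!
# CF2: gadget stage, state R, part c: steps (6) to (8)
-/

namespace Pool.Agent.CF2

/-- Kinds of words of level at most `C + Z1` after the first down. -/
inductive K7 (g : ℕ → ℕ) (p z v sg X N i : ℕ) (σ : List ℕ) (j : ℕ) : Prop
  | px : σ = [] → p = i → X = j → p + X = N → K7 g p z v sg X N i σ j
  | vy : σ = [] → v = i → Adj g v j → X ≤ j → v + j = N → K7 g p z v sg X N i σ j
  | iz : σ = [] → X ≤ i → Adj g i z → z = j → i + z = N → K7 g p z v sg X N i σ j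
  | ij : σ = [] → X ≤ i → X < j → Adj g i j → i + j = N → K7 g p z v sg X N i σ j
  | vx (x : ℕ) : σ = [x] → v = i → X ≤ x → Adj g v x → Adj g x j →
      (∃ y, j < y ∧ Adj g x y) → (z = j ∨ X < j) → v + x + j = N → K7 g p z v sg X N i σ j
  | fb : z = j → v = i → Adj g X z → (∃ y, z < y ∧ Adj g X y) → v + sg + X + z = N →
      K7 g p z v sg X N i σ j

section
variable {g : ℕ → ℕ} {old : ℕ → ℕ → Prop} {p z v a sg Sa ν X C B Y Z1 Z2 hi : ℕ} {Q : Set ℕ}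
  {d : ℕ → ℤ}

/-- Step (6): the first down. -/
theorem RC.d1op (c : RC g old p z v a sg Sa ν X C B Y Z1 Z2 hi Q d) {i : ℕ} {σ : List ℕ} {j : ℕ}
    (ho : Op g old (p + X) i σ j) : (i, σ, j) = (p, [], X) := by
  have nm := c.hP.nm
  have hpsg := c.hI.psg
  obtain ⟨hz, hX, hC, hB1, hB2, hY, hZ1, hZ2, hv, hn, hv', hn'⟩ := nm
  rcases c.cl c.gap (by omega) ho.wd with ⟨h1, h2, h3, h4, h5⟩ |
    ⟨x, x', h1, h2, h3, h4, h5, h6, h7, h8, h9⟩ |
    ⟨h1, h2, h3, h4, h5, h6⟩ | ⟨x, x', h1, h2, h3, h4, h5, h6, h7, h8, h9⟩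
  · rcases h3 with h3 | h3 | h3
    · subst h1 h3
      have : j = X := by omega
      subst this
      rfl
    · exfalso
      subst h3
      have h6 := c.sv h2 (by omega)
      obtain ⟨i', σ', j', ho'⟩ := c.le h2.r (by omega) (by omega) (by omega)
      obtain ⟨rfl, rfl, h7, h8⟩ := c.L5 (by omega) ho'.wd
      have := wmax c.hgb ho'.1 h2
      omega
    · omega
  · rcases h9 with ⟨-, -, h9⟩ | h9 <;> omega
  · have := c.sp h5
    omega
  · rcases h9 with ⟨-, h9⟩ | h9 <;> omega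

theorem RC.wpX (c : RC g old p z v a sg Sa ν X C B Y Z1 Z2 hi Q d) : Weak g p [] X := by
  have nm := c.hP.nm
  obtain ⟨hz, hX, hC, hB1, hB2, hY, hZ1, hZ2, hv, hn, hv', hn'⟩ := nm
  obtain ⟨i, σ, j, ho⟩ := c.hl.down (N := p + X) (by omega) (by have := c.hhi; omega)
    (by rw [c.hd.dn (p + X) (Or.inl rfl)]; decide)
  have h := c.d1op ho
  simp only [Prod.mk.injEq] at h
  obtain ⟨rfl, rfl, rfl⟩ := h
  exact ho.1

theorem RC.D1 (c : RC g old p z v a sg Sa ν X C B Y Z1 Z2 hi Q d) : p + X ∉ Set.range g := by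
  have nm := c.hP.nm
  obtain ⟨hz, hX, hC, hB1, hB2, hY, hZ1, hZ2, hv, hn, hv', hn'⟩ := nm
  exact (c.hl.down_only c.hpos (N := p + X) (by omega) (by have := c.hhi; omega)
    (c.hd.dn (p + X) (Or.inl rfl)) (fun i σ j ho => c.d1op ho)).1

theorem RC.p1 (c : RC g old p z v a sg Sa ν X C B Y Z1 Z2 hi Q d) : Adj g p X :=
  wadj c.hgb c.wpX

theorem RC.p2 (c : RC g old p z v a sg Sa ν X C B Y Z1 Z2 hi Q d) {x : ℕ} (h : Adj g p x) :
    x = X := le_antisymm (wmax c.hgb c.wpX h) (c.sp h)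

theorem RC.p3 (c : RC g old p z v a sg Sa ν X C B Y Z1 Z2 hi Q d) {x : ℕ} (h : Adj g x X) :
    x = p ∨ x = v := by
  have nm := c.hP.nm
  have h1 := wpre c.hgb c.wpX h
  have h2 := nm.z0
  have h3 := nm.X0
  exact c.pred_old h (by omega) (by omega)

/-- `v → X` makes `v` single. -/
theorem RC.lkX (c : RC g old p z v a sg Sa ν X C B Y Z1 Z2 hi Q d) (h : Adj g v X) {x : ℕ}
    (hx : Adj g v x) : x = X := by
  have nm := c.hP.nm
  obtain ⟨hz, hX, hC, hB1, hB2, hY, hZ1, hZ2, hv, hn, hv', hn'⟩ := nm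
  obtain ⟨g1, g2, g3⟩ := c.hP.sep
  have hxz : z ≤ x := by
    by_contra hc
    have := c.hI.leak1 x hx (by omega) X h
    omega
  have h1 := c.sv hx hxz
  by_contra hne
  have hs := mkstrong c.hgb h (x := p) (by omega) c.p1 (y := x) (by omega) hx
  obtain ⟨i', σ', j', ho⟩ := c.st hs (N := v + X) (by simp) (by omega) (by omega) (by omega)
  obtain ⟨rfl, rfl, h7, h8⟩ := c.L5 (by omega) ho.wd
  have h9 : j' = X := by omega
  subst h9
  exact not_weak_strong c.hgb ho.1 hs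

theorem RC.nwX (c : RC g old p z v a sg Sa ν X C B Y Z1 Z2 hi Q d) : ¬ Weak g v [] X := by
  intro h
  have := wpre c.hgb h c.p1
  have := c.hI.vp
  omega

/-- Values below `B`. -/
theorem RC.val1 (c : RC g old p z v a sg Sa ν X C B Y Z1 Z2 hi Q d) {y : ℕ}
    (hy : y ∈ Set.range g) (h1 : X ≤ y) (h2 : y < B) :
    y = X ∨ y = C ∨ (y = v + C ∧ Weak g v [] C) := by
  have nm := c.hP.nm
  obtain ⟨hz, hX, hC, hB1, hB2, hY, hZ1, hZ2, hv, hn, hv', hn'⟩ := nm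
  rcases c.bl hy h1 (by omega) with h3 | ⟨u, h3, h4, h5⟩
  · omega
  · rcases h3 with h3 | h3 | h3
    · subst h3
      exact absurd h5 c.nwX
    · subst h3
      exact Or.inr (Or.inr ⟨h4, h5⟩)
    · omega

/-- Values from `B` to `p + X`. -/
theorem RC.val2 (c : RC g old p z v a sg Sa ν X C B Y Z1 Z2 hi Q d) {y : ℕ}
    (hy : y ∈ Set.range g) (h1 : B ≤ y) (h2 : y < p + X) :
    y = B ∨ y = Z1 ∨ y = Y ∨ y = Z2 ∨ (y = v + B ∧ Weak g v [] B) ∨
      (y = v + Z1 ∧ Weak g v [] Z1) ∨ (y = v + Y ∧ Weak g v [] Y) ∨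
      (y = v + Z2 ∧ Weak g v [] Z2) := by
  have nm := c.hP.nm
  obtain ⟨hz, hX, hC, hB1, hB2, hY, hZ1, hZ2, hv, hn, hv', hn'⟩ := nm
  rcases c.bl hy (by omega) h2 with h3 | ⟨u, h3, h4, h5⟩
  · omega
  · rcases h3 with h3 | h3 | h3 | h3 | h3 | h3
    · omega
    · omega
    · subst h3
      exact Or.inr (Or.inr (Or.inr (Or.inr (Or.inl ⟨h4, h5⟩))))
    · subst h3
      exact Or.inr (Or.inr (Or.inr (Or.inr (Or.inr (Or.inl ⟨h4, h5⟩)))))
    · subst h3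
      exact Or.inr (Or.inr (Or.inr (Or.inr (Or.inr (Or.inr (Or.inl ⟨h4, h5⟩))))))
    · subst h3
      exact Or.inr (Or.inr (Or.inr (Or.inr (Or.inr (Or.inr (Or.inr ⟨h4, h5⟩))))))

/-- Values if `v` has a large successor. -/
theorem RC.val3 (c : RC g old p z v a sg Sa ν X C B Y Z1 Z2 hi Q d) {w y : ℕ} (hw : Adj g v w)
    (hw2 : Z2 < w) (hy : y ∈ Set.range g) (h1 : X ≤ y) (h2 : y < p + X) :
    y = X ∨ y = C ∨ y = B ∨ y = Z1 ∨ y = Y ∨ y = Z2 := by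
  have nm := c.hP.nm
  obtain ⟨hz, hX, hC, hB1, hB2, hY, hZ1, hZ2, hv, hn, hv', hn'⟩ := nm
  rcases c.bl hy h1 h2 with h3 | ⟨u, h3, h4, h5⟩
  · exact h3
  · have := wmax c.hgb h5 hw
    omega

/-- Values if `v → X`. -/
theorem RC.val4 (c : RC g old p z v a sg Sa ν X C B Y Z1 Z2 hi Q d) {y : ℕ} (hw : Adj g v X)
    (hy : y ∈ Set.range g) (h1 : X ≤ y) (h2 : y < p + X) :
    y = X ∨ y = C ∨ y = B ∨ y = Z1 ∨ y = Y ∨ y = Z2 := by
  rcases c.bl hy h1 h2 with h3 | ⟨u, h3, h4, h5⟩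
  · exact h3
  · have h6 := c.lkX hw (wadj c.hgb h5)
    subst h6
    exact absurd h5 c.nwX

theorem RC.L7 (c : RC g old p z v a sg Sa ν X C B Y Z1 Z2 hi Q d) {N i : ℕ} {σ : List ℕ} {j : ℕ}
    (hN : N ≤ C + Z1) (h : Wd g old N i σ j) : K7 g p z v sg X N i σ j := by
  have nm := c.hP.nm
  have hpsg := c.hI.psg
  obtain ⟨hz, hX, hC, hB1, hB2, hY, hZ1, hZ2, hv, hn, hv', hn'⟩ := nm
  have hnX : ∀ i, X ≤ i → ¬ Adj g i X := by
    intro i hi h
    rcases c.p3 h with h1 | h1 <;> omega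
  rcases c.cl c.gap (by omega) h with ⟨h1, h2, h3, h4, h5⟩ |
    ⟨x, x', h1, h2, h3, h4, h5, h6, h7, h8, h9⟩ |
    ⟨h1, h2, h3, h4, h5, h6⟩ | ⟨x, x', h1, h2, h3, h4, h5, h6, h7, h8, h9⟩
  · rcases h3 with h3 | h3 | h3
    · subst h3
      have h6 := c.p2 h2
      exact K7.px h1 rfl h6.symm (by omega)
    · subst h3
      have h6 := c.sv h2 (by omega)
      exact K7.vy h1 rfl h2 h6 h5
    · rcases h4 with h4 | h4
      · subst h4
        exact K7.iz h1 h3 h2 rfl h5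
      · refine K7.ij h1 h3 (lt_of_le_of_ne h4 ?_) h2 h5
        rintro rfl
        exact hnX i h3 h2
  · rcases h1 with h1 | h1 | h1
    · exfalso
      subst h1
      have h10 := c.p2 h5
      subst h10
      obtain ⟨y, hy1, hy2⟩ := h6
      rcases c.p3 hy2 with h11 | h11 <;> omega
    · rcases h9 with ⟨h9, h10, h11⟩ | h9
      · subst h1 h9 h10
        refine K7.vx x' rfl rfl h3 h5 h7 h8 ?_ h11
        rcases h2 with h2 | h2
        · exact Or.inl h2.symm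
        · refine Or.inr (lt_of_le_of_ne h2 ?_)
          rintro rfl
          exact hnX x' h3 h7
      · omega
    · rcases h9 with ⟨-, -, h9⟩ | h9 <;> omega
  · obtain ⟨y, hy1, hy2⟩ := h6
    have := c.p2 h5
    have := c.p2 hy2
    omega
  · have h10 := c.p2 h6
    subst h10
    rcases h9 with ⟨h9, h11⟩ | h9
    · subst h9
      have h12 : z = j := by
        rcases h3 with h3 | h3
        · exact h3.symm
        · omega
      subst h12
      exact K7.fb rfl h1.symm h7 h8 (by omega)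
    · omega

/-- Step (7): the second down. -/
theorem RC.d2op (c : RC g old p z v a sg Sa ν X C B Y Z1 Z2 hi Q d) {i : ℕ} {σ : List ℕ} {j : ℕ}
    (ho : Op g old (z + B) i σ j) : (i, σ, j) = (B, [], z) := by
  have nm := c.hP.nm
  have hpsg := c.hI.psg
  obtain ⟨hz, hX, hC, hB1, hB2, hY, hZ1, hZ2, hv, hn, hv', hn'⟩ := nm
  rcases c.L7 (by omega) ho.wd with ⟨h1, h2, h3, h4⟩ | ⟨h1, h2, h3, h4, h5⟩ |
    ⟨h1, h2, h3, h4, h5⟩ | ⟨h1, h2, h3, h4, h5⟩ | ⟨x, h1, h2, h3, h4, h5, h6, h7, h8⟩ |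
    ⟨h1, h2, h3, h4, h5⟩
  · omega
  · exfalso
    subst h1 h2
    obtain ⟨i', σ', j', ho'⟩ := c.le h3.r (by omega) (by omega) (by omega)
    rcases c.L7 (by omega) ho'.wd with ⟨k1, k2, k3, k4⟩ | ⟨k1, k2, k3, k4, k5⟩ |
      ⟨k1, k2, k3, k4, k5⟩ | ⟨k1, k2, k3, k4, k5⟩ | ⟨x, k1, k2, k3, k4, k5, k6, k7, k8⟩ |
      ⟨k1, k2, k3, k4, k5⟩
    · omega
    · subst k1 k2
      have := wmax c.hgb ho'.1 h3
      omega
    · have := c.val1 k3.l k2 (by omega)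
      omega
    · omega
    · rcases k7 with k7 | k7
      · have := c.val1 k4.r k3 (by omega)
        omega
      · omega
    · omega
  · subst h1 h4
    have : i = B := by omega
    subst this
    rfl
  · omega
  · exfalso
    rcases h7 with h7 | h7
    · have := c.val1 h4.r h3 (by omega)
      omega
    · omega
  · omega

theorem RC.wBz (c : RC g old p z v a sg Sa ν X C B Y Z1 Z2 hi Q d) : Weak g B [] z := by
  have nm := c.hP.nm
  obtain ⟨hz, hX, hC, hB1, hB2, hY, hZ1, hZ2, hv, hn, hv', hn'⟩ := nm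
  obtain ⟨i, σ, j, ho⟩ := c.hl.down (N := z + B) (by omega) (by have := c.hhi; omega)
    (by rw [c.hd.dn (z + B) (Or.inr (Or.inl rfl))]; decide)
  have h := c.d2op ho
  simp only [Prod.mk.injEq] at h
  obtain ⟨rfl, rfl, rfl⟩ := h
  exact ho.1

theorem RC.D2 (c : RC g old p z v a sg Sa ν X C B Y Z1 Z2 hi Q d) : z + B ∉ Set.range g := by
  have nm := c.hP.nm
  obtain ⟨hz, hX, hC, hB1, hB2, hY, hZ1, hZ2, hv, hn, hv', hn'⟩ := nm
  exact (c.hl.down_only c.hpos (N := z + B) (by omega) (by have := c.hhi; omega)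
    (c.hd.dn (z + B) (Or.inr (Or.inl rfl))) (fun i σ j ho => c.d2op ho)).1

theorem RC.succB (c : RC g old p z v a sg Sa ν X C B Y Z1 Z2 hi Q d) {j : ℕ} (h : Adj g B j) :
    j = z := by
  have nm := c.hP.nm
  obtain ⟨hz, hX, hC, hB1, hB2, hY, hZ1, hZ2, hv, hn, hv', hn'⟩ := nm
  exact le_antisymm (wmax c.hgb c.wBz h) (c.succ_big h (by omega))

theorem RC.predz (c : RC g old p z v a sg Sa ν X C B Y Z1 Z2 hi Q d) {i : ℕ} (h : Adj g i z) :
    i ≤ B := wpre c.hgb c.wBz h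

theorem RC.Xz (c : RC g old p z v a sg Sa ν X C B Y Z1 Z2 hi Q d) (h : Adj g X z) {x : ℕ}
    (hx : Adj g X x) : x = z := by
  have nm := c.hP.nm
  obtain ⟨hz, hX, hC, hB1, hB2, hY, hZ1, hZ2, hv, hn, hv', hn'⟩ := nm
  have h1 := c.succ_big hx (by omega)
  by_contra hne
  have hs := mkstrong c.hgb h (x := B) (by omega) (wadj c.hgb c.wBz) (y := x) (by omega) hx
  obtain ⟨i', σ', j', ho⟩ := c.st hs (N := X + z) (by simp) (by omega) (by omega) (by omega)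
  rcases c.L7 (by omega) ho.wd with ⟨k1, k2, k3, k4⟩ | ⟨k1, k2, k3, k4, k5⟩ |
    ⟨k1, k2, k3, k4, k5⟩ | ⟨k1, k2, k3, k4, k5⟩ | ⟨x, k1, k2, k3, k4, k5, k6, k7, k8⟩ |
    ⟨k1, k2, k3, k4, k5⟩
  · omega
  · rcases c.bl k3.r k4 (by omega) with h3 | ⟨u, h3, h4, h5⟩
    · omega
    · have := wmax c.hgb h5 k3
      omega
  · subst k1 k4
    have : i' = X := by omega
    subst this
    exact not_weak_strong c.hgb ho.1 hs
  · omega
  · rcases k7 with k7 | k7 <;> omega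
  · omega

/-- Words of level between `v + B + z` and `C + Z1`. -/
theorem RC.L8 (c : RC g old p z v a sg Sa ν X C B Y Z1 Z2 hi Q d) {N i : ℕ} {σ : List ℕ} {j : ℕ}
    (hN1 : v + B + z < N) (hN : N ≤ C + Z1) (h : Wd g old N i σ j) :
    (σ = [] ∧ v = i ∧ Adj g v j ∧ X ≤ j ∧ v + j = N) ∨
    (σ = [] ∧ X ≤ i ∧ X < j ∧ i ≠ B ∧ Adj g i j ∧ i + j = N) ∨
    (∃ x, σ = [x] ∧ v = i ∧ X ≤ x ∧ x ≠ B ∧ Adj g v x ∧ Adj g x j ∧
      (∃ y, j < y ∧ Adj g x y) ∧ X < j ∧ v + x + j = N) := by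
  have nm := c.hP.nm
  obtain ⟨hz, hX, hC, hB1, hB2, hY, hZ1, hZ2, hv, hn, hv', hn'⟩ := nm
  rcases c.L7 hN h with ⟨k1, k2, k3, k4⟩ | ⟨k1, k2, k3, k4, k5⟩ |
    ⟨k1, k2, k3, k4, k5⟩ | ⟨k1, k2, k3, k4, k5⟩ | ⟨x, k1, k2, k3, k4, k5, k6, k7, k8⟩ |
    ⟨k1, k2, k3, k4, k5⟩
  · omega
  · exact Or.inl ⟨k1, k2, k3, k4, k5⟩
  · have := c.predz k3
    omega
  · refine Or.inr (Or.inl ⟨k1, k2, k3, ?_, k4, k5⟩)
    rintro rfl
    have := c.succB k4
    omega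
  · rcases k7 with k7 | k7
    · subst k7
      have := c.predz k5
      omega
    · refine Or.inr (Or.inr ⟨x, k1, k2, k3, ?_, k4, k5, k6, k7, k8⟩)
      rintro rfl
      have := c.succB k5
      omega
  · obtain ⟨y, hy1, hy2⟩ := k4
    have := c.Xz k3 hy2
    omega

/-- A value `y` with `v → y` at such a level. -/
theorem RC.le8 (c : RC g old p z v a sg Sa ν X C B Y Z1 Z2 hi Q d) {y : ℕ} (hy : Adj g v y)
    (h1 : v + B + z < y) (h2 : y ≤ C + Z1) :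
    (∃ i j, Weak g i [] j ∧ i + j = y ∧ (i = X ∨ i = C ∨ i = Z1 ∨ i = Y ∨ i = Z2) ∧
      (j = C ∨ j = B ∨ j = Z1 ∨ j = Y ∨ j = Z2)) ∨
    (∃ x j, Adj g v x ∧ Adj g x j ∧ (∃ y, j < y ∧ Adj g x y) ∧ v + x + j = y ∧
      (x = C ∨ x = Z1 ∨ x = Y ∨ x = Z2) ∧ (j = C ∨ j = B ∨ j = Z1 ∨ j = Y ∨ j = Z2)) := by
  have nm := c.hP.nm
  obtain ⟨hz, hX, hC, hB1, hB2, hY, hZ1, hZ2, hv, hn, hv', hn'⟩ := nm
  obtain ⟨i, σ, j, ho⟩ := c.le hy.r (by omega) (by omega) (by omega)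
  have hval : ∀ w ∈ Set.range g, X ≤ w → w < p + X →
      w = X ∨ w = C ∨ w = B ∨ w = Z1 ∨ w = Y ∨ w = Z2 :=
    fun w hw hw1 hw2 => c.val3 hy (by omega) hw hw1 hw2
  rcases c.L8 h1 h2 ho.wd with ⟨k1, k2, k3, k4, k5⟩ | ⟨k1, k2, k3, k4, k5, k6⟩ |
    ⟨x, k1, k2, k3, k4, k5, k6, k7, k8, k9⟩
  · subst k1 k2
    have := wmax c.hgb ho.1 hy
    omega
  · subst k1
    have h3 := hval i k5.l k2 (by omega)
    have h4 := hval j k5.r (by omega) (by omega)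
    exact Or.inl ⟨i, j, ho.1, k6, by omega, by omega⟩
  · have h3 := hval x k5.r k3 (by omega)
    have h4 := hval j k6.r (by omega) (by omega)
    have h5 : x ≠ X := by
      rintro rfl
      have := c.lkX k5 hy
      omega
    exact Or.inr ⟨x, j, k5, k6, k7, k9, by omega, by omega⟩

end

end Pool.Agent.CF2
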