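import Pool.Agent.CF2.GRc

/-!
# CF2: gadget stage, state R, part d: steps (8) and (9)
-/

namespace Pool.Agent.CF2

section
variable {g : ℕ → ℕ} {old : ℕ → ℕ → Prop} {p z v a sg Sa ν X C B Y Z1 Z2 hi : ℕ} {Q : Set ℕ}
  {d : ℕ → ℤ}

theorem RC.opdown (c : RC g old p z v a sg Sa ν X C B Y Z1 Z2 hi Q d) {N : ℕ}
    (hN : N = p + X ∨ N = z + B ∨ N = X + Y ∨ N = B + C ∨ N = C + Z1 ∨ N = Z1 + Z2) :
    ∃ i σ j, Op g old N i σ j := by
  have nm := c.hP.nm
  obtain ⟨hz, hX, hC, hB1, hB2, hY, hZ1, hZ2, hv, hn, hv', hn'⟩ := nm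
  exact c.hl.down (N := N) (by omega) (by have := c.hhi; omega) (by rw [c.hd.dn N hN]; decide)

theorem RC.dnot (c : RC g old p z v a sg Sa ν X C B Y Z1 Z2 hi Q d) {N : ℕ}
    (hN : N = p + X ∨ N = z + B ∨ N = X + Y ∨ N = B + C ∨ N = C + Z1 ∨ N = Z1 + Z2)
    {w : ℕ × List ℕ × ℕ} (hw : ∀ i σ j, Op g old N i σ j → (i, σ, j) = w) :
    N ∉ Set.range g := by
  have nm := c.hP.nm
  obtain ⟨hz, hX, hC, hB1, hB2, hY, hZ1, hZ2, hv, hn, hv', hn'⟩ := nm
  exact (c.hl.down_only c.hpos (N := N) (by omega) (by have := c.hhi; omega)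
    (c.hd.dn N hN) hw).1

theorem RC.a1 (c : RC g old p z v a sg Sa ν X C B Y Z1 Z2 hi Q d) (hvn : v = ν)
    (h1 : Weak g X [] B) (h2 : Weak g v [] (X + B)) : False := by
  have nm := c.hP.nm
  obtain ⟨hz, hX, hC, hB1, hB2, hY, hZ1, hZ2, hv, hn, hv', hn'⟩ := nm
  obtain ⟨i, σ, j, ho⟩ := c.opdown (N := B + C) (by tauto)
  rcases c.L8 (by omega) (by omega) ho.wd with ⟨k1, k2, k3, k4, k5⟩ | ⟨k1, k2, k3, k4, k5, k6⟩ |
    ⟨x, k1, k2, k3, k4, k5, k6, k7, k8, k9⟩
  · subst k1 k2
    have h3 := wmax c.hgb h2 k3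
    have h4 := wmax c.hgb ho.1 (wadj c.hgb h2)
    omega
  · subst k1
    by_cases hi : i < B
    · rcases c.val1 k5.l k2 hi with h3 | h3 | ⟨h3, -⟩
      · subst h3
        have := wmax c.hgb h1 k5
        omega
      · have h4 : j = B := by omega
        subst h4
        have := wpre c.hgb h1 k5
        omega
      · have := c.val1 k5.r (by omega) (by omega)
        omega
    · have := c.val1 k5.r (by omega) (by omega)
      omega
  · by_cases hx : x < B
    · rcases c.val1 k5.r k3 hx with h3 | h3 | ⟨h3, -⟩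
      · subst h3
        have := c.lkX k5 (wadj c.hgb h2)
        omega
      · have := c.val1 k6.r (by omega) (by omega)
        omega
      · have := c.val1 k6.r (by omega) (by omega)
        omega
    · have := c.val1 k6.r (by omega) (by omega)
      omega

theorem RC.a2 (c : RC g old p z v a sg Sa ν X C B Y Z1 Z2 hi Q d) (hvn : v = ν)
    (hvX : Adj g v X) (hw : Weak g v [X] B) : False := by
  have nm := c.hP.nm
  obtain ⟨hz, hX, hC, hB1, hB2, hY, hZ1, hZ2, hv, hn, hv', hn'⟩ := nm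
  obtain ⟨hXB, y₀, hy₀, hXy₀⟩ := Bi.last (σ := []) (x := X) (by simpa using hw.bi)
  have hnl : ∀ m, Adj g v m → z ≤ m := by
    intro m hm
    have := c.lkX hvX hm
    omega
  have honce := c.hI.once hnl
  obtain ⟨i, σ, j, ho⟩ := c.opdown (N := B + C) (by tauto)
  have hwY : Weak g v [X] Y := by
    rcases c.L8 (by omega) (by omega) ho.wd with ⟨k1, k2, k3, k4, k5⟩ |
      ⟨k1, k2, k3, k4, k5, k6⟩ | ⟨x, k1, k2, k3, k4, k5, k6, k7, k8, k9⟩
    · have := c.lkX hvX k3
      omega
    · exfalso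
      subst k1
      by_cases hi : i < B
      · rcases c.val1 k5.l k2 hi with h3 | h3 | ⟨h3, -⟩
        · have := c.val4 hvX k5.r (by omega) (by omega)
          omega
        · have h4 : j = B := by omega
          subst h3 h4
          have hs := mkstrong c.hgb hXB (x := i) (by omega) k5 (y := y₀) hy₀ hXy₀
          obtain ⟨i', σ', j', ho'⟩ := c.st hs (N := X + j) (by simp) (by omega) (by omega)
            (by omega)
          rcases c.L8 (by omega) (by omega) ho'.wd with ⟨l1, l2, l3, l4, l5⟩ |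
            ⟨l1, l2, l3, l4, l5, l6⟩ | ⟨x, l1, l2, l3, l4, l5, l6, l7, l8, l9⟩
          · have := c.lkX hvX l3
            omega
          · subst l1
            by_cases hi' : i' < j
            · rcases c.val1 l5.l l2 hi' with h5 | h5 | ⟨h5, -⟩
              · have h6 : j' = j := by omega
                subst h5 h6
                exact not_weak_strong c.hgb ho'.1 hs
              · have := c.val1 l5.r (by omega) (by omega)
                omega
              · have := c.val1 l5.r (by omega) (by omega)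
                omega
            · omega
          · have h5 := c.lkX hvX l5
            have := c.val1 l6.r (by omega) (by omega)
            omega
        · have := c.val1 k5.r (by omega) (by omega)
          omega
      · have := c.val1 k5.r (by omega) (by omega)
        omega
    · have h5 := c.lkX hvX k5
      have h6 : j = Y := by omega
      subst k1 k2 h5 h6
      exact ho.1
  have hBY : B < Y := by omega
  -- the run before `X`, if larger than `v`, is `p`
  have hpre : ∀ t, v < g t → Seg g (t + 1) [X] → g t = p := by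
    intro t ht hs
    rcases c.p3 (x := g t) ⟨t, rfl, hs.head⟩ with h | h
    · exact h
    · omega
  rcases hw with ⟨-, -, -, h4⟩ | ⟨⟨t, h1, h2, h3⟩, -, -, -⟩
  · rcases hwY with ⟨⟨s, k1, k2, k3⟩, -, -, -⟩ | ⟨-, ⟨s, k1, k2, k3⟩, -, -⟩
    · exact h4 ⟨s, k1, k2, by omega⟩
    · exact h4 ⟨s, k1, k2, by omega⟩
  · have hp1 := hpre t h1 h2
    rcases hwY with ⟨-, ⟨s, k1, k2, k3⟩, -, -⟩ | ⟨⟨s, k1, k2, k3⟩, -, -, -⟩
    · have := honce s t (hpre s k1 k2) hp1
      subst this
      omega
    · have := honce s t (hpre s k1 k2) hp1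
      subst this
      omega

/-- Step (8): the third down. -/
theorem RC.d3op (c : RC g old p z v a sg Sa ν X C B Y Z1 Z2 hi Q d) {i : ℕ} {σ : List ℕ} {j : ℕ}
    (ho : Op g old (X + Y) i σ j) : (i, σ, j) = (X, [], Y) := by
  have nm := c.hP.nm
  obtain ⟨hz, hX, hC, hB1, hB2, hY, hZ1, hZ2, hv, hn, hv', hn'⟩ := nm
  obtain ⟨g1, g2, g3⟩ := c.hP.sep
  rcases c.L8 (by omega) (by omega) ho.wd with ⟨k1, k2, k3, k4, k5⟩ | ⟨k1, k2, k3, k4, k5, k6⟩ |
    ⟨x, k1, k2, k3, k4, k5, k6, k7, k8, k9⟩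
  · exfalso
    subst k1 k2
    rcases c.le8 k3 (by omega) (by omega) with ⟨i', j', l1, l2, l3, l4⟩ |
      ⟨x, j', l1, l2, l3, l4, l5, l6⟩
    · have h1 : v = ν ∧ i' = X ∧ j' = B ∧ j = X + B := by omega
      obtain ⟨h2, h3, h4, h5⟩ := h1
      subst h3 h4 h5
      exact c.a1 h2 l1 ho.1
    · omega
  · subst k1
    by_cases hi : i < B
    · rcases c.val1 k5.l k2 hi with h3 | h3 | ⟨h3, -⟩
      · have h4 : j = Y := by omega
        subst h3 h4
        rfl
      · have := c.val1 k5.r (by omega) (by omega)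
        omega
      · have := c.val1 k5.r (by omega) (by omega)
        omega
    · have := c.val1 k5.r (by omega) (by omega)
      omega
  · exfalso
    by_cases hx : x < B
    · rcases c.val1 k5.r k3 hx with h3 | h3 | ⟨h3, -⟩
      · subst h3
        have h4 := c.val4 k5 k6.r (by omega) (by omega)
        have h5 : v = ν ∧ j = B := by omega
        obtain ⟨h6, h7⟩ := h5
        subst k1 k2 h7
        exact c.a2 h6 k5 ho.1
      · have := c.val1 k6.r (by omega) (by omega)
        omega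
      · have := c.val1 k6.r (by omega) (by omega)
        omega
    · have := c.val1 k6.r (by omega) (by omega)
      omega

theorem RC.wXY (c : RC g old p z v a sg Sa ν X C B Y Z1 Z2 hi Q d) : Weak g X [] Y := by
  obtain ⟨i, σ, j, ho⟩ := c.opdown (N := X + Y) (by tauto)
  have h := c.d3op ho
  simp only [Prod.mk.injEq] at h
  obtain ⟨rfl, rfl, rfl⟩ := h
  exact ho.1

theorem RC.D3 (c : RC g old p z v a sg Sa ν X C B Y Z1 Z2 hi Q d) : X + Y ∉ Set.range g :=
  c.dnot (by tauto) (fun _ _ _ ho => c.d3op ho)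

theorem RC.sX (c : RC g old p z v a sg Sa ν X C B Y Z1 Z2 hi Q d) {j : ℕ} (h : Adj g X j) :
    X < j ∧ j ≤ Y := by
  have nm := c.hP.nm
  obtain ⟨hz, hX, hC, hB1, hB2, hY, hZ1, hZ2, hv, hn, hv', hn'⟩ := nm
  refine ⟨?_, wmax c.hgb c.wXY h⟩
  have h1 := c.succ_big h (by omega)
  rcases h1.eq_or_lt with h2 | h2
  · subst h2
    have := c.Xz h (wadj c.hgb c.wXY)
    omega
  · refine lt_of_le_of_ne (c.gap j h.r h2) ?_
    rintro rfl
    rcases c.p3 h with h3 | h3 <;> omega

theorem RC.predY (c : RC g old p z v a sg Sa ν X C B Y Z1 Z2 hi Q d) {i : ℕ} (h : Adj g i Y) :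
    i = X ∨ i = v := by
  have nm := c.hP.nm
  obtain ⟨hz, hX, hC, hB1, hB2, hY, hZ1, hZ2, hv, hn, hv', hn'⟩ := nm
  have h1 := wpre c.hgb c.wXY h
  by_cases h2 : i ≤ z
  · rcases c.pred_old h (by omega) h2 with h3 | h3
    · subst h3
      have := c.p2 h
      omega
    · exact Or.inr h3
  · have := c.gap i h.l (by omega)
    omega

/-- A strong word `(v;;j)` is impossible if `v + j` is not an up. -/
theorem RC.nsv (c : RC g old p z v a sg Sa ν X C B Y Z1 Z2 hi Q d) {j : ℕ}
    (hs : Strong g v [] j) (hj : X ≤ j) (h1 : v + j < p + X)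
    (h2 : ¬ (v + j = C ∨ v + j = B ∨ v + j = Z1 ∨ v + j = Y ∨ v + j = Z2)) : False := by
  have nm := c.hP.nm
  obtain ⟨hz, hX, hC, hB1, hB2, hY, hZ1, hZ2, hv, hn, hv', hn'⟩ := nm
  obtain ⟨i', σ', j', ho⟩ := c.st hs (N := v + j) (by simp) (by omega) (by omega) (by omega)
  obtain ⟨rfl, rfl, h7, h8⟩ := c.L5 (by omega) ho.wd
  have h9 : j' = j := by omega
  subst h9
  exact not_weak_strong c.hgb ho.1 hs

theorem RC.lkY' (c : RC g old p z v a sg Sa ν X C B Y Z1 Z2 hi Q d) (h : Adj g v Y) {x : ℕ}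
    (hx : Adj g v x) : x ≤ Y := by
  have nm := c.hP.nm
  obtain ⟨hz, hX, hC, hB1, hB2, hY, hZ1, hZ2, hv, hn, hv', hn'⟩ := nm
  by_contra hc
  exact c.nsv (mkstrong c.hgb h (x := X) (by omega) (wadj c.hgb c.wXY) (y := x) (by omega) hx)
    (by omega) (by omega) (by omega)

/-- Step (9): the fourth down. -/
theorem RC.d4op (c : RC g old p z v a sg Sa ν X C B Y Z1 Z2 hi Q d) {i : ℕ} {σ : List ℕ} {j : ℕ}
    (ho : Op g old (B + C) i σ j) : (i, σ, j) = (C, [], B) := by
  have nm := c.hP.nm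
  obtain ⟨hz, hX, hC, hB1, hB2, hY, hZ1, hZ2, hv, hn, hv', hn'⟩ := nm
  obtain ⟨g1, g2, g3⟩ := c.hP.sep
  rcases c.L8 (by omega) (by omega) ho.wd with ⟨k1, k2, k3, k4, k5⟩ | ⟨k1, k2, k3, k4, k5, k6⟩ |
    ⟨x, k1, k2, k3, k4, k5, k6, k7, k8, k9⟩
  · exfalso
    have hvn : v ≠ ν := by
      intro h
      have h1 : j = X + Y := by omega
      rw [h1] at k3
      exact c.D3 k3.r
    rcases c.le8 k3 (by omega) (by omega) with ⟨i', j', l1, l2, l3, l4⟩ |
      ⟨x, j', l1, l2, l3, l4, l5, l6⟩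
    · omega
    · omega
  · subst k1
    by_cases hi : i < B
    · rcases c.val1 k5.l k2 hi with h3 | h3 | ⟨h3, -⟩
      · subst h3
        have := c.sX k5
        omega
      · have h4 : j = B := by omega
        subst h3 h4
        rfl
      · have := c.val1 k5.r (by omega) (by omega)
        omega
    · have := c.val1 k5.r (by omega) (by omega)
      omega
  · exfalso
    by_cases hx : x < B
    · rcases c.val1 k5.r k3 hx with h3 | h3 | ⟨h3, -⟩
      · subst h3
        obtain ⟨y, hy1, hy2⟩ := k7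
        have h4 := c.sX hy2
        have h5 := c.val4 k5 k6.r (by omega) (by omega)
        omega
      · have := c.val1 k6.r (by omega) (by omega)
        omega
      · have := c.val1 k6.r (by omega) (by omega)
        omega
    · have := c.val1 k6.r (by omega) (by omega)
      omega

theorem RC.wCB (c : RC g old p z v a sg Sa ν X C B Y Z1 Z2 hi Q d) : Weak g C [] B := by
  obtain ⟨i, σ, j, ho⟩ := c.opdown (N := B + C) (by tauto)
  have h := c.d4op ho
  simp only [Prod.mk.injEq] at h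
  obtain ⟨rfl, rfl, rfl⟩ := h
  exact ho.1

theorem RC.D4 (c : RC g old p z v a sg Sa ν X C B Y Z1 Z2 hi Q d) : B + C ∉ Set.range g :=
  c.dnot (by tauto) (fun _ _ _ ho => c.d4op ho)

theorem RC.nXB (c : RC g old p z v a sg Sa ν X C B Y Z1 Z2 hi Q d) : ¬ Adj g X B := by
  intro h
  have nm := c.hP.nm
  obtain ⟨hz, hX, hC, hB1, hB2, hY, hZ1, hZ2, hv, hn, hv', hn'⟩ := nm
  have hs := mkstrong c.hgb h (x := C) (by omega) (wadj c.hgb c.wCB) (y := Y) (by omega)
    (wadj c.hgb c.wXY)
  obtain ⟨i, σ, j, ho⟩ := c.st hs (N := X + B) (by simp) (by omega) (by omega) (by omega)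
  rcases c.L8 (by omega) (by omega) ho.wd with ⟨k1, k2, k3, k4, k5⟩ | ⟨k1, k2, k3, k4, k5, k6⟩ |
    ⟨x, k1, k2, k3, k4, k5, k6, k7, k8, k9⟩
  · rcases c.le8 k3 (by omega) (by omega) with ⟨i', j', l1, l2, l3, l4⟩ |
      ⟨x, j', l1, l2, l3, l4, l5, l6⟩
    · omega
    · omega
  · subst k1
    by_cases hi : i < B
    · rcases c.val1 k5.l k2 hi with h3 | h3 | ⟨h3, -⟩
      · have h4 : j = B := by omega
        subst h3 h4
        exact not_weak_strong c.hgb ho.1 hs
      · have := c.val1 k5.r (by omega) (by omega)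
        omega
      · have := c.val1 k5.r (by omega) (by omega)
        omega
    · omega
  · by_cases hx : x < B
    · have := c.val1 k6.r (by omega) (by omega)
      have := c.val1 k5.r k3 hx
      omega
    · omega

theorem RC.YV (c : RC g old p z v a sg Sa ν X C B Y Z1 Z2 hi Q d) : Y ∈ Set.range g :=
  (wadj c.hgb c.wXY).r

/-- A pair of successors `B < x` of `v` is impossible. -/
theorem RC.nsvB (c : RC g old p z v a sg Sa ν X C B Y Z1 Z2 hi Q d)
    (hs : Strong g v [] B) : False := by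
  have nm := c.hP.nm
  obtain ⟨hz, hX, hC, hB1, hB2, hY, hZ1, hZ2, hv, hn, hv', hn'⟩ := nm
  obtain ⟨g1, g2, g3⟩ := c.hP.sep
  by_cases hvn : v = ν
  · have h1 := c.hl Y (by omega) (by have := c.hhi; omega)
    rw [c.hd.up Y (by tauto), if_pos c.YV] at h1
    have h2 := ncard_pos_of_strong c.hpos hs (N := Y) (by simp; omega)
    obtain ⟨i', σ', j', ho⟩ := exists_op_of_ncard (g := g) (old := old) (N := Y) (by omega)
    obtain ⟨rfl, rfl, h7, h8⟩ := c.L5 (by omega) ho.wd
    have h9 : j' = B := by omega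
    subst h9
    exact not_weak_strong c.hgb ho.1 hs
  · exact c.nsv hs (by omega) (by omega) (by omega)

theorem RC.nvB (c : RC g old p z v a sg Sa ν X C B Y Z1 Z2 hi Q d) : ¬ Adj g v B := by
  intro h
  have nm := c.hP.nm
  obtain ⟨hz, hX, hC, hB1, hB2, hY, hZ1, hZ2, hv, hn, hv', hn'⟩ := nm
  have hle : ∀ x, Adj g v x → x ≤ B := by
    intro x hx
    by_contra hc
    exact c.nsvB (mkstrong c.hgb h (x := C) (by omega) (wadj c.hgb c.wCB) (y := x) (by omega) hx)
  have hnC : ¬ Weak g v [] C := by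
    intro hw
    have := wmax c.hgb hw h
    omega
  have hsv : ∀ x, Adj g v x → x = B ∨ x = C := by
    intro x hx
    have h1 := hle x hx
    have hxz : z ≤ x := by
      by_contra hc
      have := c.hI.leak1 x hx (by omega) B h
      omega
    have h2 := c.sv hx hxz
    by_cases h3 : x < B
    · rcases c.val1 hx.r h2 h3 with h4 | h4 | h4
      · subst h4
        have := c.lkX hx h
        omega
      · exact Or.inr h4
      · exact absurd h4.2 hnC
    · exact Or.inl (by omega)
  refine succ_closed c.hgb (F := Q ∪ {B, C}) (B := B) ?_ ?_ v (Or.inl c.hI.Qv) c.hI.mv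
  · rintro x (hx | rfl | rfl)
    · have := c.hI.Qle x hx
      omega
    · exact le_rfl
    · omega
  · rintro x (hx | rfl | rfl) y hy
    · by_cases hxv : x = v
      · subst hxv
        rcases hsv y hy with h1 | h1
        · exact Or.inr (Or.inl h1)
        · exact Or.inr (Or.inr h1)
      · exact Or.inl (c.hI.Qs x hx hxv y hy)
    · rw [c.succB hy]
      exact Or.inl c.hI.Qz
    · have h1 := wmax c.hgb c.wCB hy
      have h2 := c.succ_big hy (by omega)
      rcases h2.eq_or_lt with h3 | h3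
      · rw [← h3]
        exact Or.inl c.hI.Qz
      · have h4 := c.gap y hy.r h3
        by_cases h5 : y < B
        · rcases c.val1 hy.r h4 h5 with h6 | h6 | h6
          · subst h6
            rcases c.p3 hy with h7 | h7 <;> omega
          · exact Or.inr (Or.inr h6)
          · exact absurd h6.2 hnC
        · exact Or.inr (Or.inl (show y = B by omega))

theorem RC.predB (c : RC g old p z v a sg Sa ν X C B Y Z1 Z2 hi Q d) {i : ℕ} (h : Adj g i B) :
    i = C := by
  have nm := c.hP.nm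
  obtain ⟨hz, hX, hC, hB1, hB2, hY, hZ1, hZ2, hv, hn, hv', hn'⟩ := nm
  have h1 := wpre c.hgb c.wCB h
  by_cases h2 : i ≤ z
  · rcases c.pred_old h (by omega) h2 with h3 | h3
    · subst h3
      have := c.p2 h
      omega
    · subst h3
      exact absurd h c.nvB
  · have h3 := c.gap i h.l (by omega)
    rcases c.val1 h.l h3 (by omega) with h4 | h4 | h4
    · subst h4
      exact absurd h c.nXB
    · exact h4
    · omega

theorem RC.nCz (c : RC g old p z v a sg Sa ν X C B Y Z1 Z2 hi Q d) : ¬ Adj g C z := by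
  intro h
  have nm := c.hP.nm
  have hpsg := c.hI.psg
  obtain ⟨hz, hX, hC, hB1, hB2, hY, hZ1, hZ2, hv, hn, hv', hn'⟩ := nm
  obtain ⟨g1, g2, g3⟩ := c.hP.sep
  have hs := mkstrong c.hgb h (x := B) (by omega) (wadj c.hgb c.wBz) (y := B) (by omega)
    (wadj c.hgb c.wCB)
  obtain ⟨i, σ, j, ho⟩ := c.st hs (N := C + z) (by simp) (by omega) (by omega) (by omega)
  rcases c.L7 (by omega) ho.wd with ⟨k1, k2, k3, k4⟩ | ⟨k1, k2, k3, k4, k5⟩ |
    ⟨k1, k2, k3, k4, k5⟩ | ⟨k1, k2, k3, k4, k5⟩ | ⟨x, k1, k2, k3, k4, k5, k6, k7, k8⟩ |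
    ⟨k1, k2, k3, k4, k5⟩
  · omega
  · by_cases h1 : j < p + X
    · rcases c.bl k3.r k4 h1 with h3 | ⟨u, h3, h4, h5⟩
      · omega
      · have := wmax c.hgb h5 k3
        omega
    · obtain ⟨i', σ', j', ho'⟩ := c.le k3.r (by omega) (by omega) (by omega)
      rcases c.L7 (by omega) ho'.wd with ⟨l1, l2, l3, l4⟩ | ⟨l1, l2, l3, l4, l5⟩ |
        ⟨l1, l2, l3, l4, l5⟩ | ⟨l1, l2, l3, l4, l5⟩ | ⟨x, l1, l2, l3, l4, l5, l6, l7, l8⟩ |
        ⟨l1, l2, l3, l4, l5⟩
      · omega
      · subst l1 l2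
        have := wmax c.hgb ho'.1 k3
        omega
      · have := c.val1 l3.l l2 (by omega)
        omega
      · omega
      · rcases l7 with l7 | l7
        · have := c.val1 l4.r l3 (by omega)
          have h6 : x = X := by omega
          subst h6
          have := c.lkX l4 k3
          omega
        · omega
      · omega
  · have h1 : i = C := by omega
    subst h1 k1 k4
    exact not_weak_strong c.hgb ho.1 hs
  · omega
  · rcases k7 with k7 | k7
    · have := c.val1 k4.r k3 (by omega)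
      omega
    · omega
  · omega

end

end Pool.Agent.CF2
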