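import Pool.Agent.CF2.GRd

/-!
# CF2: gadget stage, state R, part e: steps (10) and (11)
-/

namespace Pool.Agent.CF2

section
variable {g : ℕ → ℕ} {old : ℕ → ℕ → Prop} {p z v a sg Sa ν X C B Y Z1 Z2 hi : ℕ} {Q : Set ℕ}
  {d : ℕ → ℤ}

theorem RC.sC (c : RC g old p z v a sg Sa ν X C B Y Z1 Z2 hi Q d) {j : ℕ} (h : Adj g C j) :
    j = C ∨ j = B ∨ (j = v + C ∧ Weak g v [] C) := by
  have nm := c.hP.nm
  obtain ⟨hz, hX, hC, hB1, hB2, hY, hZ1, hZ2, hv, hn, hv', hn'⟩ := nm
  have h1 := c.succ_big h (by omega)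
  have h2 := wmax c.hgb c.wCB h
  rcases h1.eq_or_lt with h3 | h3
  · subst h3
    exact absurd h c.nCz
  · have h4 := c.gap j h.r h3
    by_cases h5 : j < B
    · rcases c.val1 h.r h4 h5 with h6 | h6 | h6
      · subst h6
        rcases c.p3 h with h7 | h7 <;> omega
      · exact Or.inl h6
      · exact Or.inr (Or.inr h6)
    · exact Or.inr (Or.inl (by omega))

theorem RC.nwB (c : RC g old p z v a sg Sa ν X C B Y Z1 Z2 hi Q d) : ¬ Weak g v [] B :=
  fun h => c.nvB (wadj c.hgb h)

/-- Step (10): the fifth down. -/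
theorem RC.d5op (c : RC g old p z v a sg Sa ν X C B Y Z1 Z2 hi Q d) {i : ℕ} {σ : List ℕ} {j : ℕ}
    (ho : Op g old (C + Z1) i σ j) : (i, σ, j) = (Z1, [], C) := by
  have nm := c.hP.nm
  obtain ⟨hz, hX, hC, hB1, hB2, hY, hZ1, hZ2, hv, hn, hv', hn'⟩ := nm
  obtain ⟨g1, g2, g3⟩ := c.hP.sep
  have nwB := c.nwB
  rcases c.L8 (by omega) (by omega) ho.wd with ⟨k1, k2, k3, k4, k5⟩ | ⟨k1, k2, k3, k4, k5, k6⟩ |
    ⟨x, k1, k2, k3, k4, k5, k6, k7, k8, k9⟩
  · exfalso
    rcases c.le8 k3 (by omega) (by omega) with ⟨i', j', l1, l2, l3, l4⟩ |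
      ⟨x, j', l1, l2, l3, l4, l5, l6⟩
    · have h1 : i' = X ∧ j' = B := by omega
      obtain ⟨h2, h3⟩ := h1
      subst h2 h3
      exact c.nXB (wadj c.hgb l1)
    · omega
  · subst k1
    by_cases hi : i < B
    · exfalso
      rcases c.val1 k5.l k2 hi with h3 | h3 | ⟨h3, -⟩
      · subst h3
        have := c.sX k5
        omega
      · subst h3
        have := wmax c.hgb c.wCB k5
        omega
      · by_cases hj : j < B
        · have := c.val1 k5.r (by omega) hj
          omega
        · have := c.val2 k5.r (by omega) (by omega)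
          omega
    · rcases c.val1 k5.r (by omega) (by omega) with h3 | h3 | ⟨h3, -⟩
      · omega
      · have h4 : i = Z1 := by omega
        subst h3 h4
        rfl
      · exfalso
        rcases c.val2 k5.l (by omega) (by omega) with h4 | h4 | h4 | h4 | h4 | h4 | h4 | h4
        · omega
        · omega
        · omega
        · omega
        · exact nwB h4.2
        · omega
        · omega
        · omega
  · exfalso
    by_cases hx : x < B
    · rcases c.val1 k5.r k3 hx with h3 | h3 | ⟨h3, h4⟩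
      · subst h3
        obtain ⟨y, hy1, hy2⟩ := k7
        have h4 := c.sX hy2
        have h5 := c.val4 k5 k6.r (by omega) (by omega)
        have h6 : j = B := by omega
        subst h6
        exact c.nXB k6
      · subst h3
        have := c.sC k6
        omega
      · have := wmax c.hgb h4 k5
        omega
    · rcases c.val1 k6.r (by omega) (by omega) with h3 | h3 | ⟨h3, -⟩
      · omega
      · rcases c.val2 k5.r (by omega) (by omega) with h4 | h4 | h4 | h4 | h4 | h4 | h4 | h4
        · omega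
        · omega
        · omega
        · omega
        · exact nwB h4.2
        · omega
        · omega
        · omega
      · rcases c.val2 k5.r (by omega) (by omega) with h4 | h4 | h4 | h4 | h4 | h4 | h4 | h4
        · omega
        · omega
        · omega
        · omega
        · exact nwB h4.2
        · omega
        · omega
        · omega

theorem RC.wZC (c : RC g old p z v a sg Sa ν X C B Y Z1 Z2 hi Q d) : Weak g Z1 [] C := by
  obtain ⟨i, σ, j, ho⟩ := c.opdown (N := C + Z1) (by tauto)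
  have h := c.d5op ho
  simp only [Prod.mk.injEq] at h
  obtain ⟨rfl, rfl, rfl⟩ := h
  exact ho.1

theorem RC.nwC (c : RC g old p z v a sg Sa ν X C B Y Z1 Z2 hi Q d) : ¬ Weak g v [] C := by
  intro h
  have nm := c.hP.nm
  obtain ⟨hz, hX, hC, hB1, hB2, hY, hZ1, hZ2, hv, hn, hv', hn'⟩ := nm
  have := wpre c.hgb h (wadj c.hgb c.wZC)
  omega

/-- The values up to `Z2`. -/
theorem RC.val5 (c : RC g old p z v a sg Sa ν X C B Y Z1 Z2 hi Q d) {y : ℕ}
    (hy : y ∈ Set.range g) (h1 : X ≤ y) (h2 : y ≤ Z2) :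
    y = X ∨ y = C ∨ y = B ∨ y = Z1 ∨ y = Y ∨ y = Z2 := by
  have nm := c.hP.nm
  obtain ⟨hz, hX, hC, hB1, hB2, hY, hZ1, hZ2, hv, hn, hv', hn'⟩ := nm
  rcases c.bl hy h1 (by omega) with h3 | ⟨u, h3, h4, h5⟩
  · exact h3
  · exfalso
    rcases h3 with h3 | h3 | h3 | h3 | h3 | h3
    · subst h3
      exact c.nwX h5
    · subst h3
      exact c.nwC h5
    · subst h3
      exact c.nwB h5
    · omega
    · omega
    · omega

theorem RC.predz' (c : RC g old p z v a sg Sa ν X C B Y Z1 Z2 hi Q d) {i : ℕ} (h : Adj g i z) :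
    i = B := by
  have nm := c.hP.nm
  obtain ⟨hz, hX, hC, hB1, hB2, hY, hZ1, hZ2, hv, hn, hv', hn'⟩ := nm
  have h1 := c.predz h
  rcases c.val5 h.l (c.pz h) (by omega) with h2 | h2 | h2 | h2 | h2 | h2
  · subst h2
    have := c.sX h
    omega
  · subst h2
    exact absurd h c.nCz
  · exact h2
  · omega
  · omega
  · omega

theorem RC.nCC (c : RC g old p z v a sg Sa ν X C B Y Z1 Z2 hi Q d) : ¬ Adj g C C := by
  intro h
  have nm := c.hP.nm
  obtain ⟨hz, hX, hC, hB1, hB2, hY, hZ1, hZ2, hv, hn, hv', hn'⟩ := nm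
  obtain ⟨g1, g2, g3⟩ := c.hP.sep
  have hs := mkstrong c.hgb h (x := Z1) (by omega) (wadj c.hgb c.wZC) (y := B) (by omega)
    (wadj c.hgb c.wCB)
  obtain ⟨i, σ, j, ho⟩ := c.st hs (N := C + C) (by simp) (by omega) (by omega) (by omega)
  rcases c.L8 (by omega) (by omega) ho.wd with ⟨k1, k2, k3, k4, k5⟩ | ⟨k1, k2, k3, k4, k5, k6⟩ |
    ⟨x, k1, k2, k3, k4, k5, k6, k7, k8, k9⟩
  · rcases c.le8 k3 (by omega) (by omega) with ⟨i', j', l1, l2, l3, l4⟩ |
      ⟨x, j', l1, l2, l3, l4, l5, l6⟩
    · omega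
    · omega
  · subst k1
    have h1 := c.val5 k5.l k2 (by omega)
    have h2 := c.val5 k5.r (by omega) (by omega)
    have h3 : i = C ∧ j = C := by omega
    obtain ⟨h4, h5⟩ := h3
    subst h4 h5
    exact not_weak_strong c.hgb ho.1 hs
  · have h1 := c.val5 k5.r k3 (by omega)
    have h2 := c.val5 k6.r (by omega) (by omega)
    omega

theorem RC.succC (c : RC g old p z v a sg Sa ν X C B Y Z1 Z2 hi Q d) {j : ℕ} (h : Adj g C j) :
    j = B := by
  rcases c.sC h with h1 | h1 | h1
  · subst h1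
    exact absurd h c.nCC
  · exact h1
  · exact absurd h1.2 c.nwC

theorem RC.nXC (c : RC g old p z v a sg Sa ν X C B Y Z1 Z2 hi Q d) : ¬ Adj g X C := by
  intro h
  have nm := c.hP.nm
  obtain ⟨hz, hX, hC, hB1, hB2, hY, hZ1, hZ2, hv, hn, hv', hn'⟩ := nm
  have hs := mkstrong c.hgb h (x := Z1) (by omega) (wadj c.hgb c.wZC) (y := Y) (by omega)
    (wadj c.hgb c.wXY)
  obtain ⟨i, σ, j, ho⟩ := c.st hs (N := X + C) (by simp) (by omega) (by omega) (by omega)
  rcases c.L8 (by omega) (by omega) ho.wd with ⟨k1, k2, k3, k4, k5⟩ | ⟨k1, k2, k3, k4, k5, k6⟩ |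
    ⟨x, k1, k2, k3, k4, k5, k6, k7, k8, k9⟩
  · rcases c.le8 k3 (by omega) (by omega) with ⟨i', j', l1, l2, l3, l4⟩ |
      ⟨x, j', l1, l2, l3, l4, l5, l6⟩
    · omega
    · omega
  · subst k1
    have h1 := c.val5 k5.l k2 (by omega)
    have h2 := c.val5 k5.r (by omega) (by omega)
    have h3 : i = X ∧ j = C := by omega
    obtain ⟨h4, h5⟩ := h3
    subst h4 h5
    exact not_weak_strong c.hgb ho.1 hs
  · have h1 := c.val5 k5.r k3 (by omega)
    have h2 := c.val5 k6.r (by omega) (by omega)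
    omega

/-- `v` has no leak if it has a successor above `z`. -/
theorem RC.noleak (c : RC g old p z v a sg Sa ν X C B Y Z1 Z2 hi Q d) {w x : ℕ} (h : Adj g v w)
    (hw : z ≤ w) (hx : Adj g v x) : X ≤ x := by
  refine c.sv hx ?_
  by_contra hc
  have := c.hI.leak1 x hx (by omega) w h
  omega

theorem RC.nvC (c : RC g old p z v a sg Sa ν X C B Y Z1 Z2 hi Q d) : ¬ Adj g v C := by
  intro h
  have nm := c.hP.nm
  obtain ⟨hz, hX, hC, hB1, hB2, hY, hZ1, hZ2, hv, hn, hv', hn'⟩ := nm
  have hle : ∀ x, Adj g v x → x ≤ C := by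
    intro x hx
    by_contra hc
    exact c.nsv (mkstrong c.hgb h (x := Z1) (by omega) (wadj c.hgb c.wZC) (y := x) (by omega) hx)
      (by omega) (by omega) (by omega)
  have hsv : ∀ x, Adj g v x → x = C := by
    intro x hx
    have h1 := hle x hx
    have h2 := c.noleak h (by omega) hx
    rcases c.val5 hx.r h2 (by omega) with h4 | h4 | h4 | h4 | h4 | h4
    · subst h4
      have := c.lkX hx h
      omega
    · exact h4
    all_goals omega
  refine succ_closed c.hgb (F := Q ∪ {B, C}) (B := B) ?_ ?_ v (Or.inl c.hI.Qv) c.hI.mv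
  · rintro x (hx | rfl | rfl)
    · have := c.hI.Qle x hx
      omega
    · exact le_rfl
    · omega
  · rintro x (hx | rfl | rfl) y hy
    · by_cases hxv : x = v
      · subst hxv
        exact Or.inr (Or.inr (hsv y hy))
      · exact Or.inl (c.hI.Qs x hx hxv y hy)
    · rw [c.succB hy]
      exact Or.inl c.hI.Qz
    · exact Or.inr (Or.inl (c.succC hy))

theorem RC.predC (c : RC g old p z v a sg Sa ν X C B Y Z1 Z2 hi Q d) {i : ℕ} (h : Adj g i C) :
    i = Z1 := by
  have nm := c.hP.nm
  obtain ⟨hz, hX, hC, hB1, hB2, hY, hZ1, hZ2, hv, hn, hv', hn'⟩ := nm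
  have h1 := wpre c.hgb c.wZC h
  by_cases h2 : i ≤ z
  · rcases c.pred_old h (by omega) h2 with h3 | h3
    · subst h3
      have := c.p2 h
      omega
    · subst h3
      exact absurd h c.nvC
  · have h3 := c.gap i h.l (by omega)
    rcases c.val5 h.l h3 (by omega) with h4 | h4 | h4 | h4 | h4 | h4
    · subst h4
      exact absurd h c.nXC
    · subst h4
      exact absurd h c.nCC
    · subst h4
      have := c.succB h
      omega
    · exact h4
    · omega
    · omega

theorem RC.succZ1 (c : RC g old p z v a sg Sa ν X C B Y Z1 Z2 hi Q d) {j : ℕ} (h : Adj g Z1 j) :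
    j = C := by
  have nm := c.hP.nm
  obtain ⟨hz, hX, hC, hB1, hB2, hY, hZ1, hZ2, hv, hn, hv', hn'⟩ := nm
  have h1 := wmax c.hgb c.wZC h
  have h2 := c.succ_big h (by omega)
  rcases h2.eq_or_lt with h3 | h3
  · subst h3
    have := c.predz' h
    omega
  · have h4 := c.gap j h.r h3
    rcases c.val5 h.r h4 (by omega) with h5 | h5 | h5 | h5 | h5 | h5
    · subst h5
      rcases c.p3 h with h7 | h7 <;> omega
    · exact h5
    all_goals omega

/-- Words of level between about `2 Y` and `Z1 + Z2`. -/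
theorem RC.L11 (c : RC g old p z v a sg Sa ν X C B Y Z1 Z2 hi Q d) {N i : ℕ} {σ : List ℕ} {j : ℕ}
    (hN1 : 2 * Y ≤ N + v + 1) (hN : N ≤ Z1 + Z2) (h : Wd g old N i σ j) :
    (σ = [] ∧ v = i ∧ Adj g v j ∧ v + j = N) ∨
    (σ = [] ∧ Y ≤ i ∧ Z1 ≤ j ∧ j ≠ Y ∧ Adj g i j ∧ i + j = N) ∨
    (v + sg + X + Z1 = N ∧ Adj g X Z1) := by
  have nm := c.hP.nm
  have hpsg := c.hI.psg
  obtain ⟨hz, hX, hC, hB1, hB2, hY, hZ1, hZ2, hv, hn, hv', hn'⟩ := nm
  have hlow : ∀ w, Adj g w X → X ≤ w → False := by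
    intro w hw h1
    rcases c.p3 hw with h7 | h7 <;> omega
  rcases c.cl c.gap (by omega) h with ⟨h1, h2, h3, h4, h5⟩ |
    ⟨x, x', h1, h2, h3, h4, h5, h6, h7, h8, h9⟩ |
    ⟨h1, h2, h3, h4, h5, h6⟩ | ⟨x, x', h1, h2, h3, h4, h5, h6, h7, h8, h9⟩
  · rcases h3 with h3 | h3 | h3
    · subst h3
      have := c.p2 h2
      omega
    · subst h3
      exact Or.inl ⟨h1, rfl, h2, h5⟩
    · rcases h4 with h4 | h4
      · subst h4
        have := c.predz' h2
        omega
      · have hi : Y ≤ i := by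
          by_contra hc
          rcases c.val5 h2.l h3 (by omega) with h6 | h6 | h6 | h6 | h6 | h6
          · subst h6
            have := c.sX h2
            omega
          · subst h6
            have := c.succC h2
            omega
          · subst h6
            have := c.succB h2
            omega
          · subst h6
            have := c.succZ1 h2
            omega
          · omega
          · omega
        have hj : Z1 ≤ j := by
          by_contra hc
          rcases c.val5 h2.r h4 (by omega) with h6 | h6 | h6 | h6 | h6 | h6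
          · subst h6
            exact hlow i h2 h3
          · subst h6
            have := c.predC h2
            omega
          · subst h6
            have := c.predB h2
            omega
          · omega
          · omega
          · omega
        refine Or.inr (Or.inl ⟨h1, hi, hj, ?_, h2, h5⟩)
        rintro rfl
        rcases c.predY h2 with h6 | h6 <;> omega
  · exfalso
    have hj : X ≤ j := by
      rcases h2 with h2 | h2
      · subst h2
        have h10 := c.predz' h7
        subst h10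
        obtain ⟨y, hy1, hy2⟩ := h8
        have := c.succB hy2
        omega
      · exact h2
    rcases h1 with h1 | h1 | h1
    · subst h1
      have h10 := c.p2 h5
      subst h10
      obtain ⟨y, hy1, hy2⟩ := h6
      rcases c.p3 hy2 with h11 | h11 <;> omega
    · rcases h9 with ⟨h9, h10, h11⟩ | h9
      · subst h1 h10
        obtain ⟨y, hy1, hy2⟩ := h8
        have hx : Y ≤ x' := by
          by_contra hc
          rcases c.val5 h7.l h3 (by omega) with h6 | h6 | h6 | h6 | h6 | h6
          · subst h6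
            have := c.sX h7
            omega
          · subst h6
            exact c.nvC h5
          · subst h6
            exact c.nvB h5
          · subst h6
            have := c.succZ1 h7
            have := c.succZ1 hy2
            omega
          · omega
          · omega
        have hj' : Z1 ≤ j := by
          by_contra hc
          rcases c.val5 h7.r hj (by omega) with h6 | h6 | h6 | h6 | h6 | h6
          · subst h6
            exact hlow x' h7 h3
          · subst h6
            have := c.predC h7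
            omega
          · subst h6
            have := c.predB h7
            omega
          · omega
          · omega
          · omega
        omega
      · omega
    · rcases h9 with ⟨-, -, h9⟩ | h9 <;> omega
  · obtain ⟨y, hy1, hy2⟩ := h6
    have := c.p2 h5
    have := c.p2 hy2
    omega
  · have hj : X ≤ j := by
      rcases h3 with h3 | h3
      · subst h3
        have h10 := c.predz' h7
        subst h10
        obtain ⟨y, hy1, hy2⟩ := h8
        have := c.succB hy2
        omega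
      · exact h3
    have h10 := c.p2 h6
    rcases h9 with ⟨h9, h11⟩ | h9
    · subst h9 h10
      obtain ⟨y, hy1, hy2⟩ := h8
      have h12 := c.sX hy2
      rcases c.val5 h7.r hj (by omega) with h6 | h6 | h6 | h6 | h6 | h6
      · subst h6
        exact absurd rfl (c.sX h7).1.ne
      · subst h6
        exact absurd h7 c.nXC
      · subst h6
        exact absurd h7 c.nXB
      · subst h6
        exact Or.inr (Or.inr ⟨by omega, h7⟩)
      · omega
      · omega
    · omega

/-- A value `y` with `v → y` at such a level: only the leak word remains. -/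
theorem RC.le11 (c : RC g old p z v a sg Sa ν X C B Y Z1 Z2 hi Q d) {y : ℕ} (hy : Adj g v y)
    (h1 : 2 * Y ≤ y + v + 1) (h2 : y + 1 < 2 * Y) : v + sg + X + Z1 = y ∧ Adj g X Z1 := by
  have nm := c.hP.nm
  obtain ⟨hz, hX, hC, hB1, hB2, hY, hZ1, hZ2, hv, hn, hv', hn'⟩ := nm
  obtain ⟨i, σ, j, ho⟩ := c.le hy.r (by omega) (by omega) (by omega)
  rcases c.L11 h1 (by omega) ho.wd with ⟨k1, k2, k3, k4⟩ | ⟨k1, k2, k3, k4, k5, k6⟩ | h
  · subst k1 k2
    have := wmax c.hgb ho.1 hy
    omega
  · omega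
  · exact h

/-- Step (11): the last down. -/
theorem RC.d6op (c : RC g old p z v a sg Sa ν X C B Y Z1 Z2 hi Q d) {i : ℕ} {σ : List ℕ} {j : ℕ}
    (ho : Op g old (Z1 + Z2) i σ j) : (i, σ, j) = (Z2, [], Z1) := by
  have nm := c.hP.nm
  have hpsg := c.hI.psg
  obtain ⟨hz, hX, hC, hB1, hB2, hY, hZ1, hZ2, hv, hn, hv', hn'⟩ := nm
  rcases c.L11 (by omega) (by omega) ho.wd with ⟨k1, k2, k3, k4⟩ | ⟨k1, k2, k3, k4, k5, k6⟩ | h
  · have := c.le11 k3 (by omega) (by omega)
    omega
  · have h1 := c.val5 k5.r (by omega) (by omega)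
    have h2 : j = Z1 ∧ i = Z2 := by omega
    obtain ⟨h3, h4⟩ := h2
    subst k1 h3 h4
    rfl
  · omega

theorem RC.wZZ (c : RC g old p z v a sg Sa ν X C B Y Z1 Z2 hi Q d) : Weak g Z2 [] Z1 := by
  obtain ⟨i, σ, j, ho⟩ := c.opdown (N := Z1 + Z2) (by tauto)
  have h := c.d6op ho
  simp only [Prod.mk.injEq] at h
  obtain ⟨rfl, rfl, rfl⟩ := h
  exact ho.1

/-- Successors of a run above `B` that are at most `Z1`. -/
theorem RC.succ_le (c : RC g old p z v a sg Sa ν X C B Y Z1 Z2 hi Q d) {i j : ℕ} (h : Adj g i j)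
    (hi : Z1 < i) (hj : j ≤ Z1) : j = Z1 := by
  have nm := c.hP.nm
  obtain ⟨hz, hX, hC, hB1, hB2, hY, hZ1, hZ2, hv, hn, hv', hn'⟩ := nm
  have h2 := c.succ_big h (by omega)
  rcases h2.eq_or_lt with h3 | h3
  · subst h3
    have := c.predz' h
    omega
  · have h4 := c.gap j h.r h3
    rcases c.val5 h.r h4 (by omega) with h5 | h5 | h5 | h5 | h5 | h5
    · subst h5
      rcases c.p3 h with h7 | h7 <;> omega
    · subst h5
      have := c.predC h
      omega
    · subst h5
      have := c.predB h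
      omega
    · exact h5
    · omega
    · omega

theorem RC.nXZ1 (c : RC g old p z v a sg Sa ν X C B Y Z1 Z2 hi Q d) : ¬ Adj g X Z1 := by
  intro h
  have nm := c.hP.nm
  obtain ⟨hz, hX, hC, hB1, hB2, hY, hZ1, hZ2, hv, hn, hv', hn'⟩ := nm
  obtain ⟨g1, g2, g3⟩ := c.hP.sep
  have hs := mkstrong c.hgb h (x := Z2) (by omega) (wadj c.hgb c.wZZ) (y := Y) (by omega)
    (wadj c.hgb c.wXY)
  obtain ⟨i, σ, j, ho⟩ := c.st hs (N := X + Z1) (by simp) (by omega) (by omega) (by omega)
  rcases c.L8 (by omega) (by omega) ho.wd with ⟨k1, k2, k3, k4, k5⟩ | ⟨k1, k2, k3, k4, k5, k6⟩ |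
    ⟨x, k1, k2, k3, k4, k5, k6, k7, k8, k9⟩
  · rcases c.le8 k3 (by omega) (by omega) with ⟨i', j', l1, l2, l3, l4⟩ |
      ⟨x, j', l1, l2, l3, l4, l5, l6⟩
    · omega
    · omega
  · subst k1
    have h1 := c.val5 k5.l k2 (by omega)
    have h2 := c.val5 k5.r (by omega) (by omega)
    have h3 : i = X ∧ j = Z1 := by omega
    obtain ⟨h4, h5⟩ := h3
    subst h4 h5
    exact not_weak_strong c.hgb ho.1 hs
  · have h1 := c.val5 k5.r k3 (by omega)
    have h2 := c.val5 k6.r (by omega) (by omega)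
    omega

theorem RC.nvZ1 (c : RC g old p z v a sg Sa ν X C B Y Z1 Z2 hi Q d) : ¬ Adj g v Z1 := by
  intro h
  have nm := c.hP.nm
  obtain ⟨hz, hX, hC, hB1, hB2, hY, hZ1, hZ2, hv, hn, hv', hn'⟩ := nm
  have hle : ∀ x, Adj g v x → x ≤ Z1 := by
    intro x hx
    by_contra hc
    exact c.nsv (mkstrong c.hgb h (x := Z2) (by omega) (wadj c.hgb c.wZZ) (y := x) (by omega) hx)
      (by omega) (by omega) (by omega)
  have hsv : ∀ x, Adj g v x → x = Z1 := by
    intro x hx
    have h1 := hle x hx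
    have h2 := c.noleak h (by omega) hx
    rcases c.val5 hx.r h2 (by omega) with h4 | h4 | h4 | h4 | h4 | h4
    · subst h4
      have := c.lkX hx h
      omega
    · subst h4
      exact absurd hx c.nvC
    · subst h4
      exact absurd hx c.nvB
    · exact h4
    · omega
    · omega
  refine succ_closed c.hgb (F := Q ∪ {B, C, Z1}) (B := Z1) ?_ ?_ v (Or.inl c.hI.Qv) c.hI.mv
  · rintro x (hx | rfl | rfl | rfl)
    · have := c.hI.Qle x hx
      omega
    · omega
    · omega
    · exact le_rfl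
  · rintro x (hx | rfl | rfl | rfl) y hy
    · by_cases hxv : x = v
      · subst hxv
        exact Or.inr (Or.inr (Or.inr (hsv y hy)))
      · exact Or.inl (c.hI.Qs x hx hxv y hy)
    · rw [c.succB hy]
      exact Or.inl c.hI.Qz
    · exact Or.inr (Or.inl (c.succC hy))
    · exact Or.inr (Or.inr (Or.inl (c.succZ1 hy)))

theorem RC.lpY (c : RC g old p z v a sg Sa ν X C B Y Z1 Z2 hi Q d) (h : Adj g Y Z1) {x : ℕ}
    (hx : Adj g Y x) : x = Z1 := by
  have nm := c.hP.nm
  obtain ⟨hz, hX, hC, hB1, hB2, hY, hZ1, hZ2, hv, hn, hv', hn'⟩ := nm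
  refine c.succ_le hx (by omega) ?_
  by_contra hc
  have hs := mkstrong c.hgb h (x := Z2) (by omega) (wadj c.hgb c.wZZ) (y := x) (by omega) hx
  obtain ⟨i, σ, j, ho⟩ := c.st hs (N := Y + Z1) (by simp) (by omega) (by omega) (by omega)
  rcases c.L11 (by omega) (by omega) ho.wd with ⟨k1, k2, k3, k4⟩ | ⟨k1, k2, k3, k4, k5, k6⟩ | h
  · exact c.nXZ1 (c.le11 k3 (by omega) (by omega)).2
  · have h2 : i = Y ∧ j = Z1 := by omega
    obtain ⟨h3, h4⟩ := h2
    subst k1 h3 h4
    exact not_weak_strong c.hgb ho.1 hs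
  · exact c.nXZ1 h.2

theorem RC.predZ1 (c : RC g old p z v a sg Sa ν X C B Y Z1 Z2 hi Q d) {i : ℕ} (h : Adj g i Z1) :
    i = Z2 ∨ i = Y := by
  have nm := c.hP.nm
  obtain ⟨hz, hX, hC, hB1, hB2, hY, hZ1, hZ2, hv, hn, hv', hn'⟩ := nm
  have h1 := wpre c.hgb c.wZZ h
  by_cases h2 : i ≤ z
  · rcases c.pred_old h (by omega) h2 with h3 | h3
    · subst h3
      have := c.p2 h
      omega
    · subst h3
      exact absurd h c.nvZ1
  · have h3 := c.gap i h.l (by omega)
    rcases c.val5 h.l h3 (by omega) with h4 | h4 | h4 | h4 | h4 | h4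
    · subst h4
      exact absurd h c.nXZ1
    · subst h4
      have := c.succC h
      omega
    · subst h4
      have := c.succB h
      omega
    · subst h4
      have := c.succZ1 h
      omega
    · exact Or.inr h4
    · exact Or.inl h4

theorem RC.succX (c : RC g old p z v a sg Sa ν X C B Y Z1 Z2 hi Q d) {j : ℕ} (h : Adj g X j) :
    j = Y := by
  have nm := c.hP.nm
  obtain ⟨hz, hX, hC, hB1, hB2, hY, hZ1, hZ2, hv, hn, hv', hn'⟩ := nm
  obtain ⟨h1, h2⟩ := c.sX h
  rcases c.val5 h.r h1.le (by omega) with h4 | h4 | h4 | h4 | h4 | h4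
  · omega
  · subst h4
    exact absurd h c.nXC
  · subst h4
    exact absurd h c.nXB
  · subst h4
    exact absurd h c.nXZ1
  · exact h4
  · omega

theorem RC.lkY (c : RC g old p z v a sg Sa ν X C B Y Z1 Z2 hi Q d) (h : Adj g v Y) {x : ℕ}
    (hx : Adj g v x) : x = Y := by
  have nm := c.hP.nm
  obtain ⟨hz, hX, hC, hB1, hB2, hY, hZ1, hZ2, hv, hn, hv', hn'⟩ := nm
  have h1 := c.lkY' h hx
  have h2 := c.noleak h (by omega) hx
  rcases c.val5 hx.r h2 (by omega) with h4 | h4 | h4 | h4 | h4 | h4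
  · subst h4
    have := c.lkX hx h
    omega
  · subst h4
    exact absurd hx c.nvC
  · subst h4
    exact absurd hx c.nvB
  · subst h4
    exact absurd hx c.nvZ1
  · exact h4
  · omega

theorem RC.out (c : RC g old p z v a sg Sa ν X C B Y Z1 Z2 hi Q d) :
    GRo g p z v X C B Y Z1 Z2 where
  only y hy h1 h2 := c.val5 hy (c.gap y hy h1) h2
  p1 := c.p1
  p2 _ h := c.p2 h
  p3 _ h := c.p3 h
  X1 := wadj c.hgb c.wXY
  X2 _ h := c.succX h
  X3 _ h := c.predY h
  lkX h _ hx := c.lkX h hx
  lkY h _ hx := c.lkY h hx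
  Bz := ⟨wadj c.hgb c.wBz, fun _ h => c.succB h, fun _ h => c.predz' h⟩
  CB := ⟨wadj c.hgb c.wCB, fun _ h => c.succC h, fun _ h => c.predB h⟩
  ZC := ⟨wadj c.hgb c.wZC, fun _ h => c.succZ1 h, fun _ h => c.predC h⟩
  q1 := wadj c.hgb c.wZZ
  q2 x h := by
    have nm := c.hP.nm
    obtain ⟨hz, hX, hC, hB1, hB2, hY, hZ1, hZ2, hv, hn, hv', hn'⟩ := nm
    exact c.succ_le h (by omega) (wmax c.hgb c.wZZ h)
  q3 _ h := c.predZ1 h
  lp h _ hx := c.lpY h hx

end

end Pool.Agent.CF2
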