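import Pool.Agent.CF2.Tools

/-!
# CF2: interfaces of the stage lemmas

`p` is the last run of the main chain, `z` the largest run of the pending chain (`z = p + 2^19`),
`v` its creation mark.  In state N the pending chain runs `v → ... → z`, in state R it runs
`z → a → ... → v`.
-/

namespace Pool.Agent.CF2

/-- State N, seen from outside.  `old i j`: `i → j` is a link of one of the two chains. -/
structure NI (g : ℕ → ℕ) (old : ℕ → ℕ → Prop) (p z v Bd : ℕ) (Q : Set ℕ) : Prop where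
  vp : v < p
  pz : p < z
  mp : p ∈ Set.range g
  mz : z ∈ Set.range g
  mv : v ∈ Set.range g
  g0 : g 0 ≤ z
  /-- links into old runs -/
  toj : ∀ i j, Adj g i j → j ≤ z → j = v ∨ old i j
  /-- links out of old runs -/
  fromi : ∀ i j, Adj g i j → i ≤ z → i = p ∨ i = z ∨ old i j
  oldi : ∀ i j, old i j → i < z ∧ i ≠ p
  oldj : ∀ i j, old i j → j ≤ z ∧ j ≠ v
  olds : ∀ i j, old i j → ¬ Strong g i [] j
  once : ∀ s t, g s = p → g t = p → s = t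
  oncez : (∀ s t, g s = v → g t = v → s = t) → ∀ s t, g s = z → g t = z → s = t
  Qv : v ∈ Q
  Qz : z ∈ Q
  Qle : ∀ x ∈ Q, x ≤ z
  Qg : g 0 ∉ Q
  Qs : ∀ x ∈ Q, x ≠ z → ∀ y, Adj g x y → y ∈ Q
  Qp : ∀ x ∈ Q, x ≠ v → ∀ y, Adj g y x → y ∈ Q
  /-- bispecial words with an inner run, of level below `Bd` -/
  forms : ∀ i σ j, σ ≠ [] → Bi g i σ j → i + σ.sum + j < Bd →
    (∀ x ∈ σ, z < x) ∧ (i = p ∨ i = z ∨ z < i) ∧ (j = v ∨ z < j)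

/-- Form A of the inner words in state R: only new runs inside. -/
def FA (p z v i : ℕ) (σ : List ℕ) (j : ℕ) : Prop :=
  (∀ x ∈ σ, z < x) ∧ (i = p ∨ i = v ∨ z < i) ∧ (j = z ∨ z < j)

/-- Form B of the inner words in state R: the pending end `v` leaks into the main chain at some run
`m`, the word starts `v → m → ... → p` (runs `m, ..., p` of sum `sg`), followed by new runs `σ'`. -/
def FB (g : ℕ → ℕ) (p z v sg i : ℕ) (σ : List ℕ) (j : ℕ) : Prop :=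
  i = v ∧ (∃ m, Adj g v m ∧ m < z) ∧ (j = z ∨ z < j) ∧
    ∃ σ', (∀ x ∈ σ', z < x) ∧ σ.sum = sg + σ'.sum ∧
      (σ' = [] → Adj g p j ∧ ∃ y, j < y ∧ Adj g p y) ∧
      (∀ x r, σ' = x :: r → Adj g p x) ∧
      (∀ x r, σ' = r ++ [x] → Adj g x j ∧ ∃ y, j < y ∧ Adj g x y)

/-- State R, seen from outside.  `a` is the run after `z`, `Sa` the sum of the pending chain without
`z`, `sg` the sum of the main runs from the leak target of `v` on. -/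
structure RI (g : ℕ → ℕ) (old : ℕ → ℕ → Prop) (p z v a sg Sa : ℕ) (Q : Set ℕ) : Prop where
  vp : v < p
  pz : p < z
  va : v ≤ a
  az : a < z
  psg : p ≤ sg
  mp : p ∈ Set.range g
  mz : z ∈ Set.range g
  mv : v ∈ Set.range g
  g0 : g 0 < z
  toj : ∀ i j, Adj g i j → j < z → old i j ∨ (i = v ∧ j ≤ p) ∨ (i = p ∧ j = a)
  fromi : ∀ i j, Adj g i j → i ≤ z → i = p ∨ i = v ∨ old i j
  oldi : ∀ i j, old i j → i ≤ z ∧ i ≠ p ∧ i ≠ v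
  oldj : ∀ i j, old i j → j < z
  olds : ∀ i j, old i j → ¬ Strong g i [] j
  /-- a leak of `v` into the main chain is the only way out of `v`, and it is neither weak nor
  strong -/
  leak1 : ∀ m, Adj g v m → m < z → ∀ x, Adj g v x → x = m
  leakw : ∀ m, Adj g v m → m < z → ¬ Weak g v [] m
  /-- the leftover `p → a` -/
  lp1 : Adj g p a → ∀ x, Adj g p x → x = a
  lpw : Adj g p a → ¬ Weak g p [] a
  once : (∀ m, Adj g v m → z ≤ m) → ∀ s t, g s = p → g t = p → s = t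
  Qv : v ∈ Q
  Qz : z ∈ Q
  Qle : ∀ x ∈ Q, x ≤ z
  Qg : g 0 ∉ Q
  Qs : ∀ x ∈ Q, x ≠ v → ∀ y, Adj g x y → y ∈ Q
  Qp : ∀ x ∈ Q, x ≠ z → ∀ y, Adj g y x → y ∈ Q ∨ (y = p ∧ x = a)
  forms1 : ∀ i σ j, σ ≠ [] → Bi g i σ j → i + σ.sum + j < p + Sa + v →
    FA p z v i σ j ∨ FB g p z v sg i σ j
  forms2 : ¬ Adj g p a → ¬ Adj g p z → ¬ Adj g v z →
    ∀ i σ j, σ ≠ [] → Bi g i σ j → i + σ.sum + j < 2 * z + Sa + v →
    FA p z v i σ j ∨ FB g p z v sg i σ j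

/-- The defect of a window stage. -/
structure DW (d : ℕ → ℤ) (p z G : ℕ) : Prop where
  up : ∀ i, 1 ≤ i → i ≤ 20 → d (G + 2 ^ i) = 1
  dp : d (p + (G + 2)) = -1
  dz : d (z + (G + 4)) = -1
  dx : ∀ i, 1 ≤ i → i ≤ 18 → d (2 * G + 2 ^ i + 2 ^ (i + 2)) = -1
  rest : ∀ N, z < N → N ≤ 2 * G + 2 ^ 18 + 2 ^ 20 → (∀ i, 1 ≤ i → i ≤ 20 → N ≠ G + 2 ^ i) →
    N ≠ p + (G + 2) → N ≠ z + (G + 4) →
    (∀ i, 1 ≤ i → i ≤ 18 → N ≠ 2 * G + 2 ^ i + 2 ^ (i + 2)) → d N = 0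

/-- Result of a window stage in state N. -/
structure WNo (g : ℕ → ℕ) (p z G : ℕ) : Prop where
  only : ∀ y ∈ Set.range g, z < y → y ≤ G + 2 ^ 20 → ∃ i, 1 ≤ i ∧ i ≤ 20 ∧ y = G + 2 ^ i
  px : Uq g p (G + 2)
  zx : Uq g z (G + 4)
  xx : ∀ i, 1 ≤ i → i ≤ 18 → Uq g (G + 2 ^ i) (G + 2 ^ (i + 2))

/-- Result of a window stage in state R. -/
structure WRo (g : ℕ → ℕ) (p z v G : ℕ) : Prop where
  only : ∀ y ∈ Set.range g, z < y → y ≤ G + 2 ^ 20 → ∃ i, 1 ≤ i ∧ i ≤ 20 ∧ y = G + 2 ^ i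
  p1 : Adj g p (G + 2)
  p2 : ∀ x, Adj g p x → x = G + 2
  p3 : ∀ x, Adj g x (G + 2) → x = p ∨ x = v
  o1 : ∀ n, 1 ≤ n → n ≤ 17 → n % 2 = 1 → Adj g (G + 2 ^ n) (G + 2 ^ (n + 2))
  o2 : ∀ n, 1 ≤ n → n ≤ 17 → n % 2 = 1 → ∀ x, Adj g (G + 2 ^ n) x → x = G + 2 ^ (n + 2)
  o3 : ∀ n, 1 ≤ n → n ≤ 17 → n % 2 = 1 → ∀ x, Adj g x (G + 2 ^ (n + 2)) →
    x = G + 2 ^ n ∨ x = v
  lk : ∀ n, 1 ≤ n → n ≤ 19 → n % 2 = 1 → Adj g v (G + 2 ^ n) → ∀ x, Adj g v x → x = G + 2 ^ n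
  ze : Uq g (G + 4) z
  ev : ∀ n, 2 ≤ n → n ≤ 16 → n % 2 = 0 → Uq g (G + 2 ^ (n + 2)) (G + 2 ^ n)
  q1 : Adj g (G + 2 ^ 20) (G + 2 ^ 18)
  q2 : ∀ x, Adj g (G + 2 ^ 20) x → x = G + 2 ^ 18
  q3 : ∀ x, Adj g x (G + 2 ^ 18) → x = G + 2 ^ 20 ∨ x = G + 2 ^ 19
  lp : Adj g (G + 2 ^ 19) (G + 2 ^ 18) → ∀ x, Adj g (G + 2 ^ 19) x → x = G + 2 ^ 18

/-- The numbers of a gadget stage. -/
structure GP (p z v ν X C B Y Z1 Z2 : ℕ) : Prop where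
  hz : z = p + 2 ^ 19
  hX : X = p + z + 2 ^ 22
  hC : C = X + 2 * ν
  hB1 : 10 * B ≤ 10 * X + 7 * p
  hB2 : 10 * X + 7 * p ≤ 10 * B + 70
  hY : Y = B + ν
  hZ1 : Z1 + 1 = Y
  hZ2 : Z2 = Y + 2 ^ 19
  hv : 2 ^ 26 ≤ v
  hn : 2 ^ 26 ≤ ν
  hv' : 50 * v ≤ p
  hn' : 50 * ν ≤ p
  g1 : v = ν ∨ v + 2 ^ 24 ≤ ν ∨ ν + 2 ^ 24 ≤ v
  g2 : v + 2 ^ 24 ≤ 2 * ν ∨ 2 * ν + 2 ^ 24 ≤ v
  g3 : ν + 2 ^ 24 ≤ 2 * v ∨ 2 * v + 2 ^ 24 ≤ ν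

/-- The defect of a gadget stage. -/
structure DG (d : ℕ → ℤ) (p z X C B Y Z1 Z2 : ℕ) : Prop where
  up : ∀ N, N = X ∨ N = C ∨ N = B ∨ N = Z1 ∨ N = Y ∨ N = Z2 → d N = 1
  dn : ∀ N, N = p + X ∨ N = z + B ∨ N = X + Y ∨ N = B + C ∨ N = C + Z1 ∨ N = Z1 + Z2 → d N = -1
  rest : ∀ N, z < N → N ≤ Z1 + Z2 →
    ¬ (N = X ∨ N = C ∨ N = B ∨ N = Z1 ∨ N = Y ∨ N = Z2) →
    ¬ (N = p + X ∨ N = z + B ∨ N = X + Y ∨ N = B + C ∨ N = C + Z1 ∨ N = Z1 + Z2) → d N = 0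

/-- First half of the gadget stage in state N (up to the second down). -/
structure GNc (g : ℕ → ℕ) (p z v ν X C B Y Z1 Z2 : ℕ) : Prop where
  gap : ∀ y ∈ Set.range g, z < y → X ≤ y
  pv : ∀ x, Adj g x v → X ≤ x
  mX : X ∈ Set.range g
  mC : C ∈ Set.range g
  mB : B ∈ Set.range g
  mZ1 : Z1 ∈ Set.range g
  mZ2 : Z2 ∈ Set.range g
  mY : Y ∈ Set.range g ∨ (v = ν ∧ Strong g B [] v)
  bl : ∀ y ∈ Set.range g, X ≤ y → y < p + X →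
    (y = X ∨ y = C ∨ y = B ∨ y = Z1 ∨ y = Y ∨ y = Z2) ∨
    ∃ u, (u = X ∨ u = C ∨ u = B ∨ u = Z1 ∨ u = Y ∨ u = Z2) ∧ y = u + v ∧ Weak g u [] v
  pX : Uq g p X
  D1 : p + X ∉ Set.range g
  zB : Weak g z [] B
  Bz : ∀ x, Adj g x B → x = z
  D2 : z + B ∉ Set.range g

/-- Result KEEP of a gadget stage in state N. -/
structure GNk (g : ℕ → ℕ) (p z X C B Y Z1 Z2 : ℕ) : Prop where
  only : ∀ y ∈ Set.range g, z < y → y ≤ Z2 →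
    y = X ∨ y = C ∨ y = B ∨ y = Z1 ∨ y = Y ∨ y = Z2
  pX : Uq g p X
  XY : Uq g X Y
  zB : Uq g z B
  BC : Uq g B C
  CZ : Uq g C Z1
  ZZ : Uq g Z1 Z2

/-- Result SWAP of a gadget stage in state N: `p → X → v ... z → B → S → Y` with `S = X + v`, and
the new pending chain `C, Z1, Z2` in one of the two directions. -/
structure GNs (g : ℕ → ℕ) (p z v ν X C B Y Z1 Z2 : ℕ) : Prop where
  vn : v = ν
  only : ∀ y ∈ Set.range g, z < y → y ≤ Z2 →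
    y = X ∨ y = C ∨ y = B ∨ y = Z1 ∨ y = Y ∨ y = Z2 ∨ y = X + v
  pX : Uq g p X
  Xv : Uq g X v
  zB : Uq g z B
  SY : Uq g (X + v) Y
  dir : (Uq g B (X + v) ∧ Uq g C Z1 ∧ Uq g Z1 Z2) ∨
    (Adj g B (X + v) ∧ (∀ x, Adj g B x → x = X + v) ∧ (∀ x, Adj g x (X + v) → x = B ∨ x = C) ∧
      (Adj g C (X + v) → ∀ x, Adj g C x → x = X + v) ∧
      Uq g Z1 C ∧ Adj g Z2 Z1 ∧ (∀ x, Adj g Z2 x → x = Z1) ∧
      (∀ x, Adj g x Z1 → x = Z2 ∨ x = Y) ∧ (Adj g Y Z1 → ∀ x, Adj g Y x → x = Z1))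

/-- Result of a gadget stage in state R. -/
structure GRo (g : ℕ → ℕ) (p z v X C B Y Z1 Z2 : ℕ) : Prop where
  only : ∀ y ∈ Set.range g, z < y → y ≤ Z2 →
    y = X ∨ y = C ∨ y = B ∨ y = Z1 ∨ y = Y ∨ y = Z2
  p1 : Adj g p X
  p2 : ∀ x, Adj g p x → x = X
  p3 : ∀ x, Adj g x X → x = p ∨ x = v
  X1 : Adj g X Y
  X2 : ∀ x, Adj g X x → x = Y
  X3 : ∀ x, Adj g x Y → x = X ∨ x = v
  lkX : Adj g v X → ∀ x, Adj g v x → x = X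
  lkY : Adj g v Y → ∀ x, Adj g v x → x = Y
  Bz : Uq g B z
  CB : Uq g C B
  ZC : Uq g Z1 C
  q1 : Adj g Z2 Z1
  q2 : ∀ x, Adj g Z2 x → x = Z1
  q3 : ∀ x, Adj g x Z1 → x = Z2 ∨ x = Y
  lp : Adj g Y Z1 → ∀ x, Adj g Y x → x = Z1

end Pool.Agent.CF2
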