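import Pool.Agent.CF2.If

/-!
# CF2: tools for state N
-/

namespace Pool.Agent.CF2

variable {g : ℕ → ℕ} {old : ℕ → ℕ → Prop} {d : ℕ → ℤ} {p z v Bd : ℕ} {Q : Set ℕ}

theorem Bi.left_mem {i σ j} (h : Bi g i σ j) : i ∈ Set.range g := by
  obtain ⟨t, h1, _⟩ := h.l1
  exact ⟨t, h1⟩

theorem Bi.right_mem {i σ j} (h : Bi g i σ j) : j ∈ Set.range g := by
  obtain ⟨t, _, h1⟩ := h.r1
  exact ⟨_, h1⟩

theorem Adj.left {a b} (h : Adj g a b) : a ∈ Set.range g := by
  obtain ⟨t, h1, _⟩ := h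
  exact ⟨t, h1⟩

theorem Adj.right {a b} (h : Adj g a b) : b ∈ Set.range g := by
  obtain ⟨t, _, h1⟩ := h
  exact ⟨_, h1⟩

/-- The first and the last inner run of a word with inner runs. -/
theorem Bi.inner {i σ j} (h : Bi g i σ j) (hσ : σ ≠ []) :
    ∃ x w, x ∈ σ ∧ w ∈ σ ∧ x ≤ σ.sum ∧ w ≤ σ.sum ∧ (Adj g i x ∧ ∃ y, i < y ∧ Adj g y x) ∧
      (Adj g w j ∧ ∃ y, j < y ∧ Adj g w y) ∧ (x = w ∧ σ.sum = x ∨ x + w ≤ σ.sum) := by
  obtain ⟨x, r, rfl⟩ := List.exists_cons_of_ne_nil hσ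
  have h1 := h.head
  rcases List.eq_nil_or_concat (x :: r) with h2 | ⟨r', w, h2⟩
  · simp at h2
  · rw [List.concat_eq_append] at h2
    have h3 : Bi g i (r' ++ [w]) j := by rw [← h2]; exact h
    have h4 := h3.last
    refine ⟨x, w, by simp, by rw [h2]; simp, by simp, ?_, h1, h4, ?_⟩
    · rw [h2]; simp
    · cases r with
      | nil =>
        left
        have := congrArg List.getLast? h2
        exact ⟨by simpa using this, by simp⟩
      | cons y r =>
        right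
        cases r' with
        | nil => simp at h2
        | cons x' r' =>
          simp only [List.cons_append, List.cons.injEq] at h2
          obtain ⟨rfl, h2⟩ := h2
          rw [List.sum_cons, h2]
          simp

/-- What is known of a word that matters in state N, outside of the old links. -/
theorem NI.cand (hI : NI g old p z v Bd Q) {i σ j} (h : Bi g i σ j) (hN : i + σ.sum + j < Bd)
    (h0 : σ = [] → Adj g i j ∧ ¬ old i j) :
    (∀ x ∈ σ, z < x) ∧ (i = p ∨ i = z ∨ z < i) ∧ (j = v ∨ z < j) := by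
  by_cases hσ : σ = []
  · obtain ⟨h1, h2⟩ := h0 hσ
    refine ⟨by simp [hσ], ?_, ?_⟩
    · rcases Nat.lt_or_ge z i with h3 | h3
      · exact Or.inr (Or.inr h3)
      · rcases hI.fromi i j h1 h3 with h4 | h4 | h4
        · exact Or.inl h4
        · exact Or.inr (Or.inl h4)
        · exact absurd h4 h2
    · rcases Nat.lt_or_ge z j with h3 | h3
      · exact Or.inr h3
      · rcases hI.toj i j h1 h3 with h4 | h4
        · exact Or.inl h4
        · exact absurd h4 h2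
  · exact hI.forms i σ j hσ h hN

/-- The inner part of `NI.word`. -/
def Inn (g : ℕ → ℕ) (z N i j : ℕ) : Prop :=
  ∃ S x w, i + S + j = N ∧ x ∈ Set.range g ∧ z < x ∧ w ∈ Set.range g ∧ z < w ∧ x ≤ S ∧ w ≤ S ∧
    (Adj g i x ∧ ∃ y, i < y ∧ Adj g y x) ∧ (Adj g w j ∧ ∃ y, j < y ∧ Adj g w y) ∧
    (x = w ∧ S = x ∨ x + w ≤ S)

theorem NI.word (hI : NI g old p z v Bd Q) {i σ j N} (h : Bi g i σ j) (hN : i + σ.sum + j = N)
    (hlt : N < Bd) (h0 : σ = [] → Adj g i j ∧ ¬ old i j) :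
    (i = p ∨ i = z ∨ z < i) ∧ (j = v ∨ z < j) ∧ i ∈ Set.range g ∧ j ∈ Set.range g ∧
      ((σ = [] ∧ i + j = N ∧ Adj g i j) ∨ Inn g z N i j) := by
  obtain ⟨h1, h2, h3⟩ := hI.cand h (by omega) h0
  refine ⟨h2, h3, h.left_mem, h.right_mem, ?_⟩
  by_cases hσ : σ = []
  · left
    subst hσ
    exact ⟨rfl, by simpa using hN, (h0 rfl).1⟩
  · right
    obtain ⟨x, w, hx, hw, h4, h5, h6, h7, h8⟩ := h.inner hσ
    exact ⟨σ.sum, x, w, hN, h.mem x hx, h1 x hx, h.mem w hw, h1 w hw, h4, h5, h6, h7, h8⟩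

/-- The open words of state N. -/
theorem NI.op (hI : NI g old p z v Bd Q) (hgb : GB g) {i σ j N} (ho : Op g old N i σ j)
    (hlt : N < Bd) :
    (i = p ∨ i = z ∨ z < i) ∧ (j = v ∨ z < j) ∧ i ∈ Set.range g ∧ j ∈ Set.range g ∧
      ((σ = [] ∧ i + j = N ∧ Adj g i j ∧ (∀ x, Adj g x j → x ≤ i) ∧ ∀ x, Adj g i x → x ≤ j) ∨
        Inn g z N i j) := by
  obtain ⟨hw, hN, hold⟩ := ho
  have h0 : σ = [] → Adj g i j ∧ ¬ old i j := by
    intro hσ
    subst hσ
    refine ⟨((weak_iff hgb).1 hw).1, fun h => hold ⟨rfl, h⟩⟩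
  obtain ⟨h1, h2, h3, h4, h5⟩ := hI.word hw.bi hN hlt h0
  refine ⟨h1, h2, h3, h4, ?_⟩
  rcases h5 with ⟨rfl, h6, h7⟩ | h6
  · left
    exact ⟨rfl, h6, (weak_iff hgb).1 hw⟩
  · exact Or.inr h6

/-- The strong words of state N. -/
theorem NI.st (hI : NI g old p z v Bd Q) (hgb : GB g) {i σ j N} (hs : Strong g i σ j)
    (hN : i + σ.sum + j = N) (hlt : N < Bd) :
    (i = p ∨ i = z ∨ z < i) ∧ (j = v ∨ z < j) ∧ i ∈ Set.range g ∧ j ∈ Set.range g ∧
      ((σ = [] ∧ i + j = N ∧ Adj g i j ∧ (∃ x, i < x ∧ Adj g x j) ∧ ∃ x, j < x ∧ Adj g i x) ∨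
        Inn g z N i j) := by
  have h0 : σ = [] → Adj g i j ∧ ¬ old i j := by
    intro hσ
    subst hσ
    refine ⟨((strong_iff hgb).1 hs).1, fun h => hI.olds i j h hs⟩
  obtain ⟨h1, h2, h3, h4, h5⟩ := hI.word hs.bi hN hlt h0
  refine ⟨h1, h2, h3, h4, ?_⟩
  rcases h5 with ⟨rfl, h6, h7⟩ | h6
  · left
    exact ⟨rfl, h6, (strong_iff hgb).1 hs⟩
  · exact Or.inr h6

/-- A two-run weak word which is not an old link is open. -/
theorem op_of_weak {i j N : ℕ} (hw : Weak g i [] j) (hN : i + j = N) (ho : ¬ old i j) :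
    Op g old N i [] j :=
  ⟨hw, by simpa using hN, fun h => ho h.2⟩

theorem NI.old_pv (hI : NI g old p z v Bd Q) (j : ℕ) : ¬ old p j := fun h => (hI.oldi _ _ h).2 rfl

theorem NI.old_z (hI : NI g old p z v Bd Q) (j : ℕ) : ¬ old z j := fun h => by
  have := (hI.oldi _ _ h).1
  omega

theorem NI.old_v (hI : NI g old p z v Bd Q) (i : ℕ) : ¬ old i v := fun h => (hI.oldj _ _ h).2 rfl

theorem NI.old_big (hI : NI g old p z v Bd Q) {i j : ℕ} (h : z < i ∨ z < j) : ¬ old i j := fun h1 => by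
  have := (hI.oldi _ _ h1).1
  have := (hI.oldj _ _ h1).1
  omega

/-- A place seen only once has at most one successor. -/
theorem succ_of_once {a b c : ℕ} (h : ∀ s t, g s = a → g t = a → s = t) (h1 : Adj g a b)
    (h2 : Adj g a c) : b = c := by
  obtain ⟨s, h3, h4⟩ := h1
  obtain ⟨t, h5, h6⟩ := h2
  rw [h s t h3 h5] at h4
  rw [← h4, h6]

/-- Being seen once goes along unique links. -/
theorem once_of_uq {a b : ℕ} (h : ∀ s t, g s = a → g t = a → s = t) (h1 : Uq g a b) (h0 : g 0 ≠ b) :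
    ∀ s t, g s = b → g t = b → s = t := by
  intro s t hs ht
  have hs0 : s ≠ 0 := by rintro rfl; exact h0 hs
  have ht0 : t ≠ 0 := by rintro rfl; exact h0 ht
  have e1 := h1.inn (g (s - 1)) ⟨s - 1, rfl, by rw [Nat.sub_add_cancel (by omega)]; exact hs⟩
  have e2 := h1.inn (g (t - 1)) ⟨t - 1, rfl, by rw [Nat.sub_add_cancel (by omega)]; exact ht⟩
  have := h _ _ e1 e2
  omega

/-- The predecessors of `v` among the old runs. -/
theorem NI.pred_v (hI : NI g old p z v Bd Q) {x : ℕ} (h : Adj g x v) : x = p ∨ x = z ∨ z < x := by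
  rcases Nat.lt_or_ge z x with h3 | h3
  · exact Or.inr (Or.inr h3)
  · rcases hI.fromi x v h h3 with h4 | h4 | h4
    · exact Or.inl h4
    · exact Or.inr (Or.inl h4)
    · exact absurd h4 (hI.old_v x)

/-- The successors of `p` and `z`. -/
theorem NI.succ_p (hI : NI g old p z v Bd Q) {x : ℕ} (h : Adj g p x) : x = v ∨ z < x := by
  rcases Nat.lt_or_ge z x with h3 | h3
  · exact Or.inr h3
  · rcases hI.toj p x h h3 with h4 | h4
    · exact Or.inl h4
    · exact absurd h4 (hI.old_pv x)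

theorem NI.succ_z (hI : NI g old p z v Bd Q) {x : ℕ} (h : Adj g z x) : x = v ∨ z < x := by
  rcases Nat.lt_or_ge z x with h3 | h3
  · exact Or.inr h3
  · rcases hI.toj z x h h3 with h4 | h4
    · exact Or.inl h4
    · exact absurd h4 (hI.old_z x)

/-- Some successor of `z` is larger than `v`. -/
theorem NI.z_big (hI : NI g old p z v Bd Q) (hgb : GB g) : ∃ j, z < j ∧ Adj g z j := by
  by_contra hno
  push Not at hno
  have hF : ∀ x ∈ Q, ∀ y, Adj g x y → y ∈ Q := by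
    intro x hx y hy
    by_cases hxz : x = z
    · subst hxz
      rcases hI.succ_z hy with h1 | h1
      · rw [h1]; exact hI.Qv
      · exact absurd hy (hno y h1)
    · exact hI.Qs x hx hxz y hy
  exact succ_closed hgb hI.Qle hF v hI.Qv hI.mv

/-- If `z` is a predecessor of `v`, then it is not the only one. -/
theorem NI.z_only (hI : NI g old p z v Bd Q) (h : ∀ x, Adj g x v → x ∈ Q) : False := by
  have hF : ∀ x ∈ Q, ∀ y, Adj g y x → y ∈ Q := by
    intro x hx y hy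
    by_cases hxv : x = v
    · subst hxv
      exact h y hy
    · exact hI.Qp x hx hxv y hy
  exact pred_closed hI.Qg hF v hI.Qv hI.mv

end Pool.Agent.CF2
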