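import Pool.Agent.CF2.Asm
import Pool.Agent.CF2.Bas

/-!
# CF2: the level equation relative to a state
-/

namespace Pool.Agent.CF2

/-- The links of a list, as pairs with sum `N`. -/
def rp (L : List ℕ) (N : ℕ) : Set (ℕ × ℕ) := {w | [w.1, w.2] <:+: L ∧ w.1 + w.2 = N}

theorem rp_nil (N : ℕ) : rp [] N = ∅ := by
  rw [Set.eq_empty_iff_forall_notMem]
  rintro ⟨i, j⟩ ⟨h, -⟩
  simpa using infix_left h

theorem rp_single (a N : ℕ) : rp [a] N = ∅ := by
  rw [Set.eq_empty_iff_forall_notMem]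
  rintro ⟨i, j⟩ ⟨h, -⟩
  have := h.length_le
  simp at this

theorem rel_infix_cons {i j a b : ℕ} {L : List ℕ} :
    [i, j] <:+: a :: b :: L ↔ (i = a ∧ j = b) ∨ [i, j] <:+: b :: L := by
  rw [List.infix_cons_iff]
  constructor
  · rintro (h | h)
    · left
      rw [List.cons_prefix_cons, List.cons_prefix_cons] at h
      exact ⟨h.1, h.2.1⟩
    · exact Or.inr h
  · rintro (⟨rfl, rfl⟩ | h)
    · left
      exact ⟨L, rfl⟩
    · exact Or.inr h

theorem rp_finite (L : List ℕ) (N : ℕ) : (rp L N).Finite := by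
  refine ((Set.finite_le_nat N).prod (Set.finite_le_nat N)).subset ?_
  rintro ⟨i, j⟩ ⟨-, h⟩
  simp only at h
  exact ⟨show i ≤ N by omega, show j ≤ N by omega⟩

theorem rp_card : ∀ (L : List ℕ) (N : ℕ), L.Nodup → (rp L N).ncard = (lv L).count N
  | [], N, _ => by rw [rp_nil]; simp [lv]
  | [a], N, _ => by rw [rp_single]; simp [lv]
  | a :: b :: L, N, h => by
    have ih := rp_card (b :: L) N (List.nodup_cons.mp h).2
    have e1 : lv (a :: b :: L) = (a + b) :: lv (b :: L) := by simp [lv]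
    rw [e1, List.count_cons]
    have ha : a ∉ b :: L := (List.nodup_cons.mp h).1
    by_cases hN : a + b = N
    · have e2 : rp (a :: b :: L) N = insert (a, b) (rp (b :: L) N) := by
        ext ⟨i, j⟩
        simp only [rp, Set.mem_ofPred_eq, Set.mem_insert_iff, Prod.mk.injEq, rel_infix_cons]
        constructor
        · rintro ⟨h1 | h1, h2⟩
          · exact Or.inl h1
          · exact Or.inr ⟨h1, h2⟩
        · rintro (⟨rfl, rfl⟩ | ⟨h1, h2⟩)
          · exact ⟨Or.inl ⟨rfl, rfl⟩, hN⟩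
          · exact ⟨Or.inr h1, h2⟩
      have e3 : (a, b) ∉ rp (b :: L) N := by
        rintro ⟨h1, -⟩
        exact ha (infix_left h1)
      rw [e2, Set.ncard_insert_of_notMem e3 (rp_finite _ _), ih]
      simp [hN]
    · have e2 : rp (a :: b :: L) N = rp (b :: L) N := by
        ext ⟨i, j⟩
        simp only [rp, Set.mem_ofPred_eq, rel_infix_cons]
        constructor
        · rintro ⟨⟨rfl, rfl⟩ | h1, h2⟩
          · exact absurd h2 hN
          · exact ⟨h1, h2⟩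
        · rintro ⟨h1, h2⟩
          exact ⟨Or.inr h1, h2⟩
      rw [e2, ih]
      simp [hN]

/-- The weak words that are old links. -/
theorem ws_old {g : ℕ → ℕ} (hpos : ∀ t, 0 < g t) {old : ℕ → ℕ → Prop}
    (hw : ∀ i j, old i j → Weak g i [] j) (N : ℕ) :
    (WS g N).ncard = (OW g old N).ncard + {w : ℕ × ℕ | old w.1 w.2 ∧ w.1 + w.2 = N}.ncard := by
  have e1 : WS g N = OW g old N ∪
      (fun w : ℕ × ℕ => (w.1, ([] : List ℕ), w.2)) '' {w : ℕ × ℕ | old w.1 w.2 ∧ w.1 + w.2 = N} := by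
    ext ⟨i, σ, j⟩
    constructor
    · rintro ⟨h1, h2⟩
      simp only at h1 h2
      by_cases h : σ = [] ∧ old i j
      · right
        obtain ⟨rfl, h⟩ := h
        exact ⟨(i, j), ⟨h, by simpa using h2⟩, rfl⟩
      · left
        exact ⟨h1, h2, h⟩
    · rintro (⟨h1, h2, -⟩ | ⟨⟨a, b⟩, ⟨h1, h2⟩, h3⟩)
      · exact ⟨h1, h2⟩
      · simp only [Prod.mk.injEq] at h1 h2 h3
        obtain ⟨rfl, rfl, rfl⟩ := h3
        exact ⟨hw _ _ h1, by simpa using h2⟩
  have e2 : Disjoint (OW g old N)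
      ((fun w : ℕ × ℕ => (w.1, ([] : List ℕ), w.2)) '' {w : ℕ × ℕ | old w.1 w.2 ∧ w.1 + w.2 = N}) := by
    rw [Set.disjoint_left]
    rintro ⟨i, σ, j⟩ ⟨h1, h2, h3⟩ ⟨⟨a, b⟩, ⟨h4, h5⟩, h6⟩
    simp only [Prod.mk.injEq] at h3 h4 h6
    obtain ⟨rfl, rfl, rfl⟩ := h6
    exact h3 ⟨rfl, h4⟩
  have e3 := WS_finite hpos N
  rw [e1] at e3
  rw [e1, Set.ncard_union_eq e2 (e3.subset Set.subset_union_left) (e3.subset Set.subset_union_right),
    Set.ncard_image_of_injective]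
  rintro ⟨a, b⟩ ⟨a', b'⟩ h
  simp only [Prod.mk.injEq] at h ⊢
  exact ⟨h.1, h.2.2⟩

theorem oldN_card {A Q : List ℕ} (hnd : (A ++ Q).Nodup) (N : ℕ) :
    {w : ℕ × ℕ | oldN A Q w.1 w.2 ∧ w.1 + w.2 = N}.ncard = (lv A ++ lv Q).count N := by
  obtain ⟨h1, h2, h3⟩ := List.nodup_append.mp hnd
  have e1 : {w : ℕ × ℕ | oldN A Q w.1 w.2 ∧ w.1 + w.2 = N} = rp A N ∪ rp Q N := by
    ext ⟨i, j⟩
    simp only [rp, oldN, Set.mem_ofPred_eq, Set.mem_union]
    tauto
  have e2 : Disjoint (rp A N) (rp Q N) := by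
    rw [Set.disjoint_left]
    rintro ⟨i, j⟩ ⟨h4, -⟩ ⟨h5, -⟩
    exact h3 _ (infix_left h4) _ (infix_left h5) rfl
  rw [e1, Set.ncard_union_eq e2 (rp_finite _ _) (rp_finite _ _), rp_card _ _ h1, rp_card _ _ h2,
    List.count_append]

theorem oldR_card {A Q : List ℕ} (hnd : (A ++ Q).Nodup) (N : ℕ) :
    {w : ℕ × ℕ | oldR A Q w.1 w.2 ∧ w.1 + w.2 = N}.ncard = (lv A ++ lv Q).count N := by
  obtain ⟨h1, h2, h3⟩ := List.nodup_append.mp hnd
  have e1 : {w : ℕ × ℕ | oldR A Q w.1 w.2 ∧ w.1 + w.2 = N} = rp A N ∪ Prod.swap '' rp Q N := by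
    ext ⟨i, j⟩
    simp only [rp, oldR, Set.mem_ofPred_eq, Set.mem_union, Set.mem_image, Prod.exists,
      Prod.swap_prod_mk, Prod.mk.injEq]
    constructor
    · rintro ⟨h | h, h4⟩
      · exact Or.inl ⟨h, h4⟩
      · exact Or.inr ⟨j, i, ⟨h, by omega⟩, rfl, rfl⟩
    · rintro (⟨h, h4⟩ | ⟨a, b, ⟨h, h4⟩, rfl, rfl⟩)
      · exact ⟨Or.inl h, h4⟩
      · exact ⟨Or.inr h, by omega⟩
  have e2 : Disjoint (rp A N) (Prod.swap '' rp Q N) := by
    rw [Set.disjoint_left]
    rintro ⟨i, j⟩ ⟨h4, -⟩ ⟨⟨a, b⟩, ⟨h5, -⟩, h6⟩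
    simp only [Prod.swap_prod_mk, Prod.mk.injEq] at h4 h5 h6
    obtain ⟨rfl, rfl⟩ := h6
    exact h3 _ (infix_left h4) _ (infix_right h5) rfl
  rw [e1, Set.ncard_union_eq e2 (rp_finite _ _) ((rp_finite _ _).image _),
    Set.ncard_image_of_injective _ Prod.swap_injective, rp_card _ _ h1, rp_card _ _ h2,
    List.count_append]

theorem rle_gen {T : ℕ → Prop} {g : ℕ → ℕ} {n : ℕ} {A Q : List ℕ} {old : ℕ → ℕ → Prop}
    (H : Wld T g) (hb : Bal T n A Q) (hle : ∀ x ∈ A ++ Q, x ≤ P T n + 2 ^ 19)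
    (hw : ∀ i j, old i j → Weak g i [] j)
    (hc : ∀ N, {w : ℕ × ℕ | old w.1 w.2 ∧ w.1 + w.2 = N}.ncard = (lv A ++ lv Q).count N) :
    RLE g old (sc T n) (P T n + 2 ^ 19) (GG (P T (n + 1))) := by
  intro N h1 h2
  have hpos : ∀ t, 0 < g t := fun t => by have := H.low t; omega
  have hP := P_ge T n
  have hM : MM + 3 ≤ p0 := by unfold MM p0; norm_num
  have h3 := H.le N (by omega)
  have h4 : dl T N = dlt T n N + sc T n N := by
    rw [dl_eq (n := n + 1) h2]
    unfold dlt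
    rw [Finset.sum_range_succ]
    ring
  have h5 := hb N
  rw [if_neg (by omega)] at h5
  have h6 : (A ++ Q).count N = 0 := by
    rw [List.count_eq_zero]
    intro h
    have := hle N h
    omega
  have h7 : bal A Q N = ((A ++ Q).count N : ℤ) - (lv A ++ lv Q).count N := rfl
  have h8 := ws_old hpos hw N
  have h9 := hc N
  rw [h6] at h7
  omega

/-- Relative level equation, state N. -/
theorem rleN {T : ℕ → Prop} {g : ℕ → ℕ} {n : ℕ} {A Q : List ℕ} (H : Wld T g)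
    (hb : Bal T n A Q) (hnd : (A ++ Q).Nodup) (hle : ∀ x ∈ A ++ Q, x ≤ P T n + 2 ^ 19)
    (hw : ∀ i j, oldN A Q i j → Weak g i [] j) :
    RLE g (oldN A Q) (sc T n) (P T n + 2 ^ 19) (GG (P T (n + 1))) :=
  rle_gen H hb hle hw (oldN_card hnd)

/-- Relative level equation, state R. -/
theorem rleR {T : ℕ → Prop} {g : ℕ → ℕ} {n : ℕ} {A Q : List ℕ} (H : Wld T g)
    (hb : Bal T n A Q) (hnd : (A ++ Q).Nodup) (hle : ∀ x ∈ A ++ Q, x ≤ P T n + 2 ^ 19)
    (hw : ∀ i j, oldR A Q i j → Weak g i [] j) :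
    RLE g (oldR A Q) (sc T n) (P T n + 2 ^ 19) (GG (P T (n + 1))) :=
  rle_gen H hb hle hw (oldR_card hnd)

/-- Level equation of the base. -/
theorem rle0 {T : ℕ → Prop} {g : ℕ → ℕ} (H : Wld T g) :
    RLE g (fun _ _ => False) (dl T) (MM + 3) (GG p0) := by
  intro N h1 h2
  have h3 := H.le N h1
  have e : OW g (fun _ _ => False) N = WS g N := by
    ext w
    simp [OW, WS]
  rw [e]
  exact h3

theorem count_one_sub {U D : List ℕ} {N : ℕ} (hU : U.Nodup) (h1 : N ∈ U) (h2 : N ∉ D) :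
    (U.count N : ℤ) - D.count N = 1 := by
  rw [List.count_eq_one_of_mem hU h1, List.count_eq_zero.mpr h2]
  norm_num

theorem count_sub_one {U D : List ℕ} {N : ℕ} (hD : D.Nodup) (h1 : N ∉ U) (h2 : N ∈ D) :
    (U.count N : ℤ) - D.count N = -1 := by
  rw [List.count_eq_one_of_mem hD h2, List.count_eq_zero.mpr h1]
  norm_num

theorem count_zero {U D : List ℕ} {N : ℕ} (h1 : N ∉ U) (h2 : N ∉ D) :
    (U.count N : ℤ) - D.count N = 0 := by
  rw [List.count_eq_zero.mpr h2, List.count_eq_zero.mpr h1]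
  norm_num

theorem rmem_wU {p N : ℕ} : N ∈ wU p ↔ ∃ i, 1 ≤ i ∧ i ≤ 20 ∧ N = GG p + 2 ^ i := by
  unfold wU
  rw [List.mem_map]
  constructor
  · rintro ⟨i, hi, rfl⟩
    rw [List.mem_range] at hi
    exact ⟨i + 1, by omega, by omega, rfl⟩
  · rintro ⟨i, h1, h2, rfl⟩
    exact ⟨i - 1, List.mem_range.mpr (by omega), by rw [Nat.sub_add_cancel h1]⟩

theorem rmem_wD {p N : ℕ} : N ∈ wD p ↔ N = p + (GG p + 2) ∨ N = p + 2 ^ 19 + (GG p + 4) ∨
    ∃ i, 1 ≤ i ∧ i ≤ 18 ∧ N = 2 * GG p + 2 ^ i + 2 ^ (i + 2) := by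
  unfold wD
  rw [List.mem_cons, List.mem_cons, List.mem_map]
  constructor
  · rintro (h | h | ⟨i, hi, rfl⟩)
    · exact Or.inl h
    · exact Or.inr (Or.inl h)
    · rw [List.mem_range] at hi
      exact Or.inr (Or.inr ⟨i + 1, by omega, by omega, rfl⟩)
  · rintro (h | h | ⟨i, h1, h2, rfl⟩)
    · exact Or.inl h
    · exact Or.inr (Or.inl h)
    · refine Or.inr (Or.inr ⟨i - 1, List.mem_range.mpr (by omega), ?_⟩)
      rw [show i - 1 + 1 = i by omega, show i - 1 + 3 = i + 2 by omega]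

theorem wU_nodup (p : ℕ) : (wU p).Nodup := by
  unfold wU
  refine List.Nodup.map ?_ List.nodup_range
  intro i j h
  simp only at h
  have h2 : (2 : ℕ) ^ (i + 1) = 2 ^ (j + 1) := by omega
  have := Nat.pow_right_injective le_rfl h2
  simpa using this

theorem wD_nodup {p : ℕ} : (wD p).Nodup := by
  have hG : GG p = p + (p + 2 ^ 19) + 2 ^ 22 := rfl
  unfold wD
  rw [List.nodup_cons, List.nodup_cons]
  refine ⟨?_, ?_, ?_⟩
  · rw [List.mem_cons, List.mem_map]
    rintro (h | ⟨i, hi, h⟩)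
    · omega
    · have h1 : 0 < 2 ^ (i + 1) := Nat.pow_pos (by norm_num)
      have h2 : 0 < 2 ^ (i + 3) := Nat.pow_pos (by norm_num)
      omega
  · rw [List.mem_map]
    rintro ⟨i, hi, h⟩
    have h1 : 0 < 2 ^ (i + 1) := Nat.pow_pos (by norm_num)
    have h2 : 0 < 2 ^ (i + 3) := Nat.pow_pos (by norm_num)
    omega
  · refine List.Nodup.map ?_ List.nodup_range
    intro i j h
    simp only at h
    have e1 : (2 : ℕ) ^ (i + 3) = 4 * 2 ^ (i + 1) := by ring
    have e2 : (2 : ℕ) ^ (j + 3) = 4 * 2 ^ (j + 1) := by ring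
    have h2 : (2 : ℕ) ^ (i + 1) = 2 ^ (j + 1) := by omega
    have := Nat.pow_right_injective le_rfl h2
    simpa using this

theorem pow_le20 {i : ℕ} (h : i ≤ 20) : (2 : ℕ) ^ i ≤ 2 ^ 20 := Nat.pow_le_pow_right (by norm_num) h

theorem P_big (T : ℕ → Prop) (n : ℕ) : 2 ^ 31 ≤ P T n := by
  have h1 := P_ge T n
  have h2 : 2 ^ 31 ≤ p0 := by unfold p0; norm_num
  omega

/-- The defect of a window stage. -/
theorem dw_sc {T : ℕ → Prop} {n : ℕ} (h : n % 7 ≠ 6) :
    DW (sc T n) (P T n) (P T n + 2 ^ 19) (GG (P T n)) := by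
  have e : ∀ N, sc T n N = ((wU (P T n)).count N : ℤ) - (wD (P T n)).count N := by
    intro N
    unfold sc U D
    rw [if_neg h, if_neg h]
  have hP := P_big T n
  have hG : GG (P T n) = P T n + (P T n + 2 ^ 19) + 2 ^ 22 := rfl
  constructor
  · intro i h1 h2
    rw [e]
    refine count_one_sub (wU_nodup _) (rmem_wU.mpr ⟨i, h1, h2, rfl⟩) ?_
    rw [rmem_wD]
    have h3 := pow_le20 h2
    rintro (h | h | ⟨j, -, -, h⟩)
    · omega
    · omega
    · have h4 := Nat.two_pow_pos j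
      have h5 := Nat.two_pow_pos (j + 2)
      omega
  · rw [e]
    refine count_sub_one wD_nodup ?_ (rmem_wD.mpr (Or.inl rfl))
    rw [rmem_wU]
    rintro ⟨i, h1, h2, h⟩
    have h3 := pow_le20 h2
    omega
  · rw [e]
    refine count_sub_one wD_nodup ?_ (rmem_wD.mpr (Or.inr (Or.inl rfl)))
    rw [rmem_wU]
    rintro ⟨i, h1, h2, h⟩
    have h3 := pow_le20 h2
    omega
  · intro i h1 h2
    rw [e]
    refine count_sub_one wD_nodup ?_ (rmem_wD.mpr (Or.inr (Or.inr ⟨i, h1, h2, rfl⟩)))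
    rw [rmem_wU]
    rintro ⟨j, h3, h4, h⟩
    have h5 := pow_le20 h4
    have h6 := Nat.two_pow_pos i
    have h7 := Nat.two_pow_pos (i + 2)
    omega
  · intro N _ _ h1 h2 h3 h4
    rw [e]
    refine count_zero ?_ ?_
    · rw [rmem_wU]
      rintro ⟨i, h5, h6, h7⟩
      exact h1 i h5 h6 h7
    · rw [rmem_wD]
      rintro (h | h | ⟨i, h5, h6, h7⟩)
      · exact h2 h
      · exact h3 h
      · exact h4 i h5 h6 h7

/-- The numbers of a gadget stage. -/
theorem gp_of {T : ℕ → Prop} {n j : ℕ} (h : n % 7 = 6) (hj : 7 * j ≤ n) :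
    GP (P T n) (P T n + 2 ^ 19) (mk T j) (nu T n) (GG (P T n)) (gC (P T n) (nu T n))
      (gB (P T n)) (gY (P T n) (nu T n)) (gY (P T n) (nu T n) - 1)
      (gY (P T n) (nu T n) + 2 ^ 19) := by
  obtain ⟨h1, h2⟩ := nu_small (T := T) h
  have h3 := mk_le (T := T) hj
  rw [h] at h3
  have h4 := mk_ge T j
  have hM : MM = 2 ^ 30 := rfl
  have h5 : nu T n = MM + 2 ∨ nu T n = mk T j ∨ 3 * nu T n + 2 ^ 24 ≤ mk T j ∨
      3 * mk T j + 2 ^ 24 ≤ nu T n := by
    rcases nu_cases T n with h5 | ⟨-, h5⟩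
    · exact Or.inl h5
    · right
      rw [h5]
      rcases lt_trichotomy (Nat.unpair (n / 7)).1 j with h6 | h6 | h6
      · exact Or.inr (Or.inl (mk_far h6))
      · exact Or.inl (by rw [h6])
      · exact Or.inr (Or.inr (mk_far h6))
  have hB : gB (P T n) = GG (P T n) + 7 * (P T n / 10) := rfl
  have hC : gC (P T n) (nu T n) = GG (P T n) + 2 * nu T n := rfl
  have hY : gY (P T n) (nu T n) = gB (P T n) + nu T n := rfl
  have hG : GG (P T n) = P T n + (P T n + 2 ^ 19) + 2 ^ 22 := rfl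
  generalize mk T j = v at *
  generalize nu T n = ν at *
  constructor <;> omega

theorem nodup_six {a b c d e f : ℕ} (h1 : a < b) (h2 : b < c) (h3 : c < d) (h4 : d < e)
    (h5 : e < f) : [a, b, c, d, e, f].Nodup := by
  simp only [List.nodup_cons, List.mem_cons, List.not_mem_nil, or_false, not_or,
    List.nodup_nil, not_false_eq_true, and_true]
  and_intros <;> omega

/-- The defect of a gadget stage. -/
theorem dg_sc {T : ℕ → Prop} {n : ℕ} (h : n % 7 = 6) :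
    DG (sc T n) (P T n) (P T n + 2 ^ 19) (GG (P T n)) (gC (P T n) (nu T n))
      (gB (P T n)) (gY (P T n) (nu T n)) (gY (P T n) (nu T n) - 1)
      (gY (P T n) (nu T n) + 2 ^ 19) := by
  have e : ∀ N, sc T n N = ((gU (P T n) (nu T n)).count N : ℤ) - (gD (P T n) (nu T n)).count N := by
    intro N
    unfold sc U D
    rw [if_pos h, if_pos h]
  obtain ⟨h1, h2⟩ := nu_small (T := T) h
  have hP := P_big T n
  have c0 : GG (P T n) < gC (P T n) (nu T n) ∧ gC (P T n) (nu T n) < gB (P T n) ∧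
      gB (P T n) < gY (P T n) (nu T n) - 1 ∧ gY (P T n) (nu T n) - 1 < gY (P T n) (nu T n) ∧
      gY (P T n) (nu T n) < gY (P T n) (nu T n) + 2 ^ 19 ∧
      gY (P T n) (nu T n) + 2 ^ 19 < P T n + GG (P T n) ∧
      P T n + GG (P T n) < P T n + 2 ^ 19 + gB (P T n) ∧
      P T n + 2 ^ 19 + gB (P T n) < GG (P T n) + gY (P T n) (nu T n) ∧
      GG (P T n) + gY (P T n) (nu T n) < gB (P T n) + gC (P T n) (nu T n) ∧
      gB (P T n) + gC (P T n) (nu T n) <
        gC (P T n) (nu T n) + (gY (P T n) (nu T n) - 1) ∧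
      gC (P T n) (nu T n) + (gY (P T n) (nu T n) - 1) <
        (gY (P T n) (nu T n) - 1) + (gY (P T n) (nu T n) + 2 ^ 19) := by
    have hB : gB (P T n) = GG (P T n) + 7 * (P T n / 10) := rfl
    have hC : gC (P T n) (nu T n) = GG (P T n) + 2 * nu T n := rfl
    have hY : gY (P T n) (nu T n) = gB (P T n) + nu T n := rfl
    have hG : GG (P T n) = P T n + (P T n + 2 ^ 19) + 2 ^ 22 := rfl
    generalize nu T n = ν at *
    rw [hY, hC, hB, hG]
    clear hB hC hY hG e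
    generalize P T n = p at *
    and_intros <;> omega
  have hmU : ∀ N, N ∈ gU (P T n) (nu T n) ↔ (N = GG (P T n) ∨ N = gC (P T n) (nu T n) ∨
      N = gB (P T n) ∨ N = gY (P T n) (nu T n) - 1 ∨ N = gY (P T n) (nu T n) ∨
      N = gY (P T n) (nu T n) + 2 ^ 19) := by
    intro N
    simp [gU]
  have hmD : ∀ N, N ∈ gD (P T n) (nu T n) ↔ (N = P T n + GG (P T n) ∨
      N = P T n + 2 ^ 19 + gB (P T n) ∨ N = GG (P T n) + gY (P T n) (nu T n) ∨
      N = gB (P T n) + gC (P T n) (nu T n) ∨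
      N = gC (P T n) (nu T n) + (gY (P T n) (nu T n) - 1) ∨
      N = (gY (P T n) (nu T n) - 1) + (gY (P T n) (nu T n) + 2 ^ 19)) := by
    intro N
    simp [gD]
  obtain ⟨c1, c2, c3, c4, c5, c6, c7, c8, c9, c10, c11⟩ := c0
  have hnU : (gU (P T n) (nu T n)).Nodup := nodup_six c1 c2 c3 c4 c5
  have hnD : (gD (P T n) (nu T n)).Nodup := nodup_six c7 c8 c9 c10 c11
  have key : ∀ N, (N = GG (P T n) ∨ N = gC (P T n) (nu T n) ∨
      N = gB (P T n) ∨ N = gY (P T n) (nu T n) - 1 ∨ N = gY (P T n) (nu T n) ∨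
      N = gY (P T n) (nu T n) + 2 ^ 19) → (N = P T n + GG (P T n) ∨
      N = P T n + 2 ^ 19 + gB (P T n) ∨ N = GG (P T n) + gY (P T n) (nu T n) ∨
      N = gB (P T n) + gC (P T n) (nu T n) ∨
      N = gC (P T n) (nu T n) + (gY (P T n) (nu T n) - 1) ∨
      N = (gY (P T n) (nu T n) - 1) + (gY (P T n) (nu T n) + 2 ^ 19)) → False := by
    intro N hU hD
    have k1 : N ≤ gY (P T n) (nu T n) + 2 ^ 19 := by
      clear hD hnU hnD hmU hmD e h1 h2 hP c6 c7 c8 c9 c10 c11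
      rcases hU with hU | hU | hU | hU | hU | hU
      · rw [hU]; exact (c1.trans (c2.trans (c3.trans (c4.trans c5)))).le
      · rw [hU]; exact (c2.trans (c3.trans (c4.trans c5))).le
      · rw [hU]; exact (c3.trans (c4.trans c5)).le
      · rw [hU]; exact (c4.trans c5).le
      · rw [hU]; exact c5.le
      · rw [hU]
    have k2 : P T n + GG (P T n) ≤ N := by
      clear hU hnU hnD hmU hmD e h1 h2 hP c1 c2 c3 c4 c5 c6 k1
      rcases hD with hD | hD | hD | hD | hD | hD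
      · rw [hD]
      · rw [hD]; exact c7.le
      · rw [hD]; exact (c7.trans c8).le
      · rw [hD]; exact (c7.trans (c8.trans c9)).le
      · rw [hD]; exact (c7.trans (c8.trans (c9.trans c10))).le
      · rw [hD]; exact (c7.trans (c8.trans (c9.trans (c10.trans c11)))).le
    exact absurd (k2.trans k1) (not_le.2 c6)
  constructor
  · intro N hN
    rw [e]
    refine count_one_sub hnU ((hmU N).mpr hN) ?_
    rw [hmD]
    exact key N hN
  · intro N hN
    rw [e]
    refine count_sub_one hnD ?_ ((hmD N).mpr hN)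
    rw [hmU]
    exact fun h => key N h hN
  · intro N _ _ h3 h4
    rw [e]
    refine count_zero ?_ ?_
    · rw [hmU]
      exact h3
    · rw [hmD]
      exact h4

/-- The defect of the base. -/
theorem db_dl (T : ℕ → Prop) : DB (dl T) MM p0 := by
  have hp : p0 = 9 * 2 ^ 29 := rfl
  have hM : MM = 2 ^ 30 := rfl
  have e : ∀ N, N + 1 ≤ 2 * p0 + 2 ^ 19 → dl T N = (bU.count N : ℤ) - bD.count N := by
    intro N hN
    rw [dl_eq (n := 0) (by rw [P_zero]; unfold GG; omega)]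
    unfold dlt bc
    simp
  have hmU : ∀ N, N ∈ bU ↔ (N = MM + 1 ∨ N = MM + 2 ∨ N = 3 * MM ∨ N = p0 - 1 ∨ N = p0 ∨
      N = p0 + 2 ^ 19) := by
    intro N
    simp [bU]
  have hmD : ∀ N, N ∈ bD ↔ (N = MM + 3 ∨ N = 2 * MM + 3 ∨ N = MM + 2 + p0 ∨
      N = 3 * MM + p0 - 1 ∨ N = 2 * p0 + 2 ^ 19 - 1) := by
    intro N
    simp [bD]
  have hnU : bU.Nodup := by
    simp only [bU, List.nodup_cons, List.mem_cons, List.not_mem_nil, or_false, not_or,
      List.nodup_nil, not_false_eq_true, and_true]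
    and_intros <;> omega
  have hnD : bD.Nodup := by
    simp only [bD, List.nodup_cons, List.mem_cons, List.not_mem_nil, or_false, not_or,
      List.nodup_nil, not_false_eq_true, and_true]
    and_intros <;> omega
  constructor
  · intro N hN
    rw [e N (by omega)]
    refine count_one_sub hnU ((hmU N).mpr (by omega)) ?_
    rw [hmD]
    omega
  · intro N hN
    rw [e N (by omega)]
    refine count_sub_one hnD ?_ ((hmD N).mpr (by omega))
    rw [hmU]
    omega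
  · intro N h1 h2 h3 h4
    rw [e N h2]
    refine count_zero ?_ ?_
    · rw [hmU]
      omega
    · rw [hmD]
      omega

end Pool.Agent.CF2
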