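import Pool.Agent.CF2.ST1

/-!
# CF2: the states as lists

`A` is the main chain (`g` starts with it), `Q` the pending chain, listed from its creation mark `v`
to its largest run `z`.
-/

namespace Pool.Agent.CF2

private theorem chain_iff {R : ℕ → ℕ → Prop} {L : List ℕ} :
    (∀ a b, [a, b] <:+: L → R a b) ↔ List.IsChain R L := by
  rw [List.isChain_iff_forall_rel_of_append_cons_cons]
  constructor
  · intro h a b l₁ l₂ he
    exact h a b ⟨l₁, l₂, by rw [he]; simp⟩
  · rintro h a b ⟨s, t, he⟩
    exact h (l₁ := s) (l₂ := t) (by rw [← he]; simp)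

/-- Following unique links. -/
private theorem follow_out {g : ℕ → ℕ} : ∀ (L : List ℕ) (a : ℕ) (τ : List ℕ),
    (∀ b c, [b, c] <:+: (a :: L) → ∀ x, Adj g b x → x = c) → List.IsChain (Adj g) (a :: τ) →
    (∀ s x, a :: τ = s ++ [x] → ∃ y y', y ≠ y' ∧ Adj g x y ∧ Adj g x y') →
    (a :: L) <+: (a :: τ)
  | [], _, τ, _, _, _ => ⟨τ, rfl⟩
  | b :: L, a, τ, h1, h2, h3 => by
    have hab : ∀ x, Adj g a x → x = b := h1 a b ⟨[], L, rfl⟩
    cases τ with
    | nil =>
      obtain ⟨y, y', hne, hy, hy'⟩ := h3 [] a rfl
      exact absurd ((hab y hy).trans (hab y' hy').symm) hne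
    | cons y τ =>
      have hay : Adj g a y := by
        cases h2 with
        | cons_cons h _ => exact h
      have hy : y = b := hab y hay
      subst hy
      have ih := follow_out L y τ (fun b c h => h1 b c (h.trans ⟨[a], [], by simp⟩))
        (by
          cases h2 with
          | cons_cons _ h => exact h)
        (fun s x h => h3 (a :: s) x (by rw [h]; rfl))
      obtain ⟨r, hr⟩ := ih
      exact ⟨r, by rw [List.cons_append, hr]⟩

/-- The first element with a given property. -/
private theorem first_with (P : ℕ → Prop) : ∀ σ : List ℕ, (∃ x ∈ σ, P x) →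
    ∃ τ x r, σ = τ ++ x :: r ∧ P x ∧ ∀ y ∈ τ, ¬ P y
  | [], h => by simp at h
  | y :: σ, h => by
    by_cases hy : P y
    · exact ⟨[], y, σ, rfl, hy, by simp⟩
    · have h2 : ∃ x ∈ σ, P x := by
        obtain ⟨x, hx, hP⟩ := h
        rcases List.mem_cons.mp hx with rfl | hx
        · exact absurd hP hy
        · exact ⟨x, hx, hP⟩
      obtain ⟨τ, x, r, h3, h4, h5⟩ := first_with P σ h2
      refine ⟨y :: τ, x, r, by rw [h3]; rfl, h4, ?_⟩
      intro w hw
      rcases List.mem_cons.mp hw with rfl | hw
      · exact hy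
      · exact h5 w hw

private theorem suffix_last {A s : List ℕ} {p : ℕ} (hA : ∃ u, A = u ++ [p]) (h1 : s ≠ [])
    (h2 : s <:+ A) : ∃ u, s = u ++ [p] := by
  obtain ⟨t, ht⟩ := h2
  obtain ⟨u, hu⟩ := hA
  have h3 : s.dropLast ++ [s.getLast h1] = s := List.dropLast_append_getLast h1
  rw [← h3, ← List.append_assoc, hu] at ht
  obtain ⟨-, h4⟩ := List.append_inj' ht rfl
  refine ⟨s.dropLast, ?_⟩
  rw [← h4, h3]

/-- State R gives its interface. -/
theorem SR.ri {g : ℕ → ℕ} {A Q : List ℕ} {p z v a : ℕ} (hgb : GB g) (hpos : ∀ t, 0 < g t)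
    (h : SR g A Q p z v a) :
    ∃ sg s, s ≠ [] ∧ s <:+ A ∧ s.sum = sg ∧
      RI g (oldR A Q) p z v a sg (Q.sum - z) {x | x ∈ Q} := by
  have hAnd : A.Nodup := (List.nodup_append.mp h.nd).1
  have hQnd : Q.Nodup := (List.nodup_append.mp h.nd).2.1
  have hdis : ∀ x, x ∈ A → x ∈ Q → False := fun x h1 h2 =>
    (List.nodup_append.mp h.nd).2.2 x h1 x h2 rfl
  have hpA : p ∈ A := by
    obtain ⟨s, hs⟩ := h.hA
    rw [hs]; simp
  have hvQ : v ∈ Q := by
    obtain ⟨s, hs⟩ := h.hv
    rw [hs]; simp
  have hzQ : z ∈ Q := by
    obtain ⟨s, hs⟩ := h.hz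
    rw [hs]; simp
  have haQ : a ∈ Q := by
    obtain ⟨s, hs⟩ := h.hz
    rw [hs]; simp
  have hz' : ∃ s, Q = s ++ [z] := by
    obtain ⟨s, hs⟩ := h.hz
    exact ⟨s ++ [a], by rw [hs]; simp⟩
  have haz : a < z := by
    have h1 := h.leQ a haQ
    have h2 : a ≠ z := by
      rintro rfl
      obtain ⟨s, hs⟩ := h.hz
      rw [hs] at hQnd
      have h3 := (List.nodup_append.mp hQnd).2.1
      exact absurd h3 (by simp)
    omega
  have hva : v ≤ a := h.vleQ a haQ
  have hvp := h.vp
  have hpz := h.pz
  have hlen : 0 < A.length := List.length_pos_of_mem hpA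
  have hg0 : g 0 ∈ A := by
    rw [h.pre 0 hlen]
    exact List.getElem_mem hlen
  have hg0Q : g 0 ∉ Q := fun hc => hdis _ hg0 hc
  have hzv : z ≠ v := by omega
  have hazQ : [a, z] <:+: Q := by
    obtain ⟨s, hs⟩ := h.hz
    exact ⟨s, [], by rw [hs]; simp⟩
  -- predecessors of runs of the main chain
  have predA : ∀ w x, Adj g w x → x ∈ A → ∃ b, [b, x] <:+: A ∧ (w = b ∨ (w = v ∧ v < b)) := by
    rintro w x ⟨t, h1, h2⟩ hx
    obtain ⟨k, hk, hkx⟩ := List.mem_iff_getElem.mp hx
    cases k with
    | zero =>
      exfalso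
      have h3 : g (t + 1) = g 0 := by rw [h2, h.pre 0 hk, hkx]
      have := h.h0 _ h3
      omega
    | succ k =>
      have h3 := idx_infix k hk
      rw [hkx] at h3
      exact ⟨A[k], h3, (h.lkA _ _ h3).2.2 w ⟨t, h1, h2⟩⟩
  have toj : ∀ i j, Adj g i j → j < z → oldR A Q i j ∨ (i = v ∧ j ≤ p) ∨ (i = p ∧ j = a) := by
    intro i j hij hj
    obtain ⟨t, h1, h2⟩ := hij
    rcases h.only j ⟨t + 1, h2⟩ hj.le with hjA | hjQ
    · obtain ⟨b, hb, hb2⟩ := predA i j ⟨t, h1, h2⟩ hjA
      rcases hb2 with rfl | ⟨hb2, -⟩
      · exact Or.inl (Or.inl hb)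
      · exact Or.inr (Or.inl ⟨hb2, h.leA j hjA⟩)
    · obtain ⟨y, hy⟩ := succ_ex hz' hjQ (by omega)
      rcases (h.lkQ j y hy).2.2 i ⟨t, h1, h2⟩ with h3 | ⟨h3, h4⟩
      · subst h3
        exact Or.inl (Or.inr hy)
      · exact Or.inr (Or.inr ⟨h3, h4⟩)
  have fromi : ∀ i j, Adj g i j → i ≤ z → i = p ∨ i = v ∨ oldR A Q i j := by
    rintro i j ⟨t, h1, h2⟩ hi
    rcases h.only i ⟨t, h1⟩ hi with hiA | hiQ
    · by_cases hip : i = p
      · exact Or.inl hip
      · obtain ⟨y, hy⟩ := succ_ex h.hA hiA hip
        have := (h.lkA i y hy).2.1 j ⟨t, h1, h2⟩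
        subst this
        exact Or.inr (Or.inr (Or.inl hy))
    · by_cases hiv : i = v
      · exact Or.inr (Or.inl hiv)
      · obtain ⟨y, hy⟩ := pred_ex h.hv hiQ hiv
        have := (h.lkQ y i hy).2.1 j ⟨t, h1, h2⟩
        subst this
        exact Or.inr (Or.inr (Or.inr hy))
  have oldi : ∀ i j, oldR A Q i j → i ≤ z ∧ i ≠ p ∧ i ≠ v := by
    rintro i j (ho | ho)
    · have h1 := h.leA i (infix_left ho)
      refine ⟨by omega, ?_, ?_⟩
      · rintro rfl
        exact no_succ hAnd h.hA ho
      · rintro rfl
        exact hdis _ (infix_left ho) hvQ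
    · refine ⟨h.leQ i (infix_right ho), ?_, ?_⟩
      · rintro rfl
        exact hdis _ hpA (infix_right ho)
      · rintro rfl
        exact no_pred hQnd h.hv ho
  have oldj : ∀ i j, oldR A Q i j → j < z := by
    rintro i j (ho | ho)
    · have h1 := h.leA j (infix_right ho)
      omega
    · have h1 := h.leQ j (infix_left ho)
      have h2 : j ≠ z := by
        rintro rfl
        exact no_succ hQnd hz' ho
      omega
  have oldout : ∀ i j, oldR A Q i j → ∀ x, Adj g i x → x = j := by
    rintro i j (ho | ho)
    · exact (h.lkA i j ho).2.1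
    · exact (h.lkQ j i ho).2.1
  have leakA : ∀ m, Adj g v m → m < z → m ∈ A := by
    rintro m hm hmz
    obtain ⟨t, h1, h2⟩ := hm
    rcases h.only m ⟨t + 1, h2⟩ hmz.le with hmA | hmQ
    · exact hmA
    · exfalso
      obtain ⟨y, hy⟩ := succ_ex hz' hmQ (by omega)
      rcases (h.lkQ m y hy).2.2 v ⟨t, h1, h2⟩ with h3 | ⟨h3, -⟩
      · subst h3
        exact no_pred hQnd h.hv hy
      · omega
  have leak1 : ∀ m, Adj g v m → m < z → ∀ x, Adj g v x → x = m := fun m hm hmz =>
    h.leak m (leakA m hm hmz) hm
  have Qs : ∀ x ∈ Q, x ≠ v → ∀ y, Adj g x y → y ∈ Q := by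
    intro x hx hxv y hy
    obtain ⟨y', hy'⟩ := pred_ex h.hv hx hxv
    have := (h.lkQ y' x hy').2.1 y hy
    subst this
    exact infix_left hy'
  have Qp : ∀ x ∈ Q, x ≠ z → ∀ y, Adj g y x → y ∈ Q ∨ (y = p ∧ x = a) := by
    intro x hx hxz y hy
    obtain ⟨y', hy'⟩ := succ_ex hz' hx hxz
    rcases (h.lkQ x y' hy').2.2 y hy with h3 | h3
    · subst h3
      exact Or.inl (infix_right hy')
    · exact Or.inr h3
  -- the leak suffix
  obtain ⟨s, hs1, hs2, hs3⟩ : ∃ s : List ℕ, s ≠ [] ∧ s <:+ A ∧
      ∀ m ∈ A, Adj g v m → ∃ s1, s = m :: s1 := by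
    by_cases hl : ∃ m ∈ A, Adj g v m
    · obtain ⟨m, hmA, hm⟩ := hl
      obtain ⟨s0, s1, hs⟩ := List.append_of_mem hmA
      refine ⟨m :: s1, by simp, ⟨s0, hs.symm⟩, fun m' hm' hvm' => ⟨s1, ?_⟩⟩
      have := h.leak m hmA hm m' hvm'
      rw [this]
    · push Not at hl
      obtain ⟨u, hu⟩ := h.hA
      exact ⟨[p], by simp, ⟨u, hu.symm⟩, fun m hm hvm => absurd hvm (hl m hm)⟩
  obtain ⟨s', hs'⟩ := suffix_last h.hA hs1 hs2
  -- the inner words
  have hforms : ∀ i σ j, σ ≠ [] → Bi g i σ j →
      (FA p z v i σ j ∨ FB g p z v s.sum i σ j) ∨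
      ((Adj g p a ∨ Adj g p z ∨ Adj g v z) ∧ p + (Q.sum - z) + v ≤ i + σ.sum + j) ∨
      2 * z + (Q.sum - z) + v ≤ i + σ.sum + j := by
    intro i σ j hσ hbi
    have hlast2 : ∀ s x, σ = s ++ [x] → Adj g x j ∧ ∃ y, j < y ∧ Adj g x y := by
      intro s x hs
      subst hs
      exact hbi.last
    have hlast : ∀ s x, σ = s ++ [x] → ∃ y y', y ≠ y' ∧ Adj g x y ∧ Adj g x y' := by
      intro s x hs
      obtain ⟨h1, y, h2, h3⟩ := hlast2 s x hs
      exact ⟨j, y, by omega, h1, h3⟩
    have hj : j = z ∨ z < j := by
      have h3 : σ.dropLast ++ [σ.getLast hσ] = σ := List.dropLast_append_getLast hσ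
      obtain ⟨h1, y, h2, h4⟩ := hlast2 _ _ h3.symm
      by_contra hc
      have hjz : j < z := by omega
      rcases toj _ j h1 hjz with h5 | ⟨h5, -⟩ | ⟨h5, h6⟩
      · have := oldout _ _ h5 y h4
        omega
      · rw [h5] at h1 h4
        have := leak1 j h1 hjz y h4
        omega
      · rw [h5] at h1 h4
        subst h6
        have := h.lp h1 y h4
        omega
    have hjv : v < j := by omega
    have hch := hbi.chain
    have hmem := hbi.mem
    by_cases hQ : ∃ x ∈ σ, x ∈ Q
    · right
      obtain ⟨τ, x, r, hσ2, hxQ, hτ⟩ := first_with (· ∈ Q) σ hQ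
      have hxr : ∀ L, (x :: L).reverse <+: Q → (x :: L).sum ≤ (x :: r).sum := by
        intro L hL
        refine prefix_sum (follow_out (g := g) L x r ?_ ?_ ?_)
        · intro b c hbc
          have h1 : [c, b] <:+: Q := by
            obtain ⟨s1, t1, h2⟩ := hbc
            refine List.IsInfix.trans ⟨t1.reverse, s1.reverse, ?_⟩ hL.isInfix
            rw [← h2]
            simp
          exact (h.lkQ c b h1).2.1
        · rw [hσ2] at hch
          exact (List.isChain_append.mp hch).2.1
        · intro s1 y hy
          exact hlast (τ ++ s1) y (by rw [hσ2, hy, List.append_assoc])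
      have hsum : σ.sum = τ.sum + (x :: r).sum := by rw [hσ2, List.sum_append]
      obtain ⟨q, hq⟩ := h.hz
      have hQsum : Q.sum = q.sum + a + z := by
        rw [hq]
        simp only [List.sum_append, List.sum_cons, List.sum_nil]
        omega
      -- the run before x
      have hbefore : ∀ w, (τ = [] ∧ w = i) ∨ (∃ τ', τ = τ' ++ [w]) →
          Adj g w x ∧ (x = z → w ≤ i + τ.sum) := by
        rintro w (⟨h1, h2⟩ | ⟨τ', h1⟩)
        · subst h2
          subst h1
          have h3 : σ = x :: r := hσ2
          subst h3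
          exact ⟨hbi.head.1, fun _ => by omega⟩
        · subst h1
          rw [hσ2] at hch
          have h3 := List.isChain_append.mp hch
          refine ⟨h3.2.2 w (by simp) x (by simp), fun _ => ?_⟩
          rw [List.sum_append, List.sum_singleton]
          omega
      obtain ⟨w, hw⟩ : ∃ w, (τ = [] ∧ w = i) ∨ (∃ τ', τ = τ' ++ [w]) := by
        by_cases hτ0 : τ = []
        · exact ⟨i, Or.inl ⟨hτ0, rfl⟩⟩
        · exact ⟨τ.getLast hτ0, Or.inr ⟨τ.dropLast, (List.dropLast_append_getLast hτ0).symm⟩⟩
      obtain ⟨hwx, hwi⟩ := hbefore w hw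
      by_cases hxz : x = z
      · subst hxz
        have h1 := hxr (a :: q.reverse) ⟨[], by rw [hq]; simp⟩
        simp only [List.sum_cons, List.sum_reverse] at h1
        have h2 := hwi rfl
        simp only [List.sum_cons] at hsum
        by_cases hwz : w ≤ x
        · left
          rcases fromi w x hwx hwz with h3 | h3 | h3
          · subst h3
            exact ⟨Or.inr (Or.inl hwx), by omega⟩
          · subst h3
            exact ⟨Or.inr (Or.inr hwx), by omega⟩
          · have := oldj _ _ h3
            omega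
        · right
          omega
      · left
        have hpa : x = a ∧ p ≤ i + τ.sum ∧ Adj g p a := by
          rcases hw with ⟨h1, h2⟩ | ⟨τ', h1⟩
          · subst h2
            subst h1
            have h3 : σ = x :: r := hσ2
            subst h3
            obtain ⟨h4, i', h5, h6⟩ := hbi.head
            obtain ⟨y, hy⟩ := succ_ex hz' hxQ hxz
            rcases (h.lkQ x y hy).2.2 w h4 with h7 | ⟨h7, h8⟩
            · rcases (h.lkQ x y hy).2.2 i' h6 with h9 | ⟨h9, h10⟩
              · omega
              · exfalso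
                subst h10
                -- w = y = z > p = i'
                have h11 : y = z := by
                  obtain ⟨k, hk, h12, h13⟩ := infix_idx hy
                  obtain ⟨k', hk', h14, h15⟩ := infix_idx hazQ
                  have h16 : k = k' := (hQnd.getElem_inj_iff).mp (h12.trans h14.symm)
                  subst h16
                  rw [← h13, h15]
                omega
            · subst h7
              subst h8
              exact ⟨rfl, by omega, h4⟩
          · subst h1
            have hwτ : w ∉ Q := hτ w (by simp)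
            rcases Qp x hxQ hxz w hwx with h3 | ⟨h3, h4⟩
            · exact absurd h3 hwτ
            · subst h3
              subst h4
              refine ⟨rfl, ?_, hwx⟩
              rw [List.sum_append, List.sum_singleton]
              omega
        obtain ⟨rfl, h2, h3⟩ := hpa
        have h1 := hxr q.reverse ⟨[z], by rw [hq]; simp⟩
        simp only [List.sum_cons, List.sum_reverse] at h1
        simp only [List.sum_cons] at hsum
        exact ⟨Or.inl h3, by omega⟩
    · push Not at hQ
      left
      -- a run larger than z has no successor in the main chain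
      have hbig : ∀ w x, z < w → Adj g w x → x ∉ A := by
        intro w x hw hwx hx
        obtain ⟨b, hb, hb2⟩ := predA w x hwx hx
        rcases hb2 with rfl | ⟨hb2, -⟩
        · have := h.leA w (infix_left hb)
          omega
        · omega
      have hbigch : ∀ L : List ℕ, List.IsChain (Adj g) L → (∀ x ∈ L, x ∈ σ) →
          (∀ x r, L = x :: r → z < x) → ∀ x ∈ L, z < x := by
        intro L
        induction L with
        | nil => simp
        | cons y L ih =>
          intro h1 h2 h3 x hx
          have hy := h3 y L rfl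
          rcases List.mem_cons.mp hx with rfl | hx
          · exact hy
          · refine ih h1.of_cons (fun x hx => h2 x (List.mem_cons_of_mem _ hx)) ?_ x hx
            intro y' r hr
            subst hr
            have h4 : Adj g y y' := by
              cases h1 with
              | cons_cons h _ => exact h
            by_contra hc
            rcases h.only y' (hmem y' (h2 y' (by simp))) (by omega) with h5 | h5
            · exact hbig y y' hy h4 h5
            · exact hQ y' (h2 y' (by simp)) h5
      cases σ with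
      | nil => exact absurd rfl hσ
      | cons x r =>
        obtain ⟨hix, i', hii', hi'x⟩ := hbi.head
        by_cases hxA : x ∈ A
        · right
          obtain ⟨b, hb, hb2⟩ := predA i x hix hxA
          obtain ⟨b', hb', hb2'⟩ := predA i' x hi'x hxA
          have hbb : b = b' := by
            obtain ⟨k, hk, h12, h13⟩ := infix_idx hb
            obtain ⟨k', hk', h14, h15⟩ := infix_idx hb'
            have h16 : k + 1 = k' + 1 := (hAnd.getElem_inj_iff).mp (h13.trans h15.symm)
            have h17 : k = k' := by omega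
            subst h17
            rw [← h12, h14]
          subst hbb
          have hiv : i = v := by omega
          subst hiv
          obtain ⟨s1, hs4⟩ := hs3 x hxA hix
          have hpre : (x :: s1) <+: (x :: r) := by
            refine follow_out (g := g) s1 x r ?_ hch hlast
            intro b c hbc
            rw [← hs4] at hbc
            exact (h.lkA b c (hbc.trans hs2.isInfix)).2.1
          obtain ⟨σ', hσ'⟩ := hpre
          have hsσ : x :: r = s' ++ p :: σ' := by
            rw [← hσ', ← hs4, hs', List.append_assoc]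
            rfl
          have hpσ : ∀ y r', σ' = y :: r' → Adj g p y := by
            intro y r' hy
            rw [hsσ, hy] at hch
            have := (List.isChain_append.mp hch).2.1
            cases this with
            | cons_cons h _ => exact h
          have hallσ : ∀ y ∈ σ', y ∈ x :: r := by
            intro y hy
            rw [hsσ]
            simp [hy]
          refine ⟨rfl, ⟨x, hix, ?_⟩, hj, σ', ?_, ?_, ?_, hpσ, ?_⟩
          · have := h.leA x hxA
            omega
          · refine hbigch σ' ?_ hallσ ?_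
            · rw [hsσ] at hch
              exact (List.isChain_append.mp hch).2.1.of_cons
            · intro y r' hy
              by_contra hc
              have h1 := hpσ y r' hy
              have h2 : y ∈ x :: r := hallσ y (by rw [hy]; simp)
              rcases h.only y (hmem y h2) (by omega) with h5 | h5
              · obtain ⟨c, hc1, hc2⟩ := predA p y h1 h5
                rcases hc2 with rfl | ⟨hc2, -⟩
                · exact no_succ hAnd h.hA hc1
                · omega
              · exact hQ y h2 h5
          · rw [← hσ', ← hs4, List.sum_append]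
          · intro h1
            subst h1
            have h2 := hlast2 s' p (by rw [hsσ])
            exact h2
          · intro y r' hy
            exact hlast2 (s' ++ p :: r') y (by rw [hsσ, hy]; simp)
        · left
          have hzx : z < x := by
            by_contra hc
            rcases h.only x (hmem x (by simp)) (by omega) with h5 | h5
            · exact hxA h5
            · exact hQ x (by simp) h5
          refine ⟨hbigch (x :: r) hch (fun _ hy => hy) ?_, ?_, hj⟩
          · intro y r' hy
            have : x = y := by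
              injection hy
            omega
          · by_cases hi : i ≤ z
            · rcases fromi i x hix hi with h4 | h4 | h4
              · exact Or.inl h4
              · exact Or.inr (Or.inl h4)
              · have := oldj _ _ h4
                omega
            · exact Or.inr (Or.inr (by omega))
  refine ⟨s.sum, s, hs1, hs2, rfl, ?_⟩
  refine
    { vp := hvp
      pz := hpz
      va := hva
      az := haz
      psg := ?_
      mp := ?_
      mz := h.memQ z hzQ
      mv := h.memQ v hvQ
      g0 := lt_of_le_of_lt (h.leA _ hg0) hpz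
      toj := toj
      fromi := fromi
      oldi := oldi
      oldj := oldj
      olds := ?_
      leak1 := leak1
      leakw := ?_
      lp1 := h.lp
      lpw := ?_
      once := ?_
      Qv := hvQ
      Qz := hzQ
      Qle := h.leQ
      Qg := hg0Q
      Qs := Qs
      Qp := Qp
      forms1 := ?_
      forms2 := ?_ }
  · rw [hs', List.sum_append, List.sum_singleton]
    omega
  · obtain ⟨k, hk, hkp⟩ := List.mem_iff_getElem.mp hpA
    exact ⟨k, (h.pre k hk).trans hkp⟩
  · intro i j ho hs
    rw [strong_iff hgb] at hs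
    obtain ⟨-, -, x, hx, hx2⟩ := hs
    have := oldout i j ho x hx2
    omega
  · intro m hm hmz hw
    rw [weak_iff hgb] at hw
    have hmA := leakA m hm hmz
    obtain ⟨b, hb, hb2⟩ := predA v m hm hmA
    rcases hb2 with rfl | ⟨-, hb2⟩
    · exact hdis _ (infix_left hb) hvQ
    · have := hw.2.1 b (h.lkA b m hb).1
      omega
  · intro hpa hw
    rw [weak_iff hgb] at hw
    have := hw.2.1 z (h.lkQ a z hazQ).1
    omega
  · intro hl
    have key : ∀ k (hk : k < A.length) t, g t = A[k] → t = k := by
      intro k
      induction k with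
      | zero =>
        intro hk t ht
        exact h.h0 t (by rw [ht, h.pre 0 hk])
      | succ k ih =>
        intro hk t ht
        have ht0 : t ≠ 0 := by
          rintro rfl
          rw [h.pre 0 hlen] at ht
          have := (hAnd.getElem_inj_iff).mp ht
          omega
        obtain ⟨t', rfl⟩ := Nat.exists_eq_succ_of_ne_zero ht0
        rcases (h.lkA _ _ (idx_infix k hk)).2.2 _ ⟨t', rfl, ht⟩ with h1 | ⟨h1, -⟩
        · have := ih (by omega) t' h1
          omega
        · have h2 := hl _ ⟨t', h1, ht⟩
          have h3 := h.leA _ (List.getElem_mem hk)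
          omega
    obtain ⟨k, hk, hkp⟩ := List.mem_iff_getElem.mp hpA
    intro s t hs ht
    have h1 := key k hk s (hs.trans hkp.symm)
    have h2 := key k hk t (ht.trans hkp.symm)
    omega
  · intro i σ j hσ hbi hlt
    rcases hforms i σ j hσ hbi with h1 | ⟨-, h1⟩ | h1
    · exact h1
    · omega
    · omega
  · intro h1 h2 h3 i σ j hσ hbi hlt
    rcases hforms i σ j hσ hbi with h4 | ⟨h4, -⟩ | h4
    · exact h4
    · rcases h4 with h4 | h4 | h4
      · exact absurd h4 h1
      · exact absurd h4 h2
      · exact absurd h4 h3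
    · omega

/-- The main part of the new runs of a window: `x 1, x 3, ..., x 19`. -/
def odd10 (G : ℕ) : List ℕ :=
  [G + 2 ^ 1, G + 2 ^ 3, G + 2 ^ 5, G + 2 ^ 7, G + 2 ^ 9, G + 2 ^ 11, G + 2 ^ 13, G + 2 ^ 15,
    G + 2 ^ 17, G + 2 ^ 19]

/-- The pending part of the new runs of a window: `x 2, x 4, ..., x 20`. -/
def even10 (G : ℕ) : List ℕ :=
  [G + 2 ^ 2, G + 2 ^ 4, G + 2 ^ 6, G + 2 ^ 8, G + 2 ^ 10, G + 2 ^ 12, G + 2 ^ 14, G + 2 ^ 16,
    G + 2 ^ 18, G + 2 ^ 20]

/-- Extension of a prefix of `g` along links with one way out. -/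
private theorem ext_pre {g : ℕ → ℕ} : ∀ (L A : List ℕ) (p : ℕ), (∃ s, A = s ++ [p]) →
    (∀ (k : ℕ) (h : k < A.length), g k = A[k]) →
    List.IsChain (fun b c => ∀ x, Adj g b x → x = c) (p :: L) →
    ∀ (k : ℕ) (h : k < (A ++ L).length), g k = (A ++ L)[k]
  | [], A, p, _, h2, _ => by
    intro k hk
    simp only [List.append_nil] at hk ⊢
    exact h2 k hk
  | x :: L, A, p, h1, h2, h3 => by
    have h4 : ∀ (k : ℕ) (h : k < (A ++ [x]).length), g k = (A ++ [x])[k] := by
      intro k hk
      by_cases hkA : k < A.length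
      · rw [List.getElem_append_left hkA]
        exact h2 k hkA
      · have hkA' : k = A.length := by
          simp only [List.length_append, List.length_singleton] at hk
          omega
        subst hkA'
        obtain ⟨s, hs⟩ := h1
        have h5 : g s.length = p := by
          rw [h2 s.length (by rw [hs]; simp)]
          simp [hs]
        have h6 : ∀ y, Adj g p y → y = x := by
          cases h3 with
          | cons_cons h _ => exact h
        have h7 := h6 (g (s.length + 1)) ⟨s.length, h5, rfl⟩
        simp only [List.getElem_append_right (le_refl _), Nat.sub_self, List.getElem_cons_zero]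
        rw [← h7, hs]
        simp
    have h5 := ext_pre L (A ++ [x]) x ⟨A, rfl⟩ h4 h3.of_cons
    intro k hk
    have h6 : A ++ x :: L = (A ++ [x]) ++ L := by simp
    have h7 := h5 k (by rw [← h6]; exact hk)
    rw [h7]
    congr 1
    exact h6.symm

/-- Extension of the uniqueness of the visits along links with one way in. -/
private theorem ext_once {g : ℕ → ℕ} : ∀ (L A : List ℕ) (p : ℕ), (∃ s, A = s ++ [p]) →
    (∀ (k : ℕ) (h : k < A.length) (s : ℕ), g s = A[k] → s = k) → g 0 ∉ L →
    List.IsChain (fun b c => ∀ x, Adj g x c → x = b) (p :: L) →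
    ∀ (k : ℕ) (h : k < (A ++ L).length) (s : ℕ), g s = (A ++ L)[k] → s = k
  | [], A, p, _, h2, _, _ => by
    intro k hk
    simp only [List.append_nil] at hk ⊢
    exact h2 k hk
  | x :: L, A, p, h1, h2, h0, h3 => by
    have h4 : ∀ (k : ℕ) (h : k < (A ++ [x]).length) (s : ℕ), g s = (A ++ [x])[k] → s = k := by
      intro k hk s hs
      by_cases hkA : k < A.length
      · rw [List.getElem_append_left hkA] at hs
        exact h2 k hkA s hs
      · have hkA' : k = A.length := by
          simp only [List.length_append, List.length_singleton] at hk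
          omega
        subst hkA'
        have hsx : g s = x := by rw [hs]; simp
        have hs0 : s ≠ 0 := by
          rintro rfl
          exact h0 (by rw [hsx]; simp)
        obtain ⟨s', rfl⟩ := Nat.exists_eq_succ_of_ne_zero hs0
        have h6 : ∀ y, Adj g y x → y = p := by
          cases h3 with
          | cons_cons h _ => exact h
        have h7 := h6 (g s') ⟨s', rfl, hsx⟩
        obtain ⟨u, hu⟩ := h1
        have h8 : A[u.length]'(by rw [hu]; simp) = p := by simp [hu]
        have h9 := h2 u.length (by rw [hu]; simp) s' (h7.trans h8.symm)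
        rw [h9, hu]
        simp
    have h5 := ext_once L (A ++ [x]) x ⟨A, rfl⟩ h4 (fun hc => h0 (by simp [hc])) h3.of_cons
    intro k hk s hs
    have h6 : A ++ x :: L = (A ++ [x]) ++ L := by simp
    refine h5 k (by rw [← h6]; exact hk) s ?_
    rw [hs]
    congr 1

private theorem nodup4 {A Q L M : List ℕ} {z : ℕ} (h : (A ++ Q).Nodup) (hA : ∀ x ∈ A, x ≤ z)
    (hQ : ∀ x ∈ Q, x ≤ z) (hLM : (L ++ M).Nodup) (hL : ∀ x ∈ L, z < x) (hM : ∀ x ∈ M, z < x) :
    ((A ++ L) ++ (Q ++ M)).Nodup := by
  have h1 : ((A ++ L) ++ (Q ++ M)).Perm ((A ++ Q) ++ (L ++ M)) := by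
    rw [List.append_assoc, List.append_assoc]
    refine List.Perm.append_left A ?_
    rw [← List.append_assoc, ← List.append_assoc]
    exact List.Perm.append_right M List.perm_append_comm
  rw [h1.nodup_iff, List.nodup_append]
  refine ⟨h, hLM, ?_⟩
  rintro x hx y hy rfl
  have h2 : x ≤ z := by
    rcases List.mem_append.mp hx with h3 | h3
    · exact hA x h3
    · exact hQ x h3
  have h3 : z < x := by
    rcases List.mem_append.mp hy with h4 | h4
    · exact hL x h4
    · exact hM x h4
  omega

private theorem last_of {L : List ℕ} {x : ℕ} (h : ∃ s, L = s ++ [x]) : L.getLast? = some x := by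
  obtain ⟨s, rfl⟩ := h
  simp

private theorem isChain_ext {R : ℕ → ℕ → Prop} {L M : List ℕ} {x : ℕ} (hx : ∃ s, L = s ++ [x])
    (hL : List.IsChain R L) (hM : List.IsChain R (x :: M)) : List.IsChain R (L ++ M) := by
  rw [List.isChain_append]
  refine ⟨hL, hM.of_cons, ?_⟩
  intro a ha b hb
  rw [last_of hx] at ha
  have ha' : x = a := by simpa using ha
  subst ha'
  cases M with
  | nil => simp at hb
  | cons y M =>
    have hb' : y = b := by simpa using hb
    subst hb'
    cases hM with
    | cons_cons h _ => exact h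

private theorem g0A {g : ℕ → ℕ} {A : List ℕ} {p : ℕ} (hA : ∃ s, A = s ++ [p])
    (pre : ∀ (k : ℕ) (h : k < A.length), g k = A[k]) : g 0 ∈ A := by
  obtain ⟨s, hs⟩ := hA
  have hlen : 0 < A.length := by rw [hs]; simp
  rw [pre 0 hlen]
  exact List.getElem_mem hlen

private theorem SN.chQ {g : ℕ → ℕ} {A Q : List ℕ} {p z v : ℕ} (h : SN g A Q p z v) :
    List.IsChain (Uq g) Q := chain_iff.mp h.lk

private theorem Uq.chain_out {g : ℕ → ℕ} {L : List ℕ} (h : List.IsChain (Uq g) L) :
    List.IsChain (fun b c => ∀ x, Adj g b x → x = c) L := h.imp fun _ _ h => h.out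

private theorem Uq.chain_inn {g : ℕ → ℕ} {L : List ℕ} (h : List.IsChain (Uq g) L) :
    List.IsChain (fun b c => ∀ x, Adj g x c → x = b) L := h.imp fun _ _ h => h.inn

private theorem mem_odd10 {G x : ℕ} (h : x ∈ odd10 G) : G < x ∧ x ≤ G + 2 ^ 19 := by
  simp only [odd10, List.mem_cons, List.not_mem_nil, or_false] at h
  norm_num at h ⊢
  omega

private theorem mem_even10 {G x : ℕ} (h : x ∈ even10 G) : G < x ∧ x ≤ G + 2 ^ 20 := by
  simp only [even10, List.mem_cons, List.not_mem_nil, or_false] at h
  norm_num at h ⊢
  omega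

private theorem nodup_oe (G : ℕ) : (odd10 G ++ even10 G).Nodup := by
  simp [odd10, even10]

private theorem oe_mem {G y : ℕ} (h : ∃ i, 1 ≤ i ∧ i ≤ 20 ∧ y = G + 2 ^ i) :
    y ∈ odd10 G ∨ y ∈ even10 G := by
  obtain ⟨i, h1, h2, rfl⟩ := h
  interval_cases i <;> simp [odd10, even10]

theorem SN.window {g : ℕ → ℕ} {A Q : List ℕ} {p z v G : ℕ} (h : SN g A Q p z v) (hG : z < G)
    (ho : WNo g p z G) :
    SN g (A ++ odd10 G) (Q ++ even10 G) (G + 2 ^ 19) (G + 2 ^ 20) v := by
  have hvp := h.vp
  have hpz := h.pz
  have hc1 : List.IsChain (Uq g) (p :: odd10 G) := by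
    simp only [odd10, List.isChain_cons_cons, List.isChain_singleton, and_true]
    exact ⟨ho.px, ho.xx 1 (by norm_num) (by norm_num), ho.xx 3 (by norm_num) (by norm_num),
      ho.xx 5 (by norm_num) (by norm_num), ho.xx 7 (by norm_num) (by norm_num),
      ho.xx 9 (by norm_num) (by norm_num), ho.xx 11 (by norm_num) (by norm_num),
      ho.xx 13 (by norm_num) (by norm_num), ho.xx 15 (by norm_num) (by norm_num),
      ho.xx 17 (by norm_num) (by norm_num)⟩
  have hc2 : List.IsChain (Uq g) (z :: even10 G) := by
    simp only [even10, List.isChain_cons_cons, List.isChain_singleton, and_true]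
    exact ⟨ho.zx, ho.xx 2 (by norm_num) (by norm_num), ho.xx 4 (by norm_num) (by norm_num),
      ho.xx 6 (by norm_num) (by norm_num), ho.xx 8 (by norm_num) (by norm_num),
      ho.xx 10 (by norm_num) (by norm_num), ho.xx 12 (by norm_num) (by norm_num),
      ho.xx 14 (by norm_num) (by norm_num), ho.xx 16 (by norm_num) (by norm_num),
      ho.xx 18 (by norm_num) (by norm_num)⟩
  have hg0 := g0A h.hA h.pre
  exact
    { hA := ⟨A ++ (odd10 G).dropLast, by simp [odd10]⟩
      hv := by
        obtain ⟨s, hs⟩ := h.hv
        exact ⟨s ++ even10 G, by rw [hs]; simp⟩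
      hz := ⟨Q ++ (even10 G).dropLast, by simp [even10]⟩
      pre := ext_pre _ _ p h.hA h.pre (Uq.chain_out hc1)
      once := by
        refine ext_once _ _ p h.hA h.once ?_ (Uq.chain_inn hc1)
        intro hc
        have h1 := mem_odd10 hc
        have h2 := h.leA _ hg0
        omega
      memQ := by
        intro x hx
        rcases List.mem_append.mp hx with h1 | h1
        · exact h.memQ x h1
        · have h2 : ∀ (L : List ℕ) (z : ℕ), List.IsChain (Uq g) (z :: L) → ∀ y ∈ L,
              y ∈ Set.range g := by
            intro L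
            induction L with
            | nil => simp
            | cons w L ih =>
              intro z hz y hy
              cases hz with
              | cons_cons h3 h4 =>
                rcases List.mem_cons.mp hy with rfl | hy
                · obtain ⟨t, -, ht⟩ := h3.adj
                  exact ⟨t + 1, ht⟩
                · exact ih w h4 y hy
          exact h2 _ _ hc2 x h1
      lk := chain_iff.mpr (isChain_ext h.hz h.chQ hc2)
      nd := nodup4 h.nd (fun x hx => (h.leA x hx).trans hpz.le) h.leQ (nodup_oe G)
        (fun x hx => hG.trans (mem_odd10 hx).1) (fun x hx => hG.trans (mem_even10 hx).1)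
      only := by
        intro y hy hyz
        by_cases hyz' : y ≤ z
        · rcases h.only y hy hyz' with h1 | h1
          · exact Or.inl (List.mem_append_left _ h1)
          · exact Or.inr (List.mem_append_left _ h1)
        · rcases oe_mem (ho.only y hy (by omega) hyz) with h1 | h1
          · exact Or.inl (List.mem_append_right _ h1)
          · exact Or.inr (List.mem_append_right _ h1)
      leA := by
        intro x hx
        rcases List.mem_append.mp hx with h1 | h1
        · have := h.leA x h1
          omega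
        · exact (mem_odd10 h1).2
      leQ := by
        intro x hx
        rcases List.mem_append.mp hx with h1 | h1
        · have := h.leQ x h1
          omega
        · exact (mem_even10 h1).2
      vleQ := by
        intro x hx
        rcases List.mem_append.mp hx with h1 | h1
        · exact h.vleQ x h1
        · have := (mem_even10 h1).1
          omega
      vp := by omega
      pz := by norm_num }

private theorem mem_of_chain {g : ℕ → ℕ} : ∀ (L : List ℕ) (z : ℕ), List.IsChain (Uq g) (z :: L) →
    ∀ y ∈ L, y ∈ Set.range g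
  | [], _, _ => by simp
  | w :: L, z, hz => by
    intro y hy
    cases hz with
    | cons_cons h3 h4 =>
      rcases List.mem_cons.mp hy with rfl | hy
      · obtain ⟨t, -, ht⟩ := h3.adj
        exact ⟨t + 1, ht⟩
      · exact mem_of_chain L w h4 y hy

private theorem odd10_idx {G x : ℕ} (h : x ∈ odd10 G) : ∃ n, 1 ≤ n ∧ n ≤ 19 ∧ n % 2 = 1 ∧
    x = G + 2 ^ n := by
  simp only [odd10, List.mem_cons, List.not_mem_nil, or_false] at h
  rcases h with h | h | h | h | h | h | h | h | h | h
  · exact ⟨1, by norm_num, by norm_num, by norm_num, h⟩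
  · exact ⟨3, by norm_num, by norm_num, by norm_num, h⟩
  · exact ⟨5, by norm_num, by norm_num, by norm_num, h⟩
  · exact ⟨7, by norm_num, by norm_num, by norm_num, h⟩
  · exact ⟨9, by norm_num, by norm_num, by norm_num, h⟩
  · exact ⟨11, by norm_num, by norm_num, by norm_num, h⟩
  · exact ⟨13, by norm_num, by norm_num, by norm_num, h⟩
  · exact ⟨15, by norm_num, by norm_num, by norm_num, h⟩
  · exact ⟨17, by norm_num, by norm_num, by norm_num, h⟩
  · exact ⟨19, by norm_num, by norm_num, by norm_num, h⟩

theorem SR.window {g : ℕ → ℕ} {A Q : List ℕ} {p z v a G : ℕ} (h : SR g A Q p z v a) (hG : z < G)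
    (ho : WRo g p z v G) (hna : ¬ Adj g p a) :
    SR g (A ++ odd10 G) (Q ++ even10 G) (G + 2 ^ 19) (G + 2 ^ 20) v (G + 2 ^ 18) := by
  have hvp := h.vp
  have hpz := h.pz
  have hz' : ∃ s, Q = s ++ [z] := by
    obtain ⟨s, hs⟩ := h.hz
    exact ⟨s ++ [a], by rw [hs]; simp⟩
  have hcA : List.IsChain (fun b c => Adj g b c ∧ (∀ x, Adj g b x → x = c) ∧
      ∀ x, Adj g x c → x = b ∨ (x = v ∧ v < b)) (p :: odd10 G) := by
    have hst : ∀ n, 1 ≤ n → n ≤ 17 → n % 2 = 1 → Adj g (G + 2 ^ n) (G + 2 ^ (n + 2)) ∧
        (∀ x, Adj g (G + 2 ^ n) x → x = G + 2 ^ (n + 2)) ∧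
        ∀ x, Adj g x (G + 2 ^ (n + 2)) → x = G + 2 ^ n ∨ (x = v ∧ v < G + 2 ^ n) := by
      intro n h1 h2 h3
      refine ⟨ho.o1 n h1 h2 h3, ho.o2 n h1 h2 h3, fun x hx => ?_⟩
      rcases ho.o3 n h1 h2 h3 x hx with h4 | h4
      · exact Or.inl h4
      · exact Or.inr ⟨h4, lt_of_lt_of_le (by omega : v < G) (Nat.le_add_right _ _)⟩
    simp only [odd10, List.isChain_cons_cons, List.isChain_singleton, and_true]
    refine ⟨⟨ho.p1, ho.p2, fun x hx => ?_⟩, hst 1 (by norm_num) (by norm_num) (by norm_num),
      hst 3 (by norm_num) (by norm_num) (by norm_num),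
      hst 5 (by norm_num) (by norm_num) (by norm_num),
      hst 7 (by norm_num) (by norm_num) (by norm_num),
      hst 9 (by norm_num) (by norm_num) (by norm_num),
      hst 11 (by norm_num) (by norm_num) (by norm_num),
      hst 13 (by norm_num) (by norm_num) (by norm_num),
      hst 15 (by norm_num) (by norm_num) (by norm_num),
      hst 17 (by norm_num) (by norm_num) (by norm_num)⟩
    rcases ho.p3 x hx with h4 | h4
    · exact Or.inl h4
    · exact Or.inr ⟨h4, hvp⟩
  have hcQ : List.IsChain (fun b c => Adj g c b ∧ (∀ x, Adj g c x → x = b) ∧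
      ∀ x, Adj g x b → x = c ∨ (x = G + 2 ^ 19 ∧ b = G + 2 ^ 18)) (z :: even10 G) := by
    have hu : ∀ b c, Uq g c b → Adj g c b ∧ (∀ x, Adj g c x → x = b) ∧
        ∀ x, Adj g x b → x = c ∨ (x = G + 2 ^ 19 ∧ b = G + 2 ^ 18) := fun b c h =>
      ⟨h.adj, h.out, fun x hx => Or.inl (h.inn x hx)⟩
    simp only [even10, List.isChain_cons_cons, List.isChain_singleton, and_true]
    refine ⟨hu _ _ ho.ze, hu _ _ (ho.ev 2 (by norm_num) (by norm_num) (by norm_num)),
      hu _ _ (ho.ev 4 (by norm_num) (by norm_num) (by norm_num)),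
      hu _ _ (ho.ev 6 (by norm_num) (by norm_num) (by norm_num)),
      hu _ _ (ho.ev 8 (by norm_num) (by norm_num) (by norm_num)),
      hu _ _ (ho.ev 10 (by norm_num) (by norm_num) (by norm_num)),
      hu _ _ (ho.ev 12 (by norm_num) (by norm_num) (by norm_num)),
      hu _ _ (ho.ev 14 (by norm_num) (by norm_num) (by norm_num)),
      hu _ _ (ho.ev 16 (by norm_num) (by norm_num) (by norm_num)), ho.q1, ho.q2, fun x hx => ?_⟩
    exact ho.q3 x hx
  have hQ0 : List.IsChain (fun b c => Adj g c b ∧ (∀ x, Adj g c x → x = b) ∧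
      ∀ x, Adj g x b → x = c ∨ (x = G + 2 ^ 19 ∧ b = G + 2 ^ 18)) Q := by
    rw [← chain_iff]
    intro b c hbc
    obtain ⟨h1, h2, h3⟩ := h.lkQ b c hbc
    refine ⟨h1, h2, fun x hx => ?_⟩
    rcases h3 x hx with h4 | ⟨h4, h5⟩
    · exact Or.inl h4
    · subst h4
      subst h5
      exact absurd hx hna
  have hA0 : List.IsChain (fun b c => Adj g b c ∧ (∀ x, Adj g b x → x = c) ∧
      ∀ x, Adj g x c → x = b ∨ (x = v ∧ v < b)) A := chain_iff.mp h.lkA
  exact
    { hA := ⟨A ++ (odd10 G).dropLast, by simp [odd10]⟩
      hv := by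
        obtain ⟨s, hs⟩ := h.hv
        exact ⟨s ++ even10 G, by rw [hs]; simp⟩
      hz := ⟨Q ++ (even10 G).dropLast.dropLast, by simp [even10]⟩
      pre := ext_pre _ _ p h.hA h.pre (hcA.imp fun _ _ h => h.2.1)
      h0 := h.h0
      memQ := by
        intro x hx
        rcases List.mem_append.mp hx with h1 | h1
        · exact h.memQ x h1
        · have h2 : ∀ (L : List ℕ) (z : ℕ), List.IsChain (fun b c => Adj g c b ∧
              (∀ x, Adj g c x → x = b) ∧
              ∀ x, Adj g x b → x = c ∨ (x = G + 2 ^ 19 ∧ b = G + 2 ^ 18)) (z :: L) →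
              ∀ y ∈ L, y ∈ Set.range g := by
            intro L
            induction L with
            | nil => simp
            | cons w L ih =>
              intro z hz y hy
              cases hz with
              | cons_cons h3 h4 =>
                rcases List.mem_cons.mp hy with rfl | hy
                · obtain ⟨t, ht, -⟩ := h3.1
                  exact ⟨t, ht⟩
                · exact ih w h4 y hy
          exact h2 _ _ hcQ x h1
      lkA := chain_iff.mpr (isChain_ext h.hA hA0 hcA)
      leak := by
        intro m hm hvm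
        rcases List.mem_append.mp hm with h1 | h1
        · exact h.leak m h1 hvm
        · obtain ⟨n, h2, h3, h4, rfl⟩ := odd10_idx h1
          exact ho.lk n h2 h3 h4 hvm
      lkQ := chain_iff.mpr (isChain_ext hz' hQ0 hcQ)
      lp := ho.lp
      nd := nodup4 h.nd (fun x hx => (h.leA x hx).trans hpz.le) h.leQ (nodup_oe G)
        (fun x hx => hG.trans (mem_odd10 hx).1) (fun x hx => hG.trans (mem_even10 hx).1)
      only := by
        intro y hy hyz
        by_cases hyz' : y ≤ z
        · rcases h.only y hy hyz' with h1 | h1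
          · exact Or.inl (List.mem_append_left _ h1)
          · exact Or.inr (List.mem_append_left _ h1)
        · rcases oe_mem (ho.only y hy (by omega) hyz) with h1 | h1
          · exact Or.inl (List.mem_append_right _ h1)
          · exact Or.inr (List.mem_append_right _ h1)
      leA := by
        intro x hx
        rcases List.mem_append.mp hx with h1 | h1
        · have := h.leA x h1
          omega
        · exact (mem_odd10 h1).2
      leQ := by
        intro x hx
        rcases List.mem_append.mp hx with h1 | h1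
        · have := h.leQ x h1
          omega
        · exact (mem_even10 h1).2
      vleQ := by
        intro x hx
        rcases List.mem_append.mp hx with h1 | h1
        · exact h.vleQ x h1
        · have := (mem_even10 h1).1
          omega
      vp := by omega
      pz := by norm_num }

/-- The order of the numbers of a gadget stage. -/
private theorem GP.order {p z v ν X C B Y Z1 Z2 : ℕ} (hP : GP p z v ν X C B Y Z1 Z2) :
    z < X ∧ X < C ∧ C < B ∧ B < Z1 ∧ Z1 < Y ∧ Y < Z2 ∧ X + ν < C := by
  have h1 := hP.hz
  have h2 := hP.hX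
  have h3 := hP.hC
  have h4 := hP.hB2
  have h5 := hP.hY
  have h6 := hP.hZ1
  have h7 := hP.hZ2
  have h8 := hP.hn
  have h9 := hP.hn'
  norm_num at h8
  refine ⟨by omega, by omega, by omega, by omega, by omega, by omega, by omega⟩

theorem SN.keep {g : ℕ → ℕ} {A Q : List ℕ} {p z v ν X C B Y Z1 Z2 : ℕ} (h : SN g A Q p z v)
    (hP : GP p z v ν X C B Y Z1 Z2) (ho : GNk g p z X C B Y Z1 Z2) :
    SN g (A ++ [X, Y]) (Q ++ [B, C, Z1, Z2]) Y Z2 v := by
  obtain ⟨o1, o2, o3, o4, o5, o6, -⟩ := hP.order
  have hvp := h.vp
  have hpz := h.pz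
  have hc1 : List.IsChain (Uq g) (p :: [X, Y]) := by
    simp only [List.isChain_cons_cons, List.isChain_singleton, and_true]
    exact ⟨ho.pX, ho.XY⟩
  have hc2 : List.IsChain (Uq g) (z :: [B, C, Z1, Z2]) := by
    simp only [List.isChain_cons_cons, List.isChain_singleton, and_true]
    exact ⟨ho.zB, ho.BC, ho.CZ, ho.ZZ⟩
  have hg0 := g0A h.hA h.pre
  have m1 : ∀ x ∈ [X, Y], z < x ∧ x ≤ Y := by
    intro x hx
    simp only [List.mem_cons, List.not_mem_nil, or_false] at hx
    omega
  have m2 : ∀ x ∈ [B, C, Z1, Z2], z < x ∧ x ≤ Z2 := by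
    intro x hx
    simp only [List.mem_cons, List.not_mem_nil, or_false] at hx
    omega
  exact
    { hA := ⟨A ++ [X], by simp⟩
      hv := by
        obtain ⟨s, hs⟩ := h.hv
        exact ⟨s ++ [B, C, Z1, Z2], by rw [hs]; simp⟩
      hz := ⟨Q ++ [B, C, Z1], by simp⟩
      pre := ext_pre _ _ p h.hA h.pre (Uq.chain_out hc1)
      once := by
        refine ext_once _ _ p h.hA h.once ?_ (Uq.chain_inn hc1)
        intro hc
        have h1 := m1 _ hc
        have h2 := h.leA _ hg0
        omega
      memQ := by
        intro x hx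
        rcases List.mem_append.mp hx with h1 | h1
        · exact h.memQ x h1
        · exact mem_of_chain _ _ hc2 x h1
      lk := chain_iff.mpr (isChain_ext h.hz h.chQ hc2)
      nd := by
        refine nodup4 h.nd (fun x hx => (h.leA x hx).trans hpz.le) h.leQ ?_
          (fun x hx => (m1 x hx).1) (fun x hx => (m2 x hx).1)
        simp only [List.cons_append, List.nil_append, List.nodup_cons, List.mem_cons,
          List.not_mem_nil, or_false, not_or, List.nodup_nil, not_false_eq_true, and_true]
        omega
      only := by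
        intro y hy hyz
        by_cases hyz' : y ≤ z
        · rcases h.only y hy hyz' with h1 | h1
          · exact Or.inl (List.mem_append_left _ h1)
          · exact Or.inr (List.mem_append_left _ h1)
        · rcases ho.only y hy (by omega) hyz with h1 | h1 | h1 | h1 | h1 | h1 <;> simp [h1]
      leA := by
        intro x hx
        rcases List.mem_append.mp hx with h1 | h1
        · have := h.leA x h1
          omega
        · exact (m1 x h1).2
      leQ := by
        intro x hx
        rcases List.mem_append.mp hx with h1 | h1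
        · have := h.leQ x h1
          omega
        · exact (m2 x h1).2
      vleQ := by
        intro x hx
        rcases List.mem_append.mp hx with h1 | h1
        · exact h.vleQ x h1
        · have := (m2 x h1).1
          omega
      vp := by omega
      pz := by omega }

theorem SR.keep {g : ℕ → ℕ} {A Q : List ℕ} {p z v a ν X C B Y Z1 Z2 : ℕ} (h : SR g A Q p z v a)
    (hP : GP p z v ν X C B Y Z1 Z2) (ho : GRo g p z v X C B Y Z1 Z2) (hna : ¬ Adj g p a) :
    SR g (A ++ [X, Y]) (Q ++ [B, C, Z1, Z2]) Y Z2 v Z1 := by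
  obtain ⟨o1, o2, o3, o4, o5, o6, -⟩ := hP.order
  have hvp := h.vp
  have hpz := h.pz
  have hz' : ∃ s, Q = s ++ [z] := by
    obtain ⟨s, hs⟩ := h.hz
    exact ⟨s ++ [a], by rw [hs]; simp⟩
  have m1 : ∀ x ∈ [X, Y], z < x ∧ x ≤ Y := by
    intro x hx
    simp only [List.mem_cons, List.not_mem_nil, or_false] at hx
    omega
  have m2 : ∀ x ∈ [B, C, Z1, Z2], z < x ∧ x ≤ Z2 := by
    intro x hx
    simp only [List.mem_cons, List.not_mem_nil, or_false] at hx
    omega
  have hcA : List.IsChain (fun b c => Adj g b c ∧ (∀ x, Adj g b x → x = c) ∧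
      ∀ x, Adj g x c → x = b ∨ (x = v ∧ v < b)) (p :: [X, Y]) := by
    simp only [List.isChain_cons_cons, List.isChain_singleton, and_true]
    refine ⟨⟨ho.p1, ho.p2, fun x hx => ?_⟩, ho.X1, ho.X2, fun x hx => ?_⟩
    · rcases ho.p3 x hx with h4 | h4
      · exact Or.inl h4
      · exact Or.inr ⟨h4, hvp⟩
    · rcases ho.X3 x hx with h4 | h4
      · exact Or.inl h4
      · exact Or.inr ⟨h4, by omega⟩
  have hcQ : List.IsChain (fun b c => Adj g c b ∧ (∀ x, Adj g c x → x = b) ∧
      ∀ x, Adj g x b → x = c ∨ (x = Y ∧ b = Z1)) (z :: [B, C, Z1, Z2]) := by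
    have hu : ∀ b c, Uq g c b → Adj g c b ∧ (∀ x, Adj g c x → x = b) ∧
        ∀ x, Adj g x b → x = c ∨ (x = Y ∧ b = Z1) := fun b c h =>
      ⟨h.adj, h.out, fun x hx => Or.inl (h.inn x hx)⟩
    simp only [List.isChain_cons_cons, List.isChain_singleton, and_true]
    refine ⟨hu _ _ ho.Bz, hu _ _ ho.CB, hu _ _ ho.ZC, ho.q1, ho.q2, fun x hx => ?_⟩
    exact ho.q3 x hx
  have hQ0 : List.IsChain (fun b c => Adj g c b ∧ (∀ x, Adj g c x → x = b) ∧
      ∀ x, Adj g x b → x = c ∨ (x = Y ∧ b = Z1)) Q := by
    rw [← chain_iff]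
    intro b c hbc
    obtain ⟨h1, h2, h3⟩ := h.lkQ b c hbc
    refine ⟨h1, h2, fun x hx => ?_⟩
    rcases h3 x hx with h4 | ⟨h4, h5⟩
    · exact Or.inl h4
    · subst h4
      subst h5
      exact absurd hx hna
  have hA0 : List.IsChain (fun b c => Adj g b c ∧ (∀ x, Adj g b x → x = c) ∧
      ∀ x, Adj g x c → x = b ∨ (x = v ∧ v < b)) A := chain_iff.mp h.lkA
  exact
    { hA := ⟨A ++ [X], by simp⟩
      hv := by
        obtain ⟨s, hs⟩ := h.hv
        exact ⟨s ++ [B, C, Z1, Z2], by rw [hs]; simp⟩
      hz := ⟨Q ++ [B, C], by simp⟩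
      pre := ext_pre _ _ p h.hA h.pre (hcA.imp fun _ _ h => h.2.1)
      h0 := h.h0
      memQ := by
        intro x hx
        rcases List.mem_append.mp hx with h1 | h1
        · exact h.memQ x h1
        · simp only [List.mem_cons, List.not_mem_nil, or_false] at h1
          rcases h1 with rfl | rfl | rfl | rfl
          · obtain ⟨t, ht, -⟩ := ho.Bz.adj
            exact ⟨t, ht⟩
          · obtain ⟨t, ht, -⟩ := ho.CB.adj
            exact ⟨t, ht⟩
          · obtain ⟨t, ht, -⟩ := ho.ZC.adj
            exact ⟨t, ht⟩
          · obtain ⟨t, ht, -⟩ := ho.q1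
            exact ⟨t, ht⟩
      lkA := chain_iff.mpr (isChain_ext h.hA hA0 hcA)
      leak := by
        intro m hm hvm
        rcases List.mem_append.mp hm with h1 | h1
        · exact h.leak m h1 hvm
        · simp only [List.mem_cons, List.not_mem_nil, or_false] at h1
          rcases h1 with rfl | rfl
          · exact ho.lkX hvm
          · exact ho.lkY hvm
      lkQ := chain_iff.mpr (isChain_ext hz' hQ0 hcQ)
      lp := ho.lp
      nd := by
        refine nodup4 h.nd (fun x hx => (h.leA x hx).trans hpz.le) h.leQ ?_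
          (fun x hx => (m1 x hx).1) (fun x hx => (m2 x hx).1)
        simp only [List.cons_append, List.nil_append, List.nodup_cons, List.mem_cons,
          List.not_mem_nil, or_false, not_or, List.nodup_nil, not_false_eq_true, and_true]
        omega
      only := by
        intro y hy hyz
        by_cases hyz' : y ≤ z
        · rcases h.only y hy hyz' with h1 | h1
          · exact Or.inl (List.mem_append_left _ h1)
          · exact Or.inr (List.mem_append_left _ h1)
        · rcases ho.only y hy (by omega) hyz with h1 | h1 | h1 | h1 | h1 | h1 <;> simp [h1]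
      leA := by
        intro x hx
        rcases List.mem_append.mp hx with h1 | h1
        · have := h.leA x h1
          omega
        · exact (m1 x h1).2
      leQ := by
        intro x hx
        rcases List.mem_append.mp hx with h1 | h1
        · have := h.leQ x h1
          omega
        · exact (m2 x h1).2
      vleQ := by
        intro x hx
        rcases List.mem_append.mp hx with h1 | h1
        · exact h.vleQ x h1
        · have := (m2 x h1).1
          omega
      vp := by omega
      pz := by omega }

theorem SN.swap {g : ℕ → ℕ} {A Q : List ℕ} {p z v ν X C B Y Z1 Z2 : ℕ} (h : SN g A Q p z v)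
    (hP : GP p z v ν X C B Y Z1 Z2) (ho : GNs g p z v ν X C B Y Z1 Z2) :
    SN g (A ++ [X] ++ Q ++ [B, X + v, Y]) [C, Z1, Z2] Y Z2 C ∨
    SR g (A ++ [X] ++ Q ++ [B, X + v, Y]) [C, Z1, Z2] Y Z2 C Z1 := by
  obtain ⟨o1, o2, o3, o4, o5, o6, o7⟩ := hP.order
  have hvn := ho.vn
  rw [← hvn] at o7
  have hvp := h.vp
  have hpz := h.pz
  have hv26 := hP.hv
  have hg0 := g0A h.hA h.pre
  obtain ⟨q, hq⟩ := h.hv
  have hQX : ∃ s, [X] ++ Q = s ++ [z] := by
    obtain ⟨s, hs⟩ := h.hz
    exact ⟨[X] ++ s, by rw [hs]; simp⟩
  -- the whole new part, up to `B`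
  have hcX : List.IsChain (Uq g) (p :: ([X] ++ Q)) := by
    have h1 : List.IsChain (Uq g) (v :: q) := by
      rw [← hq]
      exact h.chQ
    rw [hq]
    simp only [List.cons_append, List.nil_append, List.isChain_cons_cons]
    exact ⟨ho.pX, ho.Xv, h1⟩
  have hmQ : ∀ x ∈ Q, x ≤ z := h.leQ
  have hAQ : ∀ x ∈ A, x ≤ p := h.leA
  have hA2 : ∃ s, A ++ [X] ++ Q = s ++ [z] := by
    obtain ⟨s, hs⟩ := h.hz
    exact ⟨A ++ [X] ++ s, by rw [hs]; simp⟩
  have hdis : ∀ x, x ∈ A → x ∈ Q → False := fun x h1 h2 =>
    (List.nodup_append.mp h.nd).2.2 x h1 x h2 rfl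
  have hpre2 : ∀ (k : ℕ) (h : k < (A ++ [X] ++ Q).length), g k = (A ++ [X] ++ Q)[k] := by
    have h1 := ext_pre ([X] ++ Q) A p h.hA h.pre (Uq.chain_out hcX)
    rw [← List.append_assoc] at h1
    exact h1
  have honce2 : ∀ (k : ℕ) (h : k < (A ++ [X] ++ Q).length) (s : ℕ),
      g s = (A ++ [X] ++ Q)[k] → s = k := by
    have h1 := ext_once ([X] ++ Q) A p h.hA h.once ?_ (Uq.chain_inn hcX)
    · rw [← List.append_assoc] at h1
      exact h1
    · intro hc
      have h2 := hAQ _ hg0
      rcases List.mem_append.mp hc with h3 | h3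
      · have h4 : g 0 = X := by simpa using h3
        omega
      · exact hdis _ hg0 h3
  have m1 : ∀ x ∈ [B, X + v, Y], z < x ∧ x ≤ Y := by
    intro x hx
    simp only [List.mem_cons, List.not_mem_nil, or_false] at hx
    omega
  have m2 : ∀ x ∈ [C, Z1, Z2], z < x ∧ x ≤ Z2 ∧ C ≤ x := by
    intro x hx
    simp only [List.mem_cons, List.not_mem_nil, or_false] at hx
    omega
  have m0 : ∀ x ∈ A ++ [X] ++ Q, x ≤ X := by
    intro x hx
    rcases List.mem_append.mp hx with h1 | h1
    · rcases List.mem_append.mp h1 with h2 | h2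
      · have := hAQ x h2
        omega
      · have h4 : x = X := by simpa using h2
        omega
    · have := hmQ x h1
      omega
  have hout : List.IsChain (fun b c => ∀ x, Adj g b x → x = c) (z :: [B, X + v, Y]) := by
    simp only [List.isChain_cons_cons, List.isChain_singleton, and_true]
    refine ⟨ho.zB.out, ?_, ho.SY.out⟩
    rcases ho.dir with ⟨h1, -, -⟩ | ⟨-, h1, -⟩
    · exact h1.out
    · exact h1
  have hpre := ext_pre [B, X + v, Y] (A ++ [X] ++ Q) z hA2 hpre2 hout
  have hnd : ((A ++ [X] ++ Q ++ [B, X + v, Y]) ++ [C, Z1, Z2]).Nodup := by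
    have h1 : (A ++ [X] ++ Q).Nodup := by
      have h2 : (A ++ [X] ++ Q).Perm ((A ++ Q) ++ [X]) := by
        rw [List.append_assoc, List.append_assoc]
        exact List.Perm.append_left A List.perm_append_comm
      rw [h2.nodup_iff, List.nodup_append]
      refine ⟨h.nd, by simp, ?_⟩
      rintro x hx y hy rfl
      have h4 : x = X := by simpa using hy
      rcases List.mem_append.mp hx with h3 | h3
      · have := hAQ x h3
        omega
      · have := hmQ x h3
        omega
    rw [List.append_assoc, List.nodup_append]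
    refine ⟨h1, ?_, ?_⟩
    · simp only [List.cons_append, List.nil_append, List.nodup_cons, List.mem_cons,
        List.not_mem_nil, or_false, not_or, List.nodup_nil, not_false_eq_true, and_true]
      omega
    · rintro x hx y hy rfl
      have h2 := m0 x hx
      simp only [List.cons_append, List.nil_append, List.mem_cons, List.not_mem_nil,
        or_false] at hy
      omega
  have honly : ∀ y ∈ Set.range g, y ≤ Z2 →
      y ∈ A ++ [X] ++ Q ++ [B, X + v, Y] ∨ y ∈ [C, Z1, Z2] := by
    intro y hy hyz
    by_cases hyz' : y ≤ z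
    · rcases h.only y hy hyz' with h1 | h1 <;> simp [h1]
    · rcases ho.only y hy (by omega) hyz with h1 | h1 | h1 | h1 | h1 | h1 | h1 <;> simp [h1]
  have hleA : ∀ x ∈ A ++ [X] ++ Q ++ [B, X + v, Y], x ≤ Y := by
    intro x hx
    rcases List.mem_append.mp hx with h1 | h1
    · have := m0 x h1
      omega
    · exact (m1 x h1).2
  have hA' : ∃ s, A ++ [X] ++ Q ++ [B, X + v, Y] = s ++ [Y] :=
    ⟨A ++ [X] ++ Q ++ [B, X + v], by simp⟩
  have hv' : ∃ s, [C, Z1, Z2] = C :: s := ⟨[Z1, Z2], rfl⟩
  rcases ho.dir with ⟨d1, d2, d3⟩ | ⟨d1, d2, d3, d4, d5, d6, d7, d8, d9⟩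
  · left
    have hc3 : List.IsChain (Uq g) (z :: [B, X + v, Y]) := by
      simp only [List.isChain_cons_cons, List.isChain_singleton, and_true]
      exact ⟨ho.zB, d1, ho.SY⟩
    have hc4 : List.IsChain (Uq g) [C, Z1, Z2] := by
      simp only [List.isChain_cons_cons, List.isChain_singleton, and_true]
      exact ⟨d2, d3⟩
    exact
      { hA := hA'
        hv := hv'
        hz := ⟨[C, Z1], rfl⟩
        pre := hpre
        once := by
          refine ext_once [B, X + v, Y] (A ++ [X] ++ Q) z hA2 honce2 ?_ (Uq.chain_inn hc3)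
          intro hc
          have h1 := (m1 _ hc).1
          have h2 := hAQ _ hg0
          omega
        memQ := by
          intro x hx
          simp only [List.mem_cons, List.not_mem_nil, or_false] at hx
          rcases hx with rfl | rfl | rfl
          · obtain ⟨t, ht, -⟩ := d2.adj
            exact ⟨t, ht⟩
          · obtain ⟨t, ht, -⟩ := d3.adj
            exact ⟨t, ht⟩
          · obtain ⟨t, -, ht⟩ := d3.adj
            exact ⟨t + 1, ht⟩
        lk := chain_iff.mpr hc4
        nd := hnd
        only := honly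
        leA := hleA
        leQ := fun x hx => (m2 x hx).2.1
        vleQ := fun x hx => (m2 x hx).2.2
        vp := by omega
        pz := by omega }
  · right
    have hu : ∀ b c, Uq g b c → Adj g b c ∧ (∀ x, Adj g b x → x = c) ∧
        ∀ x, Adj g x c → x = b ∨ (x = C ∧ C < b) := fun b c h =>
      ⟨h.adj, h.out, fun x hx => Or.inl (h.inn x hx)⟩
    have huA : ∀ b c, [b, c] <:+: A ++ [X] ++ Q → Uq g b c := by
      intro b c hbc
      obtain ⟨k, hk, rfl, rfl⟩ := infix_idx hbc
      refine ⟨⟨k, hpre2 k (by omega), hpre2 (k + 1) hk⟩, ?_, ?_⟩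
      · rintro x ⟨t, h1, h2⟩
        have := honce2 k (by omega) t h1
        subst this
        rw [← h2]
        exact hpre2 (t + 1) hk
      · rintro x ⟨t, h1, h2⟩
        have h3 := honce2 (k + 1) hk (t + 1) h2
        have : t = k := by omega
        subst this
        rw [← h1]
        exact hpre2 t (by omega)
    have hcA : List.IsChain (fun b c => Adj g b c ∧ (∀ x, Adj g b x → x = c) ∧
        ∀ x, Adj g x c → x = b ∨ (x = C ∧ C < b)) (A ++ [X] ++ Q ++ [B, X + v, Y]) := by
      refine isChain_ext hA2 (chain_iff.mp fun b c hbc => hu b c (huA b c hbc)) ?_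
      simp only [List.isChain_cons_cons, List.isChain_singleton, and_true]
      refine ⟨hu _ _ ho.zB, ⟨d1, d2, fun x hx => ?_⟩, hu _ _ ho.SY⟩
      rcases d3 x hx with h1 | h1
      · exact Or.inl h1
      · exact Or.inr ⟨h1, o3⟩
    have h0 : ∀ t, g t = g 0 → t = 0 := by
      intro t ht
      have hlen : 0 < (A ++ [X] ++ Q).length := by simp
      exact honce2 0 hlen t (by rw [ht, hpre2 0 hlen])
    have hnA : (A ++ [X] ++ Q ++ [B, X + v, Y]).Nodup := (List.nodup_append.mp hnd).1
    have hCA : C ∉ A ++ [X] ++ Q ++ [B, X + v, Y] := fun hc =>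
      (List.nodup_append.mp hnd).2.2 C hc C (by simp) rfl
    exact
      { hA := hA'
        hv := hv'
        hz := ⟨[C], rfl⟩
        pre := hpre
        h0 := h0
        memQ := by
          intro x hx
          simp only [List.mem_cons, List.not_mem_nil, or_false] at hx
          rcases hx with rfl | rfl | rfl
          · obtain ⟨t, -, ht⟩ := d5.adj
            exact ⟨t + 1, ht⟩
          · obtain ⟨t, ht, -⟩ := d5.adj
            exact ⟨t, ht⟩
          · obtain ⟨t, ht, -⟩ := d6
            exact ⟨t, ht⟩
        lkA := chain_iff.mpr hcA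
        leak := by
          intro m hm hCm
          have hmS : m = X + v := by
            rcases List.mem_append.mp hm with h1 | h1
            · exfalso
              obtain ⟨k, hk, hkm⟩ := List.mem_iff_getElem.mp h1
              obtain ⟨t, h2, h3⟩ := hCm
              have h4 := honce2 k hk (t + 1) (h3.trans hkm.symm)
              have h5 : t < (A ++ [X] ++ Q).length := by omega
              have h6 := hpre2 t h5
              have h7 : C ∈ A ++ [X] ++ Q := by
                rw [← h2, h6]
                exact List.getElem_mem h5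
              exact hCA (List.mem_append_left _ h7)
            · simp only [List.mem_cons, List.not_mem_nil, or_false] at h1
              rcases h1 with rfl | rfl | rfl
              · have := ho.zB.inn C hCm
                omega
              · rfl
              · have := ho.SY.inn C hCm
                omega
          subst hmS
          exact d4 hCm
        lkQ := by
          rw [chain_iff]
          simp only [List.isChain_cons_cons, List.isChain_singleton, and_true]
          refine ⟨⟨d5.adj, d5.out, fun x hx => Or.inl (d5.inn x hx)⟩, d6, d7, fun x hx => d8 x hx⟩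
        lp := d9
        nd := hnd
        only := honly
        leA := hleA
        leQ := fun x hx => (m2 x hx).2.1
        vleQ := fun x hx => (m2 x hx).2.2
        vp := by omega
        pz := by omega }

end Pool.Agent.CF2
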