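import Pool.Agent.CF2.If

/-!
# CF2: the states as lists, first half

`A` is the main chain (`g` starts with it), `Q` the pending chain, listed from its creation mark `v`
to its largest run `z`.
-/

namespace Pool.Agent.CF2

/-- State N: the pending chain runs `v → ... → z`. -/
structure SN (g : ℕ → ℕ) (A Q : List ℕ) (p z v : ℕ) : Prop where
  hA : ∃ s, A = s ++ [p]
  hv : ∃ s, Q = v :: s
  hz : ∃ s, Q = s ++ [z]
  pre : ∀ (k : ℕ) (h : k < A.length), g k = A[k]
  once : ∀ (k : ℕ) (h : k < A.length) (s : ℕ), g s = A[k] → s = k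
  memQ : ∀ x ∈ Q, x ∈ Set.range g
  lk : ∀ a b, [a, b] <:+: Q → Uq g a b
  nd : (A ++ Q).Nodup
  only : ∀ y ∈ Set.range g, y ≤ z → y ∈ A ∨ y ∈ Q
  leA : ∀ x ∈ A, x ≤ p
  leQ : ∀ x ∈ Q, x ≤ z
  vleQ : ∀ x ∈ Q, v ≤ x
  vp : v < p
  pz : p < z

/-- State R: the pending chain runs `z → a → ... → v`; possibly `v` leaks into the main chain, and
possibly `p → a`. -/
structure SR (g : ℕ → ℕ) (A Q : List ℕ) (p z v a : ℕ) : Prop where
  hA : ∃ s, A = s ++ [p]
  hv : ∃ s, Q = v :: s
  hz : ∃ s, Q = s ++ [a, z]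
  pre : ∀ (k : ℕ) (h : k < A.length), g k = A[k]
  h0 : ∀ t, g t = g 0 → t = 0
  memQ : ∀ x ∈ Q, x ∈ Set.range g
  lkA : ∀ b c, [b, c] <:+: A → Adj g b c ∧ (∀ x, Adj g b x → x = c) ∧
    ∀ x, Adj g x c → x = b ∨ (x = v ∧ v < b)
  leak : ∀ m ∈ A, Adj g v m → ∀ x, Adj g v x → x = m
  lkQ : ∀ b c, [b, c] <:+: Q → Adj g c b ∧ (∀ x, Adj g c x → x = b) ∧
    ∀ x, Adj g x b → x = c ∨ (x = p ∧ b = a)
  lp : Adj g p a → ∀ x, Adj g p x → x = a
  nd : (A ++ Q).Nodup
  only : ∀ y ∈ Set.range g, y ≤ z → y ∈ A ∨ y ∈ Q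
  leA : ∀ x ∈ A, x ≤ p
  leQ : ∀ x ∈ Q, x ≤ z
  vleQ : ∀ x ∈ Q, v ≤ x
  vp : v < p
  pz : p < z

/-- The links of state N. -/
def oldN (A Q : List ℕ) (i j : ℕ) : Prop := [i, j] <:+: A ∨ [i, j] <:+: Q

/-- The links of state R. -/
def oldR (A Q : List ℕ) (i j : ℕ) : Prop := [i, j] <:+: A ∨ [j, i] <:+: Q

theorem infix_idx {L : List ℕ} {a b : ℕ} (h : [a, b] <:+: L) :
    ∃ k, ∃ hk : k + 1 < L.length, L[k] = a ∧ L[k + 1] = b := by
  obtain ⟨s, t, rfl⟩ := h
  refine ⟨s.length, by simp, by simp, by simp⟩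

theorem idx_infix {L : List ℕ} (k : ℕ) (hk : k + 1 < L.length) : [L[k], L[k + 1]] <:+: L := by
  refine ⟨L.take k, L.drop (k + 2), ?_⟩
  have h1 : L.drop k = L[k] :: L.drop (k + 1) := List.drop_eq_getElem_cons (by omega)
  have h2 : L.drop (k + 1) = L[k + 1] :: L.drop (k + 2) := List.drop_eq_getElem_cons hk
  calc L.take k ++ [L[k], L[k + 1]] ++ L.drop (k + 2)
      = L.take k ++ (L[k] :: L[k + 1] :: L.drop (k + 2)) := by simp
    _ = L.take k ++ L.drop k := by rw [h1, h2]
    _ = L := List.take_append_drop k L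

theorem infix_left {L : List ℕ} {a b : ℕ} (h : [a, b] <:+: L) : a ∈ L :=
  h.subset (by simp)

theorem infix_right {L : List ℕ} {a b : ℕ} (h : [a, b] <:+: L) : b ∈ L :=
  h.subset (by simp)

theorem pred_ex {L : List ℕ} {v x : ℕ} (hv : ∃ s, L = v :: s) (hx : x ∈ L) (hne : x ≠ v) :
    ∃ y, [y, x] <:+: L := by
  obtain ⟨k, hk, rfl⟩ := List.mem_iff_getElem.mp hx
  cases k with
  | zero =>
    obtain ⟨s, rfl⟩ := hv
    exact absurd (by simp) hne
  | succ k => exact ⟨L[k], idx_infix k hk⟩

theorem succ_ex {L : List ℕ} {z x : ℕ} (hz : ∃ s, L = s ++ [z]) (hx : x ∈ L) (hne : x ≠ z) :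
    ∃ y, [x, y] <:+: L := by
  obtain ⟨k, hk, rfl⟩ := List.mem_iff_getElem.mp hx
  by_cases h : k + 1 < L.length
  · exact ⟨L[k + 1], idx_infix k h⟩
  · obtain ⟨s, rfl⟩ := hz
    exfalso
    apply hne
    simp only [List.length_append, List.length_singleton] at hk h
    have : k = s.length := by omega
    subst this
    simp

theorem no_pred {L : List ℕ} {v y : ℕ} (hnd : L.Nodup) (hv : ∃ s, L = v :: s) :
    ¬ [y, v] <:+: L := by
  intro h
  obtain ⟨k, hk, -, h2⟩ := infix_idx h
  obtain ⟨s, rfl⟩ := hv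
  have h3 : (v :: s)[k + 1] = (v :: s)[0] := by rw [h2]; simp
  have := (hnd.getElem_inj_iff).mp h3
  omega

theorem no_succ {L : List ℕ} {z y : ℕ} (hnd : L.Nodup) (hz : ∃ s, L = s ++ [z]) :
    ¬ [z, y] <:+: L := by
  intro h
  obtain ⟨k, hk, h1, -⟩ := infix_idx h
  obtain ⟨s, rfl⟩ := hz
  have h3 : (s ++ [z])[k] = (s ++ [z])[s.length]'(by simp) := by rw [h1]; simp
  have := (hnd.getElem_inj_iff).mp h3
  simp only [List.length_append, List.length_singleton] at hk
  omega

theorem SN.uq {g : ℕ → ℕ} {A Q : List ℕ} {p z v : ℕ} (h : SN g A Q p z v) {i j : ℕ}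
    (ho : oldN A Q i j) : Uq g i j := by
  rcases ho with ho | ho
  · obtain ⟨k, hk, rfl, rfl⟩ := infix_idx ho
    refine ⟨⟨k, h.pre k (by omega), h.pre (k + 1) hk⟩, ?_, ?_⟩
    · rintro x ⟨t, h1, h2⟩
      have := h.once k (by omega) t h1
      subst this
      rw [← h2]
      exact h.pre (t + 1) hk
    · rintro x ⟨t, h1, h2⟩
      have h3 := h.once (k + 1) hk (t + 1) h2
      have : t = k := by omega
      subst this
      rw [← h1]
      exact h.pre t (by omega)
  · exact h.lk i j ho

/-- All links of state N are weak. -/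
theorem SN.old_weak {g : ℕ → ℕ} {A Q : List ℕ} {p z v : ℕ} (hgb : GB g) (h : SN g A Q p z v) :
    ∀ i j, oldN A Q i j → Weak g i [] j := fun _ _ ho => (h.uq ho).weak hgb

/-- All links of state R are weak. -/
theorem SR.old_weak {g : ℕ → ℕ} {A Q : List ℕ} {p z v a : ℕ} (hgb : GB g)
    (h : SR g A Q p z v a) : ∀ i j, oldR A Q i j → Weak g i [] j := by
  intro i j ho
  rw [weak_iff hgb]
  rcases ho with ho | ho
  · obtain ⟨h1, h2, h3⟩ := h.lkA i j ho
    refine ⟨h1, fun x hx => ?_, fun x hx => (h2 x hx).le⟩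
    rcases h3 x hx with h4 | h4 <;> omega
  · obtain ⟨h1, h2, h3⟩ := h.lkQ j i ho
    refine ⟨h1, fun x hx => ?_, fun x hx => (h2 x hx).le⟩
    rcases h3 x hx with h4 | ⟨h4, h5⟩
    · omega
    · have hQ : Q.Nodup := (List.nodup_append.mp h.nd).2.1
      have hi : i = z := by
        obtain ⟨k, hk, h6, h7⟩ := infix_idx ho
        obtain ⟨s, hs⟩ := h.hz
        subst hs
        have h8 : (s ++ [a, z])[k] = (s ++ [a, z])[s.length]'(by simp) := by
          rw [h6]; simp [h5]
        have h9 := (hQ.getElem_inj_iff).mp h8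
        subst h9
        rw [← h7]
        simp
      have := h.pz
      omega

theorem follow {g : ℕ → ℕ} : ∀ (Q : List ℕ) (a : ℕ) (τ : List ℕ),
    (∀ b c, [b, c] <:+: (a :: Q) → Uq g b c) → List.IsChain (Adj g) (a :: τ) →
    (∀ s x, a :: τ = s ++ [x] → ∃ y y', y ≠ y' ∧ Adj g x y ∧ Adj g x y') →
    (a :: Q) <+: (a :: τ)
  | [], a, τ, _, _, _ => ⟨τ, rfl⟩
  | b :: Q, a, τ, h1, h2, h3 => by
    have hab : Uq g a b := h1 a b ⟨[], Q, rfl⟩
    cases τ with
    | nil =>
      obtain ⟨y, y', hne, hy, hy'⟩ := h3 [] a rfl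
      exact absurd ((hab.out y hy).trans (hab.out y' hy').symm) hne
    | cons y τ =>
      have hay : Adj g a y := by
        cases h2 with
        | cons_cons h _ => exact h
      have hy : y = b := hab.out y hay
      subst hy
      have ih := follow Q y τ (fun b c h => h1 b c (h.trans ⟨[a], [], by simp⟩))
        (by
          cases h2 with
          | cons_cons _ h => exact h)
        (fun s x h => h3 (a :: s) x (by rw [h]; rfl))
      obtain ⟨r, hr⟩ := ih
      exact ⟨r, by rw [List.cons_append, hr]⟩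

theorem first_low {g : ℕ → ℕ} {z v : ℕ} (H : ∀ i j, Adj g i j → z < i → j ≤ z → j = v) :
    ∀ σ : List ℕ, List.IsChain (Adj g) σ → (∀ x r, σ = x :: r → x = v ∨ z < x) →
      (∀ x ∈ σ, z < x) ∨ ∃ s r, σ = s ++ v :: r
  | [], _, _ => Or.inl (by simp)
  | x :: r, h1, h2 => by
    rcases h2 x r rfl with h3 | h3
    · subst h3
      exact Or.inr ⟨[], r, rfl⟩
    · have ih := first_low H r h1.of_cons ?_
      · rcases ih with ih | ⟨s, t, ih⟩
        · left
          intro y hy
          rcases List.mem_cons.mp hy with rfl | hy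
          · exact h3
          · exact ih y hy
        · right
          exact ⟨x :: s, t, by rw [ih]; rfl⟩
      · intro y t ht
        subst ht
        have hxy : Adj g x y := by
          cases h1 with
          | cons_cons h _ => exact h
        by_cases hy : y ≤ z
        · exact Or.inl (H x y hxy h3 hy)
        · exact Or.inr (by omega)

theorem prefix_sum {L M : List ℕ} (h : L <+: M) : L.sum ≤ M.sum := by
  obtain ⟨r, rfl⟩ := h
  rw [List.sum_append]
  omega

/-- State N gives its interface. -/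
theorem SN.ni {g : ℕ → ℕ} {A Q : List ℕ} {p z v : ℕ} (hgb : GB g) (hpos : ∀ t, 0 < g t)
    (h : SN g A Q p z v) : NI g (oldN A Q) p z v (p + Q.sum + v) {x | x ∈ Q} := by
  have hAnd : A.Nodup := (List.nodup_append.mp h.nd).1
  have hQnd : Q.Nodup := (List.nodup_append.mp h.nd).2.1
  have hdis : ∀ x, x ∈ A → x ∈ Q → False := fun x h1 h2 =>
    (List.nodup_append.mp h.nd).2.2 x h1 x h2 rfl
  have hpA : p ∈ A := by
    obtain ⟨s, hs⟩ := h.hA
    rw [hs]; simp
  have hvQ : v ∈ Q := by
    obtain ⟨s, hs⟩ := h.hv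
    rw [hs]; simp
  have hzQ : z ∈ Q := by
    obtain ⟨s, hs⟩ := h.hz
    rw [hs]; simp
  have hlen : 0 < A.length := List.length_pos_of_mem hpA
  have hg0 : g 0 ∈ A := by
    rw [h.pre 0 hlen]
    exact List.getElem_mem hlen
  have hg0Q : g 0 ∉ Q := fun hc => hdis _ hg0 hc
  have toj : ∀ i j, Adj g i j → j ≤ z → j = v ∨ oldN A Q i j := by
    rintro i j ⟨t, h1, h2⟩ hj
    rcases h.only j ⟨t + 1, h2⟩ hj with hjA | hjQ
    · right; left
      obtain ⟨k, hk, hkj⟩ := List.mem_iff_getElem.mp hjA
      have h3 : t + 1 = k := h.once k hk (t + 1) (h2.trans hkj.symm)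
      subst h3
      have h4 : A[t] = i := by rw [← h1]; exact (h.pre t (by omega)).symm
      have h5 := idx_infix t hk
      rw [h4, hkj] at h5
      exact h5
    · by_cases hjv : j = v
      · exact Or.inl hjv
      · right; right
        obtain ⟨y, hy⟩ := pred_ex h.hv hjQ hjv
        have := (h.lk y j hy).inn i ⟨t, h1, h2⟩
        subst this
        exact hy
  have fromi : ∀ i j, Adj g i j → i ≤ z → i = p ∨ i = z ∨ oldN A Q i j := by
    rintro i j ⟨t, h1, h2⟩ hi
    rcases h.only i ⟨t, h1⟩ hi with hiA | hiQ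
    · by_cases hip : i = p
      · exact Or.inl hip
      · right; right; left
        obtain ⟨y, hy⟩ := succ_ex h.hA hiA hip
        have := (h.uq (Or.inl hy)).out j ⟨t, h1, h2⟩
        subst this
        exact hy
    · by_cases hiz : i = z
      · exact Or.inr (Or.inl hiz)
      · right; right; right
        obtain ⟨y, hy⟩ := succ_ex h.hz hiQ hiz
        have := (h.lk i y hy).out j ⟨t, h1, h2⟩
        subst this
        exact hy
  have oldi : ∀ i j, oldN A Q i j → i < z ∧ i ≠ p := by
    rintro i j (ho | ho)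
    · have h1 := h.leA i (infix_left ho)
      refine ⟨lt_of_le_of_lt h1 h.pz, ?_⟩
      rintro rfl
      exact no_succ hAnd h.hA ho
    · have h1 := h.leQ i (infix_left ho)
      have h2 : i ≠ z := by
        rintro rfl
        exact no_succ hQnd h.hz ho
      refine ⟨by omega, ?_⟩
      rintro rfl
      exact hdis _ hpA (infix_left ho)
  have oldj : ∀ i j, oldN A Q i j → j ≤ z ∧ j ≠ v := by
    rintro i j (ho | ho)
    · have h1 := h.leA j (infix_right ho)
      refine ⟨h1.trans h.pz.le, ?_⟩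
      rintro rfl
      exact hdis _ (infix_right ho) hvQ
    · have h1 := h.leQ j (infix_right ho)
      refine ⟨h1, ?_⟩
      rintro rfl
      exact no_pred hQnd h.hv ho
  have Qs : ∀ x ∈ Q, x ≠ z → ∀ y, Adj g x y → y ∈ Q := by
    intro x hx hxz y hy
    obtain ⟨y', hy'⟩ := succ_ex h.hz hx hxz
    have := (h.lk x y' hy').out y hy
    subst this
    exact infix_right hy'
  have Qp : ∀ x ∈ Q, x ≠ v → ∀ y, Adj g y x → y ∈ Q := by
    intro x hx hxv y hy
    obtain ⟨y', hy'⟩ := pred_ex h.hv hx hxv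
    have := (h.lk y' x hy').inn y hy
    subst this
    exact infix_left hy'
  have hforms : ∀ i σ j, σ ≠ [] → Bi g i σ j → i + σ.sum + j < p + Q.sum + v →
      (∀ x ∈ σ, z < x) ∧ (i = p ∨ i = z ∨ z < i) ∧ (j = v ∨ z < j) := by
    intro i σ j hσ hbi hlt
    -- the end
    have hend : ∀ s x, σ = s ++ [x] → (j = v ∨ z < j) ∧ ∃ y y', y ≠ y' ∧ Adj g x y ∧ Adj g x y' := by
      intro s x hs
      subst hs
      obtain ⟨h1, y, h2, h3⟩ := hbi.last
      refine ⟨?_, j, y, by omega, h1, h3⟩
      by_cases hj : j ≤ z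
      · rcases toj x j h1 hj with h4 | h4
        · exact Or.inl h4
        · have := (h.uq h4).out y h3
          omega
      · exact Or.inr (by omega)
    have hend' : (j = v ∨ z < j) :=
      (hend σ.dropLast (σ.getLast hσ) (List.dropLast_append_getLast hσ).symm).1
    -- the head
    have hhead : ∀ x r, σ = x :: r → (x = v ∨ z < x) ∧ (i = p ∨ i = z ∨ z < i) := by
      intro x r hs
      subst hs
      obtain ⟨h1, y, h2, h3⟩ := hbi.head
      have hno : ¬ oldN A Q i x := by
        intro ho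
        have := (h.uq ho).inn y h3
        omega
      constructor
      · by_cases hx : x ≤ z
        · rcases toj i x h1 hx with h4 | h4
          · exact Or.inl h4
          · exact absurd h4 hno
        · exact Or.inr (by omega)
      · by_cases hi : i ≤ z
        · rcases fromi i x h1 hi with h4 | h4 | h4
          · exact Or.inl h4
          · exact Or.inr (Or.inl h4)
          · exact absurd h4 hno
        · exact Or.inr (Or.inr (by omega))
    have hi : i = p ∨ i = z ∨ z < i := by
      cases σ with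
      | nil => exact absurd rfl hσ
      | cons x r => exact (hhead x r rfl).2
    have hch := hbi.chain
    rcases first_low (g := g) (z := z) (v := v) (fun a b hab ha hb => by
        rcases toj a b hab hb with h4 | h4
        · exact h4
        · have := (oldi a b h4).1
          omega) σ hch (fun x r hs => (hhead x r hs).1) with hall | ⟨s, r, hs⟩
    · exact ⟨hall, hi, hend'⟩
    · exfalso
      obtain ⟨q, hq⟩ := h.hv
      have hpre : (v :: q) <+: (v :: r) := by
        refine follow (g := g) q v r (fun b c hbc => h.lk b c (by rw [hq]; exact hbc)) ?_ ?_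
        · rw [hs] at hch
          exact (List.isChain_append.mp hch).2.1
        · intro s' x hx
          exact (hend (s ++ s') x (by rw [hs, hx, List.append_assoc])).2
      have h1 := prefix_sum hpre
      rw [← hq] at h1
      have h2 : σ.sum = s.sum + (v :: r).sum := by rw [hs, List.sum_append]
      have h3 := h.vp
      have h4 := h.pz
      omega
  refine
    { vp := h.vp
      pz := h.pz
      mp := ?_
      mz := h.memQ z hzQ
      mv := h.memQ v hvQ
      g0 := (h.leA _ hg0).trans h.pz.le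
      toj := toj
      fromi := fromi
      oldi := oldi
      oldj := oldj
      olds := ?_
      once := ?_
      oncez := ?_
      Qv := hvQ
      Qz := hzQ
      Qle := h.leQ
      Qg := hg0Q
      Qs := Qs
      Qp := Qp
      forms := hforms }
  · obtain ⟨k, hk, hkp⟩ := List.mem_iff_getElem.mp hpA
    exact ⟨k, (h.pre k hk).trans hkp⟩
  · intro i j ho hs
    rw [strong_iff hgb] at hs
    obtain ⟨-, ⟨x, hx, hx2⟩, -⟩ := hs
    have := (h.uq ho).inn x hx2
    omega
  · intro s t hs ht
    obtain ⟨k, hk, hkp⟩ := List.mem_iff_getElem.mp hpA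
    have h1 := h.once k hk s (hs.trans hkp.symm)
    have h2 := h.once k hk t (ht.trans hkp.symm)
    omega
  · intro hv1
    -- every run of Q is visited once
    have key : ∀ k (hk : k < Q.length) s t, g s = Q[k] → g t = Q[k] → s = t := by
      intro k
      induction k with
      | zero =>
        intro hk s t hs ht
        obtain ⟨q, hq⟩ := h.hv
        have h0 : Q[0] = v := by simp [hq]
        exact hv1 s t (hs.trans h0) (ht.trans h0)
      | succ k ih =>
        intro hk s t hs ht
        have hu := h.lk _ _ (idx_infix k hk)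
        have hmem : Q[k + 1] ∈ Q := List.getElem_mem hk
        have hs0 : s ≠ 0 := by
          rintro rfl
          rw [← hs] at hmem
          exact hg0Q hmem
        have ht0 : t ≠ 0 := by
          rintro rfl
          rw [← ht] at hmem
          exact hg0Q hmem
        obtain ⟨s', rfl⟩ := Nat.exists_eq_succ_of_ne_zero hs0
        obtain ⟨t', rfl⟩ := Nat.exists_eq_succ_of_ne_zero ht0
        have h1 := hu.inn _ ⟨s', rfl, hs⟩
        have h2 := hu.inn _ ⟨t', rfl, ht⟩
        have := ih (by omega) s' t' h1 h2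
        omega
    obtain ⟨k, hk, hkz⟩ := List.mem_iff_getElem.mp hzQ
    intro s t hs ht
    exact key k hk s t (hs.trans hkz.symm) (ht.trans hkz.symm)

end Pool.Agent.CF2
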