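import Pool.Agent.CF2.NTool

/-!
# CF2: window stage, state N
-/

namespace Pool.Agent.CF2

theorem two_pow_bd {i : ℕ} (h1 : 1 ≤ i) (h2 : i ≤ 20) : 2 ≤ 2 ^ i ∧ 2 ^ i ≤ 1048576 := by
  constructor
  · calc 2 = 2 ^ 1 := rfl
      _ ≤ 2 ^ i := Nat.pow_le_pow_right (by norm_num) h1
  · calc 2 ^ i ≤ 2 ^ 20 := Nat.pow_le_pow_right (by norm_num) h2
      _ = 1048576 := by norm_num

theorem two_pow_inj {a b : ℕ} (h : 2 ^ a = 2 ^ b) : a = b := Nat.pow_right_injective le_rfl h

theorem two_pow_sum_aux : ∀ a : Fin 21, ∀ b : Fin 21, ∀ n : Fin 19,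
    2 ^ a.val + 2 ^ b.val = 2 ^ n.val + 2 ^ (n.val + 2) →
    (a.val = n.val ∧ b.val = n.val + 2) ∨ (a.val = n.val + 2 ∧ b.val = n.val) := by decide +kernel

theorem two_pow_sum {a b n : ℕ} (ha : a < 21) (hb : b < 21) (hn : n < 19)
    (h : 2 ^ a + 2 ^ b = 2 ^ n + 2 ^ (n + 2)) : (a = n ∧ b = n + 2) ∨ (a = n + 2 ∧ b = n) :=
  two_pow_sum_aux ⟨a, ha⟩ ⟨b, hb⟩ ⟨n, hn⟩ h

theorem two_pow_le {a b : ℕ} (h : 2 ^ a ≤ 2 ^ b) : a ≤ b := (Nat.pow_le_pow_iff_right (by norm_num)).1 h

theorem DW.low {d : ℕ → ℤ} {p z G N : ℕ} (h : DW d p z G) (hz : z = p + 2 ^ 19)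
    (hG : G = p + z + 2 ^ 22) (h1 : z < N) (h2 : N < G + 2) : d N = 0 := by
  refine h.rest N h1 (by omega) (fun i hi1 hi2 => ?_) (by omega) (by omega) (fun i hi1 hi2 => ?_)
  · have := two_pow_bd hi1 hi2; omega
  · have := two_pow_bd hi1 (by omega)
    have := two_pow_bd (i := i + 2) (by omega) (by omega)
    omega

theorem DW.mid {d : ℕ → ℤ} {p z G N : ℕ} (h : DW d p z G)
    (hG : G = p + z + 2 ^ 22) (h1 : G + 2 ^ 20 < N) (h2 : N < 2 * G + 2)
    (h3 : N ≠ p + (G + 2)) (h4 : N ≠ z + (G + 4)) : d N = 0 := by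
  refine h.rest N (by omega) (by omega) (fun i hi1 hi2 => ?_) h3 h4 (fun i hi1 hi2 => ?_)
  · have := two_pow_bd hi1 hi2; omega
  · have := two_pow_bd hi1 (by omega)
    have := two_pow_bd (i := i + 2) (by omega) (by omega)
    omega

theorem DW.mid' {d : ℕ → ℤ} {p z G N : ℕ} (h : DW d p z G)
    (hG : G = p + z + 2 ^ 22) (h1 : G + 2 ^ 20 < N) (h2 : N < 2 * G + 2) : d N ≤ 0 := by
  by_cases h3 : N = p + (G + 2)
  · rw [h3, h.dp]; norm_num
  · by_cases h4 : N = z + (G + 4)
    · rw [h4, h.dz]; norm_num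
    · rw [h.mid hG h1 h2 h3 h4]

section

variable {g : ℕ → ℕ} {old : ℕ → ℕ → Prop} {p z v Bd G hi : ℕ} {Q : Set ℕ} {d : ℕ → ℤ}

/-- (1) -/
theorem WN_one (hgb : GB g) (hpos : ∀ t, 0 < g t) (hI : NI g old p z v Bd Q)
    (hz : z = p + 2 ^ 19) (hG : G = p + z + 2 ^ 22) (hv : 2 ^ 24 ≤ v) (hvp : v + 2 ^ 24 ≤ p)
    (hBd : 2 * G + 2 ^ 18 + 2 ^ 20 < Bd) (hhi : 2 * G + 2 ^ 18 + 2 ^ 20 < hi)
    (hd : DW d p z G) (hl : RLE g old d z hi) (hzv : Adj g z v) : Adj g p v := by
  by_contra hpv
  obtain ⟨b, hb1, hb2⟩ := hI.z_big hgb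
  by_cases hA : ∃ x, z < x ∧ Adj g x v
  · have hs : Strong g z [] v := (strong_iff hgb).2 ⟨hzv, hA, b, by omega, hb2⟩
    have hN : z + ([] : List ℕ).sum + v = z + v := by simp
    have hd0 := hd.low hz hG (N := z + v) (by omega) (by omega)
    obtain ⟨i, σ, j, ho⟩ := hl.str hpos (by omega) (by omega) hd0.le hs hN
    obtain ⟨h1, h2, h3, h4, h5⟩ := hI.op hgb ho (by omega)
    rcases h5 with ⟨rfl, h6, h7, h8, h9⟩ | ⟨S, x, w, h6, h7, h8, h9, h10, h11, h12, _⟩
    · rcases h1 with rfl | rfl | h1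
      · omega
      · have : j = v := by omega
        subst this
        obtain ⟨x, hx1, hx2⟩ := hA
        have := h8 x hx2
        omega
      · omega
    · omega
  · push Not at hA
    refine hI.z_only fun x hx => ?_
    rcases hI.pred_v hx with h | h | h
    · subst h; exact absurd hx hpv
    · rw [h]; exact hI.Qz
    · exact absurd hx (hA x h)

/-- (2a) -/
theorem WN_twoA (hgb : GB g) (hpos : ∀ t, 0 < g t) (hI : NI g old p z v Bd Q)
    (hz : z = p + 2 ^ 19) (hG : G = p + z + 2 ^ 22) (hv : 2 ^ 24 ≤ v) (hvp : v + 2 ^ 24 ≤ p)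
    (hBd : 2 * G + 2 ^ 18 + 2 ^ 20 < Bd) (hhi : 2 * G + 2 ^ 18 + 2 ^ 20 < hi)
    (hd : DW d p z G) (hl : RLE g old d z hi) (hpv : Adj g p v)
    (hno : ∀ x, Adj g x v → x ≤ p) : False := by
  have hpz := hI.pz
  have hpo : ∀ x, Adj g p x → x = v := fun x hx => succ_of_once hI.once hx hpv
  have hpr : ∀ x, Adj g x v → x = p := by
    intro x hx
    have := hno x hx
    rcases hI.pred_v hx with h | h | h <;> omega
  have hzv : ¬ Adj g z v := fun h => by have := hpr z h; omega
  have hwk : Weak g p [] v := (weak_iff hgb).2 ⟨hpv, hno, fun x hx => (hpo x hx).le⟩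
  have hop : Op g old (p + v) p [] v := op_of_weak hwk rfl (hI.old_pv v)
  -- the value `p + v`
  have hh : p + v ∈ Set.range g := by
    refine hl.zero_only hpos (N := p + v) (w := (p, [], v)) (by omega) (by omega)
      (hd.low hz hG (by omega) (by omega)) (fun i σ j ho => ?_) (fun i σ j hs hN => ?_) hop
    · obtain ⟨h1, h2, h3, h4, h5⟩ := hI.op hgb ho (by omega)
      rcases h5 with ⟨rfl, h6, h7, h8, h9⟩ | ⟨S, x, w, h6, h7, h8, h9, h10, h11, h12, _⟩
      · rcases h1 with rfl | rfl | h1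
        · have : j = v := by omega
          rw [this]
        · omega
        · omega
      · omega
    · obtain ⟨h1, h2, h3, h4, h5⟩ := hI.st hgb hs hN (by omega)
      rcases h5 with ⟨rfl, h6, h7, ⟨x, hx1, hx2⟩, h9⟩ | ⟨S, x, w, h6, h7, h8, h9, h10, h11, h12, _⟩
      · rcases h1 with rfl | rfl | h1
        · have : j = v := by omega
          subst this
          have := hpr x hx2
          omega
        · omega
        · omega
      · omega
  -- it is the only one below `G + 2`
  have honly : ∀ y ∈ Set.range g, z < y → y < G + 2 → y = p + v := by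
    intro y
    induction y using Nat.strong_induction_on with
    | _ y ih =>
      intro hy1 hy2 hy3
      by_contra hne
      obtain ⟨i, σ, j, ho⟩ := hl.val (by omega) (by omega) (hd.low hz hG hy2 hy3).le hy1
      obtain ⟨h1, h2, h3, h4, h5⟩ := hI.op hgb ho (by omega)
      rcases h5 with ⟨rfl, h6, h7, h8, h9⟩ | ⟨S, x, w, h6, h7, h8, h9, h10, h11, h12, _⟩
      · rcases h1 with rfl | rfl | h1
        · have := hpo j h7
          omega
        · rcases h2 with rfl | h2
          · exact hzv h7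
          · have := ih j (by omega) h4 h2 (by omega)
            omega
        · have e1 := ih i (by omega) h3 h1 (by omega)
          rcases h2 with rfl | h2
          · have := hpr i h7
            omega
          · have := ih j (by omega) h4 h2 (by omega)
            omega
      · omega
  -- the level of the first down
  have hge : ∀ y ∈ Set.range g, z < y → p + v ≤ y := by
    intro y hy1 hy2
    rcases Nat.lt_or_ge y (G + 2) with h | h
    · rw [honly y hy1 hy2 h]
    · omega
  obtain ⟨i, σ, j, ho⟩ := hl.down (N := p + (G + 2)) (by omega) (by omega) (by rw [hd.dp]; norm_num)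
  obtain ⟨h1, h2, h3, h4, h5⟩ := hI.op hgb ho (by omega)
  rcases h5 with ⟨rfl, h6, h7, h8, h9⟩ | ⟨S, x, w, h6, h7, h8, h9, h10, h11, h12, h13, h14, _⟩
  · rcases h1 with rfl | rfl | h1
    · have := hpo j h7
      omega
    · rcases h2 with rfl | h2
      · exact hzv h7
      · have := honly j h4 h2 (by omega)
        omega
    · rcases h2 with rfl | h2
      · have := hpr i h7
        omega
      · have e1 := hge i h3 h1
        have e2 := hge j h4 h2
        have e3 := honly i h3 h1 (by omega)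
        have e4 := honly j h4 h2 (by omega)
        rw [e3, e4] at h7 h9
        refine succ_closed hgb (F := {p + v}) (B := p + v) (by simp) ?_ (p + v) rfl hh
        intro x hx y hy
        rw [Set.mem_singleton_iff] at hx
        subst hx
        have e5 := h9 y hy
        rcases Nat.lt_or_ge z y with e6 | e6
        · exact honly y hy.right e6 (by omega)
        · exfalso
          rcases hI.toj _ _ hy e6 with e7 | e7
          · rw [e7] at hy
            have := hpr _ hy
            omega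
          · exact hI.old_big (Or.inl (by omega)) e7
  · have hjv : z < j := by
      rcases h2 with rfl | h2
      · have := hpr w h14.1
        omega
      · exact h2
    have e1 := hge j h4 hjv
    have e2 := hge x h7 h8
    rcases h1 with rfl | rfl | h1
    · have := hpo x h13.1
      omega
    · omega
    · have e3 := hge i h3 h1
      omega

/-- (2b) -/
theorem WN_twoB (hgb : GB g) (hI : NI g old p z v Bd Q)
    (hz : z = p + 2 ^ 19) (hG : G = p + z + 2 ^ 22) (hv : 2 ^ 24 ≤ v) (hvp : v + 2 ^ 24 ≤ p)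
    (hBd : 2 * G + 2 ^ 18 + 2 ^ 20 < Bd) (hhi : 2 * G + 2 ^ 18 + 2 ^ 20 < hi)
    (hd : DW d p z G) (hl : RLE g old d z hi) (hpv : Adj g p v)
    (hno : ∃ x, p < x ∧ Adj g x v) : False := by
  have hpz := hI.pz
  have hpo : ∀ x, Adj g p x → x = v := fun x hx => succ_of_once hI.once hx hpv
  obtain ⟨b, hb1, hb2⟩ := hI.z_big hgb
  obtain ⟨c, hc1, hc2⟩ := hno
  -- no value below `G + 2`
  have hemp : ∀ y ∈ Set.range g, z < y → G + 2 ≤ y := by
    intro y
    induction y using Nat.strong_induction_on with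
    | _ y ih =>
      intro hy1 hy2
      by_contra hy3
      obtain ⟨i, σ, j, ho⟩ := hl.val (by omega) (by omega) (hd.low hz hG hy2 (by omega)).le hy1
      obtain ⟨h1, h2, h3, h4, h5⟩ := hI.op hgb ho (by omega)
      rcases h5 with ⟨rfl, h6, h7, h8, h9⟩ | ⟨S, x, w, h6, h7, h8, h9, h10, h11, h12, _⟩
      · rcases h1 with rfl | rfl | h1
        · have := hpo j h7
          subst this
          have := h8 c hc2
          omega
        · rcases h2 with rfl | h2
          · have := h9 b hb2
            omega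
          · have := ih j (by omega) h4 h2
            omega
        · have e1 := ih i (by omega) h3 h1
          omega
      · omega
  -- the first down
  have hy : ∃ y ∈ Set.range g, y + v = p + (G + 2) ∧ Adj g y v ∧ ∀ x, Adj g x v → x ≤ y := by
    obtain ⟨i, σ, j, ho⟩ := hl.down (N := p + (G + 2)) (by omega) (by omega)
      (by rw [hd.dp]; norm_num)
    obtain ⟨h1, h2, h3, h4, h5⟩ := hI.op hgb ho (by omega)
    rcases h5 with ⟨rfl, h6, h7, h8, h9⟩ | ⟨S, x, w, h6, h7, h8, h9, h10, h11, h12, h13, h14, _⟩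
    · rcases h1 with rfl | rfl | h1
      · have := hpo j h7
        omega
      · rcases h2 with rfl | h2
        · have := h9 b hb2
          omega
        · have := hemp j h4 h2
          omega
      · rcases h2 with rfl | h2
        · exact ⟨i, h3, h6, h7, h8⟩
        · have := hemp j h4 h2
          have := hemp i h3 h1
          omega
    · have e2 := hemp x h7 h8
      rcases h1 with rfl | rfl | h1
      · have := hpo x h13.1
        omega
      · omega
      · have e3 := hemp i h3 h1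
        omega
  obtain ⟨y, hy1, hy2, hy3, hy4⟩ := hy
  obtain ⟨i, σ, j, ho⟩ := hl.val (N := y) (by omega) (by omega)
    (hd.mid' hG (by omega) (by omega)) hy1
  obtain ⟨h1, h2, h3, h4, h5⟩ := hI.op hgb ho (by omega)
  rcases h5 with ⟨rfl, h6, h7, h8, h9⟩ | ⟨S, x, w, h6, h7, h8, h9, h10, h11, h12, h13, h14, _⟩
  · rcases h1 with rfl | rfl | h1
    · have := hpo j h7
      subst this
      have := h8 c hc2
      omega
    · rcases h2 with rfl | h2
      · have := h9 b hb2
        omega
      · have := hemp j h4 h2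
        omega
    · rcases h2 with rfl | h2
      · have := h8 y hy3
        omega
      · have := hemp j h4 h2
        have := hemp i h3 h1
        omega
  · have e2 := hemp x h7 h8
    rcases h1 with rfl | rfl | h1
    · have := hpo x h13.1
      omega
    · omega
    · have e3 := hemp i h3 h1
      omega

/-- (2) -/
theorem WN_two (hgb : GB g) (hpos : ∀ t, 0 < g t) (hI : NI g old p z v Bd Q)
    (hz : z = p + 2 ^ 19) (hG : G = p + z + 2 ^ 22) (hv : 2 ^ 24 ≤ v) (hvp : v + 2 ^ 24 ≤ p)
    (hBd : 2 * G + 2 ^ 18 + 2 ^ 20 < Bd) (hhi : 2 * G + 2 ^ 18 + 2 ^ 20 < hi)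
    (hd : DW d p z G) (hl : RLE g old d z hi) : ¬ Adj g p v := by
  intro hpv
  by_cases h : ∃ x, p < x ∧ Adj g x v
  · exact WN_twoB hgb hI hz hG hv hvp hBd hhi hd hl hpv h
  · push Not at h
    refine WN_twoA hgb hpos hI hz hG hv hvp hBd hhi hd hl hpv fun x hx => ?_
    by_contra hc
    exact h x (by omega) hx

/-- What is known after step (3). -/
structure W3 (g : ℕ → ℕ) (p z v G : ℕ) : Prop where
  sp : ∀ x, Adj g p x → z < x
  sz : ∀ x, Adj g z x → z < x
  pv : ∀ x, Adj g x v → z < x
  emp : ∀ y ∈ Set.range g, z < y → G + 2 ≤ y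
  mem : ∀ n, 1 ≤ n → n ≤ 20 → G + 2 ^ n ∈ Set.range g
  only : ∀ y ∈ Set.range g, z < y → y < G + 2 + v → ∃ n, 1 ≤ n ∧ n ≤ 20 ∧ y = G + 2 ^ n

/-- (3) -/
theorem WN_three (hgb : GB g) (hpos : ∀ t, 0 < g t) (hI : NI g old p z v Bd Q)
    (hz : z = p + 2 ^ 19) (hG : G = p + z + 2 ^ 22) (hv : 2 ^ 24 ≤ v) (hvp : v + 2 ^ 24 ≤ p)
    (hBd : 2 * G + 2 ^ 18 + 2 ^ 20 < Bd) (hhi : 2 * G + 2 ^ 18 + 2 ^ 20 < hi)
    (hd : DW d p z G) (hl : RLE g old d z hi) : W3 g p z v G := by
  have hpv : ¬ Adj g p v := WN_two hgb hpos hI hz hG hv hvp hBd hhi hd hl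
  have hzv : ¬ Adj g z v := fun h => hpv (WN_one hgb hpos hI hz hG hv hvp hBd hhi hd hl h)
  have hsp : ∀ x, Adj g p x → z < x := fun x hx => by
    rcases hI.succ_p hx with h | h
    · rw [h] at hx; exact absurd hx hpv
    · exact h
  have hsz : ∀ x, Adj g z x → z < x := fun x hx => by
    rcases hI.succ_z hx with h | h
    · rw [h] at hx; exact absurd hx hzv
    · exact h
  have hpv' : ∀ x, Adj g x v → z < x := fun x hx => by
    rcases hI.pred_v hx with h | h | h
    · rw [h] at hx; exact absurd hx hpv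
    · rw [h] at hx; exact absurd hx hzv
    · exact h
  have hemp : ∀ y ∈ Set.range g, z < y → G + 2 ≤ y := by
    intro y
    induction y using Nat.strong_induction_on with
    | _ y ih =>
      intro hy1 hy2
      by_contra hy3
      obtain ⟨i, σ, j, ho⟩ := hl.val (by omega) (by omega) (hd.low hz hG hy2 (by omega)).le hy1
      obtain ⟨h1, h2, h3, h4, h5⟩ := hI.op hgb ho (by omega)
      rcases h5 with ⟨rfl, h6, h7, h8, h9⟩ | ⟨S, x, w, h6, h7, h8, h9, h10, h11, h12, _⟩
      · rcases h1 with rfl | rfl | h1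
        · have := ih j (by omega) h4 (hsp j h7)
          omega
        · have := ih j (by omega) h4 (hsz j h7)
          omega
        · have e1 := ih i (by omega) h3 h1
          omega
      · omega
  -- words are long
  have big : ∀ N i j, (i = p ∨ i = z ∨ z < i) → (j = v ∨ z < j) → i ∈ Set.range g →
      j ∈ Set.range g → (i + j = N ∧ Adj g i j) ∨ Inn g z N i j → G + 2 + v ≤ N := by
    intro N i j h1 h2 h3 h4 h5
    rcases h5 with ⟨h6, h7⟩ | ⟨S, x, w, h6, h7, h8, h9, h10, h11, h12, _⟩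
    · rcases h1 with rfl | rfl | h1
      · have := hemp j h4 (hsp j h7)
        omega
      · have := hemp j h4 (hsz j h7)
        omega
      · have := hemp i h3 h1
        omega
    · have := hemp x h7 h8
      omega
  have bigo : ∀ N i σ j, N < Bd → Op g old N i σ j → G + 2 + v ≤ N := by
    intro N i σ j hN ho
    obtain ⟨h1, h2, h3, h4, h5⟩ := hI.op hgb ho hN
    refine big N i j h1 h2 h3 h4 ?_
    rcases h5 with ⟨_, h6, h7, _⟩ | h5
    · exact Or.inl ⟨h6, h7⟩
    · exact Or.inr h5
  have bigs : ∀ N i σ j, N < Bd → Strong g i σ j → i + σ.sum + j = N → G + 2 + v ≤ N := by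
    intro N i σ j hN hs hN2
    obtain ⟨h1, h2, h3, h4, h5⟩ := hI.st hgb hs hN2 hN
    refine big N i j h1 h2 h3 h4 ?_
    rcases h5 with ⟨_, h6, h7, _⟩ | h5
    · exact Or.inl ⟨h6, h7⟩
    · exact Or.inr h5
  refine ⟨hsp, hsz, hpv', hemp, ?_, ?_⟩
  · intro n hn1 hn2
    have hb := two_pow_bd hn1 hn2
    have h1 := hl.up hpos (N := G + 2 ^ n) (by omega) (by omega) (hd.up n hn1 hn2)
      (fun i σ j ho => by
        have := bigo _ _ _ _ (by omega) ho
        omega)
    rcases h1 with h1 | ⟨h1, i, σ, j, h2, h3⟩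
    · exact h1.1
    · have := bigs _ _ _ _ (by omega) h2 h3
      omega
  · intro y hy1 hy2 hy3
    by_contra hno
    push Not at hno
    have hd0 : d y = 0 := by
      refine hd.rest y hy2 (by omega) (fun n hn1 hn2 => hno n hn1 hn2) (by omega) (by omega)
        (fun n hn1 hn2 => ?_)
      have := two_pow_bd hn1 (by omega)
      have := two_pow_bd (i := n + 2) (by omega) (by omega)
      omega
    obtain ⟨i, σ, j, ho⟩ := hl.val (by omega) (by omega) hd0.le hy1
    have := bigo _ _ _ _ (by omega) ho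
    omega

/-- No value makes a weak word with `v` in the middle range. -/
theorem WN_noY (hgb : GB g) (hI : NI g old p z v Bd Q)
    (hG : G = p + z + 2 ^ 22) (hv : 2 ^ 24 ≤ v) (hvp : v + 2 ^ 24 ≤ p)
    (hBd : 2 * G + 2 ^ 18 + 2 ^ 20 < Bd) (hhi : 2 * G + 2 ^ 18 + 2 ^ 20 < hi)
    (hd : DW d p z G) (hl : RLE g old d z hi) (h3 : W3 g p z v G) {y : ℕ}
    (hy : Adj g y v) (hmax : ∀ x, Adj g x v → x ≤ y) (hy1 : G + 2 ^ 20 < y) (hy2 : y < 2 * G + 2)
    (hp : ∀ σ j, ¬ Op g old y p σ j) (hzz : ∀ σ j, ¬ Op g old y z σ j) : False := by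
  obtain ⟨i, σ, j, ho⟩ := hl.val (N := y) (by omega) (by omega)
    (hd.mid' hG (by omega) (by omega)) hy.left
  obtain ⟨h1, h2, h3', h4, h5⟩ := hI.op hgb ho (by omega)
  rcases h1 with rfl | rfl | h1
  · exact hp _ _ ho
  · exact hzz _ _ ho
  · have e1 := h3.emp i h3' h1
    have := hI.pz
    rcases h5 with ⟨rfl, h6, h7, h8, h9⟩ | ⟨S, x, w, h6, h7, h8, h9, h10, h11, h12, h13, h14, _⟩
    · rcases h2 with rfl | h2
      · have := h8 y hy
        have := hI.vp
        omega
      · have := h3.emp j h4 h2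
        omega
    · have := h3.emp x h7 h8
      omega

/-- (4) -/
theorem WN_four (hgb : GB g) (hpos : ∀ t, 0 < g t) (hI : NI g old p z v Bd Q)
    (hz : z = p + 2 ^ 19) (hG : G = p + z + 2 ^ 22) (hv : 2 ^ 24 ≤ v) (hvp : v + 2 ^ 24 ≤ p)
    (hBd : 2 * G + 2 ^ 18 + 2 ^ 20 < Bd) (hhi : 2 * G + 2 ^ 18 + 2 ^ 20 < hi)
    (hd : DW d p z G) (hl : RLE g old d z hi) (h3 : W3 g p z v G) :
    Uq g p (G + 2) ∧ p + (G + 2) ∉ Set.range g := by
  -- open words of small level
  have hs : ∀ N i σ j, N < p + (G + 2) → N < Bd → Op g old N i σ j → z < i := by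
    intro N i σ j hN hN2 ho
    obtain ⟨h1, h2, h3', h4, h5⟩ := hI.op hgb ho hN2
    rcases h5 with ⟨rfl, h6, h7, h8, h9⟩ | ⟨S, x, w, h6, h7, h8, h9, h10, h11, h12, h13, h14, _⟩
    · rcases h1 with rfl | rfl | h1
      · have := h3.emp j h4 (h3.sp j h7)
        omega
      · have := h3.emp j h4 (h3.sz j h7)
        omega
      · exact h1
    · have := h3.emp x h7 h8
      omega
  have hw : ∀ i σ j, Op g old (p + (G + 2)) i σ j →
      (i, σ, j) = ((p, [], G + 2) : ℕ × List ℕ × ℕ) := by
    intro i σ j ho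
    obtain ⟨h1, h2, h3', h4, h5⟩ := hI.op hgb ho (by omega)
    rcases h5 with ⟨rfl, h6, h7, h8, h9⟩ | ⟨S, x, w, h6, h7, h8, h9, h10, h11, h12, h13, h14, _⟩
    · rcases h1 with rfl | rfl | h1
      · have : j = G + 2 := by omega
        rw [this]
      · have := h3.emp j h4 (h3.sz j h7)
        omega
      · have e1 := h3.emp i h3' h1
        rcases h2 with rfl | h2
        · exfalso
          refine WN_noY hgb hI hG hv hvp hBd hhi hd hl h3 (y := i) h7 h8 (by omega) (by omega)
            (fun σ j ho => ?_) (fun σ j ho => ?_)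
          · have := hs i _ _ _ (by omega) (by omega) ho
            omega
          · have := hs i _ _ _ (by omega) (by omega) ho
            omega
        · have := h3.emp j h4 h2
          omega
    · have := h3.emp x h7 h8
      rcases h1 with rfl | rfl | h1
      · omega
      · omega
      · have e1 := h3.emp i h3' h1
        omega
  obtain ⟨i, σ, j, ho⟩ := hl.down (N := p + (G + 2)) (by omega) (by omega)
    (by rw [hd.dp]; norm_num)
  have e := hw i σ j ho
  simp only [Prod.mk.injEq] at e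
  obtain ⟨rfl, rfl, rfl⟩ := e
  obtain ⟨h1, h2, h3', h4, h5⟩ := hI.op hgb ho (by omega)
  rcases h5 with ⟨_, h6, h7, h8, h9⟩ | ⟨S, x, w, h6, h7, h8, h9, h10, h11, h12, h13, h14, _⟩
  · refine ⟨⟨h7, fun x hx => succ_of_once hI.once hx h7, fun x hx => ?_⟩, ?_⟩
    · have e1 := h8 x hx
      rcases hI.fromi x _ hx (by omega) with e2 | e2 | e2
      · exact e2
      · omega
      · exact absurd e2 (hI.old_big (Or.inr (by omega)))
    · exact (hl.down_only hpos (N := i + (G + 2)) (by omega) (by omega) hd.dp hw).1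
  · have := h3.emp x h7 h8
    omega

/-- Words starting with `p`, once its link is known. -/
theorem NI.op_p (hI : NI g old p z v Bd Q) (hgb : GB g) {X : ℕ} (hX : Uq g p X) {N : ℕ}
    (hN : N < Bd) {σ j} (ho : Op g old N p σ j) : σ = [] ∧ j = X ∧ N = p + X := by
  obtain ⟨h1, h2, h3', h4, h5⟩ := hI.op hgb ho hN
  rcases h5 with ⟨h0, h6, h7, h8, h9⟩ | ⟨S, x, w, h6, h7, h8, h9, h10, h11, h12, ⟨h13, y, h15, h16⟩, h14, _⟩
  · have := hX.out j h7
    exact ⟨h0, this, by omega⟩
  · exfalso
    rw [hX.out x h13] at h16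
    have := hX.inn y h16
    omega

theorem NI.op_z (hI : NI g old p z v Bd Q) (hgb : GB g) {X : ℕ} (hX : Uq g z X) {N : ℕ}
    (hN : N < Bd) {σ j} (ho : Op g old N z σ j) : σ = [] ∧ j = X ∧ N = z + X := by
  obtain ⟨h1, h2, h3', h4, h5⟩ := hI.op hgb ho hN
  rcases h5 with ⟨h0, h6, h7, h8, h9⟩ | ⟨S, x, w, h6, h7, h8, h9, h10, h11, h12, ⟨h13, y, h15, h16⟩, h14, _⟩
  · have := hX.out j h7
    exact ⟨h0, this, by omega⟩
  · exfalso
    rw [hX.out x h13] at h16
    have := hX.inn y h16
    omega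

/-- (5) -/
theorem WN_five (hgb : GB g) (hpos : ∀ t, 0 < g t) (hI : NI g old p z v Bd Q)
    (hz : z = p + 2 ^ 19) (hG : G = p + z + 2 ^ 22) (hv : 2 ^ 24 ≤ v) (hvp : v + 2 ^ 24 ≤ p)
    (hBd : 2 * G + 2 ^ 18 + 2 ^ 20 < Bd) (hhi : 2 * G + 2 ^ 18 + 2 ^ 20 < hi)
    (hd : DW d p z G) (hl : RLE g old d z hi) (h3 : W3 g p z v G) (hp : Uq g p (G + 2)) :
    Uq g z (G + 4) ∧ z + (G + 4) ∉ Set.range g := by
  have hw : ∀ i σ j, Op g old (z + (G + 4)) i σ j →
      (i, σ, j) = ((z, [], G + 4) : ℕ × List ℕ × ℕ) := by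
    intro i σ j ho
    obtain ⟨h1, h2, h3', h4, h5⟩ := hI.op hgb ho (by omega)
    rcases h1 with rfl | rfl | h1
    · have := (hI.op_p hgb hp (by omega) ho).2.2
      omega
    · rcases h5 with ⟨rfl, h6, h7, h8, h9⟩ | ⟨S, x, w, h6, h7, h8, h9, h10, h11, h12, h13, h14, _⟩
      · have : j = G + 4 := by omega
        rw [this]
      · have := h3.emp x h7 h8
        omega
    · have e1 := h3.emp i h3' h1
      rcases h5 with ⟨rfl, h6, h7, h8, h9⟩ | ⟨S, x, w, h6, h7, h8, h9, h10, h11, h12, h13, h14, _⟩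
      · rcases h2 with rfl | h2
        · exfalso
          refine WN_noY hgb hI hG hv hvp hBd hhi hd hl h3 (y := i) h7 h8 (by omega) (by omega)
            (fun σ j ho => ?_) (fun σ j ho => ?_)
          · have := (hI.op_p hgb hp (by omega) ho).2.2
            omega
          · obtain ⟨k1, k2, k3, k4, k5⟩ := hI.op hgb ho (by omega)
            rcases k5 with ⟨rfl, k6, k7, k8, k9⟩ | ⟨S, x, w, k6, k7, k8, k9, k10, k11, k12, _⟩
            · have := h3.emp _ k4 (h3.sz _ k7)
              omega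
            · have := h3.emp x k7 k8
              omega
        · have := h3.emp j h4 h2
          omega
      · have := h3.emp x h7 h8
        omega
  obtain ⟨i, σ, j, ho⟩ := hl.down (N := z + (G + 4)) (by omega) (by omega)
    (by rw [hd.dz]; norm_num)
  have e := hw i σ j ho
  simp only [Prod.mk.injEq] at e
  obtain ⟨rfl, rfl, rfl⟩ := e
  obtain ⟨h1, h2, h3', h4, h5⟩ := hI.op hgb ho (by omega)
  rcases h5 with ⟨_, h6, h7, h8, h9⟩ | ⟨S, x, w, h6, h7, h8, h9, h10, h11, h12, h13, h14, _⟩
  · refine ⟨⟨h7, fun x hx => ?_, fun x hx => ?_⟩, ?_⟩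
    · have e1 := h9 x hx
      obtain ⟨n, hn1, hn2, hn3⟩ := h3.only x hx.right (h3.sz x hx) (by omega)
      have hb := two_pow_bd hn1 hn2
      have hn : n = 1 ∨ n = 2 := by
        have : 2 ^ n ≤ 2 ^ 2 := by omega
        have := two_pow_le this
        omega
      rcases hn with rfl | rfl
      · exfalso
        rw [hn3] at hx
        have := hp.inn _ hx
        omega
      · exact hn3
    · have e1 := h8 x hx
      rcases hI.fromi x _ hx (by omega) with e2 | e2 | e2
      · exfalso
        rw [e2] at hx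
        have := hp.out _ hx
        omega
      · exact e2
      · exact absurd e2 (hI.old_big (Or.inr (by omega)))
    · exact (hl.down_only hpos (N := i + (G + 4)) (by omega) (by omega) hd.dz hw).1
  · have := h3.emp x h7 h8
    omega

/-- A number `G + 2 ^ n` is not old. -/
theorem WN_idx {y : ℕ} (h3 : W3 g p z v G) (hv : 2 ^ 24 ≤ v) (hy : y ∈ Set.range g) (h1 : z < y)
    {n : ℕ} (hn1 : 1 ≤ n) (hn2 : n ≤ 20) (h2 : y ≤ G + 2 ^ n) :
    ∃ a, 1 ≤ a ∧ a ≤ n ∧ y = G + 2 ^ a := by
  have hb := two_pow_bd hn1 hn2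
  obtain ⟨a, ha1, ha2, rfl⟩ := h3.only y hy h1 (by omega)
  exact ⟨a, ha1, two_pow_le (by omega), rfl⟩

/-- Data of the induction in step (6): all links below `n`. -/
def LK (g : ℕ → ℕ) (G n : ℕ) : Prop :=
  ∀ i, 1 ≤ i → i < n → Uq g (G + 2 ^ i) (G + 2 ^ (i + 2))

/-- The predecessor of `x_b`, `b ≤ n + 1`. -/
theorem WN_pred (hp : Uq g p (G + 2)) (hq : Uq g z (G + 4)) {n b x : ℕ} (hL : LK g G n)
    (hb1 : 1 ≤ b) (hb2 : b ≤ n + 1) (hx : Adj g x (G + 2 ^ b)) :
    x = p ∨ x = z ∨ ∃ c, 1 ≤ c ∧ c + 2 = b ∧ x = G + 2 ^ c := by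
  by_cases h1 : b = 1
  · subst h1
    exact Or.inl (hp.inn x hx)
  · by_cases h2 : b = 2
    · subst h2
      exact Or.inr (Or.inl (hq.inn x hx))
    · refine Or.inr (Or.inr ⟨b - 2, by omega, by omega, ?_⟩)
      have := hL (b - 2) (by omega) (by omega)
      rw [show b - 2 + 2 = b by omega] at this
      exact this.inn x hx

/-- (6), the step -/
theorem WN_six (hgb : GB g) (hpos : ∀ t, 0 < g t) (hI : NI g old p z v Bd Q)
    (hz : z = p + 2 ^ 19) (hG : G = p + z + 2 ^ 22) (hv : 2 ^ 24 ≤ v) (hvp : v + 2 ^ 24 ≤ p)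
    (hBd : 2 * G + 2 ^ 18 + 2 ^ 20 < Bd) (hhi : 2 * G + 2 ^ 18 + 2 ^ 20 < hi)
    (hd : DW d p z G) (hl : RLE g old d z hi) (h3 : W3 g p z v G) (hp : Uq g p (G + 2))
    (hq : Uq g z (G + 4)) (hDp : p + (G + 2) ∉ Set.range g) (hDz : z + (G + 4) ∉ Set.range g)
    {n : ℕ} (hn1 : 1 ≤ n) (hn2 : n ≤ 18) (hL : LK g G n) :
    Uq g (G + 2 ^ n) (G + 2 ^ (n + 2)) := by
  have hb1 := two_pow_bd hn1 (by omega)
  have hb2 := two_pow_bd (i := n + 2) (by omega) (by omega)
  have hb3 : 2 ^ n ≤ 2 ^ 18 := Nat.pow_le_pow_right (by norm_num) hn2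
  have hb4 : 2 ^ (n + 2) ≤ 2 ^ 20 := Nat.pow_le_pow_right (by norm_num) (by omega)
  have hb5 : 2 ^ n < 2 ^ (n + 2) := Nat.pow_lt_pow_right (by norm_num) (by omega)
  -- the open word
  have hw : Weak g (G + 2 ^ n) [] (G + 2 ^ (n + 2)) := by
    obtain ⟨i, σ, j, ho⟩ := hl.down (N := 2 * G + 2 ^ n + 2 ^ (n + 2)) (by omega) (by omega)
      (by rw [hd.dx n hn1 hn2]; norm_num)
    obtain ⟨h1, h2, h3', h4, h5⟩ := hI.op hgb ho (by omega)
    rcases h1 with rfl | rfl | h1
    · have := (hI.op_p hgb hp (by omega) ho).2.2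
      omega
    · have := (hI.op_z hgb hq (by omega) ho).2.2
      omega
    · have e1 := h3.emp i h3' h1
      rcases h5 with ⟨rfl, h6, h7, h8, h9⟩ | ⟨S, x, w, h6, h7, h8, h9, h10, h11, h12, h13, h14, _⟩
      · rcases h2 with rfl | h2
        · exfalso
          refine WN_noY hgb hI hG hv hvp hBd hhi hd hl h3 (y := i) h7 h8 (by omega) (by omega)
            (fun σ j ho => ?_) (fun σ j ho => ?_)
          · have := (hI.op_p hgb hp (by omega) ho).2.2
            rw [this] at h3'
            exact hDp h3'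
          · have := (hI.op_z hgb hq (by omega) ho).2.2
            rw [this] at h3'
            exact hDz h3'
        · have e2 := h3.emp j h4 h2
          obtain ⟨a, ha1, ha2, ha3⟩ := h3.only i h3' h1 (by omega)
          obtain ⟨b, hj1, hj2, hj3⟩ := h3.only j h4 h2 (by omega)
          rcases two_pow_sum (a := a) (b := b) (n := n) (by omega) (by omega) (by omega) (by omega)
            with ⟨rfl, rfl⟩ | ⟨rfl, rfl⟩
          · rw [← ha3, ← hj3]
            exact (weak_iff hgb).2 ⟨h7, h8, h9⟩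
          · exfalso
            rw [hj3] at h7
            rcases WN_pred hp hq hL hj1 (by omega) h7 with k | k | ⟨c, hc1, hc2, hc3⟩
            · omega
            · omega
            · have := two_pow_inj (a := b + 2) (b := c) (by omega)
              omega
      · have := h3.emp x h7 h8
        omega
  obtain ⟨ha, hmx, hmy⟩ := (weak_iff hgb).1 hw
  -- predecessors
  have hinn : ∀ x, Adj g x (G + 2 ^ (n + 2)) → x = G + 2 ^ n := by
    intro x hx
    have e1 := hmx x hx
    rcases Nat.lt_or_ge z x with e2 | e2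
    · obtain ⟨a, ha1, ha2, rfl⟩ := WN_idx h3 hv hx.left e2 hn1 (by omega) e1
      rcases Nat.lt_or_ge a n with e3 | e3
      · have := two_pow_inj (a := n + 2) (b := a + 2) (by have := (hL a ha1 e3).out _ hx; omega)
        omega
      · rw [show a = n by omega]
    · rcases hI.fromi x _ hx e2 with e3 | e3 | e3
      · exfalso
        rw [e3] at hx
        have := two_pow_inj (a := n + 2) (b := 1) (by have := hp.out _ hx; omega)
        omega
      · exfalso
        rw [e3] at hx
        have := two_pow_inj (a := n + 2) (b := 2) (by have := hq.out _ hx; omega)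
        omega
      · exact absurd e3 (hI.old_big (Or.inr (by omega)))
  -- successors
  have hout : ∀ x, Adj g (G + 2 ^ n) x → x = v ∨ x = G + 2 ^ (n + 2) := by
    intro x hx
    have e1 := hmy x hx
    rcases Nat.lt_or_ge z x with e2 | e2
    · obtain ⟨b, hb1, hb2, rfl⟩ := WN_idx h3 hv hx.right e2 (n := n + 2) (by omega) (by omega) e1
      right
      rcases Nat.lt_or_ge b (n + 2) with e3 | e3
      · exfalso
        rcases WN_pred hp hq hL hb1 (by omega) hx with k | k | ⟨c, hc1, hc2, hc3⟩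
        · omega
        · omega
        · have := two_pow_inj (a := n) (b := c) (by omega)
          omega
      · rw [show b = n + 2 by omega]
    · left
      rcases hI.toj _ _ hx e2 with e3 | e3
      · exact e3
      · exact absurd e3 (hI.old_big (Or.inl (by omega)))
  -- no link to `v`
  have hnv : ¬ Adj g (G + 2 ^ n) v := by
    intro hv1
    -- all predecessors of `v` are at most `x_n`
    have hle : ∀ x, Adj g x v → x ≤ G + 2 ^ n := by
      by_contra hc
      push Not at hc
      obtain ⟨c, hc1, hc2⟩ := hc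
      have hs : Strong g (G + 2 ^ n) [] v :=
        (strong_iff hgb).2 ⟨hv1, ⟨c, hc2, hc1⟩, G + 2 ^ (n + 2), by have := hI.vp; omega, ha⟩
      obtain ⟨i, σ, j, ho⟩ := hl.str hpos (N := G + 2 ^ n + v) (by omega) (by omega)
        (hd.mid' hG (by omega) (by omega)) hs (by simp)
      obtain ⟨h1, h2, h3', h4, h5⟩ := hI.op hgb ho (by omega)
      rcases h1 with rfl | rfl | h1
      · have := (hI.op_p hgb hp (by omega) ho).2.2
        omega
      · have := (hI.op_z hgb hq (by omega) ho).2.2
        omega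
      · have e1 := h3.emp i h3' h1
        rcases h5 with ⟨rfl, h6, h7, h8, h9⟩ | ⟨S, x, w, h6, h7, h8, h9, h10, h11, h12, h13, h14, _⟩
        · rcases h2 with rfl | h2
          · have : i = G + 2 ^ n := by omega
            subst this
            have := h8 c hc1
            omega
          · have := h3.emp j h4 h2
            omega
        · have := h3.emp x h7 h8
          omega
    have hpr : ∀ x, Adj g x v → x = G + 2 ^ n := by
      intro x hx
      obtain ⟨a, ha1, ha2, rfl⟩ := WN_idx h3 hv hx.left (h3.pv x hx) hn1 (by omega) (hle x hx)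
      rcases Nat.lt_or_ge a n with e3 | e3
      · exfalso
        have := (hL a ha1 e3).out _ hx
        have := hI.vp
        have := hI.pz
        have : 0 < 2 ^ (a + 2) := by positivity
        omega
      · rw [show a = n by omega]
    rcases Nat.even_or_odd n with hev | hodd
    · -- the pending side is closed
      let F : Set ℕ := Q ∪ {x | ∃ m, 1 ≤ m ∧ m ≤ n ∧ Even m ∧ x = G + 2 ^ m}
      have hF : ∀ x ∈ F, ∀ y, Adj g y x → y ∈ F := by
        rintro x (hx | ⟨m, hm1, hm2, hm3, rfl⟩) y hy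
        · by_cases hxv : x = v
          · subst hxv
            exact Or.inr ⟨n, hn1, le_rfl, hev, hpr y hy⟩
          · exact Or.inl (hI.Qp x hx hxv y hy)
        · rcases WN_pred hp hq hL hm1 (by omega) hy with k | k | ⟨c, hc1, hc2, hc3⟩
          · exfalso
            rw [k] at hy
            have := two_pow_inj (a := m) (b := 1) (by have := hp.out _ hy; omega)
            subst this
            exact absurd hm3 (by decide)
          · rw [k]; exact Or.inl hI.Qz
          · refine Or.inr ⟨c, hc1, by omega, ?_, hc3⟩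
            rw [Nat.even_iff] at hm3 ⊢
            omega
      have hF0 : g 0 ∉ F := by
        rintro (h | ⟨m, hm1, hm2, hm3, h⟩)
        · exact hI.Qg h
        · have := hI.g0
          have : 0 < 2 ^ m := by positivity
          omega
      exact pred_closed hF0 hF v (Or.inl hI.Qv) hI.mv
    · -- the main side is seen only once
      have hon : ∀ m, m ≤ n → Odd m → ∀ s t, g s = G + 2 ^ m → g t = G + 2 ^ m → s = t := by
        intro m
        induction m using Nat.strong_induction_on with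
        | _ m ih =>
          intro hm1 hm2
          have hg0 := hI.g0
          have h2m : 0 < 2 ^ m := by positivity
          by_cases e : m = 1
          · subst e
            exact once_of_uq hI.once hp (by omega)
          · have hm3 : 3 ≤ m := by
              rw [Nat.odd_iff] at hm2
              omega
            have hm4 : Odd (m - 2) := by
              rw [Nat.odd_iff] at hm2 ⊢
              omega
            have h5 := hL (m - 2) (by omega) (by omega)
            rw [show m - 2 + 2 = m by omega] at h5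
            exact once_of_uq (ih (m - 2) (by omega) (by omega) hm4) h5 (by omega)
      have := succ_of_once (hon n le_rfl hodd) hv1 ha
      have := hI.vp
      have := hI.pz
      omega
  refine ⟨ha, fun x hx => ?_, hinn⟩
  rcases hout x hx with rfl | h
  · exact absurd hx hnv
  · exact h

end

/-- **Window stage, state N.** -/
theorem WN {g : ℕ → ℕ} {old : ℕ → ℕ → Prop} {p z v Bd G hi : ℕ} {Q : Set ℕ} {d : ℕ → ℤ}
    (hgb : GB g) (hpos : ∀ t, 0 < g t) (hI : NI g old p z v Bd Q)
    (hz : z = p + 2 ^ 19) (hG : G = p + z + 2 ^ 22) (hv : 2 ^ 24 ≤ v) (hvp : v + 2 ^ 24 ≤ p)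
    (hBd : 2 * G + 2 ^ 18 + 2 ^ 20 < Bd) (hhi : 2 * G + 2 ^ 18 + 2 ^ 20 < hi)
    (hd : DW d p z G) (hl : RLE g old d z hi) : WNo g p z G := by
  have h3 := WN_three hgb hpos hI hz hG hv hvp hBd hhi hd hl
  obtain ⟨hp, hDp⟩ := WN_four hgb hpos hI hz hG hv hvp hBd hhi hd hl h3
  obtain ⟨hq, hDz⟩ := WN_five hgb hpos hI hz hG hv hvp hBd hhi hd hl h3 hp
  have hL : ∀ n, n ≤ 19 → LK g G n := by
    intro n
    induction n with
    | zero => intro _ i hi1 hi2; omega
    | succ n ih =>
      intro hn i hi1 hi2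
      rcases Nat.lt_or_ge i n with h | h
      · exact ih (by omega) i hi1 h
      · obtain rfl : i = n := by omega
        exact WN_six hgb hpos hI hz hG hv hvp hBd hhi hd hl h3 hp hq hDp hDz hi1 (by omega)
          (ih (by omega))
  refine ⟨fun y hy h1 h2 => ?_, hp, hq, fun i hi1 hi2 => hL 19 le_rfl i hi1 (by omega)⟩
  exact h3.only y hy h1 (by omega)

end Pool.Agent.CF2
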