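import Pool.Agent.CF2.WN

/-!
# CF2: window stage, state R
-/

namespace Pool.Agent.CF2

/-- The classification of the inner words of level below `B`. -/
def RF (g : ℕ → ℕ) (p z v sg B : ℕ) : Prop :=
  ∀ i σ j, σ ≠ [] → Bi g i σ j → i + σ.sum + j < B → FA p z v i σ j ∨ FB g p z v sg i σ j

/-- Inner words of form B, in numbers. -/
def InB (g : ℕ → ℕ) (p z v sg N i j : ℕ) : Prop :=
  i = v ∧ (∃ m, Adj g v m ∧ m < z) ∧
    ((v + sg + j = N ∧ Adj g p j ∧ ∃ y, j < y ∧ Adj g p y) ∨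
      ∃ S x w, v + sg + S + j = N ∧ z < x ∧ z < w ∧ x ≤ S ∧ w ≤ S ∧ Adj g p x ∧ Adj g w j ∧
        ∃ y, j < y ∧ Adj g w y)

section

variable {g : ℕ → ℕ} {old : ℕ → ℕ → Prop} {d : ℕ → ℤ} {p z v a sg Sa : ℕ} {Q : Set ℕ}

theorem RI.inner {B : ℕ} (hF : RF g p z v sg B) {i σ j N} (h : Bi g i σ j) (hσ : σ ≠ [])
    (hN : i + σ.sum + j = N) (hlt : N < B) :
    (i = p ∨ i = v ∨ z < i) ∧ (j = z ∨ z < j) ∧ (Inn g z N i j ∨ InB g p z v sg N i j) := by
  rcases hF i σ j hσ h (by omega) with ⟨h1, h2, h3⟩ | ⟨h1, h2, h3, σ', h4, h5, h6, h7, h8⟩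
  · refine ⟨h2, h3, Or.inl ?_⟩
    obtain ⟨x, w, hx, hw, h4, h5, h6, h7, h8⟩ := h.inner hσ
    exact ⟨σ.sum, x, w, hN, h.mem x hx, h1 x hx, h.mem w hw, h1 w hw, h4, h5, h6, h7, h8⟩
  · refine ⟨Or.inr (Or.inl h1), h3, Or.inr ⟨h1, h2, ?_⟩⟩
    by_cases hs : σ' = []
    · left
      have := h6 hs
      subst hs
      simp only [List.sum_nil, Nat.add_zero] at h5
      exact ⟨by omega, this⟩
    · right
      obtain ⟨x, r, hx⟩ := List.exists_cons_of_ne_nil hs
      rcases List.eq_nil_or_concat σ' with h9 | ⟨r', w, h9⟩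
      · exact absurd h9 hs
      · rw [List.concat_eq_append] at h9
        have hxm : x ∈ σ' := by rw [hx]; simp
        have hwm : w ∈ σ' := by rw [h9]; simp
        obtain ⟨h10, h11⟩ := h8 w r' h9
        exact ⟨σ'.sum, x, w, by omega, h4 x hxm, h4 w hwm, List.le_sum_of_mem hxm,
          List.le_sum_of_mem hwm, h7 x r hx, h10, h11⟩

theorem RI.two (hI : RI g old p z v a sg Sa Q) {i j : ℕ} (h : Adj g i j) (ho : ¬ old i j)
    (hl : j < z → i = v → False) (hp : i = p → j = a → False) :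
    (i = p ∨ i = v ∨ z < i) ∧ (j = z ∨ z < j) := by
  constructor
  · rcases Nat.lt_or_ge z i with h1 | h1
    · exact Or.inr (Or.inr h1)
    · rcases hI.fromi i j h h1 with h2 | h2 | h2
      · exact Or.inl h2
      · exact Or.inr (Or.inl h2)
      · exact absurd h2 ho
  · rcases Nat.lt_or_ge j z with h1 | h1
    · exfalso
      rcases hI.toj i j h h1 with h2 | ⟨h2, -⟩ | ⟨h2, h3⟩
      · exact ho h2
      · exact hl h1 h2
      · exact hp h2 h3
    · omega

/-- The open words of state R. -/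
theorem RI.op (hI : RI g old p z v a sg Sa Q) (hgb : GB g) {B : ℕ} (hF : RF g p z v sg B)
    {i σ j N} (ho : Op g old N i σ j) (hlt : N < B) :
    (i = p ∨ i = v ∨ z < i) ∧ (j = z ∨ z < j) ∧ i ∈ Set.range g ∧ j ∈ Set.range g ∧
      ((σ = [] ∧ i + j = N ∧ Adj g i j ∧ (∀ x, Adj g x j → x ≤ i) ∧ ∀ x, Adj g i x → x ≤ j) ∨
        Inn g z N i j ∨ InB g p z v sg N i j) := by
  obtain ⟨hw, hN, hold⟩ := ho
  by_cases hσ : σ = []
  · subst hσ
    have h1 := (weak_iff hgb).1 hw
    obtain ⟨h2, h3⟩ := hI.two h1.1 (fun h => hold ⟨rfl, h⟩)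
      (fun h4 h5 => by subst h5; exact hI.leakw j h1.1 h4 hw)
      (fun h4 h5 => by subst h4; subst h5; exact hI.lpw h1.1 hw)
    exact ⟨h2, h3, h1.1.left, h1.1.right, Or.inl ⟨rfl, by simpa using hN, h1⟩⟩
  · obtain ⟨h1, h2, h3⟩ := RI.inner hF hw.bi hσ hN hlt
    exact ⟨h1, h2, hw.bi.left_mem, hw.bi.right_mem, Or.inr h3⟩

/-- The strong words of state R. -/
theorem RI.st (hI : RI g old p z v a sg Sa Q) (hgb : GB g) {B : ℕ} (hF : RF g p z v sg B)
    {i σ j N} (hs : Strong g i σ j) (hN : i + σ.sum + j = N) (hlt : N < B) :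
    (i = p ∨ i = v ∨ z < i) ∧ (j = z ∨ z < j) ∧ i ∈ Set.range g ∧ j ∈ Set.range g ∧
      ((σ = [] ∧ i + j = N ∧ Adj g i j ∧ (∃ x, i < x ∧ Adj g x j) ∧ ∃ x, j < x ∧ Adj g i x) ∨
        Inn g z N i j ∨ InB g p z v sg N i j) := by
  by_cases hσ : σ = []
  · subst hσ
    have h1 := (strong_iff hgb).1 hs
    obtain ⟨h0, -, x, hx1, hx2⟩ := id h1
    obtain ⟨h2, h3⟩ := hI.two h1.1 (fun h => hI.olds i j h hs)
      (fun h4 h5 => by
        subst h5
        have := hI.leak1 j h0 h4 x hx2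
        omega)
      (fun h4 h5 => by
        subst h4; subst h5
        have := hI.lp1 h0 x hx2
        omega)
    exact ⟨h2, h3, h1.1.left, h1.1.right, Or.inl ⟨rfl, by simpa using hN, h1⟩⟩
  · obtain ⟨h1, h2, h3⟩ := RI.inner hF hs.bi hσ hN hlt
    exact ⟨h1, h2, hs.bi.left_mem, hs.bi.right_mem, Or.inr h3⟩

/-- A successor of `p` other than `a` is at least `z`. -/
theorem RI.succ_p (hI : RI g old p z v a sg Sa Q) {x : ℕ} (h : Adj g p x) : x = a ∨ z ≤ x := by
  rcases Nat.lt_or_ge x z with h1 | h1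
  · left
    rcases hI.toj p x h h1 with h2 | ⟨h2, -⟩ | ⟨-, h3⟩
    · exact absurd rfl (hI.oldi _ _ h2).2.1
    · have := hI.vp
      omega
    · exact h3
  · exact Or.inr h1

/-- A predecessor of `x ≥ z`, not new, is `p` or `v`. -/
theorem RI.pred (hI : RI g old p z v a sg Sa Q) {x i : ℕ} (h : Adj g i x) (hx : z ≤ x) :
    i = p ∨ i = v ∨ z < i := by
  rcases Nat.lt_or_ge z i with h1 | h1
  · exact Or.inr (Or.inr h1)
  · rcases hI.fromi i x h h1 with h2 | h2 | h2
    · exact Or.inl h2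
    · exact Or.inr (Or.inl h2)
    · have := hI.oldj _ _ h2
      omega

/-- A successor of a new run is at least `z`. -/
theorem RI.succ_new (hI : RI g old p z v a sg Sa Q) {x i : ℕ} (h : Adj g i x) (hi : z < i) :
    z ≤ x := by
  by_contra hc
  rcases hI.toj i x h (by omega) with h2 | ⟨h2, -⟩ | ⟨h2, -⟩
  · have := (hI.oldi _ _ h2).1
    omega
  · have := hI.vp
    have := hI.pz
    omega
  · have := hI.pz
    omega

/-- If `v → z`, then some successor of `v` is larger than `z`. -/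
theorem RI.v_big (hI : RI g old p z v a sg Sa Q) (hgb : GB g) (h : Adj g v z) :
    ∃ j, z < j ∧ Adj g v j := by
  by_contra hno
  push Not at hno
  have hF : ∀ x ∈ Q, ∀ y, Adj g x y → y ∈ Q := by
    intro x hx y hy
    by_cases hxv : x = v
    · subst hxv
      rcases Nat.lt_trichotomy y z with h1 | h1 | h1
      · have := hI.leak1 y hy h1 z h
        omega
      · rw [h1]; exact hI.Qz
      · exact absurd hy (hno y h1)
    · exact hI.Qs x hx hxv y hy
  exact succ_closed hgb hI.Qle hF v hI.Qv hI.mv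

/-- The predecessors of `z` cannot all lie in `Q`. -/
theorem RI.z_only (hI : RI g old p z v a sg Sa Q) (hpa : ¬ Adj g p a)
    (h : ∀ x, Adj g x z → x ∈ Q) : False := by
  have hF : ∀ x ∈ Q, ∀ y, Adj g y x → y ∈ Q := by
    intro x hx y hy
    by_cases hxz : x = z
    · subst hxz
      exact h y hy
    · rcases hI.Qp x hx hxz y hy with h1 | ⟨h1, h2⟩
      · exact h1
      · rw [h1, h2] at hy
        exact absurd hy hpa
  exact pred_closed hI.Qg hF v hI.Qv hI.mv

end

/-- The hypotheses of the window stage in state R. -/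
structure WH (g : ℕ → ℕ) (old : ℕ → ℕ → Prop) (p z v a sg Sa G hi : ℕ) (Q : Set ℕ)
    (d : ℕ → ℤ) : Prop where
  gb : GB g
  pos : ∀ t, 0 < g t
  I : RI g old p z v a sg Sa Q
  z' : z = p + 2 ^ 19
  G' : G = p + z + 2 ^ 22
  v' : 2 ^ 24 ≤ v
  vp' : v + 2 ^ 24 ≤ p
  S' : 2 * z + 2 ^ 24 ≤ Sa + v
  sg' : v + sg ≠ G + 4
  hi' : 2 * G + 2 ^ 18 + 2 ^ 20 < hi
  d' : DW d p z G
  l' : RLE g old d z hi

section

variable {g : ℕ → ℕ} {old : ℕ → ℕ → Prop} {p z v a sg Sa G hi : ℕ} {Q : Set ℕ} {d : ℕ → ℤ}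

theorem WH.f1 (H : WH g old p z v a sg Sa G hi Q d) : RF g p z v sg (p + Sa + v) := H.I.forms1

/-- (2) -/
theorem WR_two (H : WH g old p z v a sg Sa G hi Q d) : ¬ Adj g p a := by
  obtain ⟨hgb, hpos, hI, hz, hG, hv, hvp, hS, hsg, hhi, hd, hl⟩ := H
  intro hpa
  have hF : RF g p z v sg (p + Sa + v) := hI.forms1
  have haz := hI.az
  have hpz := hI.pz
  have hpo : ∀ x, Adj g p x → x = a := hI.lp1 hpa
  -- no words of form B
  have noB : ∀ N i j, z ≤ j → ¬ InB g p z v sg N i j := by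
    rintro N i j hj ⟨-, -, ⟨-, h1, -⟩ | ⟨S, x, w, -, h2, -, -, -, h3, -⟩⟩
    · have := hpo j h1
      omega
    · have := hpo x h3
      omega
  have noVz : ∀ j, Adj g v j → (∀ x, Adj g v x → x ≤ j) → z ≤ j → z < j := by
    intro j h1 h2 h3
    by_contra hc
    have : j = z := by omega
    subst this
    obtain ⟨b, hb1, hb2⟩ := hI.v_big hgb h1
    have := h2 b hb2
    omega
  have hemp : ∀ y ∈ Set.range g, z < y → G + 2 ≤ y := by
    intro y
    induction y using Nat.strong_induction_on with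
    | _ y ih =>
      intro hy1 hy2
      by_contra hy3
      obtain ⟨i, σ, j, ho⟩ := hl.val (by omega) (by omega) (hd.low hz hG hy2 (by omega)).le hy1
      obtain ⟨h1, h2, h3, h4, h5⟩ := hI.op hgb hF ho (by omega)
      rcases h5 with ⟨rfl, h6, h7, h8, h9⟩ | ⟨S, x, w, h6, h7, h8, h9, h10, h11, h12, _⟩ | h5
      · rcases h1 with rfl | rfl | h1
        · have := hpo j h7
          omega
        · have := noVz j h7 h9 (by omega)
          have := ih j (by omega) h4 this
          omega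
        · have e1 := ih i (by omega) h3 h1
          omega
      · have := ih x (by omega) h7 h8
        omega
      · exact noB _ _ _ (by omega) h5
  -- the first down
  have hy : ∃ y, y + v = p + (G + 2) ∧ Adj g v y ∧ ∀ x, Adj g v x → x ≤ y := by
    obtain ⟨i, σ, j, ho⟩ := hl.down (N := p + (G + 2)) (by omega) (by omega)
      (by rw [hd.dp]; norm_num)
    obtain ⟨h1, h2, h3, h4, h5⟩ := hI.op hgb hF ho (by omega)
    rcases h5 with ⟨rfl, h6, h7, h8, h9⟩ | ⟨S, x, w, h6, h7, h8, h9, h10, h11, h12, _⟩ | h5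
    · rcases h1 with rfl | rfl | h1
      · have := hpo j h7
        omega
      · exact ⟨j, by omega, h7, h9⟩
      · have e1 := hemp i h3 h1
        omega
    · have := hemp x h7 h8
      omega
    · exact absurd h5 (noB _ _ _ (by omega))
  obtain ⟨y, hy2, hy3, hy4⟩ := hy
  obtain ⟨i, σ, j, ho⟩ := hl.val (N := y) (by omega) (by omega)
    (hd.mid' hG (by omega) (by omega)) hy3.right
  obtain ⟨h1, h2, h3, h4, h5⟩ := hI.op hgb hF ho (by omega)
  rcases h5 with ⟨rfl, h6, h7, h8, h9⟩ | ⟨S, x, w, h6, h7, h8, h9, h10, h11, h12, _⟩ | h5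
  · rcases h1 with rfl | rfl | h1
    · have := hpo j h7
      omega
    · have := h9 y hy3
      omega
    · have e1 := hemp i h3 h1
      omega
  · have := hemp x h7 h8
    omega
  · exact noB _ _ _ (by omega) h5

/-- (3) -/
theorem WR_three (H : WH g old p z v a sg Sa G hi Q d) : ¬ Adj g v z := by
  have hpa := WR_two H
  obtain ⟨hgb, hpos, hI, hz, hG, hv, hvp, hS, hsg, hhi, hd, hl⟩ := H
  intro hvz
  have hF : RF g p z v sg (p + Sa + v) := hI.forms1
  have hpz := hI.pz
  have hpsg := hI.psg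
  obtain ⟨b, hb1, hb2⟩ := hI.v_big hgb hvz
  by_cases hA : ∃ x, v < x ∧ Adj g x z
  · have hs : Strong g v [] z := (strong_iff hgb).2 ⟨hvz, hA, b, hb1, hb2⟩
    have hd0 := hd.low hz hG (N := v + z) (by omega) (by omega)
    obtain ⟨i, σ, j, ho⟩ := hl.str hpos (N := v + z) (by omega) (by omega) hd0.le hs (by simp)
    obtain ⟨h1, h2, h3, h4, h5⟩ := hI.op hgb hF ho (by omega)
    rcases h5 with ⟨rfl, h6, h7, h8, h9⟩ | ⟨S, x, w, h6, h7, h8, h9, h10, h11, h12, _⟩ |
      ⟨h6, h7, ⟨h8, -⟩ | ⟨S, x, w, h8, h9, h10, h11, _⟩⟩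
    · rcases h1 with rfl | rfl | h1
      · omega
      · have : j = z := by omega
        subst this
        have := h9 b hb2
        omega
      · omega
    · omega
    · omega
    · omega
  · push Not at hA
    refine hI.z_only hpa fun x hx => ?_
    rcases hI.pred hx le_rfl with h | h | h
    · subst h; exact absurd hx (hA x (by omega))
    · rw [h]; exact hI.Qv
    · exact absurd hx (hA x (by omega))

/-- The common end of cases 4a and 4b: `succ(p) = {z}`. -/
theorem WR_fourAB (H : WH g old p z v a sg Sa G hi Q d) (hvz : ¬ Adj g v z)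
    (hpo : ∀ x, Adj g p x → x = z)
    (hge : ∀ y ∈ Set.range g, z < y → y < G + 2 → y = p + z ∧ ∀ x, Adj g x z → x ≤ p) :
    False := by
  obtain ⟨hgb, hpos, hI, hz, hG, hv, hvp, hS, hsg, hhi, hd, hl⟩ := H
  have hF : RF g p z v sg (p + Sa + v) := hI.forms1
  have hpz := hI.pz
  have noB : ∀ N i j, z ≤ j → ¬ InB g p z v sg N i j := by
    rintro N i j hj ⟨-, -, ⟨-, h1, y, h2, h3⟩ | ⟨S, x, w, -, h2, -, -, -, h3, -⟩⟩
    · have := hpo y h3
      omega
    · have := hpo x h3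
      omega
  have hlow : ∀ y ∈ Set.range g, z < y → p + z ≤ y := by
    intro y h1 h2
    by_contra hc
    have := (hge y h1 h2 (by omega)).1
    omega
  have hvj : ∀ j, Adj g v j → (j = z ∨ z < j) → z < j := by
    rintro j h1 (rfl | h2)
    · exact absurd h1 hvz
    · exact h2
  have hy : ∃ y, y + v = p + (G + 2) ∧ Adj g v y ∧ ∀ x, Adj g v x → x ≤ y := by
    obtain ⟨i, σ, j, ho⟩ := hl.down (N := p + (G + 2)) (by omega) (by omega)
      (by rw [hd.dp]; norm_num)
    obtain ⟨h1, h2, h3, h4, h5⟩ := hI.op hgb hF ho (by omega)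
    rcases h5 with ⟨rfl, h6, h7, h8, h9⟩ |
      ⟨S, x, w, h6, h7, h8, h9, h10, h11, h12, -, ⟨h14, -⟩, h15⟩ | h5
    · rcases h1 with rfl | rfl | h1
      · have := hpo j h7
        omega
      · exact ⟨j, by omega, h7, h9⟩
      · have e1 := hlow i h3 h1
        rcases h2 with rfl | h2
        · exfalso
          rcases Nat.lt_or_ge i (G + 2) with e2 | e2
          · have := (hge i h3 h1 e2).2 i h7
            omega
          · omega
        · have := hlow j h4 h2
          omega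
    · exfalso
      have e1 := hlow x h7 h8
      have e2 := hlow w h9 h10
      rcases h2 with rfl | h2
      · rcases Nat.lt_or_ge w (G + 2) with e3 | e3
        · have := (hge w h9 h10 e3).2 w h14
          omega
        · omega
      · have := hlow j h4 h2
        omega
    · exact absurd h5 (noB _ _ _ (by omega))
  obtain ⟨y, hy2, hy3, hy4⟩ := hy
  obtain ⟨i, σ, j, ho⟩ := hl.val (N := y) (by omega) (by omega)
    (hd.mid' hG (by omega) (by omega)) hy3.right
  obtain ⟨h1, h2, h3, h4, h5⟩ := hI.op hgb hF ho (by omega)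
  rcases h5 with ⟨rfl, h6, h7, h8, h9⟩ | ⟨S, x, w, h6, h7, h8, h9, h10, h11, h12, _⟩ | h5
  · rcases h1 with rfl | rfl | h1
    · have := hpo j h7
      omega
    · have := h9 y hy3
      omega
    · have e1 := hlow i h3 h1
      omega
  · have := hlow x h7 h8
    omega
  · exact noB _ _ _ (by omega) h5

/-- (4) -/
theorem WR_four (H : WH g old p z v a sg Sa G hi Q d) : ¬ Adj g p z := by
  have hpa := WR_two H
  have hvz := WR_three H
  have H' := H
  obtain ⟨hgb, hpos, hI, hz, hG, hv, hvp, hS, hsg, hhi, hd, hl⟩ := H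
  intro hpz'
  have hF : RF g p z v sg (p + Sa + v) := hI.forms1
  have hpz := hI.pz
  have hpsg := hI.psg
  have hsp : ∀ x, Adj g p x → z ≤ x := fun x hx => by
    rcases hI.succ_p hx with h | h
    · rw [h] at hx; exact absurd hx hpa
    · exact h
  have hpr : ∀ x, Adj g x z → x = p ∨ z < x := fun x hx => by
    rcases hI.pred hx le_rfl with h | h | h
    · exact Or.inl h
    · rw [h] at hx; exact absurd hx hvz
    · exact Or.inr h
  -- no value below `p + z`
  have hemp : ∀ y ∈ Set.range g, z < y → p + z ≤ y := by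
    intro y
    induction y using Nat.strong_induction_on with
    | _ y ih =>
      intro hy1 hy2
      by_contra hy3
      obtain ⟨i, σ, j, ho⟩ := hl.val (by omega) (by omega)
        (hd.low hz hG hy2 (by omega)).le hy1
      obtain ⟨h1, h2, h3, h4, h5⟩ := hI.op hgb hF ho (by omega)
      rcases h5 with ⟨rfl, h6, h7, h8, h9⟩ | ⟨S, x, w, h6, h7, h8, h9, h10, h11, h12, _⟩ |
        ⟨h6, h7, ⟨h8, -⟩ | ⟨S, x, w, h8, h9, h10, h11, _⟩⟩
      · rcases h1 with rfl | rfl | h1
        · omega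
        · rcases h2 with rfl | h2
          · exact hvz h7
          · have := ih j (by omega) h4 h2
            omega
        · omega
      · omega
      · omega
      · omega
  -- open words of level `p + z`
  have hpz0 : ∀ i σ j, Op g old (p + z) i σ j → (i, σ, j) = ((p, [], z) : ℕ × List ℕ × ℕ) := by
    intro i σ j ho
    obtain ⟨h1, h2, h3, h4, h5⟩ := hI.op hgb hF ho (by omega)
    rcases h5 with ⟨rfl, h6, h7, h8, h9⟩ | ⟨S, x, w, h6, h7, h8, h9, h10, h11, h12, _⟩ |
      ⟨h6, h7, ⟨h8, -⟩ | ⟨S, x, w, h8, h9, h10, h11, _⟩⟩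
    · rcases h1 with rfl | rfl | h1
      · have : j = z := by omega
        rw [this]
      · rcases h2 with rfl | h2
        · exact absurd h7 hvz
        · have := hemp j h4 h2
          omega
      · omega
    · omega
    · omega
    · omega
  by_cases hA : ∃ x, p < x ∧ Adj g x z
  · -- 4b
    obtain ⟨c, hc1, hc2⟩ := hA
    have hpo : ∀ x, Adj g p x → x = z := by
      intro x hx
      by_contra hne
      have h1 := hsp x hx
      have hs : Strong g p [] z := (strong_iff hgb).2 ⟨hpz', ⟨c, hc1, hc2⟩, x, by omega, hx⟩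
      obtain ⟨i, σ, j, ho⟩ := hl.str hpos (N := p + z) (by omega) (by omega)
        (hd.low hz hG (N := p + z) (by omega) (by omega)).le hs (by simp)
      have e := hpz0 i σ j ho
      simp only [Prod.mk.injEq] at e
      obtain ⟨rfl, rfl, rfl⟩ := e
      have := ((weak_iff hgb).1 ho.1).2.1 c hc2
      omega
    refine WR_fourAB H' hvz hpo ?_
    intro y
    induction y using Nat.strong_induction_on with
    | _ y ih =>
      intro hy1 hy2 hy3
      exfalso
      obtain ⟨i, σ, j, ho⟩ := hl.val (by omega) (by omega) (hd.low hz hG hy2 hy3).le hy1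
      obtain ⟨h1, h2, h3, h4, h5⟩ := hI.op hgb hF ho (by omega)
      rcases h5 with ⟨rfl, h6, h7, h8, h9⟩ | ⟨S, x, w, h6, h7, h8, h9, h10, h11, h12, _⟩ |
        ⟨h6, h7, ⟨h8, h9, y', h10, h11⟩ | ⟨S, x, w, h8, h9, h10, h11, h12, h13, _⟩⟩
      · rcases h1 with rfl | rfl | h1
        · have := hpo j h7
          subst this
          have := h8 c hc2
          omega
        · rcases h2 with rfl | h2
          · exact hvz h7
          · have := (ih j (by omega) h4 h2 (by omega)).2 c hc2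
            omega
        · have := (ih i (by omega) h3 h1 (by omega)).2 c hc2
          omega
      · have := (ih x (by omega) h7 h8 (by omega)).2 c hc2
        omega
      · have := hpo y' h11
        omega
      · have := hpo x h13
        omega
  · push Not at hA
    have hpr' : ∀ x, Adj g x z → x = p := by
      intro x hx
      rcases hpr x hx with h | h
      · exact h
      · exact absurd hx (hA x (by omega))
    by_cases hB : ∃ x, z < x ∧ Adj g p x
    · -- 4c
      obtain ⟨b, hb1, hb2⟩ := hB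
      have hleak : ∃ m, Adj g v m ∧ m < z := by
        by_contra hno
        push Not at hno
        have := succ_of_once (hI.once hno) hb2 hpz'
        omega
      obtain ⟨m, hm1, hm2⟩ := hleak
      have hvm := hI.leak1 m hm1 hm2
      have hvn : ∀ j, z ≤ j → ¬ Adj g v j := fun j h1 h2 => by
        have := hvm j h2
        omega
      have hemp2 : ∀ y ∈ Set.range g, z < y → G + 2 ≤ y := by
        intro y
        induction y using Nat.strong_induction_on with
        | _ y ih =>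
          intro hy1 hy2
          by_contra hy3
          obtain ⟨i, σ, j, ho⟩ := hl.val (by omega) (by omega)
            (hd.low hz hG hy2 (by omega)).le hy1
          obtain ⟨h1, h2, h3, h4, h5⟩ := hI.op hgb hF ho (by omega)
          rcases h5 with ⟨rfl, h6, h7, h8, h9⟩ | ⟨S, x, w, h6, h7, h8, h9, h10, h11, h12, _⟩ |
            ⟨h6, h7, ⟨h8, -⟩ | ⟨S, x, w, h8, h9, h10, h11, _⟩⟩
          · rcases h1 with rfl | rfl | h1
            · have := h9 b hb2
              rcases h2 with rfl | h2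
              · omega
              · have := ih j (by omega) h4 h2
                omega
            · exact hvn j (by omega) h7
            · have := ih i (by omega) h3 h1
              omega
          · have := ih x (by omega) h7 h8
            omega
          · omega
          · omega
      -- the number `x_2 + 2^19` is not a run
      have hy : G + 4 + 2 ^ 19 ∉ Set.range g := by
        intro hy
        have hd0 : d (G + 4 + 2 ^ 19) = 0 := by
          refine hd.rest _ (by omega) (by omega) (fun n hn1 hn2 hn3 => ?_) (by omega) (by omega)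
            (fun n hn1 hn2 => ?_)
          · have e : 2 ^ n = 4 + 2 ^ 19 := by omega
            rcases Nat.lt_or_ge n 20 with h | h
            · have := Nat.pow_le_pow_right (n := 2) (by norm_num) (show n ≤ 19 by omega)
              omega
            · have := Nat.pow_le_pow_right (n := 2) (by norm_num) h
              omega
          · have := two_pow_bd hn1 (by omega)
            have := two_pow_bd (i := n + 2) (by omega) (by omega)
            omega
        obtain ⟨i, σ, j, ho⟩ := hl.val (by omega) (by omega) hd0.le hy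
        obtain ⟨h1, h2, h3, h4, h5⟩ := hI.op hgb hF ho (by omega)
        rcases h5 with ⟨rfl, h6, h7, h8, h9⟩ | ⟨S, x, w, h6, h7, h8, h9, h10, h11, h12, _⟩ |
          ⟨h6, h7, ⟨h8, -⟩ | ⟨S, x, w, h8, h9, h10, h11, _⟩⟩
        · rcases h1 with rfl | rfl | h1
          · have := h9 b hb2
            rcases h2 with rfl | h2
            · omega
            · have := hemp2 j h4 h2
              omega
          · exact hvn j (by omega) h7
          · have := hemp2 i h3 h1
            omega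
        · have := hemp2 x h7 h8
          omega
        · omega
        · omega
      obtain ⟨i, σ, j, ho⟩ := hl.down (N := z + (G + 4)) (by omega) (by omega)
        (by rw [hd.dz]; norm_num)
      obtain ⟨h1, h2, h3, h4, h5⟩ := hI.op hgb hF ho (by omega)
      rcases h5 with ⟨rfl, h6, h7, h8, h9⟩ |
        ⟨S, x, w, h6, h7, h8, h9, h10, h11, h12, ⟨h13, -⟩, ⟨h14, -⟩, h15⟩ |
        ⟨h6, h7, ⟨h8, h9, y', h10, h11⟩ | ⟨S, x, w, h8, h9, h10, h11, h12, h13, _⟩⟩
      · rcases h1 with rfl | rfl | h1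
        · refine hy ?_
          rwa [show G + 4 + 2 ^ 19 = j by omega]
        · exact hvn j (by omega) h7
        · have := hemp2 i h3 h1
          rcases h2 with rfl | h2
          · have := hpr' i h7
            omega
          · have := hemp2 j h4 h2
            omega
      · have := hemp2 x h7 h8
        have := hemp2 w h9 h10
        rcases h2 with rfl | h2
        · have := hpr' w h14
          omega
        · have := hemp2 j h4 h2
          rcases h1 with rfl | rfl | h1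
          · omega
          · exact hvn x (by omega) h13
          · have := hemp2 i h3 h1
            omega
      · rcases h2 with rfl | h2
        · omega
        · have := hemp2 j h4 h2
          omega
      · have := hemp2 x h13.right h9
        omega
    · -- 4a
      push Not at hB
      have hpo : ∀ x, Adj g p x → x = z := by
        intro x hx
        have h1 := hsp x hx
        by_contra hne
        exact hB x (by omega) hx
      have hwk : Weak g p [] z :=
        (weak_iff hgb).2 ⟨hpz', fun x hx => (hpr' x hx).le, fun x hx => (hpo x hx).le⟩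
      have hop : Op g old (p + z) p [] z :=
        op_of_weak hwk rfl (fun h => (hI.oldi _ _ h).2.1 rfl)
      have hh : p + z ∈ Set.range g := by
        refine hl.zero_only hpos (N := p + z) (w := (p, [], z)) (by omega) (by omega)
          (hd.low hz hG (by omega) (by omega)) hpz0 (fun i σ j hs hN => ?_) hop
        obtain ⟨h1, h2, h3, h4, h5⟩ := hI.st hgb hF hs hN (by omega)
        rcases h5 with ⟨rfl, h6, h7, ⟨c, hc1, hc2⟩, h9⟩ |
          ⟨S, x, w, h6, h7, h8, h9, h10, h11, h12, _⟩ |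
          ⟨h6, h7, ⟨h8, -⟩ | ⟨S, x, w, h8, h9, h10, h11, _⟩⟩
        · rcases h1 with rfl | rfl | h1
          · have : j = z := by omega
            subst this
            have := hpr' c hc2
            omega
          · rcases h2 with rfl | h2
            · exact hvz h7
            · have := hemp j h4 h2
              omega
          · omega
        · omega
        · omega
        · omega
      refine WR_fourAB H' hvz hpo ?_
      intro y
      induction y using Nat.strong_induction_on with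
      | _ y ih =>
        intro hy1 hy2 hy3
        refine ⟨?_, fun x hx => (hpr' x hx).le⟩
        by_contra hne
        obtain ⟨i, σ, j, ho⟩ := hl.val (by omega) (by omega) (hd.low hz hG hy2 hy3).le hy1
        obtain ⟨h1, h2, h3, h4, h5⟩ := hI.op hgb hF ho (by omega)
        rcases h5 with ⟨rfl, h6, h7, h8, h9⟩ | ⟨S, x, w, h6, h7, h8, h9, h10, h11, h12, _⟩ |
          ⟨h6, h7, ⟨h8, h9, y', h10, h11⟩ | ⟨S, x, w, h8, h9, h10, h11, h12, h13, _⟩⟩
        · rcases h1 with rfl | rfl | h1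
          · have := hpo j h7
            omega
          · rcases h2 with rfl | h2
            · exact hvz h7
            · have := (ih j (by omega) h4 h2 (by omega)).1
              omega
          · have := hemp i h3 h1
            omega
        · have := hemp x h7 h8
          omega
        · have := hpo y' h11
          omega
        · have := hpo x h13
          omega

/-- What is known after step (5). -/
structure R5 (g : ℕ → ℕ) (p z v sg Bd G : ℕ) : Prop where
  frm : RF g p z v sg Bd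
  sp : ∀ x, Adj g p x → z < x
  pz : ∀ x, Adj g x z → z < x
  sv : ¬ Adj g v z
  emp : ∀ y ∈ Set.range g, z < y → G + 2 ≤ y
  mem : ∀ n, 1 ≤ n → n ≤ 20 → G + 2 ^ n ∈ Set.range g
  only : ∀ y ∈ Set.range g, z < y → y < G + 2 + v → ∃ n, 1 ≤ n ∧ n ≤ 20 ∧ y = G + 2 ^ n

/-- (5) -/
theorem WR_five (H : WH g old p z v a sg Sa G hi Q d) : R5 g p z v sg (2 * z + Sa + v) G := by
  have hpa := WR_two H
  have hvz := WR_three H
  have hpz' := WR_four H
  obtain ⟨hgb, hpos, hI, hz, hG, hv, hvp, hS, hsg, hhi, hd, hl⟩ := H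
  have hF : RF g p z v sg (2 * z + Sa + v) := hI.forms2 hpa hpz' hvz
  have hpz := hI.pz
  have hpsg := hI.psg
  have hsp : ∀ x, Adj g p x → z < x := fun x hx => by
    rcases hI.succ_p hx with h | h
    · rw [h] at hx; exact absurd hx hpa
    · rcases Nat.lt_or_ge z x with h1 | h1
      · exact h1
      · rw [show x = z by omega] at hx
        exact absurd hx hpz'
  have hpr : ∀ x, Adj g x z → z < x := fun x hx => by
    rcases hI.pred hx le_rfl with h | h | h
    · rw [h] at hx; exact absurd hx hpz'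
    · rw [h] at hx; exact absurd hx hvz
    · exact h
  have hemp : ∀ y ∈ Set.range g, z < y → G + 2 ≤ y := by
    intro y
    induction y using Nat.strong_induction_on with
    | _ y ih =>
      intro hy1 hy2
      by_contra hy3
      obtain ⟨i, σ, j, ho⟩ := hl.val (by omega) (by omega)
        (hd.low hz hG hy2 (by omega)).le hy1
      obtain ⟨h1, h2, h3, h4, h5⟩ := hI.op hgb hF ho (by omega)
      rcases h5 with ⟨rfl, h6, h7, h8, h9⟩ | ⟨S, x, w, h6, h7, h8, h9, h10, h11, h12, _⟩ |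
        ⟨h6, h7, ⟨h8, h9, _⟩ | ⟨S, x, w, h8, h9, h10, h11, _⟩⟩
      · rcases h1 with rfl | rfl | h1
        · have := ih j (by omega) h4 (hsp j h7)
          omega
        · rcases h2 with rfl | h2
          · exact hvz h7
          · have := ih j (by omega) h4 h2
            omega
        · have := ih i (by omega) h3 h1
          omega
      · have := ih x (by omega) h7 h8
        omega
      · have := ih j (by omega) h4 (hsp j h9)
        omega
      · omega
  -- words are long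
  have big : ∀ N i j, (i = p ∨ i = v ∨ z < i) → (j = z ∨ z < j) → i ∈ Set.range g →
      j ∈ Set.range g → (i + j = N ∧ Adj g i j) ∨ Inn g z N i j ∨ InB g p z v sg N i j →
      G + 2 + v ≤ N := by
    intro N i j h1 h2 h3 h4 h5
    rcases h5 with ⟨h6, h7⟩ | ⟨S, x, w, h6, h7, h8, h9, h10, h11, h12, _⟩ |
        ⟨h6, h7, ⟨h8, h9, _⟩ | ⟨S, x, w, h8, h9, h10, h11, _, h12, _⟩⟩
    · rcases h1 with rfl | rfl | h1
      · have := hemp j h4 (hsp j h7)
        omega
      · rcases h2 with rfl | h2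
        · exact absurd h7 hvz
        · have := hemp j h4 h2
          omega
      · have := hemp i h3 h1
        omega
    · have := hemp x h7 h8
      omega
    · have := hemp j h4 (hsp j h9)
      omega
    · have := hemp x h12.right h9
      omega
  have bigo : ∀ N i σ j, N < 2 * z + Sa + v → Op g old N i σ j → G + 2 + v ≤ N := by
    intro N i σ j hN ho
    obtain ⟨h1, h2, h3, h4, h5⟩ := hI.op hgb hF ho hN
    refine big N i j h1 h2 h3 h4 ?_
    rcases h5 with ⟨_, h6, h7, _⟩ | h5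
    · exact Or.inl ⟨h6, h7⟩
    · exact Or.inr h5
  have bigs : ∀ N i σ j, N < 2 * z + Sa + v → Strong g i σ j → i + σ.sum + j = N →
      G + 2 + v ≤ N := by
    intro N i σ j hN hs hN2
    obtain ⟨h1, h2, h3, h4, h5⟩ := hI.st hgb hF hs hN2 hN
    refine big N i j h1 h2 h3 h4 ?_
    rcases h5 with ⟨_, h6, h7, _⟩ | h5
    · exact Or.inl ⟨h6, h7⟩
    · exact Or.inr h5
  refine ⟨hF, hsp, hpr, hvz, hemp, ?_, ?_⟩
  · intro n hn1 hn2
    have hb := two_pow_bd hn1 hn2
    have h1 := hl.up hpos (N := G + 2 ^ n) (by omega) (by omega) (hd.up n hn1 hn2)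
      (fun i σ j ho => by
        have := bigo _ _ _ _ (by omega) ho
        omega)
    rcases h1 with h1 | ⟨h1, i, σ, j, h2, h3⟩
    · exact h1.1
    · have := bigs _ _ _ _ (by omega) h2 h3
      omega
  · intro y hy1 hy2 hy3
    by_contra hno
    push Not at hno
    have hd0 : d y = 0 := by
      refine hd.rest y hy2 (by omega) (fun n hn1 hn2 => hno n hn1 hn2) (by omega) (by omega)
        (fun n hn1 hn2 => ?_)
      have := two_pow_bd hn1 (by omega)
      have := two_pow_bd (i := n + 2) (by omega) (by omega)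
      omega
    obtain ⟨i, σ, j, ho⟩ := hl.val (by omega) (by omega) hd0.le hy1
    have := bigo _ _ _ _ (by omega) ho
    omega

/-- Open words after step (5), of small level: two runs only. -/
theorem WR_op5 (H : WH g old p z v a sg Sa G hi Q d) (h5 : R5 g p z v sg (2 * z + Sa + v) G)
    {N i σ j} (hN : N < v + p + (G + 2)) (ho : Op g old N i σ j) :
    σ = [] ∧ i + j = N ∧ Adj g i j ∧ (∀ x, Adj g x j → x ≤ i) ∧ (∀ x, Adj g i x → x ≤ j) ∧
      ((i = p ∧ G + 2 ≤ j) ∨ (i = v ∧ G + 2 ≤ j) ∨ (G + 2 ≤ i ∧ j = z) ∨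
        (G + 2 ≤ i ∧ G + 2 ≤ j)) := by
  obtain ⟨hgb, hpos, hI, hz, hG, hv, hvp, hS, hsg, hhi, hd, hl⟩ := H
  have hpz := hI.pz
  have hpsg := hI.psg
  obtain ⟨h1, h2, h3, h4, h6⟩ := hI.op hgb h5.frm ho (by omega)
  rcases h6 with ⟨rfl, h6, h7, h8, h9⟩ | ⟨S, x, w, h6, h7, h8, h9, h10, h11, h12, _⟩ |
    ⟨h6, h7, ⟨h8, h9, _⟩ | ⟨S, x, w, h8, h9, h10, h11, _, h12, _⟩⟩
  · refine ⟨rfl, h6, h7, h8, h9, ?_⟩
    rcases h1 with rfl | rfl | h1
    · exact Or.inl ⟨rfl, h5.emp j h4 (h5.sp j h7)⟩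
    · rcases h2 with rfl | h2
      · exact absurd h7 h5.sv
      · exact Or.inr (Or.inl ⟨rfl, h5.emp j h4 h2⟩)
    · have e1 := h5.emp i h3 h1
      rcases h2 with rfl | h2
      · exact Or.inr (Or.inr (Or.inl ⟨e1, rfl⟩))
      · exact Or.inr (Or.inr (Or.inr ⟨e1, h5.emp j h4 h2⟩))
  · have := h5.emp x h7 h8
    omega
  · have := h5.emp j h4 (h5.sp j h9)
    omega
  · have := h5.emp x h12.right h9
    omega

/-- No largest successor of `v` in the middle range, below `z + (G + 4)`. -/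
theorem WR_noY5 (H : WH g old p z v a sg Sa G hi Q d) (h5 : R5 g p z v sg (2 * z + Sa + v) G)
    {y : ℕ} (hy : Adj g v y) (hmax : ∀ x, Adj g v x → x ≤ y) (hy1 : G + 2 ^ 20 < y)
    (hy2 : y < G + 2 + z) (hp : ∀ x, G + 2 ≤ x → Adj g p x → y ≠ p + x) : False := by
  have H' := H
  obtain ⟨hgb, hpos, hI, hz, hG, hv, hvp, hS, hsg, hhi, hd, hl⟩ := H
  obtain ⟨i, σ, j, ho⟩ := hl.val (N := y) (by omega) (by omega)
    (hd.mid' hG (by omega) (by omega)) hy.right
  obtain ⟨-, h1, h2, h3, h4, h6⟩ := WR_op5 H' h5 (by omega) ho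
  rcases h6 with ⟨rfl, h6⟩ | ⟨rfl, h6⟩ | ⟨h6, rfl⟩ | ⟨h6, h7⟩
  · exact hp j h6 h2 (by omega)
  · have := h4 y hy
    omega
  · omega
  · omega

/-- What is known after step (6). -/
structure R6 (g : ℕ → ℕ) (p v G : ℕ) : Prop where
  px : Adj g p (G + 2)
  po : ∀ x, Adj g p x → x = G + 2
  pi : ∀ x, Adj g x (G + 2) → x = p ∨ x = v
  Dp : p + (G + 2) ∉ Set.range g
  vx : Adj g v (G + 2) → ∀ x, Adj g v x → x ≤ G + 2

/-- (6) -/
theorem WR_six (H : WH g old p z v a sg Sa G hi Q d)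
    (h5 : R5 g p z v sg (2 * z + Sa + v) G) : R6 g p v G := by
  have H' := H
  obtain ⟨hgb, hpos, hI, hz, hG, hv, hvp, hS, hsg, hhi, hd, hl⟩ := H
  have hw : ∀ i σ j, Op g old (p + (G + 2)) i σ j →
      (i, σ, j) = ((p, [], G + 2) : ℕ × List ℕ × ℕ) := by
    intro i σ j ho
    obtain ⟨rfl, h1, h2, h3, h4, h6⟩ := WR_op5 H' h5 (by omega) ho
    rcases h6 with ⟨rfl, h6⟩ | ⟨rfl, h6⟩ | ⟨h6, rfl⟩ | ⟨h6, h7⟩
    · rw [show j = G + 2 by omega]
    · exact (WR_noY5 H' h5 h2 h4 (by omega) (by omega) (fun x h7 h8 h9 => by omega)).elim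
    · omega
    · omega
  obtain ⟨i, σ, j, ho⟩ := hl.down (N := p + (G + 2)) (by omega) (by omega)
    (by rw [hd.dp]; norm_num)
  have e := hw i σ j ho
  simp only [Prod.mk.injEq] at e
  obtain ⟨rfl, rfl, rfl⟩ := e
  obtain ⟨-, h1, h2, h3, h4, h6⟩ := WR_op5 H' h5 (by omega) ho
  refine ⟨h2, fun x hx => ?_, fun x hx => ?_, ?_, fun hvx x hx => ?_⟩
  · have := h5.emp x hx.right (h5.sp x hx)
    have := h4 x hx
    omega
  · have := h3 x hx
    rcases hI.pred hx (by omega) with h | h | h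
    · exact Or.inl h
    · exact Or.inr h
    · omega
  · exact (hl.down_only hpos (N := i + (G + 2)) (by omega) (by omega) hd.dp hw).1
  · by_contra hc
    have hs : Strong g v [] (G + 2) :=
      (strong_iff hgb).2 ⟨hvx, ⟨i, by omega, h2⟩, x, by omega, hx⟩
    obtain ⟨i', σ, j', ho⟩ := hl.str hpos (N := v + (G + 2)) (by omega) (by omega)
      (hd.mid' hG (by omega) (by omega)) hs (by simp)
    obtain ⟨-, k1, k2, k3, k4, k6⟩ := WR_op5 H' h5 (by omega) ho
    rcases k6 with ⟨rfl, k6⟩ | ⟨rfl, k6⟩ | ⟨k6, rfl⟩ | ⟨k6, k7⟩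
    · omega
    · have := k4 x hx
      omega
    · omega
    · omega

/-- A run between `z` and `G + 2 ^ n`. -/
theorem R5.idx {Bd y : ℕ} (h3 : R5 g p z v sg Bd G) (hv : 2 ^ 24 ≤ v) (hy : y ∈ Set.range g)
    (h1 : z < y) {n : ℕ} (hn1 : 1 ≤ n) (hn2 : n ≤ 20) (h2 : y ≤ G + 2 ^ n) :
    ∃ a, 1 ≤ a ∧ a ≤ n ∧ y = G + 2 ^ a := by
  have hb := two_pow_bd hn1 hn2
  obtain ⟨a, ha1, ha2, rfl⟩ := h3.only y hy h1 (by omega)
  exact ⟨a, ha1, two_pow_le (by omega), rfl⟩

/-- What is known after step (7). -/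
structure R7 (g : ℕ → ℕ) (z G : ℕ) : Prop where
  xz : Adj g (G + 4) z
  xo : ∀ x, Adj g (G + 4) x → x = z
  zi : ∀ x, Adj g x z → x = G + 2 ∨ x = G + 4
  Dz : z + (G + 4) ∉ Set.range g
  x1 : Adj g (G + 2) z → ∀ x, Adj g (G + 2) x → x ≤ z

/-- (7) -/
theorem WR_seven (H : WH g old p z v a sg Sa G hi Q d)
    (h5 : R5 g p z v sg (2 * z + Sa + v) G) (h6 : R6 g p v G) : R7 g z G := by
  have H' := H
  obtain ⟨hgb, hpos, hI, hz, hG, hv, hvp, hS, hsg, hhi, hd, hl⟩ := H
  have hno : ∀ y, Adj g v y → (∀ x, Adj g v x → x ≤ y) → G + 2 ^ 20 < y → y < G + 2 + z →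
      False := by
    intro y h1 h2 h3 h4
    refine WR_noY5 H' h5 h1 h2 h3 h4 fun x h7 h8 h9 => ?_
    rw [h6.po x h8] at h9
    rw [h9] at h1
    exact h6.Dp h1.right
  have hw : ∀ i σ j, Op g old (z + (G + 4)) i σ j →
      (i, σ, j) = ((G + 4, [], z) : ℕ × List ℕ × ℕ) := by
    intro i σ j ho
    obtain ⟨rfl, k1, k2, k3, k4, k6⟩ := WR_op5 H' h5 (by omega) ho
    rcases k6 with ⟨rfl, k6⟩ | ⟨rfl, k6⟩ | ⟨k6, rfl⟩ | ⟨k6, k7⟩
    · have := h6.po j k2
      omega
    · exact (hno j k2 k4 (by omega) (by omega)).elim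
    · rw [show i = G + 4 by omega]
    · omega
  obtain ⟨i, σ, j, ho⟩ := hl.down (N := z + (G + 4)) (by omega) (by omega)
    (by rw [hd.dz]; norm_num)
  have e := hw i σ j ho
  simp only [Prod.mk.injEq] at e
  obtain ⟨rfl, rfl, rfl⟩ := e
  obtain ⟨-, h1, h2, h3, h4, h7⟩ := WR_op5 H' h5 (by omega) ho
  refine ⟨h2, fun x hx => ?_, fun x hx => ?_, ?_, fun hxz x hx => ?_⟩
  · have := h4 x hx
    have := hI.succ_new hx (by omega)
    omega
  · have e1 := h3 x hx
    obtain ⟨n, hn1, hn2, hn3⟩ := h5.idx hv hx.left (h5.pz x hx) (n := 2) (by omega) (by omega)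
      (by omega)
    have hn : n = 1 ∨ n = 2 := by omega
    rcases hn with rfl | rfl
    · exact Or.inl hn3
    · exact Or.inr hn3
  · exact (hl.down_only hpos (N := j + (G + 4)) (by omega) (by omega) hd.dz hw).1
  · by_contra hc
    have hs : Strong g (G + 2) [] j :=
      (strong_iff hgb).2 ⟨hxz, ⟨G + 4, by omega, h2⟩, x, by omega, hx⟩
    obtain ⟨i', σ, j', ho⟩ := hl.str hpos (N := G + 2 + j) (by omega) (by omega)
      (hd.mid' hG (by omega) (by omega)) hs (by simp)
    obtain ⟨-, k1, k2, k3, k4, k6⟩ := WR_op5 H' h5 (by omega) ho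
    rcases k6 with ⟨rfl, k6⟩ | ⟨rfl, k6⟩ | ⟨k6, rfl⟩ | ⟨k6, k7⟩
    · have := h6.po j' k2
      omega
    · exact (hno j' k2 k4 (by omega) (by omega)).elim
    · have := k3 (G + 4) h2
      omega
    · omega

/-- Open words after step (7). -/
theorem WR_op7 (H : WH g old p z v a sg Sa G hi Q d) (h5 : R5 g p z v sg (2 * z + Sa + v) G)
    (h6 : R6 g p v G) (h7 : R7 g z G)
    {N i σ j} (hN : N ≤ 2 * G + 2 ^ 18 + 2 ^ 20) (ho : Op g old N i σ j) :
    σ = [] ∧ i + j = N ∧ Adj g i j ∧ (∀ x, Adj g x j → x ≤ i) ∧ (∀ x, Adj g i x → x ≤ j) ∧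
      ((i = p ∧ j = G + 2) ∨ (i = v ∧ G + 2 ≤ j) ∨ (i = G + 4 ∧ j = z) ∨
        (G + 2 ≤ i ∧ G + 2 ≤ j)) := by
  obtain ⟨hgb, hpos, hI, hz, hG, hv, hvp, hS, hsg, hhi, hd, hl⟩ := H
  have hpz := hI.pz
  have hpsg := hI.psg
  obtain ⟨k1, k2, k3, k4, k5⟩ := hI.op hgb h5.frm ho (by omega)
  rcases k5 with ⟨rfl, k6, k7, k8, k9⟩ |
    ⟨S, x, w, k6, k7, k8, k9, k10, k11, k12, ⟨k13, x', k14, k15⟩, ⟨k16, w', k17, k18⟩, k19⟩ |
    ⟨k6, k7, ⟨k8, k9, y', k10, k11⟩ | ⟨S, x, w, k8, k9, k10, k11, _, k12, _⟩⟩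
  · refine ⟨rfl, k6, k7, k8, k9, ?_⟩
    rcases k1 with rfl | rfl | k1
    · exact Or.inl ⟨rfl, h6.po j k7⟩
    · rcases k2 with rfl | k2
      · exact absurd k7 h5.sv
      · exact Or.inr (Or.inl ⟨rfl, h5.emp j k4 k2⟩)
    · have e1 := h5.emp i k3 k1
      rcases k2 with rfl | k2
      · right; right; left
        refine ⟨?_, rfl⟩
        rcases h7.zi i k7 with e2 | e2
        · have := k8 (G + 4) h7.xz
          omega
        · exact e2
      · exact Or.inr (Or.inr (Or.inr ⟨e1, h5.emp j k4 k2⟩))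
  · exfalso
    have e1 := h5.emp x k7 k8
    have e2 := h5.emp w k9 k10
    rcases k1 with rfl | rfl | k1
    · rw [h6.po x k13] at k15
      rcases h6.pi x' k15 with e3 | e3 <;> omega
    · rcases k2 with rfl | k2
      · rcases h7.zi w k16 with e3 | e3
        · rw [e3] at k16 k18
          have := h7.x1 k16 w' k18
          omega
        · rw [e3] at k18
          have := h7.xo w' k18
          omega
      · have := h5.emp j k4 k2
        omega
    · have := h5.emp i k3 k1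
      omega
  · exfalso
    have := h6.po j k9
    have := h6.po y' k11
    omega
  · exfalso
    have := h5.emp x k12.right k9
    omega

/-- No largest successor of `v` in the middle range. -/
theorem WR_noY7 (H : WH g old p z v a sg Sa G hi Q d) (h5 : R5 g p z v sg (2 * z + Sa + v) G)
    (h6 : R6 g p v G) (h7 : R7 g z G) {y : ℕ} (hy : Adj g v y)
    (hmax : ∀ x, Adj g v x → x ≤ y) (hy1 : G + 2 ^ 20 < y) (hy2 : y < 2 * G + 2) : False := by
  have H' := H
  obtain ⟨hgb, hpos, hI, hz, hG, hv, hvp, hS, hsg, hhi, hd, hl⟩ := H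
  obtain ⟨i, σ, j, ho⟩ := hl.val (N := y) (by omega) (by omega)
    (hd.mid' hG (by omega) (by omega)) hy.right
  obtain ⟨-, h1, h2, h3, h4, h6'⟩ := WR_op7 H' h5 h6 h7 (by omega) ho
  rcases h6' with ⟨rfl, k6⟩ | ⟨rfl, k6⟩ | ⟨k6, rfl⟩ | ⟨k6, k7⟩
  · rw [k6] at h1
    rw [← h1] at hy
    exact h6.Dp hy.right
  · have := h4 y hy
    omega
  · rw [show y = j + (G + 4) by omega] at hy
    exact h7.Dz hy.right
  · omega

/-- The weak words of step (8). -/
def KW (g : ℕ → ℕ) (G n : ℕ) : Prop :=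
  (n % 2 = 1 → Weak g (G + 2 ^ n) [] (G + 2 ^ (n + 2))) ∧
    (n % 2 = 0 → Weak g (G + 2 ^ (n + 2)) [] (G + 2 ^ n))

/-- (8) -/
theorem WR_eight (H : WH g old p z v a sg Sa G hi Q d)
    (h5 : R5 g p z v sg (2 * z + Sa + v) G) (h6 : R6 g p v G) (h7 : R7 g z G) :
    ∀ n, 1 ≤ n → n ≤ 18 → KW g G n := by
  have H' := H
  obtain ⟨hgb, hpos, hI, hz, hG, hv, hvp, hS, hsg, hhi, hd, hl⟩ := H
  intro n
  induction n using Nat.strong_induction_on with
  | _ n ih =>
    intro hn1 hn2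
    have hb1 := two_pow_bd hn1 (by omega)
    have hb2 := two_pow_bd (i := n + 2) (by omega) (by omega)
    have hb3 : 2 ^ n ≤ 2 ^ 18 := Nat.pow_le_pow_right (by norm_num) hn2
    have hb4 : 2 ^ (n + 2) ≤ 2 ^ 20 := Nat.pow_le_pow_right (by norm_num) (by omega)
    have hb5 : 2 ^ n < 2 ^ (n + 2) := Nat.pow_lt_pow_right (by norm_num) (by omega)
    obtain ⟨i, σ, j, ho⟩ := hl.down (N := 2 * G + 2 ^ n + 2 ^ (n + 2)) (by omega) (by omega)
      (by rw [hd.dx n hn1 hn2]; norm_num)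
    obtain ⟨-, k1, k2, k3, k4, k6⟩ := WR_op7 H' h5 h6 h7 (by omega) ho
    rcases k6 with ⟨rfl, k6⟩ | ⟨rfl, k6⟩ | ⟨k6, rfl⟩ | ⟨k6, k7⟩
    · omega
    · exact (WR_noY7 H' h5 h6 h7 k2 k4 (by omega) (by omega)).elim
    · omega
    · obtain ⟨c, ha1, ha2, ha3⟩ := h5.only i k2.left (by omega) (by omega)
      obtain ⟨b, hj1, hj2, hj3⟩ := h5.only j k2.right (by omega) (by omega)
      rcases two_pow_sum (a := c) (b := b) (n := n) (by omega) (by omega) (by omega) (by omega)
        with ⟨rfl, rfl⟩ | ⟨rfl, rfl⟩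
      · -- `x_n → x_(n+2)`
        have hw : Weak g (G + 2 ^ c) [] (G + 2 ^ (c + 2)) := by
          rw [← ha3, ← hj3]
          exact (weak_iff hgb).2 ⟨k2, k3, k4⟩
        refine ⟨fun _ => hw, fun hev => ?_⟩
        exfalso
        have hadj := ((weak_iff hgb).1 hw).1
        by_cases h2 : c = 2
        · subst h2
          have := h7.xo _ hadj
          omega
        · have h8 := (ih (c - 2) (by omega) (by omega) (by omega)).2 (by omega)
          rw [show c - 2 + 2 = c by omega] at h8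
          have h9 := ((weak_iff hgb).1 h8).2.2 _ hadj
          have := two_pow_le (a := c + 2) (b := c - 2) (by omega)
          omega
      · -- `x_(n+2) → x_n`
        have hw : Weak g (G + 2 ^ (b + 2)) [] (G + 2 ^ b) := by
          rw [← ha3, ← hj3]
          exact (weak_iff hgb).2 ⟨k2, k3, k4⟩
        refine ⟨fun hodd => ?_, fun _ => hw⟩
        exfalso
        have hadj := ((weak_iff hgb).1 hw).1
        by_cases h2 : b = 1
        · subst h2
          rcases h6.pi _ hadj with e | e <;> omega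
        · have h8 := (ih (b - 2) (by omega) (by omega) (by omega)).1 (by omega)
          rw [show b - 2 + 2 = b by omega] at h8
          have h9 := ((weak_iff hgb).1 h8).2.1 _ hadj
          have := two_pow_le (a := b + 2) (b := b - 2) (by omega)
          omega

end

theorem two_pow_sum1_aux : ∀ a : Fin 21, ∀ b : Fin 21, ∀ n : Fin 20,
    2 ^ a.val + 2 ^ b.val = 2 ^ n.val + 2 ^ (n.val + 1) →
    (a.val = n.val ∧ b.val = n.val + 1) ∨ (a.val = n.val + 1 ∧ b.val = n.val) := by decide +kernel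

theorem two_pow_sum1 {a b n : ℕ} (ha : a < 21) (hb : b < 21) (hn : n < 20)
    (h : 2 ^ a + 2 ^ b = 2 ^ n + 2 ^ (n + 1)) : (a = n ∧ b = n + 1) ∨ (a = n + 1 ∧ b = n) :=
  two_pow_sum1_aux ⟨a, ha⟩ ⟨b, hb⟩ ⟨n, hn⟩ h

section

variable {g : ℕ → ℕ} {old : ℕ → ℕ → Prop} {p z v a sg Sa G hi : ℕ} {Q : Set ℕ} {d : ℕ → ℤ}

/-- The partner of a strong word of two neighbours. -/
theorem WR_noS (H : WH g old p z v a sg Sa G hi Q d)
    (h5 : R5 g p z v sg (2 * z + Sa + v) G) (h6 : R6 g p v G) (h7 : R7 g z G) {b c n : ℕ}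
    (hn : 1 ≤ n) (hn2 : n ≤ 18) (hbc : (b = n ∧ c = n + 1) ∨ (b = n + 1 ∧ c = n))
    (hs : Strong g (G + 2 ^ b) [] (G + 2 ^ c)) : Weak g (G + 2 ^ c) [] (G + 2 ^ b) := by
  have H' := H
  obtain ⟨hgb, hpos, hI, hz, hG, hv, hvp, hS, hsg, hhi, hd, hl⟩ := H
  have hb1 := two_pow_bd hn (by omega)
  have hb2 := two_pow_bd (i := n + 1) (by omega) (by omega)
  have hb3 : 2 ^ n ≤ 2 ^ 18 := Nat.pow_le_pow_right (by norm_num) hn2
  have hsum : 2 ^ b + 2 ^ c = 2 ^ n + 2 ^ (n + 1) := by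
    rcases hbc with ⟨rfl, rfl⟩ | ⟨rfl, rfl⟩ <;> omega
  have hd0 : d (G + 2 ^ b + (G + 2 ^ c)) = 0 := by
    refine hd.rest _ (by omega) (by omega) (fun i hi1 hi2 => ?_) (by omega) (by omega)
      (fun i hi1 hi2 hi3 => ?_)
    · have := two_pow_bd hi1 hi2
      omega
    · rcases two_pow_sum (a := n) (b := n + 1) (n := i) (by omega) (by omega) (by omega)
        (by omega) with ⟨h, h'⟩ | ⟨h, h'⟩ <;> omega
  obtain ⟨i, σ, j, ho⟩ := hl.str hpos (N := G + 2 ^ b + (G + 2 ^ c)) (by omega) (by omega)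
    hd0.le hs (by simp)
  obtain ⟨-, k1, k2, k3, k4, k6⟩ := WR_op7 H' h5 h6 h7 (by omega) ho
  rcases k6 with ⟨rfl, k6⟩ | ⟨rfl, k6⟩ | ⟨k6, rfl⟩ | ⟨k6, k7⟩
  · omega
  · exact (WR_noY7 H' h5 h6 h7 k2 k4 (by omega) (by omega)).elim
  · omega
  · obtain ⟨e, he1, he2, he3⟩ := h5.only i k2.left (by omega) (by omega)
    obtain ⟨f, hf1, hf2, hf3⟩ := h5.only j k2.right (by omega) (by omega)
    have hst := (strong_iff hgb).1 hs
    obtain ⟨-, ⟨w, hw1, hw2⟩, -⟩ := hst
    have h8 := two_pow_sum1 (a := e) (b := f) (n := n) (by omega) (by omega) (by omega) (by omega)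
    have h9 : (e = b ∧ f = c) ∨ (e = c ∧ f = b) := by omega
    rcases h9 with ⟨rfl, rfl⟩ | ⟨rfl, rfl⟩
    · exfalso
      rw [← hf3] at hw2
      have := k3 w hw2
      omega
    · rw [← he3, ← hf3]
      exact (weak_iff hgb).2 ⟨k2, k3, k4⟩

/-- The three facts of an odd weak word. -/
theorem KW.odd (hgb : GB g) (hK : ∀ n, 1 ≤ n → n ≤ 18 → KW g G n) {n : ℕ} (h1 : 1 ≤ n)
    (h2 : n ≤ 18) (h3 : n % 2 = 1) : Adj g (G + 2 ^ n) (G + 2 ^ (n + 2)) ∧
      (∀ x, Adj g x (G + 2 ^ (n + 2)) → x ≤ G + 2 ^ n) ∧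
      ∀ x, Adj g (G + 2 ^ n) x → x ≤ G + 2 ^ (n + 2) :=
  (weak_iff hgb).1 ((hK n h1 h2).1 h3)

theorem KW.even (hgb : GB g) (hK : ∀ n, 1 ≤ n → n ≤ 18 → KW g G n) {n : ℕ} (h1 : 1 ≤ n)
    (h2 : n ≤ 18) (h3 : n % 2 = 0) : Adj g (G + 2 ^ (n + 2)) (G + 2 ^ n) ∧
      (∀ x, Adj g x (G + 2 ^ n) → x ≤ G + 2 ^ (n + 2)) ∧
      ∀ x, Adj g (G + 2 ^ (n + 2)) x → x ≤ G + 2 ^ n :=
  (weak_iff hgb).1 ((hK n h1 h2).2 h3)

/-- Predecessors of an odd `x_b` are small. -/
theorem WR_predOdd (hgb : GB g) (h6 : R6 g p v G) (hK : ∀ n, 1 ≤ n → n ≤ 18 → KW g G n)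
    (hp : p < G) (hv : v < G) {b c : ℕ} (hb1 : 1 ≤ b) (hb2 : b ≤ 20) (hb3 : b % 2 = 1)
    (h : Adj g (G + 2 ^ c) (G + 2 ^ b)) : c + 2 ≤ b := by
  by_cases h1 : b = 1
  · subst h1
    exfalso
    have := Nat.two_pow_pos c
    rcases h6.pi _ h with e | e <;> omega
  · have h2 := (KW.odd hgb hK (n := b - 2) (by omega) (by omega) (by omega)).2.1
    rw [show b - 2 + 2 = b by omega] at h2
    have := h2 _ h
    have := two_pow_le (a := c) (b := b - 2) (by omega)
    omega

/-- Predecessors of an even `x_b`. -/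
theorem WR_predEven (hgb : GB g) (hK : ∀ n, 1 ≤ n → n ≤ 18 → KW g G n) {b c : ℕ} (hb1 : 1 ≤ b)
    (hb2 : b ≤ 18) (hb3 : b % 2 = 0) (h : Adj g (G + 2 ^ c) (G + 2 ^ b)) : c ≤ b + 2 := by
  have h2 := (KW.even hgb hK hb1 hb2 hb3).2.1 _ h
  exact two_pow_le (by omega)

/-- Successors of an odd `x_c`. -/
theorem WR_succOdd (hgb : GB g) (hK : ∀ n, 1 ≤ n → n ≤ 18 → KW g G n) {b c : ℕ} (hb1 : 1 ≤ c)
    (hb2 : c ≤ 18) (hb3 : c % 2 = 1) (h : Adj g (G + 2 ^ c) (G + 2 ^ b)) : b ≤ c + 2 := by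
  have h2 := (KW.odd hgb hK hb1 hb2 hb3).2.2 _ h
  exact two_pow_le (by omega)

/-- Successors of an even `x_c`. -/
theorem WR_succEven (hgb : GB g) (h7 : R7 g z G) (hK : ∀ n, 1 ≤ n → n ≤ 18 → KW g G n)
    (hz : z < G) {b c : ℕ} (hb1 : 1 ≤ c) (hb2 : c ≤ 20) (hb3 : c % 2 = 0)
    (h : Adj g (G + 2 ^ c) (G + 2 ^ b)) : b + 2 ≤ c := by
  by_cases h1 : c = 2
  · subst h1
    exfalso
    have := h7.xo _ h
    have := Nat.two_pow_pos b
    omega
  · have h2 := (KW.even hgb hK (n := c - 2) (by omega) (by omega) (by omega)).2.2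
    rw [show c - 2 + 2 = c by omega] at h2
    have := h2 _ h
    have := two_pow_le (a := b) (b := c - 2) (by omega)
    omega

/-- `x_n → z` only for `n = 2`. -/
theorem WR_toz (hgb : GB g) (h7 : R7 g z G) (hK : ∀ n, 1 ≤ n → n ≤ 18 → KW g G n)
    (hz : z < G) {c : ℕ} (h : Adj g (G + 2 ^ c) z) : c = 2 := by
  rcases h7.zi _ h with e | e
  · exfalso
    have h1 := (KW.odd hgb hK (n := 1) le_rfl (by omega) (by omega)).1
    rw [e] at h
    have := h7.x1 h _ h1
    omega
  · exact two_pow_inj (a := c) (b := 2) (by omega)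

/-- (9), first part. -/
theorem WR_o2 (H : WH g old p z v a sg Sa G hi Q d)
    (h5 : R5 g p z v sg (2 * z + Sa + v) G) (h6 : R6 g p v G) (h7 : R7 g z G)
    (hK : ∀ n, 1 ≤ n → n ≤ 18 → KW g G n) {n : ℕ} (hn1 : 1 ≤ n) (hn2 : n ≤ 17)
    (hn3 : n % 2 = 1) : ∀ x, Adj g (G + 2 ^ n) x → x = G + 2 ^ (n + 2) := by
  have H' := H
  obtain ⟨hgb, hpos, hI, hz, hG, hv, hvp, hS, hsg, hhi, hd, hl⟩ := H
  intro x hx
  obtain ⟨k1, k2, k3⟩ := KW.odd hgb hK hn1 (by omega) hn3
  have hb := two_pow_bd hn1 (by omega)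
  have e1 := k3 x hx
  have e2 := hI.succ_new hx (by omega)
  rcases Nat.lt_or_ge z x with e3 | e3
  · obtain ⟨b, hb1, hb2, rfl⟩ := h5.idx hv hx.right e3 (n := n + 2) (by omega) (by omega) e1
    rcases Nat.mod_two_eq_zero_or_one b with h | h
    · exfalso
      obtain ⟨m1, m2, m3⟩ := KW.even hgb hK hb1 (by omega) h
      have m4 := WR_predEven hgb hK hb1 (by omega) h hx
      have hlt : 2 ^ n < 2 ^ (b + 2) := Nat.pow_lt_pow_right (by norm_num) (by omega)
      have hlt2 : 2 ^ b < 2 ^ (n + 2) := Nat.pow_lt_pow_right (by norm_num) (by omega)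
      have hs : Strong g (G + 2 ^ n) [] (G + 2 ^ b) :=
        (strong_iff hgb).2 ⟨hx, ⟨_, by omega, m1⟩, _, by omega, k1⟩
      have hw : Weak g (G + 2 ^ b) [] (G + 2 ^ n) := by
        rcases Nat.lt_or_ge b n with h' | h'
        · exact WR_noS H' h5 h6 h7 (n := b) (by omega) (by omega) (by omega) hs
        · exact WR_noS H' h5 h6 h7 (n := n) (by omega) (by omega) (by omega) hs
      have := WR_predOdd hgb h6 hK (by omega) (by omega) hn1 (by omega) hn3
        ((weak_iff hgb).1 hw).1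
      omega
    · have := WR_predOdd hgb h6 hK (by omega) (by omega) hb1 (by omega) h hx
      rw [show b = n + 2 by omega]
  · exfalso
    rw [show x = z by omega] at hx
    have := WR_toz hgb h7 hK (by omega) hx
    omega

/-- (9), second part. -/
theorem WR_o3 (H : WH g old p z v a sg Sa G hi Q d)
    (h5 : R5 g p z v sg (2 * z + Sa + v) G) (h6 : R6 g p v G) (h7 : R7 g z G)
    (hK : ∀ n, 1 ≤ n → n ≤ 18 → KW g G n) {n : ℕ} (hn1 : 1 ≤ n) (hn2 : n ≤ 17)
    (hn3 : n % 2 = 1) : ∀ x, Adj g x (G + 2 ^ (n + 2)) → x = G + 2 ^ n ∨ x = v := by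
  obtain ⟨hgb, hpos, hI, hz, hG, hv, hvp, hS, hsg, hhi, hd, hl⟩ := H
  intro x hx
  obtain ⟨k1, k2, k3⟩ := KW.odd hgb hK hn1 (by omega) hn3
  have hb := two_pow_bd hn1 (by omega)
  have hlt : 2 ^ n < 2 ^ (n + 2) := Nat.pow_lt_pow_right (by norm_num) (by omega)
  have e1 := k2 x hx
  rcases hI.pred hx (by omega) with h | h | h
  · exfalso
    rw [h] at hx
    have := h6.po _ hx
    omega
  · exact Or.inr h
  · obtain ⟨c, hc1, hc2, rfl⟩ := h5.idx hv hx.left h hn1 (by omega) e1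
    left
    rcases Nat.mod_two_eq_zero_or_one c with h' | h'
    · exfalso
      have := WR_succEven hgb h7 hK (by omega) hc1 (by omega) h' hx
      omega
    · have := WR_succOdd hgb hK hc1 (by omega) h' hx
      rw [show c = n by omega]

/-- A link `v → x_c` is the largest one out of `v`. -/
theorem WR_vmax (H : WH g old p z v a sg Sa G hi Q d)
    (h5 : R5 g p z v sg (2 * z + Sa + v) G) (h6 : R6 g p v G) (h7 : R7 g z G)
    (hK : ∀ n, 1 ≤ n → n ≤ 18 → KW g G n) {c : ℕ} (hc1 : 1 ≤ c) (hc2 : c ≤ 19)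
    (hc : Adj g v (G + 2 ^ c)) : ∀ x, Adj g v x → x ≤ G + 2 ^ c := by
  have H' := H
  obtain ⟨hgb, hpos, hI, hz, hG, hv, hvp, hS, hsg, hhi, hd, hl⟩ := H
  have hb := two_pow_bd hc1 (by omega)
  have hw : ∃ w, v < w ∧ Adj g w (G + 2 ^ c) := by
    rcases Nat.mod_two_eq_zero_or_one c with h | h
    · have := Nat.two_pow_pos (c + 2)
      exact ⟨_, by omega, (KW.even hgb hK hc1 (by omega) h).1⟩
    · by_cases h1 : c = 1
      · subst h1
        exact ⟨p, by omega, h6.px⟩
      · have h2 := (KW.odd hgb hK (n := c - 2) (by omega) (by omega) (by omega)).1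
        rw [show c - 2 + 2 = c by omega] at h2
        have := Nat.two_pow_pos (c - 2)
        exact ⟨_, by omega, h2⟩
  intro x hx
  by_contra hcon
  have hs : Strong g v [] (G + 2 ^ c) := (strong_iff hgb).2 ⟨hc, hw, x, by omega, hx⟩
  obtain ⟨i, σ, j, ho⟩ := hl.str hpos (N := v + (G + 2 ^ c)) (by omega) (by omega)
    (hd.mid' hG (by omega) (by omega)) hs (by simp)
  obtain ⟨-, k1, k2, k3, k4, k6⟩ := WR_op7 H' h5 h6 h7 (by omega) ho
  rcases k6 with ⟨rfl, k6⟩ | ⟨rfl, k6⟩ | ⟨k6, rfl⟩ | ⟨k6, k7⟩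
  · omega
  · have := k4 x hx
    omega
  · omega
  · omega

/-- A link `v → x_n` is the only one out of `v`. -/
theorem WR_lk (H : WH g old p z v a sg Sa G hi Q d)
    (h5 : R5 g p z v sg (2 * z + Sa + v) G) (h6 : R6 g p v G) (h7 : R7 g z G)
    (hK : ∀ n, 1 ≤ n → n ≤ 18 → KW g G n) {n : ℕ} (hn1 : 1 ≤ n) (hn2 : n ≤ 19)
    (hn : Adj g v (G + 2 ^ n)) : ∀ x, Adj g v x → x = G + 2 ^ n := by
  have H' := H
  obtain ⟨hgb, hpos, hI, hz, hG, hv, hvp, hS, hsg, hhi, hd, hl⟩ := H
  intro x hx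
  have e1 := WR_vmax H' h5 h6 h7 hK hn1 hn2 hn x hx
  rcases Nat.lt_trichotomy x z with h | h | h
  · exact (hI.leak1 x hx h _ hn).symm
  · rw [h] at hx
    exact absurd hx h5.sv
  · obtain ⟨c, hc1, hc2, rfl⟩ := h5.idx hv hx.right h hn1 (by omega) e1
    have := WR_vmax H' h5 h6 h7 hK hc1 (by omega) hx _ hn
    have := two_pow_le (a := n) (b := c) (by omega)
    rw [show c = n by omega]

/-- (9), successors of the even `x_(n+2)`. -/
theorem WR_eo (H : WH g old p z v a sg Sa G hi Q d)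
    (h5 : R5 g p z v sg (2 * z + Sa + v) G) (h6 : R6 g p v G) (h7 : R7 g z G)
    (hK : ∀ n, 1 ≤ n → n ≤ 18 → KW g G n) {n : ℕ} (hn1 : 1 ≤ n) (hn2 : n ≤ 18)
    (hn3 : n % 2 = 0) : ∀ x, Adj g (G + 2 ^ (n + 2)) x → x = G + 2 ^ n := by
  obtain ⟨hgb, hpos, hI, hz, hG, hv, hvp, hS, hsg, hhi, hd, hl⟩ := H
  intro x hx
  obtain ⟨k1, k2, k3⟩ := KW.even hgb hK hn1 (by omega) hn3
  have := Nat.two_pow_pos (n + 2)
  have e1 := k3 x hx
  have e2 := hI.succ_new hx (by omega)
  rcases Nat.lt_or_ge z x with e3 | e3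
  · obtain ⟨b, hb1, hb2, rfl⟩ := h5.idx hv hx.right e3 hn1 (by omega) e1
    rcases Nat.mod_two_eq_zero_or_one b with h | h
    · have := WR_predEven hgb hK hb1 (by omega) h hx
      rw [show b = n by omega]
    · exfalso
      have := WR_predOdd hgb h6 hK (by omega) (by omega) hb1 (by omega) h hx
      omega
  · exfalso
    rw [show x = z by omega] at hx
    have := WR_toz hgb h7 hK (by omega) hx
    omega

/-- (9), no link from `v` to an even `x_b`. -/
theorem WR_ve (H : WH g old p z v a sg Sa G hi Q d)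
    (h5 : R5 g p z v sg (2 * z + Sa + v) G) (h6 : R6 g p v G) (h7 : R7 g z G)
    (hK : ∀ n, 1 ≤ n → n ≤ 18 → KW g G n) {b : ℕ} (hb1 : 1 ≤ b) (hb2 : b ≤ 18)
    (hb3 : b % 2 = 0) : ¬ Adj g v (G + 2 ^ b) := by
  intro hv1
  have H' := H
  obtain ⟨hgb, hpos, hI, hz, hG, hv, hvp, hS, hsg, hhi, hd, hl⟩ := H
  have hlk := WR_lk H' h5 h6 h7 hK hb1 (by omega) hv1
  let F : Set ℕ := Q ∪ {x | ∃ m, 1 ≤ m ∧ m ≤ b ∧ m % 2 = 0 ∧ x = G + 2 ^ m}
  have hF : ∀ x ∈ F, ∀ y, Adj g x y → y ∈ F := by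
    rintro x (hx | ⟨m, hm1, hm2, hm3, rfl⟩) y hy
    · by_cases hxv : x = v
      · subst hxv
        exact Or.inr ⟨b, hb1, le_rfl, hb3, hlk y hy⟩
      · exact Or.inl (hI.Qs x hx hxv y hy)
    · by_cases h2 : m = 2
      · subst h2
        rw [h7.xo y hy]
        exact Or.inl hI.Qz
      · refine Or.inr ⟨m - 2, by omega, by omega, by omega, ?_⟩
        have h3 := WR_eo H' h5 h6 h7 hK (n := m - 2) (by omega) (by omega) (by omega)
        rw [show m - 2 + 2 = m by omega] at h3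
        exact h3 y hy
  have hB : ∀ x ∈ F, x ≤ G + 2 ^ b := by
    rintro x (hx | ⟨m, hm1, hm2, hm3, rfl⟩)
    · have := hI.Qle x hx
      have := Nat.two_pow_pos b
      omega
    · have := Nat.pow_le_pow_right (n := 2) (by norm_num) hm2
      omega
  exact succ_closed hgb hB hF v (Or.inl hI.Qv) hI.mv

/-- (9), predecessors of the even `x_n`. -/
theorem WR_ei (H : WH g old p z v a sg Sa G hi Q d)
    (h5 : R5 g p z v sg (2 * z + Sa + v) G) (h6 : R6 g p v G) (h7 : R7 g z G)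
    (hK : ∀ n, 1 ≤ n → n ≤ 18 → KW g G n) {n : ℕ} (hn1 : 1 ≤ n) (hn2 : n ≤ 18)
    (hn3 : n % 2 = 0) : ∀ x, Adj g x (G + 2 ^ n) →
      x = G + 2 ^ (n + 2) ∨ (n = 18 ∧ x = G + 2 ^ 19) := by
  have H' := H
  obtain ⟨hgb, hpos, hI, hz, hG, hv, hvp, hS, hsg, hhi, hd, hl⟩ := H
  intro x hx
  obtain ⟨k1, k2, k3⟩ := KW.even hgb hK hn1 (by omega) hn3
  have hb := two_pow_bd hn1 (by omega)
  have e1 := k2 x hx
  rcases hI.pred hx (by omega) with h | h | h
  · exfalso
    rw [h] at hx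
    have := two_pow_inj (a := n) (b := 1) (by have := h6.po _ hx; omega)
    omega
  · exfalso
    rw [h] at hx
    exact WR_ve H' h5 h6 h7 hK hn1 hn2 hn3 hx
  · obtain ⟨c, hc1, hc2, rfl⟩ := h5.idx hv hx.left h (n := n + 2) (by omega) (by omega) e1
    rcases Nat.mod_two_eq_zero_or_one c with h' | h'
    · have := WR_succEven hgb h7 hK (by omega) hc1 (by omega) h' hx
      left
      rw [show c = n + 2 by omega]
    · rcases Nat.lt_or_ge c 19 with h8 | h8
      · exfalso
        have h9 := WR_o2 H' h5 h6 h7 hK hc1 (by omega) h' _ hx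
        have := two_pow_inj (a := n) (b := c + 2) (by omega)
        omega
      · right
        refine ⟨by omega, ?_⟩
        rw [show c = 19 by omega]

/-- (9), the leftover `x_19 → x_18`. -/
theorem WR_lp (H : WH g old p z v a sg Sa G hi Q d)
    (h5 : R5 g p z v sg (2 * z + Sa + v) G) (h6 : R6 g p v G) (h7 : R7 g z G)
    (hK : ∀ n, 1 ≤ n → n ≤ 18 → KW g G n) (hlp : Adj g (G + 2 ^ 19) (G + 2 ^ 18)) :
    ∀ x, Adj g (G + 2 ^ 19) x → x = G + 2 ^ 18 := by
  have H' := H
  obtain ⟨hgb, hpos, hI, hz, hG, hv, hvp, hS, hsg, hhi, hd, hl⟩ := H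
  intro x hx
  obtain ⟨k1, k2, k3⟩ := KW.even hgb hK (n := 18) (by omega) (by omega) (by omega)
  have e1 : x ≤ G + 2 ^ 18 := by
    by_contra hc
    have hs : Strong g (G + 2 ^ 19) [] (G + 2 ^ 18) :=
      (strong_iff hgb).2 ⟨hlp, ⟨_, by omega, k1⟩, x, by omega, hx⟩
    have hw := WR_noS H' h5 h6 h7 (b := 19) (c := 18) (n := 18) (by omega) (by omega) (by omega) hs
    have := WR_succEven hgb h7 hK (by omega) (c := 18) (b := 19) (by omega) (by omega) (by omega)
      ((weak_iff hgb).1 hw).1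
    omega
  have e2 := hI.succ_new hx (by omega)
  rcases Nat.lt_or_ge z x with e3 | e3
  · obtain ⟨b, hb1, hb2, rfl⟩ := h5.idx hv hx.right e3 (n := 18) (by omega) (by omega) e1
    rcases Nat.mod_two_eq_zero_or_one b with h | h
    · have := WR_predEven hgb hK hb1 (by omega) h hx
      rw [show b = 18 by omega]
    · exfalso
      have := WR_predOdd hgb h6 hK (by omega) (by omega) hb1 (by omega) h hx
      omega
  · exfalso
    rw [show x = z by omega] at hx
    have := WR_toz hgb h7 hK (by omega) hx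
    omega

end

/-- **Window stage, state R.** -/
theorem WR {g : ℕ → ℕ} {old : ℕ → ℕ → Prop} {p z v a sg Sa G hi : ℕ} {Q : Set ℕ} {d : ℕ → ℤ}
    (hgb : GB g) (hpos : ∀ t, 0 < g t) (hI : RI g old p z v a sg Sa Q)
    (hz : z = p + 2 ^ 19) (hG : G = p + z + 2 ^ 22) (hv : 2 ^ 24 ≤ v) (hvp : v + 2 ^ 24 ≤ p)
    (hS : 2 * z + 2 ^ 24 ≤ Sa + v) (hsg : v + sg ≠ G + 4)
    (hhi : 2 * G + 2 ^ 18 + 2 ^ 20 < hi)
    (hd : DW d p z G) (hl : RLE g old d z hi) : WRo g p z v G ∧ ¬ Adj g p a := by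
  have H : WH g old p z v a sg Sa G hi Q d :=
    ⟨hgb, hpos, hI, hz, hG, hv, hvp, hS, hsg, hhi, hd, hl⟩
  have h5 := WR_five H
  have h6 := WR_six H h5
  have h7 := WR_seven H h5 h6
  have hK := WR_eight H h5 h6 h7
  refine ⟨⟨fun y hy h1 h2 => h5.only y hy h1 (by omega), h6.px, h6.po, h6.pi,
    fun n h1 h2 h3 => (KW.odd hgb hK h1 (by omega) h3).1,
    fun n h1 h2 h3 => WR_o2 H h5 h6 h7 hK h1 h2 h3,
    fun n h1 h2 h3 => WR_o3 H h5 h6 h7 hK h1 h2 h3,
    fun n h1 h2 _ h4 => WR_lk H h5 h6 h7 hK h1 h2 h4,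
    ⟨h7.xz, h7.xo, fun x hx => ?_⟩,
    fun n h1 h2 h3 => ⟨(KW.even hgb hK (by omega) (by omega) h3).1,
      WR_eo H h5 h6 h7 hK (by omega) (by omega) h3, fun x hx => ?_⟩,
    (KW.even hgb hK (n := 18) (by omega) (by omega) (by omega)).1,
    WR_eo H h5 h6 h7 hK (n := 18) (by omega) (by omega) (by omega),
    fun x hx => ?_, WR_lp H h5 h6 h7 hK⟩, WR_two H⟩
  · rcases h7.zi x hx with h | h
    · exfalso
      rw [h] at hx
      have := WR_toz hgb h7 hK (by omega) (c := 1) hx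
      omega
    · exact h
  · rcases WR_ei H h5 h6 h7 hK (by omega) (by omega) h3 x hx with h | ⟨h, -⟩
    · exact h
    · omega
  · rcases WR_ei H h5 h6 h7 hK (n := 18) (by omega) (by omega) (by omega) x hx with h | ⟨-, h⟩
    · exact Or.inl h
    · exact Or.inr h

end Pool.Agent.CF2
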