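import Pool.Agent.CF2.BAL
import Pool.Agent.CF2.REL
import Pool.Agent.CF2.WN
import Pool.Agent.CF2.WR
import Pool.Agent.CF2.GN1
import Pool.Agent.CF2.GN2
import Pool.Agent.CF2.GN3
import Pool.Agent.CF2.GR

/-!
# CF2: the iteration
-/

namespace Pool.Agent.CF2

variable {T : ℕ → Prop} {g : ℕ → ℕ}

theorem Wld.pos (H : Wld T g) (t : ℕ) : 0 < g t := lt_of_lt_of_le (Nat.succ_pos _) (H.low t)

theorem sta_zero (H : Wld T g) :
    Sta T g 0 [MM + 1, MM + 2, p0] [3 * MM, p0 - 1, p0 + 2 ^ 19] 0 := by
  have hM : MM = 2 ^ 30 := rfl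
  have hp : p0 = 9 * 2 ^ 29 := rfl
  have hb : Bo g MM p0 := base_stage H.gb H.low (by rw [hM]; norm_num) (by rw [hM, hp]; norm_num)
    H.m1 H.m2 H.m3 H.g0 H.once (by unfold GG; omega) (db_dl T) (rle0 H)
  have g0 := hb.g0
  have g1 : g 1 = MM + 2 := hb.e12.out _ ⟨0, g0, rfl⟩
  have g2 : g 2 = p0 := hb.e2p.out _ ⟨1, g1, rfl⟩
  have o0 : ∀ s, g s = MM + 1 → s = 0 := fun s hs => H.once s (hs.trans g0.symm)
  have o1 : ∀ s, g s = MM + 2 → s = 1 := by
    intro s hs
    rcases s with _ | s
    · rw [g0] at hs; omega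
    · rw [o0 s (hb.e12.inn _ ⟨s, rfl, hs⟩)]
  have o2 : ∀ s, g s = p0 → s = 2 := by
    intro s hs
    rcases s with _ | s
    · rw [g0] at hs; omega
    · rw [o1 s (hb.e2p.inn _ ⟨s, rfl, hs⟩)]
  have hnd : ([MM + 1, MM + 2, p0] ++ [3 * MM, p0 - 1, p0 + 2 ^ 19]).Nodup := by
    simp only [hM, hp]; decide
  have honly : ∀ y ∈ Set.range g, y ≤ p0 + 2 ^ 19 → y ∈ [MM + 1, MM + 2, p0] ∨
      y ∈ [3 * MM, p0 - 1, p0 + 2 ^ 19] := by
    intro y hy hle
    simp only [List.mem_cons, List.not_mem_nil, or_false]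
    rcases hb.only y hy hle with h | h | h | h | h | h <;> omega
  have hpre : ∀ (k : ℕ) (h : k < [MM + 1, MM + 2, p0].length), g k = [MM + 1, MM + 2, p0][k] := by
    intro k hk
    have hk3 : k < 3 := hk
    interval_cases k
    · exact g0
    · exact g1
    · exact g2
  have hle1 : ∀ x ∈ [MM + 1, MM + 2, p0], x ≤ p0 := by
    intro x hx
    simp only [List.mem_cons, List.not_mem_nil, or_false] at hx
    omega
  have hle2 : ∀ x ∈ [3 * MM, p0 - 1, p0 + 2 ^ 19], x ≤ p0 + 2 ^ 19 := by
    intro x hx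
    simp only [List.mem_cons, List.not_mem_nil, or_false] at hx
    omega
  have hle3 : ∀ x ∈ [3 * MM, p0 - 1, p0 + 2 ^ 19], 3 * MM ≤ x := by
    intro x hx
    simp only [List.mem_cons, List.not_mem_nil, or_false] at hx
    omega
  have hinf : ∀ {a b x y w : ℕ}, [a, b] <:+: [x, y, w] → (a = x ∧ b = y) ∨ (a = y ∧ b = w) := by
    intro a b x y w h
    simp [List.infix_cons_iff, List.cons_prefix_cons] at h
    tauto
  refine ⟨inv_zero T, ?_⟩
  rw [P_zero, mk_zero]
  rcases hb.dir with ⟨h1, h2⟩ | ⟨h1, h2, h3, h4, h5⟩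
  · left
    exact {
      hA := ⟨[MM + 1, MM + 2], rfl⟩
      hv := ⟨_, rfl⟩
      hz := ⟨[3 * MM, p0 - 1], rfl⟩
      pre := hpre
      once := by
        intro k hk s hs
        have hk3 : k < 3 := hk
        interval_cases k
        · exact o0 s hs
        · exact o1 s hs
        · exact o2 s hs
      memQ := by
        intro x hx
        simp only [List.mem_cons, List.not_mem_nil, or_false] at hx
        rcases hx with rfl | rfl | rfl
        · obtain ⟨t, ht, -⟩ := h1.adj; exact ⟨t, ht⟩
        · obtain ⟨t, -, ht⟩ := h1.adj; exact ⟨t + 1, ht⟩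
        · obtain ⟨t, -, ht⟩ := h2.adj; exact ⟨t + 1, ht⟩
      lk := by
        intro a b hab
        rcases hinf hab with ⟨rfl, rfl⟩ | ⟨rfl, rfl⟩
        · exact h1
        · exact h2
      nd := hnd
      only := honly
      leA := hle1
      leQ := hle2
      vleQ := hle3
      vp := by omega
      pz := by omega }
  · right
    refine ⟨p0 - 1, ?_⟩
    exact {
      hA := ⟨[MM + 1, MM + 2], rfl⟩
      hv := ⟨_, rfl⟩
      hz := ⟨[3 * MM], rfl⟩
      pre := hpre
      h0 := H.once
      memQ := by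
        intro x hx
        simp only [List.mem_cons, List.not_mem_nil, or_false] at hx
        rcases hx with rfl | rfl | rfl
        · obtain ⟨t, -, ht⟩ := h1.adj; exact ⟨t + 1, ht⟩
        · obtain ⟨t, ht, -⟩ := h1.adj; exact ⟨t, ht⟩
        · obtain ⟨t, ht, -⟩ := h2; exact ⟨t, ht⟩
      lkA := by
        intro b c hbc
        rcases hinf hbc with ⟨rfl, rfl⟩ | ⟨rfl, rfl⟩
        · exact ⟨hb.e12.adj, hb.e12.out, fun x hx => Or.inl (hb.e12.inn x hx)⟩
        · exact ⟨hb.e2p.adj, hb.e2p.out, fun x hx => Or.inl (hb.e2p.inn x hx)⟩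
      leak := by
        intro m hm hv
        exfalso
        simp only [List.mem_cons, List.not_mem_nil, or_false] at hm
        rcases hm with rfl | rfl | rfl
        · obtain ⟨t, -, ht⟩ := hv
          have := o0 _ ht
          omega
        · have := hb.e12.inn _ hv
          omega
        · have := hb.e2p.inn _ hv
          omega
      lkQ := by
        intro b c hbc
        rcases hinf hbc with ⟨rfl, rfl⟩ | ⟨rfl, rfl⟩
        · exact ⟨h1.adj, h1.out, fun x hx => Or.inl (h1.inn x hx)⟩
        · refine ⟨h2, h3, fun x hx => ?_⟩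
          rcases h4 x hx with h | h
          · exact Or.inl h
          · exact Or.inr ⟨h, rfl⟩
      lp := h5
      nd := hnd
      only := honly
      leA := hle1
      leQ := hle2
      vleQ := hle3
      vp := by omega
      pz := by omega }

theorem suffix_three {s l : List ℕ} {a b c : ℕ} (h : s <:+ l ++ [a, b, c]) (hs : s ≠ []) :
    s = [c] ∨ s = [b, c] ∨ ∃ w, s = w ++ [a, b, c] := by
  rw [← List.reverse_prefix] at h
  simp only [List.reverse_append, List.reverse_cons, List.reverse_nil, List.nil_append,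
    List.cons_append] at h
  have hr : s = s.reverse.reverse := (List.reverse_reverse s).symm
  rcases hq : s.reverse with _ | ⟨x, r⟩
  · rw [hq] at hr; exact absurd hr hs
  · rw [hq] at h hr
    rw [List.cons_prefix_cons] at h
    obtain ⟨rfl, h⟩ := h
    rcases r with _ | ⟨y, r⟩
    · left; rw [hr]; rfl
    · rw [List.cons_prefix_cons] at h
      obtain ⟨rfl, h⟩ := h
      rcases r with _ | ⟨w, r⟩
      · right; left; rw [hr]; rfl
      · rw [List.cons_prefix_cons] at h
        obtain ⟨rfl, h⟩ := h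
        right; right
        exact ⟨r.reverse, by rw [hr]; simp⟩

/-- One step of the iteration. -/
theorem sta_step (H : Wld T g) {n j : ℕ} {A Q : List ℕ} (h : Sta T g n A Q j) :
    ∃ A' Q' j', Sta T g (n + 1) A' Q' j' ∧ A <+: A' ∧ A.length < A'.length ∧
      (j' = j ∨ (T j' ∧ ∃ a, j' = Nat.pair j a + 1)) := by
  obtain ⟨hi, hs⟩ := h
  have hGG : ∀ p, GG p = p + (p + 2 ^ 19) + 2 ^ 22 := fun p => rfl
  have hMM : MM = 2 ^ 30 := rfl
  have hmle := mk_le (T := T) hi.jn
  have hmge := mk_ge T j
  have h2 : 1 ≤ 2 ^ (n % 7) := Nat.one_le_two_pow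
  have hmle1 : mk T j + 2 ^ 24 ≤ P T n := by
    have := Nat.mul_le_mul_right (mk T j) h2
    omega
  have hPge := P_ge T n
  have hp : p0 = 9 * 2 ^ 29 := rfl
  obtain ⟨sQ, hsQ⟩ := hi.hz
  have hzQ : P T n + 2 ^ 19 ≤ Q.sum := by
    rw [hsQ]; simp
  by_cases h6 : n % 7 = 6
  · -- gadget
    have hPn := P_gadget (T := T) h6
    have hgp := gp_of (T := T) h6 hi.jn
    have hdg := dg_sc (T := T) h6
    have hsa := hi.Sa7 (by omega)
    have hnu := nu_small (T := T) h6
    have hYe : gY (P T n) (nu T n) = P T n + (P T n + 2 ^ 19) + 2 ^ 22 + 7 * (P T n / 10) +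
      nu T n := rfl
    have hlev : (gY (P T n) (nu T n) - 1) + (gY (P T n) (nu T n) + 2 ^ 19) < GG (P T (n + 1)) := by
      rw [hPn, hGG]; omega
    obtain ⟨sA, a1, a2, hlA, ha1, ha2, ha3, ha4⟩ := hi.last (by omega)
    rcases hs with hs | ⟨a, hs⟩
    · have hNI := hs.ni H.gb H.pos
      have hrl := rleN H hi.bal hs.nd (fun x hx => by
        rcases List.mem_append.1 hx with hx | hx
        · exact (hs.leA x hx).trans (by omega)
        · exact hs.leQ x hx) (hs.old_weak H.gb)
      have hBd : (gY (P T n) (nu T n) - 1) + (gY (P T n) (nu T n) + 2 ^ 19) <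
          P T n + Q.sum + mk T j := by omega
      have hc := GN1 H.gb H.pos hNI hgp hBd hlev hdg hrl
      by_cases hXv : Adj g (GG (P T n)) (mk T j)
      · have ho := GN3 H.gb H.pos hNI hgp hBd hlev hdg hrl hc hXv
        have hv : mk T j = nu T n := ho.vn
        -- the node of the gadget is in `T` and a child of `j`
        rcases nu_cases T n with hnc | ⟨hT, hnc⟩
        · exfalso; omega
        · have hj : j = (Nat.unpair (n / 7)).1 := by
            rcases lt_trichotomy j (Nat.unpair (n / 7)).1 with hlt | heq | hlt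
            · have := mk_far (T := T) hlt; omega
            · exact heq
            · have := mk_far (T := T) hlt; omega
          have hsw := hs.swap hgp ho
          rw [hv] at hsw
          refine ⟨_, _, n / 7 + 1, ⟨inv_swap h6 hi hv, ?_⟩, ?_, ?_, Or.inr ⟨hT,
            (Nat.unpair (n / 7)).2, ?_⟩⟩
          · have hm : mk T (n / 7 + 1) = gC (P T n) (nu T n) := by
              rw [mk_succ]
              have : 7 * (n / 7) + 6 = n := by omega
              rw [this]
            rw [hm, hPn]
            rcases hsw with hsw | hsw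
            · left; exact hsw
            · right; exact ⟨_, hsw⟩
          · rw [List.append_assoc, List.append_assoc]; exact List.prefix_append _ _
          · simp
          · rw [hj, Nat.pair_unpair]
      · have ho := GN2 H.gb H.pos hNI hgp hBd hlev hdg hrl hc hXv
        refine ⟨_, _, j, ⟨inv_keep h6 hi, Or.inl ?_⟩, List.prefix_append _ _, by simp, Or.inl rfl⟩
        rw [hPn]
        exact hs.keep hgp ho
    · obtain ⟨sg, s, hsne, hssuf, hsum, hRI⟩ := hs.ri H.gb H.pos
      have hrl := rleR H hi.bal hs.nd (fun x hx => by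
        rcases List.mem_append.1 hx with hx | hx
        · exact (hs.leA x hx).trans (by omega)
        · exact hs.leQ x hx) (hs.old_weak H.gb)
      have hsg : sg = P T n ∨ (2 * P T n ≤ sg + 2 ^ 24 ∧ sg ≤ 2 * P T n) ∨
          3 * P T n ≤ sg + 2 ^ 24 := by
        rw [hlA] at hssuf
        rcases suffix_three hssuf hsne with hh | hh | ⟨w, hh⟩
        · rw [hh] at hsum
          simp only [List.sum_cons, List.sum_nil] at hsum
          omega
        · rw [hh] at hsum
          simp only [List.sum_cons, List.sum_nil] at hsum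
          omega
        · rw [hh, List.sum_append] at hsum
          simp only [List.sum_cons, List.sum_nil] at hsum
          omega
      obtain ⟨ho, hna⟩ := GR H.gb H.pos hRI hgp hsa hlev hsg hdg hrl
      refine ⟨_, _, j, ⟨inv_keep h6 hi, Or.inr ⟨gY (P T n) (nu T n) - 1, ?_⟩⟩,
        List.prefix_append _ _, by simp, Or.inl rfl⟩
      rw [hPn]
      exact hs.keep hgp ho hna
  · -- window
    have hPn := P_window (T := T) h6
    have hdw := dw_sc (T := T) h6
    have hlev : 2 * GG (P T n) + 2 ^ 18 + 2 ^ 20 < GG (P T (n + 1)) := by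
      rw [hPn, hGG (GG (P T n) + 2 ^ 19)]; omega
    have hGeq : GG (P T n) = P T n + (P T n + 2 ^ 19) + 2 ^ 22 := rfl
    rcases hs with hs | ⟨a, hs⟩
    · have hNI := hs.ni H.gb H.pos
      have hrl := rleN H hi.bal hs.nd (fun x hx => by
        rcases List.mem_append.1 hx with hx | hx
        · exact (hs.leA x hx).trans (by omega)
        · exact hs.leQ x hx) (hs.old_weak H.gb)
      have hSa := hi.Sa
      have ho := WN H.gb H.pos hNI rfl hGeq (by omega) (by omega) (by omega) hlev hdw hrl
      refine ⟨_, _, j, ⟨inv_window h6 hi, Or.inl ?_⟩, List.prefix_append _ _, ?_, Or.inl rfl⟩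
      · rw [hPn]
        have := hs.window (by omega) ho
        rw [show GG (P T n) + 2 ^ 19 + 2 ^ 19 = GG (P T n) + 2 ^ 20 by omega]
        exact this
      · simp [odd10]
    · obtain ⟨sg, s, hsne, hssuf, hsum, hRI⟩ := hs.ri H.gb H.pos
      have hrl := rleR H hi.bal hs.nd (fun x hx => by
        rcases List.mem_append.1 hx with hx | hx
        · exact (hs.leA x hx).trans (by omega)
        · exact hs.leQ x hx) (hs.old_weak H.gb)
      have hSa := hi.Sa
      obtain ⟨ho, hna⟩ := WR H.gb H.pos hRI rfl hGeq (by omega) (by omega) hSa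
        (by rw [← hsum]; exact hi.cs s hsne hssuf) hlev hdw hrl
      refine ⟨_, _, j, ⟨inv_window h6 hi, Or.inr ⟨GG (P T n) + 2 ^ 18, ?_⟩⟩,
        List.prefix_append _ _, ?_, Or.inl rfl⟩
      · rw [hPn]
        have := hs.window (by omega) ho hna
        rw [show GG (P T n) + 2 ^ 19 + 2 ^ 19 = GG (P T n) + 2 ^ 20 by omega]
        exact this
      · simp [odd10]

end Pool.Agent.CF2
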