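import Pool.Agent.CF2.Shape
import Mathlib.Data.Nat.Nth

/-!
# Weak and strong shapes of words with far apart letters `b`
-/

namespace Pool.Agent.CF2

open Pool.Agent.Helper79.CF

/-- A word with infinitely many letters `b` is a block word. -/
theorem exists_blk {u : ℕ → Bool} (hinf : ∀ N, ∃ i, N ≤ i ∧ u i = true) :
    ∃ y : ℕ → ℕ, (∀ t, 0 < y t) ∧ u = blk y := by
  classical
  have hI : (Set.ofPred fun n => u n = true).Infinite := by
    rw [Set.infinite_iff_frequently_cofinite, Nat.cofinite_eq_atTop, Filter.frequently_atTop]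
    intro N
    obtain ⟨i, h1, h2⟩ := hinf N
    exact ⟨i, h1, h2⟩
  set q := Nat.nth fun n => u n = true with hq
  have hqm : StrictMono q := Nat.nth_strictMono hI
  have hqt : ∀ n, u (q n) = true := fun n => Nat.nth_mem_of_infinite hI n
  have hqr : ∀ n, u n = true → ∃ k, q k = n := by
    intro n hn
    have := Nat.range_nth_of_infinite hI
    have h1 : n ∈ Set.range q := by
      rw [hq, this]
      exact hn
    exact h1
  let y : ℕ → ℕ := fun t => match t with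
    | 0 => q 0 + 1
    | t + 1 => q (t + 1) - q t
  have hy : ∀ t, 0 < y t := by
    intro t
    cases t with
    | zero => simp [y]
    | succ t =>
      have := hqm (show t < t + 1 by omega)
      simp only [y]; omega
  have hps : ∀ t, psum y (t + 1) = q t + 1 := by
    intro t
    induction t with
    | zero => simp [psum, y]
    | succ t ih =>
      rw [psum_succ, ih]
      have := hqm (show t < t + 1 by omega)
      simp only [y]; omega
  refine ⟨y, hy, ?_⟩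
  funext n
  by_cases h : u n = true
  · rw [h]
    obtain ⟨k, hk⟩ := hqr n h
    exact (blk_true.2 ⟨k, by rw [hps, hk]⟩).symm
  · rw [Bool.eq_false_iff.2 h]
    symm
    rw [Bool.eq_false_iff]
    intro hb
    obtain ⟨k, hk⟩ := blk_true.1 hb
    rw [hps] at hk
    apply h
    rw [show n = q k by omega]
    exact hqt k

/-- `i`, the blocks of `m`, `j` are consecutive complete blocks. -/
def E (y : ℕ → ℕ) (m : List ℕ) (i j : ℕ) : Prop :=
  ∃ t, 1 ≤ t ∧ y t = i ∧ Mid y (t + 1) m ∧ y (t + 1 + m.length) = j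

/-- The standing assumptions. -/
structure Good (y : ℕ → ℕ) (M : ℕ) : Prop where
  pos : ∀ t, 0 < y t
  far : ∀ t, 1 ≤ t → M < y t
  y0 : y 0 ≤ M
  gb : ∀ N, ∃ t, 1 ≤ t ∧ N < y t ∧ N < y (t + 1)

variable {y : ℕ → ℕ} {M : ℕ}

theorem Good.unb (h : Good y M) (N : ℕ) : ∃ t, 1 ≤ t ∧ N < y t := by
  obtain ⟨t, h1, h2, _⟩ := h.gb N
  exact ⟨t, h1, h2⟩

theorem RSs_far (h : Good y M) {a b : ℕ} {m : List ℕ} (ha : M < a) :
    RSs y a m b ↔ (∃ i, a ≤ i ∧ E y m i b) ∧ ∃ i j, a ≤ i ∧ b < j ∧ E y m i j := by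
  have ht : ∀ t, a ≤ y t → 1 ≤ t := by
    intro t hat
    rcases Nat.eq_zero_or_pos t with rfl | ht
    · have := h.y0; omega
    · exact ht
  constructor
  · rintro ⟨⟨t, h1, h2, h3⟩, ⟨t', h1', h2', h3'⟩⟩
    exact ⟨⟨y t, h1, t, ht t h1, rfl, h2, h3⟩, ⟨y t', _, h1', h3', t', ht t' h1', rfl, h2', rfl⟩⟩
  · rintro ⟨⟨i, h1, t, h2, rfl, h3, h4⟩, ⟨i', j', h1', h5', t', h2', rfl, h3', rfl⟩⟩
    exact ⟨⟨t, h1, h3, h4⟩, ⟨t', h1', h3', h5'⟩⟩

theorem RSs_cons (h : Good y M) {a b : ℕ} {m : List ℕ} :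
    RSs y 1 (a :: m) b ↔ E y m a b ∧ ∃ j, b < j ∧ E y m a j := by
  have hl : ∀ t, t + 1 + (a :: m).length = t + 1 + 1 + m.length := by
    intro t; rw [List.length_cons]; omega
  constructor
  · rintro ⟨⟨t, _, h2, h3⟩, ⟨t', _, h2', h3'⟩⟩
    rw [hl] at h3 h3'
    exact ⟨⟨t + 1, by omega, h2.1, h2.2, h3⟩, ⟨_, h3', t' + 1, by omega, h2'.1, h2'.2, rfl⟩⟩
  · rintro ⟨⟨t, h1, h2, h3, h4⟩, ⟨j, h5, t', h1', h2', h3', h4'⟩⟩
    have e : t - 1 + 1 = t := by omega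
    have e' : t' - 1 + 1 = t' := by omega
    refine ⟨⟨t - 1, h.pos _, ⟨?_, ?_⟩, ?_⟩, ⟨t' - 1, h.pos _, ⟨?_, ?_⟩, ?_⟩⟩
    · rw [e]; exact h2
    · rw [e]; exact h3
    · rw [hl, e]; exact h4
    · rw [e']; exact h2'
    · rw [e']; exact h3'
    · rw [hl, e', h4']; exact h5

theorem E_VV {i j : ℕ} {m : List ℕ} (h : E y m i j) : VV y i ∧ VV y j := by
  obtain ⟨t, h1, h2, _, h4⟩ := h
  exact ⟨⟨t, h1, h2⟩, ⟨_, by omega, h4⟩⟩

theorem VV_far (h : Good y M) {i : ℕ} (hi : VV y i) : M < i := by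
  obtain ⟨t, h1, rfl⟩ := hi
  exact h.far t h1

/-- Strong shapes. -/
theorem St_iff (h : Good y M) {a b : ℕ} {m : List ℕ} :
    StS y a m b ↔ (∃ i, a < i ∧ E y m i b) ∧ (∃ i j, a < i ∧ b < j ∧ E y m i j) ∧
      E y m a b ∧ ∃ j, b < j ∧ E y m a j := by
  unfold StS
  rw [RSs_cons h]
  constructor
  · rintro ⟨h1, h2, h3⟩
    have ha := VV_far h (E_VV h2).1
    rw [RSs_far h (by omega)] at h1
    obtain ⟨⟨i, k1, k2⟩, ⟨i', j', k3, k4, k5⟩⟩ := h1
    exact ⟨⟨i, by omega, k2⟩, ⟨i', j', by omega, k4, k5⟩, h2, h3⟩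
  · rintro ⟨⟨i, k1, k2⟩, ⟨i', j', k3, k4, k5⟩, h2, h3⟩
    have ha := VV_far h (E_VV h2).1
    rw [RSs_far h (by omega)]
    exact ⟨⟨⟨i, by omega, k2⟩, ⟨i', j', by omega, k4, k5⟩⟩, h2, h3⟩

/-- Strong shapes with two blocks. -/
theorem St_nil (h : Good y M) {a b : ℕ} :
    StS y a [] b ↔ (∃ i, a < i ∧ E y [] i b) ∧ E y [] a b ∧ ∃ j, b < j ∧ E y [] a j := by
  rw [St_iff h]
  constructor
  · rintro ⟨h1, _, h2⟩
    exact ⟨h1, h2⟩
  · rintro ⟨h1, h2⟩
    obtain ⟨t, k1, k2, k3⟩ := h.gb (max a b)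
    exact ⟨h1, ⟨y t, y (t + 1), by omega, by omega, t, k1, rfl, trivial, rfl⟩, h2⟩

/-- Weak shapes. -/
theorem Wk_far (h : Good y M) {a b : ℕ} {m : List ℕ} (ha : M < a) :
    WkS y a m b ↔ ((∃ i, a ≤ i ∧ E y m i b) ∧ ∃ i j, a ≤ i ∧ b < j ∧ E y m i j) ∧
      ¬ ((∃ i, a < i ∧ E y m i b) ∧ ∃ i j, a < i ∧ b < j ∧ E y m i j) ∧
      ¬ (E y m a b ∧ ∃ j, b < j ∧ E y m a j) := by
  unfold WkS
  rw [RSs_cons h, RSs_far h ha, RSs_far h (by omega)]
  exact Iff.rfl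

/-- Weak shapes with two blocks. -/
theorem Wk_nil (h : Good y M) {a b : ℕ} (ha : M < a) :
    WkS y a [] b ↔ E y [] a b ∧ (∀ i, a < i → ¬ E y [] i b) ∧ ∀ j, b < j → ¬ E y [] a j := by
  rw [Wk_far h ha]
  have hgb : ∃ i j, a < i ∧ b < j ∧ E y [] i j := by
    obtain ⟨t, k1, k2, k3⟩ := h.gb (max a b)
    exact ⟨y t, y (t + 1), by omega, by omega, t, k1, rfl, trivial, rfl⟩
  constructor
  · rintro ⟨⟨⟨i, h1, h2⟩, _⟩, h3, h4⟩
    have h5 : ∀ i, a < i → ¬ E y [] i b := fun i hi hE => h3 ⟨⟨i, hi, hE⟩, hgb⟩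
    have h6 : E y [] a b := by
      rcases Nat.lt_or_ge a i with h7 | h7
      · exact absurd h2 (h5 i h7)
      · rwa [show a = i by omega]
    exact ⟨h6, h5, fun j hj hE => h4 ⟨h6, j, hj, hE⟩⟩
  · rintro ⟨h1, h2, h3⟩
    refine ⟨⟨⟨a, le_rfl, h1⟩, ?_⟩, ?_, ?_⟩
    · obtain ⟨i, j, k1, k2, k3⟩ := hgb
      exact ⟨i, j, k1.le, k2, k3⟩
    · rintro ⟨⟨i, k1, k2⟩, _⟩
      exact h2 i k1 k2
    · rintro ⟨_, j, k1, k2⟩
      exact h3 j k1 k2

/-- The ends and the neighbours in a weak shape. -/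
theorem Wk_ends (h : Good y M) {a b : ℕ} {m : List ℕ} (ha : M < a) (hw : WkS y a m b) :
    (∃ j, b ≤ j ∧ E y m a j) ∧ (∃ i j, a < i ∧ b ≤ j ∧ E y m i j) ∧
      (∃ i, a ≤ i ∧ E y m i b) ∧ ∃ i j, a ≤ i ∧ b < j ∧ E y m i j := by
  rw [Wk_far h ha] at hw
  obtain ⟨⟨⟨i, h1, h2⟩, ⟨i', j', h3, h4, h5⟩⟩, h6, h7⟩ := hw
  refine ⟨?_, ?_, ⟨i, h1, h2⟩, ⟨i', j', h3, h4, h5⟩⟩
  · by_contra hno
    push Not at hno
    apply h6
    refine ⟨⟨i, ?_, h2⟩, ⟨i', j', ?_, h4, h5⟩⟩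
    · rcases Nat.lt_or_ge a i with k | k
      · exact k
      · exact absurd (show E y m a b by rwa [show a = i by omega]) (hno b le_rfl)
    · rcases Nat.lt_or_ge a i' with k | k
      · exact k
      · exact absurd (show E y m a j' by rwa [show a = i' by omega]) (hno j' h4.le)
  · by_contra hno
    push Not at hno
    apply h7
    have e : i = a := by
      by_contra hne
      exact hno i b (by omega) le_rfl h2
    have e' : i' = a := by
      by_contra hne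
      exact hno i' j' (by omega) h4.le h5
    rw [e] at h2
    rw [e'] at h5
    exact ⟨h2, j', h4, h5⟩

/-- The ends in a strong shape. -/
theorem St_ends (h : Good y M) {a b : ℕ} {m : List ℕ} (hs : StS y a m b) :
    (∃ j, b ≤ j ∧ E y m a j) ∧ (∃ i j, a < i ∧ b ≤ j ∧ E y m i j) ∧
      (∃ i, a ≤ i ∧ E y m i b) ∧ ∃ i j, a ≤ i ∧ b < j ∧ E y m i j := by
  rw [St_iff h] at hs
  obtain ⟨⟨i, h1, h2⟩, ⟨i', j', h3, h4, h5⟩, h6, ⟨j'', h7, h8⟩⟩ := hs
  exact ⟨⟨b, le_rfl, h6⟩, ⟨i, b, h1, le_rfl, h2⟩, ⟨a, le_rfl, h6⟩, ⟨a, j'', le_rfl, h7, h8⟩⟩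

/-- Weak shapes with a short first block come from the prefix. -/
theorem Wk_prefix (h : Good y M) {a b : ℕ} {m : List ℕ} (ha : a ≤ M)
    (h1 : ∀ t, 2 ≤ t → y t ≠ y 1) (hw : WkS y a m b) : a = y 0 ∧ m = [] ∧ b = y 1 := by
  obtain ⟨⟨⟨t, k1, k2, k3⟩, ⟨t', k1', k2', k3'⟩⟩, h2, _⟩ := hw
  have ha0 : a = y 0 := by
    by_contra hne
    have hkey : ∀ t, a ≤ y t → a + 1 ≤ y t := by
      intro t hat
      rcases Nat.eq_zero_or_pos t with rfl | ht
      · omega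
      · have := h.far t ht; omega
    exact h2 ⟨⟨t, hkey t k1, k2, k3⟩, ⟨t', hkey t' k1', k2', k3'⟩⟩
  have hkey : ∀ t, 1 ≤ t → a + 1 ≤ y t := fun t ht => by have := h.far t ht; omega
  -- one of the occurrences is at `0`
  have h0 : ¬ (1 ≤ t ∧ 1 ≤ t') := by
    rintro ⟨q1, q2⟩
    exact h2 ⟨⟨t, hkey t q1, k2, k3⟩, ⟨t', hkey t' q2, k2', k3'⟩⟩
  have hm : m = [] := by
    cases m with
    | nil => rfl
    | cons x m =>
      exfalso
      have e1 := k2.1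
      have e2 := k2'.1
      have e3 : t = 0 ∧ t' = 0 := by
        rcases Nat.eq_zero_or_pos t with r1 | r1
        · refine ⟨r1, ?_⟩
          by_contra hne
          rw [r1] at e1
          exact h1 (t' + 1) (by omega) (by rw [e2]; exact e1.symm)
        · have r2 : t' = 0 := by
            by_contra hne
            exact h0 ⟨r1, by omega⟩
          exfalso
          rw [r2] at e2
          exact h1 (t + 1) (by omega) (by rw [e1]; exact e2.symm)
      rw [e3.1] at k3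
      rw [e3.2] at k3'
      omega
  subst hm
  refine ⟨ha0, rfl, ?_⟩
  simp only [List.length_nil, add_zero] at k3 k3'
  by_contra hne
  obtain ⟨s, s1, s2, s3⟩ := h.gb b
  rcases Nat.eq_zero_or_pos t with r1 | r1
  · rw [r1] at k3
    exact hne k3.symm
  · exact h2 ⟨⟨t, hkey t r1, trivial, by simpa using k3⟩, ⟨s, hkey s s1, trivial, by simpa using s3⟩⟩

/-- The slope of the complexity. -/
noncomputable def slope (y : ℕ → ℕ) (n : ℕ) : ℕ := (RS (blk y) n false true).ncard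

theorem StSet_mk {a b N : ℕ} {m : List ℕ} (ha : 1 ≤ a) (hm : ∀ x ∈ m, 1 ≤ x) (hb : 1 ≤ b)
    (hN : a + m.sum + b = N) (h : StS y a m b) : (a, m) ∈ StSet y N := by
  refine ⟨ha, hm, by simp only; omega, ?_⟩
  simp only
  rw [show N - a - m.sum = b by omega]
  exact h

theorem WkSet_mk {a b N : ℕ} {m : List ℕ} (ha : 1 ≤ a) (hm : ∀ x ∈ m, 1 ≤ x) (hb : 1 ≤ b)
    (hN : a + m.sum + b = N) (h : WkS y a m b) : (a, m) ∈ WkSet y N := by
  refine ⟨ha, hm, by simp only; omega, ?_⟩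
  simp only
  rw [show N - a - m.sum = b by omega]
  exact h

theorem mid_pos (hy : ∀ t, 0 < y t) : ∀ {m : List ℕ} {t : ℕ}, Mid y t m → ∀ x ∈ m, 1 ≤ x
  | [], _, _ => by simp
  | x :: m, t, h => by
    intro z hz
    rw [List.mem_cons] at hz
    rcases hz with rfl | hz
    · rw [← h.1]; exact hy t
    · exact mid_pos hy h.2 z hz

theorem StS_pos (hy : ∀ t, 0 < y t) {a b : ℕ} {m : List ℕ} (h : StS y a m b) :
    1 ≤ a ∧ (∀ x ∈ m, 1 ≤ x) ∧ 1 ≤ b := by
  obtain ⟨⟨⟨t, h1, h2, h3⟩, _⟩, ⟨⟨t', h1', h2', h3'⟩, _⟩⟩ := h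
  refine ⟨?_, mid_pos hy h2, ?_⟩
  · rw [← h2'.1]; exact hy _
  · rw [← h3]; exact hy _

open scoped Classical in
theorem level_id (h : Good y M) {N : ℕ} (hN : 1 ≤ N) :
    slope y N + (WkSet y N).ncard = slope y (N - 1) + (StSet y N).ncard +
      (if VV y N then 1 else 0) := by
  have := level_identity h.pos h.unb (N - 1)
  rw [Nat.sub_add_cancel hN] at this
  exact this

theorem WkSet_fin (y : ℕ → ℕ) {N : ℕ} (hN : 1 ≤ N) : (WkSet y N).Finite := by
  have := WkSet_finite y (N - 1)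
  rwa [Nat.sub_add_cancel hN] at this

theorem StSet_fin (y : ℕ → ℕ) {N : ℕ} (hN : 1 ≤ N) : (StSet y N).Finite := by
  have := StSet_finite y (N - 1)
  rwa [Nat.sub_add_cancel hN] at this

/-- A weak shape of level `N`. -/
def WkAt (y : ℕ → ℕ) (N a : ℕ) (m : List ℕ) (b : ℕ) : Prop :=
  1 ≤ a ∧ (∀ x ∈ m, 1 ≤ x) ∧ 1 ≤ b ∧ a + m.sum + b = N ∧ WkS y a m b

/-- A strong shape of level `N`. -/
def StAt (y : ℕ → ℕ) (N a : ℕ) (m : List ℕ) (b : ℕ) : Prop :=
  1 ≤ a ∧ (∀ x ∈ m, 1 ≤ x) ∧ 1 ≤ b ∧ a + m.sum + b = N ∧ StS y a m b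

theorem WkSet_ne {N : ℕ} (h : (WkSet y N).Nonempty) : ∃ a m b, WkAt y N a m b := by
  obtain ⟨⟨a, m⟩, h1, h2, h3, h4⟩ := h
  simp only at h1 h2 h3 h4
  exact ⟨a, m, N - a - m.sum, h1, h2, by omega, by omega, h4⟩

theorem StSet_ne {N : ℕ} (h : (StSet y N).Nonempty) : ∃ a m b, StAt y N a m b := by
  obtain ⟨⟨a, m⟩, h1, h2, h3, h4⟩ := h
  simp only at h1 h2 h3 h4
  exact ⟨a, m, N - a - m.sum, h1, h2, by omega, by omega, h4⟩

theorem WkAt.mem {N a b : ℕ} {m : List ℕ} (h : WkAt y N a m b) : (a, m) ∈ WkSet y N :=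
  WkSet_mk h.1 h.2.1 h.2.2.1 h.2.2.2.1 h.2.2.2.2

theorem StAt.mem {N a b : ℕ} {m : List ℕ} (h : StAt y N a m b) : (a, m) ∈ StSet y N :=
  StSet_mk h.1 h.2.1 h.2.2.1 h.2.2.2.1 h.2.2.2.2

/-- (down) a decrease of the slope gives a weak shape. -/
theorem lvl_down (h : Good y M) {N : ℕ} (hN : 1 ≤ N) (hs : slope y N < slope y (N - 1)) :
    ∃ a m b, WkAt y N a m b := by
  classical
  have h1 := level_id h hN
  apply WkSet_ne
  rw [← Set.ncard_pos (WkSet_fin y hN)]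
  omega

/-- (value) a block of length `N` without an increase gives a weak shape. -/
theorem lvl_val (h : Good y M) {N : ℕ} (hN : 1 ≤ N) (hs : slope y N ≤ slope y (N - 1))
    (hv : VV y N) : ∃ a m b, WkAt y N a m b := by
  classical
  have h1 := level_id h hN
  rw [if_pos hv] at h1
  apply WkSet_ne
  rw [← Set.ncard_pos (WkSet_fin y hN)]
  omega

/-- (strong) a strong shape without an increase gives a weak shape. -/
theorem lvl_st (h : Good y M) {N : ℕ} (hN : 1 ≤ N) (hs : slope y N ≤ slope y (N - 1))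
    {a b : ℕ} {m : List ℕ} (hst : StAt y N a m b) : ∃ a m b, WkAt y N a m b := by
  classical
  have h1 := level_id h hN
  have h2 := (Set.ncard_pos (StSet_fin y hN)).2 ⟨_, hst.mem⟩
  apply WkSet_ne
  rw [← Set.ncard_pos (WkSet_fin y hN)]
  omega

/-- (strong and value) with an increase by one only. -/
theorem lvl_st_val (h : Good y M) {N : ℕ} (hN : 1 ≤ N) (hs : slope y N ≤ slope y (N - 1) + 1)
    {a b : ℕ} {m : List ℕ} (hst : StAt y N a m b) (hv : VV y N) : ∃ a m b, WkAt y N a m b := by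
  classical
  have h1 := level_id h hN
  rw [if_pos hv] at h1
  have h2 := (Set.ncard_pos (StSet_fin y hN)).2 ⟨_, hst.mem⟩
  apply WkSet_ne
  rw [← Set.ncard_pos (WkSet_fin y hN)]
  omega

/-- (up) an increase gives a value or a strong shape. -/
theorem lvl_up (h : Good y M) {N : ℕ} (hN : 1 ≤ N) (hs : slope y (N - 1) < slope y N) :
    VV y N ∨ ∃ a m b, StAt y N a m b := by
  classical
  have h1 := level_id h hN
  by_cases hv : VV y N
  · exact Or.inl hv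
  · rw [if_neg hv] at h1
    right
    apply StSet_ne
    rw [← Set.ncard_pos (StSet_fin y hN)]
    omega

/-- (weak) a weak shape without a decrease gives a value or a strong shape. -/
theorem lvl_wk (h : Good y M) {N : ℕ} (hN : 1 ≤ N) (hs : slope y (N - 1) ≤ slope y N)
    {a b : ℕ} {m : List ℕ} (hw : WkAt y N a m b) : VV y N ∨ ∃ a m b, StAt y N a m b := by
  classical
  have h1 := level_id h hN
  have h2 := (Set.ncard_pos (WkSet_fin y hN)).2 ⟨_, hw.mem⟩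
  by_cases hv : VV y N
  · exact Or.inl hv
  · rw [if_neg hv] at h1
    right
    apply StSet_ne
    rw [← Set.ncard_pos (StSet_fin y hN)]
    omega

/-- (up and weak) an increase by one and a weak shape give a value and a strong shape, or two
strong shapes; in any case a strong shape. -/
theorem lvl_up_wk (h : Good y M) {N : ℕ} (hN : 1 ≤ N) (hs : slope y (N - 1) < slope y N)
    {a b : ℕ} {m : List ℕ} (hw : WkAt y N a m b) : ∃ a m b, StAt y N a m b := by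
  classical
  have h1 := level_id h hN
  have h2 := (Set.ncard_pos (WkSet_fin y hN)).2 ⟨_, hw.mem⟩
  apply StSet_ne
  rw [← Set.ncard_pos (StSet_fin y hN)]
  split_ifs at h1 <;> omega

/-- (down and strong) a decrease and a strong shape give two weak shapes. -/
theorem lvl_down_st (h : Good y M) {N : ℕ} (hN : 1 ≤ N) (hs : slope y N < slope y (N - 1))
    {a b : ℕ} {m : List ℕ} (hst : StAt y N a m b) :
    ∃ a m b a' m' b', WkAt y N a m b ∧ WkAt y N a' m' b' ∧ (a, m) ≠ (a', m') := by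
  classical
  have h1 := level_id h hN
  have h2 := (Set.ncard_pos (StSet_fin y hN)).2 ⟨_, hst.mem⟩
  have h3 : 1 < (WkSet y N).ncard := by omega
  obtain ⟨⟨a, m⟩, ⟨a', m'⟩, ⟨p1, p2, p3, p4⟩, ⟨p1', p2', p3', p4'⟩, hne⟩ :=
    (Set.one_lt_ncard_iff (WkSet_fin y hN)).1 h3
  simp only at p1 p2 p3 p4 p1' p2' p3' p4'
  exact ⟨a, m, N - a - m.sum, a', m', N - a' - m'.sum, ⟨p1, p2, by omega, by omega, p4⟩,
    ⟨p1', p2', by omega, by omega, p4'⟩, hne⟩

/-- (down and value) a decrease and a value give two weak shapes. -/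
theorem lvl_down_val (h : Good y M) {N : ℕ} (hN : 1 ≤ N) (hs : slope y N < slope y (N - 1))
    (hv : VV y N) :
    ∃ a m b a' m' b', WkAt y N a m b ∧ WkAt y N a' m' b' ∧ (a, m) ≠ (a', m') := by
  classical
  have h1 := level_id h hN
  rw [if_pos hv] at h1
  have h3 : 1 < (WkSet y N).ncard := by omega
  obtain ⟨⟨a, m⟩, ⟨a', m'⟩, ⟨p1, p2, p3, p4⟩, ⟨p1', p2', p3', p4'⟩, hne⟩ :=
    (Set.one_lt_ncard_iff (WkSet_fin y hN)).1 h3
  simp only at p1 p2 p3 p4 p1' p2' p3' p4'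
  exact ⟨a, m, N - a - m.sum, a', m', N - a' - m'.sum, ⟨p1, p2, by omega, by omega, p4⟩,
    ⟨p1', p2', by omega, by omega, p4'⟩, hne⟩

end Pool.Agent.CF2
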