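import Pool.Agent.Helper79.CF.Base

/-!
# Complexity of binary words with distinct blocks

`blk y` is the infinite word `a^(y 0 - 1) b a^(y 1 - 1) b a^(y 2 - 1) b ...` (`a = false`, `b = true`).
-/

namespace Pool.Agent.CF2

open Pool.Agent.Helper79.CF

/-- The sum of the first `t` block lengths. -/
def psum (y : ℕ → ℕ) (t : ℕ) : ℕ := ∑ i ∈ Finset.range t, y i

open scoped Classical in
/-- The word `a^(y 0 - 1) b a^(y 1 - 1) b ...`: the letter `b = true` stands at the end of each
block. -/
noncomputable def blk (y : ℕ → ℕ) (n : ℕ) : Bool := decide (∃ t, n + 1 = psum y (t + 1))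

theorem psum_succ (y : ℕ → ℕ) (t : ℕ) : psum y (t + 1) = psum y t + y t :=
  Finset.sum_range_succ _ _

theorem psum_strictMono {y : ℕ → ℕ} (hy : ∀ t, 0 < y t) : StrictMono (psum y) :=
  strictMono_nat_of_lt_succ fun t => by rw [psum_succ]; have := hy t; omega

theorem blk_true {y : ℕ → ℕ} {n : ℕ} : blk y n = true ↔ ∃ t, n + 1 = psum y (t + 1) := by
  simp [blk]

theorem blk_end {y : ℕ → ℕ} (_hy : ∀ t, 0 < y t) (t m : ℕ) (h : m + 1 = psum y t + y t) :
    blk y m = true := blk_true.2 ⟨t, by rw [psum_succ]; omega⟩

theorem blk_mid {y : ℕ → ℕ} (hy : ∀ t, 0 < y t) (t m : ℕ) (h1 : psum y t ≤ m)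
    (h2 : m + 1 < psum y t + y t) : blk y m = false := by
  rw [Bool.eq_false_iff]
  intro h
  obtain ⟨s, hs⟩ := blk_true.1 h
  have hm := psum_strictMono hy
  rcases Nat.lt_or_ge s t with hst | hst
  · have := hm.monotone (show s + 1 ≤ t by omega)
    omega
  · have := hm.monotone (show t + 1 ≤ s + 1 by omega)
    rw [psum_succ y t] at this
    omega

/-- The block before the letter `b` at `m`: if `b` stands at `m` and at `m' < m` with no `b` in
between, then the distance is a block length. -/
theorem blk_next {y : ℕ → ℕ} (hy : ∀ t, 0 < y t) {t m m' : ℕ} (h : m + 1 = psum y (t + 1))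
    (h1 : m < m') (h2 : blk y m' = true) (h3 : ∀ r, m < r → r < m' → blk y r = false) :
    m' + 1 = psum y (t + 2) ∧ m' = m + y (t + 1) := by
  have hm := psum_strictMono hy
  obtain ⟨s, hs⟩ := blk_true.1 h2
  have hts : t < s := by
    by_contra hlt
    have := hm.monotone (show s + 1 ≤ t + 1 by omega)
    omega
  have e := psum_succ y (t + 1)
  have hs' : s = t + 1 := by
    by_contra hne
    have h4 := hm (show t + 1 + 1 < s + 1 by omega)
    have h5 := blk_end hy (t + 1) (psum y (t + 1) + y (t + 1) - 1) (by have := hy (t + 1); omega)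
    rw [h3 _ (by have := hy (t + 1); omega) (by omega)] at h5
    exact absurd h5 (by simp)
  subst hs'
  constructor
  · exact hs
  · rw [show t + 1 + 1 = (t + 1) + 1 from rfl, e] at hs
    omega

/-- Right special words. -/
def RS {A : Type*} (u : ℕ → A) (n : ℕ) (a b : A) : Set (Fin n → A) :=
  {w | (Fin.snoc w a : Fin (n + 1) → A) ∈ factors u (n + 1) ∧
    (Fin.snoc w b : Fin (n + 1) → A) ∈ factors u (n + 1)}

theorem factors_init {A : Type*} {u : ℕ → A} {n : ℕ} {w : Fin (n + 1) → A}
    (h : w ∈ factors u (n + 1)) : (fun j : Fin n => w j.castSucc) ∈ factors u n := by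
  obtain ⟨i, rfl⟩ := h
  exact ⟨i, rfl⟩

theorem factors_snoc {A : Type*} {u : ℕ → A} {n : ℕ} {w : Fin n → A} (h : w ∈ factors u n) :
    ∃ c, (Fin.snoc w c : Fin (n + 1) → A) ∈ factors u (n + 1) := by
  obtain ⟨i, rfl⟩ := h
  refine ⟨u (i + n), i, ?_⟩
  funext j
  refine Fin.lastCases ?_ (fun j => ?_) j
  · simp
  · simp

theorem mem_snoc {A : Type*} {u : ℕ → A} {n : ℕ} {w : Fin n → A} {c : A} :
    (Fin.snoc w c : Fin (n + 1) → A) ∈ factors u (n + 1) ↔
      ∃ i, (∀ j : Fin n, u (i + j) = w j) ∧ u (i + n) = c := by
  constructor
  · rintro ⟨i, hi⟩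
    refine ⟨i, fun j => ?_, ?_⟩
    · have := congrFun hi j.castSucc
      simpa using this
    · have := congrFun hi (Fin.last n)
      simpa using this
  · rintro ⟨i, h1, h2⟩
    refine ⟨i, ?_⟩
    funext j
    refine Fin.lastCases ?_ (fun j => ?_) j
    · simpa using h2
    · simpa using h1 j

theorem complexity_succ (u : ℕ → Bool) (n : ℕ) :
    complexity u (n + 1) = complexity u n + (RS u n false true).ncard := by
  classical
  set F : Set (Fin n → Bool) := factors u n
  set R := RS u n false true
  have hRF : R ⊆ F := by
    intro w hw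
    obtain ⟨i, h1, _⟩ := mem_snoc.1 hw.1
    exact ⟨i, funext h1⟩
  -- words ending in the least possible letter, and the second extension of right special words
  let f : (Fin n → Bool) → (Fin (n + 1) → Bool) := fun w =>
    if (Fin.snoc w false : Fin (n + 1) → Bool) ∈ factors u (n + 1) then Fin.snoc w false
    else Fin.snoc w true
  let g : (Fin n → Bool) → (Fin (n + 1) → Bool) := fun w => Fin.snoc w true
  have hinit : ∀ (w : Fin n → Bool) (c : Bool), (fun j : Fin n =>
      (Fin.snoc w c : Fin (n + 1) → Bool) j.castSucc) = w := by
    intro w c; funext j; simp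
  have hfinit : ∀ w, (fun j : Fin n => f w j.castSucc) = w := by
    intro w
    by_cases h : (Fin.snoc w false : Fin (n + 1) → Bool) ∈ factors u (n + 1)
    · simp only [f, h, if_true]; exact hinit w false
    · simp only [f, h, if_false]; exact hinit w true
  have hfi : Function.Injective f := by
    intro w w' h
    rw [← hfinit w, ← hfinit w', h]
  have hgi : Function.Injective g := by
    intro w w' h
    rw [← hinit w true, ← hinit w' true]
    exact congrArg (fun z : Fin (n + 1) → Bool => fun j : Fin n => z j.castSucc) h
  have hU : factors u (n + 1) = f '' F ∪ g '' R := by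
    ext z
    constructor
    · intro hz
      have hw := factors_init hz
      set w : Fin n → Bool := fun j => z j.castSucc with hwdef
      have hz' : z = Fin.snoc w (z (Fin.last n)) := by
        funext j
        refine Fin.lastCases ?_ (fun j => ?_) j
        · simp
        · simp [hwdef]
      by_cases h : (Fin.snoc w false : Fin (n + 1) → Bool) ∈ factors u (n + 1)
      · rcases Bool.eq_false_or_eq_true (z (Fin.last n)) with hl | hl
        · right
          rw [hl] at hz'
          exact ⟨w, ⟨h, by rw [← hz']; exact hz⟩, hz'.symm⟩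
        · left
          refine ⟨w, hw, ?_⟩
          simp only [f, h, if_true]
          rw [hz', hl]
      · left
        refine ⟨w, hw, ?_⟩
        simp only [f, h, if_false]
        rcases Bool.eq_false_or_eq_true (z (Fin.last n)) with hl | hl
        · rw [hz', hl]
        · exfalso
          apply h
          rw [hl] at hz'
          rw [← hz']
          exact hz
    · rintro (⟨w, hw, rfl⟩ | ⟨w, hw, rfl⟩)
      · by_cases h : (Fin.snoc w false : Fin (n + 1) → Bool) ∈ factors u (n + 1)
        · simp only [f, h, if_true]
        · simp only [f, h, if_false]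
          obtain ⟨c, hc⟩ := factors_snoc hw
          rcases Bool.eq_false_or_eq_true c with rfl | rfl
          · exact hc
          · exact absurd hc h
      · exact hw.2
  have hdisj : Disjoint (f '' F) (g '' R) := by
    rw [Set.disjoint_left]
    rintro _ ⟨w, hw, rfl⟩ ⟨w', hw', h⟩
    have e : w' = w := by
      rw [← hinit w' true, ← hfinit w]
      exact congrArg (fun z : Fin (n + 1) → Bool => fun j : Fin n => z j.castSucc) h
    subst e
    simp only [f, hw'.1, if_true, g] at h
    have := congrFun h (Fin.last n)
    simp at this
  unfold complexity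
  rw [hU, Set.ncard_union_eq hdisj (Set.toFinite _) (Set.toFinite _),
    Set.ncard_image_of_injective _ hfi, Set.ncard_image_of_injective _ hgi]

/-- The word `a^(n - q - 1)...` with a single letter `b` at the place `q`. -/
def oneB (n q : ℕ) : Fin n → Bool := fun j => decide ((j : ℕ) = q)

theorem RS_blk {y : ℕ → ℕ} (hy : ∀ t, 0 < y t) (hinj : ∀ s t, y (s + 1) = y (t + 1) → s = t)
    (hLL : ∀ N, ∃ t, N < y t ∧ N < y (t + 1)) (n : ℕ) :
    RS (blk y) n false true = insert (fun _ => false)
      ((fun t => oneB n (n - y (t + 1))) '' {t | y (t + 1) ≤ n ∧ n < y (t + 1) + y t}) := by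
  ext w
  constructor
  · rintro ⟨ha, hb⟩
    obtain ⟨i', ha1, ha2⟩ := mem_snoc.1 ha
    obtain ⟨i, hb1, hb2⟩ := mem_snoc.1 hb
    by_cases hw : ∃ j : Fin n, w j = true
    · right
      -- last b
      obtain ⟨q, hq, hql⟩ : ∃ q : Fin n, w q = true ∧ ∀ r : Fin n, q < r → w r = false := by
        classical
        let s := Finset.univ.filter (fun j : Fin n => w j = true)
        have hs : s.Nonempty := by
          obtain ⟨j, hj⟩ := hw
          exact ⟨j, by simp [s, hj]⟩
        refine ⟨s.max' hs, ?_, fun r hr => ?_⟩
        · have := s.max'_mem hs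
          simpa [s] using this
        · by_contra hne
          have : r ∈ s := by simp [s, Bool.eq_true_of_not_eq_false hne]
          exact absurd (s.le_max' r this) (not_le.2 hr)
      have hqn := q.2
      -- occurrence i
      have e1 : blk y (i + q) = true := (hb1 q).trans hq
      obtain ⟨t, ht⟩ := blk_true.1 e1
      have e2 : ∀ r, i + q < r → r < i + n → blk y r = false := by
        intro r h1 h2
        have := hb1 ⟨r - i, by omega⟩
        rw [show i + (r - i) = r by omega] at this
        rw [this]
        exact hql _ (by rw [Fin.lt_def]; simp; omega)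
      obtain ⟨ht2, ht3⟩ := blk_next hy ht (show i + (q : ℕ) < i + n by omega) hb2 e2
      -- occurrence i'
      have f1 : blk y (i' + q) = true := (ha1 q).trans hq
      obtain ⟨s, hs⟩ := blk_true.1 f1
      have hsy : (n : ℕ) - q < y (s + 1) := by
        by_contra hle
        push Not at hle
        have hpos := hy (s + 1)
        have h5 := blk_end hy (s + 1) (psum y (s + 1) + y (s + 1) - 1) (by omega)
        rcases Nat.lt_or_ge (psum y (s + 1) + y (s + 1) - 1) (i' + n) with h6 | h6
        · have := ha1 ⟨psum y (s + 1) + y (s + 1) - 1 - i', by omega⟩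
          rw [show i' + (psum y (s + 1) + y (s + 1) - 1 - i') =
            psum y (s + 1) + y (s + 1) - 1 by omega, h5] at this
          rw [hql _ (by rw [Fin.lt_def]; simp; omega)] at this
          exact absurd this (by simp)
        · rw [show psum y (s + 1) + y (s + 1) - 1 = i' + n by omega, ha2] at h5
          exact absurd h5 (by simp)
      have hyt : y (t + 1) = n - q := by omega
      -- no other b
      have hone : ∀ r : Fin n, r < q → w r = false := by
        intro r0 hr0
        by_contra hne
        classical
        let s' := Finset.univ.filter (fun j : Fin n => w j = true ∧ j < q)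
        have hs' : s'.Nonempty := ⟨r0, by simp [s', Bool.eq_true_of_not_eq_false hne, hr0]⟩
        obtain ⟨r, hr, hrq, hrl⟩ : ∃ r : Fin n, w r = true ∧ r < q ∧
            ∀ x : Fin n, r < x → x < q → w x = false := by
          refine ⟨s'.max' hs', ?_, ?_, fun x hx hxq => ?_⟩
          · have := s'.max'_mem hs'
            simp only [s', Finset.mem_filter, Finset.mem_univ, true_and] at this
            exact this.1
          · have := s'.max'_mem hs'
            simp only [s', Finset.mem_filter, Finset.mem_univ, true_and] at this
            exact this.2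
          · by_contra hne'
            have : x ∈ s' := by simp [s', Bool.eq_true_of_not_eq_false hne', hxq]
            exact absurd (s'.le_max' x this) (not_le.2 hx)
        rw [Fin.lt_def] at hrq
        -- in both occurrences the block is the same
        have key : ∀ (k : ℕ) (hk : ∀ j : Fin n, blk y (k + j) = w j) (τ : ℕ),
            k + (q : ℕ) + 1 = psum y (τ + 1) → ∃ σ, τ = σ + 1 ∧ y (σ + 1) = q - r := by
          intro k hk τ hτ
          have g1 : blk y (k + r) = true := (hk r).trans hr
          obtain ⟨σ, hσ⟩ := blk_true.1 g1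
          have g2 : ∀ x, k + r < x → x < k + q → blk y x = false := by
            intro x h1 h2
            have := hk ⟨x - k, by omega⟩
            rw [show k + (x - k) = x by omega] at this
            rw [this]
            exact hrl _ (by rw [Fin.lt_def]; simp; omega) (by rw [Fin.lt_def]; simp; omega)
          obtain ⟨g3, g4⟩ := blk_next hy hσ (show k + (r : ℕ) < k + q by omega)
            ((hk q).trans hq) g2
          have hm := (psum_strictMono hy).injective
          have : τ + 1 = σ + 2 := hm (by omega)
          exact ⟨σ, by omega, by omega⟩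
        obtain ⟨σ, hσ1, hσ2⟩ := key i hb1 t ht
        obtain ⟨σ', hσ1', hσ2'⟩ := key i' ha1 s hs
        have h7 : σ = σ' := hinj _ _ (by rw [hσ2, hσ2'])
        subst h7
        rw [hσ1] at hyt
        rw [hσ1'] at hsy
        omega
      refine ⟨t, ⟨by omega, ?_⟩, ?_⟩
      · -- n < y (t+1) + y t
        by_contra hle
        push Not at hle
        have hpos := hy t
        have e := psum_succ y t
        have hge : y t ≤ q := by omega
        rcases Nat.eq_zero_or_pos t with rfl | htp
        · have : psum y 0 = 0 := by simp [psum]
          omega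
        · obtain ⟨τ, rfl⟩ : ∃ τ, t = τ + 1 := ⟨t - 1, by omega⟩
          have h8 : blk y (psum y (τ + 1) - 1) = true := by
            have := psum_strictMono hy (show 0 < τ + 1 by omega)
            exact blk_true.2 ⟨τ, by omega⟩
          have h9 : 0 < psum y (τ + 1) := lt_of_le_of_lt (Nat.zero_le _)
            (psum_strictMono hy (show 0 < τ + 1 by omega))
          have h10 := hb1 ⟨psum y (τ + 1) - 1 - i, by omega⟩
          simp only [] at h10
          rw [show i + (psum y (τ + 1) - 1 - i) = psum y (τ + 1) - 1 by omega, h8] at h10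
          rw [hone _ (by rw [Fin.lt_def]; simp; omega)] at h10
          exact absurd h10 (by simp)
      · funext j
        simp only [oneB]
        rw [show n - y (t + 1) = (q : ℕ) by omega]
        by_cases hj : (j : ℕ) = q
        · have : j = q := Fin.ext hj
          rw [this, hq]; simp
        · rcases Nat.lt_or_ge (j : ℕ) q with h | h
          · rw [hone j (by rw [Fin.lt_def]; exact h)]; simp [hj]
          · rw [hql j (by rw [Fin.lt_def]; omega)]; simp [hj]
    · left
      push Not at hw
      funext j
      simpa using hw j
  · rintro (rfl | ⟨t, ⟨h1, h2⟩, rfl⟩)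
    · obtain ⟨t, ht, _⟩ := hLL (n + 1)
      constructor
      · refine mem_snoc.2 ⟨psum y t, fun j => ?_, ?_⟩
        · exact blk_mid hy t _ (by omega) (by have := j.2; omega)
        · exact blk_mid hy t _ (by omega) (by omega)
      · refine mem_snoc.2 ⟨psum y t + y t - 1 - n, fun j => ?_, ?_⟩
        · exact blk_mid hy t _ (by omega) (by have := j.2; omega)
        · exact blk_end hy t _ (by omega)
    · have e := psum_succ y t
      have hpos := hy t
      have hpos1 := hy (t + 1)
      constructor
      · obtain ⟨s, hs1, hs2⟩ := hLL (n + 1)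
        have e' := psum_succ y s
        have hpos2 := hy s
        refine mem_snoc.2 ⟨psum y s + y s - 1 - (n - y (t + 1)), fun j => ?_, ?_⟩
        · have hj := j.2
          simp only [oneB]
          rcases Nat.lt_trichotomy (j : ℕ) (n - y (t + 1)) with h | h | h
          · rw [blk_mid hy s _ (by omega) (by omega)]
            symm; rw [decide_eq_false_iff_not]; omega
          · rw [blk_end hy s _ (by omega)]
            symm; rw [decide_eq_true_iff]; exact h
          · rw [blk_mid hy (s + 1) _ (by omega) (by omega)]
            symm; rw [decide_eq_false_iff_not]; omega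
        · exact blk_mid hy (s + 1) _ (by omega) (by omega)
      · refine mem_snoc.2 ⟨psum y t + y t - 1 - (n - y (t + 1)), fun j => ?_, ?_⟩
        · have hj := j.2
          simp only [oneB]
          rcases Nat.lt_trichotomy (j : ℕ) (n - y (t + 1)) with h | h | h
          · rw [blk_mid hy t _ (by omega) (by omega)]
            symm; rw [decide_eq_false_iff_not]; omega
          · rw [blk_end hy t _ (by omega)]
            symm; rw [decide_eq_true_iff]; exact h
          · rw [blk_mid hy (t + 1) _ (by omega) (by omega)]
            symm; rw [decide_eq_false_iff_not]; omega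
        · exact blk_end hy (t + 1) _ (by omega)

/-- **Complexity of words with distinct blocks.** -/
theorem slope_blk {y : ℕ → ℕ} (hy : ∀ t, 0 < y t) (hinj : ∀ s t, y (s + 1) = y (t + 1) → s = t)
    (hLL : ∀ N, ∃ t, N < y t ∧ N < y (t + 1)) (n : ℕ) :
    complexity (blk y) (n + 1) = complexity (blk y) n + 1 +
      {t | y (t + 1) ≤ n ∧ n < y (t + 1) + y t}.ncard := by
  rw [complexity_succ, RS_blk hy hinj hLL]
  have hI : Set.InjOn (fun t => oneB n (n - y (t + 1)))
      {t | y (t + 1) ≤ n ∧ n < y (t + 1) + y t} := by
    rintro s ⟨h1, h2⟩ t ⟨h3, h4⟩ h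
    have hp := hy (s + 1)
    have := congrFun h ⟨n - y (s + 1), by omega⟩
    simp only [oneB, decide_true] at this
    have := (decide_eq_true_iff.1 this.symm)
    exact hinj _ _ (by omega)
  have hnot : (fun _ => false : Fin n → Bool) ∉
      ((fun t => oneB n (n - y (t + 1))) '' {t | y (t + 1) ≤ n ∧ n < y (t + 1) + y t}) := by
    rintro ⟨t, ⟨h1, h2⟩, h⟩
    have hp := hy (t + 1)
    have := congrFun h ⟨n - y (t + 1), by omega⟩
    simp [oneB] at this
  rw [Set.ncard_insert_of_notMem hnot (Set.toFinite _), hI.ncard_image]
  ring

end Pool.Agent.CF2
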