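import Pool.Agent.CF2.Defs

/-!
# CF2: elementary tools
-/

namespace Pool.Agent.CF2

variable {g : ℕ → ℕ} {old : ℕ → ℕ → Prop} {d : ℕ → ℤ} {lo hi : ℕ}

theorem Weak.bi {i σ j} (h : Weak g i σ j) : Bi g i σ j := by
  rcases h with ⟨⟨t, h1, h2, h3⟩, ⟨t', h1', h2', h3'⟩, -, -⟩ | ⟨⟨t, h1, h2, h3⟩, ⟨t', h1', h2', h3'⟩, -, -⟩
  · exact ⟨⟨t, h1, h2⟩, ⟨t', h1', h2'⟩, ⟨t + 1, h2, h3⟩, ⟨t' + 1, h2', h3'⟩⟩
  · exact ⟨⟨t', h1', h2'⟩, ⟨t, h1, h2⟩, ⟨t + 1, h2, h3⟩, ⟨t' + 1, h2', h3'⟩⟩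

theorem Strong.bi {i σ j} (h : Strong g i σ j) : Bi g i σ j := by
  obtain ⟨⟨t, h1, h2, h3⟩, -, -, ⟨t', h1', h2', h3'⟩⟩ := h
  exact ⟨⟨t, h1, h2⟩, ⟨t', h1', h2'⟩, ⟨t + 1, h2, h3⟩, ⟨t' + 1, h2', h3'⟩⟩

theorem Seg.nil (g : ℕ → ℕ) (t : ℕ) : Seg g t [] := fun k h => by simp at h

theorem Seg.head {t x σ} (h : Seg g t (x :: σ)) : g t = x := by
  have := h 0 (by simp)
  simpa using this

theorem Seg.tail {t x σ} (h : Seg g t (x :: σ)) : Seg g (t + 1) σ := by
  intro k hk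
  have := h (k + 1) (by simp; omega)
  rw [show t + 1 + k = t + (k + 1) by ring, this]
  simp

theorem Seg.last {t x σ} (h : Seg g t (σ ++ [x])) : g (t + σ.length) = x := by
  have := h σ.length (by simp)
  simpa using this

theorem BB_nil {i j} : BB g i [] j ↔ Adj g i j := by
  constructor
  · rintro ⟨t, h1, -, h3⟩
    exact ⟨t, h1, by simpa using h3⟩
  · rintro ⟨t, h1, h3⟩
    exact ⟨t, h1, Seg.nil g _, by simpa using h3⟩

theorem AB_nil {i j} : AB g i [] j ↔ ∃ x, i < x ∧ Adj g x j := by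
  constructor
  · rintro ⟨t, h1, -, h3⟩
    exact ⟨g t, h1, t, rfl, by simpa using h3⟩
  · rintro ⟨x, h1, t, h2, h3⟩
    exact ⟨t, by omega, Seg.nil g _, by simpa using h3⟩

theorem BA_nil {i j} : BA g i [] j ↔ ∃ x, j < x ∧ Adj g i x := by
  constructor
  · rintro ⟨t, h1, -, h3⟩
    exact ⟨g (t + 1), by simpa using h3, t, h1, rfl⟩
  · rintro ⟨x, h1, t, h2, h3⟩
    exact ⟨t, h2, Seg.nil g _, by simp only [List.length_nil, Nat.add_zero]; omega⟩

theorem AA_nil (hgb : GB g) {i j} : AA g i [] j := by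
  obtain ⟨t, h1, h2⟩ := hgb (max i j + 1)
  refine ⟨t, by omega, Seg.nil g _, ?_⟩
  simp only [List.length_nil, Nat.add_zero]
  omega

/-- Two-run words: weak means mutually maximal. -/
theorem weak_iff (hgb : GB g) {i j} :
    Weak g i [] j ↔ Adj g i j ∧ (∀ x, Adj g x j → x ≤ i) ∧ ∀ x, Adj g i x → x ≤ j := by
  unfold Weak
  rw [BB_nil, AB_nil, BA_nil]
  constructor
  · rintro (⟨h1, -, h2, h3⟩ | ⟨-, -, h, -⟩)
    · refine ⟨h1, fun x hx => ?_, fun x hx => ?_⟩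
      · by_contra hc
        exact h2 ⟨x, by omega, hx⟩
      · by_contra hc
        exact h3 ⟨x, by omega, hx⟩
    · exact absurd (AA_nil hgb) h
  · rintro ⟨h1, h2, h3⟩
    refine Or.inl ⟨h1, AA_nil hgb, ?_, ?_⟩
    · rintro ⟨x, hx, hx2⟩
      exact absurd (h2 x hx2) (by omega)
    · rintro ⟨x, hx, hx2⟩
      exact absurd (h3 x hx2) (by omega)

/-- Two-run words: strong means that neither end is maximal. -/
theorem strong_iff (hgb : GB g) {i j} :
    Strong g i [] j ↔ Adj g i j ∧ (∃ x, i < x ∧ Adj g x j) ∧ ∃ x, j < x ∧ Adj g i x := by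
  unfold Strong
  rw [BB_nil, AB_nil, BA_nil]
  constructor
  · rintro ⟨h1, h2, h3, -⟩
    exact ⟨h1, h2, h3⟩
  · rintro ⟨h1, h2, h3⟩
    exact ⟨h1, h2, h3, AA_nil hgb⟩

theorem Uq.weak (hgb : GB g) {a b} (h : Uq g a b) : Weak g a [] b := by
  rw [weak_iff hgb]
  exact ⟨h.adj, fun x hx => (h.inn x hx).le, fun x hx => (h.out x hx).le⟩

theorem Bi.head {i x σ j} (h : Bi g i (x :: σ) j) :
    Adj g i x ∧ ∃ y, i < y ∧ Adj g y x := by
  obtain ⟨t, h1, h2⟩ := h.l1
  obtain ⟨t', h1', h2'⟩ := h.l2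
  exact ⟨⟨t, h1, h2.head⟩, g t', h1', t', rfl, h2'.head⟩

theorem Bi.last {i x σ j} (h : Bi g i (σ ++ [x]) j) :
    Adj g x j ∧ ∃ y, j < y ∧ Adj g x y := by
  obtain ⟨t, h1, h2⟩ := h.r1
  obtain ⟨t', h1', h2'⟩ := h.r2
  simp only [List.length_append, List.length_singleton] at h2 h2'
  exact ⟨⟨t + σ.length, h1.last, by rw [← h2]; congr 1⟩,
    g (t' + (σ.length + 1)), h2', t' + σ.length, h1'.last, rfl⟩

theorem Seg.chain : ∀ {σ : List ℕ} {t : ℕ}, Seg g t σ → List.IsChain (Adj g) σ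
  | [], _, _ => List.IsChain.nil
  | [x], _, _ => List.IsChain.singleton x
  | x :: y :: σ, t, h => by
    refine List.IsChain.cons_cons ⟨t, h.head, h.tail.head⟩ (Seg.chain h.tail)

theorem Seg.mem {σ : List ℕ} {t : ℕ} (h : Seg g t σ) : ∀ x ∈ σ, x ∈ Set.range g := by
  intro x hx
  obtain ⟨k, hk, rfl⟩ := List.mem_iff_getElem.mp hx
  exact ⟨t + k, h k hk⟩

/-- The inner runs of a bispecial word form a path. -/
theorem Bi.chain {i σ j} (h : Bi g i σ j) : List.IsChain (Adj g) σ := by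
  obtain ⟨t, -, h2⟩ := h.l1
  exact h2.chain

theorem Bi.mem {i σ j} (h : Bi g i σ j) : ∀ x ∈ σ, x ∈ Set.range g := by
  obtain ⟨t, -, h2⟩ := h.l1
  exact h2.mem

theorem GB.unb (hgb : GB g) (T B : ℕ) : ∃ t, T ≤ t ∧ B < g t := by
  obtain ⟨t, ht, -⟩ := hgb ((Finset.range T).sup g + B + 1)
  refine ⟨t, ?_, by omega⟩
  by_contra hc
  have := Finset.le_sup (f := g) (Finset.mem_range.mpr (not_le.mp hc))
  omega

/-- A bounded set of values closed under next is not visited. -/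
theorem succ_closed (hgb : GB g) {F : Set ℕ} {B : ℕ} (hB : ∀ x ∈ F, x ≤ B)
    (h : ∀ x ∈ F, ∀ y, Adj g x y → y ∈ F) : ∀ x ∈ F, x ∉ Set.range g := by
  rintro x hx ⟨t, rfl⟩
  have h2 : ∀ k, g (t + k) ∈ F := by
    intro k
    induction k with
    | zero => exact hx
    | succ k ih => exact h _ ih _ ⟨t + k, rfl, rfl⟩
  obtain ⟨s, hs, hs2⟩ := hgb.unb t B
  have h3 := hB _ (h2 (s - t))
  rw [show t + (s - t) = s by omega] at h3
  omega

/-- A set of values closed under previous and without `g 0` is not visited. -/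
theorem pred_closed {F : Set ℕ} (h0 : g 0 ∉ F)
    (h : ∀ x ∈ F, ∀ y, Adj g y x → y ∈ F) : ∀ x ∈ F, x ∉ Set.range g := by
  rintro x hx ⟨t, rfl⟩
  induction t with
  | zero => exact h0 hx
  | succ t ih => exact ih (h _ hx _ ⟨t, rfl, rfl⟩)

theorem Bi_finite (hpos : ∀ t, 0 < g t) (N : ℕ) :
    {w : ℕ × List ℕ × ℕ | Bi g w.1 w.2.1 w.2.2 ∧ w.1 + w.2.1.sum + w.2.2 = N}.Finite := by
  have h1 : {l : List (Fin (N + 1)) | l.length ≤ N}.Finite := List.finite_length_le _ N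
  have h2 := ((Set.finite_le_nat N).prod ((h1.image (List.map Fin.val)).prod
    (Set.finite_le_nat N)))
  refine h2.subset ?_
  rintro ⟨i, σ, j⟩ ⟨hb, hN⟩
  simp only at hb hN
  have hmem : ∀ x ∈ σ, x ≤ N := fun x hx => by
    have := List.le_sum_of_mem hx
    omega
  have hlen : σ.length ≤ σ.sum := by
    have h3 : ∀ x ∈ σ, 1 ≤ x := fun x hx => by
      obtain ⟨t, rfl⟩ := hb.mem x hx
      exact hpos t
    have := List.card_nsmul_le_sum σ 1 h3
    simpa using this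
  refine ⟨show i ≤ N by omega, ⟨σ.pmap (fun x hx => (⟨x, hx⟩ : Fin (N + 1)))
    (fun x hx => Nat.lt_succ_of_le (hmem x hx)), ?_, ?_⟩, show j ≤ N by omega⟩
  · simp only [Set.mem_ofPred_eq, List.length_pmap]
    omega
  · rw [List.map_pmap]
    simp

theorem WS_finite (hpos : ∀ t, 0 < g t) (N : ℕ) : (WS g N).Finite := by
  refine (Bi_finite hpos N).subset ?_
  rintro w ⟨h1, h2⟩
  exact ⟨h1.bi, h2⟩

theorem SS_finite (hpos : ∀ t, 0 < g t) (N : ℕ) : (SS g N).Finite := by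
  refine (Bi_finite hpos N).subset ?_
  rintro w ⟨h1, h2⟩
  exact ⟨h1.bi, h2⟩

/-- Open weak words of level `N`. -/
def Op (g : ℕ → ℕ) (old : ℕ → ℕ → Prop) (N i : ℕ) (σ : List ℕ) (j : ℕ) : Prop :=
  Weak g i σ j ∧ i + σ.sum + j = N ∧ ¬ (σ = [] ∧ old i j)

theorem OW_finite (hpos : ∀ t, 0 < g t) (old : ℕ → ℕ → Prop) (N : ℕ) : (OW g old N).Finite := by
  refine (WS_finite hpos N).subset ?_
  rintro w ⟨h1, h2, -⟩
  exact ⟨h1, h2⟩

theorem exists_op_of_ncard {N : ℕ} (h : 0 < (OW g old N).ncard) : ∃ i σ j, Op g old N i σ j := by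
  obtain ⟨⟨i, σ, j⟩, hw⟩ := Set.nonempty_of_ncard_ne_zero h.ne'
  exact ⟨i, σ, j, hw⟩

theorem ncard_pos_of_op (hpos : ∀ t, 0 < g t) {N i : ℕ} {σ : List ℕ} {j : ℕ}
    (h : Op g old N i σ j) : 0 < (OW g old N).ncard := by
  rw [Set.ncard_pos (OW_finite hpos old N)]
  exact ⟨(i, σ, j), h⟩

theorem exists_strong_of_ncard {N : ℕ} (h : 0 < (SS g N).ncard) :
    ∃ i σ j, Strong g i σ j ∧ i + σ.sum + j = N := by
  obtain ⟨⟨i, σ, j⟩, hw⟩ := Set.nonempty_of_ncard_ne_zero h.ne'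
  exact ⟨i, σ, j, hw⟩

theorem ncard_pos_of_strong (hpos : ∀ t, 0 < g t) {N i : ℕ} {σ : List ℕ} {j : ℕ}
    (h : Strong g i σ j) (hN : i + σ.sum + j = N) : 0 < (SS g N).ncard := by
  rw [Set.ncard_pos (SS_finite hpos N)]
  exact ⟨(i, σ, j), h, hN⟩

theorem no_strong_of_ncard (hpos : ∀ t, 0 < g t) {N : ℕ} (h : (SS g N).ncard = 0) :
    ∀ i σ j, Strong g i σ j → i + σ.sum + j ≠ N := by
  intro i σ j hs hN
  have := ncard_pos_of_strong hpos hs hN
  omega

theorem ncard_eq_zero_of_no_strong {N : ℕ}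
    (h : ∀ i σ j, Strong g i σ j → i + σ.sum + j ≠ N) : (SS g N).ncard = 0 := by
  have : SS g N = ∅ := by
    rw [Set.eq_empty_iff_forall_notMem]
    rintro ⟨i, σ, j⟩ ⟨h1, h2⟩
    exact h i σ j h1 h2
  rw [this, Set.ncard_empty]

theorem ncard_le_one_of_op {N : ℕ} {w : ℕ × List ℕ × ℕ}
    (hw : ∀ i σ j, Op g old N i σ j → (i, σ, j) = w) : (OW g old N).ncard ≤ 1 := by
  have : OW g old N ⊆ {w} := by
    rintro ⟨i, σ, j⟩ h
    exact hw i σ j h
  calc (OW g old N).ncard ≤ ({w} : Set (ℕ × List ℕ × ℕ)).ncard := Set.ncard_le_ncard this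
    _ = 1 := Set.ncard_singleton w

/-- A value at a level without an up needs an open weak word of that level. -/
theorem RLE.val (h : RLE g old d lo hi) {N} (h1 : lo < N) (h2 : N < hi) (hd : d N ≤ 0)
    (hV : N ∈ Set.range g) : ∃ i σ j, Op g old N i σ j := by
  have h3 := h N h1 h2
  rw [if_pos hV] at h3
  exact exists_op_of_ncard (by omega)

/-- A strong word at a level without up needs an open weak word of that level. -/
theorem RLE.str (hpos : ∀ t, 0 < g t) (h : RLE g old d lo hi) {N} (h1 : lo < N) (h2 : N < hi)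
    (hd : d N ≤ 0) {i σ j} (hs : Strong g i σ j) (hN : i + σ.sum + j = N) :
    ∃ i σ j, Op g old N i σ j := by
  have h3 := h N h1 h2
  have h4 := ncard_pos_of_strong hpos hs hN
  refine exists_op_of_ncard ?_
  split_ifs at h3 <;> omega

/-- A down needs an open weak word. -/
theorem RLE.down (h : RLE g old d lo hi) {N} (h1 : lo < N) (h2 : N < hi) (hd : d N < 0) :
    ∃ i σ j, Op g old N i σ j := by
  have h3 := h N h1 h2
  refine exists_op_of_ncard ?_
  split_ifs at h3 <;> omega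

/-- If the open weak word at a down is unique, then nothing else happens there. -/
theorem RLE.down_only (hpos : ∀ t, 0 < g t) (h : RLE g old d lo hi) {N} (h1 : lo < N) (h2 : N < hi)
    (hd : d N = -1) {w : ℕ × List ℕ × ℕ} (hw : ∀ i σ j, Op g old N i σ j → (i, σ, j) = w) :
    N ∉ Set.range g ∧ ∀ i σ j, Strong g i σ j → i + σ.sum + j ≠ N := by
  have h3 := h N h1 h2
  have h4 := ncard_le_one_of_op hw
  by_cases hN : N ∈ Set.range g
  · rw [if_pos hN] at h3
    omega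
  · rw [if_neg hN] at h3
    exact ⟨hN, no_strong_of_ncard hpos (by omega)⟩

/-- The general form of the last statement: if every open weak word of level `N` is `w` and
`d N = 0`, then a value at `N` excludes strong words at `N`, and so on. -/
theorem RLE.zero_only (hpos : ∀ t, 0 < g t) (h : RLE g old d lo hi) {N} (h1 : lo < N) (h2 : N < hi)
    (hd : d N = 0) {w : ℕ × List ℕ × ℕ} (hw : ∀ i σ j, Op g old N i σ j → (i, σ, j) = w)
    (hs : ∀ i σ j, Strong g i σ j → i + σ.sum + j ≠ N) {i σ j} (ho : Op g old N i σ j) :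
    N ∈ Set.range g := by
  have h3 := h N h1 h2
  have h4 := ncard_pos_of_op hpos ho
  have h5 := ncard_eq_zero_of_no_strong hs
  by_contra hN
  rw [if_neg hN] at h3
  omega

/-- An up level without open weak word: either a new value, or one strong word. -/
theorem RLE.up (hpos : ∀ t, 0 < g t) (h : RLE g old d lo hi) {N} (h1 : lo < N) (h2 : N < hi)
    (hd : d N = 1) (hw : ∀ i σ j, ¬ Op g old N i σ j) :
    (N ∈ Set.range g ∧ ∀ i σ j, Strong g i σ j → i + σ.sum + j ≠ N) ∨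
    (N ∉ Set.range g ∧ ∃ i σ j, Strong g i σ j ∧ i + σ.sum + j = N) := by
  have h3 := h N h1 h2
  have h4 : (OW g old N).ncard = 0 := by
    by_contra hc
    obtain ⟨i, σ, j, ho⟩ := exists_op_of_ncard (g := g) (old := old) (N := N) (by omega)
    exact hw i σ j ho
  by_cases hN : N ∈ Set.range g
  · rw [if_pos hN] at h3
    exact Or.inl ⟨hN, no_strong_of_ncard hpos (by omega)⟩
  · rw [if_neg hN] at h3
    exact Or.inr ⟨hN, exists_strong_of_ncard (by omega)⟩

/-- An up level with an open weak word: a new value and a strong word, or two strong words. -/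
theorem RLE.up_weak (hpos : ∀ t, 0 < g t) (h : RLE g old d lo hi) {N} (h1 : lo < N) (h2 : N < hi)
    (hd : d N = 1) {i σ j} (ho : Op g old N i σ j) :
    ∃ i σ j, Strong g i σ j ∧ i + σ.sum + j = N := by
  have h3 := h N h1 h2
  have h4 := ncard_pos_of_op hpos ho
  refine exists_strong_of_ncard ?_
  split_ifs at h3 <;> omega

end Pool.Agent.CF2
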