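import Pool.Agent.CF2.Base

/-!
# The window lemma

Many increases of the slope in a short interval `[G, G + T]` (with slope `2` just before and slope
`2` again at some `n' ≤ 2 G + T`) force the word `a^G b a^G` to occur, when the letters `b = true`
are at distance larger than `M ≥ T`.
-/

namespace Pool.Agent.CF2

open Pool.Agent.Helper79.CF

/-- The factor of length `n` at position `i`. -/
def wd (u : ℕ → Bool) (n i : ℕ) : Fin n → Bool := fun j => u (i + j)

theorem wd_eq_iff {u : ℕ → Bool} {n i j : ℕ} :
    wd u n i = wd u n j ↔ ∀ r < n, u (i + r) = u (j + r) := by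
  constructor
  · intro h r hr
    exact congrFun h ⟨r, hr⟩
  · intro h
    funext r
    exact h r r.2

/-- Left special words. -/
def LS (u : ℕ → Bool) (n : ℕ) : Set (Fin n → Bool) :=
  {w | ∀ c, ∃ i, 1 ≤ i ∧ wd u n i = w ∧ u (i - 1) = c}

theorem mem_RS {u : ℕ → Bool} {n : ℕ} {w : Fin n → Bool} :
    w ∈ RS u n false true ↔ ∀ c, ∃ i, wd u n i = w ∧ u (i + n) = c := by
  rw [base_rs_iff]
  constructor
  · intro h c
    obtain ⟨i, h1, h2⟩ := h c
    exact ⟨i, funext h1, h2⟩
  · intro h c
    obtain ⟨i, h1, h2⟩ := h c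
    exact ⟨i, fun j => congrFun h1 j, h2⟩

theorem LS_prefix {u : ℕ → Bool} {n m i : ℕ} (h : wd u n i ∈ LS u n) (hm : m ≤ n) :
    wd u m i ∈ LS u m := by
  intro c
  obtain ⟨j, h1, h2, h3⟩ := h c
  refine ⟨j, h1, ?_, h3⟩
  rw [wd_eq_iff] at h2 ⊢
  intro r hr
  exact h2 r (by omega)

theorem RS_suffix {u : ℕ → Bool} {n m i : ℕ} (h : wd u n i ∈ RS u n false true) (hm : m ≤ n) :
    wd u m (i + (n - m)) ∈ RS u m false true := by
  rw [mem_RS] at h ⊢
  intro c
  obtain ⟨j, h1, h2⟩ := h c
  refine ⟨j + (n - m), ?_, ?_⟩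
  · rw [wd_eq_iff] at h1 ⊢
    intro r hr
    have := h1 (n - m + r) (by omega)
    rw [add_assoc, add_assoc]
    exact this
  · rw [← h2]; congr 1; omega

/-- From some length on right special words are followed by both letters at positive places. -/
theorem exists_rs_pos (u : ℕ → Bool) : ∃ N0, ∀ n ≥ N0, ∀ w ∈ RS u n false true, ∀ c,
    ∃ i, 1 ≤ i ∧ wd u n i = w ∧ u (i + n) = c := by
  by_cases hrec : ∀ n, ∃ i, 1 ≤ i ∧ wd u n i = wd u n 0
  · refine ⟨0, fun n _ w hw c => ?_⟩
    obtain ⟨i, h1, h2⟩ := mem_RS.1 hw c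
    rcases Nat.eq_zero_or_pos i with rfl | hi
    · obtain ⟨j, hj1, hj2⟩ := hrec (n + 1)
      rw [wd_eq_iff] at hj2
      refine ⟨j, hj1, ?_, ?_⟩
      · rw [← h1, wd_eq_iff]
        intro r hr
        exact hj2 r (by omega)
      · rw [hj2 n (by omega)]
        exact h2
    · exact ⟨i, hi, h1, h2⟩
  · push Not at hrec
    obtain ⟨n0, hn0⟩ := hrec
    refine ⟨n0, fun n hn w hw c => ?_⟩
    obtain ⟨i, h1, h2⟩ := mem_RS.1 hw c
    rcases Nat.eq_zero_or_pos i with rfl | hi
    · exfalso
      obtain ⟨j, h3, h4⟩ := mem_RS.1 hw (!c)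
      have hj : 1 ≤ j := by
        rcases Nat.eq_zero_or_pos j with rfl | hj
        · rw [h2] at h4
          cases c <;> simp at h4
        · exact hj
      apply hn0 j hj
      have := h3.trans h1.symm
      rw [wd_eq_iff] at this ⊢
      intro r hr
      exact this r (by omega)
    · exact ⟨i, hi, h1, h2⟩

/-- The number of left special words is at most the slope plus one. -/
theorem ls_card (u : ℕ → Bool) (n : ℕ) : (LS u n).ncard ≤ (RS u n false true).ncard + 1 := by
  classical
  let E : Set (Fin n → Bool) := {w | ∃ i, 1 ≤ i ∧ wd u n i = w}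
  have hE : (factors u n).ncard ≤ E.ncard + 1 := by
    have hsub : factors u n ⊆ insert (wd u n 0) E := by
      rintro _ ⟨i, rfl⟩
      rcases Nat.eq_zero_or_pos i with rfl | hi
      · left; rfl
      · right; exact ⟨i, hi, rfl⟩
    exact (Set.ncard_le_ncard hsub (Set.toFinite _)).trans (Set.ncard_insert_le _ _)
  have hc : ∀ w : Fin n → Bool, w ∈ E → ∃ c,
      (Fin.cons c w : Fin (n + 1) → Bool) ∈ factors u (n + 1) := by
    rintro _ ⟨i, hi, rfl⟩
    refine ⟨u (i - 1), i - 1, ?_⟩
    funext j
    refine Fin.cases ?_ (fun j => ?_) j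
    · simp
    · simp only [Fin.val_succ, Fin.cons_succ, wd]
      congr 1; omega
  choose! c hc using hc
  let f : (Fin n → Bool) → (Fin (n + 1) → Bool) := fun z => Fin.cons (c z) z
  let g : (Fin n → Bool) → (Fin (n + 1) → Bool) := fun z => Fin.cons (!(c z)) z
  have tail : ∀ (x y : Bool) (z z' : Fin n → Bool),
      (Fin.cons x z : Fin (n + 1) → Bool) = Fin.cons y z' → z = z' := by
    intro x y z z' h
    have := congrArg (fun x : Fin (n + 1) → Bool => fun j : Fin n => x j.succ) h
    simpa using this
  have hf : Function.Injective f := fun z z' h => tail _ _ _ _ h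
  have hg : Function.Injective g := fun z z' h => tail _ _ _ _ h
  have hsub : f '' E ∪ g '' (LS u n) ⊆ factors u (n + 1) := by
    rintro _ (⟨w, hw, rfl⟩ | ⟨w, hw, rfl⟩)
    · exact hc w hw
    · obtain ⟨i, h1, h2, h3⟩ := hw (!(c w))
      refine ⟨i - 1, ?_⟩
      funext j
      refine Fin.cases ?_ (fun j => ?_) j
      · simp only [g, Fin.cons_zero, Fin.val_zero, Nat.add_zero]
        exact h3
      · simp only [g, Fin.cons_succ, Fin.val_succ]
        rw [← h2]
        simp only [wd]
        congr 1; omega
  have hdisj : Disjoint (f '' E) (g '' (LS u n)) := by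
    rw [Set.disjoint_left]
    rintro _ ⟨w, _, rfl⟩ ⟨w', _, h⟩
    have e := tail _ _ _ _ h
    subst e
    have := congrFun h 0
    simp only [f, g, Fin.cons_zero] at this
    revert this
    cases c w' <;> simp
  have h1 := Set.ncard_le_ncard hsub (Set.toFinite _)
  rw [Set.ncard_union_eq hdisj (Set.toFinite _) (Set.toFinite _),
    Set.ncard_image_of_injective _ hf, Set.ncard_image_of_injective _ hg] at h1
  have h2 := complexity_succ u n
  unfold complexity at h2
  omega

/-- An increase of the slope gives a strong word. -/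
theorem exists_strong {u : ℕ → Bool} {n : ℕ}
    (h : (RS u n false true).ncard < (RS u (n + 1) false true).ncard) :
    ∃ w : Fin n → Bool, ∀ c, (Fin.cons c w : Fin (n + 1) → Bool) ∈ RS u (n + 1) false true := by
  by_contra hno
  push Not at hno
  apply absurd h
  rw [not_lt]
  apply Set.ncard_le_ncard_of_injOn (fun w : Fin (n + 1) → Bool => fun j : Fin n => w j.succ)
    (fun w hw => base_rs_suffix hw)
  · intro w hw w' hw' he
    have h1 := base_cons_tail w
    have h2 := base_cons_tail w'
    have he' : (fun j : Fin n => w j.succ) = fun j => w' j.succ := he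
    rw [← he'] at h2
    obtain ⟨c, hc⟩ := hno (fun j : Fin n => w j.succ)
    have k1 : w 0 = !c := by
      cases h3 : w 0 <;> cases c <;> simp
      all_goals (rw [h3] at h1; rw [← h1] at hc; exact hc hw)
    have k2 : w' 0 = !c := by
      cases h3 : w' 0 <;> cases c <;> simp
      all_goals (rw [h3] at h2; rw [← h2] at hc; exact hc hw')
    rw [h1, h2, k1, k2]

/-- Both left extensions of `w` (length `n`, strong) : `w` is left and right special. -/
theorem strong_bisp {u : ℕ → Bool} {n : ℕ} {w : Fin n → Bool}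
    (h : ∀ c, (Fin.cons c w : Fin (n + 1) → Bool) ∈ RS u (n + 1) false true) :
    w ∈ LS u n ∧ w ∈ RS u n false true := by
  constructor
  · intro c
    obtain ⟨i, h1, _⟩ := mem_RS.1 (h c) true
    refine ⟨i + 1, by omega, ?_, ?_⟩
    · funext j
      have := congrFun h1 j.succ
      rw [Fin.cons_succ] at this
      rw [← this]
      simp only [wd, Fin.val_succ]
      congr 1; omega
    · have := congrFun h1 0
      simpa [wd] using this
  · have := base_rs_suffix (h true)
    simpa using this

/-! ### Words with far apart letters `b = true` -/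

/-- Letters `true` are at distance larger than `M`. -/
def Far (u : ℕ → Bool) (M : ℕ) : Prop := ∀ i j, i < j → u i = true → u j = true → i + M < j

theorem head_false {u : ℕ → Bool} {M n i r : ℕ} (hM : Far u M) (h : wd u n i ∈ LS u n)
    (hr : r < M) (hn : r < n) : u (i + r) = false := by
  rw [Bool.eq_false_iff]
  intro ht
  obtain ⟨j, h1, h2, h3⟩ := h true
  rw [wd_eq_iff] at h2
  have h4 := h2 r hn
  rw [ht] at h4
  have := hM (j - 1) (j + r) (by omega) h3 h4
  omega

theorem tail_false {u : ℕ → Bool} {M n i r : ℕ} (hM : Far u M)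
    (h : wd u n i ∈ RS u n false true) (hr : n ≤ r + M) (hn : r < n) : u (i + r) = false := by
  rw [Bool.eq_false_iff]
  intro ht
  obtain ⟨j, h2, h3⟩ := mem_RS.1 h true
  rw [wd_eq_iff] at h2
  have h4 := h2 r hn
  rw [ht] at h4
  have := hM (j + r) (j + n) (by omega) h4 h3
  omega

/-- Two bispecial words of different lengths with the same prefix and suffix of length `G` are
powers of `a`. -/
theorem pow_of_type {u : ℕ → Bool} {M G T t t' i i' : ℕ} (hM : Far u M) (hT : T ≤ M)
    (hG : 2 * T ≤ G) (htt : t < t') (ht : t' ≤ T)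
    (hL : wd u (G + t) i ∈ LS u (G + t)) (hR : wd u (G + t) i ∈ RS u (G + t) false true)
    (hR' : wd u (G + t') i' ∈ RS u (G + t') false true)
    (hP : ∀ r < G, u (i + r) = u (i' + r)) (hQ : ∀ r < G, u (i + t + r) = u (i' + t' + r)) :
    (∀ r < G + t, u (i + r) = false) ∧ ∀ r < G + t', u (i' + r) = false := by
  have hA : ∀ k < G, u (i + k) = false := by
    intro k hk
    rcases Nat.lt_or_ge k t with hkt | hkt
    · exact head_false hM hL (by omega) (by omega)
    · rw [Bool.eq_false_iff]
      intro hb
      rcases Nat.lt_or_ge (k + (t' - t)) G with h1 | h1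
      · have h2 := hQ (k - t) (by omega)
        rw [show i + t + (k - t) = i + k by omega,
          show i' + t' + (k - t) = i' + (k + (t' - t)) by omega, ← hP _ h1, hb] at h2
        have := hM _ _ (by omega) hb h2.symm
        omega
      · have h2 := hQ (k - t') (by omega)
        rw [show i' + t' + (k - t') = i' + k by omega, ← hP _ hk, hb] at h2
        have := hM _ _ (by omega) h2 hb
        omega
  refine ⟨fun r hr => ?_, fun r hr => ?_⟩
  · rcases Nat.lt_or_ge r G with h | h
    · exact hA r h
    · exact tail_false hM hR (by omega) hr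
  · rcases Nat.lt_or_ge r G with h | h
    · rw [← hP r h]
      exact hA r h
    · exact tail_false hM hR' (by omega) hr

/-- `b a^y` is right special. -/
def RSB (u : ℕ → Bool) (y : ℕ) : Prop :=
  ∀ c, ∃ i, u i = true ∧ (∀ r < y, u (i + 1 + r) = false) ∧ u (i + 1 + y) = c

/-- In a window all increases but at most six come from `b a^y`. -/
theorem window_strong {u : ℕ → Bool} {M G T : ℕ} (hM : Far u M) (hT : T ≤ M) (hG : 2 * T ≤ G)
    (h2 : (RS u G false true).ncard = 2) (S : Finset ℕ)
    (hS : ∀ y ∈ S, G ≤ y ∧ y ≤ G + T ∧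
      (RS u y false true).ncard < (RS u (y + 1) false true).ncard)
    (hno : ∀ y ∈ S, ¬ RSB u y) : S.card ≤ 6 := by
  classical
  have hex : ∀ y ∈ S, ∃ i, wd u y i ∈ LS u y ∧ wd u y i ∈ RS u y false true ∧
      ∃ r < y, u (i + r) = true := by
    intro y hy
    obtain ⟨w, hw⟩ := exists_strong (hS y hy).2.2
    obtain ⟨h1, h3⟩ := strong_bisp hw
    obtain ⟨i, hi, _⟩ := mem_RS.1 h3 true
    refine ⟨i, by rw [hi]; exact h1, by rw [hi]; exact h3, ?_⟩
    by_contra hall
    push Not at hall
    apply hno y hy
    intro c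
    obtain ⟨j, hj, hj2⟩ := mem_RS.1 (hw true) c
    refine ⟨j, ?_, fun r hr => ?_, ?_⟩
    · have := congrFun hj 0
      simpa [wd] using this
    · have h4 := congrFun hj (Fin.succ ⟨r, hr⟩)
      rw [Fin.cons_succ, ← hi] at h4
      have h5 : u (i + r) = false := Bool.eq_false_iff.2 (hall r hr)
      simp only [wd, Fin.val_succ] at h4
      rw [← h5, ← h4]; congr 1; omega
    · rw [← hj2]; congr 1; omega
  choose! p hp1 hp2 hp3 using hex
  let L : Finset (Fin G → Bool) := (Set.toFinite (LS u G)).toFinset
  let R : Finset (Fin G → Bool) := (Set.toFinite (RS u G false true)).toFinset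
  have hL : L.card ≤ 3 := by
    have := ls_card u G
    rw [h2, Set.ncard_eq_toFinset_card _ (Set.toFinite _)] at this
    exact this
  have hR : R.card = 2 := by
    rw [Set.ncard_eq_toFinset_card _ (Set.toFinite _)] at h2
    exact h2
  have hinj : S.card ≤ (L ×ˢ R).card := by
    apply Finset.card_le_card_of_injOn (fun y => (wd u G (p y), wd u G (p y + (y - G))))
    · intro y hy
      have hy' := hS y hy
      simp only [Finset.coe_product, Set.mem_prod, Finset.mem_coe, L, R, Set.Finite.mem_toFinset]
      exact ⟨LS_prefix (hp1 y hy) hy'.1, RS_suffix (hp2 y hy) hy'.1⟩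
    · have key : ∀ y ∈ S, ∀ y' ∈ S, y < y' → wd u G (p y) = wd u G (p y') →
          wd u G (p y + (y - G)) = wd u G (p y' + (y' - G)) → False := by
        intro y hy y' hy' hlt e1 e2
        have k := hS y hy
        have k' := hS y' hy'
        rw [wd_eq_iff] at e1 e2
        have a1 := hp1 y hy
        have a2 := hp2 y hy
        have a3 := hp2 y' hy'
        obtain ⟨r, hr, hb⟩ := hp3 y hy
        have ey : G + (y - G) = y := by omega
        have ey' : G + (y' - G) = y' := by omega
        rw [← ey] at a1 a2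
        rw [← ey'] at a3
        rw [ey] at a1 a2
        rw [ey'] at a3
        have := (pow_of_type (T := T) (t := y - G) (t' := y' - G) hM hT hG (by omega) (by omega)
          (by rw [ey]; exact a1) (by rw [ey]; exact a2) (by rw [ey']; exact a3) e1 e2).1 r
          (by omega)
        rw [hb] at this
        simp at this
      intro y hy y' hy' he
      simp only [Prod.mk.injEq] at he
      rcases lt_trichotomy y y' with h | h | h
      · exact (key y hy y' hy' h he.1 he.2).elim
      · exact h
      · exact (key y' hy' y hy h he.1.symm he.2.symm).elim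
  rw [Finset.card_product, hR] at hinj
  omega

/-- Some right special word of length `l + 1 + y` ends in `b a^y`. -/
def EE (u : ℕ → Bool) (y l : ℕ) : Prop :=
  ∃ i, wd u (l + 1 + y) i ∈ RS u (l + 1 + y) false true ∧ u (i + l) = true ∧
    ∀ r < y, u (i + l + 1 + r) = false

theorem EE_zero {u : ℕ → Bool} {y : ℕ} (h : RSB u y) : EE u y 0 := by
  obtain ⟨i, h1, h2, h3⟩ := h true
  refine ⟨i, ?_, by simpa using h1, fun r hr => by rw [← h2 r hr]⟩
  rw [mem_RS]
  intro c
  obtain ⟨j, k1, k2, k3⟩ := h c
  refine ⟨j, ?_, by rw [← k3]; congr 1; omega⟩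
  rw [wd_eq_iff]
  intro r hr
  rcases Nat.eq_zero_or_pos r with rfl | h0
  · rw [add_zero, add_zero, k1, h1]
  · have e1 := k2 (r - 1) (by omega)
    have e2 := h2 (r - 1) (by omega)
    rw [show j + 1 + (r - 1) = j + r by omega] at e1
    rw [show i + 1 + (r - 1) = i + r by omega] at e2
    rw [e1, e2]

theorem nat_step {P : ℕ → Prop} {m : ℕ} (h0 : P 0) (hm : ¬ P m) :
    ∃ l < m, P l ∧ ¬ P (l + 1) := by
  induction m with
  | zero => exact absurd h0 hm
  | succ m ih =>
    by_cases h : P m
    · exact ⟨m, by omega, h, hm⟩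
    · obtain ⟨l, h1, h2⟩ := ih h
      exact ⟨l, by omega, h2⟩

theorem pow_RS {u : ℕ → Bool} (hP1 : ∀ N, ∃ i, ∀ r < N, u (i + r) = false)
    (hinf : ∀ N, ∃ i, N ≤ i ∧ u i = true) (n : ℕ) : (fun _ => false) ∈ RS u n false true := by
  classical
  rw [mem_RS]
  intro c
  obtain ⟨i, hi⟩ := hP1 (n + 1)
  cases c
  · exact ⟨i, funext fun r => hi r (by have := r.2; omega), hi n (by omega)⟩
  · have hex : ∃ k, u (i + k) = true := by
      obtain ⟨j, h1, h2⟩ := hinf i
      exact ⟨j - i, by rw [← h2]; congr 1; omega⟩
    have h1 := Nat.find_spec hex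
    have h2 : ∀ k < Nat.find hex, u (i + k) = false := fun k hk =>
      Bool.eq_false_iff.2 (Nat.find_min hex hk)
    have h3 : n < Nat.find hex := by
      by_contra hlt
      rw [hi _ (by omega)] at h1
      simp at h1
    refine ⟨i + (Nat.find hex - n), ?_, (congrArg u (by omega)).trans h1⟩
    funext r
    have := r.2
    rw [← h2 (Nat.find hex - n + r) (by omega)]
    simp only [wd]
    congr 1; omega

/-- **Window lemma.** -/
theorem window_gb {u : ℕ → Bool} {M G T n' : ℕ} (hM : Far u M) (hT : T ≤ M) (hG : 2 * T ≤ G)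
    (h2 : (RS u G false true).ncard = 2) (hn2 : (RS u n' false true).ncard = 2)
    (hpos : ∀ n ≥ G, ∀ w ∈ RS u n false true, ∀ c,
      ∃ i, 1 ≤ i ∧ wd u n i = w ∧ u (i + n) = c)
    (S : Finset ℕ) (hS : ∀ y ∈ S, G ≤ y ∧ y + 1 ≤ n') (hn' : n' ≤ 2 * G + T)
    (hBA : ∀ y ∈ S, RSB u y) (hP1 : ∀ N, ∃ i, ∀ r < N, u (i + r) = false)
    (hinf : ∀ N, ∃ i, N ≤ i ∧ u i = true)
    (hno : ¬ ∃ i, (∀ r < G, u (i + r) = false) ∧ u (i + G) = true ∧
      ∀ r < G, u (i + G + 1 + r) = false) : S.card ≤ 13 := by
  classical
  -- at most one `y` reaches the length `n'`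
  have hone : ∀ y ∈ S, ∀ y' ∈ S, EE u y (n' - 1 - y) → EE u y' (n' - 1 - y') → y = y' := by
    have key : ∀ y ∈ S, ∀ y' ∈ S, EE u y (n' - 1 - y) → EE u y' (n' - 1 - y') → ¬ y < y' := by
      intro y hy y' hy' h h' hlt
      obtain ⟨i, h3, h4, h5⟩ := h
      obtain ⟨i', h3', h4', h5'⟩ := h'
      have k := (hS y hy).2
      have k' := (hS y' hy').2
      rw [show n' - 1 - y + 1 + y = n' by omega] at h3
      rw [show n' - 1 - y' + 1 + y' = n' by omega] at h3'
      have h6 := pow_RS hP1 hinf n'
      have hcard : ({wd u n' i, wd u n' i', fun _ => false} : Set (Fin n' → Bool)).ncard = 3 := by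
        rw [Set.ncard_eq_three]
        refine ⟨_, _, _, ?_, ?_, ?_, rfl⟩
        · intro he
          have := congrFun he ⟨n' - 1 - y, by omega⟩
          simp only [wd] at this
          rw [h4] at this
          have h7 := h5' (n' - 1 - y - (n' - 1 - y') - 1) (by omega)
          rw [show i' + (n' - 1 - y') + 1 + (n' - 1 - y - (n' - 1 - y') - 1) =
            i' + (n' - 1 - y) by omega, ← this] at h7
          simp at h7
        · intro he
          have := congrFun he ⟨n' - 1 - y, by omega⟩
          simp only [wd] at this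
          rw [h4] at this
          simp at this
        · intro he
          have := congrFun he ⟨n' - 1 - y', by omega⟩
          simp only [wd] at this
          rw [h4'] at this
          simp at this
      have hsub : ({wd u n' i, wd u n' i', fun _ => false} : Set (Fin n' → Bool)) ⊆
          RS u n' false true := by
        rintro w (rfl | rfl | h)
        · exact h3
        · exact h3'
        · rw [Set.mem_singleton_iff] at h
          rw [h]
          exact h6
      have := Set.ncard_le_ncard hsub (Set.toFinite _)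
      omega
    intro y hy y' hy' h h'
    have k1 := key y hy y' hy' h h'
    have k2 := key y' hy' y hy h' h
    omega
  -- the remaining values
  set Y : Finset ℕ := S.filter fun y => ¬ EE u y (n' - 1 - y) with hY
  have hSY : S.card ≤ Y.card + 1 := by
    have h : (S.filter fun y => EE u y (n' - 1 - y)).card + Y.card = S.card := by
      rw [hY]
      exact Finset.card_filter_add_card_filter_not _
    have h1 : (S.filter fun y => EE u y (n' - 1 - y)).card ≤ 1 := by
      rw [Finset.card_le_one]
      intro y hy y' hy'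
      rw [Finset.mem_filter] at hy hy'
      exact hone y hy.1 y' hy'.1 hy.2 hy'.2
    omega
  have hYS : ∀ y ∈ Y, y ∈ S := fun y hy => (Finset.mem_filter.1 hy).1
  -- the data
  have hdata : ∀ y ∈ Y, ∃ l j0 j1, l + 2 + y ≤ n' ∧ 1 ≤ j0 ∧ 1 ≤ j1 ∧
      wd u (l + 1 + y) j0 = wd u (l + 1 + y) j1 ∧ u (j0 + (l + 1 + y)) = false ∧
      u (j1 + (l + 1 + y)) = true ∧ u (j0 - 1) ≠ u (j1 - 1) ∧ u (j0 + l) = true ∧
      (∀ r < y, u (j0 + l + 1 + r) = false) ∧ ¬ EE u y (l + 1) := by
    intro y hy
    rw [hY, Finset.mem_filter] at hy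
    have k := hS y hy.1
    obtain ⟨l, hl, h3, h4⟩ := nat_step (P := fun l => EE u y l) (EE_zero (hBA y hy.1)) hy.2
    obtain ⟨i, hi1, hi2, hi3⟩ := h3
    obtain ⟨j0, a1, a2, a3⟩ := hpos (l + 1 + y) (by omega) _ hi1 false
    obtain ⟨j1, b1, b2, b3⟩ := hpos (l + 1 + y) (by omega) _ hi1 true
    have a2' := wd_eq_iff.1 a2
    have e0 : u (j0 + l) = true := by rw [← hi2]; exact a2' l (by omega)
    have e1 : ∀ r < y, u (j0 + l + 1 + r) = false := by
      intro r hr
      rw [← hi3 r hr]
      have := a2' (l + 1 + r) (by omega)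
      rw [show j0 + (l + 1 + r) = j0 + l + 1 + r by omega,
        show i + (l + 1 + r) = i + l + 1 + r by omega] at this
      exact this
    refine ⟨l, j0, j1, by omega, a1, b1, a2.trans b2.symm, a3, b3, ?_, e0, e1, h4⟩
    intro he
    apply h4
    have a4 := wd_eq_iff.1 (a2.trans b2.symm)
    refine ⟨j0 - 1, ?_, by rw [← e0]; congr 1; omega, fun r hr => by
      rw [← e1 r hr]; congr 1; omega⟩
    rw [mem_RS]
    intro c
    cases c
    · exact ⟨j0 - 1, rfl, by rw [← a3]; congr 1; omega⟩
    · refine ⟨j1 - 1, ?_, by rw [← b3]; congr 1; omega⟩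
      rw [wd_eq_iff]
      intro r hr
      rcases Nat.eq_zero_or_pos r with rfl | h0
      · exact he.symm
      · have := a4 (r - 1) (by omega)
        rw [show j0 + (r - 1) = j0 - 1 + r by omega, show j1 + (r - 1) = j1 - 1 + r by omega]
          at this
        exact this.symm
  choose! l j0 j1 d0 d1 d2 d3 d4 d5 d6 d7 d8 d9 using hdata
  -- left special prefixes
  have hLS : ∀ y ∈ Y, wd u (l y + 1 + y) (j0 y) ∈ LS u (l y + 1 + y) := by
    intro y hy c
    by_cases hc : u (j0 y - 1) = c
    · exact ⟨j0 y, d1 y hy, rfl, hc⟩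
    · refine ⟨j1 y, d2 y hy, (d3 y hy).symm, ?_⟩
      have := d6 y hy
      revert hc this
      generalize u (j0 y - 1) = e
      generalize u (j1 y - 1) = e'
      cases e <;> cases e' <;> cases c <;> simp
  -- different values have different prefixes
  have hF2 : ∀ y ∈ Y, ∀ y' ∈ Y, y < y' → l y = l y' →
      (∀ r < l y, u (j0 y + r) = u (j0 y' + r)) → False := by
    intro y hy y' hy' hlt hl hr
    -- an occurrence of `w_{y'}` preceded by the same letter as `j1 y`
    obtain ⟨j, hj1, hj2, hj3⟩ := hLS y' hy' (u (j1 y - 1))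
    have e1 := wd_eq_iff.1 hj2
    have e3 := wd_eq_iff.1 (d3 y hy)
    -- the word at `j` starts with `w_y a`
    have f1 : ∀ r < l y + 1 + y, u (j + r) = u (j0 y + r) := by
      intro r h
      rcases lt_trichotomy r (l y) with h1 | h1 | h1
      · rw [e1 r (by omega), hr r h1]
      · rw [e1 r (by omega), h1, d7 y hy, hl, d7 y' hy']
      · have g1 := d8 y hy (r - l y - 1) (by omega)
        have g2 := d8 y' hy' (r - l y - 1) (by omega)
        rw [show j0 y + l y + 1 + (r - l y - 1) = j0 y + r by omega] at g1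
        rw [show j0 y' + l y' + 1 + (r - l y - 1) = j0 y' + r by omega] at g2
        rw [e1 r (by omega), g1, g2]
    have f2 : u (j + (l y + 1 + y)) = false := by
      rw [e1 _ (by omega)]
      have g2 := d8 y' hy' y (by omega)
      rw [← g2]; congr 1; omega
    apply d9 y hy
    refine ⟨j - 1, ?_, ?_, fun r hr => ?_⟩
    · rw [mem_RS]
      intro c
      cases c
      · exact ⟨j - 1, rfl, by rw [← f2]; congr 1; omega⟩
      · refine ⟨j1 y - 1, ?_, by rw [← d5 y hy]; congr 1; have := d2 y hy; omega⟩
        rw [wd_eq_iff]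
        intro r hr
        have := d2 y hy
        rcases Nat.eq_zero_or_pos r with rfl | h0
        · exact hj3.symm
        · have g1 := e3 (r - 1) (by omega)
          have g2 := f1 (r - 1) (by omega)
          rw [show j1 y - 1 + r = j1 y + (r - 1) by omega, show j - 1 + r = j + (r - 1) by omega,
            ← g1, g2]
    · have := f1 (l y) (by omega)
      rw [d7 y hy] at this
      rw [← this]; congr 1; omega
    · have := f1 (l y + 1 + r) (by omega)
      rw [show j0 y + (l y + 1 + r) = j0 y + l y + 1 + r by omega, d8 y hy r hr] at this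
      rw [← this]; congr 1; omega
  -- long prefixes end in `a`s
  have hF6 : ∀ y ∈ Y, ∀ k, G ≤ k → k < l y → u (j0 y + k) = false := by
    intro y hy k h1 h3
    rw [Bool.eq_false_iff]
    intro hb
    have := hM _ _ (by omega) hb (d7 y hy)
    have := d0 y hy
    have := hS y (hYS y hy)
    omega
  have hF4 : ∀ y ∈ Y, ∃ k < G, u (j0 y + k) = true := by
    intro y hy
    by_contra hall
    push Not at hall
    have h3 : ∀ k < l y, u (j0 y + k) = false := by
      intro k hk
      rcases Nat.lt_or_ge k G with h | h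
      · exact Bool.eq_false_iff.2 (hall k h)
      · exact hF6 y hy k h hk
    have h4 : G ≤ l y := by
      by_contra hlt
      exact hall (l y) (by omega) (d7 y hy)
    have k := hS y (hYS y hy)
    apply hno
    refine ⟨j0 y + (l y - G), fun r hr => ?_, ?_, fun r hr => ?_⟩
    · rw [← h3 (l y - G + r) (by omega)]; congr 1; omega
    · rw [← d7 y hy]; congr 1; omega
    · rw [← d8 y hy r (by omega)]; congr 1; omega
  -- short prefixes
  have hF5 : ∀ y ∈ Y, ∀ y' ∈ Y, wd u G (j0 y) = wd u G (j0 y') → l y < G → l y' < G →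
      ¬ l y < l y' := by
    intro y hy y' hy' hP h1 h3 hlt
    rw [wd_eq_iff] at hP
    have e1 := hP (l y') h3
    rw [d7 y' hy'] at e1
    have k := hS y (hYS y hy)
    have e2 := d8 y hy (l y' - l y - 1) (by omega)
    rw [show j0 y + l y + 1 + (l y' - l y - 1) = j0 y + l y' by omega, e1] at e2
    simp at e2
  have hF5' : ∀ y ∈ Y, ∀ y' ∈ Y, wd u G (j0 y) = wd u G (j0 y') → l y < G → l y' < G →
      y = y' := by
    intro y hy y' hy' hP h1 h3
    have e1 := hF5 y hy y' hy' hP h1 h3
    have e2 := hF5 y' hy' y hy hP.symm h3 h1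
    have e3 : l y = l y' := by omega
    have hP' := wd_eq_iff.1 hP
    rcases lt_trichotomy y y' with h | h | h
    · exact (hF2 y hy y' hy' h e3 fun r hr => hP' r (by omega)).elim
    · exact h
    · exact (hF2 y' hy' y hy h e3.symm fun r hr => (hP' r (by omega)).symm).elim
  have hF6' : ∀ y ∈ Y, ∀ y' ∈ Y, wd u G (j0 y) = wd u G (j0 y') → G ≤ l y → l y = l y' →
      y = y' := by
    intro y hy y' hy' hP h1 e3
    have hP' := wd_eq_iff.1 hP
    have hall : ∀ r < l y, u (j0 y + r) = u (j0 y' + r) := by
      intro r hr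
      rcases Nat.lt_or_ge r G with h | h
      · exact hP' r h
      · rw [hF6 y hy r h hr, hF6 y' hy' r h (by omega)]
    rcases lt_trichotomy y y' with h | h | h
    · exact (hF2 y hy y' hy' h e3 hall).elim
    · exact h
    · exact (hF2 y' hy' y hy h e3.symm fun r hr => (hall r (by omega)).symm).elim
  have hF7 : ∀ y ∈ Y, ∀ y' ∈ Y, wd u G (j0 y) = wd u G (j0 y') → G ≤ l y → l y < l y' →
      wd u (l y) (j0 y) ∈ RS u (l y) false true := by
    intro y hy y' hy' hP h1 hlt
    have hP' := wd_eq_iff.1 hP
    rw [mem_RS]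
    intro c
    cases c
    · refine ⟨j0 y', ?_, hF6 y' hy' _ h1 hlt⟩
      rw [wd_eq_iff]
      intro r hr
      rcases Nat.lt_or_ge r G with h | h
      · exact (hP' r h).symm
      · rw [hF6 y hy r h hr, hF6 y' hy' r h (by omega)]
    · exact ⟨j0 y, rfl, d7 y hy⟩
  let L : Finset (Fin G → Bool) := (Set.toFinite (LS u G)).toFinset
  let R : Finset (Fin G → Bool) := (Set.toFinite (RS u G false true)).toFinset
  have hL : L.card ≤ 3 := by
    have := ls_card u G
    rw [h2, Set.ncard_eq_toFinset_card _ (Set.toFinite _)] at this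
    exact this
  have hR : R.card = 2 := by
    rw [Set.ncard_eq_toFinset_card _ (Set.toFinite _)] at h2
    exact h2
  have hfib : ∀ P ∈ L, (Y.filter fun y => wd u G (j0 y) = P).card ≤ 4 := by
    intro P _
    set A := Y.filter fun y => wd u G (j0 y) = P with hA
    have hAY : ∀ y ∈ A, y ∈ Y ∧ wd u G (j0 y) = P := fun y hy => Finset.mem_filter.1 hy
    have hsplit := Finset.card_filter_add_card_filter_not (s := A) (fun y => l y < G)
    have h1 : (A.filter fun y => l y < G).card ≤ 1 := by
      rw [Finset.card_le_one]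
      intro y hy y' hy'
      rw [Finset.mem_filter] at hy hy'
      have e := hAY y hy.1
      have e' := hAY y' hy'.1
      exact hF5' y e.1 y' e'.1 (e.2.trans e'.2.symm) hy.2 hy'.2
    have h3 : (A.filter fun y => ¬ l y < G).card ≤ 3 := by
      set B := A.filter fun y => ¬ l y < G with hB
      have hBA' : ∀ y ∈ B, y ∈ Y ∧ wd u G (j0 y) = P ∧ G ≤ l y := by
        intro y hy
        rw [hB, Finset.mem_filter] at hy
        exact ⟨(hAY y hy.1).1, (hAY y hy.1).2, by omega⟩
      rcases B.eq_empty_or_nonempty with h0 | h0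
      · rw [h0]; simp
      obtain ⟨m, hm, hmax⟩ := Finset.exists_max_image B l h0
      have hcard : (B.erase m).card ≤ R.card := by
        apply Finset.card_le_card_of_injOn (fun y => wd u G (j0 y + (l y - G)))
        · intro y hy
          rw [Finset.mem_coe, Finset.mem_erase] at hy
          have e := hBA' y hy.2
          have e' := hBA' m hm
          simp only [Finset.mem_coe, R, Set.Finite.mem_toFinset]
          have hle := hmax y hy.2
          have hne : l y ≠ l m := fun he => hy.1
            (hF6' y e.1 m e'.1 (e.2.1.trans e'.2.1.symm) e.2.2 he)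
          exact RS_suffix (hF7 y e.1 m e'.1 (e.2.1.trans e'.2.1.symm) e.2.2 (by omega)) e.2.2
        · have key : ∀ y ∈ B.erase m, ∀ y' ∈ B.erase m, l y < l y' →
              wd u G (j0 y + (l y - G)) = wd u G (j0 y' + (l y' - G)) → False := by
            intro y hy y' hy' hlt e2
            rw [Finset.mem_erase] at hy hy'
            have e := hBA' y hy.2
            have e' := hBA' y' hy'.2
            have em := hBA' m hm
            have hle' := hmax y' hy'.2
            have hne' : l y' ≠ l m := fun he => hy'.1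
              (hF6' y' e'.1 m em.1 (e'.2.1.trans em.2.1.symm) e'.2.2 he)
            have r1 := hF7 y e.1 m em.1 (e.2.1.trans em.2.1.symm) e.2.2 (by omega)
            have r2 := hF7 y' e'.1 m em.1 (e'.2.1.trans em.2.1.symm) e'.2.2 (by omega)
            have l1 : wd u (l y) (j0 y) ∈ LS u (l y) := LS_prefix (hLS y e.1) (by omega)
            have k := hS y (hYS y e.1)
            have k' := hS y' (hYS y' e'.1)
            have k0 := d0 y e.1
            have k0' := d0 y' e'.1
            obtain ⟨r, hr, hb⟩ := hF4 y e.1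
            have ey : G + (l y - G) = l y := by omega
            have ey' : G + (l y' - G) = l y' := by omega
            have := (pow_of_type (T := T) (t := l y - G) (t' := l y' - G) hM hT hG (by omega)
              (by omega) (by rw [ey]; exact l1) (by rw [ey]; exact r1) (by rw [ey']; exact r2)
              (wd_eq_iff.1 (e.2.1.trans e'.2.1.symm)) (wd_eq_iff.1 e2)).1 r (by omega)
            rw [hb] at this
            simp at this
          intro y hy y' hy' he
          rw [Finset.mem_coe] at hy hy'
          rcases lt_trichotomy (l y) (l y') with h | h | h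
          · exact (key y hy y' hy' h he).elim
          · have e := hBA' y (Finset.mem_of_mem_erase hy)
            have e' := hBA' y' (Finset.mem_of_mem_erase hy')
            exact hF6' y e.1 y' e'.1 (e.2.1.trans e'.2.1.symm) e.2.2 h
          · exact (key y' hy' y hy h he.symm).elim
      rw [Finset.card_erase_of_mem hm] at hcard
      omega
    omega
  have hYc : Y.card ≤ 4 * L.card := by
    apply Finset.card_le_mul_card_image_of_maps_to (f := fun y => wd u G (j0 y)) _ 4 hfib
    intro y hy
    simp only [L, Set.Finite.mem_toFinset]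
    have k := hS y (hYS y hy)
    exact LS_prefix (hLS y hy) (by omega)
  omega

end Pool.Agent.CF2
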